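import Pool.Agent.Lib.MP_1ae3da_al.C.RCg2

set_option autoImplicit false
set_option linter.unusedSectionVars false

/-! Links from a jump of the multiplicity by one, roots of unity of `p`-power order (edited copies of `link_of_delta` and `link_of_ctx`). -/

namespace Pool.Agent.Lib.MP_1ae3da_al.CT

open Submodule

variable {F A : Type} [Field F] [Ring A] [Algebra F A] [IsAlgClosed F] {K L M : Set A}
  {e e' θ i δ₁ δ₂ δ₃ : A} {p : ℕ} {GG : Subgroup (RingAut F)} {Γ : Subgroup (RingAut A)}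

theorem ycg1_delta (hp : p.Prime) (hL : Nice F L) (hM : Nice F M) (he : e ∈ IrrP F p L)
    (he' : e' ∈ IrrP F p M) (hΓ : Γ ≤ SG GG A ⊓ Stb L ⊓ Stb M ⊓ Fx e ⊓ Fx e')
    (Δ : RingAut A → A → A → F) (fin : ∀ a ∈ Γ, Lin F a → ∃ n : ℕ, a ^ (n + 1) = 1)
    (mul : ∀ a ∈ Γ, ∀ b ∈ Γ, Lin F a → Lin F b → ∀ w ∈ Ln F L e a, ∀ w' ∈ Ln F M e' a,
      ∀ v ∈ Ln F L e b, ∀ v' ∈ Ln F M e' b,
        Δ (a * b) (w * v) (w' * v') = Δ a w w' * Δ b v v')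
    (smul : ∀ a ∈ Γ, Lin F a → ∀ w ∈ Ln F L e a, ∀ w' ∈ Ln F M e' a, ∀ c c' : F, c ≠ 0 → c' ≠ 0 →
      Δ a (c • w) (c' • w') = c' / c * Δ a w w')
    (one : Δ 1 e e' = 1)
    (nat : ∀ γ ∈ Γ, ∀ σ, SL F σ γ → ∀ a ∈ Γ, Lin F a → ∀ w ∈ Ln F L e a, ∀ w' ∈ Ln F M e' a,
      Δ (γ * a * γ⁻¹) (γ w) (γ w') = σ (Δ a w w'))
    (loc : ∀ a ∈ Γ, Lin F a → ∀ m ∈ M, (∀ x ∈ L, m * x = a x * m) →
      (∃ c : F, c ≠ 0 ∧ Mup p (Nd F L e (c • (m * e))) ∧ Mup p (Nd F M e' (c • (m * e')))) ∧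
        ∃ t : ℕ, Δ a (m * e) (m * e') ^ p ^ t = 1) (hML : M ⊆ L) :
    ∃ U, Link F Γ L M e e' U := by
  have dL := rcg_ndvd hL he
  have dM := rcg_ndvd hM he'
  have sL : ∀ a ∈ Γ, a ∈ Stb L := fun a h => (hΓ h).1.1.1.2
  have sM : ∀ a ∈ Γ, a ∈ Stb M := fun a h => (hΓ h).1.1.2
  refine ⟨fun a w w' => (a ∈ Γ ∧ Lin F a ∧ w ∈ Ln F L e a ∧ w' ∈ Ln F M e' a) ∧
    (∃ c : F, c ≠ 0 ∧ Mup p (Nd F L e (c • w)) ∧ Mup p (Nd F M e' (c • w'))) ∧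
      ∃ t : ℕ, Δ a w w' ^ p ^ t = 1, fun _ _ _ h => h.1, fun a ha hl => ?_, ?_, ?_, ?_, ?_, ?_⟩
  · obtain ⟨w, hw, n1⟩ := rcg_norm hL he.1 hl (sL a ha) (hΓ ha).1.2
    obtain ⟨w', hw', n2⟩ := rcg_norm hM he'.1 hl (sM a ha) (hΓ ha).2
    have pw : ∀ n : ℕ, Lin F (a ^ (n + 1)) ∧ w ^ (n + 1) ∈ Ln F L e (a ^ (n + 1)) ∧
        w' ^ (n + 1) ∈ Ln F M e' (a ^ (n + 1)) ∧ Nd F L e (w ^ (n + 1)) = 1 ∧
        Nd F M e' (w' ^ (n + 1)) = 1 ∧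
        Δ (a ^ (n + 1)) (w ^ (n + 1)) (w' ^ (n + 1)) = Δ a w w' ^ (n + 1) := fun n => by
      induction n with
      | zero => simpa using ⟨hl, hw, hw', n1, n2⟩
      | succ n ih =>
        obtain ⟨i1, i2, i3, i4, i5, i6⟩ := ih
        have m := pow_mem ha (n + 1)
        rw [pow_succ a, pow_succ w, pow_succ w', pow_succ (Δ a w w')]
        exact ⟨i1.mul hl, Ln_mul hL he.1 i1 (sL _ m) (sL a ha) i2 hw,
          Ln_mul hM he'.1 i1 (sM _ m) (sM a ha) i3 hw',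
          by rw [Nd_mul hL he.1 i2.1 hw.1, i4, n1, mul_one],
          by rw [Nd_mul hM he'.1 i3.1 hw'.1, i5, n2, mul_one],
          by rw [mul _ m a ha i1 hl _ i2 _ i3 _ hw _ hw', i6]⟩
    obtain ⟨n, hn⟩ := fin a ha hl
    obtain ⟨-, i2, i3, i4, i5, i6⟩ := pw n
    rw [hn] at i2 i3 i6
    obtain ⟨s, s0, es⟩ := Ln_unique hL he.1 Lin.one (one_mem _) (rcg_ln_one he.1) i2
    obtain ⟨s', s0', es'⟩ := Ln_unique hM he'.1 Lin.one (one_mem _) (rcg_ln_one he'.1) i3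
    rw [es, Nd_smul hL he.1, Nd_self hL he.1, mul_one] at i4
    rw [es', Nd_smul hM he'.1, Nd_self hM he'.1, mul_one] at i5
    rw [es, es', smul 1 (one_mem _) Lin.one _ (rcg_ln_one he.1) _ (rcg_ln_one he'.1) _ _ s0 s0',
      one, mul_one] at i6
    have root : Δ a w w' ^ ((n + 1) * (dg F L e * dg F M e')) = 1 := by
      rw [pow_mul, ← i6, div_pow, pow_mul s, i4, mul_comm, pow_mul s', i5, one_pow, one_pow,
        div_one]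
    obtain ⟨t, m, x, y, hm, hx, hy, exy⟩ := Sys.split_root hp
      (Nat.mul_pos n.succ_pos (Nat.mul_pos (Dg_sq hL he.1).2 (Dg_sq hM he'.1).2)) root
    have my : Mup p y := ⟨m, (Nat.Prime.coprime_iff_not_dvd hp).1 hm.symm, hy⟩
    refine ⟨y • w, w', ⟨ha, hl, Ln_smul hw my.ne, hw'⟩, ⟨1, one_ne_zero, ?_, ?_⟩, t, ?_⟩
    · rw [one_smul, Nd_smul hL he.1, n1, mul_one]
      exact my.pow _
    · rw [one_smul, n2]
      exact Mup.one hp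
    · have := smul a ha hl w hw w' hw' y 1 my.ne one_ne_zero
      rw [one_smul, exy, mul_comm x, ← mul_assoc, one_div, inv_mul_cancel₀ my.ne, one_mul] at this
      rw [this, hx]
  · rintro a w w' b v v' ⟨⟨a1, a2, a3, a4⟩, ⟨c, c0, c1, c2⟩, t, ht⟩
      ⟨⟨b1, b2, b3, b4⟩, ⟨d, d0, d1, d2⟩, s, hs⟩
    refine ⟨⟨mul_mem a1 b1, a2.mul b2, Ln_mul hL he.1 a2 (sL a a1) (sL b b1) a3 b3,
      Ln_mul hM he'.1 a2 (sM a a1) (sM b b1) a4 b4⟩, ⟨c * d, mul_ne_zero c0 d0, ?_, ?_⟩,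
      t + s, ?_⟩
    · rw [← smul_mul_smul_comm, Nd_mul hL he.1 (smul_mem _ c a3.1) (smul_mem _ d b3.1)]
      exact c1.mul hp d1
    · rw [← smul_mul_smul_comm, Nd_mul hM he'.1 (smul_mem _ c a4.1) (smul_mem _ d b4.1)]
      exact c2.mul hp d2
    · rw [mul a a1 b b1 a2 b2 _ a3 _ a4 _ b3 _ b4, mul_pow, pow_add, pow_mul, ht, mul_comm (p ^ t),
        pow_mul, hs, one_pow, one_pow, mul_one]
  · rintro a w w' c c0 ⟨⟨a1, a2, a3, a4⟩, ⟨d, d0, d1, d2⟩, t, ht⟩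
    refine ⟨⟨a1, a2, Ln_smul a3 c0, Ln_smul a4 c0⟩, ⟨d / c, div_ne_zero d0 c0, ?_, ?_⟩, t, ?_⟩
    · rwa [smul_smul, div_mul_cancel₀ _ c0]
    · rwa [smul_smul, div_mul_cancel₀ _ c0]
    · rwa [smul a a1 a2 _ a3 _ a4 c c c0 c0, div_self c0, one_mul]
  · rintro a w w₁ w₂ ⟨⟨a1, a2, a3, a4⟩, ⟨c, c0, c1, c2⟩, t, ht⟩
      ⟨⟨-, -, -, b4⟩, ⟨d, d0, d1, d2⟩, s, hs⟩
    obtain ⟨x, x0, rfl⟩ := Ln_unique hM he'.1 a2 (sM a a1) a4 b4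
    have n1 := Nd_ne hL he.1 a2 (sL a a1) a3
    have n2 := Nd_ne hM he'.1 a2 (sM a a1) a4
    rw [Nd_smul hL he.1] at c1 d1
    rw [smul_smul] at d2
    rw [Nd_smul hM he'.1] at c2 d2
    have m1 : Mup p (c / d) := Mup.of_pow hp dL (by
      have := c1.mul hp d1.inv
      rwa [← div_eq_mul_inv, mul_div_mul_right _ _ n1, ← div_pow] at this)
    have m2 : Mup p (d * x / c) := Mup.of_pow hp dM (by
      have := d2.mul hp c2.inv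
      rwa [← div_eq_mul_inv, mul_div_mul_right _ _ n2, ← div_pow] at this)
    have m3 : Mup p x := by
      have := m1.mul hp m2
      rwa [show c / d * (d * x / c) = x by field_simp] at this
    have h1 := smul a a1 a2 _ a3 _ a4 1 x one_ne_zero x0
    rw [one_smul, div_one] at h1
    have h2 : x ^ p ^ (t + s) = 1 := by
      have h3 : (x * Δ a w w₁) ^ p ^ (t + s) = 1 := by
        rw [← h1, pow_add, mul_comm, pow_mul, hs, one_pow]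
      rwa [mul_pow, pow_add, pow_mul (Δ a w w₁), ht, one_pow, mul_one, ← pow_add] at h3
    rw [rcg_mup_one hp m3 h2, one_smul]
  · intro a a1 a2 m hm h
    obtain ⟨h1, h2⟩ := loc a a1 a2 m hm h
    exact ⟨⟨a1, a2, Ln_hm hL he.1 (hML hm) h, Ln_hm hM he'.1 hm fun x hx => h x (hML hx)⟩, h1, h2⟩
  · rintro γ hγ a w w' ⟨⟨a1, a2, a3, a4⟩, ⟨c, c0, c1, c2⟩, t, ht⟩
    obtain ⟨σ, hσ, h⟩ := (hΓ hγ).1.1.1.1
    have f1 : γ e = e := (hΓ hγ).1.2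
    have f2 : γ e' = e' := (hΓ hγ).2
    have l1 := ln_stb (hΓ hγ).1.1.1.1 (sL γ hγ) a3
    have l2 := ln_stb (hΓ hγ).1.1.1.1 (sM γ hγ) a4
    rw [f1] at l1
    rw [f2] at l2
    have n1 := Nd_nat hL he.1 h (smul_mem _ c a3.1)
    have n2 := Nd_nat hM he'.1 h (smul_mem _ c a4.1)
    rw [stb_image.1 (sL γ hγ), f1, h] at n1
    rw [stb_image.1 (sM γ hγ), f2, h] at n2
    refine ⟨⟨mul_mem (mul_mem hγ a1) (inv_mem hγ), h.lin a2, l1, l2⟩,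
      ⟨σ c, (map_ne_zero_iff σ σ.injective).2 c0, n1 ▸ rcg_mup_map c1, n2 ▸ rcg_mup_map c2⟩, t, ?_⟩
    rw [nat γ hγ σ h a a1 a2 _ a3 _ a4, ← map_pow, ht, map_one]

theorem ycg1_loc {S : Set A} {f δ y m : A} (c : Ctx F S K f θ i δ) {ζ : F}
    (h : y * m * (i * δ) = ζ • (i * δ)) : y * (m * f) * (i * δ) * f = ζ • (i * δ * f) := by
  rw [← mul_assoc y, mul_assoc _ f, Cen_comm c.irr.1 c.jm, ← mul_assoc, h, mul_assoc, c.irr.2.1,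
    smul_mul_assoc]

theorem link_of_ctxC [CharZero F] (hp : p.Prime) (c1 : Ctx F L K e θ i δ₁)
    (c2 : Ctx F L K e θ i δ₂) (c3 : Ctx F M K e' θ i δ₃) (he : e ∈ IrrP F p L)
    (he' : e' ∈ IrrP F p M) (hML : M ⊆ L)
    (hΓ : Γ ≤ SG GG A ⊓ Stb L ⊓ Stb M ⊓ Fx e ⊓ Fx e')
    (hK : ∀ γ ∈ Γ, γ ∈ Stb K ∧ γ θ = θ ∧ γ δ₁ = δ₁ ∧ γ δ₂ = δ₂ ∧ γ δ₃ = δ₃)
    (r2 : Chv F L e (i * δ₂) = Chv F L e (i * δ₁) + 1) (r3 : Chv F M e' (i * δ₃) = 1)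
    (fin : ∀ a ∈ Γ, Lin F a → ∃ n : ℕ, a ^ (n + 1) = 1)
    (loc : ∀ a ∈ Γ, Lin F a → ∀ m ∈ M, (∀ x ∈ L, m * x = a x * m) →
      (∃ c : F, c ≠ 0 ∧ Mup p (Nd F L e (c • (m * e))) ∧ Mup p (Nd F M e' (c • (m * e')))) ∧
        ∃ y ∈ Ln F K θ a⁻¹, ∃ t : ℕ,
          (∃ ζ : F, ζ ^ p ^ t = 1 ∧ y * m * (i * δ₁) = ζ • (i * δ₁)) ∧
          (∃ ζ : F, ζ ^ p ^ t = 1 ∧ y * m * (i * δ₂) = ζ • (i * δ₂)) ∧
          ∃ ζ : F, ζ ^ p ^ t = 1 ∧ y * m * (i * δ₃) = ζ • (i * δ₃)) :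
    ∃ U, Link F Γ L M e e' U := by
  have o : ∀ a ∈ Γ, Lin F a → Oka F L K δ₁ a ∧ Oka F L K δ₂ a ∧ Oka F M K δ₃ a := fun a h l =>
    ⟨⟨l, (hΓ h).1.1.1.2, (hK a h).1, (hK a h).2.2.1⟩,
      ⟨l, (hΓ h).1.1.1.2, (hK a h).1, (hK a h).2.2.2.1⟩,
      l, (hΓ h).1.1.2, (hK a h).1, (hK a h).2.2.2.2⟩
  have ex : ∀ a, ∃ y, a ∈ Γ → Lin F a → y ∈ Ln F K θ a⁻¹ := fun a => by
    by_cases h : a ∈ Γ ∧ Lin F a
    · obtain ⟨y, hy⟩ := Ln_exists c1.nK c1.irK h.2.inv (hK _ (inv_mem h.1)).1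
        (hK _ (inv_mem h.1)).2.1
      exact ⟨y, fun _ _ => hy⟩
    · exact ⟨0, fun h1 h2 => (h ⟨h1, h2⟩).elim⟩
  choose Y hY using ex
  obtain ⟨n1, a1, b1, d1⟩ := c1.smul
  obtain ⟨n2, a2, b2, d2⟩ := c2.smul
  obtain ⟨n3, a3, b3, d3⟩ := c3.smul
  obtain rfl : n2 = n1 + 1 := by
    rw [a1, a2] at r2
    exact_mod_cast r2
  obtain rfl : n3 = 1 := by
    rw [a3] at r3
    exact_mod_cast r3
  let D : A → A → A → F := fun y w w' =>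
    Dj F L e (y * w) (i * δ₁) * Dj F M e' (y * w') (i * δ₃) / Dj F L e (y * w) (i * δ₂)
  have sc : ∀ a ∈ Γ, Lin F a → ∀ y ∈ Ln F K θ a⁻¹, ∀ w ∈ Ln F L e a, ∀ w' ∈ Ln F M e' a,
      ∀ s c c' : F, s ≠ 0 → c ≠ 0 → D (s • y) (c • w) (c' • w') = c' / c * D y w w' := by
    intro a h l y hy w hw w' hw' s c c' s0 c0
    obtain ⟨o1, o2, o3⟩ := o a h l
    have m := c1.nS.span_mul (c1.sub hy.1) hw.1
    have := c2.ne o2 hy hw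
    simp only [D, smul_mul_smul_comm]
    rw [b1 _ m (c1.zc o1 hy hw).2, b2 _ m (c2.zc o2 hy hw).2,
      b3 _ (c3.nS.span_mul (c3.sub hy.1) hw'.1) (c3.zc o3 hy hw').2]
    field_simp
    ring
  have ch : ∀ a ∈ Γ, Lin F a → ∀ y ∈ Ln F K θ a⁻¹, ∀ w ∈ Ln F L e a, ∀ w' ∈ Ln F M e' a,
      D (Y a) w w' = D y w w' := by
    intro a h l y hy w hw w' hw'
    obtain ⟨s, s0, es⟩ := Ln_unique c1.nK c1.irK l.inv (hK _ (inv_mem h)).1 hy (hY a h l)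
    have := sc a h l y hy w hw w' hw' s 1 1 s0 one_ne_zero
    rwa [one_smul, one_smul, div_one, one_mul, ← es] at this
  refine ycg1_delta hp c1.nS c3.nS he he' hΓ (fun a => D (Y a)) fin ?_ ?_ ?_ ?_ ?_ hML
  · intro a ha b hb la lb w hw w' hw' v hv v' hv'
    obtain ⟨o1, o2, o3⟩ := o a ha la
    obtain ⟨u1, u2, u3⟩ := o b hb lb
    have y1 := hY a ha la
    have y2 := hY b hb lb
    have y3 := Ln_mul c1.nK c1.irK lb.inv (inv_mem u1.2.2.1) (inv_mem o1.2.2.1) y2 y1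
    rw [← mul_inv_rev] at y3
    rw [ch _ (mul_mem ha hb) (la.mul lb) _ y3 _ (Ln_mul c1.nS he.1 la o1.2.1 u1.2.1 hw hv) _
      (Ln_mul c3.nS he'.1 la o3.2.1 u3.2.1 hw' hv')]
    simp only [D]
    rw [c1.mul o1 u1 y1 hw y2 hv, c2.mul o2 u2 y1 hw y2 hv, c3.mul o3 u3 y1 hw' y2 hv',
      div_mul_div_comm, mul_mul_mul_comm]
  · intro a ha la w hw w' hw' c c' c0 _
    have := sc a ha la _ (hY a ha la) w hw w' hw' 1 c c' one_ne_zero c0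
    rwa [one_smul] at this
  · rw [ch 1 (one_mem _) Lin.one θ (by rw [inv_one]; exact rcg_ln_one c1.irK) _ (rcg_ln_one he.1) _
      (rcg_ln_one he'.1)]
    simp only [D]
    rw [c1.base, c2.base, c3.base, mul_one, div_one]
  · intro γ hγ σ h a ha la w hw w' hw'
    obtain ⟨o1, o2, o3⟩ := o a ha la
    obtain ⟨⟨⟨⟨g, sL⟩, sM⟩, f1⟩, f2⟩ := hΓ hγ
    obtain ⟨k1, k2, k3, k4, k5⟩ := hK γ hγ
    have y1 := hY a ha la
    have l0 := ln_stb g k1 y1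
    have l1 := ln_stb g sL hw
    have l2 := ln_stb g sM hw'
    rw [k2, ← conj_inv] at l0
    rw [show γ e = e from f1] at l1
    rw [show γ e' = e' from f2] at l2
    rw [ch _ (mul_mem (mul_mem hγ ha) (inv_mem hγ)) (h.lin la) _ l0 _ l1 _ l2]
    simp only [D]
    rw [c1.nat o1 y1 hw h sL k1 f1 k2 k3, c2.nat o2 y1 hw h sL k1 f1 k2 k4,
      c3.nat o3 y1 hw' h sM k1 f2 k2 k5, map_div₀, map_mul]
  · intro a ha la m hm h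
    obtain ⟨h1, y, hy, t, ⟨x1, p1, e1⟩, ⟨x2, p2, e2⟩, x3, p3, e3⟩ := loc a ha la m hm h
    refine ⟨h1, t, ?_⟩
    have l1 := Ln_hm c1.nS he.1 (hML hm) h
    have l2 := Ln_hm c3.nS he'.1 hm fun x hx => h x (hML hx)
    have m := c1.nS.span_mul (c1.sub hy.1) l1.1
    rw [ch a ha la y hy _ l1 _ l2]
    simp only [D]
    rw [d1 _ m _ (ycg1_loc c1 e1), d2 _ m _ (ycg1_loc c2 e2),
      d3 _ (c3.nS.span_mul (c3.sub hy.1) l2.1) _ (ycg1_loc c3 e3),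
      div_pow, mul_pow, pow_one, pow_right_comm _ n1, pow_right_comm _ (n1 + 1), p1, p2, p3,
      one_pow, one_pow, mul_one, div_one]

end Pool.Agent.Lib.MP_1ae3da_al.CT
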