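import Pool.Agent.Lib.MP_1ae3da_al.Y.Ce
import Pool.Agent.Lib.MP_1ae3da_al.Y.Cg1
import Pool.Agent.Lib.MP_1ae3da_al.C.RCg

set_option autoImplicit false
set_option linter.unusedSectionVars false

/-! The link at the root (edited copy of C/RCg; for `m = s • gu n` take `y = s⁻¹ • w * θ` with `ga n = w * gu n`). -/

namespace Pool.Agent.Lib.MP_1ae3da_al.CT

open Submodule

variable {p a : ℕ} {F X : Type} [Field F] [CharZero F] [IsAlgClosed F] [Group X] [Finite X]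
  [Fact p.Prime] {Q : Subgroup X} {d : X} {ga : X → MonoidAlgebra F X}
  {GG : Subgroup (RingAut F)} {e e' ε ε' θ θ' i i' ψ ψ' η η' x y b : MonoidAlgebra F X}
  {γ : RingAut (MonoidAlgebra F X)} {om : X → F}
  {T : MonoidAlgebra F X →ₗ[F] MonoidAlgebra F X} {k : Type} [Field k] {O R : Subring F}
  {r : F → k}

theorem ycg_ctx (hg : Ga0 GG p Q ga) {H : Subgroup X} (hN : NQ Q ≤ H) (he : e ∈ Irr F (HX F H))
    (hθ : θ ∈ Irr F (HX F (Kp p Q))) (hi : Prim F (HX F (Kp p Q)) θ i)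
    (hε : ε ∈ Irr F (Gs Q ga)) : Ctx F (HX F H) (HX F (Kp p Q)) e θ i ε :=
  ⟨nice_Hm0 gu_tg _, nice_Hm0 gu_tg _, he, hθ, hi, rcg_sub (rcc_KN.trans hN),
    gu_one (F := F) (X := X) ▸ rcg_gu (one_mem _),
    span_mono (rcg_sub (rcc_CN.trans hN)) (gs_le hg hε.1.1), hε.2.1,
    fun _ hb => gs_comm hg hε.1.1 (rcc_KC hb)⟩

theorem ycg_fin (hc : Cyc p a Q d) (h : γ ∈ Gm GG Q) (l : Lin F γ) :
    ∃ n : ℕ, γ ^ (n + 1) = 1 := by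
  obtain ⟨-, -, α, -, hα, -⟩ := gm_aut0 hc h
  have pw : ∀ n : ℕ, Lin F (γ ^ n) ∧ ∀ x, (γ ^ n) (gu F X x) = gu F X ((α ^ n) x) := fun n => by
    induction n with
    | zero => exact ⟨Lin.one, fun _ => rfl⟩
    | succ n ih =>
      rw [pow_succ, pow_succ]
      exact ⟨ih.1.mul l, fun x => (congrArg (γ ^ n) (hα x)).trans (ih.2 _)⟩
  refine ⟨orderOf α - 1, ga_ext (σ := 1) (pw _).1 Lin.one fun x => ?_⟩
  rw [(pw _).2, Nat.sub_add_cancel (orderOf_pos α), pow_orderOf_eq_one]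
  rfl

theorem ycg_hs (hc : Cyc p a Q d) (hg : Ga0 GG p Q ga)
    (he : e ∈ Irr F (HX F (⊤ : Subgroup X))) (hη : η ∈ Irr F (HX F (NQ Q)))
    (t : TriC Q ga p η θ i ε) (h : γ ∈ Gm GG Q ⊓ Fx e ⊓ Fx η) :
    ∃ s ∈ Gm GG Q ⊓ Fx e ⊓ Fx η, Lin F s ∧
      (∃ m ∈ HX F (NQ Q), ∀ x ∈ HX F (⊤ : Subgroup X), m * x = s x * m) ∧
      s⁻¹ * γ ∈ Gm GG Q ⊓ Fx e ⊓ Fx η ⊓ Fx θ ⊓ Fx ε := by
  obtain ⟨σ, hσ, α, hs, -, -, sQ, sK, -, h0, -⟩ := gm_autC hc hg h.1.1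
  have pr := hs.prim t.prim
  rw [stb_image.1 sK] at pr
  have t' : TriC Q ga p η (γ θ) (γ i) (γ ε) :=
    ⟨(irr_stb h.1.1.1.1 sK).2 t.irrK, pr, (irr_stb h.1.1.1.1 sQ).2 t.irrQ,
      fun k => t.ne (γ.injective (k.trans h0.symm)), fun k => t.ov (γ.injective (by
        rw [map_mul, map_mul, show γ η = η from h.2, k, map_zero]))⟩
  obtain ⟨n, hn, e1, e2⟩ := eta_conjC hc hg hη t t'
  obtain ⟨s, hs, l, es, -⟩ := gm_ad (p := p) (F := F) (GG := GG) hn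
  have m : ∀ x ∈ HX F (⊤ : Subgroup X), gu F X n * x = s x * gu F X n := fun x _ => by
    rw [es, mul_assoc, (rcc_inv n).2, mul_one]
  obtain ⟨f1, f2⟩ := inner_fix (nice_Hm0 gu_tg ⊤) (nice_Hm0 gu_tg (NQ Q)) (rcg_sub le_top) l
    hs.1.2 (aga_mem.2 hn) m
  have g : s ∈ Gm GG Q ⊓ Fx e ⊓ Fx η := ⟨⟨hs, f1 e he.1⟩, f2 η hη.1⟩
  have g' := mul_mem (inv_mem g) h
  refine ⟨s, g, l, ⟨_, aga_mem.2 hn, m⟩, ⟨g', ?_⟩, ?_⟩
  · change s⁻¹ (γ θ) = θ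
    rw [e1, ← es, tc_ia]
  · change s⁻¹ (γ ε) = ε
    rw [e2, ← es, tc_ia]

theorem ycg_loc (hc : Cyc p a Q d) (hg : Ga0 GG p Q ga) (t : TriC Q ga p η θ i ε) (l : Lin F γ)
    (sK : γ ∈ Stb (HX F (Kp p Q))) (h1 : γ ε = ε) {s : F} (s0 : s ≠ 0) {n : X} (hn : n ∈ NQ Q)
    (h : ∀ x ∈ HX F (⊤ : Subgroup X), s • gu F X n * x = γ x * s • gu F X n) :
    ∃ y ∈ Ln F (HX F (Kp p Q)) θ γ⁻¹, ∀ δ ∈ Irr F (Gs Q ga),
      ∃ ζ : F, ζ ^ p ^ a = 1 ∧ y * s • gu F X n * (i * δ) = ζ • (i * δ) := by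
  have h3 : ∀ x, gu F X n * x = γ x * gu F X n := fun x =>
    span_ind (f := fun x => gu F X n * x) (g := fun x => γ x * gu F X n)
      ⟨LinearMap.mulLeft F _, fun _ => rfl⟩
      ⟨LinearMap.mulRight F _ ∘ₗ ⟨⟨γ, map_add γ⟩, l⟩, fun _ => rfl⟩
      (fun x hx => smul_right_injective _ s0 (by
        have := h x hx
        rwa [smul_mul_assoc, mul_smul_comm] at this)) (rcc_top x)
  have hC : n ∈ CQ Q := by
    by_contra hC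
    have := gs_free hc hg t.irrQ t.ne hn hC
    rw [mul_assoc, h3, h1, ← mul_assoc, t.irrQ.2.1] at this
    exact t.irrQ.2.2.1 (by rw [← mul_one ε, ← (rcc_inv n).1, ← mul_assoc, this, zero_mul])
  obtain ⟨w, hw, ew⟩ := hg.hom n hC
  have cm : ∀ x ∈ span F (HX F (Kp p Q)), ga n * x = x * ga n := fun x hx =>
    gs_comm hg (subset_span ⟨1, one_ne_zero, n, hC, (one_smul _ _).symm⟩) (rcc_KC hx)
  have e1 : w * θ * gu F X n = ga n * θ := by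
    rw [mul_assoc, ← t.ivt hg n hC, ← mul_assoc, ← ew]
  refine ⟨s⁻¹ • (w * θ), Ln_smul ⟨gu_span_mul _ _ hw _ t.irrK.1.1,
    by rw [mul_assoc, t.irrK.2.1], fun h0 => t.irrK.2.2.1 ?_, fun x hx => ?_⟩ (inv_ne_zero s0),
    fun δ hδ => ?_⟩
  · rw [h0, zero_mul] at e1
    rw [← hg.inv θ t.irrK (t.ivt hg), Cen_comm t.irrK.1 hg.memK, ← inv_mul_cancel n,
      hg.mul _ (inv_mem hC) _ hC, mul_assoc, ← e1, mul_zero]
  · have h4 := cm _ (subset_span (((Stb _).inv_mem sK x).2 hx))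
    rw [ew, mul_assoc, h3, tc_ai, ← mul_assoc, ← mul_assoc] at h4
    have h5 : w * x = γ⁻¹ x * w := by
      rw [← mul_one (w * x), ← (rcc_inv n).1, ← mul_assoc, h4, mul_assoc, (rcc_inv n).1, mul_one]
    rw [mul_assoc, t.irrK.1.2 x hx, ← mul_assoc, h5, mul_assoc]
  · obtain ⟨ζ, z1, z2⟩ := gs_eig hc hg hδ hC
    refine ⟨ζ, z1, ?_⟩
    rw [smul_mul_smul_comm, inv_mul_cancel₀ s0, one_smul, e1, mul_assoc, ← mul_assoc θ,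
      Cen_comm t.irrK.1 t.prim.1, t.prim.2.1, ← mul_assoc, cm i t.prim.1, mul_assoc, z2,
      mul_smul_comm]

theorem ycg_main (hc : Cyc p a Q d) (hg : Ga0 GG p Q ga) (hO : Om GG Q om T)
    (he : e ∈ IrrP F p (HX F (⊤ : Subgroup X))) (hη : η ∈ EtC Q ga)
    (t : TriC Q ga p η θ i ε) (ha : x = ε ∨ x = Eo Q ga) (hb : b = ε ∨ b = Eo Q ga)
    (h : Chv F (HX F ⊤) e (i * b) = Chv F (HX F ⊤) e (i * x) + 1) :
    ∃ U, Link F (Gm GG Q ⊓ Fx e ⊓ Fx η ⊓ Fx θ ⊓ Fx ε) (HX F ⊤) (HX F (NQ Q)) e η U := by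
  have hp : p.Prime := Fact.out
  have ir : ∀ x, x = ε ∨ x = Eo Q ga → x ∈ Irr F (Gs Q ga) := fun x hx =>
    hx.elim (· ▸ t.irrQ) (· ▸ eo_irr hc hg)
  refine link_of_ctxC (GG := GG) hp (ycg_ctx hg le_top he.1 t.irrK t.prim (ir x ha))
    (ycg_ctx hg le_top he.1 t.irrK t.prim (ir b hb))
    (ycg_ctx hg le_rfl hη.1 t.irrK t.prim t.irrQ) he
    ⟨hη.1, irrN_ndvdC hc hg hO hη.1 hη.2.1⟩ (rcg_sub le_top) (inf_le_left.trans inf_le_left)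
    (fun γ hγ => ?_) h ((chv_etaC hc hg hη.1 t hη.1).1 rfl) (fun γ hγ => ycg_fin hc hγ.1.1.1.1)
    fun γ hγ l m hm hh => ?_
  · obtain ⟨-, -, -, -, -, -, -, sK, -, h0, -⟩ := gm_autC hc hg hγ.1.1.1.1
    exact ⟨sK, hγ.1.2, ha.elim (· ▸ hγ.2) (· ▸ h0), hb.elim (· ▸ hγ.2) (· ▸ h0), hγ.2⟩
  · obtain ⟨-, -, -, -, -, -, sK, -⟩ := gm_aut0 hc hγ.1.1.1.1
    obtain ⟨s, s0, n, hn, rfl⟩ := hm
    obtain ⟨y, hy, hz⟩ := ycg_loc hc hg t l sK hγ.2 s0 hn hh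
    refine ⟨⟨s⁻¹, inv_ne_zero s0, ?_, ?_⟩, y, hy, a, hz _ (ir x ha), hz _ (ir b hb), hz _ t.irrQ⟩
    · rw [smul_mul_assoc, inv_smul_smul₀ s0, Nd_mul_e (nice_Hm0 gu_tg _) he.1 (rcc_top _),
        rcg_detX hc.per he.1]
      exact Mup.one hp
    · obtain ⟨ν, hν⟩ := rcg_det hη.1
      rw [smul_mul_assoc, inv_smul_smul₀ s0, Nd_mul_e (nice_Hm0 gu_tg _) hη.1 (rcg_gu hn),
        hν ⟨n, hn⟩]
      exact hc.mup ((Units.coeHom F).comp ν) ⟨n, hn⟩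

theorem root_linkC (h : Cyc p a Q d) (hg : Ga0 GG p Q ga) (hO : Om GG Q om T) (he : e ∈ IrrP F p (HX F (⊤ : Subgroup X)))
    (hη : η ∈ EtC Q ga) (hm : mzC Q ga p e η = 1 ∨ mzC Q ga p e η = -1) :
    ∃ U, Link F (Gm GG Q ⊓ Fx e ⊓ Fx η) (HX F ⊤) (HX F (NQ Q)) e η U := by
  obtain ⟨θ, i, ε, t⟩ := eta_tri0 h hg hη
  have sp := mz_specC h hg he.1 hη.1 t
  obtain ⟨l, hl⟩ := Chv_lin (F := F) (HX F (⊤ : Subgroup X)) e
  rw [← hl, mul_sub, map_sub, hl, hl] at sp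
  obtain ⟨U, hU⟩ : ∃ U, Link F (Gm GG Q ⊓ Fx e ⊓ Fx η ⊓ Fx θ ⊓ Fx ε) (HX F ⊤) (HX F (NQ Q))
      e η U := by
    rcases hm with hm | hm <;> rw [hm] at sp <;> push_cast at sp
    · exact ycg_main h hg hO he hη t (.inl rfl) (.inr rfl) (by linear_combination -sp)
    · exact ycg_main h hg hO he hη t (.inr rfl) (.inl rfl) (by linear_combination sp)
  exact Link.ext (GG := GG) le_rfl (inf_le_left.trans inf_le_left) (nice_Hm0 gu_tg _)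
    (nice_Hm0 gu_tg _) (rcg_sub le_top) he.1 hη.1 (fun γ hγ => ycg_hs h hg he.1 hη.1 t hγ) hU

end Pool.Agent.Lib.MP_1ae3da_al.CT
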