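import Pool.Agent.Lib.MP_1ae3da_al.Y.Cc
import Pool.Agent.Lib.MP_1ae3da_al.C.RCtw

set_option autoImplicit false
set_option linter.unusedSectionVars false

/-! The twist by the linear character, and the two counts. -/

namespace Pool.Agent.Lib.MP_1ae3da_al.CT

open Submodule

variable {p a : ℕ} {F X : Type} [Field F] [CharZero F] [IsAlgClosed F] [Group X] [Finite X]
  [Fact p.Prime] {Q : Subgroup X} {d : X} {ga : X → MonoidAlgebra F X}
  {GG : Subgroup (RingAut F)} {e e' ε ε' θ θ' i i' ψ ψ' η η' x y b : MonoidAlgebra F X}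
  {γ : RingAut (MonoidAlgebra F X)} {om : X → F}
  {T : MonoidAlgebra F X →ₗ[F] MonoidAlgebra F X} {k : Type} [Field k] {O R : Subring F}
  {r : F → k}

theorem tw_psiC (h : Cyc p a Q d) (hg : Ga0 GG p Q ga) (hO : Om GG Q om T) (hψ : ψ ∈ PsC Q ga) :
    T ψ ∈ PsC Q ga ∧ Bk F p Q ψ (T ψ) := by
  have m := hψ.1.1.1
  have c : Eo Q ga ∈ span F (HX F (CQ Q)) := gs_le hg (eo_irr h hg).1.1
  refine ⟨⟨rcd_irr hO hψ.1, ?_⟩, ?_⟩
  · rw [← rcd_fix hO c, ← rcd_mul hO m (span_Hm_mono rcd_le c), hψ.2]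
  · obtain ⟨θ, hθ, k, -⟩ := bk_refl (p := p) (Q := Q) hψ.1.2.2.1
    have d : θ ∈ span F (HX F (CQ Q)) := span_Hm_mono (kp_le Q) hθ.1.1
    have d' : θ ∈ span F (HX F (NQ Q)) := span_Hm_mono rcd_le d
    refine ⟨θ, hθ, k, fun z => k (rcd_zero hO (gu_span_mul _ _ m _ d') ?_)⟩
    rw [rcd_mul hO m d', rcd_fix hO d, z]

theorem tw_transC (h : Cyc p a Q d) (hg : Ga0 GG p Q ga) (hO : Om GG Q om T) (hψ : ψ ∈ PsC Q ga) (hψ' : ψ' ∈ PsC Q ga)
    (hb : Bk F p Q ψ ψ') : ∃ n : ℕ, (T ^ n) ψ = ψ' := by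
  classical
  by_contra hn
  have i (n : ℕ) : (T ^ n) ψ ∈ Irr F (HX F (NQ Q)) := by
    induction n with
    | zero => exact hψ.1
    | succ n ih => rw [pow_succ', Module.End.mul_apply]; exact rcd_irr hO ih
  obtain ⟨θ, hθ, k, k'⟩ := hb
  have c : Eo Q ga * θ = θ * Eo Q ga :=
    gs_comm hg (eo_irr h hg).1.1 (span_Hm_mono (kp_le Q) hθ.1.1)
  obtain ⟨z, hz⟩ : ∃ z, z = ∑ n ∈ Finset.range (Nat.card X), (T ^ n) ψ := ⟨_, rfl⟩
  have z1 : z ∈ span F (HX F (NQ Q)) := hz ▸ sum_mem fun n _ => (i n).1.1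
  have z2 : T z = z := by
    have := (Finset.sum_range_succ' (fun n => (T ^ n) ψ) (Nat.card X)).symm.trans
      (Finset.sum_range_succ (fun n => (T ^ n) ψ) (Nat.card X))
    rw [rcd_ord hO hψ.1.1.1, pow_zero, Module.End.one_apply, add_left_inj] at this
    rw [hz, map_sum, ← this]
    exact Finset.sum_congr rfl fun n _ => by rw [pow_succ', Module.End.mul_apply]
  have z3 : z ∈ Cen F (HX F (CQ Q)) := ⟨rcd_of_fix hO z1 z2, fun s hs => by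
    rw [hz, Finset.sum_mul, Finset.mul_sum]
    exact Finset.sum_congr rfl fun n _ => (i n).1.2 s (Hm_mono rcd_le hs)⟩
  obtain ⟨w, hd⟩ := (irrCC h hg (eo_irr h hg) hθ
    (over_ivt hg hψ.1 (psC_z hg hψ) hθ k)).2.2.2 z z3
  have z4 : ψ' * z = 0 := by
    rw [hz, Finset.mul_sum]
    exact Finset.sum_eq_zero fun n _ => Irr_orth hψ'.1 (i n) fun e => hn ⟨n, e.symm⟩
  have d0 : w = 0 := by
    have := congrArg (ψ' * ·) hd
    simp only [← mul_assoc, z4, zero_mul, mul_smul_comm] at this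
    rw [mul_assoc, ← c, ← mul_assoc, hψ'.2] at this
    exact (smul_eq_zero.1 this.symm).resolve_right k'
  have z5 : ψ * z = (((Finset.range (Nat.card X)).filter fun n => (T ^ n) ψ = ψ).card : F) • ψ := by
    rw [hz, Finset.mul_sum, ← Finset.sum_boole, Finset.sum_smul]
    refine Finset.sum_congr rfl fun n _ => ?_
    split_ifs with e
    · rw [e, hψ.1.2.1, one_smul]
    · rw [Irr_orth hψ.1 (i n) (Ne.symm e), zero_smul]
  have := congrArg (ψ * ·) hd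
  simp only [← mul_assoc, z5, d0, zero_smul, mul_zero, smul_mul_assoc] at this
  rw [mul_assoc, ← c, ← mul_assoc, hψ.2] at this
  refine (smul_eq_zero.1 this).elim (Nat.cast_ne_zero.2 (Finset.card_ne_zero.2 ⟨0, ?_⟩)) k
  exact Finset.mem_filter.2 ⟨Finset.mem_range.2 Nat.card_pos, rfl⟩

theorem yCt_fin (H : Subgroup X) : (Irr F (HX F H)).Finite := by
  obtain ⟨s, hs, -⟩ := (nice_Hm0 (gu_tg (F := F) (X := X)) H).irr_sum
  rw [← hs]; exact s.finite_toSet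

theorem yCt_mod (h : Cyc p a Q d) (hO : Om GG Q om T) (hx : x ∈ span F (HX F (NQ Q))) (n : ℕ) :
    (T ^ n) x = (T ^ (n % (p - 1))) x :=
  ta_ext (fun g hg => by
    have o : om g ^ (p - 1) = 1 := by
      rw [← rcd_pow hO hg]
      exact (hO.ker _ (pow_mem hg _)).2 (h.powC hg)
    rw [rcd_tpow hO, rcd_tpow hO, ← pow_eq_pow_mod n o]) hx

/-- `T ^ (p - 1)` is the identity on the span of the normaliser. -/
theorem psi_card (h : Cyc p a Q d) (hg : Ga0 GG p Q ga) (hO : Om GG Q om T) (hη : η ∈ EtC Q ga) :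
    0 < {ψ | ψ ∈ PsC Q ga ∧ Bk F p Q ψ η}.ncard ∧
      {ψ | ψ ∈ PsC Q ga ∧ Bk F p Q ψ η}.ncard ≤ p - 1 := by
  classical
  have h0 : η * ga 1 ≠ 0 := by rw [hη.2.1]; exact hη.1.2.2.1
  obtain ⟨ψ0, h1, h2⟩ := psi_of h hg h0
  have hp : 0 < p - 1 := Nat.sub_pos_of_lt h.prime.one_lt
  have fin : {ψ | ψ ∈ PsC Q ga ∧ Bk F p Q ψ η}.Finite := (yCt_fin (NQ Q)).subset fun _ k => k.1.1
  refine ⟨(Set.ncard_pos fin).2 ⟨ψ0, h1, h2⟩, ?_⟩
  have sub : {ψ | ψ ∈ PsC Q ga ∧ Bk F p Q ψ η} ⊆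
      ((Finset.range (p - 1)).image fun n => (T ^ n) ψ0 : Finset _) := by
    rintro ψ ⟨k1, θ, hθ, k2, k3⟩
    have k4 : ψ0 * θ ≠ 0 := bk_over hη.1 h1.1 (h2.imp fun _ k => ⟨k.1, k.2.2, k.2.1⟩) hθ k3
    obtain ⟨n, rfl⟩ := tw_transC h hg hO h1 k1 ⟨θ, hθ, k4, k2⟩
    refine Finset.mem_coe.2 (Finset.mem_image.2 ⟨n % (p - 1), Finset.mem_range.2 (Nat.mod_lt _ hp), ?_⟩)
    exact (yCt_mod h hO h1.1.1.1 n).symm
  refine (Set.ncard_le_ncard sub (Finset.finite_toSet _)).trans ?_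
  rw [Set.ncard_coe_finset]
  exact Finset.card_image_le.trans (Finset.card_range _).le

theorem yCt_cj (hg : Ga0 GG p Q ga) (hε : ε ∈ span F (Gs Q ga)) (n : X) {c : X} (hc : c ∈ CQ Q) :
    gu F X (n * c) * ε * gu F X (n * c)⁻¹ = gu F X n * ε * gu F X n⁻¹ := by
  have k := gs_comm hg hε (subset_span (mem_Hm (u := gu F X) hc))
  rw [mul_inv_rev, ← gu_mul, ← gu_mul, mul_assoc _ _ ε, ← k, ← mul_assoc, ← mul_assoc,
    mul_assoc _ _ (gu F X c⁻¹), (rcc_inv c).1, mul_one]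

theorem yCt_fib (h : Cyc p a Q d) (hg : Ga0 GG p Q ga) (hε : ε ∈ span F (Gs Q ga))
    (s : Finset (MonoidAlgebra F X)) (hs : ∀ y ∈ s, ∃ n ∈ NQ Q, y = gu F X n * ε * gu F X n⁻¹) :
    s.card ≤ p - 1 := by
  classical
  have := Fintype.ofFinite (NQ Q ⧸ (CQ Q).subgroupOf (NQ Q))
  have sub : s ⊆ Finset.univ.image fun q : NQ Q ⧸ (CQ Q).subgroupOf (NQ Q) =>
      gu F X (q.out : NQ Q) * ε * gu F X ((q.out : NQ Q) : X)⁻¹ := fun y hy => by
    obtain ⟨n, hn, rfl⟩ := hs y hy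
    obtain ⟨c, hc⟩ := QuotientGroup.mk_out_eq_mul ((CQ Q).subgroupOf (NQ Q)) ⟨n, hn⟩
    refine Finset.mem_image.2 ⟨((⟨n, hn⟩ : NQ Q) : NQ Q ⧸ (CQ Q).subgroupOf (NQ Q)),
      Finset.mem_univ _, ?_⟩
    rw [hc]
    exact yCt_cj hg hε n c.2
  refine (Finset.card_le_card sub).trans (Finset.card_image_le.trans ?_)
  rw [Finset.card_univ, ← Nat.card_eq_fintype_card]
  exact Nat.le_of_dvd (Nat.sub_pos_of_lt h.prime.one_lt) h.rel

/-- `ε ↦ η (θ ε)` on the `p ^ a - 1` blocks `ε ≠ Eo` has fibres of size at most `p - 1`. -/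
theorem eta_card (h : Cyc p a Q d) (hg : Ga0 GG p Q ga) (hη : η ∈ EtC Q ga) :
    p + 1 ≤ {η' | η' ∈ EtC Q ga ∧ Bk F p Q η η'}.ncard := by
  classical
  obtain ⟨θ, i, ε0, t⟩ := eta_tri0 h hg hη
  have hi := t.ivt hg
  obtain ⟨s, hs, hc, -⟩ := gs_sum h hg
  have ms : ∀ ε, ε ∈ s.erase (Eo Q ga) → ε ∈ Irr F (Gs Q ga) ∧ ε ≠ Eo Q ga := fun ε k =>
    ⟨hs ▸ Finset.mem_coe.2 (Finset.mem_of_mem_erase k), Finset.ne_of_mem_erase k⟩
  have ex : ∀ ε, ∃ η', ε ∈ s.erase (Eo Q ga) → η' ∈ EtC Q ga ∧ η' * (θ * ε) ≠ 0 := fun ε => by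
    by_cases k : ε ∈ s.erase (Eo Q ga)
    · obtain ⟨η', k1, k2, -⟩ := eta_exC h hg t.irrK hi (ms ε k).1 (ms ε k).2
      exact ⟨η', fun _ => ⟨k1, by rw [k2]; exact (irrCC h hg (ms ε k).1 t.irrK hi).2.2.1⟩⟩
    · exact ⟨0, fun k' => (k k').elim⟩
  choose f hf using ex
  have fin : {η' | η' ∈ EtC Q ga ∧ Bk F p Q η η'}.Finite :=
    (yCt_fin (NQ Q)).subset fun _ k => k.1.1
  have ov : ∀ {y ε : MonoidAlgebra F X}, y * (θ * ε) ≠ 0 → y * θ ≠ 0 := fun k z =>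
    k (by rw [← mul_assoc, z, zero_mul])
  have le : (s.erase (Eo Q ga)).card ≤ (p - 1) * fin.toFinset.card := by
    refine Finset.card_le_mul_card_image_of_maps_to (f := f) (fun ε k => ?_) _ (fun b _ => ?_)
    · exact fin.mem_toFinset.2 ⟨(hf ε k).1, θ, t.irrK, ov t.ov, ov (hf ε k).2⟩
    · rcases ((s.erase (Eo Q ga)).filter fun ε => f ε = b).eq_empty_or_nonempty with z | ⟨ε, z⟩
      · rw [z]; exact Nat.zero_le _
      · obtain ⟨z1, z2⟩ := Finset.mem_filter.1 z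
        refine yCt_fib h hg (ms ε z1).1.1.1 _ fun ε' k => ?_
        obtain ⟨k1, k2⟩ := Finset.mem_filter.1 k
        obtain ⟨n, hn, -, k3⟩ := eta_conjC h hg (hf ε z1).1.1
          ⟨t.irrK, t.prim, (ms ε z1).1, (ms ε z1).2, (hf ε z1).2⟩
          ⟨t.irrK, t.prim, (ms ε' k1).1, (ms ε' k1).2, by rw [z2, ← k2]; exact (hf ε' k1).2⟩
        exact ⟨n, hn, k3⟩
  rw [Finset.card_erase_of_mem (Finset.mem_coe.1 (hs ▸ eo_irr h hg)), hc,
    ← Set.ncard_eq_toFinset_card _ fin] at le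
  have h1 := h.prime.one_lt
  have h2 : p ^ 2 ≤ p ^ a := Nat.pow_le_pow_right h.prime.pos h.two
  obtain ⟨m, rfl⟩ : ∃ m, p = m + 1 := ⟨p - 1, by omega⟩
  rw [Nat.add_sub_cancel] at le
  refine Nat.le_of_mul_le_mul_left ?_ (show 0 < m by omega)
  have : (m + 1) ^ 2 = m * (m + 1 + 1) + 1 := by ring
  exact le_trans (Nat.le_sub_one_of_lt (Nat.lt_of_succ_le (this.symm.le.trans h2))) le

end Pool.Agent.Lib.MP_1ae3da_al.CT
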