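import Mathlib

set_option autoImplicit false

/-! Exceptional characters: the pure count. -/

namespace Pool.Agent.Lib.MP_1ae3da_al.CT

open Finset

section
variable {X : Type} [Fintype X] [DecidableEq X]

/-- a vector of norm two and degree zero is a difference of two basis vectors. -/
theorem g4_two (f d : X → ℤ) (hd : ∀ x, 0 < d x) (h2 : ∑ x, f x * f x = 2)
    (h0 : ∑ x, d x * f x = 0) :
    ∃ a b, a ≠ b ∧ ∀ x, f x = (if x = a then 1 else 0) - (if x = b then 1 else 0) := by
  have hp : ∀ g : X → ℤ, ∑ x, g x * g x = 2 → ∑ x, d x * g x = 0 → ∃ a, 0 < g a := by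
    intro g g2 g0
    by_contra h
    have h1 : ∀ a, g a ≤ 0 := fun a => not_lt.1 fun k => h ⟨a, k⟩
    have h3 := (sum_eq_zero_iff_of_nonpos fun x _ =>
      mul_nonpos_of_nonneg_of_nonpos (hd x).le (h1 x)).1 g0
    have h4 : ∀ x, g x = 0 := fun x =>
      (mul_eq_zero.1 (h3 x (mem_univ x))).resolve_left (hd x).ne'
    simp [h4] at g2
  obtain ⟨a, ha⟩ := hp f h2 h0
  obtain ⟨b, hb⟩ := hp (fun x => -f x) (by simpa using h2) (by simpa using h0)
  have hb' : f b < 0 := by simpa using hb
  have hab : a ≠ b := fun h => by rw [h] at ha; omega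
  have hs : ∑ x, f x * f x = f a * f a + f b * f b + ∑ x ∈ (univ.erase a).erase b, f x * f x := by
    rw [← add_sum_erase univ _ (mem_univ a),
      ← add_sum_erase (univ.erase a) _ (mem_erase.2 ⟨hab.symm, mem_univ b⟩), add_assoc]
  have hn : 0 ≤ ∑ x ∈ (univ.erase a).erase b, f x * f x :=
    sum_nonneg fun x _ => mul_self_nonneg _
  have a1 : f a = 1 := by nlinarith
  have b1 : f b = -1 := by nlinarith
  have hz : ∑ x ∈ (univ.erase a).erase b, f x * f x = 0 := by
    rw [a1, b1, h2] at hs; omega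
  have hz' := (sum_eq_zero_iff_of_nonneg fun x _ => mul_self_nonneg (f x)).1 hz
  refine ⟨a, b, hab, fun x => ?_⟩
  by_cases xa : x = a
  · subst xa; simp [hab, a1]
  by_cases xb : x = b
  · subst xb; simp [xa, b1]
  have := hz' x (mem_erase.2 ⟨xb, mem_erase.2 ⟨xa, mem_univ x⟩⟩)
  simp [xa, xb, mul_self_eq_zero.1 this]

variable {I : Type} {m : I → X → ℤ} {P : I → I → X}

omit [Fintype X] in
/-- every triple has one of two shapes. -/
theorem g4_tri (hne : ∀ i j, i ≠ j → P i j ≠ P j i)
    (h : ∀ i j, i ≠ j → ∀ x, m i x - m j x =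
      (if x = P i j then 1 else 0) - (if x = P j i then 1 else 0))
    {i j l : I} (ij : i ≠ j) (il : i ≠ l) (jl : j ≠ l) :
    (P i j = P i l ∧ P j i = P j l ∧ P l j = P l i) ∨
      (P j i = P l i ∧ P i j = P l j ∧ P j l = P i l) := by
  have n1 := hne i j ij
  have n2 := hne i l il
  have n3 := hne j l jl
  have k : ∀ x, ((if x = P i j then 1 else 0) - (if x = P j i then 1 else 0) : ℤ) +
      ((if x = P j l then 1 else 0) - (if x = P l j then 1 else 0)) =
      (if x = P i l then 1 else 0) - (if x = P l i then 1 else 0) := fun x => by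
    rw [← h i j ij x, ← h j l jl x, ← h i l il x]; ring
  have k1 := k (P i j)
  have k2 := k (P j i)
  have k3 := k (P j l)
  have k4 := k (P l j)
  have k5 := k (P i l)
  clear k h hne
  generalize P i j = a at *
  generalize P j i = b at *
  generalize P j l = c at *
  generalize P l j = d at *
  generalize P i l = e at *
  generalize P l i = f at *
  grind

omit [Fintype X] in
/-- two triples with a common pair have the same shape. -/
theorem g4_mix (hne : ∀ i j, i ≠ j → P i j ≠ P j i)
    (h : ∀ i j, i ≠ j → ∀ x, m i x - m j x =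
      (if x = P i j then 1 else 0) - (if x = P j i then 1 else 0))
    {i j l k : I} (ij : i ≠ j) (il : i ≠ l) (jl : j ≠ l) (ik : i ≠ k) (jk : j ≠ k)
    (h1 : P i j = P i l ∧ P j i = P j l ∧ P l j = P l i)
    (h2 : P j i = P k i ∧ P i j = P k j ∧ P j k = P i k) : False := by
  have n1 := hne i j ij
  have n2 := hne i l il
  have n3 := hne j l jl
  have n4 := hne i k ik
  have n5 := hne j k jk
  by_cases lk : l = k
  · subst lk
    exact n3 (h1.2.1.symm.trans (h2.1.trans h1.2.2.symm))
  have q : ∀ x, ((if x = P l i then 1 else 0) - (if x = P i l then 1 else 0) : ℤ) +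
      ((if x = P i k then 1 else 0) - (if x = P k i then 1 else 0)) =
      (if x = P l k then 1 else 0) - (if x = P k l then 1 else 0) := fun x => by
    rw [← h l i il.symm x, ← h i k ik x, ← h l k lk x]; ring
  have k1 := q (P i j)
  have k2 := q (P j i)
  obtain ⟨a1, a2, a3⟩ := h1
  obtain ⟨b1, b2, b3⟩ := h2
  grind

omit [Fintype X] in
theorem g4_plus (hne : ∀ i j, i ≠ j → P i j ≠ P j i)
    (h : ∀ i j, i ≠ j → ∀ x, m i x - m j x =
      (if x = P i j then 1 else 0) - (if x = P j i then 1 else 0))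
    {a b c : I} (ab : a ≠ b) (ac : a ≠ c) (bc : b ≠ c)
    (h0 : P a b = P a c ∧ P b a = P b c ∧ P c b = P c a)
    {i j l : I} (ij : i ≠ j) (il : i ≠ l) : P i j = P i l := by
  let T : I → I → I → Prop := fun i j l => P i j = P i l ∧ P j i = P j l ∧ P l j = P l i
  have s1 : ∀ i j l, T i j l → T j i l := fun i j l t => ⟨t.2.1, t.1, t.2.2.symm⟩
  have s2 : ∀ i j l, T i j l → T i l j := fun i j l t => ⟨t.1.symm, t.2.2.symm, t.2.1.symm⟩
  have s3 : ∀ i j l k, i ≠ j → i ≠ l → j ≠ l → i ≠ k → j ≠ k → T i j l → T i j k :=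
    fun i j l k ij il jl ik jk t =>
      (g4_tri hne h ij ik jk).resolve_right fun u => g4_mix hne h ij il jl ik jk t u
  have s4 : ∀ j, a ≠ j → ∀ k, a ≠ k → j ≠ k → T a j k := by
    intro j aj k ak jk
    by_cases jb : b = j
    · subst jb; exact s3 a b c k ab ac bc ak jk h0
    · exact s3 a j b k aj ab (Ne.symm jb) ak jk (s2 _ _ _ (s3 a b c j ab ac bc aj jb h0))
  by_cases jl : j = l
  · rw [jl]
  by_cases ai : a = i
  · subst ai; exact (s4 j ij l il jl).1
  by_cases aj : a = j
  · subst aj; exact (s1 _ _ _ (s4 i ai l jl il)).1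
  exact (s3 i j a l ij (Ne.symm ai) (Ne.symm aj) il jl
    (s2 _ _ _ (s1 _ _ _ (s4 i ai j aj ij)))).1

variable [Fintype I] [DecidableEq I]

theorem g4_pos (d : X → ℤ) (hd : ∀ x, 0 < d x) {e : ℕ} (hI : e + 2 ≤ Fintype.card I)
    (gram : ∀ i j, ∑ x, m i x * m j x = e + if i = j then 1 else 0)
    (deg : ∀ i, ∑ x, d x * m i x = 0) (κ : I → X) (hκ : Function.Injective κ)
    (h : ∀ i j x, m i x - m j x = (if x = κ i then 1 else 0) - (if x = κ j then 1 else 0)) :
    ∀ i j, m i (κ j) = if i = j then 1 else 0 := by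
  have a1 : ∀ i j l, m i (κ j) - m i (κ l) =
      (if i = j then 1 else 0) - (if i = l then 1 else 0) := fun i j l => by
    have : ∑ x, m i x * (m j x - m l x) = m i (κ j) - m i (κ l) := by
      simp [h j l, mul_sub, sum_sub_distrib]
    rw [← this]
    simp only [mul_sub, sum_sub_distrib, gram]; ring
  intro i
  have hs : ∀ f : X → ℤ, ∑ x, f x = f (κ i) + ∑ j ∈ univ.erase i, f (κ j) +
      ∑ x ∈ univ \ univ.image κ, f x := fun f => by
    rw [add_sum_erase univ (fun j => f (κ j)) (mem_univ i),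
      ← sum_image (f := f) (fun a _ b _ k => hκ k), add_comm, sum_sdiff (subset_univ _)]
  have a2 : ∀ j ∈ univ.erase i, m i (κ j) = m i (κ i) - 1 := fun j hj => by
    have := a1 i j i
    rw [if_neg (mem_erase.1 hj).1.symm, if_pos rfl] at this
    omega
  have hc : ((univ.erase i).card : ℤ) ≥ e + 1 := by
    rw [card_erase_of_mem (mem_univ i), card_univ]; omega
  have a3 := hs fun x => m i x * m i x
  rw [gram, if_pos rfl, sum_congr rfl fun j hj => by rw [a2 j hj], sum_const, nsmul_eq_mul] at a3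
  have hn : 0 ≤ ∑ x ∈ univ \ univ.image κ, m i x * m i x :=
    sum_nonneg fun x _ => mul_self_nonneg _
  have a4 : m i (κ i) = 1 := by
    by_contra k
    have k1 : 1 ≤ (m i (κ i) - 1) * (m i (κ i) - 1) :=
      mul_self_pos.2 (sub_ne_zero.2 k)
    have k2 : (e + 1 : ℤ) ≤ (univ.erase i).card * ((m i (κ i) - 1) * (m i (κ i) - 1)) := by
      nlinarith
    have k3 := mul_self_nonneg (m i (κ i))
    have k4 : m i (κ i) = 0 := mul_self_eq_zero.1 (by linarith)
    have k5 : ∑ x ∈ univ \ univ.image κ, m i x * m i x = 0 := by linarith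
    have k6 := (sum_eq_zero_iff_of_nonneg fun x _ => mul_self_nonneg (m i x)).1 k5
    have a5 := hs fun x => d x * m i x
    rw [deg, k4, sum_eq_zero (s := univ \ univ.image κ) fun x hx => by
      rw [mul_self_eq_zero.1 (k6 x hx), mul_zero]] at a5
    have k7 : ∑ j ∈ univ.erase i, d (κ j) * m i (κ j) < 0 :=
      sum_neg (fun j hj => by rw [a2 j hj, k4]; have := hd (κ j); omega)
        (card_pos.1 (by omega))
    omega
  intro j
  have := a1 i j i
  rw [if_pos rfl] at this
  omega

/-- the count in one block. -/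
theorem g4_count (d : X → ℤ) (hd : ∀ x, 0 < d x) {e : ℕ} (he : 0 < e)
    (hI : e + 2 ≤ Fintype.card I)
    (gram : ∀ i j, ∑ x, m i x * m j x = e + if i = j then 1 else 0)
    (deg : ∀ i, ∑ x, d x * m i x = 0) :
    ∃ (κ : I → X) (ε : ℤ), (ε = 1 ∨ ε = -1) ∧
      (∀ i j, m i (κ j) = if i = j then ε else 0) ∧
      ∀ x ∉ Set.range κ, ∀ i j, m i x = m j x := by
  have key : ∀ (m : I → X → ℤ) (P : I → I → X), (∀ i j, i ≠ j → P i j ≠ P j i) →
      (∀ i j, i ≠ j → ∀ x, m i x - m j x =
        (if x = P i j then 1 else 0) - (if x = P j i then 1 else 0)) →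
      (∀ i j, ∑ x, m i x * m j x = e + if i = j then 1 else 0) → (∀ i, ∑ x, d x * m i x = 0) →
      (∀ i j l, i ≠ j → i ≠ l → P i j = P i l) →
      ∃ κ : I → X, (∀ i j, m i (κ j) = if i = j then 1 else 0) ∧
        ∀ x ∉ Set.range κ, ∀ i j, m i x = m j x := by
    intro m P hne h gram deg hP
    have : Nontrivial I := Fintype.one_lt_card_iff_nontrivial.1 (by omega)
    choose o ho using fun i : I => exists_ne i
    have e1 : ∀ i j, i ≠ j → P i (o i) = P i j := fun i j k => hP i _ j (ho i).symm k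
    have e2 : ∀ i j x, m i x - m j x =
        (if x = P i (o i) then 1 else 0) - (if x = P j (o j) then 1 else 0) := fun i j x => by
      by_cases k : i = j
      · subst k; simp
      · rw [e1 i j k, e1 j i (Ne.symm k), h i j k]
    refine ⟨fun i => P i (o i), g4_pos d hd hI gram deg _ (fun i j k => ?_) e2, fun x hx i j => ?_⟩
    · by_contra k'
      exact hne i j k' ((e1 i j k').symm.trans (k.trans (e1 j i (Ne.symm k'))))
    · have := e2 i j x
      rw [if_neg fun k => hx ⟨i, k.symm⟩, if_neg fun k => hx ⟨j, k.symm⟩] at this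
      omega
  have h2 : ∀ i j, i ≠ j → ∃ a b, a ≠ b ∧ ∀ x, m i x - m j x =
      (if x = a then 1 else 0) - (if x = b then 1 else 0) := fun i j k =>
    g4_two (fun x => m i x - m j x) d hd
      (by
        simp only [mul_sub, sub_mul, sum_sub_distrib, gram, if_pos, if_neg k, if_neg (Ne.symm k)]
        ring)
      (by simp only [mul_sub, sum_sub_distrib, deg, sub_self])
  obtain ⟨a, b, c, ab, ac, bc⟩ := Fintype.two_lt_card_iff.1 (show 2 < Fintype.card I by omega)
  have : Nonempty X := ⟨(h2 a b ab).choose⟩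
  choose! A B hAB hv using h2
  have hB : ∀ i j, i ≠ j → B i j = A j i := fun i j k => by
    have k1 := hv i j k (B i j)
    have k2 := hv j i (Ne.symm k) (B i j)
    have := hAB i j k
    grind
  have hne : ∀ i j, i ≠ j → A i j ≠ A j i := fun i j k => hB i j k ▸ hAB i j k
  have h : ∀ i j, i ≠ j → ∀ x, m i x - m j x =
      (if x = A i j then 1 else 0) - (if x = A j i then 1 else 0) := fun i j k x => by
    rw [hv i j k, hB i j k]
  rcases g4_tri hne h ab ac bc with t | t
  · obtain ⟨κ, k1, k2⟩ := key m A hne h gram deg fun i j l => g4_plus hne h ab ac bc t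
    exact ⟨κ, 1, .inl rfl, k1, k2⟩
  · have hne' : ∀ i j, i ≠ j → A j i ≠ A i j := fun i j k => (hne i j k).symm
    have h' : ∀ i j, i ≠ j → ∀ x, -m i x - -m j x =
        (if x = A j i then 1 else 0) - (if x = A i j then 1 else 0) := fun i j k x => by
      rw [← h j i (Ne.symm k) x]; ring
    obtain ⟨κ, k1, k2⟩ := key (fun i x => -m i x) (fun i j => A j i) hne' h'
      (by simpa using gram) (by simpa using deg)
      fun i j l => g4_plus (m := fun i x => -m i x) (P := fun i j => A j i) hne' h' ab ac bc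
        ⟨t.1, t.2.1.trans rfl, t.2.2⟩
    refine ⟨κ, -1, .inr rfl, fun i j => ?_, fun x hx i j => neg_injective (k2 x hx i j)⟩
    have := k1 i j
    split_ifs at this ⊢ <;> omega

/-- the count for all blocks (the classes of `r`) at once. -/
theorem g4_blocks {r : I → I → Prop} [DecidableRel r] (hr : Equivalence r) (d : X → ℤ)
    (hd : ∀ x, 0 < d x) {e : I → ℕ} (he : ∀ i, 0 < e i)
    (hc : ∀ i j, e i + 2 ≤ (univ.filter (r j)).card)
    (gram : ∀ i j, ∑ x, m i x * m j x =
      if r i j then (e i : ℤ) + (if i = j then 1 else 0) else 0)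
    (deg : ∀ i, ∑ x, d x * m i x = 0) :
    ∃ (κ : I → X) (ε : I → ℤ), Function.Injective κ ∧ (∀ i, ε i = 1 ∨ ε i = -1) ∧
      (∀ i j, r i j → ε i = ε j) ∧ (∀ i j, m i (κ j) = if i = j then ε i else 0) ∧
      (∀ x ∉ Set.range κ, ∀ i j, r i j → m i x = m j x) ∧
      (∀ i x, x = κ i ↔ m i x ≠ 0 ∧ ∃ j, r i j ∧ m j x = 0) ∧
      ∀ i, ∑ x ∈ univ \ univ.image κ, m i x * m i x = e i := by
  have ee : ∀ i j, r i j → e i = e j := fun i j k => by
    have k1 := gram i j
    have k2 := gram j i
    rw [if_pos k] at k1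
    rw [if_pos (hr.symm k), sum_congr rfl fun x _ => mul_comm _ _, k1] at k2
    by_cases ij : i = j
    · rw [ij]
    · rw [if_neg ij, if_neg (Ne.symm ij)] at k2
      omega
  have ex : ∀ i j, r i j → ∃ l, r i l ∧ l ≠ j := fun i j _ => by
    obtain ⟨l, h1, h2⟩ := exists_mem_ne (s := univ.filter (r i))
      (by have := hc i i; omega) j
    exact ⟨l, (mem_filter.1 h1).2, h2⟩
  have h1 : ∀ i, ∃ (κ : {j // r i j} → X) (ε : ℤ), (ε = 1 ∨ ε = -1) ∧
      (∀ a b : {j // r i j}, m a (κ b) = if a = b then ε else 0) ∧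
      ∀ x ∉ Set.range κ, ∀ a b : {j // r i j}, m a x = m b x := fun i =>
    g4_count (m := fun a : {j // r i j} => m a) d hd (he i)
      (by rw [Fintype.card_subtype]; exact hc i i)
      (fun a b => by
        rw [gram, if_pos (hr.trans (hr.symm a.2) b.2), ee i a a.2]
        simp only [Subtype.ext_iff])
      fun a => deg a
  choose K E hE hK hO using h1
  have E0 : ∀ i, E i ≠ 0 := fun i => by have := hE i; omega
  have ch : ∀ i (a : {j // r i j}) x, x = K i a ↔ m a x ≠ 0 ∧ ∃ j, r i j ∧ m j x = 0 := by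
    intro i a x
    constructor
    · rintro rfl
      obtain ⟨l, l1, l2⟩ := ex i a a.2
      refine ⟨by rw [hK, if_pos rfl]; exact E0 i, l, l1, ?_⟩
      exact (hK i ⟨l, l1⟩ a).trans (if_neg fun k => l2 (congrArg Subtype.val k))
    · rintro ⟨k1, j, k2, k3⟩
      by_cases hx : x ∈ Set.range (K i)
      · obtain ⟨b, rfl⟩ := hx
        rw [hK] at k1
        rw [of_not_not fun k => k1 (if_neg k)]
      · exact (k1 ((hO i x hx a ⟨j, k2⟩).trans k3)).elim
  let κ : I → X := fun i => K i ⟨i, hr.refl i⟩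
  have kk : ∀ i (a : {j // r i j}), K i a = κ a := fun i a => by
    obtain ⟨k1, j, k2, k3⟩ := (ch i a _).1 rfl
    exact (ch a ⟨a, hr.refl _⟩ _).2 ⟨k1, j, hr.trans (hr.symm a.2) k2, k3⟩
  have d1 : ∀ i a b, r i a → r i b → m a (κ b) = if a = b then E i else 0 :=
    fun i a b ha hb => by
      have := hK i ⟨a, ha⟩ ⟨b, hb⟩
      rw [kk] at this
      simpa only [Subtype.mk.injEq] using this
  have inj : ∀ i, Function.Injective (K i) := fun i a b k => by
    have k1 := hK i a a
    rw [k, hK, if_pos rfl] at k1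
    exact of_not_not fun k2 => E0 i ((if_neg k2).symm.trans k1).symm
  have d2 : ∀ i j, ¬ r i j → m i (κ j) = 0 := fun i j k => by
    have c1 : ∀ a : {l // r j l}, m i (K j a) = m i (κ j) := fun a => by
      have s1 : ∀ x, m i x * (m a x - m j x) =
          E j * ((if x = K j a then m i x else 0) - (if x = κ j then m i x else 0)) := fun x => by
        by_cases hx : x ∈ Set.range (K j)
        · obtain ⟨b, rfl⟩ := hx
          have t1 := hK j a b
          have t2 := hK j ⟨j, hr.refl j⟩ b
          simp only [κ, (inj j).eq_iff, t1, show m j (K j b) = _ from t2, @eq_comm _ b]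
          split_ifs <;> ring
        · rw [hO j x hx a ⟨j, hr.refl j⟩, if_neg fun h => hx ⟨_, h.symm⟩,
            if_neg fun h => hx ⟨_, h.symm⟩]
          simp
      have s2 : ∑ x, m i x * (m a x - m j x) = 0 := by
        simp only [mul_sub, sum_sub_distrib, gram]
        rw [if_neg k, if_neg fun h => k (hr.trans h (hr.symm a.2)), sub_self]
      rw [sum_congr rfl fun x _ => s1 x, ← mul_sum, sum_sub_distrib] at s2
      simp only [sum_ite_eq', mem_univ, if_true] at s2
      exact sub_eq_zero.1 ((mul_eq_zero.1 s2).resolve_left (E0 j))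
    have c2 : ∑ x ∈ univ.image (K j), m i x * m i x ≤ ∑ x, m i x * m i x :=
      sum_le_sum_of_subset_of_nonneg (subset_univ _) fun x _ _ => mul_self_nonneg _
    rw [sum_image fun a _ b _ h => inj j h, gram, if_pos (hr.refl i), if_pos rfl,
      sum_congr rfl fun a _ => by rw [c1 a], sum_const, card_univ, Fintype.card_subtype,
      nsmul_eq_mul] at c2
    by_contra h0
    have c3 : 1 ≤ m i (κ j) * m i (κ j) := mul_self_pos.2 h0
    have c4 : (e i : ℤ) + 2 ≤ (univ.filter (r j)).card := by exact_mod_cast hc i j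
    nlinarith
  have d3 : ∀ i j, m i (κ j) = if i = j then E i else 0 := fun i j => by
    by_cases k : r i j
    · exact d1 i i j (hr.refl i) k
    · rw [d2 i j k, if_neg fun h : i = j => k (h ▸ hr.refl i)]
  have ki : Function.Injective κ := fun a b k => by
    have k1 := d3 a a
    rw [k, d3, if_pos rfl] at k1
    exact of_not_not fun k2 => E0 a ((if_neg k2).symm.trans k1).symm
  refine ⟨κ, E, ki, hE, fun i j k => ?_, d3, fun x hx i j k => ?_,
    fun i x => ch i ⟨i, hr.refl i⟩ x, fun i => ?_⟩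
  · have := d1 i j j k k
    rw [d3, if_pos rfl, if_pos rfl] at this
    exact this.symm
  · exact hO i x (fun ⟨a, h⟩ => hx ⟨a, (kk i a).symm.trans h⟩) ⟨i, hr.refl i⟩ ⟨j, k⟩
  · have s1 := sum_sdiff (f := fun x => m i x * m i x) (subset_univ (univ.image κ))
    rw [gram, if_pos (hr.refl i), if_pos rfl, sum_image fun a _ b _ h => ki h] at s1
    have s2 : ∑ j, m i (κ j) * m i (κ j) = 1 := by
      simp only [d3, ite_mul, zero_mul, sum_ite_eq, mem_univ, if_true]
      rcases hE i with h | h <;> simp [h]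
    omega

end

end Pool.Agent.Lib.MP_1ae3da_al.CT
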