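import Pool.Agent.Lib.MP_1ae3da_al.Y.Ce
import Pool.Agent.Lib.MP_1ae3da_al.Y.Ct
import Pool.Agent.Lib.MP_1ae3da_al.Y.G4

set_option autoImplicit false
set_option linter.unusedSectionVars false

/-! Exceptional blocks (`g4_blocks` on the finite sets). -/

namespace Pool.Agent.Lib.MP_1ae3da_al.CT

open Submodule

variable {p a : ℕ} {F X : Type} [Field F] [CharZero F] [IsAlgClosed F] [Group X] [Finite X]
  [Fact p.Prime] {Q : Subgroup X} {d : X} {ga : X → MonoidAlgebra F X}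
  {GG : Subgroup (RingAut F)} {e e' ε ε' θ θ' i i' ψ ψ' η η' x y b : MonoidAlgebra F X}
  {γ : RingAut (MonoidAlgebra F X)} {om : X → F}
  {T : MonoidAlgebra F X →ₗ[F] MonoidAlgebra F X} {k : Type} [Field k] {O R : Subring F}
  {r : F → k}

theorem yex_fin (H : Subgroup X) : (Irr F (HX F H)).Finite := by
  obtain ⟨s, h, -⟩ := irr_fin (F := F) H
  exact h ▸ s.finite_toSet

theorem yex_sum {α : Type} {S : Set α} [Fintype S] (f : α → ℤ) :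
    ∑ᶠ x ∈ S, f x = ∑ x : S, f x := by
  rw [← finsum_set_coe_eq_finsum_mem, finsum_eq_sum_of_fintype]

open Classical in
theorem yex_core (h : Cyc p a Q d) (hg : Ga0 GG p Q ga) (hO : Om GG Q om T) :
    ∃ (κ : EtC Q ga → Irr F (HX F (⊤ : Subgroup X))) (s : EtC Q ga → ℤ),
      (∀ i, s i = 1 ∨ s i = -1) ∧ (∀ i j : EtC Q ga, Bk F p Q i j → s i = s j) ∧
      (∀ i j : EtC Q ga, mzC Q ga p (κ j) i = if i = j then s i else 0) ∧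
      (∀ x ∉ Set.range κ, ∀ i j : EtC Q ga, Bk F p Q i j → mzC Q ga p x i = mzC Q ga p x j) ∧
      (∀ (i : EtC Q ga) (x : Irr F (HX F (⊤ : Subgroup X))), x = κ i ↔ ExC Q ga p x i) ∧
      ∀ i : EtC Q ga, ∑ᶠ e ∈ {e | e ∈ Irr F (HX F (⊤ : Subgroup X)) ∧ ¬ ∃ η', ExC Q ga p e η'},
        mzC Q ga p e i * mzC Q ga p e i = ({ψ | ψ ∈ PsC Q ga ∧ Bk F p Q ψ i}.ncard : ℤ) := by
  have f1 := yex_fin (F := F) (⊤ : Subgroup X)
  have f2 : (EtC Q ga).Finite := (yex_fin (F := F) (NQ Q)).subset fun _ k => k.1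
  let _ := f1.fintype
  let _ := f2.fintype
  have hr : Equivalence fun i j : EtC Q ga => Bk F p Q i j :=
    ⟨fun i => bk_refl i.2.1.2.2.1, fun k => k.imp fun _ k => ⟨k.1, k.2.2, k.2.1⟩,
      fun {i j l} ⟨θ, k1, k2, k3⟩ k => ⟨θ, k1, k2, bk_over j.2.1 l.2.1 k k1 k3⟩⟩
  obtain ⟨κ, s, -, a2, a3, a4, a5, a6, a7⟩ := g4_blocks
    (m := fun (i : EtC Q ga) (x : Irr F (HX F (⊤ : Subgroup X))) => mzC Q ga p x i) hr
    (fun x => (dg F (HX F ⊤) x.1 : ℤ)) (fun x => by exact_mod_cast dg_pos x.2)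
    (e := fun i => {ψ | ψ ∈ PsC Q ga ∧ Bk F p Q ψ i}.ncard) (fun i => (psi_card h hg hO i.2).1)
    (fun i j => by
      have b1 := (psi_card h hg hO i.2).2
      have b2 := eta_card h hg j.2
      have b3 : {η' | η' ∈ EtC Q ga ∧ Bk F p Q j η'} =
          Subtype.val '' ((Finset.univ.filter fun l : EtC Q ga => Bk F p Q j l : Finset _) :
            Set (EtC Q ga)) := by
        ext z
        simp only [Set.mem_ofPred_eq, Finset.coe_filter, Finset.mem_univ, true_and, Set.mem_image]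
        exact ⟨fun k => ⟨⟨z, k.1⟩, k.2, rfl⟩, fun ⟨l, k1, k2⟩ => k2 ▸ ⟨l.2, k1⟩⟩
      rw [b3, Set.ncard_image_of_injective _ Subtype.val_injective, Set.ncard_coe_finset] at b2
      have := h.prime.two_le
      omega)
    (fun i j => by
      rw [← yex_sum fun e => mzC Q ga p e i * mzC Q ga p e j, mz_gramC h hg hO i.2 j.2]
      simp only [Subtype.ext_iff])
    fun i => by rw [← yex_sum fun e => (dg F (HX F ⊤) e : ℤ) * mzC Q ga p e i, mz_deg0 h hg i.2]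
  have a8 : ∀ (i : EtC Q ga) (x : Irr F (HX F (⊤ : Subgroup X))), x = κ i ↔ ExC Q ga p x i :=
    fun i x => (a6 i x).trans ⟨fun ⟨k1, j, k2, k3⟩ => ⟨x.2, i.2, k1, j, j.2, k2, k3⟩,
      fun ⟨_, _, k1, j, k0, k2, k3⟩ => ⟨k1, ⟨j, k0⟩, k2, k3⟩⟩
  refine ⟨κ, s, a2, a3, a4, a5, a8, fun i => ?_⟩
  have b3 : {e | e ∈ Irr F (HX F (⊤ : Subgroup X)) ∧ ¬ ∃ η', ExC Q ga p e η'} =
      (((Finset.univ \ Finset.univ.image κ).map (Function.Embedding.subtype _) : Finset _) :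
        Set _) := by
    ext z
    simp only [Set.mem_ofPred_eq, Finset.coe_map, Set.mem_image, Finset.mem_coe, Finset.mem_sdiff,
      Finset.mem_univ, true_and, Finset.mem_image, Function.Embedding.coe_subtype]
    refine ⟨fun k => ⟨⟨z, k.1⟩, fun ⟨j, k1⟩ => k.2 ⟨j, (a8 j _).1 k1.symm⟩, rfl⟩, ?_⟩
    rintro ⟨x, k1, rfl⟩
    exact ⟨x.2, fun ⟨j, k2⟩ => k1 ⟨⟨j, k2.2.1⟩, ((a8 ⟨j, k2.2.1⟩ x).2 k2).symm⟩⟩
  rw [b3, finsum_mem_coe_finset, Finset.sum_map]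
  exact a7 i

theorem ex_ex (h : Cyc p a Q d) (hg : Ga0 GG p Q ga) (hO : Om GG Q om T) (hη : η ∈ EtC Q ga) : ∃! e, ExC Q ga p e η := by
  obtain ⟨κ, s, -, -, -, -, a, -⟩ := yex_core h hg hO
  exact ⟨κ ⟨η, hη⟩, (a ⟨η, hη⟩ _).1 rfl, fun e k =>
    congrArg Subtype.val ((a ⟨η, hη⟩ ⟨e, k.1⟩).2 k)⟩

theorem ex_val (h : Cyc p a Q d) (hg : Ga0 GG p Q ga) (hO : Om GG Q om T) (h1 : ExC Q ga p e η) :
    (mzC Q ga p e η = 1 ∨ mzC Q ga p e η = -1) ∧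
      ∀ η' ∈ EtC Q ga, η' ≠ η → mzC Q ga p e η' = 0 := by
  obtain ⟨κ, s, a1, -, a3, -, a, -⟩ := yex_core h hg hO
  have b : e = κ ⟨η, h1.2.1⟩ := congrArg Subtype.val ((a ⟨η, h1.2.1⟩ ⟨e, h1.1⟩).2 h1)
  refine ⟨?_, fun η' k1 k2 => ?_⟩
  · have := a3 ⟨η, h1.2.1⟩ ⟨η, h1.2.1⟩
    rw [if_pos rfl, ← b] at this
    exact this ▸ a1 _
  · have := a3 ⟨η', k1⟩ ⟨η, h1.2.1⟩
    rwa [if_neg fun k => k2 (congrArg Subtype.val k), ← b] at this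

theorem ex_sign (h : Cyc p a Q d) (hg : Ga0 GG p Q ga) (hO : Om GG Q om T) (h1 : ExC Q ga p e η) (h2 : ExC Q ga p e' η')
    (hb : Bk F p Q η η') : mzC Q ga p e η = mzC Q ga p e' η' := by
  obtain ⟨κ, s, -, a2, a3, -, a, -⟩ := yex_core h hg hO
  have b : e = κ ⟨η, h1.2.1⟩ := congrArg Subtype.val ((a ⟨η, h1.2.1⟩ ⟨e, h1.1⟩).2 h1)
  have b' : e' = κ ⟨η', h2.2.1⟩ := congrArg Subtype.val ((a ⟨η', h2.2.1⟩ ⟨e', h2.1⟩).2 h2)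
  have c := a3 ⟨η, h1.2.1⟩ ⟨η, h1.2.1⟩
  have c' := a3 ⟨η', h2.2.1⟩ ⟨η', h2.2.1⟩
  rw [if_pos rfl, ← b] at c
  rw [if_pos rfl, ← b'] at c'
  exact c.trans ((a2 ⟨η, h1.2.1⟩ ⟨η', h2.2.1⟩ hb).trans c'.symm)

theorem ex_const (h : Cyc p a Q d) (hg : Ga0 GG p Q ga) (hO : Om GG Q om T) (he : e ∈ Irr F (HX F (⊤ : Subgroup X)))
    (hn : ¬ ∃ η, ExC Q ga p e η) (hη : η ∈ EtC Q ga) (hη' : η' ∈ EtC Q ga)
    (hb : Bk F p Q η η') : mzC Q ga p e η = mzC Q ga p e η' := by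
  obtain ⟨κ, s, -, -, -, a4, a, -⟩ := yex_core h hg hO
  exact a4 ⟨e, he⟩ (fun ⟨j, k⟩ => hn ⟨j, (a j _).1 k.symm⟩) ⟨η, hη⟩ ⟨η', hη'⟩ hb

theorem ex_sq (h : Cyc p a Q d) (hg : Ga0 GG p Q ga) (hO : Om GG Q om T) (hη : η ∈ EtC Q ga) :
    ∑ᶠ e ∈ {e | e ∈ Irr F (HX F (⊤ : Subgroup X)) ∧ ¬ ∃ η', ExC Q ga p e η'},
      mzC Q ga p e η * mzC Q ga p e η = ({ψ | ψ ∈ PsC Q ga ∧ Bk F p Q ψ η}.ncard : ℤ) := by
  obtain ⟨κ, s, -, -, -, -, -, a⟩ := yex_core h hg hO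
  exact a ⟨η, hη⟩

theorem ex_gm (h : Cyc p a Q d) (hg : Ga0 GG p Q ga) (hγ : γ ∈ Gm GG Q) (h1 : ExC Q ga p e η) : ExC Q ga p (γ e) (γ η) := by
  obtain ⟨σ, -, α, hs, -⟩ := gm_aut0 h hγ
  obtain ⟨a1, a2, a3, η', a4, a5, a6⟩ := h1
  exact ⟨((TR.of_stb hs hγ.1.2).irr.mem _).2 a1, etC_gm h hg hγ a2, by rwa [mz_gmC h hg hγ a1 a2],
    γ η', etC_gm h hg hγ a4, (bk_gm h hγ).2 a5, by rwa [mz_gmC h hg hγ a1 a4]⟩

end Pool.Agent.Lib.MP_1ae3da_al.CT
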