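import Pool.Agent.Lib.MP_1ae3da_al.Y.Cl
import Pool.Agent.Lib.MP_1ae3da_al.Y.Ex

set_option autoImplicit false
set_option linter.unusedSectionVars false

/-! The blocks of degree prime to `p`. -/

namespace Pool.Agent.Lib.MP_1ae3da_al.CT

open Submodule

variable {p a : ℕ} {F X : Type} [Field F] [CharZero F] [IsAlgClosed F] [Group X] [Finite X]
  [Fact p.Prime] {Q : Subgroup X} {d : X} {ga : X → MonoidAlgebra F X}
  {GG : Subgroup (RingAut F)} {e e' ε ε' θ θ' i i' ψ ψ' η η' x y b : MonoidAlgebra F X}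
  {γ : RingAut (MonoidAlgebra F X)} {om : X → F}
  {T : MonoidAlgebra F X →ₗ[F] MonoidAlgebra F X} {k : Type} [Field k] {O R : Subring F}
  {r : F → k}

theorem yip_single {α : Type} {s : Set α} {f : α → ℤ} {x : α} (hx : x ∈ s)
    (h : ∀ y ∈ s, y ≠ x → f y = 0) : ∑ᶠ y ∈ s, f y = f x := by
  rw [← finsum_mem_singleton (f := f) (a := x)]
  refine finsum_mem_inter_support_eq f s {x} (Set.ext fun y => ⟨fun hy => ⟨?_, hy.2⟩, fun hy => ?_⟩)
  · exact by_contra fun c => hy.2 (h y hy.1 c)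
  · exact ⟨hy.1 ▸ hx, hy.2⟩

theorem irrP_some (h : Cyc p a Q d) (hg : Ga0 GG p Q ga) (he : e ∈ IrrP F p (HX F (⊤ : Subgroup X))) :
    ∃ η ∈ EtC Q ga, mzC Q ga p e η ≠ 0 := by
  by_contra c
  push Not at c
  have h1 := deg1 h hg he.1
  rw [finsum_mem_eq_zero_of_forall_eq_zero fun η hη => by rw [c η hη, zero_mul], add_zero] at h1
  exact he.2 ((dvd_Dg_iff (rce_nice ⊤) he.1 h.prime).2 (Int.natCast_dvd_natCast.1 h1))

theorem irrP_ex (h : Cyc p a Q d) (hg : Ga0 GG p Q ga) (hO : Om GG Q om T) (h1 : ExC Q ga p e η) : e ∈ IrrP F p (HX F (⊤ : Subgroup X)) := by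
  refine ⟨h1.1, fun c => ?_⟩
  have h2 := deg1 h hg h1.1
  obtain ⟨h3, h4⟩ := ex_val h hg hO h1
  rw [yip_single h1.2.1 fun η' hη' hne => by rw [h4 η' hη' hne, zero_mul]] at h2
  have h5 := (dvd_add_right (Int.natCast_dvd_natCast.2
    ((dvd_Dg_iff (rce_nice ⊤) h1.1 h.prime).1 c))).1 h2
  refine irrN_ndvdC h hg hO h1.2.1.1 h1.2.1.2.1 ((dvd_Dg_iff (rce_nice _) h1.2.1.1 h.prime).2
    (Int.natCast_dvd_natCast.1 ?_))
  rcases h3 with h3 | h3 <;> simpa [h3] using h5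

theorem irrP_psi (h : Cyc p a Q d) (hg : Ga0 GG p Q ga) (hO : Om GG Q om T) (he : e ∈ Irr F (HX F (⊤ : Subgroup X))) (hψ : ψ ∈ PsC Q ga)
    {s : ℤ} (hs : s = 1 ∨ s = -1) (hv : ∀ η ∈ EtC Q ga,
      (Bk F p Q ψ η → mzC Q ga p e η = s) ∧ (¬ Bk F p Q ψ η → mzC Q ga p e η = 0)) :
    e ∈ IrrP F p (HX F (⊤ : Subgroup X)) := by
  classical
  refine ⟨he, fun c => ?_⟩
  have h2 := deg1 h hg he
  have h3 := deg2 h hg hO hψ
  obtain ⟨u, hu, -⟩ := (rce_nice (F := F) (NQ Q)).irr_sum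
  have f : (EtC Q ga).Finite := u.finite_toSet.subset fun x hx => hu ▸ hx.1
  have e1 : {η | η ∈ EtC Q ga ∧ Bk F p Q ψ η} = ↑(f.toFinset.filter (Bk F p Q ψ)) := by
    ext x; simp
  rw [e1, finsum_mem_coe_finset] at h3
  rw [finsum_mem_eq_finite_toFinset_sum _ f] at h2
  have e2 : ∑ η ∈ f.toFinset, mzC Q ga p e η * dg F (HX F (NQ Q)) η =
      s * ((∑ η ∈ f.toFinset.filter (Bk F p Q ψ), dg F (HX F (NQ Q)) η : ℕ) : ℤ) := by
    rw [Nat.cast_sum, Finset.mul_sum, Finset.sum_filter]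
    refine Finset.sum_congr rfl fun η hη => ?_
    have h4 := hv η (f.mem_toFinset.1 hη)
    split_ifs with h5
    · rw [h4.1 h5]
    · rw [h4.2 h5, zero_mul]
  rw [e2] at h2
  have h5 := (dvd_add_right (Int.natCast_dvd_natCast.2
    ((dvd_Dg_iff (rce_nice ⊤) he h.prime).1 c))).1 h2
  have h6 : p ∣ ∑ η ∈ f.toFinset.filter (Bk F p Q ψ), dg F (HX F (NQ Q)) η :=
    Int.natCast_dvd_natCast.1 (by rcases hs with hs | hs <;> simpa [hs] using h5)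
  exact irrN_ndvdC h hg hO hψ.1 (psC_z hg hψ) ((dvd_Dg_iff (rce_nice _) hψ.1 h.prime).2
    ((Nat.dvd_add_left h6).1 h3))

theorem irrPN_iff (h : Cyc p a Q d) (hg : Ga0 GG p Q ga) (hO : Om GG Q om T) :
    x ∈ IrrP F p (HX F (NQ Q)) ↔ x ∈ PsC Q ga ∨ x ∈ EtC Q ga := by
  refine ⟨fun hx => ?_, ?_⟩
  · rcases z_or hg hx.1 with h1 | h1
    · exact psi_or_etaC h hg hx.1 h1
    · exact absurd (irrN_dvdC h hg hx.1 h1) hx.2
  · rintro (hx | hx)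
    · exact ⟨hx.1, irrN_ndvdC h hg hO hx.1 (psC_z hg hx)⟩
    · exact ⟨hx.1, irrN_ndvdC h hg hO hx.1 hx.2.1⟩

end Pool.Agent.Lib.MP_1ae3da_al.CT
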