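import Pool.Agent.Lib.MP_1ae3da_al.Y.ChB
import Pool.Agent.Lib.MP_1ae3da_al.Y.Ip
import Pool.Agent.Lib.MP_1ae3da_al.Y.Cg

set_option autoImplicit false
set_option linter.unusedSectionVars false

/-! The bijection with links, from the types (`rcha_lk`). -/

namespace Pool.Agent.Lib.MP_1ae3da_al.CT

open Submodule

variable {p a : ℕ} {F X : Type} [Field F] [CharZero F] [IsAlgClosed F] [Group X] [Finite X]
  [Fact p.Prime] {Q : Subgroup X} {d : X} {ga : X → MonoidAlgebra F X}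
  {GG : Subgroup (RingAut F)} {e e' ε ε' θ θ' i i' ψ ψ' η η' x y b : MonoidAlgebra F X}
  {γ : RingAut (MonoidAlgebra F X)} {om : X → F}
  {T : MonoidAlgebra F X →ₗ[F] MonoidAlgebra F X} {k : Type} [Field k] {O R : Subring F}
  {r : F → k}

variable {S W : Set (MonoidAlgebra F X) → MonoidAlgebra F X → Bool → Prop}

theorem rc_of_ty (hP : PM p O R r GG) (h : Cyc p a Q d) (hg : Ga0 GG p Q ga) (hO : Om GG Q om T) (hT : TyC Q ga p O GG T S W) :
    ML F p GG (HX F ⊤) (HX F (NQ Q)) := by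
  obtain ⟨m, m1, m2, m3, m4⟩ := blk_match hP h hg hO hT
  have hd : ∀ x ∈ PsC Q ga, x ∉ EtC Q ga := fun x hx hx' => hx.1.2.2.1 (hx.2.symm.trans hx'.2.2)
  have hm : ∀ x ∈ PsC Q ga, m x ∈ IrrP F p (HX F (⊤ : Subgroup X)) := fun x hx => by
    obtain ⟨h1, -, s, hs⟩ := m1 x hx
    refine irrP_psi h hg hO h1 hx (s := if s then -1 else 1) (by cases s <;> simp) fun η hη => ?_
    have := hT.val _ _ _ hs η hη
    rwa [cvC, finsum_mem_singleton] at this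
  refine rcha_lk (fun e x => (x ∈ PsC Q ga ∧ m x = e) ∨ ExC Q ga p e x)
    (fun γ hγ e he => (irrP_stb hγ.1.1 hγ.1.2).2 he) (fun e x hr => ?_) (fun e he => ?_)
    (fun x hx => ?_) (fun γ hγ e x hr => ?_) (fun e x hr => ?_)
  · rcases hr with ⟨hx, rfl⟩ | hx
    · exact ⟨hm x hx, (irrPN_iff h hg hO).2 (.inl hx)⟩
    · exact ⟨irrP_ex h hg hO hx, (irrPN_iff h hg hO).2 (.inr hx.2.1)⟩
  · by_cases c : ∃ η, ExC Q ga p e η
    · obtain ⟨η, hη⟩ := c
      refine ⟨η, .inr hη, ?_⟩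
      rintro z (⟨hz, rfl⟩ | hz)
      · exact absurd ⟨η, hη⟩ (m1 z hz).2.1
      · exact by_contra fun c => hz.2.2.1 ((ex_val h hg hO hη).2 z hz.2.1 c)
    · obtain ⟨η, hη, h1⟩ := irrP_some h hg he
      obtain ⟨x, hx, h2⟩ := m3 e he.1 c η hη h1
      refine ⟨x, .inl ⟨hx, h2⟩, ?_⟩
      rintro z (⟨hz, h3⟩ | hz)
      · exact m2 hz hx (h3.trans h2.symm)
      · exact absurd ⟨z, hz⟩ c
  · rcases (irrPN_iff h hg hO).1 hx with hx | hx
    · refine ⟨m x, .inl ⟨hx, rfl⟩, ?_⟩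
      rintro z (⟨-, h3⟩ | hz)
      · exact h3.symm
      · exact absurd hz.2.1 (hd x hx)
    · obtain ⟨e, h1, h2⟩ := ex_ex h hg hO hx
      refine ⟨e, .inr h1, ?_⟩
      rintro z (⟨h3, -⟩ | hz)
      · exact absurd hx (hd x h3)
      · exact h2 z hz
  · rcases hr with ⟨hx, rfl⟩ | hx
    · exact .inl ⟨psC_gm h hg hγ hx, m4 γ hγ x hx⟩
    · exact .inr (ex_gm h hg hγ hx)
  · rcases hr with ⟨hx, rfl⟩ | hx
    · obtain ⟨-, -, s, hs⟩ := m1 x hx
      exact hT.ln _ x s hs (hm x hx)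
    · exact root_linkC h hg hO (irrP_ex h hg hO hx) hx.2.1 (ex_val h hg hO hx).1

end Pool.Agent.Lib.MP_1ae3da_al.CT
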