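import Pool.Agent.Lib.MP_1ae3da_al.Y.Dl
import Pool.Agent.Lib.MP_1ae3da_al.C.RLSemi

set_option autoImplicit false
set_option linter.unusedSectionVars false

/-! Semilinear transport of ties and sources. -/

namespace Pool.Agent.Lib.MP_1ae3da_al.CT.R5

open Function

section
variable {E : Type} [Monoid E] {G : E} {p a q j : ℕ}

theorem ysemc_per (h : G ^ (q + 1) = G) (n t : ℕ) : G ^ (n + 1 + q * t) = G ^ (n + 1) := by
  induction t with
  | zero => rfl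
  | succ t ih => rw [show n + 1 + q * (t + 1) = n + q * t + (q + 1) by ring, pow_add, h, ← pow_succ,
      ← ih, add_right_comm]

theorem ysemc_mod (h : G ^ (q + 1) = G) {n n' : ℕ} (hn : 0 < n) (hn' : 0 < n')
    (e : n ≡ n' [MOD q]) : G ^ n = G ^ n' := by
  wlog l : n ≤ n' generalizing n n'
  · exact (this hn' hn e.symm (le_of_not_ge l)).symm
  obtain ⟨t, ht⟩ := (Nat.modEq_iff_dvd' l).1 e
  obtain ⟨n, rfl⟩ := Nat.exists_eq_add_of_le' hn
  rw [← ysemc_per h n t, ← ht, Nat.add_sub_cancel' l]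

theorem ysemc_pos (hj : ¬ p ∣ j) : 0 < j := Nat.pos_of_ne_zero fun e => hj (e ▸ dvd_zero p)

theorem ysemc_inv (hp : p.Prime) (a : ℕ) (hj : ¬ p ∣ j) :
    ∃ m, ¬ p ∣ m ∧ j * m ≡ 1 [MOD p ^ a] := by
  refine ⟨j ^ ((p ^ a).totient - 1), fun k => hj (hp.dvd_of_dvd_pow k), ?_⟩
  rw [← pow_succ', Nat.sub_add_cancel (Nat.totient_pos.2 (pow_pos hp.pos a))]
  exact Nat.ModEq.pow_totient ((hp.coprime_iff_not_dvd.2 hj).symm.pow_right a)

theorem ysemc_back (hp : p.Prime) (h : G ^ (p ^ a + 1) = G) (hj : ¬ p ∣ j) :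
    ∃ m, ¬ p ∣ m ∧ (G ^ j) ^ m = G := by
  obtain ⟨m, hm, e⟩ := ysemc_inv hp a hj
  exact ⟨m, hm, by
    rw [← pow_mul, ysemc_mod h (mul_pos (ysemc_pos hj) (ysemc_pos hm)) one_pos e, pow_one]⟩

end

variable {O X Y : Type} [CommRing O] [IsDomain O] [IsDiscreteValuationRing O] [CharZero O]
  [Group X] [Finite X] [Group Y] [Finite Y] {p a j : ℕ} {U W : Type} [AddCommGroup U] [Module O U]
  [AddCommGroup W] [Module O W] {G : Module.End O U} {G' : Module.End O W}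

/-- the norm does not see a power prime to `p` -/
theorem yOp_pow (hp : p.Prime) (h : G ^ (p ^ a + 1) = G) (hj : ¬ p ∣ j) :
    yOp (p ^ a) (G ^ j) true = yOp (p ^ a) G true := by
  have hn : 0 < p ^ a := pow_pos hp.pos a
  have hc : Nat.Coprime (p ^ a) j := (hp.coprime_iff_not_dvd.2 hj).pow_left a
  have inj : ∀ s ∈ Finset.range (p ^ a), ∀ t ∈ Finset.range (p ^ a),
      (j * s + (j - 1)) % p ^ a = (j * t + (j - 1)) % p ^ a → s = t :=
    fun s hs t ht e => Nat.ModEq.eq_of_lt_of_lt (Nat.ModEq.cancel_left_of_coprime hc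
      (Nat.ModEq.add_right_cancel' _ e)) (Finset.mem_range.1 hs) (Finset.mem_range.1 ht)
  refine Finset.sum_bij (fun s _ => (j * s + (j - 1)) % p ^ a)
    (fun s _ => Finset.mem_range.2 (Nat.mod_lt _ hn)) (fun s hs t ht => inj s hs t ht)
    (fun b hb => ?_) fun s _ => ?_
  · obtain ⟨s, hs, e⟩ := Finset.surj_on_of_inj_on_of_card_le
      (fun s _ => (j * s + (j - 1)) % p ^ a) (fun s _ => Finset.mem_range.2 (Nat.mod_lt _ hn))
      (fun s t hs ht => inj s hs t ht) le_rfl b hb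
    exact ⟨s, hs, e.symm⟩
  · have := ysemc_pos hj
    rw [← pow_mul]
    refine ysemc_mod h (mul_pos this s.succ_pos) (Nat.succ_pos _) ?_
    rw [show j * (s + 1) = j * s + (j - 1) + 1 by rw [mul_add]; omega]
    exact (Nat.mod_modEq _ _).symm.add_right 1

section
variable {T : U →+ W} (hT : ∀ v, T (G v) = (G' ^ j) (T v))
include hT

theorem ysemc_pow (n : ℕ) (v : U) : T ((G ^ n) v) = ((G' ^ j) ^ n) (T v) := by
  induction n generalizing v with
  | zero => rfl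
  | succ n ih => rw [pow_succ, pow_succ, Module.End.mul_apply, Module.End.mul_apply, ih, hT]

variable (hp : p.Prime) (h : G' ^ (p ^ a + 1) = G') (hj : ¬ p ∣ j)
include hp h hj

theorem ysemc_nm (v : U) : T (yOp (p ^ a) G true v) = yOp (p ^ a) G' true (T v) := by
  rw [← yOp_pow hp h hj]
  simp only [yOp, LinearMap.sum_apply, map_sum, ysemc_pow hT]

theorem ysemc_A {i : Bool} {v : U} (hv : v ∈ yA (p ^ a) G i) : T v ∈ yA (p ^ a) G' i := by
  cases i
  · obtain ⟨m, -, e⟩ := ysemc_back hp h hj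
    have h1 : G v = v := sub_eq_zero.1 hv
    have h2 : ∀ n : ℕ, (G ^ n) v = v := fun n => by
      induction n with
      | zero => rfl
      | succ n ih => rw [pow_succ, Module.End.mul_apply, h1, ih]
    exact sub_eq_zero.2 (show G' (T v) = T v by rw [← e, ← ysemc_pow hT, h2])
  · exact (ysemc_nm hT hp h hj v).symm.trans (by rw [show yOp _ G true v = 0 from hv, map_zero])

theorem ysemc_B {i : Bool} {v : U} (hv : v ∈ yB (p ^ a) G i) : T v ∈ yB (p ^ a) G' i := by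
  obtain ⟨u, rfl⟩ := hv
  cases i
  · exact ⟨T u, (ysemc_nm hT hp h hj u).symm⟩
  · have := secc_sub G' j (T u)
    rwa [← hT, ← map_sub] at this

theorem ysemc_P {i : Bool} {v : U} (hv : v ∈ yP p (p ^ a) G i) : T v ∈ yP p (p ^ a) G' i := by
  obtain ⟨b, hb, w, hw, rfl⟩ := mem_zP.1 hv
  exact mem_zP.2 ⟨T b, ysemc_B hT hp h hj hb, T w, ysemc_A hT hp h hj hw, by
    rw [map_add, Nat.cast_smul_eq_nsmul, Nat.cast_smul_eq_nsmul, map_nsmul]⟩

end

/-- cycles, boundaries and the radical under an additive bijection that twists by a power -/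
theorem ysemc_iff (hp : p.Prime) (h : G ^ (p ^ a + 1) = G) (h' : G' ^ (p ^ a + 1) = G')
    (hj : ¬ p ∣ j) {T : U ≃+ W} (hT : ∀ v, T (G v) = (G' ^ j) (T v)) (i : Bool) (v : U) :
    (T v ∈ yA (p ^ a) G' i ↔ v ∈ yA (p ^ a) G i) ∧ (T v ∈ yB (p ^ a) G' i ↔ v ∈ yB (p ^ a) G i) ∧
      (T v ∈ yP p (p ^ a) G' i ↔ v ∈ yP p (p ^ a) G i) := by
  obtain ⟨m, hm, e⟩ := ysemc_back hp h' hj
  have hT' : ∀ v, (T : U →+ W) (G v) = (G' ^ j) ((T : U →+ W) v) := hT
  have hS : ∀ w, (T.symm : W →+ U) (G' w) = (G ^ m) ((T.symm : W →+ U) w) := fun w =>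
    T.injective ((T.apply_symm_apply _).trans ((ysemc_pow hT' m _).trans (by
      rw [e]; exact congrArg G' (T.apply_symm_apply w))).symm)
  have k : (T.symm : W →+ U) (T v) = v := T.symm_apply_apply v
  exact ⟨⟨fun x => k ▸ ysemc_A hS hp h hm x, ysemc_A hT' hp h' hj⟩,
    ⟨fun x => k ▸ ysemc_B hS hp h hm x, ysemc_B hT' hp h' hj⟩,
    ⟨fun x => k ▸ ysemc_P hS hp h hm x, ysemc_P hT' hp h' hj⟩⟩

theorem y_pow (hp : p.Prime) (h : G ^ (p ^ a + 1) = G) (hj : ¬ p ∣ j) (i : Bool) :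
    yA (p ^ a) (G ^ j) i = yA (p ^ a) G i ∧ yB (p ^ a) (G ^ j) i = yB (p ^ a) G i ∧
      yP p (p ^ a) (G ^ j) i = yP p (p ^ a) G i := by
  have k := ysemc_iff (T := AddEquiv.refl U) (G := G ^ j) hp
    (by rw [← pow_mul, mul_comm, pow_mul, h]) h hj (fun _ => rfl) i
  exact ⟨Submodule.ext fun v => (k v).1.symm, Submodule.ext fun v => (k v).2.1.symm,
    Submodule.ext fun v => (k v).2.2.symm⟩

variable {σ : O ≃+* O} {b : Y ≃* Y} {g : MonoidAlgebra O Y}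

theorem ysemc_act {V : Type} [AddCommGroup V] [Module O V] (ρ : Y →* Module.End O V)
    (hg : g ^ (p ^ a + 1) = g) : act ρ g ^ (p ^ a + 1) = act ρ g := by rw [← map_pow, hg]

theorem Cg.symm (hp : p.Prime) (hg : g ^ (p ^ a + 1) = g) (h : Cg p σ b g) :
    Cg p σ.symm b.symm g := by
  obtain ⟨j, hj, e⟩ := h
  obtain ⟨m, hm, k⟩ := ysemc_back hp hg hj
  let τ : MonoidAlgebra O Y ≃+* MonoidAlgebra O Y :=
    (MonoidAlgebra.mapRingEquiv Y σ).trans (MonoidAlgebra.mapDomainRingEquiv O b)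
  have t : ∀ (w : MonoidAlgebra O Y) y, (τ w).coeff (b y) = σ (w.coeff y) := fun w y => by
    classical
    induction w using MonoidAlgebra.induction_linear with
    | zero => simp
    | add u v h1 h2 => simp [h1, h2]
    | single x c => simp [τ, Finsupp.single_apply, apply_ite σ]
  have e1 : τ g = g ^ j := MonoidAlgebra.ext (Finsupp.ext fun y => by
    obtain ⟨y, rfl⟩ := b.surjective y
    rw [t, e])
  refine ⟨m, hm, fun y => ?_⟩
  rw [eq_comm, RingEquiv.symm_apply_eq, ← t, map_pow, e1, k, b.apply_symm_apply]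

theorem Semi.gact {V V' : Lat O Y} {T : V.V ≃+ V'.V} (h : Semi σ b V V' T)
    {w w' : MonoidAlgebra O Y} (e : ∀ y, w'.coeff (b y) = σ (w.coeff y)) (v : V.V) :
    T (V.act w v) = V'.act w' (T v) := by
  have := Fintype.ofFinite Y
  rw [act_eq, act_eq, finsum_eq_sum_of_fintype, finsum_eq_sum_of_fintype, LinearMap.sum_apply,
    LinearMap.sum_apply, map_sum]
  exact Fintype.sum_equiv b.toEquiv _ _ fun y => by
    rw [LinearMap.smul_apply, LinearMap.smul_apply, h.smul, h.act, ← e]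
    rfl

theorem Semi.ymem (hp : p.Prime) (hg : g ^ (p ^ a + 1) = g) (c : Cg p σ b g) {V V' : Lat O Y}
    {T : V.V ≃+ V'.V} (h : Semi σ b V V' T) (i : Bool) (v : V.V) :
    (T v ∈ yA (p ^ a) (V'.act g) i ↔ v ∈ yA (p ^ a) (V.act g) i) ∧
      (T v ∈ yB (p ^ a) (V'.act g) i ↔ v ∈ yB (p ^ a) (V.act g) i) ∧
      (T v ∈ yP p (p ^ a) (V'.act g) i ↔ v ∈ yP p (p ^ a) (V.act g) i) := by
  obtain ⟨j, hj, e⟩ := c
  exact ysemc_iff hp (ysemc_act _ hg) (ysemc_act _ hg) hj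
    (fun v => by rw [h.gact e, map_pow]) i v

theorem Semi.good (hp : p.Prime) (hg : g ^ (p ^ a + 1) = g) (c : Cg p σ b g) {M M' : Lat O Y}
    {T : M.V ≃+ M'.V} (h : Semi σ b M M' T) (k : Good g M) : Good g M' := by
  obtain ⟨j, hj, e⟩ := c
  obtain ⟨m, -, e'⟩ := ysemc_back hp hg hj
  refine ⟨h.ir k.ir, ?_⟩
  have : M'.act (g ^ j) = 1 := LinearMap.ext fun u => by
    obtain ⟨u, rfl⟩ := T.surjective u
    rw [← h.gact e, k.one]
    rfl
  rw [← e', map_pow, this, one_pow]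

theorem Semi.tieC (hp : p.Prime) (hg : g ^ (p ^ a + 1) = g) (c : Cg p σ b g) {V V' M M' : Lat O Y}
    {T : V.V ≃+ V'.V} (h : Semi σ b V V' T) {T' : M.V ≃+ M'.V} (h' : Semi σ b M M' T') {i : Bool}
    {Φ : Submodule O (V.V × M.V)} (ht : TieC p a g V M i Φ) :
    ∃ Φ' : Submodule O (V'.V × M'.V), TieC p a g V' M' i Φ' ∧
      ∀ v m, (v, m) ∈ Φ ↔ (T v, T' m) ∈ Φ' := by
  let Φ' : Submodule O (V'.V × M'.V) :=
    { carrier := {z | (T.symm z.1, T'.symm z.2) ∈ Φ}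
      add_mem' := fun {x y} hx hy => by
        show (T.symm (x.1 + y.1), T'.symm (x.2 + y.2)) ∈ Φ
        rw [map_add, map_add]
        exact Φ.add_mem hx hy
      zero_mem' := by
        show (T.symm 0, T'.symm 0) ∈ Φ
        rw [map_zero, map_zero]
        exact Φ.zero_mem
      smul_mem' := fun c x hx => by
        show (T.symm (c • x.1), T'.symm (c • x.2)) ∈ Φ
        rw [sem_inv h.smul, sem_inv h'.smul]
        exact Φ.smul_mem (σ.symm c) hx }
  have m : ∀ v m, (v, m) ∈ Φ ↔ (T v, T' m) ∈ Φ' := fun v m => by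
    show _ ↔ (T.symm (T v), T'.symm (T' m)) ∈ Φ
    rw [AddEquiv.symm_apply_apply, AddEquiv.symm_apply_apply]
  have k := ht.gr
  have hq : ∀ m : M.V, T' ((p : O) • m) = (p : O) • T' m := fun m => by
    rw [h'.smul, map_natCast]
  refine ⟨Φ', ⟨⟨fun v => ?_, fun u => ?_, fun v => ?_, fun u => ?_⟩, fun n v u hv => ?_⟩, m⟩
  · obtain ⟨v, rfl⟩ := T.surjective v
    rw [(h.ymem hp hg c i v).1, k.dom]
    refine ⟨fun ⟨u, hu⟩ => ⟨T' u, (m v u).1 hu⟩, fun ⟨u, hu⟩ => ?_⟩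
    obtain ⟨u, rfl⟩ := T'.surjective u
    exact ⟨u, (m v u).2 hu⟩
  · obtain ⟨u, rfl⟩ := T'.surjective u
    obtain ⟨v, hv⟩ := k.ran u
    exact ⟨T v, (m v u).1 hv⟩
  · obtain ⟨v, rfl⟩ := T.surjective v
    rw [(h.ymem hp hg c i v).2.2, ← k.kl, m, map_zero]
  · obtain ⟨u, rfl⟩ := T'.surjective u
    rw [← map_zero T, ← m, k.kr]
    refine ⟨fun ⟨t, e⟩ => ⟨T' t, by rw [e, hq]⟩, fun ⟨t, e⟩ => ?_⟩
    obtain ⟨t, rfl⟩ := T'.surjective t
    exact ⟨t, T'.injective (by rw [e, hq])⟩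
  · obtain ⟨n, rfl⟩ := b.surjective n
    obtain ⟨v, rfl⟩ := T.surjective v
    obtain ⟨u, rfl⟩ := T'.surjective u
    rw [← h.act, ← h'.act, ← m]
    exact ht.st n v u ((m v u).2 hv)

variable {Q : Subgroup X} {α : X ≃* X} {β : Nz Q ≃* Nz Q}

theorem Semi.rs (hr : Res Q α β) {V V' : Lat O X} {T : V.V ≃+ V'.V} (h : Semi σ α V V' T) :
    Semi σ β (V.rs Q) (V'.rs Q) T :=
  ⟨h.smul, fun x v => (h.act x v).trans (by rw [← hr.coe]; rfl)⟩

theorem Res.ysymm (hr : Res Q α β) : Res Q α.symm β.symm :=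
  ⟨fun x => by rw [← hr.mem, α.apply_symm_apply],
    fun n => by rw [eq_comm, MulEquiv.symm_apply_eq, ← hr.coe, β.apply_symm_apply]⟩

/-- transport of an equivariant map along two semilinear isomorphisms -/
theorem Semi.homC {V V' M M' : Lat O Y} {T : V.V ≃+ V'.V} (h : Semi σ b V V' T) {T' : M.V ≃+ M'.V}
    (h' : Semi σ b M M' T') {w : V.V →ₗ[O] M.V} (hw : V.Hom M w) :
    ∃ w' : V'.V →ₗ[O] M'.V, V'.Hom M' w' ∧ ∀ v, w' (T v) = T' (w v) := by
  refine ⟨{ toFun := fun u => T' (w (T.symm u))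
            map_add' := fun u u' => by rw [map_add, map_add, map_add]
            map_smul' := fun c u => by
              rw [sem_inv h.smul, map_smul, h'.smul, RingEquiv.apply_symm_apply,
                RingHom.id_apply] }, fun x u => ?_, fun v => ?_⟩
  · obtain ⟨x, rfl⟩ := b.surjective x
    obtain ⟨u, rfl⟩ := T.surjective u
    change T' (w (T.symm _)) = M'.ρ _ (T' (w (T.symm _)))
    rw [← h.act, T.symm_apply_apply, T.symm_apply_apply, hw, h'.act]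
  · change T' (w (T.symm _)) = _
    rw [T.symm_apply_apply]

theorem Semi.src (hp : p.Prime) {g : MonoidAlgebra O (Nz Q)} (hg : g ^ (p ^ a + 1) = g)
    (hr : Res Q α β) (c : Cg p σ β g) {V V' : Lat O X} {M M' : Lat O (Nz Q)}
    {T : V.V ≃+ V'.V} (h : Semi σ α V V' T) {T' : M.V ≃+ M'.V} (h' : Semi σ β M M' T') {i : Bool}
    {Φ : Submodule O (V.V × M.V)} (ht : Src p a Q g V M i Φ) :
    ∃ Φ' : Submodule O (V'.V × M'.V), Src p a Q g V' M' i Φ' ∧
      ∀ v m, (v, m) ∈ Φ ↔ (T v, T' m) ∈ Φ' := by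
  obtain ⟨Φ', t, m⟩ := (h.rs hr).tieC hp hg c h' ht.tie
  refine ⟨Φ', ⟨t, fun V1 M1 Φ1 w1 t1 hw => ?_⟩, m⟩
  obtain ⟨V0, S, hS⟩ := exists_semi σ.symm α.symm V1
  obtain ⟨M0, S', hS'⟩ := exists_semi σ.symm β.symm M1
  obtain ⟨Φ0, t0, m0⟩ := (hS.rs hr.ysymm).tieC hp hg (c.symm hp hg) hS' t1
  obtain ⟨w0, h0, e0⟩ := h'.symm.homC hS' hw
  obtain ⟨f0, h1, e1⟩ := ht.out V0 M0 Φ0 w0 t0 h0
  obtain ⟨f, h2, e2⟩ := h.homC hS.symm h1
  refine ⟨f, h2, fun v u hv => ?_⟩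
  obtain ⟨v, rfl⟩ := T.surjective v
  obtain ⟨u, rfl⟩ := T'.surjective u
  have k := e1 v u ((m v u).2 hv)
  rw [m0, e2, ← e0, T'.symm_apply_apply]
  exact (S.apply_symm_apply (f0 v)).symm ▸ k

end Pool.Agent.Lib.MP_1ae3da_al.CT.R5
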