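import Pool.Agent.Lib.MP_1ae3da_al.Y.Up
import Pool.Agent.Lib.MP_1ae3da_al.Y.SemC

set_option autoImplicit false
set_option linter.unusedSectionVars false

/-! Equivariance of weak types (edited copy of C/REq). -/

namespace Pool.Agent.Lib.MP_1ae3da_al.CT.R5

open Function Submodule

variable {F k X : Type} [Field F] [CharZero F] [IsAlgClosed F] [Field k] [Group X] [Finite X]
  {p a : ℕ} [Fact p.Prime] {O R : Subring F} [IsDiscreteValuationRing O] {r : F → k}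
  {GG : Subgroup (RingAut F)} {Q : Subgroup X} {ga : X → MonoidAlgebra F X} {d : Nz Q}
  {g : MonoidAlgebra O (Nz Q)} {e e' ψ η θ i ε : MonoidAlgebra F X}
  {γ : RingAut (MonoidAlgebra F X)} {om : X → F}
  {T : MonoidAlgebra F X →ₗ[F] MonoidAlgebra F X} {s : MonoidAlgebra F X → ℕ}

variable {v A : Set (MonoidAlgebra F X)} {b : Bool}

theorem Cx.eqv (hC : Cx p a O R r GG Q ga d g) (hγ : γ ∈ Gm GG Q)
    (h : WkC p a Q g A ψ b) : WkC p a Q g (γ '' A) (γ ψ) b := by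
  obtain ⟨V, M, Φ, ht, hM, hA⟩ := h
  have hp : p.Prime := Fact.out
  have hg := hC.gl.lo.pow
  obtain ⟨σ, -, s, α, β, -, hs, hr, -, c1, c2, c⟩ := hC.gm hγ
  obtain ⟨V', G, hG⟩ := exists_semi s α V
  obtain ⟨M', G', hG'⟩ := exists_semi s β M
  obtain ⟨Φ', ht', -⟩ := (hG.rs hr).tieC hp hg c hG' ht
  refine ⟨V', M', Φ', ht', ⟨hG'.good hp hg c hM.good, (span_stb hγ.1.1 hγ.2).2 hM.mem,
    req_idem hs hG' (c2 ψ) hM.idm⟩, ?_⟩
  rw [← req_sup hs hG hγ.1.1 hγ.1.2 c1]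
  exact Set.image_mono hA

end Pool.Agent.Lib.MP_1ae3da_al.CT.R5
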