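import Pool.Agent.Lib.MP_1ae3da_al.Y.Dl

set_option autoImplicit false
set_option linter.unusedSectionVars false

/-! The part of a module on which an endomorphism with `G ^ (q + 1) = G` is invertible. -/

namespace Pool.Agent.Lib.MP_1ae3da_al.CT.R5

open Function

variable {O : Type} [CommRing O] [IsDomain O] [IsDiscreteValuationRing O] [CharZero O] {p a q : ℕ}
  {U Z M : Type} [AddCommGroup U] [Module O U] [AddCommGroup Z] [Module O Z] [AddCommGroup M]
  [Module O M]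

/-- `Z` is the image of `G ^ q`, and `g` is the restriction of `G` -/
structure Yc (q : ℕ) (G : Module.End O U) (g : Module.End O Z) (j : Z →ₗ[O] U) (r : U →ₗ[O] Z) :
    Prop where
  pos : 0 < q
  pow : G ^ (q + 1) = G
  rj : ∀ v, r (j v) = v
  jr : ∀ u, j (r u) = (G ^ q) u
  jg : ∀ v, j (g v) = G (j v)

variable {G : Module.End O U} {g : Module.End O Z} {j : Z →ₗ[O] U} {r : U →ₗ[O] Z}

namespace Yc
variable (h : Yc q G g j r)
include h

theorem inj : Injective j := LeftInverse.injective h.rj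

theorem rg (u : U) : r (G u) = g (r u) := h.inj (by
  rw [h.jg, h.jr, h.jr, ← Module.End.mul_apply, ← Module.End.mul_apply, ← pow_succ, ← pow_succ'])

theorem jgp (n : ℕ) (v : Z) : j ((g ^ n) v) = (G ^ n) (j v) := by
  induction n with
  | zero => rfl
  | succ n ih => rw [pow_succ', pow_succ', Module.End.mul_apply, h.jg, ih, Module.End.mul_apply]

theorem rgp (n : ℕ) (u : U) : r ((G ^ n) u) = (g ^ n) (r u) := by
  induction n with
  | zero => rfl
  | succ n ih => rw [pow_succ', pow_succ', Module.End.mul_apply, h.rg, ih, Module.End.mul_apply]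

theorem gq : g ^ q = 1 := LinearMap.ext fun v => h.inj (by
  rw [h.jgp, ← h.jr, h.rj, Module.End.one_apply])

theorem Gjr (u : U) : G (j (r u)) = G u := by
  rw [h.jr, ← Module.End.mul_apply, ← pow_succ', h.pow]

theorem sum : ∑ i ∈ Finset.range q, g ^ (i + 1) = ∑ i ∈ Finset.range q, g ^ i := by
  have := Finset.sum_range_succ' (fun i => g ^ i) q
  rw [Finset.sum_range_succ, h.gq, pow_zero] at this
  exact (add_right_cancel this).symm

theorem yA_eq (i : Bool) : yA q g i = zA q g i := by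
  cases i
  · rfl
  · rw [yA, yOp, h.sum, zA]

theorem yB_eq (i : Bool) : yB q g i = zB q g i := by
  cases i
  · rw [yB, Bool.not_false, yOp, h.sum, zB]
  · rfl

theorem jop (i : Bool) (v : Z) : j (yOp q g i v) = yOp q G i (j v) := by
  cases i
  · exact (map_sub j _ _).trans (congrArg (· - j v) (h.jg v))
  · simp only [yOp, LinearMap.sum_apply, map_sum, h.jgp]

theorem rop (i : Bool) (u : U) : r (yOp q G i u) = yOp q g i (r u) := by
  cases i
  · exact (map_sub r _ _).trans (congrArg (· - r u) (h.rg u))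
  · simp only [yOp, LinearMap.sum_apply, map_sum, h.rgp]

theorem rA {i : Bool} {u : U} (hu : u ∈ yA q G i) : r u ∈ zA q g i := by
  rw [← h.yA_eq, yA, LinearMap.mem_ker, ← h.rop, LinearMap.mem_ker.1 hu, map_zero]

theorem rB {i : Bool} {u : U} (hu : u ∈ yB q G i) : r u ∈ zB q g i := by
  obtain ⟨w, rfl⟩ := hu
  rw [← h.yB_eq]
  exact ⟨r w, (h.rop _ w).symm⟩

theorem jA {i : Bool} {v : Z} : j v ∈ yA q G i ↔ v ∈ zA q g i :=
  ⟨fun k => h.rj v ▸ h.rA k, fun k => by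
    rw [← h.yA_eq] at k
    rw [yA, LinearMap.mem_ker, ← h.jop, LinearMap.mem_ker.1 k, map_zero]⟩

theorem jB {i : Bool} {v : Z} : j v ∈ yB q G i ↔ v ∈ zB q g i :=
  ⟨fun k => h.rj v ▸ h.rB k, fun k => by
    rw [← h.yB_eq] at k
    obtain ⟨w, rfl⟩ := k
    exact ⟨j w, (h.jop _ w).symm⟩⟩

theorem fix {u : U} (hu : u ∈ yA q G false) : j (r u) = u := by
  rw [h.jr]
  exact rlbas_fix (sub_eq_zero.1 hu) q

theorem rest (u : U) : j (r u) - u ∈ yB q G true := by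
  rw [h.jr]
  exact secc_sub G q u

/-- the cut changes a cycle by a boundary -/
theorem sub {i : Bool} {u : U} (hu : u ∈ yA q G i) : j (r u) - u ∈ yB q G i := by
  cases i
  · rw [h.fix hu, sub_self]
    exact Submodule.zero_mem _
  · exact h.rest u

theorem le (i : Bool) : yB q G i ≤ yA q G i := by
  have e : (∑ j ∈ Finset.range q, G ^ (j + 1)) * (G - 1) = 0 := by
    simp only [pow_succ']
    rw [← Finset.mul_sum, mul_assoc, geom_sum_mul, mul_sub, ← pow_succ', h.pow, mul_one, sub_self]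
  have e' : (G - 1) * ∑ j ∈ Finset.range q, G ^ (j + 1) = 0 := by
    simp only [pow_succ]
    rw [← Finset.sum_mul, ← mul_assoc, mul_geom_sum, sub_mul, ← pow_succ, h.pow, one_mul, sub_self]
  rintro _ ⟨w, rfl⟩
  cases i
  · exact LinearMap.congr_fun e' w
  · exact LinearMap.congr_fun e w

theorem memB {i : Bool} {u : U} : u ∈ yB q G i ↔ u ∈ yA q G i ∧ r u ∈ zB q g i :=
  ⟨fun k => ⟨h.le i k, h.rB k⟩, fun k => by
    simpa using Submodule.sub_mem _ (h.jB.2 k.2) (h.sub k.1)⟩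

theorem memA1 {u : U} : u ∈ yA q G true ↔ r u ∈ zA q g true :=
  ⟨h.rA, fun k => by simpa using Submodule.sub_mem _ (h.jA.2 k) (h.le _ (h.rest u))⟩

theorem rP {i : Bool} {u : U} (hu : u ∈ yP p q G i) :
    r u ∈ zP (p : O) (zA q g i) (zB q g i) := by
  obtain ⟨b, hb, w, hw, rfl⟩ := mem_zP.1 hu
  exact mem_zP.2 ⟨_, h.rB hb, _, h.rA hw, by rw [map_add, map_smul]⟩

theorem jP {i : Bool} {v : Z} : j v ∈ yP p q G i ↔ v ∈ zP (p : O) (zA q g i) (zB q g i) :=
  ⟨fun k => h.rj v ▸ h.rP k, fun k => by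
    obtain ⟨b, hb, w, hw, rfl⟩ := mem_zP.1 k
    exact mem_zP.2 ⟨_, h.jB.2 hb, _, h.jA.2 hw, by rw [map_add, map_smul]⟩⟩

theorem memP {i : Bool} {u : U} :
    u ∈ yP p q G i ↔ u ∈ yA q G i ∧ r u ∈ zP (p : O) (zA q g i) (zB q g i) :=
  ⟨fun k => ⟨zP_le (h.le i) k, h.rP k⟩, fun k => by
    simpa using Submodule.sub_mem _ (h.jP.2 k.2) (le_zP (h.sub k.1))⟩

theorem yZ_iff {i : Bool} : yZ q G i ↔ zA q g i ≤ zB q g i :=
  ⟨fun k _ hv => h.jB.1 (k (h.jA.2 hv)), fun k _ hu => h.memB.2 ⟨hu, k (h.rA hu)⟩⟩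

theorem jH {v : Z} : j v ∈ yHA p G ↔ ∃ u, g v - v = (p : O) • u := by
  constructor
  · rintro ⟨u, e⟩
    refine ⟨r u, ?_⟩
    have := congrArg r (show (p : O) • u = G (j v) - j v from e)
    rw [map_smul, map_sub, h.rg, h.rj] at this
    exact this.symm
  · rintro ⟨u, e⟩
    refine ⟨j u, ?_⟩
    change (p : O) • j u = G (j v) - j v
    rw [← map_smul, ← e, map_sub, h.jg]

theorem rH {u : U} (hu : u ∈ yHA p G) : ∃ w, g (r u) - r u = (p : O) • w := by
  obtain ⟨w, e⟩ := hu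
  refine ⟨r w, ?_⟩
  rw [← h.rg, ← map_sub, ← map_smul]
  exact congrArg r e.symm

theorem subH {u : U} (hu : u ∈ yHA p G) : ∃ w, j (r u) - u = (p : O) • w := by
  obtain ⟨w, e⟩ := hu
  refine ⟨(∑ k ∈ Finset.range q, G ^ k) w, ?_⟩
  rw [h.jr, ← map_smul, show (p : O) • w = (G - 1) u from e]
  exact (LinearMap.congr_fun (geom_sum_mul G q) u).symm

theorem rHB {u : U} (hu : u ∈ yHB p q G) :
    ∃ w x, r u = (∑ i ∈ Finset.range q, g ^ i) w + (p : O) • x := by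
  obtain ⟨b, hb, _, ⟨x, rfl⟩, rfl⟩ := Submodule.mem_sup.1 hu
  obtain ⟨w, e⟩ := h.rB hb
  exact ⟨w, r x, by rw [map_add, e]; exact congrArg _ (map_smul r _ _)⟩

theorem jHB {v : Z} :
    j v ∈ yHB p q G ↔ ∃ w x, v = (∑ i ∈ Finset.range q, g ^ i) w + (p : O) • x :=
  ⟨fun k => h.rj v ▸ h.rHB k, by
    rintro ⟨w, x, rfl⟩
    rw [map_add, map_smul]
    exact Submodule.add_mem_sup (h.jB.2 ⟨w, rfl⟩) ⟨j x, rfl⟩⟩

theorem memHB {u : U} (hu : u ∈ yHA p G)
    (k : ∃ w x, r u = (∑ i ∈ Finset.range q, g ^ i) w + (p : O) • x) : u ∈ yHB p q G := by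
  obtain ⟨w, e⟩ := h.subH hu
  have : j (r u) - u ∈ yHB p q G := Submodule.mem_sup_right ⟨w, e.symm⟩
  simpa using Submodule.sub_mem _ (h.jHB.2 k) this

theorem yH_iff : yHA p G ≤ yHB p q G ↔ ∀ v, (∃ u, g v - v = (p : O) • u) →
    ∃ w x, v = (∑ i ∈ Finset.range q, g ^ i) w + (p : O) • x :=
  ⟨fun k _ hv => h.jHB.1 (k (h.jH.2 hv)), fun k _ hu => h.memHB hu (k _ (h.rH hu))⟩

theorem trace [Module.Free O U] [Module.Finite O U] [Module.Free O Z] [Module.Finite O Z]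
    (f : Module.End O U) (n : ℕ) :
    LinearMap.trace O Z (r ∘ₗ f ∘ₗ j * g ^ (n + 1)) = LinearMap.trace O U (f * G ^ (n + 1)) := by
  have e : r ∘ₗ f ∘ₗ j * g ^ (n + 1) = r ∘ₗ ((f * G ^ (n + 1)) ∘ₗ j) := LinearMap.ext fun v => by
    simp only [Module.End.mul_apply, LinearMap.comp_apply, h.jgp]
  rw [e, LinearMap.trace_comp_comm']
  congr 1
  refine LinearMap.ext fun u => ?_
  simp only [Module.End.mul_apply, LinearMap.comp_apply, pow_succ, h.Gjr]

/-- a graph on the cut gives a graph on the module -/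
theorem gr_up {i : Bool} {Φ : Submodule O (Z × M)}
    (k : Gr p (zA q g i) (zP (p : O) (zA q g i) (zB q g i)) Φ) :
    Gr p (yA q G i) (yP p q G i)
      ((yA q G i).comap (LinearMap.fst O U M) ⊓ Φ.comap (r.prodMap LinearMap.id)) := by
  refine ⟨fun u => ⟨fun hu => ?_, fun ⟨_, hm⟩ => hm.1⟩, fun m => ?_,
    fun u => (h.memP.trans (and_congr Iff.rfl (k.kl _).symm)).symm, fun m => ?_⟩
  · obtain ⟨m, hm⟩ := (k.dom _).1 (h.rA hu)
    exact ⟨m, hu, hm⟩
  · obtain ⟨v, hv⟩ := k.ran m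
    exact ⟨j v, h.jA.2 ((k.dom v).2 ⟨m, hv⟩), by simpa [h.rj] using hv⟩
  · rw [← k.kr]
    exact ⟨fun e => by simpa using e.2, fun e => ⟨(yA q G i).zero_mem, by simpa using e⟩⟩

/-- a graph on the module gives a graph on the cut -/
theorem gr_down {i : Bool} {Φ : Submodule O (U × M)} (k : Gr p (yA q G i) (yP p q G i) Φ) :
    Gr p (zA q g i) (zP (p : O) (zA q g i) (zB q g i)) (Φ.comap (j.prodMap LinearMap.id)) := by
  refine ⟨fun v => h.jA.symm.trans (k.dom _), fun m => ?_, fun v => (k.kl _).trans h.jP,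
    fun m => ?_⟩
  · obtain ⟨u, hu⟩ := k.ran m
    refine ⟨r u, ?_⟩
    simpa using Φ.add_mem ((k.kl _).2 (le_zP (h.sub ((k.dom u).2 ⟨m, hu⟩)))) hu
  · rw [← k.kr]
    simp

/-- in a graph on the module one may cut -/
theorem gr_cut {i : Bool} {Φ : Submodule O (U × M)} (k : Gr p (yA q G i) (yP p q G i) Φ)
    {u : U} {m : M} (hu : u ∈ yA q G i) : (j (r u), m) ∈ Φ ↔ (u, m) ∈ Φ := by
  have := (k.kl _).2 (le_zP (h.sub hu))
  exact ⟨fun e => by simpa using Φ.sub_mem e this, fun e => by simpa using Φ.add_mem this e⟩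

end Yc

theorem Yc.full {G : Module.End O U} (h : Yc (p ^ a) G g j r) {i : Bool} :
    yFull p a G i ↔ ∀ v ∈ zA (p ^ a) g i, (p : O) ^ (a - 1) • v ∈ zB (p ^ a) g i →
      v ∈ zP (p : O) (zA (p ^ a) g i) (zB (p ^ a) g i) :=
  ⟨fun k v hv e => h.jP.1 (k _ (h.jA.2 hv) (by rw [← map_smul]; exact h.jB.2 e)),
    fun k u hu e => h.memP.2 ⟨hu, k _ (h.rA hu) (by rw [← map_smul]; exact h.rB e)⟩⟩

variable {Y : Type} [Group Y] [Finite Y]

/-- the cut of a lattice by an equivariant power -/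
theorem exists_yc (V : Lat O Y) (hq : 0 < q) {γ : MonoidAlgebra O Y} (hγ : γ ^ (q + 1) = γ)
    (hc : V.Hom V (V.act γ ^ q)) :
    ∃ (Z : Lat O Y) (j : Z.V →ₗ[O] V.V) (r : V.V →ₗ[O] Z.V), Z.Hom V j ∧ V.Hom Z r ∧
      Yc q (V.act γ) (Z.act γ) j r := by
  have e : V.act γ ^ (q + 1) = V.act γ := by rw [← map_pow, hγ]
  have e2 : ∀ n, V.act γ ^ (n + 1) * V.act γ ^ q = V.act γ ^ (n + 1) := fun n => by
    rw [pow_succ, mul_assoc, ← pow_succ', e]
  obtain ⟨Z, j, h1, hi, h3⟩ := exists_sub V hc.range_st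
  have hm : ∀ v, (V.act γ ^ q) v ∈ LinearMap.range j := fun v => h3 ▸ LinearMap.mem_range_self _ v
  let E := LinearEquiv.ofInjective j hi
  let r : V.V →ₗ[O] Z.V := E.symm.toLinearMap ∘ₗ (V.act γ ^ q).codRestrict _ hm
  have k : ∀ v, j (r v) = (V.act γ ^ q) v := fun v =>
    congrArg Subtype.val (E.apply_symm_apply ((V.act γ ^ q).codRestrict _ hm v))
  refine ⟨Z, j, r, h1, fun x v => hi ?_, hq, e, fun w => hi ?_, k, act_hom h1 γ⟩
  · rw [k, h1, k, hc]
  · obtain ⟨v, hv⟩ : j w ∈ LinearMap.range (V.act γ ^ q) := h3 ▸ LinearMap.mem_range_self j w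
    have := e2 (q - 1)
    rw [Nat.sub_add_cancel hq] at this
    rw [k, ← hv, ← Module.End.mul_apply, this]

variable {K : Subgroup Y} {d : Y} {γ : MonoidAlgebra O Y}

theorem Lo.q_pos (h : Lo p a K d γ) : 0 < p ^ a := h.ord ▸ orderOf_pos d

theorem Lo.cj' (h : Lo p a K d γ) (n : Y) : ∃ i : ℕ, ¬ p ∣ i ∧ 0 < i ∧
    MonoidAlgebra.of O Y n * γ = γ ^ i * MonoidAlgebra.of O Y n := by
  obtain ⟨i, h1, h2⟩ := h.cj n
  have : 0 < i := Nat.pos_of_ne_zero fun e => h1 (e ▸ dvd_zero p)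
  exact ⟨i, h1, this, h.conj n i this h2⟩

theorem Lo.comK (h : Lo p a K d γ) {k : Y} (hk : k ∈ K) :
    MonoidAlgebra.of O Y k * γ = γ * MonoidAlgebra.of O Y k := by
  have := h.conj k 1 one_pos (by
    rw [pow_one, mul_assoc, mul_assoc, ← mul_assoc d]
    exact K.mul_mem hk (h.nor.conj_mem _ (K.inv_mem hk) d))
  rwa [pow_one] at this

theorem Lo.comd (h : Lo p a K d γ) : MonoidAlgebra.of O Y d * γ = γ * MonoidAlgebra.of O Y d := by
  have := h.conj d 1 one_pos (by simp)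
  rwa [pow_one] at this

theorem Lo.powq (h : Lo p a K d γ) {i : ℕ} (hi : 0 < i) : (γ ^ i) ^ p ^ a = γ ^ p ^ a := by
  have e : ∀ n, γ ^ (n + 1) * γ ^ p ^ a = γ ^ (n + 1) := fun n => by
    rw [pow_succ, mul_assoc, ← pow_succ', h.pow]
  have e1 := e (p ^ a - 1)
  rw [Nat.sub_add_cancel h.q_pos] at e1
  obtain ⟨i, rfl⟩ : ∃ k, i = k + 1 := ⟨i - 1, by omega⟩
  rw [← pow_mul γ (i + 1), mul_comm, pow_mul]
  exact IsIdempotentElem.pow_succ_eq i e1

/-- the idempotent is central -/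
theorem Lo.cen (h : Lo p a K d γ) (n : Y) :
    MonoidAlgebra.of O Y n * γ ^ p ^ a = γ ^ p ^ a * MonoidAlgebra.of O Y n := by
  obtain ⟨i, -, hi, e⟩ := h.cj' n
  rw [← h.powq hi]
  conv_lhs => rw [h.powq hi]
  exact SemiconjBy.pow_right e _

theorem Lo.cut (h : Lo p a K d γ) (V : Lat O Y) :
    ∃ (Z : Lat O Y) (j : Z.V →ₗ[O] V.V) (r : V.V →ₗ[O] Z.V), Z.Hom V j ∧ V.Hom Z r ∧
      Yc (p ^ a) (V.act γ) (Z.act γ) j r :=
  exists_yc V h.q_pos h.pow fun n v => by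
    have := LinearMap.congr_fun (congrArg V.act (h.cen n)) v
    rw [map_mul, map_mul, map_pow, act_of] at this
    exact this.symm

end Pool.Agent.Lib.MP_1ae3da_al.CT.R5
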