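import Pool.Agent.Lib.MP_1ae3da_al.Y.YH

set_option autoImplicit false
set_option linter.unusedSectionVars false

/-! The Herbrand count on the image of an idempotent. -/

namespace Pool.Agent.Lib.MP_1ae3da_al.CT.R5

open Function

variable {O : Type} [CommRing O] [IsDomain O] [IsDiscreteValuationRing O] [CharZero O] {p a q : ℕ}
  {U Z M : Type} [AddCommGroup U] [Module O U] [AddCommGroup Z] [Module O Z] [AddCommGroup M]
  [Module O M] {G : Module.End O U} {g : Module.End O Z}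

theorem yhbt_pow {f : Z →ₗ[O] U} (h : ∀ v, f (g v) = G (f v)) (n : ℕ) (v : Z) :
    f ((g ^ n) v) = (G ^ n) (f v) := by
  induction n with
  | zero => rfl
  | succ n ih => rw [pow_succ', pow_succ', Module.End.mul_apply, h, ih, Module.End.mul_apply]

theorem yhbt_op {f : Z →ₗ[O] U} (h : ∀ v, f (g v) = G (f v)) (i : Bool) (v : Z) :
    f (yOp q g i v) = yOp q G i (f v) := by
  cases i
  · exact (map_sub f _ _).trans (congrArg (· - f v) (h v))
  · simp only [yOp, LinearMap.sum_apply, map_sum, yhbt_pow h]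

theorem yhbt_A {f : Z →ₗ[O] U} (h : ∀ v, f (g v) = G (f v)) {i : Bool} {v : Z}
    (hv : v ∈ yA q g i) : f v ∈ yA q G i := by
  rw [yA, LinearMap.mem_ker, ← yhbt_op h, LinearMap.mem_ker.1 hv, map_zero]

theorem yhbt_B {f : Z →ₗ[O] U} (h : ∀ v, f (g v) = G (f v)) {i : Bool} {v : Z}
    (hv : v ∈ yB q g i) : f v ∈ yB q G i := by
  obtain ⟨w, rfl⟩ := hv
  exact ⟨f w, (yhbt_op h _ w).symm⟩

theorem yhbt_P {f : Z →ₗ[O] U} (h : ∀ v, f (g v) = G (f v)) {i : Bool} {v : Z}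
    (hv : v ∈ yP p q g i) : f v ∈ yP p q G i := by
  obtain ⟨b, hb, w, hw, rfl⟩ := mem_zP.1 hv
  exact mem_zP.2 ⟨_, yhbt_B h hb, _, yhbt_A h hw, by rw [map_add, map_smul]⟩

/-- a retract of a module with an endomorphism -/
structure Rtr (G : Module.End O U) (g : Module.End O Z) (j : Z →ₗ[O] U) (r : U →ₗ[O] Z) :
    Prop where
  rj : ∀ v, r (j v) = v
  jg : ∀ v, j (g v) = G (j v)
  rg : ∀ u, r (G u) = g (r u)

variable {j : Z →ₗ[O] U} {r : U →ₗ[O] Z}

theorem Rtr.pow (h : Rtr G g j r) (hG : G ^ (q + 1) = G) : g ^ (q + 1) = g :=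
  LinearMap.ext fun v => by rw [← h.rj v, ← yhbt_pow h.rg, hG, h.rg]

theorem Rtr.z (h : Rtr G g j r) {i : Bool} (hz : yZ q G i) : yZ q g i := fun v hv =>
  h.rj v ▸ yhbt_B h.rg (hz (yhbt_A h.jg hv))

theorem Rtr.gr (h : Rtr G g j r) {M' : Type} [AddCommGroup M'] [Module O M'] {j' : M' →ₗ[O] M}
    {r' : M →ₗ[O] M'} (h' : ∀ m, r' (j' m) = m) {i : Bool} {Φ : Submodule O (U × M)}
    (k : Gr p (yA q G i) (yP p q G i) Φ) (st : ∀ v m, (v, m) ∈ Φ → (j (r v), j' (r' m)) ∈ Φ) :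
    Gr p (yA q g i) (yP p q g i) (Φ.comap (j.prodMap j')) := by
  refine ⟨fun v => ⟨fun hv => ?_, fun ⟨m, hm⟩ => ?_⟩, fun m => ?_, fun v => ⟨fun e => ?_,
    fun e => ?_⟩, fun m => ⟨fun e => ?_, ?_⟩⟩
  · obtain ⟨m, hm⟩ := (k.dom _).1 (yhbt_A h.jg hv)
    exact ⟨r' m, by simpa [h.rj] using st _ _ hm⟩
  · exact h.rj v ▸ yhbt_A h.rg ((k.dom _).2 ⟨_, hm⟩)
  · obtain ⟨u, hu⟩ := k.ran (j' m)
    exact ⟨r u, by simpa [h'] using st _ _ hu⟩
  · exact h.rj v ▸ yhbt_P h.rg ((k.kl _).1 (by simpa using e))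
  · simpa using (k.kl _).2 (yhbt_P h.jg e)
  · obtain ⟨x, e'⟩ := (k.kr (j' m)).1 (by simpa using e)
    exact ⟨r' x, by rw [← h' m, e', map_smul]⟩
  · rintro ⟨x, rfl⟩
    simpa using (k.kr _).2 ⟨j' x, rfl⟩

theorem yhbt_rt {T : Module.End O U} (hT : T * T = T) (cm : T * G = G * T) :
    ∃ g : Module.End O (LinearMap.range T),
      Rtr G g (LinearMap.range T).subtype T.rangeRestrict := by
  refine ⟨G.restrict (p := LinearMap.range T) (q := LinearMap.range T) ?_, ?_, fun v => rfl,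
    fun u => Subtype.ext (LinearMap.congr_fun cm u)⟩
  · rintro _ ⟨v, rfl⟩
    exact ⟨G v, LinearMap.congr_fun cm v⟩
  · rintro ⟨_, v, rfl⟩
    exact Subtype.ext (LinearMap.congr_fun hT v)

variable [Module.Free O U] [Module.Finite O U]

theorem Rtr.trace [Module.Free O Z] [Module.Finite O Z] (h : Rtr G g j r) (n : ℕ) :
    LinearMap.trace O Z (g ^ n) = LinearMap.trace O U (j ∘ₗ r * G ^ n) := by
  have e : g ^ n = r ∘ₗ ((G ^ n) ∘ₗ j) := LinearMap.ext fun v => by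
    simp only [LinearMap.comp_apply, yhbt_pow h.rg, h.rj]
  rw [e, LinearMap.trace_comp_comm', LinearMap.trace_mul_comm]
  rfl

theorem yhbt_rank {T : Module.End O U} (hT : T * T = T) :
    LinearMap.trace O U T = (Module.finrank O (LinearMap.range T) : O) := by
  obtain ⟨g, h⟩ := yhbt_rt (G := 1) hT (by simp)
  have := h.trace 0
  rw [pow_zero, pow_zero, mul_one, LinearMap.trace_one] at this
  exact this.symm

/-- the Herbrand count on the image of an idempotent -/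
theorem yherb_cut (hW : Wt p O) [Module.Free O M] [Module.Finite O M] (ha : 0 < a)
    (hG : G ^ (p ^ a + 1) = G) {T : Module.End O U} {T' : Module.End O M} (hT : T * T = T)
    (hT' : T' * T' = T') (cm : T * G = G * T) {c : ℤ}
    (ht : ∀ n, 0 < n → n < p ^ a → LinearMap.trace O U (T * G ^ n) = (c : O)) (i : Bool)
    (hz : yZ (p ^ a) G (!i)) {Φ : Submodule O (U × M)}
    (k : Gr p (yA (p ^ a) G i) (yP p (p ^ a) G i) Φ)
    (st : ∀ v m, (v, m) ∈ Φ → (T v, T' m) ∈ Φ) :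
    ∃ n : ℕ, LinearMap.trace O M T' = (n : O) ∧ 0 ≤ sg ℤ i * c ∧ sg ℤ i * c ≤ n ∧
      (c = 0 ↔ n = 0) ∧ (c = 0 ↔ T' = 0) := by
  obtain ⟨g, h⟩ := yhbt_rt hT cm
  obtain ⟨g', h'⟩ := yhbt_rt (G := 1) hT' (by simp)
  obtain ⟨h1, h2, h3, -⟩ := yherb hW ha (h.pow hG) (c := c)
    (fun n x y => (h.trace n).trans (ht n x y)) i (h.z hz) (h.gr h'.rj k st)
  exact ⟨_, yhbt_rank hT', h1, h2, h3, h3.trans (Submodule.finrank_eq_zero.trans
    LinearMap.range_eq_bot)⟩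

theorem yherb_cut_zero (hW : Wt p O) (ha : 0 < a) (hG : G ^ (p ^ a + 1) = G)
    {T : Module.End O U} (hT : T * T = T) (cm : T * G = G * T) {c : ℤ}
    (ht : ∀ n, 0 < n → n < p ^ a → LinearMap.trace O U (T * G ^ n) = (c : O))
    (hz : ∀ i, yZ (p ^ a) G i) : c = 0 := by
  obtain ⟨g, h⟩ := yhbt_rt hT cm
  exact yherb_zero hW ha (h.pow hG) (fun n x y => (h.trace n).trans (ht n x y))
    fun i => h.z (hz i)

end Pool.Agent.Lib.MP_1ae3da_al.CT.R5
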