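import Pool.Agent.Lib.MP_1ae3da_al.Y.HigA
import Pool.Agent.Lib.MP_1ae3da_al.Y.HbT
import Pool.Agent.Lib.MP_1ae3da_al.Y.SemC
import Pool.Agent.Lib.MP_1ae3da_al.Y.Cut
import Pool.Agent.Lib.MP_1ae3da_al.C.RLShift

set_option autoImplicit false
set_option linter.unusedSectionVars false

/-! Local lattices: wrappers of Y/SecA, SecB, SecC, TwG, Cut. -/

namespace Pool.Agent.Lib.MP_1ae3da_al.CT.R5

open Function

variable {O X Y : Type} [CommRing O] [IsDomain O] [IsDiscreteValuationRing O] [CharZero O]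
  [Group X] [Finite X] [Group Y] [Finite Y] {p a : ℕ} {Q : Subgroup X}
  {K : Subgroup Y} {d : Y} {g : MonoidAlgebra O Y}

theorem Lo.gpow (h : Lo p a K d g) (V : Lat O Y) : V.act g ^ (p ^ a + 1) = V.act g := by
  rw [← map_pow, h.pow]

theorem Lo.cjg (h : Lo p a K d g) (V : Lat O Y) (n : Y) :
    ∃ j : ℕ, ¬ p ∣ j ∧ ∀ v, V.ρ n (V.act g v) = (V.act g ^ j) (V.ρ n v) := by
  obtain ⟨j, h1, -, h2⟩ := h.cj' n
  refine ⟨j, h1, fun v => ?_⟩
  have := LinearMap.congr_fun (congrArg V.act h2) v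
  simpa only [map_mul, map_pow, Lat.act, act_of, Module.End.mul_apply] using this

theorem Lo.comS (h : Lo p a K d g) {w : MonoidAlgebra O Y} (hw : w ∈ spn O K) :
    w * g = g * w := by
  induction hw using Submodule.span_induction with
  | mem x hx =>
    obtain ⟨k, hk, rfl⟩ := hx
    exact h.comK hk
  | zero => simp
  | add x y _ _ hx hy => rw [add_mul, mul_add, hx, hy]
  | smul c x _ hx => rw [smul_mul_assoc, mul_smul_comm, hx]

theorem Lat.St.act {V : Lat O Y} {S : Submodule O V.V} (hS : V.St S) (x : MonoidAlgebra O Y)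
    {v : V.V} (hv : v ∈ S) : V.act x v ∈ S := by
  exact ytwg_st hS x hv

theorem Gst.act {V M : Lat O Y} {Φ : Submodule O (V.V × M.V)} (hs : Gst V M Φ)
    (x : MonoidAlgebra O Y) {v : V.V} {m : M.V} (hv : (v, m) ∈ Φ) :
    (V.act x v, M.act x m) ∈ Φ := by
  have := Fintype.ofFinite Y
  have e : (V.act x v, M.act x m) = ∑ y, x.coeff y • (V.ρ y v, M.ρ y m) := by
    simp only [Lat.act, act_eq, finsum_eq_sum_of_fintype, LinearMap.sum_apply,
      LinearMap.smul_apply, Prod.ext_iff, Prod.fst_sum, Prod.snd_sum, Prod.smul_mk, and_self]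
  rw [e]
  exact Φ.sum_mem fun y _ => Φ.smul_mem _ (hs y v m hv)

theorem Lat.Hom.act {V W : Lat O Y} {f : V.V →ₗ[O] W.V} (hf : V.Hom W f)
    (x : MonoidAlgebra O Y) (v : V.V) : f (V.act x v) = W.act x (f v) := by
  exact act_hom hf x v

theorem Good.sca (hW : Wt p O) (h : Lo p a K d g) {M : Lat O Y} (hM : Good g M) : M.Sca := by
  exact (h.av hW).sca hW hM.one hM.ir

theorem Good.rk (hW : Wt p O) (h : Lo p a K d g) {M : Lat O Y} (hM : Good g M) :
    ¬ p ∣ M.rk := by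
  exact (h.av hW).rk hW hM.one hM.ir

theorem Good.iso (hW : Wt p O) (h : Lo p a K d g) {M M' : Lat O Y} (hM : Good g M)
    (hM' : Good g M') (hc : ∀ x, M.ch x = M'.ch x) :
    ∃ f : M.V →ₗ[O] M'.V, M.Hom M' f ∧ Bijective f := by
  exact (h.av hW).iso hW hM.one hM.ir hM'.one hM'.ir hc

variable {d' : Nz Q} {g' : MonoidAlgebra O (Nz Q)}

theorem Lat.Hom.G {V W : Lat O X} {f : V.V →ₗ[O] W.V} (hf : V.Hom W f) (v : V.V) :
    f (V.G Q g' v) = W.G Q g' (f v) := by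
  exact Lat.Hom.act (V := V.rs Q) (W := W.rs Q) (fun y v => hf (y : X) v) g' v

theorem Gl.om (hW : Wt p O) (hG : Gl p a Q d' g') {ω : Nz Q →* Oˣ} (hω : Omg p Q ω) :
    OmC p (KN p Q) d' ω ∧ (∀ k ∈ KN p Q, ω k = 1) ∧ ω d' = 1 := by
  have key : ∀ c : Nz Q, (c : X) ∈ CQ Q → ω c = 1 := fun c hc =>
    (hω.eq_one_iff hW hG.cy.card c).2 fun g hg => (Subgroup.mem_centralizer_iff.1 hc g hg).symm
  refine ⟨fun n j hj => ?_, fun k hk => key k (kp_le Q hk), key _ hG.cy.dC⟩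
  have : Nontrivial Q := Finite.one_lt_card_iff_nontrivial.1 (hG.cy.card ▸ hW.prime.one_lt)
  obtain ⟨x, hx⟩ := exists_ne (1 : Q)
  exact hω.cong n x j x.2 (fun e => hx (Subtype.ext e))
    (hG.cy.act n.2 (by simpa using Subgroup.mem_subgroupOf.1 hj) x.2)

end Pool.Agent.Lib.MP_1ae3da_al.CT.R5
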