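import Pool.Agent.Lib.MP_1ae3da_al.Y.GamB
import Pool.Agent.Lib.MP_1ae3da_al.C.DB

set_option autoImplicit false

/-! The central twist of a group with a normal complement: integrality. -/

namespace Pool.Agent.Lib.MP_1ae3da_al.CT

open Submodule

variable {F X k : Type} [Field F] [Field k] [Group X] {p : ℕ} {K C : Subgroup X} {c c' : X}
  {O R : Subring F} {r : F → k} {GG : Subgroup (RingAut F)}

theorem PM.int (h : PM p O R r GG) {x : F} (hx : x ∈ R) {a : ℕ} (ha : (p : F) ^ a * x ∈ O) :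
    x ∈ O := by
  have := h.charF
  have := h.chark
  have p0 : (p : F) ≠ 0 := Nat.cast_ne_zero.2 h.prime.ne_zero
  induction a with
  | zero => simpa using ha
  | succ a ih =>
    have m : (p : F) ^ a * x ∈ R := R.mul_mem (R.pow_mem (natCast_mem R p) a) hx
    rw [pow_succ', mul_assoc] at ha
    obtain ⟨y, hy, e⟩ := (h.ker _ ha).1 (by
      rw [h.mul _ (natCast_mem R p) _ m, h.r_nat, CharP.cast_eq_zero, zero_mul])
    exact ih (mul_left_cancel₀ p0 e ▸ hy)

theorem gamc_coeff {σ : RingAut F} {γ : RingAut (MonoidAlgebra F X)} (hγ : SL F σ γ)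
    (hα : ∀ x, γ (gu F X x) = gu F X x) (a : MonoidAlgebra F X) (x : X) :
    (γ a).coeff x = σ (a.coeff x) := by
  classical
  induction a using MonoidAlgebra.induction_linear with
  | zero => simp
  | add a b ha hb => simp [ha, hb]
  | single y c =>
    rw [← aga_smul, hγ, hα, aga_smul, aga_smul]
    by_cases q : y = x <;> simp [q]

theorem gamc_zero {H : Subgroup X} {a : MonoidAlgebra F X} (ha : a ∈ span F (HX F H)) {x : X}
    (hx : x ∉ H) : a.coeff x = 0 := by
  let l : MonoidAlgebra F X →ₗ[F] F :=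
    { toFun := fun a => a.coeff x, map_add' := fun _ _ => rfl, map_smul' := fun _ _ => rfl }
  exact ta_ext (f := l) (g := 0) (fun y hy => by
    have : y ≠ x := fun e => hx (e ▸ hy)
    change (gu F X y).coeff x = 0
    simp [gu, this]) ha

/-- an element fixed by the Galois group with coefficients in `R` has coefficients in `O` -/
theorem PM.coeff_int (h : PM p O R r GG) {a : MonoidAlgebra F X}
    (hf : ∀ γ ∈ G0 O GG X, γ a = a) {x : X} (hx : a.coeff x ∈ R) : a.coeff x ∈ O := by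
  obtain ⟨n, hn⟩ := h.fix (a.coeff x) fun σ hσ f => by
    obtain ⟨γ, s, t⟩ := ga_aut σ (1 : MulAut X)
    rw [← gamc_coeff s t, hf γ ⟨σ, hσ, f, s, t⟩]
  exact h.int hx hn

variable [Finite X]

/-- the coefficient of one of an element of finite order -/
theorem PM.coeff_one (h : PM p O R r GG) (hK : ¬ p ∣ Nat.card K) {b : MonoidAlgebra F X}
    (hb : b ∈ span F (HX F K)) {j : ℕ} (hj : 0 < j) (e : b ^ (j + 1) = b) : b.coeff 1 ∈ R := by
  have := Fintype.ofFinite K
  obtain ⟨B, _, _, v, red, hr⟩ := exists_RD h ((gu_tg (F := F) (X := X)).sub K)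
    (fun x y => ⟨1, Mup.one h.prime, by rw [one_smul]; exact gu_mul _ _⟩) hK
  let l : MonoidAlgebra F X →ₗ[F] F :=
    { toFun := fun a => a.coeff 1, map_add' := fun _ _ => rfl, map_smul' := fun _ _ => rfl }
  refine dd_t h hr (t := l) ⟨?_, fun x hx => ?_⟩ ((Hm_subtype (F := F) (u := gu F X) (H := K)).symm ▸ hb :
    b ∈ span F (Hm F (fun x : K => gu F X x) ⊤)) hj e
  · change (gu F X 1).coeff 1 = 1
    simp [gu]
  · have : (x : X) ≠ 1 := fun e => hx (Subtype.ext e)
    change (gu F X x).coeff 1 = 0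
    simp [gu, this]

variable [CharZero F] [IsAlgClosed F]

theorem gam_g0 (hp : p.Prime) (hc : c ∈ C) {γ : RingAut (MonoidAlgebra F X)}
    (hγ : γ ∈ G0 O GG X) : γ (gam F p C c) = gam F p C c := by
  obtain ⟨σ, -, -, s, t⟩ := hγ
  exact gam_nat hp s ((ga_stb (δ := 1) s t C).2 fun _ => Iff.rfl) hc (t c)

theorem gam_comm (c : X) (hc : c' ∈ C) :
    gam F p C c * gu F X c' = gu F X c' * gam F p C c := (gam_cen c).2 _ (aga_mem.2 hc)

theorem gam_w_pow (hp : p.Prime) (hc : c ∈ C) (n : ℕ) :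
    (gam F p C c * gu F X c⁻¹) ^ (n + 1) = gam F p C (c ^ (n + 1)) * gu F X (c ^ (n + 1))⁻¹ := by
  have e : ∀ n : ℕ, gu F X c⁻¹ ^ n = gu F X (c ^ n)⁻¹ := fun n => by
    induction n with
    | zero => rw [pow_zero, pow_zero, inv_one, gu_one]
    | succ n ih => rw [pow_succ, ih, gu_mul, ← mul_inv_rev, pow_succ']
  rw [Commute.mul_pow (gam_comm c (C.inv_mem hc)), gam_pow hp hc, e]

theorem TwS.w_shift (h : TwS p K C) (hp : p.Prime) (hc : c ∈ C) {x : X} (hx : x ∈ K) :
    gam F p C c * gu F X c⁻¹ * gu F X x⁻¹ = gam F p C (x * c) * gu F X (x * c)⁻¹ := by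
  rw [gam_mul hp (h.le hx) hc, h.gam_K hp hx, ← gam_mul hp C.one_mem hc, one_mul, mul_assoc,
    gu_mul, mul_inv_rev]

/-- the coefficients of `gam c * c⁻¹` lie in `O` -/
theorem TwS.int (h : TwS p K C) (hP : PM p O R r GG) (hc : c ∈ C) (x : X) :
    (gam F p C c * gu F X c⁻¹).coeff x ∈ O := by
  have hp := hP.prime
  by_cases hx : x ∈ K
  · refine hP.coeff_int (fun γ hγ => ?_) ?_
    · rw [map_mul, gam_g0 hp hc hγ]
      obtain ⟨σ, -, -, -, t⟩ := hγ
      rw [t]
    · have e : (gam F p C c * gu F X c⁻¹).coeff x =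
          (gam F p C c * gu F X c⁻¹ * gu F X x⁻¹).coeff 1 := by
        rw [gu.eq_1 F X x⁻¹, MonoidAlgebra.coeff_mul_single_apply, mul_one, inv_inv, one_mul]
      have m := C.mul_mem (h.le hx) hc
      rw [e, h.w_shift hp hc hx]
      refine hP.coeff_one h.cop (h.mem hp m) (orderOf_pos (x * c)) ?_
      rw [gam_w_pow hp m, pow_succ, pow_orderOf_eq_one, one_mul]
  · rw [gamc_zero (h.mem hp hc) hx]
    exact O.zero_mem

/-- the coefficients of `gam c` lie in `O` -/
theorem TwS.int' (h : TwS p K C) (hP : PM p O R r GG) (hc : c ∈ C) (x : X) :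
    (gam F p C c).coeff x ∈ O := by
  have e : gam F p C c = gam F p C c * gu F X c⁻¹ * gu F X c := by
    rw [mul_assoc, gu_mul, inv_mul_cancel, gu_one, mul_one]
  rw [e, gu.eq_1 F X c, MonoidAlgebra.coeff_mul_single_apply, mul_one]
  exact h.int hP hc _

end Pool.Agent.Lib.MP_1ae3da_al.CT
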