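import Pool.Agent.Lib.MP_1ae3da_al.Y.Grp
import Pool.Agent.Lib.MP_1ae3da_al.Y.GamC
import Pool.Agent.Lib.MP_1ae3da_al.C.RCi
import Pool.Agent.Lib.MP_1ae3da_al.C.RCc

set_option autoImplicit false
set_option linter.unusedSectionVars false

/-! The twist: sum over the invariant blocks. -/

namespace Pool.Agent.Lib.MP_1ae3da_al.CT

open Submodule

variable {p a : ℕ} {F X : Type} [Field F] [CharZero F] [IsAlgClosed F] [Group X] [Finite X]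
  [Fact p.Prime] {Q : Subgroup X} {d : X} {ga : X → MonoidAlgebra F X}
  {GG : Subgroup (RingAut F)} {e e' ε ε' θ θ' i i' ψ ψ' η η' x y b : MonoidAlgebra F X}
  {γ : RingAut (MonoidAlgebra F X)} {om : X → F}
  {T : MonoidAlgebra F X →ₗ[F] MonoidAlgebra F X} {k : Type} [Field k] {O R : Subring F}
  {r : F → k}

theorem Cyc.tws (h : Cyc p a Q d) : TwS p (Kp p Q) (CQ Q) :=
  ⟨kp_le Q, rcc_CN.trans rcc_nK, h.kcard, d, h.dC, ⟨a, h.ord ▸ pow_orderOf_eq_one d⟩,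
    fun _ hc => (h.split hc).imp fun _ k => ⟨k.1, k.2.imp fun _ u => u.2⟩⟩

theorem yga2_iv : Ivt Q θ → CQ Q ≤ St (gu F X) θ := fun h c hc => Subgroup.subset_closure (h c hc)

theorem yga2_vi : CQ Q ≤ St (gu F X) θ → Ivt Q θ := fun h _ hc =>
  (mem_St gu_tg (rcc_top θ)).1 (h hc)

theorem gm_aut0 (h : Cyc p a Q d) (hγ : γ ∈ Gm GG Q) : ∃ σ ∈ GG, ∃ α : MulAut X, SL F σ γ ∧
    (∀ x, γ (gu F X x) = gu F X (α x)) ∧ (∀ x, α x ∈ Q ↔ x ∈ Q) ∧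
      γ ∈ Stb (HX F (Kp p Q)) ∧ γ ∈ Stb (HX F (CQ Q)) := by
  obtain ⟨⟨⟨σ, hσ, hs⟩, h0⟩, hN⟩ := hγ
  obtain ⟨α, hα⟩ := ga_perf h.per hs h0
  have h1 := h.autQ α ((ga_stb hs hα (NQ Q)).1 hN)
  obtain ⟨-, h2, h3, -⟩ := rci_stb (p := p) hs hα h1
  exact ⟨σ, hσ, α, hs, hα, h1, h2, h3⟩

/-- `ga = gam F p (CQ Q)` of Y/GamA, GamB, GamC. -/
theorem ga_ex (hP : PM p O R r GG) (h : Cyc p a Q d) : ∃ ga : X → MonoidAlgebra F X,
    Ga0 GG p Q ga ∧ ∀ c ∈ CQ Q, ∀ z, (ga c).coeff z ∈ O := by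
  have t := h.tws
  have hp := h.prime
  refine ⟨gam F p (CQ Q), ⟨fun c hc c' hc' => gam_mul hp hc hc', fun k hk => t.gam_K hp hk,
    fun c hc => ⟨_, t.mem hp hc, by rw [mul_assoc, gu_mul, inv_mul_cancel, gu_one, mul_one]⟩,
    fun c _ x hx => gam_comm c hx, fun θ hθ hi => ?_, fun θ hθ hi => ?_,
    fun γ hγ α hα c hc => ?_⟩, fun c hc z => t.int' hP hc z⟩
  · exact (Cen_comm (gam_cen 1) (rcc_KC hθ.1.1)).symm.trans (t.one_inv hp hθ (yga2_iv hi))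
  · exact (Cen_comm (gam_cen 1) (rcc_KC hθ.1.1)).symm.trans
      (t.gam_non hp hθ (fun k => hi (yga2_vi k)) 1)
  · obtain ⟨σ, -, -, hs, -, -, -, h3⟩ := gm_aut0 h hγ
    exact gam_nat hp hs h3 hc (hα c)

/-- `PM.coeff_one`, `PM.coeff_int`, `fix_g0`. -/
theorem irrK_int (hP : PM p O R r GG) (h : Cyc p a Q d) (hθ : θ ∈ Irr F (HX F (Kp p Q)))
    (z : X) : θ.coeff z ∈ O := by
  by_cases hx : z ∈ Kp p Q
  · refine hP.coeff_int (fun γ hγ => fix_g0 hP hθ h.kcard (fun g hg => ?_) hγ) ?_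
    · rw [show g ^ Nat.card (Kp p Q) = 1 from
        congrArg Subtype.val (pow_card_eq_one' (x := (⟨g, hg⟩ : Kp p Q))), gu_one, one_mul]
    · have e : θ.coeff z = (θ * gu F X z⁻¹).coeff 1 := by
        rw [gu.eq_1 F X z⁻¹, MonoidAlgebra.coeff_mul_single_apply, mul_one, inv_inv, one_mul]
      have m := gam_gu (F := F) ((Kp p Q).inv_mem hx)
      have e' : ∀ n : ℕ, gu F X z⁻¹ ^ n = gu F X (z⁻¹ ^ n) := fun n => by
        induction n with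
        | zero => rw [pow_zero, pow_zero, gu_one]
        | succ n ih => rw [pow_succ, ih, gu_mul, pow_succ]
      rw [e]
      refine hP.coeff_one h.kcard ((gam_nice _).span_mul hθ.1.1 m) (orderOf_pos z⁻¹) ?_
      rw [Commute.mul_pow (Cen_comm hθ.1 m), IsIdempotentElem.pow_succ_eq _ hθ.2.1, e', pow_succ,
        pow_orderOf_eq_one, one_mul]
  · rw [gamc_zero hθ.1.1 hx]
    exact O.zero_mem

end Pool.Agent.Lib.MP_1ae3da_al.CT
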