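import Pool.Agent.Lib.MP_1ae3da_al.Y.Ca
import Pool.Agent.Lib.MP_1ae3da_al.Y.Ga2

set_option autoImplicit false
set_option linter.unusedSectionVars false

/-! The centraliser over the invariant blocks (edited copy of C/RCi). -/

namespace Pool.Agent.Lib.MP_1ae3da_al.CT

open Submodule

variable {p a : ℕ} {F X : Type} [Field F] [CharZero F] [IsAlgClosed F] [Group X] [Finite X]
  [Fact p.Prime] {Q : Subgroup X} {d : X} {ga : X → MonoidAlgebra F X}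
  {GG : Subgroup (RingAut F)} {e e' ε ε' θ θ' i i' ψ ψ' η η' x y b : MonoidAlgebra F X}
  {γ : RingAut (MonoidAlgebra F X)} {om : X → F}
  {T : MonoidAlgebra F X →ₗ[F] MonoidAlgebra F X} {k : Type} [Field k] {O R : Subring F}
  {r : F → k}

theorem yCi_sg {c : X} (hc : c ∈ CQ Q) (hk : c ∉ Kp p Q) (hb : b ∈ span F (HX F (Kp p Q))) :
    b * gu F X c ∈ SgC F Q p := by
  induction hb using span_induction with
  | mem b m =>
    obtain ⟨s, -, y, hy, rfl⟩ := m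
    rw [smul_mul_assoc, gu_mul]
    exact smul_mem _ _ (subset_span ⟨y * c, mul_mem (kp_le Q hy) hc,
      fun h => hk (((Kp p Q).mul_mem_cancel_left hy).1 h), rfl⟩)
  | zero => rw [zero_mul]; exact zero_mem _
  | add x y _ _ hx hy => rw [add_mul]; exact add_mem hx hy
  | smul s x _ hx => rw [smul_mul_assoc]; exact smul_mem _ _ hx

theorem yCi_sing (h : Cyc p a Q d) (hg : Ga0 GG p Q ga) (hε : ε ∈ Irr F (Gs Q ga))
    (hb : b ∈ span F (HX F (Kp p Q))) : b * (ε - ((p : F) ^ a)⁻¹ • ga 1) ∈ SgC F Q p := by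
  obtain ⟨ζ, -, h1⟩ := gs_eig h hg hε h.dC
  have h0 : 0 ∈ Finset.range (p ^ a) := Finset.mem_range.2 (pow_pos h.prime.pos a)
  rw [gs_form h hg hε h1, ← Finset.add_sum_erase _ _ h0, pow_zero, pow_zero, one_smul,
    ← smul_sub, add_sub_cancel_left, mul_smul_comm, Finset.mul_sum]
  refine smul_mem _ _ (sum_mem fun j hj => ?_)
  obtain ⟨h2, h3⟩ := Finset.mem_erase.1 hj
  have hc : d ^ j ∈ CQ Q := pow_mem h.dC j
  obtain ⟨w, hw, e⟩ := hg.hom _ hc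
  rw [mul_smul_comm, e, ← mul_assoc]
  exact smul_mem _ _ (yCi_sg hc (fun k => Nat.not_dvd_of_pos_of_lt (Nat.pos_of_ne_zero h2)
    (Finset.mem_range.1 h3) (h.powK.1 k)) (span_mul gu_tg hb hw))

theorem yCi_one (hg : Ga0 GG p Q ga) (hx : x ∈ span F (HX F (CQ Q))) : ga 1 * x = x * ga 1 :=
  Cen_comm hg.cenN (span_Hm_mono rcc_CN hx)

theorem gm_autC (h : Cyc p a Q d) (hg : Ga0 GG p Q ga) (hγ : γ ∈ Gm GG Q) : ∃ σ ∈ GG, ∃ α : MulAut X, SL F σ γ ∧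
    (∀ x, γ (gu F X x) = gu F X (α x)) ∧ (∀ x, α x ∈ Q ↔ x ∈ Q) ∧ γ ∈ Stb (Gs Q ga) ∧
      γ ∈ Stb (HX F (Kp p Q)) ∧ γ ∈ Stb (HX F (CQ Q)) ∧ γ (Eo Q ga) = Eo Q ga ∧ γ (ga 1) = ga 1 := by
  obtain ⟨σ, hσ, α, hs, hα, hQ, hK, hC⟩ := gm_aut0 h hγ
  have hC' := (ga_stb hs hα _).1 hC
  have hn := hg.nat γ hγ α hα
  refine ⟨σ, hσ, α, hs, hα, hQ, fun b => ⟨?_, ?_⟩, hK, hC, ?_, by rw [hn 1 (one_mem _), map_one]⟩
  · rintro ⟨s, h0, c, hc, e⟩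
    obtain ⟨c, rfl⟩ := α.surjective c
    refine ⟨σ.symm s, by simpa using h0, c, (hC' c).1 hc, γ.injective ?_⟩
    rw [hs, hn c ((hC' c).1 hc), e, σ.apply_symm_apply]
  · rintro ⟨s, h0, c, hc, rfl⟩
    exact ⟨σ s, by simpa using h0, α c, (hC' c).2 hc, by rw [hs, hn c hc]⟩
  · have := Fintype.ofFinite (CQ Q)
    rw [Eo, hs, map_inv₀, map_natCast, finsum_eq_sum_of_fintype, map_sum,
      Finset.sum_congr rfl fun (c : CQ Q) _ => hn c c.2]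
    congr 1
    exact Equiv.sum_comp (Equiv.subtypeEquiv α.toEquiv fun x => (hC' x).symm)
      fun c : CQ Q => ga c

theorem psC_gm (h : Cyc p a Q d) (hg : Ga0 GG p Q ga) (hγ : γ ∈ Gm GG Q) (hψ : ψ ∈ PsC Q ga) : γ ψ ∈ PsC Q ga := by
  obtain ⟨-, -, -, -, -, -, -, -, -, e, -⟩ := gm_autC h hg hγ
  exact ⟨(irr_stb hγ.1.1 hγ.2).2 hψ.1, by rw [← e, ← map_mul, hψ.2]⟩

theorem etC_gm (h : Cyc p a Q d) (hg : Ga0 GG p Q ga) (hγ : γ ∈ Gm GG Q) (hη : η ∈ EtC Q ga) : γ η ∈ EtC Q ga := by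
  obtain ⟨-, -, -, -, -, -, -, -, -, e, e'⟩ := gm_autC h hg hγ
  exact ⟨(irr_stb hγ.1.1 hγ.2).2 hη.1, by rw [← e', ← map_mul, hη.2.1],
    by rw [← e, ← map_mul, hη.2.2, map_zero]⟩

theorem bk_gm (h : Cyc p a Q d) (hγ : γ ∈ Gm GG Q) : Bk F p Q (γ x) (γ y) ↔ Bk F p Q x y := by
  obtain ⟨-, -, -, -, -, -, hK, -⟩ := gm_aut0 h hγ
  constructor
  · rintro ⟨θ, hθ, h1, h2⟩
    obtain ⟨θ, rfl⟩ := γ.surjective θ
    rw [← map_mul, γ.map_ne_zero_iff] at h1 h2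
    exact ⟨θ, (irr_stb hγ.1.1 hK).1 hθ, h1, h2⟩
  · rintro ⟨θ, hθ, h1, h2⟩
    refine ⟨γ θ, (irr_stb hγ.1.1 hK).2 hθ, ?_, ?_⟩ <;> rwa [← map_mul, γ.map_ne_zero_iff]

theorem bk_g0 (hP : PM p O R r GG) (h : Cyc p a Q d) (hγ : γ ∈ G0 O GG X) (hx : x ≠ 0) : Bk F p Q x (γ x) := by
  obtain ⟨θ, hθ, h1, -⟩ := bk_refl (p := p) (Q := Q) hx
  have e : γ θ = θ := fix_g0 hP hθ h.kcard (fun g hg => by
    rw [show g ^ Nat.card (Kp p Q) = 1 from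
      congrArg Subtype.val (pow_card_eq_one' (x := (⟨g, hg⟩ : Kp p Q))), gu_one, one_mul]) hγ
  exact ⟨θ, hθ, h1, by rwa [← e, ← map_mul, γ.map_ne_zero_iff]⟩

theorem singC_mem (h : Cyc p a Q d) (hg : Ga0 GG p Q ga) (hε : ε ∈ Irr F (Gs Q ga)) (hb : b ∈ span F (HX F (Kp p Q))) :
    b * (Eo Q ga - ε) ∈ SgC F Q p := by
  have := sub_mem (yCi_sing h hg (eo_irr h hg) hb) (yCi_sing h hg hε hb)
  rwa [← mul_sub, sub_sub_sub_cancel_right] at this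

theorem singC_t {t : MonoidAlgebra F X →ₗ[F] F} (ht : Tf F (gu F X) t) (hx : x ∈ SgC F Q p) :
    t x = 0 := by
  refine LinearMap.eqOn_span' (f := t) (g := 0) ?_ hx
  rintro _ ⟨c, -, hk, rfl⟩
  exact ht.2 _ fun e => hk (e ▸ one_mem _)

theorem gs_t (h : Cyc p a Q d) (hg : Ga0 GG p Q ga) {t : MonoidAlgebra F X →ₗ[F] F} (ht : Tf F (gu F X) t)
    (hε : ε ∈ Irr F (Gs Q ga)) (hb : b ∈ span F (HX F (Kp p Q))) :
    (p : F) ^ a * t (b * ε) = t (b * ga 1) := by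
  have h0 : (p : F) ^ a ≠ 0 := pow_ne_zero _ (Nat.cast_ne_zero.2 h.prime.ne_zero)
  have := singC_t ht (yCi_sing h hg hε hb)
  rw [mul_sub, map_sub, mul_smul_comm, map_smul, smul_eq_mul, sub_eq_zero] at this
  rw [this, mul_inv_cancel_left₀ h0]

theorem gs_inj (h : Cyc p a Q d) (hg : Ga0 GG p Q ga) (hε : ε ∈ Irr F (Gs Q ga)) (hb : b ∈ span F (HX F (Kp p Q)))
    (h0 : b * ε = 0) : b * ga 1 = 0 := by
  obtain ⟨t, ht⟩ := exists_Tf (gu_tg (F := F) (X := X))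
  refine Tf.nondeg gu_tg ht (span_mul gu_tg hb hg.memK) fun k hk => ?_
  have hk' : gu F X k ∈ span F (HX F (Kp p Q)) := subset_span (mem_Hm hk)
  have := gs_t h hg ht hε (span_mul gu_tg hb hk')
  rw [mul_assoc, ← gs_comm hg hε.1.1 (rci_kc hk'), ← mul_assoc, h0, zero_mul, map_zero,
    mul_zero] at this
  rw [mul_assoc, yCi_one hg (rci_kc hk'), ← mul_assoc, ← this]

theorem gs_cut (h : Cyc p a Q d) (hg : Ga0 GG p Q ga) (hε : ε ∈ Irr F (Gs Q ga)) (hx : x ∈ span F (HX F (CQ Q))) :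
    ∃ b ∈ span F (HX F (Kp p Q)), x * ε = b * ε := by
  induction hx using span_induction with
  | mem x m =>
    obtain ⟨s, -, c, hc, rfl⟩ := m
    obtain ⟨w, hw, e⟩ := hg.inv' hc
    obtain ⟨ζ, -, e'⟩ := gs_eig h hg hε hc
    refine ⟨s • ζ • w, smul_mem _ _ (smul_mem _ _ hw), ?_⟩
    rw [smul_mul_assoc, smul_mul_assoc, smul_mul_assoc, ← mul_smul_comm ζ, ← e', ← mul_assoc, ← e,
      mul_assoc, (gs_one hg hε.1.1).1]
  | zero => exact ⟨0, zero_mem _, rfl⟩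
  | add x y _ _ hx hy =>
    obtain ⟨b, hb, e⟩ := hx
    obtain ⟨b', hb', e'⟩ := hy
    exact ⟨b + b', add_mem hb hb', by rw [add_mul, add_mul, e, e']⟩
  | smul s x _ hx =>
    obtain ⟨b, hb, e⟩ := hx
    exact ⟨s • b, smul_mem _ _ hb, by rw [smul_mul_assoc, smul_mul_assoc, e]⟩

theorem irrCC (h : Cyc p a Q d) (hg : Ga0 GG p Q ga) (hε : ε ∈ Irr F (Gs Q ga)) (hθ : θ ∈ Irr F (HX F (Kp p Q)))
    (hi : Ivt Q θ) : θ * ε ∈ Irr F (HX F (CQ Q)) := by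
  have hc : ε * θ = θ * ε := gs_comm hg hε.1.1 (rci_kc hθ.1.1)
  refine ⟨⟨span_mul gu_tg (rci_kc hθ.1.1) (gs_le hg hε.1.1), ?_⟩, ?_,
    fun h0 => hθ.2.2.1 ((hg.inv θ hθ hi).symm.trans (gs_inj h hg hε hθ.1.1 h0)), fun z hz => ?_⟩
  · intro s hs
    have h3 : θ * s = s * θ := by
      obtain ⟨c, -, x, hx, rfl⟩ := hs
      rw [mul_smul_comm, smul_mul_assoc, hi x hx]
    rw [mul_assoc, gs_comm hg hε.1.1 (subset_span hs), ← mul_assoc, h3, mul_assoc]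
  · rw [mul_assoc, ← mul_assoc ε, hc, mul_assoc, hε.2.1, ← mul_assoc, hθ.2.1]
  · obtain ⟨b, hb, e⟩ := gs_cut h hg hε hz.1
    have h3 : b * ga 1 ∈ Cen F (HX F (Kp p Q)) := ⟨span_mul gu_tg hb hg.memK, fun s hs => by
      have hs' : s ∈ span F (HX F (Kp p Q)) := subset_span hs
      have h4 := gs_inj h hg hε (sub_mem (span_mul gu_tg hb hs') (span_mul gu_tg hs' hb)) (by
        rw [sub_mul, mul_assoc, ← gs_comm hg hε.1.1 (rci_kc hs'), ← mul_assoc, ← e, mul_assoc s,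
          ← e, mul_assoc, gs_comm hg hε.1.1 (rci_kc hs'), ← mul_assoc, ← mul_assoc,
          Cen_comm hz (rci_kc hs'), sub_self])
      rw [sub_mul, sub_eq_zero] at h4
      rw [mul_assoc, yCi_one hg (rci_kc hs'), ← mul_assoc, h4, mul_assoc]⟩
    obtain ⟨c, hc'⟩ := hθ.2.2.2 _ h3
    refine ⟨c, ?_⟩
    rw [← hc, ← mul_assoc, e, ← (gs_one hg hε.1.1).1, ← mul_assoc b, mul_assoc _ ε, hc,
      ← mul_assoc, hc', smul_mul_assoc, (gs_one hg hε.1.1).1, hc]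

theorem dgCC (h : Cyc p a Q d) (hg : Ga0 GG p Q ga) (hε : ε ∈ Irr F (Gs Q ga)) (hθ : θ ∈ Irr F (HX F (Kp p Q)))
    (hi : Ivt Q θ) : Dg F (HX F (CQ Q)) (θ * ε) = Dg F (HX F (Kp p Q)) θ := by
  have h3 := gs_comm hg hε.1.1 (rcc_KC hθ.1.1)
  have e1 : (span F (HX F (CQ Q))).map (LinearMap.mulRight F (θ * ε)) =
      ((span F (HX F (Kp p Q))).map (LinearMap.mulRight F θ)).map (LinearMap.mulRight F ε) := by
    apply le_antisymm
    · rintro _ ⟨x, hx, rfl⟩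
      obtain ⟨b, hb, h4⟩ := gs_cut h hg hε hx
      refine ⟨_, ⟨b, hb, rfl⟩, ?_⟩
      simp only [LinearMap.mulRight_apply]
      rw [← h3, ← mul_assoc, h4, mul_assoc, mul_assoc, h3]
    · rintro _ ⟨_, ⟨b, hb, rfl⟩, rfl⟩
      exact ⟨b, rcc_KC hb, by simp only [LinearMap.mulRight_apply, mul_assoc]⟩
  unfold Dg
  rw [e1, ← LinearMap.range_domRestrict]
  refine LinearMap.finrank_range_of_inj ((injective_iff_map_eq_zero _).2 ?_)
  rintro ⟨_, b, hb, rfl⟩ h4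
  have h5 := gs_inj h hg hε (span_mul gu_tg hb hθ.1.1) h4
  rw [mul_assoc, hg.inv θ hθ hi] at h5
  exact Subtype.ext h5

theorem TriC.ivt (hg : Ga0 GG p Q ga) (t : TriC Q ga p η θ i ε) : Ivt Q θ := by
  by_contra hn
  refine t.ov ?_
  rw [← (gs_one hg t.irrQ.1.1).1, ← mul_assoc θ, hg.ninv θ t.irrK hn, zero_mul, mul_zero]

end Pool.Agent.Lib.MP_1ae3da_al.CT
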