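import Pool.Agent.Lib.MP_1ae3da_al.Y.Brg
import Pool.Agent.Lib.MP_1ae3da_al.Y.Act
import Pool.Agent.Lib.MP_1ae3da_al.Y.Ci
import Pool.Agent.Lib.MP_1ae3da_al.C.RLW
import Pool.Agent.Lib.MP_1ae3da_al.C.REq

set_option autoImplicit false
set_option linter.unusedSectionVars false

/-! From `O` to `F` (on Y/Brg). -/

namespace Pool.Agent.Lib.MP_1ae3da_al.CT.R5

open Function Submodule

variable {F k X : Type} [Field F] [CharZero F] [IsAlgClosed F] [Field k] [Group X] [Finite X]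
  {p a : ℕ} [Fact p.Prime] {O R : Subring F} [IsDiscreteValuationRing O] {r : F → k}
  {GG : Subgroup (RingAut F)} {Q : Subgroup X} {ga : X → MonoidAlgebra F X} {d : Nz Q}
  {g : MonoidAlgebra O (Nz Q)} {e e' ψ η θ i ε : MonoidAlgebra F X}
  {γ : RingAut (MonoidAlgebra F X)} {om : X → F}
  {T : MonoidAlgebra F X →ₗ[F] MonoidAlgebra F X} {s : MonoidAlgebra F X → ℕ}

theorem cx_ex (hP : PM p O R r GG) {d0 : X} (h : Cyc p a Q d0) :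
    ∃ (ga : X → MonoidAlgebra F X) (d : Nz Q) (g : MonoidAlgebra O (Nz Q)),
      Cx p a O R r GG Q ga d g := by
  obtain ⟨ga, d, g, -, k, -⟩ := brg_cx hP h
  exact ⟨ga, d, g, k⟩

theorem Cx.theta (hC : Cx p a O R r GG Q ga d g) (hθ : θ ∈ Irr F (HX F (Kp p Q))) :
    ∃ t ∈ spn O (KN p Q), R5.up O Q t = θ := by
  exact up_ex_spn brg_KN hθ.1.1 fun x => irrK_int hC.pm hC.gl.cy hθ x

/-- edited copy of `req_gm`, with `Ga0.nat` and `Cyc.aut` for the last part. -/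
theorem Cx.gm (hC : Cx p a O R r GG Q ga d g) (hγ : γ ∈ Gm GG Q) :
    ∃ σ ∈ GG, ∃ (σ0 : O ≃+* O) (α : X ≃* X)
    (β : Nz Q ≃* Nz Q), SL F σ γ ∧ (∀ x, (σ0 x : F) = σ x) ∧ Res Q α β ∧
      (∀ x, γ (gu F X x) = gu F X (α x)) ∧
      (∀ e x, cf (MonoidHom.id X) (γ e) (α x) = σ (cf (MonoidHom.id X) e x)) ∧
      (∀ e n, cf (Nz Q).subtype (γ e) (β n) = σ (cf (Nz Q).subtype e n)) ∧ Cg p σ0 β g := by
  obtain ⟨σ, hσ, α, h1, h3, h4, -⟩ := gm_autC hC.gl.cy hC.ga0 hγ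
  obtain ⟨s, hs⟩ := req_res hC.pm hσ
  obtain ⟨b, hb⟩ := req_b α h4
  obtain ⟨j, hj, hk⟩ := hC.gl.cy.aut α h4
  have j0 : 0 < j := Nat.pos_of_ne_zero fun e => hj (e ▸ dvd_zero p)
  have e : R5.up O Q (g ^ j) = γ (R5.up O Q g) := by
    rw [map_pow, hC.up, hC.ga0.nat γ hγ α h3 _ hC.gl.cy.dC, ← hC.ga0.pow hC.gl.cy.dC j0,
      ← brg_ga_K hC.ga0 hk (pow_mem hC.gl.cy.dC j), inv_mul_cancel_right]
  refine ⟨σ, hσ, s, α, b, h1, hs, hb, h3, fun e x => req_cf h1 h3 e x, fun e n => ?_, j, hj,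
    fun y => Subtype.ext ?_⟩
  · change (γ e).coeff (b n : X) = _
    rw [hb.coe]
    exact req_cf h1 h3 e n
  · rw [hs, ← up_coeff, ← up_coeff, e, hb.coe]
    exact req_cf h1 h3 _ _

theorem Cx.gb_psi (hC : Cx p a O R r GG Q ga d g) {M : Lat O (Nz Q)} (hM : GoodB Q g M ψ) :
    ψ ∈ PsC Q ga ∧
    ∀ x ∈ span F (HX F (Nz Q)), Chv F (HX F (Nz Q)) ψ x = M.chF F (cf (Nz Q).subtype x) := by
  refine ⟨hC.psC hM, fun x hx => ?_⟩
  obtain ⟨b, ρ, m⟩ := exists_MR (F := F) (Nz Q).subtype_injective (Nz Q).range_subtype M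
  rw [(hC.mm hM m).chv (rsp_nice _).mcl hM.mem hx, m.chF hx]

end Pool.Agent.Lib.MP_1ae3da_al.CT.R5
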