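import Pool.Agent.Lib.MP_1ae3da_al.Y.U0
import Pool.Agent.Lib.MP_1ae3da_al.Y.Up
import Pool.Agent.Lib.MP_1ae3da_al.C.RLLb

set_option autoImplicit false
set_option linter.unusedSectionVars false

/-! Edited copy of C/RLLb. -/

namespace Pool.Agent.Lib.MP_1ae3da_al.CT.R5

open Function Submodule

variable {F k X : Type} [Field F] [CharZero F] [IsAlgClosed F] [Field k] [Group X] [Finite X]
  {p a : ℕ} [Fact p.Prime] {O R : Subring F} [IsDiscreteValuationRing O] {r : F → k}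
  {GG : Subgroup (RingAut F)} {Q : Subgroup X} {ga : X → MonoidAlgebra F X} {d : Nz Q}
  {g : MonoidAlgebra O (Nz Q)} {e e' ψ η θ ε : MonoidAlgebra F X}
  {γ : RingAut (MonoidAlgebra F X)} {om : X → F}
  {T : MonoidAlgebra F X →ₗ[F] MonoidAlgebra F X} {s : MonoidAlgebra F X → ℕ}

variable {n n' : ℕ} {ρ : MonoidAlgebra F X →ₗ[F] Matrix (Fin n) (Fin n) F}
  {ρ' : MonoidAlgebra F X →ₗ[F] Matrix (Fin n') (Fin n') F} {V : Lat O X} {M : Lat O (Nz Q)}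
  {i : Bool} {Φ : Submodule O (V.V × M.V)} {b : Module.Basis (Fin n) O V.V}
  {b' : Module.Basis (Fin n') O M.V} {c c' : RingAut (MonoidAlgebra F X)}
  {w w' x x' : MonoidAlgebra F X}

theorem ul_fnC (hC : Cx p a O R r GG Q ga d g)
    (h : LCC p a Q g e ψ V M i Φ b b' ρ ρ')
    (hU : UL p GG Q e ψ V M Φ b b' ρ ρ' c w w')
    (hU' : UL p GG Q e ψ V M Φ b b' ρ ρ' c w x') : w' = x' := by
  obtain ⟨-, -, -, s1, e1, α, β, r1, g1, t, w0, w0', -, u1, k1, k1'⟩ := hU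
  obtain ⟨-, -, -, s2, e2, α2, β2, r2, g2, c2, x0, x0', -, u2, k2, k2'⟩ := hU'
  obtain rfl : α = α2 := MulEquiv.ext fun y => rllb_gu ((g1 y).symm.trans (g2 y))
  obtain rfl : β = β2 := MulEquiv.ext fun y => Subtype.ext ((r1.coe y).trans (r2.coe y).symm)
  obtain ⟨u, rfl, rfl⟩ := (wt_of_pm hC.pm).u_fnC hC.gl h.src.tie h.gb.good h.sca h.nrk u1 u2
  have h0 : (mF b w0 : Matrix _ _ F) ≠ 0 := fun k => by
    have z : w0 = (0 : O) • w0 := mF_inj b (by rw [mF_smul, k, smul_zero])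
    have : Nontrivial V.V := Module.nontrivial_of_finrank_pos (R := O)
      (Nat.pos_of_ne_zero fun k0 => h.nrk (by rw [show V.rk = 0 from k0]; exact dvd_zero p))
    obtain ⟨v, hv⟩ := exists_ne (0 : V.V)
    exact hv ((rlu0_bij u1.l).1 (by rw [map_zero, z, zero_smul, LinearMap.zero_apply]))
  rw [k1, mF_smul, smul_smul] at k2
  refine te_ext h.mm' h.ip s1 s2 e1 e2 ?_
  rw [k1', k2', mF_smul, smul_smul, smul_left_injective F h0 k2]

theorem ul_locC (hC : Cx p a O R r GG Q ga d g)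
    (h : LCC p a Q g e ψ V M i Φ b b' ρ ρ') (hg : c ∈ Gm GG Q ⊓ Fx e ⊓ Fx ψ)
    (hl : Lin F c) {m : MonoidAlgebra F X} (hm : m ∈ HX F (NQ Q))
    (hx : ∀ y ∈ HX F (⊤ : Subgroup X), m * y = c y * m) :
    UL p GG Q e ψ V M Φ b b' ρ ρ' c (m * e) (m * ψ) := by
  have hs : m ∈ span F (HX F (NQ Q)) := subset_span hm
  obtain ⟨u, hc, t, ht, rfl⟩ := hm
  refine ⟨hg, hl, by rw [mul_assoc, h.ie.2.1], gu_span_mul _ _ hs _ h.ip.1.1,
    by rw [mul_assoc, h.ip.2.1], MulAut.conj t, MulAut.conj (⟨t, ht⟩ : Nz Q),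
    ⟨fun y => (Subgroup.mem_normalizer_iff.1 ht y).symm, fun _ => rfl⟩, fun y => ?_, u,
    V.ρ t, M.ρ ⟨t, ht⟩, hc, u_locC hC.gl h.src.tie ⟨t, ht⟩ (fun _ => rfl) fun _ => rfl, ?_, ?_⟩
  · have k := hx (gu F X y) (aga_mem.2 trivial)
    rw [smul_mul_assoc, mul_smul_comm] at k
    have k2 := congrArg (· * gu F X t⁻¹) (smul_right_injective _ hc k)
    simp only [mul_assoc, gu_mul, mul_inv_cancel, gu_one, mul_one] at k2
    rw [← k2, MulAut.conj_apply, mul_assoc]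
  · rw [td_cut h.ie.1.1 h.mm (gu_span.ge trivial), map_smul]
    exact congrArg (u • ·) (h.mr.val t)
  · rw [td_cut h.ip.1.1 h.mm' hs, map_smul]
    exact congrArg (u • ·) (h.mr'.val ⟨t, ht⟩)

theorem ul_natC (hC : Cx p a O R r GG Q ga d g)
    (h : LCC p a Q g e ψ V M i Φ b b' ρ ρ') (hγ : γ ∈ Gm GG Q ⊓ Fx e ⊓ Fx ψ)
    (hU : UL p GG Q e ψ V M Φ b b' ρ ρ' c w w') :
    UL p GG Q e ψ V M Φ b b' ρ ρ' (γ * c * γ⁻¹) (γ w) (γ w') := by
  obtain ⟨hg, hl, e0, s1, e1, α, β, r1, g1, t, w0, w0', hc, u1, k1, k1'⟩ := hU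
  obtain ⟨σ, -, σ0, δ, δ', hs, h0, hd, hδ, -, k, hcg⟩ := hC.gm hγ.1.1
  have fe : γ e = e := hγ.1.2
  have fψ : γ ψ = ψ := hγ.2
  have hch := Lat.Idem.fix h0 (d := δ') h.gb.idm fun y => by
    have k2 := k ψ y
    rwa [fψ] at k2
  obtain ⟨G, G', hG, hG', hΦ⟩ :=
    (wt_of_pm hC.pm).nat_exC hC.gl h.src h.gb.good h.sca σ0 hd hcg hch
  obtain ⟨x0, x0', u2, q, q'⟩ := U0.nat hG hG' hΦ u1 (a' := δ.symm.trans (α.trans δ))
    (b' := δ'.symm.trans (β.trans δ')) (fun y => by simp) fun y => by simp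
  refine ⟨mul_mem (mul_mem hγ hg) (inv_mem hγ), hs.lin hl, ?_,
    (span_stb hγ.1.1.1.1 hγ.1.1.2).2 s1, ?_, _, _, ⟨fun y => ?_, fun y => ?_⟩, fun y => ?_,
    σ t, x0, x0', (map_ne_zero σ).2 hc, u2,
    h.mr.nat h.mr h0 hG hs hδ (gu_span.ge trivial) q k1,
    h.mr'.nat h.mr' h0 hG' hs (fun y => (hδ y).trans (congrArg _ (hd.coe y).symm)) s1 q' k1'⟩
  · rw [← fe, ← map_mul, e0]
  · rw [← fψ, ← map_mul, e1]
  · obtain ⟨y, rfl⟩ := δ.surjective y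
    simp only [MulEquiv.trans_apply, MulEquiv.symm_apply_apply]
    rw [hd.mem, r1.mem, hd.mem]
  · obtain ⟨y, rfl⟩ := δ'.surjective y
    simp only [MulEquiv.trans_apply, MulEquiv.symm_apply_apply, hd.coe, r1.coe]
  · obtain ⟨y, rfl⟩ := δ.surjective y
    simp only [MulEquiv.trans_apply, MulEquiv.symm_apply_apply]
    rw [← hδ, tc_conj, g1, hδ]

end Pool.Agent.Lib.MP_1ae3da_al.CT.R5
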