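import Pool.Agent.Lib.MP_1ae3da_al.Y.LnA
import Pool.Agent.Lib.MP_1ae3da_al.Y.LnB
import Pool.Agent.Lib.MP_1ae3da_al.C.RSq

set_option autoImplicit false
set_option linter.unusedSectionVars false

/-! The link at a vertex with one character (edited copy of `rln_ln` in C/RLn). -/

namespace Pool.Agent.Lib.MP_1ae3da_al.CT.R5

open Function Submodule

variable {F k X : Type} [Field F] [CharZero F] [IsAlgClosed F] [Field k] [Group X] [Finite X]
  {p a : ℕ} [Fact p.Prime] {O R : Subring F} [IsDiscreteValuationRing O] {r : F → k}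
  {GG : Subgroup (RingAut F)} {Q : Subgroup X} {ga : X → MonoidAlgebra F X} {d : Nz Q}
  {g : MonoidAlgebra O (Nz Q)} {e e' ψ η θ i ε : MonoidAlgebra F X}
  {γ : RingAut (MonoidAlgebra F X)} {om : X → F}
  {T : MonoidAlgebra F X →ₗ[F] MonoidAlgebra F X} {s : MonoidAlgebra F X → ℕ}

theorem Cx.ln (hC : Cx p a O R r GG Q ga d g) {b : Bool}
    (h : StC p a GG Q ga g {e} ψ b) (he : e ∈ IrrP F p (HX F (⊤ : Subgroup X))) :
    ∃ U, Link F (Gm GG Q ⊓ Fx e ⊓ Fx ψ) (HX F ⊤) (HX F (NQ Q)) e ψ U := by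
  obtain ⟨-, -, V, M, Φ, t, h3, h5⟩ := h
  have hs : ∀ x, ((V.ch x : O) : F) = Chv F (HX F ⊤) e (gu F X x) := fun x => by
    rw [← rsq_chF_gu, h5, finsum_mem_def, finsum_eq_single _ e]
    · rw [Set.indicator_of_mem he.1, Set.indicator_of_mem (Set.mem_singleton e), Nat.cast_one,
        one_mul]
    · intro y hy
      refine Set.indicator_apply_eq_zero.2 fun _ => ?_
      rw [Set.indicator_of_notMem (fun k => hy (Set.mem_singleton_iff.1 k)), Nat.cast_zero,
        zero_mul]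
  have rg : (Nz Q).subtype.range = Nz Q := Subgroup.range_subtype _
  obtain ⟨a1, a2, a3⟩ := irr_idem he.1 hs
  have rg' : (MonoidHom.id X).range = ⊤ := MonoidHom.range_eq_top.2 surjective_id
  obtain ⟨c, ρ, m⟩ := exists_MR (F := F) (ι := MonoidHom.id X) injective_id rg' V
  obtain ⟨c', ρ', m'⟩ := exists_MR (F := F) (Nz Q).subtype_injective rg M
  have mm := (m.mm a1 a2 he.1.1.1 a3).2
  have L : LCC p a Q g e ψ V M b Φ c c' ρ ρ' := ⟨t, h3, a1, fun d => he.2 (by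
    rw [mm.dimsq (nice_Hm0 gu_tg _) he.1]; exact d.trans (dvd_pow_self _ two_ne_zero)),
    hC.rk h3.good, he.1, (hC.psC h3).1, m, m', mm, hC.mm h3 m'⟩
  exact ⟨UL p GG Q e ψ V M Φ c c' ρ ρ', fun _ _ _ u => ul_intC L u,
    fun _ hg hl => ul_totC hC L hg hl, fun _ _ _ _ _ _ u u' => ul_mulC L u u',
    fun _ _ _ _ hc u => ul_smul u hc, fun _ _ _ _ u u' => ul_fnC hC L u u',
    fun _ hg hl _ hm hx => ul_locC hC L hg hl hm hx, fun _ hγ _ _ _ u => ul_natC hC L hγ u⟩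

end Pool.Agent.Lib.MP_1ae3da_al.CT.R5
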