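import Pool.Agent.Lib.MP_1ae3da_al.C.RLLoc
import Pool.Agent.Lib.MP_1ae3da_al.C.RFit

set_option autoImplicit false
set_option linter.unusedSectionVars false

/-! Lattices for a cyclic group of order `p ^ a`: the Tate group of the reduction, its exact
sequence, and the character of a projective lattice. -/

namespace Pool.Agent.Lib.MP_1ae3da_al.CT.R5

open Function TensorProduct

section
variable {O : Type} [CommRing O] [IsLocalRing O] {p : ℕ}

/-- the group ring of a commutative `p`-group over a local ring of residue characteristic `p` -/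
theorem free_local {G : Type} [CommGroup G] [Finite G] (hp : p.Prime) (hn : ¬ IsUnit (p : O))
    {a : ℕ} (hG : ∀ x : G, x ^ p ^ a = 1) : IsLocalRing (MonoidAlgebra O G) := by
  have := Fact.mk hp
  let ε : MonoidAlgebra O G →ₐ[O] O := MonoidAlgebra.lift O O G 1
  have key : ∀ x : MonoidAlgebra O G, IsUnit (ε x) → IsUnit x := fun x hx => by
    by_contra h
    obtain ⟨m, hm, hx'⟩ := exists_max_ideal_of_mem_nonunits (mem_nonunits_iff.2 h)
    have h1 : m.comap (algebraMap O (MonoidAlgebra O G)) = IsLocalRing.maximalIdeal O :=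
      IsLocalRing.eq_maximalIdeal (Ideal.isMaximal_comap_of_isIntegral_of_isMaximal m)
    have h2 : ((p : ℕ) : MonoidAlgebra O G ⧸ m) = 0 := by
      have : (p : O) ∈ m.comap (algebraMap O (MonoidAlgebra O G)) := by
        rw [h1]; exact hn
      rw [Ideal.mem_comap, map_natCast] at this
      rw [← map_natCast (Ideal.Quotient.mk m)]
      exact Ideal.Quotient.eq_zero_iff_mem.2 this
    have : IsDomain (MonoidAlgebra O G ⧸ m) := Ideal.Quotient.isDomain m
    have : CharP (MonoidAlgebra O G ⧸ m) p := (CharP.charP_iff_prime_eq_zero hp).2 h2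
    have h3 : Ideal.Quotient.mkₐ O m = (Algebra.ofId O _).comp ε := by
      refine MonoidAlgebra.algHom_ext (fun g : G => ?_) (Subsingleton.elim _ _)
      have : (Ideal.Quotient.mkₐ O m (MonoidAlgebra.single g 1) - 1) ^ p ^ a = 0 := by
        rw [sub_pow_char_pow, ← map_pow, MonoidAlgebra.single_pow, hG, one_pow, one_pow,
          ← MonoidAlgebra.one_def, map_one, sub_self]
      rw [sub_eq_zero.1 ((pow_eq_zero_iff (pow_ne_zero a hp.ne_zero)).1 this)]
      simp [ε]
    have h4 : Ideal.Quotient.mkₐ O m x = 0 := Ideal.Quotient.eq_zero_iff_mem.2 hx'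
    rw [h3] at h4
    exact not_isUnit_zero (h4 ▸ hx.map (Algebra.ofId O (MonoidAlgebra O G ⧸ m)))
  refine IsLocalRing.of_isUnit_or_isUnit_one_sub_self fun x => ?_
  refine (IsLocalRing.isUnit_or_isUnit_one_sub_self (ε x)).imp (key x) fun h => key _ ?_
  rwa [map_sub, map_one]

theorem free_idem {R N : Type} [CommRing R] [IsLocalRing R] [AddCommGroup N] [Module R N]
    [Module.Free R N] [Module.Finite R N] {e : Module.End R N} (he : IsIdempotentElem e) :
    ∃ n : ℕ, LinearMap.trace R N e = n := by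
  have fr : ∀ f : Module.End R N, IsIdempotentElem f → Module.Free R (LinearMap.range f) :=
    fun f hf => by
      have : Module.Projective R (LinearMap.range f) :=
        Module.Projective.of_split (LinearMap.range f).subtype f.rangeRestrict (by
          ext ⟨_, v, rfl⟩
          exact LinearMap.congr_fun hf v)
      exact Module.free_of_flat_of_isLocalRing
  have hk : LinearMap.ker e = LinearMap.range (1 - e) := by
    ext v
    refine ⟨fun h => ⟨v, by simp [LinearMap.mem_ker.1 h]⟩, ?_⟩
    rintro ⟨w, rfl⟩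
    have := LinearMap.congr_fun he w
    simp only [Module.End.mul_apply] at this
    simp [this]
  have := fr e he
  have : Module.Free R (LinearMap.ker e) := hk ▸ fr _ he.one_sub
  have : Module.Finite R (LinearMap.ker e) := hk ▸ inferInstance
  exact ⟨_, (LinearMap.IsIdempotentElem.isProj_range _ he).trace⟩

/-- the character of a projective lattice of a commutative `p`-group -/
theorem free_char {G U : Type} [CommGroup G] [Fintype G] [AddCommGroup U] [Module O U]
    [Module.Free O U] [Module.Finite O U] (hp : p.Prime) (hn : ¬ IsUnit (p : O)) {a : ℕ}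
    (hG : ∀ x : G, x ^ p ^ a = 1) (ρ : G →* Module.End O U) (h : Module.End O U)
    (hh : ∑ x : G, ρ x * h * ρ x⁻¹ = 1) {y : G} (hy : y ≠ 1) : LinearMap.trace O U (ρ y) = 0 := by
  classical
  have := free_local (O := O) hp hn hG
  let φ := Module.End.baseChangeHom O (MonoidAlgebra O G) U
  let e : Module.End (MonoidAlgebra O G) (MonoidAlgebra O G ⊗[O] U) :=
    ∑ x : G, (MonoidAlgebra.single x 1 : MonoidAlgebra O G) • φ (h * ρ x⁻¹)
  have he : IsIdempotentElem e := by
    have h1 : ∀ z : G, ∑ x : G, h * ρ x⁻¹ * (h * ρ (x⁻¹ * z)⁻¹) = h * ρ z⁻¹ := fun z => by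
      have h2 : ∑ x : G, ρ x⁻¹ * h * ρ x = 1 := by
        rw [← hh]
        exact Fintype.sum_equiv (Equiv.inv G) _ _ fun x => by simp
      calc _ = ∑ x : G, h * (ρ x⁻¹ * h * ρ x) * ρ z⁻¹ := Finset.sum_congr rfl fun x _ => by
            rw [mul_inv_rev, inv_inv, mul_comm z⁻¹ x, map_mul]
            simp only [mul_assoc]
        _ = _ := by rw [← Finset.sum_mul, ← Finset.mul_sum, h2, mul_one]
    change e * e = e
    simp only [e, Finset.sum_mul, Finset.mul_sum, smul_mul_smul_comm, ← map_mul]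
    calc _ = ∑ x : G, ∑ z : G, (MonoidAlgebra.single z 1 : MonoidAlgebra O G) •
            φ (h * ρ x⁻¹ * (h * ρ (x⁻¹ * z)⁻¹)) := by
          rw [Finset.sum_comm]
          refine Finset.sum_congr rfl fun x _ => Fintype.sum_equiv (Equiv.mulLeft x) _ _ fun w => ?_
          simp [MonoidAlgebra.single_mul_single]
      _ = _ := by
          rw [Finset.sum_comm]
          exact Finset.sum_congr rfl fun z _ => by rw [← Finset.smul_sum, ← map_sum, h1]
  obtain ⟨n, hn'⟩ := free_idem he
  have h3 : LinearMap.trace O U (h * ρ y) = 0 := by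
    simp only [e, map_sum, map_smul] at hn'
    have h4 : ∀ f, LinearMap.trace _ _ (φ f) = algebraMap O _ (LinearMap.trace O U f) :=
      fun f => LinearMap.trace_baseChange f _
    have h5 := congrArg (fun r : MonoidAlgebra O G => r.coeff y⁻¹) hn'
    rw [← map_natCast (algebraMap O (MonoidAlgebra O G))] at h5
    simp only [h4] at h5
    simpa [MonoidAlgebra.coeff_sum, MonoidAlgebra.single_mul_single, Finsupp.single_apply,
      hy.symm, hy] using h5
  calc LinearMap.trace O U (ρ y) = ∑ x : G, LinearMap.trace O U (ρ y * (ρ x * h * ρ x⁻¹)) := by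
        rw [← map_sum, ← Finset.mul_sum, hh, mul_one]
    _ = 0 := Finset.sum_eq_zero fun x _ => by
        rw [← mul_assoc, LinearMap.trace_mul_comm, ← mul_assoc, ← mul_assoc, ← map_mul,
          ← map_mul, mul_comm x⁻¹ y, mul_assoc y, inv_mul_cancel, mul_one,
          LinearMap.trace_mul_comm, h3]
end

variable {O : Type} [CommRing O] [IsDomain O] [IsDiscreteValuationRing O] [CharZero O] {p : ℕ}
  {U : Type} [AddCommGroup U] [Module O U] [Module.Free O U] [Module.Finite O U]

/-- Higman's condition forces the character to vanish off the identity. -/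
theorem free_trace (hW : Wt p O) {a : ℕ} {g h : Module.End O U} (hg : g ^ p ^ a = 1)
    (hh : ∑ j ∈ Finset.range (p ^ a), g ^ j * h * g ^ (p ^ a - j) = 1) (j : ℕ) (h0 : 0 < j)
    (hj : j < p ^ a) : LinearMap.trace O U (g ^ j) = 0 := by
  obtain ⟨q, hq⟩ : ∃ q, p ^ a = q + 1 := ⟨p ^ a - 1, by omega⟩
  have hG : ∀ x : Multiplicative (ZMod (q + 1)), x ^ p ^ a = 1 := fun x => by
    rw [hq, ← ofAdd_toAdd x, ← ofAdd_nsmul, nsmul_eq_mul, ZMod.natCast_self, zero_mul, ofAdd_zero]
  rw [hq] at hg hh hj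
  let ρ : Multiplicative (ZMod (q + 1)) →* Module.End O U :=
    { toFun := fun x => g ^ x.toAdd.val
      map_one' := by simp
      map_mul' := fun x y => by
        rw [toAdd_mul, ZMod.val_add, ← pow_eq_pow_mod _ hg, pow_add] }
  have h1 : ∀ n : ℕ, ρ (Multiplicative.ofAdd (n : ZMod (q + 1))) = g ^ n := fun n => by
    change g ^ (n : ZMod (q + 1)).val = _
    rw [ZMod.val_natCast, ← pow_eq_pow_mod _ hg]
  rw [← h1]
  refine free_char hW.prime hW.irr.not_isUnit hG ρ h ?_ fun e => ?_
  · rw [← hh, Finset.sum_range]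
    refine (Fintype.sum_equiv (Multiplicative.ofAdd : Fin (q + 1) ≃ Multiplicative (ZMod (q + 1)))
      _ _ fun i => ?_).symm
    have e1 : ρ (Multiplicative.ofAdd (α := ZMod (q + 1)) i) = g ^ (i : ℕ) := rfl
    have e2 : ρ (Multiplicative.ofAdd (α := ZMod (q + 1)) i)⁻¹ = g ^ (q + 1 - i) := by
      calc _ = g ^ (q + 1 - i) * g ^ (i : ℕ) * ρ (Multiplicative.ofAdd (α := ZMod (q + 1)) i)⁻¹ := by
            rw [← pow_add, Nat.sub_add_cancel i.2.le, hg, one_mul]
        _ = _ := by rw [← e1, mul_assoc, ← map_mul, mul_inv_cancel, map_one, mul_one]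
    exact (congrArg₂ (fun s t => s * h * t) e1 e2).symm
  · have := (ZMod.natCast_eq_zero_iff j (q + 1)).1 (ofAdd_eq_one.1 e)
    exact absurd (Nat.le_of_dvd h0 this) (by omega)

theorem free_tor (hW : Wt p O) {v : U} (h : (p : O) • v = 0) : v = 0 :=
  (smul_eq_zero.1 h).resolve_left hW.irr.ne_zero

theorem free_pow {g : Module.End O U} {c : O} {v : U} (h : ∃ u, g v - v = c • u) (j : ℕ) :
    ∃ u, (g ^ j) v - v = c • u := by
  obtain ⟨u, hu⟩ := h
  induction j with
  | zero => exact ⟨0, by simp⟩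
  | succ j ih =>
    obtain ⟨w, hw⟩ := ih
    refine ⟨g w + u, ?_⟩
    rw [pow_succ', Module.End.mul_apply, smul_add, ← hu, ← map_smul, ← hw, map_sub]
    abel

/-- on cycles modulo `c` a trace is a norm modulo `c` -/
theorem free_nm {g : Module.End O U} (h : Module.End O U) (q : ℕ) {c : O} {v : U}
    (hv : ∃ u, g v - v = c • u) :
    ∃ u, (∑ j ∈ Finset.range q, g ^ j * h * g ^ (q - j)) v =
      (∑ j ∈ Finset.range q, g ^ j) (h v) + c • u := by
  choose u hu using free_pow hv
  refine ⟨∑ j ∈ Finset.range q, (g ^ j) (h (u (q - j))), ?_⟩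
  rw [LinearMap.sum_apply, LinearMap.sum_apply, Finset.smul_sum, ← Finset.sum_add_distrib]
  refine Finset.sum_congr rfl fun j _ => ?_
  rw [← map_smul, ← map_smul, ← hu, ← map_add, ← map_add, add_sub_cancel]
  rfl

/-- Higman's condition kills the Tate group of the reduction. -/
theorem free_H {g h : Module.End O U} {q : ℕ} {c : O}
    (hh : ∑ j ∈ Finset.range q, g ^ j * h * g ^ (q - j) = 1) (v : U)
    (hv : ∃ u, g v - v = c • u) : ∃ w u, v = (∑ j ∈ Finset.range q, g ^ j) w + c • u := by
  obtain ⟨u, hu⟩ := free_nm h q hv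
  rw [hh] at hu
  exact ⟨h v, u, hu⟩

theorem free_comm {g : Module.End O U} (h : Module.End O U) {q : ℕ} (hg : g ^ q = 1) :
    Commute g (∑ j ∈ Finset.range q, g ^ j * h * g ^ (q - j)) := by
  have e1 := Finset.sum_range_succ (fun j => g ^ j * h * g ^ (q - j) * g) q
  have e2 := Finset.sum_range_succ' (fun j => g ^ j * h * g ^ (q - j) * g) q
  have e3 : ∀ j ∈ Finset.range q, g ^ (j + 1) * h * g ^ (q - (j + 1)) * g =
      g * (g ^ j * h * g ^ (q - j)) * g ^ (q - 1) * g := fun j hj => by
    have := Finset.mem_range.1 hj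
    have e : g ^ (q - j) * g ^ (q - 1) = g ^ (q - (j + 1)) := by
      rw [← pow_add, show q - j + (q - 1) = q - (j + 1) + q by omega, pow_add, hg, mul_one]
    rw [← e, pow_succ']
    simp only [mul_assoc]
  rcases Nat.eq_zero_or_pos q with rfl | hq
  · simp
  have e4 : g ^ (q - 1) * g = 1 := by rw [← pow_succ, Nat.sub_add_cancel hq, hg]
  rw [e1, Finset.sum_congr rfl e3] at e2
  simp only [Nat.sub_self, Nat.sub_zero, hg, pow_zero, add_left_inj, mul_assoc _ (g ^ (q - 1)) g,
    e4, mul_one, ← Finset.sum_mul, ← Finset.mul_sum] at e2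
  exact e2.symm

/-- an endomorphism that is injective modulo `p` is invertible -/
theorem free_unit (hW : Wt p O) (f : Module.End O U)
    (hf : ∀ v, (∃ u, f v = (p : O) • u) → ∃ u, v = (p : O) • u) :
    ∃ k : Module.End O U, f * k = 1 ∧ k * f = 1 := by
  have := hW.cpl
  obtain ⟨e, k, y, n, he, h1, h2, -, -, h3, -⟩ :=
    rfit (p : O) (PrincipalIdealRing.isMaximal_of_irreducible hW.irr) f
      (Algebra.IsIntegral.isIntegral f)
  have hn : ∀ n v, (∃ u, (f ^ n) v = (p : O) • u) → ∃ u, v = (p : O) • u := fun n => by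
    induction n with
    | zero => exact fun v h => h
    | succ n ih => exact fun v h => ih v (hf _ (by rwa [pow_succ'] at h))
  have hi : (1 - e) * (1 - e) = 1 - e := IsIdempotentElem.one_sub he
  have h4 : LinearMap.range (1 - e) ≤ ⊥ := hW.nak _ _ (by
    rintro _ ⟨v, rfl⟩
    obtain ⟨u, hu⟩ := hn n ((1 - e) v) ⟨y v, LinearMap.congr_fun h3 v⟩
    refine ⟨0, Submodule.zero_mem _, (1 - e) u, ⟨u, rfl⟩, ?_⟩
    rw [zero_add, ← map_smul, ← hu]
    exact (LinearMap.congr_fun hi v).symm)
  have h5 : e = 1 := (sub_eq_zero.1 (LinearMap.range_eq_bot.1 (le_bot_iff.1 h4))).symm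
  exact ⟨k, h2.trans h5, h1.trans h5⟩

theorem free_nil (hW : Wt p O) {a : ℕ} {g : Module.End O U} (hg : g ^ p ^ a = 1) (v : U) :
    ∃ u, ((g - 1) ^ p ^ a) v = (p : O) • u := by
  obtain ⟨r, hr⟩ := (Commute.one_right (g - 1)).exists_add_pow_prime_pow_eq hW.prime a
  rw [sub_add_cancel, hg, one_pow, mul_one, mul_assoc] at hr
  have h : (g - 1) ^ p ^ a = -((p : Module.End O U) * ((g - 1) * r)) := by
    rw [eq_neg_iff_add_eq_zero, ← add_left_inj (1 : Module.End O U), zero_add, add_right_comm]
    exact hr.symm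
  refine ⟨-((g - 1) * r) v, ?_⟩
  rw [h, LinearMap.neg_apply, Module.End.mul_apply, Module.End.natCast_apply, smul_neg,
    Nat.cast_smul_eq_nsmul]

/-- If the Tate group of the reduction vanishes, Higman's condition holds. -/
theorem free_hig (hW : Wt p O) {a : ℕ} {g : Module.End O U} (hg : g ^ p ^ a = 1)
    (hH : ∀ v, (∃ u, g v - v = (p : O) • u) →
      ∃ w u, v = (∑ j ∈ Finset.range (p ^ a), g ^ j) w + (p : O) • u) :
    ∃ h : Module.End O U, ∑ j ∈ Finset.range (p ^ a), g ^ j * h * g ^ (p ^ a - j) = 1 := by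
  let T : Submodule O U := LinearMap.range ((p : O) • LinearMap.id)
  have hT : ∀ v, v ∈ T ↔ ∃ u, v = (p : O) • u := fun v => exists_congr fun u => eq_comm
  obtain ⟨f, f1, f2⟩ := rlloc_proj (T.comap (g - 1)) T fun c m h1 h2 => by
    by_cases hc : IsUnit c
    · exact absurd ((Submodule.smul_mem_iff_of_isUnit _ hc).1 h1) h2
    · obtain ⟨d, rfl⟩ := not_not.1 (mt (hW.unit_iff c).2 hc)
      exact (hT _).2 ⟨d • m, mul_smul _ _ _⟩
  let b := Module.Free.chooseBasis O U
  choose w u hw using fun i => hH (f (b i)) ((hT _).1 (f1 (b i)))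
  let h0 : Module.End O U := b.constr O w
  have e0 : f = (∑ j ∈ Finset.range (p ^ a), g ^ j) * h0 + (p : O) • b.constr O u :=
    b.ext fun i => by simpa [h0] using hw i
  obtain ⟨k, k1, k2⟩ := free_unit hW
    (∑ j ∈ Finset.range (p ^ a), g ^ j * h0 * g ^ (p ^ a - j)) fun v hv => by
      have key : ∀ i : ℕ, ((g - 1) ^ i) v ∈ T → v ∈ T := fun i => by
        induction i with
        | zero => exact id
        | succ i ih =>
          refine fun hi => ih ?_
          rw [pow_succ'] at hi
          obtain ⟨s, hs⟩ := free_nm h0 (p ^ a) ((hT _).1 hi)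
          obtain ⟨t, ht⟩ := hv
          have c := LinearMap.congr_fun
            (((free_comm h0 hg).sub_left (Commute.one_left _)).pow_left i).eq v
          rw [Module.End.mul_apply, Module.End.mul_apply, ht, map_smul, hs] at c
          have d := LinearMap.congr_fun e0 (((g - 1) ^ i) v)
          rw [LinearMap.add_apply, Module.End.mul_apply, ← sub_eq_iff_eq_add.2 c] at d
          have m : f (((g - 1) ^ i) v) ∈ T := by
            rw [d]
            exact T.add_mem (T.sub_mem ⟨_, rfl⟩ ⟨_, rfl⟩) ⟨_, rfl⟩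
          simpa using T.sub_mem m (f2 _ hi)
      exact (hT v).1 (key _ ((hT _).2 (free_nil hW hg v)))
  have ck : Commute g k := by
    calc g * k = k * (∑ j ∈ Finset.range (p ^ a), g ^ j * h0 * g ^ (p ^ a - j)) * g * k := by
          rw [k2, one_mul]
      _ = k * g := by rw [mul_assoc k, ← (free_comm h0 hg).eq, mul_assoc, mul_assoc, k1, mul_one]
  refine ⟨h0 * k, ?_⟩
  rw [← k1, Finset.sum_mul]
  refine Finset.sum_congr rfl fun j _ => ?_
  rw [mul_assoc _ _ k, (ck.pow_left _).eq]
  simp only [mul_assoc]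

/-- If the Tate group of the reduction vanishes, the character vanishes off the identity. -/
theorem free_trace_H (hW : Wt p O) {a : ℕ} {g : Module.End O U} (hg : g ^ p ^ a = 1)
    (hH : ∀ v, (∃ u, g v - v = (p : O) • u) →
      ∃ w u, v = (∑ j ∈ Finset.range (p ^ a), g ^ j) w + (p : O) • u) (j : ℕ) (h0 : 0 < j)
    (hj : j < p ^ a) : LinearMap.trace O U (g ^ j) = 0 := by
  obtain ⟨h, hh⟩ := free_hig hW hg hH
  exact free_trace hW hg hh j h0 hj

/-- exactness on the left: an invariant that is a norm modulo `p` -/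
theorem seq_inj (hW : Wt p O) {q : ℕ} {g : Module.End O U} (hg : g ^ q = 1) {v w u : U}
    (hv : v ∈ zA q g false) (e : v = (∑ j ∈ Finset.range q, g ^ j) w + (p : O) • u) :
    u ∈ zA q g false := by
  refine zA_pure g false (p : O) u hW.irr.ne_zero ?_
  rw [← sub_eq_iff_eq_add'.2 e]
  exact Submodule.sub_mem _ hv (zB_le hg false ⟨w, rfl⟩)

/-- the connecting map lands in the cycles of degree one killed by `p` -/
theorem seq_del (hW : Wt p O) {q : ℕ} {g : Module.End O U} (hg : g ^ q = 1) {v u : U}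
    (e : g v - v = (p : O) • u) : u ∈ zA q g true ∧ (p : O) • u ∈ zB q g true :=
  ⟨zA_pure g true (p : O) u hW.irr.ne_zero (zB_le hg true ⟨v, e⟩), v, e⟩

/-- exactness in the middle -/
theorem seq_mid (hW : Wt p O) {q : ℕ} {g : Module.End O U} {v u : U}
    (e : g v - v = (p : O) • u) :
    u ∈ zB q g true ↔ ∃ x ∈ zA q g false, ∃ w, v = x + (p : O) • w := by
  refine ⟨fun ⟨w, hw⟩ => ⟨v - (p : O) • w, ?_, w, (sub_add_cancel _ _).symm⟩, ?_⟩
  · change (g - 1) _ = 0
    rw [map_sub, map_smul, hw, ← e, sub_eq_zero]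
    rfl
  · rintro ⟨x, hx, w, rfl⟩
    refine ⟨w, (sub_eq_zero.1 (free_tor hW ?_))⟩
    have hx' : (g - 1) x = 0 := hx
    have e' : (g - 1) (x + (p : O) • w) = (p : O) • u := e
    rw [smul_sub, ← e', map_add, hx', zero_add, map_smul, sub_self]

/-- if every invariant is a norm modulo `p` the Tate group of degree zero vanishes -/
theorem seq0 (hW : Wt p O) {q : ℕ} {g : Module.End O U} (hg : g ^ q = 1)
    (h : ∀ v ∈ zA q g false, ∃ w u, v = (∑ j ∈ Finset.range q, g ^ j) w + (p : O) • u) :
    zA q g false ≤ zB q g false :=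
  hW.nak _ _ fun v hv => by
    obtain ⟨w, u, e⟩ := h v hv
    exact ⟨_, ⟨w, rfl⟩, u, seq_inj hW hg hv e, e⟩

/-- if every invariant modulo `p` lifts, the Tate group of degree one vanishes -/
theorem seq1 (hW : Wt p O) {a : ℕ} {g : Module.End O U}
    (h : ∀ v, (∃ u, g v - v = (p : O) • u) →
      ∃ x ∈ zA (p ^ a) g false, ∃ w, v = x + (p : O) • w) :
    zA (p ^ a) g true ≤ zB (p ^ a) g true := fun u hu => by
  have key : ∀ i : ℕ, (p : O) ^ i • u ∈ zB (p ^ a) g true → u ∈ zB (p ^ a) g true := fun i => by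
    induction i with
    | zero => simp
    | succ i ih =>
      rintro ⟨v, hv⟩
      rw [pow_succ', mul_smul] at hv
      exact ih ((seq_mid hW hv).2 (h v ⟨_, hv⟩))
  exact key a (by simpa using z_psmul (p := p ^ a) g true hu)

end Pool.Agent.Lib.MP_1ae3da_al.CT.R5
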