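import Pool.Agent.Lib.MP_1ae3da_al.Y.Herb

set_option autoImplicit false
set_option linter.unusedSectionVars false

/-! Consequences of the Herbrand count when one Tate group vanishes. -/

namespace Pool.Agent.Lib.MP_1ae3da_al.CT.R5

variable {O : Type} [CommRing O] [IsDomain O] [IsDiscreteValuationRing O] [CharZero O] {p : ℕ}
  {U M : Type} [AddCommGroup U] [Module O U] [AddCommGroup M] [Module O M]

/-- the submodule `B + c A` -/
def zP (c : O) (A B : Submodule O U) : Submodule O U := B ⊔ A.map (c • LinearMap.id)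

theorem mem_zP {c : O} {A B : Submodule O U} {v : U} :
    v ∈ zP c A B ↔ ∃ b ∈ B, ∃ w ∈ A, v = b + c • w := by
  rw [zP, Submodule.mem_sup]
  constructor
  · rintro ⟨b, hb, _, ⟨w, hw, rfl⟩, rfl⟩
    exact ⟨b, hb, w, hw, rfl⟩
  · rintro ⟨b, hb, w, hw, rfl⟩
    exact ⟨b, hb, _, ⟨w, hw, rfl⟩, rfl⟩

theorem zP_le {c : O} {A B : Submodule O U} (h : B ≤ A) : zP c A B ≤ A := fun v hv => by
  obtain ⟨b, hb, w, hw, rfl⟩ := mem_zP.1 hv
  exact A.add_mem (h hb) (A.smul_mem _ hw)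

theorem le_zP {c : O} {A B : Submodule O U} : B ≤ zP c A B := le_sup_left

theorem hb_map (S : Submodule O U) (m : U →ₗ[O] M) :
    Module.length O S = Module.length O ↥(S ⊓ LinearMap.ker m) + Module.length O (S.map m) := by
  rw [hb_ker (m ∘ₗ S.subtype), LinearMap.range_comp, Submodule.range_subtype, LinearMap.ker_comp,
    ← (Submodule.comapSubtypeEquivOfLe (inf_le_left : S ⊓ LinearMap.ker m ≤ S)).length_eq,
    Submodule.comap_inf, Submodule.comap_subtype_self, top_inf_eq]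

theorem ln_zero {A B : Submodule O U} : ln A B = 0 ↔ A ≤ B := by
  rw [ln, Module.length_eq_zero_iff, Submodule.subsingleton_iff_eq_bot, eq_bot_iff,
    Submodule.map_le_iff_le_comap, Submodule.comap_bot, Submodule.ker_mkQ]

theorem ln_add {A B C : Submodule O U} (h : C ≤ B) (k : B ≤ A) : ln A C = ln B C + ln A B := by
  have e1 : A.map C.mkQ ⊓ LinearMap.ker (Submodule.factor h) = B.map C.mkQ := by
    refine le_antisymm ?_ ?_
    · rintro _ ⟨⟨v, -, rfl⟩, hv⟩
      exact ⟨v, (Submodule.Quotient.mk_eq_zero _).1 hv, rfl⟩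
    · rintro _ ⟨v, hv, rfl⟩
      exact ⟨⟨v, k hv, rfl⟩, (Submodule.Quotient.mk_eq_zero _).2 hv⟩
  rw [ln, hb_map _ (Submodule.factor h), e1, ← Submodule.map_comp, Submodule.factor_comp_mk]
  rfl

theorem ln_step (A B : Submodule O U) (c d : O) :
    ∃ e : ℕ∞, ln A (zP c A B) = e + ln (zP d A B) (zP (d * c) A B) ∧
      (e = 0 → ∀ v ∈ A, d • v ∈ zP (d * c) A B → v ∈ zP c A B) := by
  have h : zP c A B ≤ (zP (d * c) A B).comap (d • LinearMap.id) := fun v hv => by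
    obtain ⟨b, hb, w, hw, rfl⟩ := mem_zP.1 hv
    exact mem_zP.2 ⟨d • b, B.smul_mem _ hb, w, hw, by simp [mul_smul]⟩
  refine ⟨Module.length O ↥(A.map (zP c A B).mkQ ⊓ LinearMap.ker (Submodule.mapQ _ _ _ h)), ?_,
    fun e v hv k => ?_⟩
  · rw [ln, hb_map _ (Submodule.mapQ _ _ _ h), ← Submodule.map_comp, Submodule.mapQ_mkQ, ln]
    have : A.map ((zP (d * c) A B).mkQ ∘ₗ (d • LinearMap.id)) =
        (zP d A B).map (zP (d * c) A B).mkQ := by
      refine le_antisymm ?_ ?_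
      · rintro _ ⟨v, hv, rfl⟩
        exact ⟨d • v, mem_zP.2 ⟨0, B.zero_mem, v, hv, (zero_add _).symm⟩, rfl⟩
      · rintro _ ⟨v, hv, rfl⟩
        obtain ⟨b, hb, w, hw, rfl⟩ := mem_zP.1 hv
        refine ⟨w, hw, ?_⟩
        rw [map_add, Submodule.mkQ_apply _ b, (Submodule.Quotient.mk_eq_zero _).2 (le_zP hb),
          zero_add]
        rfl
    rw [this]
  · rw [Module.length_eq_zero_iff, Submodule.subsingleton_iff_eq_bot, eq_bot_iff] at e
    exact (Submodule.Quotient.mk_eq_zero _).1 ((Submodule.mem_bot O).1 (e ⟨⟨v, hv, rfl⟩,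
      (Submodule.Quotient.mk_eq_zero _).2 k⟩))

theorem ln_pow {A B : Submodule O U} (hB : B ≤ A) (c : O) (k : ℕ) :
    ln A (zP (c ^ k) A B) ≤ k * ln A (zP c A B) := by
  induction k with
  | zero =>
    rw [ln_zero.2 fun v hv => mem_zP.2 ⟨0, B.zero_mem, v, hv, by simp⟩]
    exact zero_le
  | succ k ih =>
    obtain ⟨e, h, -⟩ := ln_step A B c (c ^ k)
    have m : zP (c ^ k * c) A B ≤ zP (c ^ k) A B := fun v hv => by
      obtain ⟨b, hb, w, hw, rfl⟩ := mem_zP.1 hv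
      exact mem_zP.2 ⟨b, hb, c • w, A.smul_mem _ hw, by rw [mul_smul]⟩
    rw [pow_succ, ln_add m (zP_le hB), Nat.cast_succ, add_mul, one_mul, add_comm]
    exact add_le_add ih (h ▸ le_add_self)

theorem zP_eq {A B : Submodule O U} {c : O} (h : ∀ v ∈ A, c • v ∈ B) : zP c A B = B :=
  le_antisymm (fun v hv => by
    obtain ⟨b, hb, w, hw, rfl⟩ := mem_zP.1 hv
    exact B.add_mem hb (h w hw)) le_zP

/-- bound for the length, and the case of equality -/
theorem ln_bound {A B : Submodule O U} (hB : B ≤ A) {c : O} {a t d : ℕ}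
    (h : ∀ v ∈ A, c ^ (a + 1) • v ∈ B) (ht : ln A B = t) (hd : ln A (zP c A B) = d) :
    t ≤ (a + 1) * d ∧ (t = (a + 1) * d → ∀ v ∈ A, c ^ a • v ∈ B → v ∈ zP c A B) := by
  obtain ⟨e, h1, h2⟩ := ln_step A B c (c ^ a)
  have h3 := ln_pow hB c a
  rw [← pow_succ, zP_eq h] at h1 h2
  rw [ln_add (le_zP (c := c ^ a) (A := A)) (zP_le hB)] at ht
  rw [hd] at h1 h3
  generalize ln (zP (c ^ a) A B) B = x at h1 ht
  generalize ln A (zP (c ^ a) A B) = y at h3 ht
  lift e to ℕ using fun k => ENat.natCast_ne_top _ (h1.trans (by rw [k, top_add]))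
  lift x to ℕ using fun k => ENat.natCast_ne_top _ (h1.trans (by rw [k, add_top]))
  lift y to ℕ using fun k => ENat.natCast_ne_top _ (ht.symm.trans (by rw [k, add_top]))
  have a1 : d = e + x := by exact_mod_cast h1
  have a2 : x + y = t := by exact_mod_cast ht
  have a3 : y ≤ a * d := by exact_mod_cast h3
  rw [add_mul, one_mul]
  exact ⟨by omega, fun k => h2 (by exact_mod_cast (by omega : e = 0))⟩

theorem Gr.ln (hW : Wt p O) [Module.Free O M] [Module.Finite O M] {A B : Submodule O U}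
    {Φ : Submodule O (U × M)} (h : Gr p A B Φ) : ln A B = Module.finrank O M := by
  let π : Module.End O M := (p : O) • LinearMap.id
  let f := B.mkQ ∘ₗ LinearMap.fst O U M ∘ₗ Φ.subtype
  let f' := (LinearMap.range π).mkQ ∘ₗ LinearMap.snd O U M ∘ₗ Φ.subtype
  have e1 : LinearMap.range f = A.map B.mkQ := by
    refine le_antisymm ?_ ?_
    · rintro _ ⟨x, rfl⟩
      exact ⟨x.1.1, (h.dom _).2 ⟨x.1.2, x.2⟩, rfl⟩
    · rintro _ ⟨v, hv, rfl⟩
      obtain ⟨m, hm⟩ := (h.dom _).1 hv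
      exact ⟨⟨(v, m), hm⟩, rfl⟩
  have e2 : Function.Surjective f' := fun x => by
    obtain ⟨m, rfl⟩ := Submodule.Quotient.mk_surjective _ x
    obtain ⟨v, hv⟩ := h.ran m
    exact ⟨⟨(v, m), hv⟩, rfl⟩
  have e3 : LinearMap.ker f = LinearMap.ker f' := by
    ext ⟨⟨v, m⟩, hx⟩
    constructor
    · intro k
      have := Φ.sub_mem hx ((h.kl v).2 ((Submodule.Quotient.mk_eq_zero _).1 k))
      obtain ⟨m', e⟩ := (h.kr m).1 (by simpa using this)
      exact (Submodule.Quotient.mk_eq_zero _).2 ⟨m', e.symm⟩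
    · intro k
      obtain ⟨m', e⟩ := (Submodule.Quotient.mk_eq_zero _).1 k
      have := Φ.sub_mem hx ((h.kr m).2 ⟨m', e.symm⟩)
      exact (Submodule.Quotient.mk_eq_zero _).2 ((h.kl v).1 (by simpa using this))
  have inj : Function.Injective π := fun x y e => smul_right_injective M hW.irr.ne_zero e
  have o := hb_ord hW 1 (Module.finrank O M)
  rw [pow_one, one_mul] at o
  rw [R5.ln, ← e1, ← f.quotKerEquivRange.length_eq, e3, (f'.quotKerEquivOfSurjective e2).length_eq,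
    hb_len π inj, LinearMap.det_smul, LinearMap.det_id, mul_one, o]

/-- one Tate group vanishes and the top of the other has length `d` -/
theorem herb_one' (hW : Wt p O) [Module.Free O U] [Module.Finite O U] {a : ℕ} (ha : 0 < a)
    (g : Module.End O U) (hg : g ^ (p ^ a) = 1) {c : ℤ}
    (ht : ∀ j, 0 < j → j < p ^ a → LinearMap.trace O U (g ^ j) = (c : O)) (i : Bool)
    (hz : zA (p ^ a) g (!i) ≤ zB (p ^ a) g (!i)) {d : ℕ}
    (hd : ln (zA (p ^ a) g i) (zP (p : O) (zA (p ^ a) g i) (zB (p ^ a) g i)) = d) :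
    0 ≤ sg ℤ i * c ∧ sg ℤ i * c ≤ d ∧ (c = 0 ↔ d = 0) ∧ (c = 0 ↔ zA (p ^ a) g i ≤ zB (p ^ a) g i) ∧
      (sg ℤ i * c = d → ∀ v ∈ zA (p ^ a) g i, (p : O) ^ (a - 1) • v ∈ zB (p ^ a) g i →
        v ∈ zP (p : O) (zA (p ^ a) g i) (zB (p ^ a) g i)) := by
  obtain ⟨t0, t1, h0, h1, e⟩ := herb hW ha g hg ht
  obtain ⟨t, h2, e2⟩ : ∃ t : ℕ, ln (zA (p ^ a) g i) (zB (p ^ a) g i) = t ∧
      (t : ℤ) = a * (sg ℤ i * c) := by
    have z := ln_zero.2 hz
    cases i
    · have : t1 = 0 := by exact_mod_cast h1.symm.trans z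
      exact ⟨t0, h0, by simpa [sg, this] using e⟩
    · have : t0 = 0 := by exact_mod_cast h0.symm.trans z
      refine ⟨t1, h1, ?_⟩
      simp only [sg, this] at e ⊢
      push_cast at e
      linarith
  obtain ⟨a, rfl⟩ : ∃ k, a = k + 1 := ⟨a - 1, by omega⟩
  obtain ⟨b1, b2⟩ := ln_bound (zB_le hg i) (c := (p : O)) (a := a)
    (fun v hv => by simpa using z_psmul g i hv) h2 hd
  have pa : (0 : ℤ) < (a + 1 : ℕ) := by exact_mod_cast ha
  have s : sg ℤ i * c = 0 ↔ c = 0 := by cases i <;> simp [sg]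
  have c0 : c = 0 ↔ t = 0 := by
    rw [← s]
    constructor
    · intro k
      rw [k, mul_zero] at e2
      exact_mod_cast e2
    · intro k
      rw [k, Nat.cast_zero] at e2
      exact (mul_eq_zero.1 e2.symm).resolve_left pa.ne'
  have c1 : t = 0 ↔ zA (p ^ (a + 1)) g i ≤ zB (p ^ (a + 1)) g i := by
    rw [← ln_zero, h2, Nat.cast_eq_zero]
  refine ⟨nonneg_of_mul_nonneg_right (e2 ▸ Int.natCast_nonneg _) pa |> fun h => h,
    le_of_mul_le_mul_left (e2 ▸ by exact_mod_cast b1) pa, c0.trans ⟨fun k => ?_, fun k => ?_⟩,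
    c0.trans c1, fun k => b2 ?_⟩
  · have := ln_zero.2 ((c1.1 k).trans (le_zP (c := (p : O)) (A := zA (p ^ (a + 1)) g i)))
    exact_mod_cast hd.symm.trans this
  · rw [k, mul_zero] at b1
    omega
  · rw [k] at e2
    exact_mod_cast e2

/-- one Tate group vanishes and the top of the other is `M / p M` -/
theorem herb_one (hW : Wt p O) [Module.Free O U] [Module.Finite O U] [Module.Free O M]
    [Module.Finite O M] {a : ℕ} (ha : 0 < a)
    (g : Module.End O U) (hg : g ^ (p ^ a) = 1) {c : ℤ}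
    (ht : ∀ j, 0 < j → j < p ^ a → LinearMap.trace O U (g ^ j) = (c : O)) (i : Bool)
    (hz : zA (p ^ a) g (!i) ≤ zB (p ^ a) g (!i)) {Φ : Submodule O (U × M)}
    (h : Gr p (zA (p ^ a) g i) (zP (p : O) (zA (p ^ a) g i) (zB (p ^ a) g i)) Φ) :
    0 ≤ sg ℤ i * c ∧ sg ℤ i * c ≤ Module.finrank O M ∧ (c = 0 ↔ Module.finrank O M = 0) ∧
      (c = 0 ↔ zA (p ^ a) g i ≤ zB (p ^ a) g i) ∧
      (sg ℤ i * c = Module.finrank O M → ∀ v ∈ zA (p ^ a) g i,
        (p : O) ^ (a - 1) • v ∈ zB (p ^ a) g i →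
          v ∈ zP (p : O) (zA (p ^ a) g i) (zB (p ^ a) g i)) :=
  herb_one' hW ha g hg ht i hz (h.ln hW)

/-- both Tate groups vanish -/
theorem herb_zero (hW : Wt p O) [Module.Free O U] [Module.Finite O U] {a : ℕ} (ha : 0 < a)
    (g : Module.End O U) (hg : g ^ (p ^ a) = 1) {c : ℤ}
    (ht : ∀ j, 0 < j → j < p ^ a → LinearMap.trace O U (g ^ j) = (c : O))
    (hz : ∀ i, zA (p ^ a) g i ≤ zB (p ^ a) g i) : c = 0 :=
  (herb_one' hW ha g hg ht false (hz _) (d := 0) (ln_zero.2 ((hz _).trans le_zP))).2.2.1.2 rfl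

end Pool.Agent.Lib.MP_1ae3da_al.CT.R5
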