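import Pool.Agent.Lib.MP_1ae3da_al.C.RLBas

set_option autoImplicit false
set_option linter.unusedSectionVars false

/-! Endomorphisms commuting with `t` with prescribed values on the kernel of `t`. -/

namespace Pool.Agent.Lib.MP_1ae3da_al.CT.R5

section
variable {R W : Type} [CommRing R] [AddCommGroup W] [Module R W]

theorem rk1_L [IsSemisimpleModule R W] (t : Module.End R W) (l : ℕ)
    (π : LinearMap.ker t →ₗ[R] W) (h1 : ∀ v, π v ∈ LinearMap.ker t ⊓ LinearMap.range (t ^ l))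
    (h2 : ∀ v : LinearMap.ker t, v.1 ∈ LinearMap.range (t ^ (l + 1)) → π v = 0) :
    ∃ L : Module.End R W, L * t ^ (l + 1) = 0 ∧ t ^ (l + 1) * L = 0 ∧
      ∀ v : LinearMap.ker t, (t ^ l) (L v.1) = π v := by
  let S := LinearMap.ker t ⊓ LinearMap.range (t ^ l)
  let Y := LinearMap.ker (t ^ (l + 1))
  have m : ∀ y : Y, ((t ^ l) ∘ₗ Y.subtype) y ∈ S := fun y =>
    ⟨by have : (t ^ (l + 1)) y.1 = 0 := y.2
        rwa [pow_succ', Module.End.mul_apply] at this, y.1, rfl⟩
  obtain ⟨σ, hσ⟩ := IsSemisimpleModule.lifting_property (LinearMap.codRestrict S _ m)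
    (fun s => by
      obtain ⟨s, k, y, rfl⟩ := s
      exact ⟨⟨y, by rw [LinearMap.mem_ker, pow_succ', Module.End.mul_apply]; exact k⟩, rfl⟩)
    (LinearMap.id : S →ₗ[R] S)
  let I := LinearMap.range (t ^ (l + 1))
  let φ := I.mkQ ∘ₗ (LinearMap.ker t).subtype
  let L0 : LinearMap.ker t →ₗ[R] Y := σ ∘ₗ LinearMap.codRestrict S π h1
  have k0 : LinearMap.ker φ ≤ LinearMap.ker L0 := fun v hv => by
    have : LinearMap.codRestrict S π h1 v = 0 :=
      Subtype.ext (h2 v ((Submodule.Quotient.mk_eq_zero _).1 hv))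
    rw [LinearMap.mem_ker, LinearMap.comp_apply, this, map_zero]
  obtain ⟨L1, hL⟩ := IsSemisimpleModule.extension_property ((LinearMap.ker φ).liftQ φ le_rfl)
    (LinearMap.ker_eq_bot.1 (Submodule.ker_liftQ_eq_bot' _ _ rfl)) ((LinearMap.ker φ).liftQ L0 k0)
  refine ⟨Y.subtype ∘ₗ L1 ∘ₗ I.mkQ, LinearMap.ext fun v => ?_, LinearMap.ext fun v => ?_,
    fun v => ?_⟩
  · have : I.mkQ ((t ^ (l + 1)) v) = 0 := (Submodule.Quotient.mk_eq_zero _).2 ⟨v, rfl⟩
    change (L1 (I.mkQ ((t ^ (l + 1)) v))).1 = 0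
    rw [this, map_zero]
    rfl
  · exact (L1 (I.mkQ v)).2
  · have e : L1 (I.mkQ v.1) = L0 v := LinearMap.congr_fun hL (Submodule.Quotient.mk v)
    change (t ^ l) (L1 (I.mkQ v.1)).1 = _
    rw [e]
    exact congrArg Subtype.val (LinearMap.congr_fun hσ (LinearMap.codRestrict S π h1 v))

theorem rk1_core [IsSemisimpleModule R W] (t : Module.End R W) (l : ℕ)
    (π : LinearMap.ker t →ₗ[R] W) (h1 : ∀ v, π v ∈ LinearMap.ker t ⊓ LinearMap.range (t ^ l))
    (h2 : ∀ v : LinearMap.ker t, v.1 ∈ LinearMap.range (t ^ (l + 1)) → π v = 0) :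
    ∃ f : Module.End R W, f * t = t * f ∧ ∀ v : LinearMap.ker t, f v.1 = π v := by
  obtain ⟨L, a, b, c⟩ := rk1_L t l π h1 h2
  refine ⟨∑ j ∈ Finset.range (l + 1), t ^ (l - j) * L * t ^ j, ?_, fun v => ?_⟩
  · rw [Finset.sum_mul, Finset.mul_sum, Finset.sum_range_succ, Finset.sum_range_succ',
      Nat.sub_self, pow_zero, one_mul, mul_assoc, ← pow_succ, a, Nat.sub_zero, mul_one,
      ← mul_assoc, ← pow_succ', b]
    congr 1
    refine Finset.sum_congr rfl fun j hj => ?_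
    have : l - j = l - (j + 1) + 1 := by have := Finset.mem_range.1 hj; omega
    rw [this, pow_succ' t (l - (j + 1)), pow_succ t j]
    simp only [mul_assoc]
  · have z : t v.1 = 0 := v.2
    rw [Finset.sum_range_succ', LinearMap.add_apply, LinearMap.sum_apply,
      Finset.sum_eq_zero fun j _ => by
        rw [pow_succ t j, Module.End.mul_apply, Module.End.mul_apply (t ^ j), z, map_zero, map_zero],
      zero_add, ← c]
    rfl

/-- a map from the kernel to the layer `l` modulo `B` is induced by a map commuting with `t` -/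
theorem rk1 [IsSemisimpleModule R W] (t : Module.End R W) (l : ℕ) (B : Submodule R W)
    (π : LinearMap.ker t →ₗ[R] W ⧸ B)
    (h1 : ∀ v, π v ∈ (LinearMap.ker t ⊓ LinearMap.range (t ^ l)).map B.mkQ)
    (h2 : ∀ v : LinearMap.ker t, v.1 ∈ LinearMap.range (t ^ (l + 1)) → π v = 0) :
    ∃ f : Module.End R W, f * t = t * f ∧ ∀ v : LinearMap.ker t, B.mkQ (f v.1) = π v := by
  let S := LinearMap.ker t ⊓ LinearMap.range (t ^ l)
  have m : ∀ y : S, (B.mkQ ∘ₗ S.subtype) y ∈ S.map B.mkQ := fun y => ⟨y.1, y.2, rfl⟩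
  obtain ⟨σ, hσ⟩ := IsSemisimpleModule.lifting_property (LinearMap.codRestrict _ _ m)
    (fun s => by
      obtain ⟨s, y, k, rfl⟩ := s
      exact ⟨⟨y, k⟩, rfl⟩) (LinearMap.id : S.map B.mkQ →ₗ[R] S.map B.mkQ)
  obtain ⟨f, a, b⟩ := rk1_core t l (S.subtype ∘ₗ σ ∘ₗ LinearMap.codRestrict _ π h1)
    (fun v => (σ _).2) fun v hv => by
      have : LinearMap.codRestrict _ π h1 v = 0 := Subtype.ext (h2 v hv)
      rw [LinearMap.comp_apply, LinearMap.comp_apply, this, map_zero, map_zero]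
  refine ⟨f, a, fun v => ?_⟩
  rw [b]
  exact congrArg Subtype.val (LinearMap.congr_fun hσ (LinearMap.codRestrict _ π h1 v))

/-- the top layer -/
theorem rk1_layer (t : Module.End R W) (B : Submodule R W) (m : ℕ) (h0 : ¬ LinearMap.ker t ≤ B)
    (hm : LinearMap.ker t ⊓ LinearMap.range (t ^ m) ≤ B) :
    ∃ l, l < m ∧ ¬ LinearMap.ker t ⊓ LinearMap.range (t ^ l) ≤ B ∧
      LinearMap.ker t ⊓ LinearMap.range (t ^ (l + 1)) ≤ B := by
  induction m with
  | zero => exact absurd (fun v hv => hm ⟨hv, v, rfl⟩) h0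
  | succ m ih =>
    by_cases k : LinearMap.ker t ⊓ LinearMap.range (t ^ m) ≤ B
    · obtain ⟨l, a, b⟩ := ih k
      exact ⟨l, by omega, b⟩
    · exact ⟨m, by omega, k, hm⟩

/-- the layers are stable under a map that conjugates `g` to a power -/
theorem rk1_st {g w : Module.End R W} {j : ℕ} (h : w * g = g ^ j * w) (l : ℕ) {v : W}
    (hv : v ∈ LinearMap.range ((g - 1) ^ l)) : w v ∈ LinearMap.range ((g - 1) ^ l) := by
  obtain ⟨u, rfl⟩ := hv
  have c : Commute (g - 1) (∑ i ∈ Finset.range j, g ^ i) :=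
    (mul_geom_sum g j).trans (geom_sum_mul g j).symm
  have e : w * (g - 1) ^ l = ((g - 1) * ∑ i ∈ Finset.range j, g ^ i) ^ l * w := by
    refine (SemiconjBy.pow_right ?_ l)
    rw [mul_geom_sum, SemiconjBy, mul_sub, sub_mul, h, mul_one, one_mul]
  refine ⟨((∑ i ∈ Finset.range j, g ^ i) ^ l) (w u), ?_⟩
  rw [← Module.End.mul_apply w, e, c.mul_pow]
  rfl

end

open Polynomial in
/-- the norm is the top power of `g - 1` modulo `p` -/
theorem rk1_nm {E : Type} [Ring E] {p : ℕ} (hp : p.Prime) (a : ℕ) (g : E) :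
    ∃ r : E, Commute r g ∧ (g - 1) ^ (p ^ a - 1) = ∑ j ∈ Finset.range (p ^ a), g ^ j + p * r := by
  have := Fact.mk hp
  have e : ((X - 1 : ℤ[X]) ^ (p ^ a - 1) - ∑ j ∈ Finset.range (p ^ a), X ^ j).map
      (Int.castRingHom (ZMod p)) = 0 := by
    have x : (X - 1 : (ZMod p)[X]) ≠ 0 := X_sub_C_ne_zero 1
    apply mul_left_cancel₀ x
    simp only [Polynomial.map_sub, Polynomial.map_pow, Polynomial.map_sum, map_X,
      Polynomial.map_one]
    rw [mul_sub, mul_geom_sum, ← pow_succ', Nat.sub_add_cancel (Nat.pos_of_ne_zero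
      (pow_ne_zero _ hp.ne_zero)), sub_pow_char_pow, one_pow, sub_self, mul_zero]
  obtain ⟨r, hr⟩ : C (p : ℤ) ∣ (X - 1 : ℤ[X]) ^ (p ^ a - 1) - ∑ j ∈ Finset.range (p ^ a), X ^ j :=
    (C_dvd_iff_dvd_coeff _ _).2 fun i => (ZMod.intCast_zmod_eq_zero_iff_dvd _ p).1 (by
      have := congrArg (fun f => coeff f i) e
      simpa only [coeff_map, coeff_zero, eq_intCast] using this)
  refine ⟨aeval g r, ?_, ?_⟩
  · have := (Commute.all r X).map (aeval g : ℤ[X] →ₐ[ℤ] E)
    rwa [aeval_X] at this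
  · have := congrArg (aeval g : ℤ[X] →ₐ[ℤ] E) hr
    simp only [map_sub, map_pow, map_sum, aeval_X, map_one, map_mul, map_natCast] at this
    exact eq_add_of_sub_eq' this

variable {O : Type} [CommRing O] [IsDomain O] [IsDiscreteValuationRing O] [CharZero O] {p : ℕ}
  {U : Type} [AddCommGroup U] [Module O U]

/-- a module killed by `p` is semisimple -/
theorem Wt.semis (hW : Wt p O) (h : ∀ v : U, (p : O) • v = 0) : IsSemisimpleModule O U := by
  have := Submodule.isSemisimple_torsionBy_of_irreducible (M := U) hW.irr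
  exact IsSemisimpleModule.of_surjective (Submodule.torsionBy O U (p : O)).subtype
    fun v => ⟨⟨v, h v⟩, rfl⟩

theorem rk1_nm' (hp : p.Prime) (h : ∀ v : U, (p : O) • v = 0) (a : ℕ) (g : Module.End O U) :
    (g - 1) ^ (p ^ a - 1) = ∑ j ∈ Finset.range (p ^ a), g ^ j := by
  obtain ⟨r, -, e⟩ := rk1_nm hp a g
  have : (p : Module.End O U) = 0 := LinearMap.ext fun v => by
    rw [Module.End.natCast_apply, ← Nat.cast_smul_eq_nsmul O, h, LinearMap.zero_apply]
  rw [e, this, zero_mul, add_zero]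

theorem rk1_nil (hp : p.Prime) (h : ∀ v : U, (p : O) • v = 0) {a : ℕ} {g : Module.End O U}
    (hg : g ^ (p ^ a) = 1) : (g - 1) ^ (p ^ a) = 0 := by
  rw [← Nat.sub_add_cancel (Nat.pos_of_ne_zero (pow_ne_zero a hp.ne_zero)), pow_succ,
    rk1_nm' hp h, geom_sum_mul, hg, sub_self]

end Pool.Agent.Lib.MP_1ae3da_al.CT.R5
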