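import Pool.Agent.Lib.MP_1ae3da_al.Y.Tr
import Pool.Agent.Lib.MP_1ae3da_al.Y.Rk1

set_option autoImplicit false
set_option linter.unusedSectionVars false

/-! The Tate group of a module killed by `p` with local endomorphism ring is zero or simple. -/

namespace Pool.Agent.Lib.MP_1ae3da_al.CT.R5

open Function

variable {O X : Type} [CommRing O] [IsDomain O] [IsDiscreteValuationRing O] [CharZero O]
  [Group X] [Finite X] {p a : ℕ}

/-- the group data: `C = K D` inside `N`, `D` generated by `d` of order `p ^ a` -/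
structure Gd (p a : ℕ) (K D C N : Subgroup X) (d : N) : Prop where
  hK : K ≤ N
  hC : C ≤ N
  nrm : ∀ k ∈ K, (d : X) * k * (d : X)⁻¹ ∈ K
  cK : ¬ p ∣ Nat.card K
  cN : ¬ p ∣ C.relIndex N
  ti : ∀ x, x ∉ N → ∀ y ∈ D, x⁻¹ * y * x ∈ C → y = 1
  split : ∀ c ∈ C, ∃ k ∈ K, ∃ y ∈ D, c = k * y
  mem : (d : X) ∈ D
  gen : ∀ y ∈ D, ∃ i : ℕ, y = (d : X) ^ i
  card : Nat.card D = p ^ a

/-- the module data: `Z` is a summand of `U` for `N`, cut out by an element of the group ring,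
and `g` is the twisted generator -/
structure Zd {U Z : Type} [AddCommGroup U] [Module O U] [AddCommGroup Z] [Module O Z]
    (q : ℕ) (K N : Subgroup X) (d : N) (ρ : X →* Module.End O U) (τ : N →* Module.End O Z)
    (j : Z →ₗ[O] U) (r : U →ₗ[O] Z) (g : Module.End O Z) : Prop where
  rj : ∀ v, r (j v) = v
  hj : ∀ (n : N) v, j (τ n v) = ρ n (j v)
  hr : ∀ (n : N) u, r (ρ n u) = τ n (r u)
  hz : j ∘ₗ r ∈ Submodule.span O (Set.range fun n : N => ρ n)
  gq : g ^ q = 1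
  gn : ∀ n : N, ∃ i : ℕ, τ n * g = g ^ i * τ n
  gk : ∀ k : N, (k : X) ∈ K → τ k * g = g * τ k
  gw : ∃ w ∈ Submodule.span O (τ '' {k : N | (k : X) ∈ K}), g = w * τ d

variable {K D C N : Subgroup X} {d : N}

theorem Gd.hD (G : Gd p a K D C N d) : D ≤ N := fun y hy => by
  obtain ⟨i, rfl⟩ := G.gen y hy
  exact N.pow_mem d.2 i

theorem Gd.hDK (G : Gd p a K D C N d) : ∀ y ∈ D, ∀ k ∈ K, y * k * y⁻¹ ∈ K := fun y hy k hk => by
  obtain ⟨i, rfl⟩ := G.gen y hy
  clear hy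
  induction i with
  | zero => simpa using hk
  | succ i ih =>
    have := G.nrm _ ih
    rwa [pow_succ', mul_inv_rev, show (d : X) * (d : X) ^ i * k * (((d : X) ^ i)⁻¹ * (d : X)⁻¹) =
      d * ((d : X) ^ i * k * ((d : X) ^ i)⁻¹) * (d : X)⁻¹ by simp only [mul_assoc]]

theorem Gd.sum (G : Gd p a K D C N d) {M : Type} [AddCommMonoid M] (φ : X → M) :
    ∑ᶠ y : D, φ y = ∑ i ∈ Finset.range (p ^ a), φ ((d : X) ^ i) := by
  have := Fintype.ofFinite D
  have e : Subgroup.zpowers (d : X) = D := le_antisymm (Subgroup.zpowers_le_of_mem G.mem)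
    fun y hy => by
      obtain ⟨i, rfl⟩ := G.gen y hy
      exact Subgroup.npow_mem_zpowers _ _
  have o : orderOf (d : X) = p ^ a := by rw [← Nat.card_zpowers, e, G.card]
  rw [finsum_eq_sum_of_fintype]
  refine (Finset.sum_bij (fun i _ => (⟨(d : X) ^ i, D.pow_mem G.mem i⟩ : D))
    (fun _ _ => Finset.mem_univ _)
    (fun x hx y hy k => pow_injOn_Iio_orderOf (x := (d : X)) (by simpa [o] using hx)
      (by simpa [o] using hy) (congrArg Subtype.val k)) (fun y _ => ?_) fun _ _ => rfl).symm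
  obtain ⟨i, hi⟩ := G.gen y y.2
  exact ⟨i % p ^ a, Finset.mem_range.2 (Nat.mod_lt _ (o ▸ orderOf_pos _)),
    Subtype.ext (by rw [hi, ← o]; exact pow_mod_orderOf _ _)⟩

variable {U Z : Type} [AddCommGroup U] [Module O U] [AddCommGroup Z] [Module O Z] {q : ℕ}
  {ρ : X →* Module.End O U} {τ : N →* Module.End O Z} {j : Z →ₗ[O] U} {r : U →ₗ[O] Z}
  {g : Module.End O Z}

theorem loc_span {E : Type} [Ring E] [Algebra O E] {s : Set E} {f w : E}
    (hw : w ∈ Submodule.span O s) (h : ∀ x ∈ s, f * x = x * f) : f * w = w * f := by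
  induction hw using Submodule.span_induction with
  | mem x hx => exact h x hx
  | zero => simp
  | add x y _ _ hx hy => rw [mul_add, add_mul, hx, hy]
  | smul c x _ hx => rw [mul_smul_comm, smul_mul_assoc, hx]

theorem loc_inv (τ : N →* Module.End O Z) (n : N) : τ n * τ n⁻¹ = 1 ∧ τ n⁻¹ * τ n = 1 := by
  rw [← map_mul, ← map_mul, mul_inv_cancel, inv_mul_cancel, map_one]
  exact ⟨rfl, rfl⟩

theorem Zd.gn' (H : Zd q K N d ρ τ j r g) (n : N) : ∃ i : ℕ, g * τ n = τ n * g ^ i := by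
  obtain ⟨i, e⟩ := H.gn n⁻¹
  refine ⟨i, ?_⟩
  calc g * τ n = τ n * (τ n⁻¹ * g) * τ n := by rw [← mul_assoc, (loc_inv τ n).1, one_mul]
    _ = τ n * g ^ i := by rw [e, mul_assoc, mul_assoc, (loc_inv τ n).2, mul_one]

/-- the invariants are stable -/
theorem Zd.stA (H : Zd q K N d ρ τ j r g) (n : N) {v : Z} (hv : v ∈ zA q g false) :
    τ n v ∈ zA q g false := by
  obtain ⟨i, e⟩ := H.gn' n
  change g (τ n v) - τ n v = 0
  rw [← Module.End.mul_apply, e, Module.End.mul_apply, rlbas_fix (sub_eq_zero.1 hv), sub_self]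

/-- a map commuting with `N` commutes with `g` -/
theorem Zd.com (H : Zd q K N d ρ τ j r g) {f : Module.End O Z} (h : ∀ n, f * τ n = τ n * f) :
    f * g = g * f := by
  obtain ⟨w, hw, e⟩ := H.gw
  have k := loc_span hw (f := f) (by rintro _ ⟨x, -, rfl⟩; exact h x)
  rw [e, ← mul_assoc, k, mul_assoc, h, mul_assoc]

/-- conjugation by powers of `d` is conjugation by powers of `g` -/
theorem Zd.cnj (H : Zd q K N d ρ τ j r g) (nrm : ∀ k ∈ K, (d : X)⁻¹ * k * (d : X) ∈ K)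
    {h : Module.End O Z} (hh : ∀ k : N, (k : X) ∈ K → h * τ k = τ k * h) (i : ℕ) :
    (∀ k : N, (k : X) ∈ K → τ (d ^ i) * h * τ (d ^ i)⁻¹ * τ k =
      τ k * (τ (d ^ i) * h * τ (d ^ i)⁻¹)) ∧ τ (d ^ i) * h * τ (d ^ i)⁻¹ * g ^ i = g ^ i * h := by
  obtain ⟨w, hw, e⟩ := H.gw
  induction i with
  | zero => simpa using hh
  | succ i ih =>
    have e1 : τ (d ^ (i + 1)) * h * τ (d ^ (i + 1))⁻¹ =
        τ d * (τ (d ^ i) * h * τ (d ^ i)⁻¹) * τ d⁻¹ := by
      rw [pow_succ', mul_inv_rev, map_mul, map_mul]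
      simp only [mul_assoc]
    rw [e1]
    generalize τ (d ^ i) * h * τ (d ^ i)⁻¹ = c at ih
    have e2 : ∀ k : N, (k : X) ∈ K → τ d * c * τ d⁻¹ * τ k = τ k * (τ d * c * τ d⁻¹) :=
      fun k hk => by
        have := ih.1 (d⁻¹ * k * d) (nrm _ hk)
        calc τ d * c * τ d⁻¹ * τ k = τ d * (c * τ (d⁻¹ * k * d)) * τ d⁻¹ := by
              simp only [mul_assoc, ← map_mul, mul_inv_cancel, mul_one]
          _ = _ := by
              rw [this, ← mul_assoc, ← map_mul, ← mul_assoc, ← mul_assoc, mul_inv_cancel, one_mul,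
                map_mul]
              simp only [mul_assoc]
    refine ⟨e2, ?_⟩
    have k := loc_span hw (f := τ d * c * τ d⁻¹) (by rintro _ ⟨x, hx, rfl⟩; exact e2 x hx)
    have e3 : τ d * c * τ d⁻¹ * g = g * c := by
      rw [e, ← mul_assoc, k, mul_assoc, mul_assoc, (loc_inv τ d).2, mul_one, mul_assoc]
    rw [pow_succ', ← mul_assoc, e3, mul_assoc, ih.2, mul_assoc]

/-- the outer part of the transfer is a norm on the invariants -/
theorem Zd.out (G : Gd p a K D C N d) (H : Zd (p ^ a) K N d ρ τ j r g) (h : U →ₗ[O] U)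
    (hh : ∀ k ∈ K, ∀ v, h (ρ k v) = ρ k (h v)) {v : Z} (hv : v ∈ zA (p ^ a) g false) :
    r (∑ᶠ y : D, ρ y (h (ρ (y : X)⁻¹ (j v)))) ∈ zB (p ^ a) g false := by
  refine ⟨r (h (j v)), ?_⟩
  rw [G.sum fun y => ρ y (h (ρ y⁻¹ (j v))), map_sum, LinearMap.sum_apply]
  refine Finset.sum_congr rfl fun i _ => ?_
  have := LinearMap.congr_fun (H.cnj (h := r ∘ₗ h ∘ₗ j)
    (fun k hk => by simpa using G.hDK _ (D.inv_mem G.mem) k hk)
    (fun k hk => LinearMap.ext fun u => by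
      change r (h (j (τ k u))) = τ k (r (h (j u)))
      rw [H.hj, hh _ hk, H.hr]) i).2 v
  simp only [Module.End.mul_apply, LinearMap.comp_apply, rlbas_fix (sub_eq_zero.1 hv)] at this
  rw [← this, H.hj, ← H.hr]
  rfl

/-- a map commuting with `K` and `g` commutes with `C` -/
theorem Zd.comC (G : Gd p a K D C N d) (H : Zd q K N d ρ τ j r g) (hq : 0 < q)
    {f : Module.End O Z} (hk : ∀ k : N, (k : X) ∈ K → f * τ k = τ k * f) (hg : f * g = g * f)
    (c : N) (hc : (c : X) ∈ C) : f * τ c = τ c * f := by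
  obtain ⟨w, hw, e⟩ := H.gw
  have k := loc_span hw (f := f) (by rintro _ ⟨x, hx, rfl⟩; exact hk x hx)
  have u : τ d * g ^ (q - 1) * w = 1 := by
    have : τ d * g ^ (q - 1) * (w * τ d) * τ d⁻¹ = 1 := by
      rw [← e, mul_assoc (τ d), ← pow_succ, Nat.sub_add_cancel hq, H.gq, mul_one, (loc_inv τ d).1]
    rwa [mul_assoc, mul_assoc w, (loc_inv τ d).1, mul_one] at this
  have c1 : Commute f (τ d) := by
    have : w * (f * τ d) = w * (τ d * f) := by
      rw [← mul_assoc, ← k, mul_assoc, ← mul_assoc w, ← e, hg]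
    have := congrArg (fun x => τ d * g ^ (q - 1) * x) this
    change f * τ d = τ d * f
    simpa only [← mul_assoc, u, one_mul] using this
  obtain ⟨x, hx, y, hy, e'⟩ := G.split c hc
  obtain ⟨i, rfl⟩ := G.gen y hy
  have : c = ⟨x, G.hK hx⟩ * d ^ i := Subtype.ext e'
  rw [this, map_mul, map_pow, ← mul_assoc, hk _ hx, mul_assoc, (c1.pow_right i).eq, mul_assoc]

/-- transfer of a map commuting with `g` -/
theorem Zd.trf (hW : Wt p O) (G : Gd p a K D C N d) (H : Zd (p ^ a) K N d ρ τ j r g)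
    (f : Module.End O Z) (hf : f * g = g * f) :
    ∃ F : Module.End O U, (∀ x v, F (ρ x v) = ρ x (F v)) ∧
      ∀ (A : Submodule O Z) (Φ : Submodule O (Z × Z)), A ≤ zA (p ^ a) g false →
        (∀ n : N, ∀ v ∈ A, τ n v ∈ A) → (∀ (n : N) v w, (v, w) ∈ Φ → (τ n v, τ n w) ∈ Φ) →
        (∀ w ∈ zB (p ^ a) g false, ((0 : Z), w) ∈ Φ) → (∀ v ∈ A, (v, f v) ∈ Φ) →
        ∀ v ∈ A, (v, r (F (j v))) ∈ Φ := by
  obtain ⟨f1, a1, a2, a3⟩ := Cy.ytr_avg τ τ (K := K.subgroupOf N) (hW.unit (by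
    rw [Nat.card_congr (Subgroup.subgroupOfEquivOfLe G.hK).toEquiv]; exact G.cK)) f
  have gk : ∀ k ∈ K.subgroupOf N, ∀ v, g (τ k v) = τ k (g v) := fun k hk v =>
    (LinearMap.congr_fun (H.gk k hk) v).symm
  have c1 := H.comC G (Nat.pos_of_ne_zero (pow_ne_zero _ hW.prime.ne_zero)) (f := f1)
    (fun k hk => LinearMap.ext (a1 k hk))
    (LinearMap.ext (a2 g g gk gk (LinearMap.congr_fun hf)))
  obtain ⟨F, b1, b2⟩ := Cy.ytr_graph ρ ρ G.hK G.hD G.hC G.hDK (hW.unit G.cK) (hW.unit G.cN) G.ti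
    (j ∘ₗ f1 ∘ₗ r) fun c hc v => by
      have := LinearMap.congr_fun (c1 ⟨c, G.hC hc⟩ hc) (r v)
      change j (f1 (r (ρ ((⟨c, G.hC hc⟩ : N) : X) v))) = ρ ((⟨c, G.hC hc⟩ : N) : X) (j (f1 (r v)))
      rw [H.hr, ← H.hj]
      exact congrArg j this
  refine ⟨F, b1, fun A Φ hA sA sΦ hB h0 v hv => ?_⟩
  have := b2 (A.map j) (Φ.comap (r.prodMap r)) ?_ ?_ ?_ ?_ (j v) ⟨v, hv, rfl⟩
  · simpa [H.rj] using this
  · rintro n hn _ ⟨u, hu, rfl⟩
    exact ⟨_, sA ⟨n, hn⟩ u hu, H.hj _ _⟩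
  · intro n hn u w k
    change (r (ρ ((⟨n, hn⟩ : N) : X) u), r (ρ ((⟨n, hn⟩ : N) : X) w)) ∈ Φ
    rw [H.hr, H.hr]
    exact sΦ _ _ _ k
  · rintro _ ⟨u, hu, rfl⟩
    change (r (j u), r (j (f1 (r (j u))))) ∈ Φ
    rw [H.rj, H.rj]
    exact a3 A Φ (fun k _ => sA k) (fun k _ => sΦ k) h0 u hu
  · rintro h hh _ ⟨u, hu, rfl⟩
    change (r 0, r _) ∈ Φ
    rw [map_zero]
    exact hB _ (H.out G h hh (hA hu))

/-- an equivariant map restricts to the summand -/
theorem Zd.res (H : Zd q K N d ρ τ j r g) {F : Module.End O U}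
    (hF : ∀ (n : N) v, F (ρ n v) = ρ n (F v)) :
    (∀ u, F (j (r u)) = j (r (F u))) ∧ ∀ v, r (F (j (g v))) = g (r (F (j v))) :=
  ⟨LinearMap.congr_fun (loc_span H.hz (f := F) (by
      rintro _ ⟨n, rfl⟩
      exact LinearMap.ext (hF n))),
    LinearMap.congr_fun (H.com (f := r ∘ₗ F ∘ₗ j) fun n => LinearMap.ext fun v => by
      change r (F (j (τ n v))) = τ n (r (F (j v)))
      rw [H.hj, hF, H.hr])⟩

theorem loc_step (hW : Wt p O) (G : Gd p a K D C N d) (H : Zd (p ^ a) K N d ρ τ j r g)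
    (kZ : ∀ v : Z, (p : O) • v = 0)
    (hL : ∀ F : Module.End O U, (∀ x v, F (ρ x v) = ρ x (F v)) → Bijective F ∨ ∃ n, F ^ n = 0)
    {l : ℕ} (hl : LinearMap.ker (g - 1) ⊓ LinearMap.range ((g - 1) ^ (l + 1)) ≤ zB (p ^ a) g false)
    (S : Submodule O Z) (st : ∀ n : N, ∀ v ∈ S, τ n v ∈ S) (h1 : zB (p ^ a) g false ≤ S)
    (h2 : S ≤ LinearMap.ker (g - 1) ⊓ LinearMap.range ((g - 1) ^ l) ⊔ zB (p ^ a) g false) :
    S ≤ zB (p ^ a) g false ∨ zA (p ^ a) g false ≤ S := by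
  have := hW.semis kZ
  have sB : ∀ n : N, ∀ v ∈ zB (p ^ a) g false, τ n v ∈ zB (p ^ a) g false := fun n v hv => by
    obtain ⟨i, e⟩ := H.gn n
    rw [zB, ← rk1_nm' hW.prime kZ] at hv ⊢
    exact rk1_st e _ hv
  have SA : S ≤ zA (p ^ a) g false := h2.trans (sup_le inf_le_left (zB_le H.gq false))
  set B := zB (p ^ a) g false with hB
  obtain ⟨pr, hpr⟩ := IsSemisimpleModule.extension_property (S.map B.mkQ).subtype
    (Submodule.injective_subtype _) (LinearMap.id : S.map B.mkQ →ₗ[O] S.map B.mkQ)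
  obtain ⟨f, f1, f2⟩ := rk1 (g - 1) l B
    ((S.map B.mkQ).subtype ∘ₗ pr ∘ₗ B.mkQ ∘ₗ (LinearMap.ker (g - 1)).subtype)
    (fun v => by
      have := Submodule.map_mono (f := B.mkQ) h2 (pr (B.mkQ v.1)).2
      rwa [Submodule.map_sup, Submodule.mkQ_map_self, sup_bot_eq] at this)
    (fun v hv => by
      have : B.mkQ v.1 = 0 := (Submodule.Quotient.mk_eq_zero _).2 (hl ⟨v.2, hv⟩)
      change (pr (B.mkQ v.1)).1 = 0
      rw [this, map_zero]
      rfl)
  have fg : f * g = g * f := by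
    rw [mul_sub, sub_mul, mul_one, one_mul] at f1
    exact sub_left_injective f1
  obtain ⟨F, hF, tr⟩ := H.trf hW G f fg
  have t1 : ∀ v ∈ zA (p ^ a) g false, r (F (j v)) ∈ S :=
    tr _ (S.comap (LinearMap.snd O Z Z)) le_rfl (fun n v hv => H.stA n hv)
      (fun n v w k => st n w k) (fun w hw => h1 hw) fun v hv => by
        obtain ⟨s, hs, e⟩ := (pr (B.mkQ v)).2
        have : f v - s ∈ B := (Submodule.Quotient.eq B).1 ((f2 ⟨v, hv⟩).trans e.symm)
        exact (S.sub_mem_iff_left hs).1 (h1 this)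
  have t2 : ∀ v ∈ S, r (F (j v)) - v ∈ B :=
    tr S (B.comap (LinearMap.snd O Z Z - LinearMap.fst O Z Z)) SA st
      (fun n v w k => by
        change τ n w - τ n v ∈ B
        rw [← map_sub]
        exact sB n _ k) (fun w hw => by simpa using hw) fun v hv =>
      (Submodule.Quotient.eq B).1 ((f2 ⟨v, SA hv⟩).trans
        (congrArg Subtype.val (LinearMap.congr_fun hpr ⟨B.mkQ v, v, hv, rfl⟩)))
  obtain ⟨z1, z2⟩ := H.res (F := F) fun n => hF n
  have z3 : ∀ v, j (r (F (j v))) = F (j v) := fun v => by rw [← z1, H.rj]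
  rcases hL F hF with hb | ⟨n, hn⟩
  · refine Or.inr fun v hv => ?_
    obtain ⟨u, hu⟩ := hb.2 (j v)
    have e1 : r (F (j (r u))) = v := by rw [z1, H.rj, hu, H.rj]
    refine e1 ▸ t1 _ (sub_eq_zero.2 ?_)
    have e2 : j (g (r u)) = j (r u) := hb.1 (by
      rw [← z3, z2, e1, ← z3, e1]
      exact congrArg j (sub_eq_zero.1 hv))
    exact (H.rj _).symm.trans ((congrArg r e2).trans (H.rj _))
  · refine Or.inl fun v hv => ?_
    have k : ∀ m : ℕ, ∃ u, (F ^ m) (j v) = j u ∧ u - v ∈ B := fun m => by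
      induction m with
      | zero => exact ⟨v, rfl, by simp⟩
      | succ m ih =>
        obtain ⟨u, e, hu⟩ := ih
        refine ⟨r (F (j u)), by rw [pow_succ', Module.End.mul_apply, e, z3], ?_⟩
        simpa using B.add_mem (t2 u ((S.sub_mem_iff_left hv).1 (h1 hu))) hu
    obtain ⟨u, e, hu⟩ := k n
    have : u = 0 := by rw [← H.rj u, ← e, hn, LinearMap.zero_apply, map_zero]
    simpa [this] using hu

/-- the Tate group is zero or simple -/
theorem loc_core (hW : Wt p O) (G : Gd p a K D C N d) (H : Zd (p ^ a) K N d ρ τ j r g)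
    (kZ : ∀ v : Z, (p : O) • v = 0)
    (hL : ∀ F : Module.End O U, (∀ x v, F (ρ x v) = ρ x (F v)) → Bijective F ∨ ∃ n, F ^ n = 0)
    (S : Submodule O Z) (st : ∀ n : N, ∀ v ∈ S, τ n v ∈ S) (h1 : zB (p ^ a) g false ≤ S)
    (h2 : S ≤ zA (p ^ a) g false) : S ≤ zB (p ^ a) g false ∨ zA (p ^ a) g false ≤ S := by
  by_cases h0 : zA (p ^ a) g false ≤ zB (p ^ a) g false
  · exact Or.inl (h2.trans h0)
  have eB : zB (p ^ a) g false = LinearMap.range ((g - 1) ^ (p ^ a - 1)) := by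
    rw [zB, rk1_nm' hW.prime kZ]
  obtain ⟨l, -, l1, l2⟩ := rk1_layer (g - 1) (zB (p ^ a) g false) (p ^ a - 1) h0
    (eB ▸ inf_le_right)
  rcases loc_step hW G H kZ hL l2 _ (fun n v hv => by
    obtain ⟨x, hx, y, hy, rfl⟩ := Submodule.mem_sup.1 hv
    obtain ⟨i, e⟩ := H.gn n
    rw [map_add]
    refine Submodule.add_mem_sup ⟨H.stA n hx.1, rk1_st e _ hx.2⟩ ?_
    rw [eB] at hy ⊢
    exact rk1_st e _ hy) le_sup_right le_rfl with k | k
  · exact absurd (le_sup_left.trans k) l1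
  · exact loc_step hW G H kZ hL l2 S st h1 (h2.trans k)

end Pool.Agent.Lib.MP_1ae3da_al.CT.R5
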