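import Pool.Agent.Lib.MP_1ae3da_al.C.RLProj
import Pool.Agent.Lib.MP_1ae3da_al.Y.LocA
import Pool.Agent.Lib.MP_1ae3da_al.Y.Free
import Pool.Agent.Lib.MP_1ae3da_al.Y.HbC

set_option autoImplicit false
set_option linter.unusedSectionVars false

/-! Quotients of projective lattices with local endomorphism ring: one Tate group vanishes and
the tops of the Tate groups are zero or simple. -/

namespace Pool.Agent.Lib.MP_1ae3da_al.CT.R5

open Function

variable {O X : Type} [CommRing O] [IsDomain O] [IsDiscreteValuationRing O] [CharZero O]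
  [Group X] [Finite X] {p a q : ℕ}

/-- local endomorphism ring -/
def Lat.Loc (p : ℕ) (P : Lat O X) : Prop :=
  ∀ f : Module.End O P.V, P.Hom P f →
    Bijective f ∨ ∃ (n : ℕ) (h : Module.End O P.V), f ^ n = (p : O) • h

/-- local endomorphism ring of the reduction -/
def Lat.LocP (p : ℕ) (U : Lat O X) : Prop :=
  ∀ F : Module.End O U.V, (∀ x v, ∃ u, F (U.ρ x v) = U.ρ x (F v) + (p : O) • u) →
    Bijective F ∨ ∃ n : ℕ, ∀ v, ∃ u, (F ^ n) v = (p : O) • u

/-- Fitting: trivial idempotents give a local endomorphism ring -/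
theorem Wt.fit_ind (hW : Wt p O) {P : Lat O X}
    (hI : ∀ f : Module.End O P.V, P.Hom P f → f * f = f → f = 0 ∨ f = 1) : P.Loc p := by
  intro f hf
  have := hW.cpl
  obtain ⟨e, g, y, n, h1, h2, h3, -, -, h6, he, -, -⟩ :=
    rfit (p : O) (PrincipalIdealRing.isMaximal_of_irreducible hW.irr) f (IsIntegral.of_finite O f)
  have hc : P.Hom P e := fun x v => by
    have : Commute (P.ρ x) e := rfit_commute he (LinearMap.ext fun w => (hf x w).symm)
    exact (LinearMap.congr_fun this.eq v).symm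
  rcases hI e hc h1 with h0 | e1
  · exact Or.inr ⟨n, y, by rw [← h6, h0, sub_zero, mul_one]⟩
  · rw [e1] at h2 h3
    exact Or.inl ((Module.End.isUnit_iff f).1 ⟨⟨f, g, h3, h2⟩, rfl⟩)

/-- maps modulo `p` out of a projective lattice lift -/
theorem Lat.Hig.liftP {P E U : Lat O X} (hP : P.Hig) (π : E.V →ₗ[O] U.V) (hπ : E.Hom U π)
    (hs : Surjective π) (c : O) (f : P.V →ₗ[O] U.V)
    (hf : ∀ x v, ∃ u, f (P.ρ x v) = U.ρ x (f v) + c • u) :
    ∃ f' : P.V →ₗ[O] E.V, P.Hom E f' ∧ ∀ v, ∃ u, f v = π (f' v) + c • u := by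
  have := Fintype.ofFinite X
  obtain ⟨h, hh⟩ := rlproj_hig.1 hP
  obtain ⟨s, h1⟩ := Module.projective_lifting_property π (f ∘ₗ h) hs
  have h2 : ∀ v, π (s v) = f (h v) := fun v => LinearMap.congr_fun h1 v
  choose u hu using hf
  refine ⟨_, rlproj_av s, fun v => ⟨∑ x : X, u x (h (P.ρ x⁻¹ v)), ?_⟩⟩
  conv_lhs => rw [← hh v]
  simp only [LinearMap.sum_apply, LinearMap.comp_apply, map_sum]
  rw [Finset.smul_sum, ← Finset.sum_add_distrib]
  exact Finset.sum_congr rfl fun x _ => by rw [hπ, h2, hu]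

theorem loc_quot (hW : Wt p O) {P U : Lat O X} (hP : P.Hig) (hL : P.Loc p) {π : P.V →ₗ[O] U.V}
    (hπ : P.Hom U π) (hs : Surjective π) : U.LocP p := by
  intro F hF
  obtain ⟨f, f1, f2⟩ := hP.liftP π hπ hs (p : O) (F ∘ₗ π) fun x v => by
    rw [LinearMap.comp_apply, hπ]
    exact hF x _
  rcases hL f f1 with hb | ⟨n, h, e⟩
  · have s : Surjective F := fun v => hW.nak ⊤ (LinearMap.range F) (fun v _ => by
      obtain ⟨y, rfl⟩ := hs v
      obtain ⟨y, rfl⟩ := hb.2 y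
      obtain ⟨u, e⟩ := f2 y
      exact ⟨_, ⟨π y, e⟩, -u, trivial, by rw [smul_neg, add_neg_cancel_right]⟩)
      (Submodule.mem_top (x := v))
    exact Or.inl ⟨OrzechProperty.injective_of_surjective_endomorphism F s, s⟩
  · have k : ∀ (m : ℕ) y, ∃ u, (F ^ m) (π y) = π ((f ^ m) y) + (p : O) • u := fun m => by
      induction m with
      | zero => exact fun y => ⟨0, by simp⟩
      | succ m ih =>
        intro y
        obtain ⟨u, e1⟩ := ih y
        obtain ⟨w, e2⟩ := f2 ((f ^ m) y)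
        refine ⟨w + F u, ?_⟩
        rw [pow_succ', pow_succ', Module.End.mul_apply, Module.End.mul_apply, e1, map_add,
          map_smul, smul_add, ← add_assoc, ← e2, LinearMap.comp_apply]
    refine Or.inr ⟨n, fun v => ?_⟩
    obtain ⟨y, rfl⟩ := hs v
    obtain ⟨u, e1⟩ := k n y
    exact ⟨π (h y) + u, by rw [e1, e, LinearMap.smul_apply, map_smul, smul_add]⟩

section
variable {U Z : Type} [AddCommGroup U] [Module O U] [AddCommGroup Z] [Module O Z]

/-- the multiples of `c` -/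
def pS (c : O) (U : Type) [AddCommGroup U] [Module O U] : Submodule O U :=
  LinearMap.range (c • LinearMap.id)

theorem mem_pS {c : O} {v : U} : v ∈ pS c U ↔ ∃ u, v = c • u := exists_congr fun _ => eq_comm

/-- reduction of a map -/
def pR (c : O) (f : U →ₗ[O] Z) : U ⧸ pS c U →ₗ[O] Z ⧸ pS c Z :=
  (pS c U).mapQ (pS c Z) f fun v hv => by
    obtain ⟨u, rfl⟩ := mem_pS.1 hv
    exact mem_pS.2 ⟨f u, map_smul _ _ _⟩

theorem pR_mk (c : O) (f : U →ₗ[O] Z) (v : U) : pR c f ((pS c U).mkQ v) = (pS c Z).mkQ (f v) := rfl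

/-- reduction of endomorphisms -/
def pA (c : O) (U : Type) [AddCommGroup U] [Module O U] :
    Module.End O U →ₐ[O] Module.End O (U ⧸ pS c U) where
  toFun f := pR c f
  map_one' := Submodule.linearMap_qext _ rfl
  map_mul' _ _ := Submodule.linearMap_qext _ rfl
  map_zero' := Submodule.linearMap_qext _ (by ext; simp [pR])
  map_add' _ _ := Submodule.linearMap_qext _ (by ext; simp [pR])
  commutes' _ := Submodule.linearMap_qext _ (by ext; simp [pR])

theorem pA_mk (c : O) (f : Module.End O U) (v : U) :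
    pA c U f ((pS c U).mkQ v) = (pS c U).mkQ (f v) := rfl

theorem pS_kill (c : O) (v : U ⧸ pS c U) : c • v = 0 := by
  obtain ⟨v, rfl⟩ := (pS c U).mkQ_surjective v
  exact (Submodule.Quotient.mk_eq_zero _).2 ⟨v, rfl⟩

variable {K D C N : Subgroup X} {d : N} {τ : N →* Module.End O Z} {g : Module.End O Z}

theorem Zd.red {ρ : X →* Module.End O U} {j : Z →ₗ[O] U} {r : U →ₗ[O] Z}
    (H : Zd q K N d ρ τ j r g) (c : O) :
    Zd q K N d ((pA c U : _ →* _).comp ρ) ((pA c Z : _ →* _).comp τ) (pR c j) (pR c r)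
      (pA c Z g) := by
  refine ⟨fun v => ?_, fun n v => ?_, fun n v => ?_, ?_, by rw [← map_pow, H.gq, map_one],
    fun n => ?_, fun k hk => ?_, ?_⟩
  · obtain ⟨v, rfl⟩ := (pS c Z).mkQ_surjective v
    exact congrArg (pS c Z).mkQ (H.rj v)
  · obtain ⟨v, rfl⟩ := (pS c Z).mkQ_surjective v
    exact congrArg (pS c U).mkQ (H.hj n v)
  · obtain ⟨v, rfl⟩ := (pS c U).mkQ_surjective v
    exact congrArg (pS c Z).mkQ (H.hr n v)
  · have := Submodule.apply_mem_span_image_of_mem_span (pA c U).toLinearMap H.hz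
    rw [← Set.range_comp] at this
    exact (Submodule.linearMap_qext _ rfl : pR c j ∘ₗ pR c r = pA c U (j ∘ₗ r)) ▸ this
  · obtain ⟨i, e⟩ := H.gn n
    exact ⟨i, by simpa using congrArg (pA c Z) e⟩
  · simpa using congrArg (pA c Z) (H.gk k hk)
  · obtain ⟨w, hw, e⟩ := H.gw
    have := Submodule.apply_mem_span_image_of_mem_span (pA c Z).toLinearMap hw
    rw [← Set.image_comp] at this
    exact ⟨_, this, by simpa using congrArg (pA c Z) e⟩

/-- the socle is zero or simple, so the top is zero or simple -/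
theorem loc_soc {ι : Type} (σ : ι → Module.End O Z) {A B : Submodule O Z} (hB : B ≤ A)
    (sA : ∀ n, ∀ v ∈ A, σ n v ∈ A) (sB : ∀ n, ∀ v ∈ B, σ n v ∈ B) {c : O} {m : ℕ}
    (hm : ∀ v ∈ A, c ^ m • v ∈ B)
    (h : ∀ R : Submodule O Z, (∀ n, ∀ v ∈ R, σ n v ∈ R) → B ≤ R → R ≤ A → (∀ v ∈ R, c • v ∈ B) →
      R ≤ B ∨ ∀ v ∈ A, c • v ∈ B → v ∈ R)
    (S : Submodule O Z) (st : ∀ n, ∀ v ∈ S, σ n v ∈ S) (h1 : zP c A B ≤ S) (h2 : S ≤ A) :
    S ≤ zP c A B ∨ A ≤ S := by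
  induction m with
  | zero => exact Or.inr fun v hv => h1 (le_zP (by simpa using hm v hv))
  | succ m ih =>
    by_cases h0 : ∀ v ∈ A, c ^ m • v ∈ B
    · exact ih h0
    have hc : ∀ v ∈ A, c • c ^ m • v ∈ B := fun v hv => by
      rw [smul_smul, ← pow_succ']
      exact hm v hv
    have hT : ∀ T : Submodule O Z, (∀ n, ∀ v ∈ T, σ n v ∈ T) → T ≤ A → (∀ v ∈ T, c ^ m • v ∈ B) ∨
        ∀ v ∈ A, c • v ∈ B → ∃ b ∈ B, ∃ w ∈ T, v = b + c ^ m • w := fun T sT TA =>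
      (h (zP (c ^ m) T B) (fun n v hv => by
        obtain ⟨b, hb, w, hw, rfl⟩ := mem_zP.1 hv
        exact mem_zP.2 ⟨_, sB n b hb, _, sT n w hw, by rw [map_add, map_smul]⟩) le_zP
        (fun v hv => by
          obtain ⟨b, hb, w, hw, rfl⟩ := mem_zP.1 hv
          exact A.add_mem (hB hb) (A.smul_mem _ (TA hw)))
        (fun v hv => by
          obtain ⟨b, hb, w, hw, rfl⟩ := mem_zP.1 hv
          rw [smul_add]
          exact B.add_mem (B.smul_mem _ hb) (hc w (TA hw)))).imp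
        (fun k v hv => k (mem_zP.2 ⟨0, B.zero_mem, v, hv, (zero_add _).symm⟩))
        fun k v hv hv' => mem_zP.1 (k v hv hv')
    have k0 := (hT A sA le_rfl).resolve_left h0
    have key : ∀ k, k ≤ m → ∀ x ∈ A, c ^ k • x ∈ B → x ∈ zP c A B := fun k => by
      induction k with
      | zero => exact fun _ x _ hx => le_zP (by simpa using hx)
      | succ k ihk =>
        intro hk x hx e
        obtain ⟨b, hb, y, hy, e'⟩ := k0 (c ^ k • x) (A.smul_mem _ hx)
          (by rwa [smul_smul, ← pow_succ'])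
        obtain ⟨i, rfl⟩ : ∃ i, m = k + (i + 1) := ⟨m - k - 1, by omega⟩
        have := ihk (by omega) (x - c • c ^ i • y)
          (A.sub_mem hx (A.smul_mem _ (A.smul_mem _ hy))) (by
            rwa [smul_sub, e', smul_smul, smul_smul, mul_assoc, ← pow_succ', ← pow_add,
              add_sub_cancel_right])
        exact ((zP c A B).sub_mem_iff_left (mem_zP.2 ⟨0, B.zero_mem, _, A.smul_mem _ hy,
          (zero_add _).symm⟩)).1 this
    refine (hT S st h2).imp (fun k v hv => key m le_rfl v (h2 hv) (k v hv)) fun k v hv => ?_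
    obtain ⟨b, hb, s, hs, e⟩ := k _ (A.smul_mem _ hv) (hc v hv)
    exact (S.sub_mem_iff_left hs).1 (h1 (key m le_rfl _ (A.sub_mem hv (h2 hs))
      (by rwa [smul_sub, e, add_sub_cancel_right])))

theorem loc_nm {g : Module.End O Z} (i : ℕ) (v : Z) :
    (g ^ i) v - v = (∑ k ∈ Finset.range i, g ^ k) (g v - v) :=
  (LinearMap.congr_fun (geom_sum_mul g i) v).symm

variable {ρ : X →* Module.End O U} {j : Z →ₗ[O] U} {r : U →ₗ[O] Z}

theorem Zd.stB1 (H : Zd q K N d ρ τ j r g) (n : N) {v : Z} (hv : v ∈ zB q g true) :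
    τ n v ∈ zB q g true := by
  obtain ⟨i, e⟩ := H.gn n
  have := rk1_st e 1 (v := v) (by rwa [pow_one])
  rwa [pow_one] at this

end

variable {K D C N : Subgroup X} {d : N} {U : Lat O X} {Z : Type} [AddCommGroup Z] [Module O Z]
  {τ : N →* Module.End O Z} {j : Z →ₗ[O] U.V} {r : U.V →ₗ[O] Z} {g : Module.End O Z}

/-- the Tate group of the reduction is zero or simple -/
theorem loc_H (hW : Wt p O) (G : Gd p a K D C N d) (H : Zd (p ^ a) K N d U.ρ τ j r g)
    (hU : U.LocP p) (S : Submodule O Z) (st : ∀ n : N, ∀ v ∈ S, τ n v ∈ S)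
    (h1 : ∀ w u, (∑ i ∈ Finset.range (p ^ a), g ^ i) w + (p : O) • u ∈ S)
    (h2 : ∀ v ∈ S, ∃ u, g v - v = (p : O) • u) :
    (∀ v ∈ S, ∃ w u, v = (∑ i ∈ Finset.range (p ^ a), g ^ i) w + (p : O) • u) ∨
      ∀ v, (∃ u, g v - v = (p : O) • u) → v ∈ S := by
  have nm : ∀ w, (∑ i ∈ Finset.range (p ^ a), pA (p : O) Z g ^ i) ((pS (p : O) Z).mkQ w) =
      (pS (p : O) Z).mkQ ((∑ i ∈ Finset.range (p ^ a), g ^ i) w) := fun w => by
    rw [← pA_mk, map_sum]
    simp only [map_pow]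
  refine (loc_core hW G (H.red (p : O)) (pS_kill _) (fun F hF => ?_) (S.map (pS (p : O) Z).mkQ)
    ?_ ?_ ?_).imp (fun k v hv => ?_) fun k v hv => ?_
  · obtain ⟨f, hf⟩ := Module.projective_lifting_property (pS (p : O) U.V).mkQ
      (F ∘ₗ (pS (p : O) U.V).mkQ) (Submodule.mkQ_surjective _)
    have e : pA (p : O) U.V f = F := Submodule.linearMap_qext _ hf
    subst e
    refine (hU f fun x v => ?_).imp (fun b => ?_) fun ⟨n, hn⟩ => ⟨n, ?_⟩
    · obtain ⟨u, hu⟩ := mem_pS.1 ((Submodule.Quotient.eq _).1 (hF x ((pS (p : O) U.V).mkQ v)))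
      exact ⟨u, eq_add_of_sub_eq' hu⟩
    · exact (Module.End.isUnit_iff _).1 (((Module.End.isUnit_iff f).2 b).map (pA (p : O) U.V))
    · rw [← map_pow]
      exact Submodule.linearMap_qext _ (LinearMap.ext fun v =>
        (Submodule.Quotient.mk_eq_zero _).2 (mem_pS.2 (hn v)))
  · rintro n _ ⟨v, hv, rfl⟩
    exact ⟨_, st n v hv, rfl⟩
  · rintro _ ⟨w, rfl⟩
    obtain ⟨w, rfl⟩ := (pS (p : O) Z).mkQ_surjective w
    exact ⟨_, by simpa using h1 w 0, (nm w).symm⟩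
  · rintro _ ⟨v, hv, rfl⟩
    exact (Submodule.Quotient.mk_eq_zero _ (x := g v - v)).2 (mem_pS.2 (h2 v hv))
  · obtain ⟨w, e⟩ := k ⟨v, hv, rfl⟩
    obtain ⟨w, rfl⟩ := (pS (p : O) Z).mkQ_surjective w
    obtain ⟨u, hu⟩ := mem_pS.1 ((Submodule.Quotient.eq _).1 (e.symm.trans (nm w)))
    exact ⟨w, u, eq_add_of_sub_eq' hu⟩
  · obtain ⟨s, hs, e⟩ := k (x := (pS (p : O) Z).mkQ v)
      ((Submodule.Quotient.mk_eq_zero _ (x := g v - v)).2 (mem_pS.2 hv))
    obtain ⟨u, hu⟩ := mem_pS.1 ((Submodule.Quotient.eq _).1 e.symm)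
    exact (S.sub_mem_iff_left hs).1 (by simpa [hu] using h1 0 u)

variable [Module.Free O Z] [Module.Finite O Z]

theorem loc_zero (hW : Wt p O) (G : Gd p a K D C N d) (H : Zd (p ^ a) K N d U.ρ τ j r g)
    (hU : U.LocP p) (S : Submodule O Z) (st : ∀ n : N, ∀ v ∈ S, τ n v ∈ S)
    (h1 : zB (p ^ a) g false ≤ S) (h2 : S ≤ zA (p ^ a) g false) :
    (∀ v ∈ S, ∃ w u, v = (∑ i ∈ Finset.range (p ^ a), g ^ i) w + (p : O) • u) ∨
      ∀ v, (∃ u, g v - v = (p : O) • u) → ∃ s ∈ S, ∃ u, v = s + (p : O) • u :=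
  (loc_H hW G H hU (zP (p : O) ⊤ S) (fun n v hv => by
    obtain ⟨b, hb, w, -, rfl⟩ := mem_zP.1 hv
    exact mem_zP.2 ⟨_, st n b hb, τ n w, trivial, by rw [map_add, map_smul]⟩)
    (fun w u => mem_zP.2 ⟨_, h1 ⟨w, rfl⟩, u, trivial, rfl⟩) fun v hv => by
      obtain ⟨b, hb, w, -, rfl⟩ := mem_zP.1 hv
      refine ⟨g w - w, ?_⟩
      rw [map_add, map_smul, (sub_eq_zero.1 (h2 hb) : g b = b), smul_sub, add_sub_add_left_eq_sub]
    ).imp (fun k v hv => k v (le_zP hv)) fun k v hv => by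
      obtain ⟨b, hb, w, -, e⟩ := mem_zP.1 (k v hv)
      exact ⟨b, hb, w, e⟩

/-- one of the Tate groups vanishes -/
theorem loc_one (hW : Wt p O) (G : Gd p a K D C N d) (H : Zd (p ^ a) K N d U.ρ τ j r g)
    (hU : U.LocP p) : ∃ i, zA (p ^ a) g (!i) ≤ zB (p ^ a) g (!i) := by
  rcases loc_zero hW G H hU _ (fun n v hv => H.stA n hv) (zB_le H.gq false) le_rfl with k | k
  · exact ⟨true, seq0 hW H.gq k⟩
  · exact ⟨false, seq1 hW k⟩

theorem Zd.stA1 (hW : Wt p O) (H : Zd (p ^ a) K N d U.ρ τ j r g) (n : N) {v : Z}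
    (hv : v ∈ zA (p ^ a) g true) : τ n v ∈ zA (p ^ a) g true :=
  zA_pure g true ((p ^ a : ℕ) : O) _ (by exact_mod_cast pow_ne_zero a hW.prime.ne_zero) (by
    rw [← map_smul]
    exact zB_le H.gq true (H.stB1 n (z_psmul g true hv)))

/-- the tops of the Tate groups are zero or simple -/
theorem loc_top (hW : Wt p O) (G : Gd p a K D C N d) (H : Zd (p ^ a) K N d U.ρ τ j r g)
    (hU : U.LocP p) (i : Bool) (S : Submodule O Z) (st : ∀ n : N, ∀ v ∈ S, τ n v ∈ S)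
    (h1 : zP (p : O) (zA (p ^ a) g i) (zB (p ^ a) g i) ≤ S) (h2 : S ≤ zA (p ^ a) g i) :
    S ≤ zP (p : O) (zA (p ^ a) g i) (zB (p ^ a) g i) ∨ zA (p ^ a) g i ≤ S := by
  cases i
  · refine (loc_zero hW G H hU S st (le_zP.trans h1) h2).imp (fun k v hv => ?_) fun k v hv => ?_
    · obtain ⟨w, u, e⟩ := k v hv
      exact mem_zP.2 ⟨_, ⟨w, rfl⟩, u, seq_inj hW H.gq (h2 hv) e, e⟩
    · obtain ⟨s, hs, u, e⟩ := k v ⟨0, by rw [smul_zero]; exact hv⟩
      have : u ∈ zA (p ^ a) g false := zA_pure g false (p : O) u hW.irr.ne_zero (by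
        rw [← sub_eq_iff_eq_add'.2 e]
        exact Submodule.sub_mem _ hv (h2 hs))
      exact e ▸ S.add_mem hs (h1 (mem_zP.2 ⟨0, Submodule.zero_mem _, u, this, (zero_add _).symm⟩))
  refine loc_soc (fun n : N => τ n) (zB_le H.gq true) (fun n v hv => H.stA1 hW n hv)
    (fun n v hv => H.stB1 n hv) (m := a) (fun v hv => by simpa using z_psmul g true hv)
    (fun R sR BR RA pR => ?_) S st h1 h2
  have inj : ∀ x y : Z, (p : O) • x = (p : O) • y → x = y := fun x y e =>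
    smul_right_injective Z hW.irr.ne_zero e
  refine (loc_H hW G H hU ((R.map ((p : O) • LinearMap.id : Z →ₗ[O] Z)).comap (g - 1)) ?_
    (fun w u => ⟨g u - u, BR ⟨u, rfl⟩, ?_⟩) (fun v ⟨u, _, e⟩ => ⟨u, e.symm⟩)).imp
    (fun k u hu => ?_) fun k u _ hu => ?_
  · rintro n v ⟨u, hu, e⟩
    obtain ⟨i, e'⟩ := H.gn' n
    refine ⟨τ n ((∑ k ∈ Finset.range i, g ^ k) u), sR n _ ?_, ?_⟩
    · rw [LinearMap.sum_apply]
      exact R.sum_mem fun k _ => (R.sub_mem_iff_left hu).1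
        (BR ⟨_, LinearMap.congr_fun (mul_geom_sum g k) u⟩)
    · change (p : O) • τ n ((∑ k ∈ Finset.range i, g ^ k) u) = g (τ n v) - τ n v
      rw [← Module.End.mul_apply g, e', Module.End.mul_apply, ← map_sub, loc_nm, ← map_smul,
        ← map_smul]
      exact congrArg (fun x => τ n ((∑ k ∈ Finset.range i, g ^ k) x)) e
  · have : (g - 1) ((∑ i ∈ Finset.range (p ^ a), g ^ i) w) = 0 := zB_le H.gq false ⟨w, rfl⟩
    rw [map_add, this, zero_add, map_smul]
    rfl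
  · obtain ⟨v, hv⟩ := pR u hu
    obtain ⟨w, y, e⟩ := k v ⟨u, hu, hv.symm⟩
    have : (g - 1) ((∑ i ∈ Finset.range (p ^ a), g ^ i) w) = 0 := zB_le H.gq false ⟨w, rfl⟩
    rw [e, map_add, this, zero_add, map_smul] at hv
    exact ⟨y, inj _ _ hv⟩
  · obtain ⟨v, hv⟩ := hu
    obtain ⟨y, hy, e⟩ := k v ⟨u, hv⟩
    exact inj _ _ (e.trans hv) ▸ hy

/-- both Tate groups vanish, so the Tate group of the reduction vanishes -/
theorem loc_H0 (hW : Wt p O) (hg : g ^ q = 1) (h : ∀ i, zA q g i ≤ zB q g i) (v : Z)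
    (hv : ∃ u, g v - v = (p : O) • u) :
    ∃ w u, v = (∑ i ∈ Finset.range q, g ^ i) w + (p : O) • u := by
  obtain ⟨u, e⟩ := hv
  obtain ⟨x, hx, w, rfl⟩ := (seq_mid hW e).1 (h true (seq_del hW hg e).1)
  obtain ⟨y, rfl⟩ := h false hx
  exact ⟨y, w, rfl⟩

/-- quotients of an indecomposable projective lattice -/
theorem loc_main (hW : Wt p O) (G : Gd p a K D C N d) (H : Zd (p ^ a) K N d U.ρ τ j r g)
    {P : Lat O X} (hP : P.Hig)
    (hI : ∀ f : Module.End O P.V, P.Hom P f → f * f = f → f = 0 ∨ f = 1) {π : P.V →ₗ[O] U.V}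
    (hπ : P.Hom U π) (hs : Surjective π) :
    (∃ i, zA (p ^ a) g (!i) ≤ zB (p ^ a) g (!i)) ∧
      ∀ (i : Bool) (S : Submodule O Z), (∀ n : N, ∀ v ∈ S, τ n v ∈ S) →
        zP (p : O) (zA (p ^ a) g i) (zB (p ^ a) g i) ≤ S → S ≤ zA (p ^ a) g i →
        S ≤ zP (p : O) (zA (p ^ a) g i) (zB (p ^ a) g i) ∨ zA (p ^ a) g i ≤ S :=
  have hU := loc_quot hW hP (hW.fit_ind hI) hπ hs
  ⟨loc_one hW G H hU, loc_top hW G H hU⟩

end Pool.Agent.Lib.MP_1ae3da_al.CT.R5
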