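import Pool.Agent.Lib.MP_1ae3da_al.Y.Mul
import Pool.Agent.Lib.MP_1ae3da_al.Y.Loc
import Pool.Agent.Lib.MP_1ae3da_al.C.RLProj

set_option autoImplicit false
set_option linter.unusedSectionVars false

/-! Local projective lattices and supports. -/

namespace Pool.Agent.Lib.MP_1ae3da_al.CT.R5

open Function Submodule

variable {F k X : Type} [Field F] [CharZero F] [IsAlgClosed F] [Field k] [Group X] [Finite X]
  {p a : ℕ} [Fact p.Prime] {O R : Subring F} [IsDiscreteValuationRing O] {r : F → k}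
  {GG : Subgroup (RingAut F)} {Q : Subgroup X} {ga : X → MonoidAlgebra F X} {d : Nz Q}
  {g : MonoidAlgebra O (Nz Q)} {e e' ψ η θ i ε : MonoidAlgebra F X}
  {γ : RingAut (MonoidAlgebra F X)} {om : X → F}
  {T : MonoidAlgebra F X →ₗ[F] MonoidAlgebra F X} {s : MonoidAlgebra F X → ℕ}

variable {V W P U : Lat O X}

/-- `Wt.fit_ind` -/
theorem Wt.lcl (hW : Wt p O) (h : P.Ind) : Lcl p P := by
  exact ⟨h.1, hW.fit_ind h.2⟩

theorem ylcx_comp {j : W.V →ₗ[O] U.V} {ρ : U.V →ₗ[O] W.V} {j' : U.V →ₗ[O] P.V}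
    {ρ' : P.V →ₗ[O] U.V} (S : Smd W U j ρ) (S' : Smd U P j' ρ') :
    Smd W P (j' ∘ₗ j) (ρ ∘ₗ ρ') :=
  ⟨fun x v => by rw [LinearMap.comp_apply, S.hj, S'.hj, LinearMap.comp_apply],
    fun x v => by rw [LinearMap.comp_apply, S'.hr, S.hr, LinearMap.comp_apply],
    fun w => by rw [LinearMap.comp_apply, LinearMap.comp_apply, S'.rj, S.rj]⟩

/-- `hig_ind` -/
theorem lcl_ex (hW : Wt p O) (hP : P.Hig) (he : e ∈ Sup P) :
    ∃ (W : Lat O X) (j : W.V →ₗ[O] P.V) (ρ : P.V →ₗ[O] W.V), Smd W P j ρ ∧ W.Hig ∧ Lcl p W ∧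
      e ∈ Sup W := by
  refine hig_ind (fun P => e ∈ Sup P → ∃ (W : Lat O X) (j : W.V →ₗ[O] P.V) (ρ : P.V →ₗ[O] W.V),
    Smd W P j ρ ∧ W.Hig ∧ Lcl p W ∧ e ∈ Sup W) (fun P h0 k => ?_) (fun P h1 h2 k => ?_)
    (fun P W1 W2 j1 r1 j2 r2 D h1 h2 k => ?_) P hP he
  · exact absurd (sup_nt k) (not_nontrivial_iff_subsingleton.2 h0)
  · exact ⟨P, LinearMap.id, LinearMap.id, ⟨fun _ _ => rfl, fun _ _ => rfl, fun _ => rfl⟩, h1,
      hW.lcl h2, k⟩
  · rw [D.ses.sup] at k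
    rcases k with k | k
    · obtain ⟨W, j, ρ, S, c⟩ := h1 k
      exact ⟨W, _, _, ylcx_comp S D.s1, c⟩
    · obtain ⟨W, j, ρ, S, c⟩ := h2 k
      exact ⟨W, _, _, ylcx_comp S D.s2, c⟩

theorem lcl_tot (hW : Wt p O) (he : e ∈ Irr F (HX F (⊤ : Subgroup X))) :
    ∃ P : Lat O X, P.Hig ∧ Lcl p P ∧ e ∈ Sup P := by
  obtain ⟨V, -, h1⟩ := sup_ex O he
  obtain ⟨P, q, hP, hq, hs⟩ := rlproj_start V
  obtain ⟨W, j, S⟩ := exists_ses hq hs
  obtain ⟨U, -, -, -, c⟩ := lcl_ex hW hP (S.sup ▸ Set.mem_union_right _ h1)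
  exact ⟨U, c⟩

/-- take a projective cover of minimal rank (or `hig_ind`): a local summand on which the cover
vanishes can be dropped; every other local summand has support meeting `Sup V`. -/
theorem cover_sup (hW : Wt p O) {A : Set (MonoidAlgebra F X)}
    (hA : ∀ P : Lat O X, P.Hig → Lcl p P → (Sup P ∩ A).Nonempty → Sup P ⊆ A) (hV : Sup V ⊆ A) :
    ∃ (W P : Lat O X) (j : W.V →ₗ[O] P.V) (π : P.V →ₗ[O] V.V), P.Hig ∧ Ses W P V j π ∧
      Sup W ⊆ A := by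
  obtain ⟨P, q, hP, hq, hs, hm⟩ := hW.cover V
  obtain ⟨W, j, S⟩ := exists_ses hq hs
  refine ⟨W, P, j, q, hP, S, fun e he => ?_⟩
  obtain ⟨U, i, ρ, T, h1, h2, h3⟩ := lcl_ex hW hP (S.sup ▸ Set.mem_union_left _ he)
  have h4 : q ∘ₗ i ≠ 0 := fun c => by
    have z : ∀ u, q (i u) = 0 := fun u => LinearMap.congr_fun c u
    have b := hm (1 - i ∘ₗ ρ) (pres_one_sub fun x v => by
      rw [LinearMap.comp_apply, T.hr, T.hj, LinearMap.comp_apply]) fun v => by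
      rw [LinearMap.sub_apply, map_sub, LinearMap.comp_apply, z, sub_zero, Module.End.one_apply]
    have := h2.ne
    obtain ⟨u, hu⟩ := exists_ne (0 : U.V)
    refine hu (T.inj (b.1 ?_))
    rw [map_zero, map_zero, LinearMap.sub_apply, LinearMap.comp_apply, T.rj, Module.End.one_apply,
      sub_self]
  obtain ⟨x, x1, x2⟩ := sup_hom (f := q ∘ₗ i) (fun x v => by
    rw [LinearMap.comp_apply, T.hj, hq, LinearMap.comp_apply]) h4
  exact hA U h1 h2 ⟨x, x1, hV x2⟩ h3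

end Pool.Agent.Lib.MP_1ae3da_al.CT.R5
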