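import Pool.Agent.Lib.MP_1ae3da_al.Y.Ed
import Pool.Agent.Lib.MP_1ae3da_al.Y.Lcx

set_option autoImplicit false
set_option linter.unusedSectionVars false

/-! The walk. -/

namespace Pool.Agent.Lib.MP_1ae3da_al.CT.R5

open Function Submodule

variable {F k X : Type} [Field F] [CharZero F] [IsAlgClosed F] [Field k] [Group X] [Finite X]
  {p a : ℕ} [Fact p.Prime] {O R : Subring F} [IsDiscreteValuationRing O] {r : F → k}
  {GG : Subgroup (RingAut F)} {Q : Subgroup X} {ga : X → MonoidAlgebra F X} {d : Nz Q}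
  {g : MonoidAlgebra O (Nz Q)} {e e' ψ η θ i ε : MonoidAlgebra F X}
  {γ : RingAut (MonoidAlgebra F X)} {om : X → F}
  {T : MonoidAlgebra F X →ₗ[F] MonoidAlgebra F X} {s : MonoidAlgebra F X → ℕ}

variable {v A : Set (MonoidAlgebra F X)} {b : Bool}

/-- `cover_sup`, `Cx.edgeP`, `Lo.shift1`, `Lo.shift0`, `Gl.om`, `Good.scC`, `Lat.Idem.sc`. -/
theorem Cx.walk (hC : Cx p a O R r GG Q ga d g) (hO : Om GG Q om T) {ω : Nz Q →* Oˣ}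
    (hω : Omg p Q ω) (h1 : ∀ x ∈ span F (HX F (Nz Q)), T x ∈ span F (HX F (Nz Q)))
    (h2 : ∀ (x : MonoidAlgebra F X) (y : Nz Q),
      (T x).coeff (y : X) = ((ω y⁻¹ : O) : F) * x.coeff (y : X))
    (h3 : ∀ e ∈ A, ∃ η ∈ EtC Q ga, cvC Q ga p (VxC Q ga p O GG e) η ≠ 0)
    (h4 : ∀ ψ v v', StC p a GG Q ga g v ψ false → StC p a GG Q ga g v' ψ true →
      ((v ∪ v') ∩ A).Nonempty → v ∪ v' ⊆ A) :
    (WkC p a Q g A ψ true → WkC p a Q g A ψ false) ∧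
      (WkC p a Q g A ψ false → WkC p a Q g A (T ψ) true) := by
  have hW := wt_of_pm hC.pm
  have hA : ∀ P : Lat O X, P.Hig → Lcl p P → (Sup P ∩ A).Nonempty → Sup P ⊆ A := by
    rintro P hP hl ⟨e, e1, e2⟩
    obtain ⟨η, hη, h0⟩ := h3 e e2
    obtain ⟨ψ, v, v', k1, k2, k3⟩ := hC.edgeP hO hP hl e1 hη h0
    rw [k3] at e1 ⊢
    exact h4 ψ v v' k1 k2 ⟨e, e1, e2⟩
  obtain ⟨o1, o2, o3⟩ := hC.gl.om hW hω
  constructor <;> rintro ⟨V, M, Φ, t1, t2, t3⟩ <;>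
    obtain ⟨W, P, j, π, hP, hs, hw⟩ := cover_sup hW hA t3
  · obtain ⟨Φ', k⟩ := hC.gl.lo.shift1 hW hs.rsC (hC.gl.higZ hW hP) t1
    exact ⟨W, M, Φ', k, t2, hw⟩
  · obtain ⟨Φ', k⟩ := hC.gl.lo.shift0 hW hs.rsC (hC.gl.higZ hW hP) o1 t1
    exact ⟨W, M.sc ω, Φ', k, ⟨Good.scC hC.gl.lo t2.good o2 o3, h1 _ t2.mem,
      t2.idm.sc ω fun y => h2 ψ y⟩, hw⟩

end Pool.Agent.Lib.MP_1ae3da_al.CT.R5
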