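import Pool.Agent.Lib.MP_1ae3da_al.Y.Ty
import Pool.Agent.Lib.MP_1ae3da_al.Y.Ln
import Pool.Agent.Lib.MP_1ae3da_al.Y.Eqv
import Pool.Agent.Lib.MP_1ae3da_al.Y.Wlk
import Pool.Agent.Lib.MP_1ae3da_al.Y.Ch

/-! Perfect groups with a cyclic Sylow subgroup of order at least `p ^ 2`. -/

namespace Pool.Agent.Lib.MP_1ae3da_al.CT

open Submodule R5

variable {p : ℕ} {F k : Type} [Field F] [Field k] {O R : Subring F} {r : F → k}
  {GG : Subgroup (RingAut F)}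

theorem rc (h : PM p O R r GG) (hp2 : p ≠ 2) (X : Type) [Group X] [Finite X]
    (hX : commutator X = ⊤) (D : Sylow p X) (hD : IsCyclic (D : Subgroup X))
    (h2 : p ^ 2 ∣ Nat.card X) :
    ML F p GG (Hm F (gu F X) ⊤)
      (Hm F (gu F X) (Subgroup.normalizer ((McK.Om p (D : Subgroup X) : Subgroup X) : Set X))) := by
  have := h.charF
  have := h.algF
  have := h.dvr
  have := Fact.mk h.prime
  obtain ⟨a, d0, hc⟩ := cyc_ex h.prime hp2 hX D hD h2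
  obtain ⟨ga, d, g, hC⟩ := cx_ex h hc
  have hW := wt_of_pm h
  obtain ⟨ω, hω⟩ := exists_om hW hc.card
  obtain ⟨om, T, hO, h3, h4⟩ := exists_Om h hc.card hω
  exact rc_of_ty (S := StC p a GG _ ga g) (W := WkC p a _ g) h hC.gl.cy hC.ga0 hO
    ⟨fun _ _ _ t => ⟨t.1, t.2.2.elim fun _ t => t.elim fun _ t => t.elim fun _ t =>
        (hC.gb_psi t.2.1).1⟩, fun _ _ _ t => t.2.1, fun _ _ _ t => hC.st_wk t,
      fun _ _ _ _ ⟨V, M, Φ, t1, t2, t3⟩ hs => ⟨V, M, Φ, t1, t2, t3.trans hs⟩,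
      fun _ _ _ _ t t' => hC.uniq t t', fun _ hγ _ _ _ t => hC.eqv hγ t,
      fun _ he _ hη h0 => hC.edge hO he hη h0, fun _ k1 k2 _ => hC.walk hO hω h3 h4 k1 k2,
      fun _ _ _ t he => hC.ln t he⟩

end Pool.Agent.Lib.MP_1ae3da_al.CT
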