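import Pool.Agent.Lib.MP_1ae3da_al.Y.HigA
import Pool.Agent.Lib.MP_1ae3da_al.Y.HbT

set_option autoImplicit false
set_option linter.unusedSectionVars false

/-! Projective lattices and the twist (`Gl.hig`, `yhbt_rt`, proof of `Gl.higTr`). -/

namespace Pool.Agent.Lib.MP_1ae3da_al.CT.R5

open Function

variable {O X Y : Type} [CommRing O] [IsDomain O] [IsDiscreteValuationRing O] [CharZero O]
  [Group X] [Finite X] [Group Y] [Finite Y] {p a : ℕ} {Q : Subgroup X}
  {d : Nz Q} {g : MonoidAlgebra O (Nz Q)}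

theorem yhg_tr (hW : Wt p O) {U : Type} [AddCommGroup U] [Module O U] [Module.Free O U]
    [Module.Finite O U] {G f : Module.End O U} (hG : G ^ (p ^ a + 1) = G)
    (e : ∑ j ∈ Finset.range (p ^ a), G ^ j * f * G ^ (p ^ a - j) = G ^ p ^ a) {j : ℕ}
    (h0 : 0 < j) (hj : j < p ^ a) : LinearMap.trace O U (G ^ j) = 0 := by
  have q0 := Nat.pos_of_ne_zero (pow_ne_zero a hW.prime.ne_zero)
  rw [← yGs_trace hG h0]
  refine free_trace hW (h := yPr _ _ ∘ₗ f ∘ₗ Submodule.subtype _) (yGs_pow q0 hG)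
    (LinearMap.ext fun v => Subtype.ext ?_) j h0 hj
  have e' := congrArg (G ^ p ^ a) (LinearMap.congr_fun e v.1)
  rw [yZs_fix q0 hG, yZs_fix q0 hG, LinearMap.sum_apply, map_sum] at e'
  rw [LinearMap.sum_apply, Submodule.coe_sum, Module.End.one_apply, ← e']
  refine Finset.sum_congr rfl fun i _ => ?_
  rw [Module.End.mul_apply, Module.End.mul_apply, yGs_pow_coe, LinearMap.comp_apply, yPr_coe,
    LinearMap.comp_apply, Submodule.subtype_apply, yGs_pow_coe, ← Module.End.mul_apply,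
    (Commute.pow_pow_self _ i (p ^ a)).eq]
  rfl

/-- restrict to the range of `g ^ q * t`. -/
theorem Gl.freeC (hW : Wt p O) (hG : Gl p a Q d g) {P : Lat O X} (hP : P.Hig)
    {t : MonoidAlgebra O (Nz Q)} (ht : t * t = t) (hc : t * g = g * t) {j : ℕ} (h0 : 0 < j)
    (hj : j < p ^ a) : LinearMap.trace O P.V (P.G Q g ^ j * (P.rs Q).act t) = 0 := by
  obtain ⟨f, -, e⟩ := hG.hig hW hP
  have hq : P.G Q g ^ (p ^ a + 1) = P.G Q g := by rw [← map_pow, hG.lo.pow]
  have hT : (P.rs Q).act t * (P.rs Q).act t = (P.rs Q).act t := by rw [← map_mul, ht]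
  have cm : (P.rs Q).act t * P.G Q g = P.G Q g * (P.rs Q).act t := by
    rw [← map_mul, hc, map_mul]
  obtain ⟨g', h⟩ := yhbt_rt hT cm
  rw [LinearMap.trace_mul_comm]
  refine (h.trace j).symm.trans (yhg_tr hW (h.pow hq)
    (f := ((P.rs Q).act t).rangeRestrict ∘ₗ f ∘ₗ Submodule.subtype _)
    (LinearMap.ext fun v => ?_) h0 hj)
  have e' := congrArg ((P.rs Q).act t).rangeRestrict (LinearMap.congr_fun e v.1)
  rw [LinearMap.sum_apply, map_sum, yhbt_pow h.rg] at e'
  rw [LinearMap.sum_apply]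
  refine Eq.trans (Finset.sum_congr rfl fun i _ => ?_) (e'.trans (congrArg _ (h.rj v)))
  rw [Module.End.mul_apply, Module.End.mul_apply, Module.End.mul_apply, Module.End.mul_apply,
    yhbt_pow h.rg, LinearMap.comp_apply, LinearMap.comp_apply, yhbt_pow h.jg]
  rfl

end Pool.Agent.Lib.MP_1ae3da_al.CT.R5
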