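import Pool.Agent.Lib.MP_1ae3da_al.Y.BalA
import Pool.Agent.Lib.MP_1ae3da_al.Y.Hg

set_option autoImplicit false
set_option linter.unusedSectionVars false

/-! Traces of the twist and multiplicity differences, second part. -/

namespace Pool.Agent.Lib.MP_1ae3da_al.CT.R5

open Function Submodule

variable {F k X : Type} [Field F] [CharZero F] [IsAlgClosed F] [Field k] [Group X] [Finite X]
  {p a : ℕ} [Fact p.Prime] {O R : Subring F} [IsDiscreteValuationRing O] {r : F → k}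
  {GG : Subgroup (RingAut F)} {Q : Subgroup X} {ga : X → MonoidAlgebra F X} {d : Nz Q}
  {g : MonoidAlgebra O (Nz Q)} {e e' ψ η θ i ε : MonoidAlgebra F X}
  {γ : RingAut (MonoidAlgebra F X)} {om : X → F}
  {T : MonoidAlgebra F X →ₗ[F] MonoidAlgebra F X} {s : MonoidAlgebra F X → ℕ}

variable {V : Lat O X} {t : MonoidAlgebra O (Nz Q)}

theorem yBal_theta (h : Mult V s) (hθ : θ ∈ Irr F (HX F (Kp p Q)))
    (hi : Prim F (HX F (Kp p Q)) θ i) {y : MonoidAlgebra F X}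
    (hc : ∀ b ∈ span F (HX F (Kp p Q)), y * b = b * y) :
    V.chF F (cf (MonoidHom.id X) (θ * y)) =
      dg F (HX F (Kp p Q)) θ * V.chF F (cf (MonoidHom.id X) (i * y)) := by
  obtain ⟨u, hu, -⟩ := irr_fin (F := F) (⊤ : Subgroup X)
  rw [h, h, ← hu, finsum_mem_coe_finset, finsum_mem_coe_finset, Finset.mul_sum]
  refine Finset.sum_congr rfl fun e he => ?_
  rw [chv_theta le_top (hu.le he) hθ hi (rcc_top y) hc, mul_left_comm]

theorem yBal_zero (hC : Cx p a O R r GG Q ga d g) (hV : V.Hig) (h : Mult V s)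
    (hθ : θ ∈ Irr F (HX F (Kp p Q))) (hi : Prim F (HX F (Kp p Q)) θ i) {j : ℕ} (h0 : 0 < j)
    (hj : j < p ^ a) : V.chF F (cf (MonoidHom.id X) (i * ga ((d : X) ^ j))) = 0 := by
  have hd := hC.gl.cy.dC
  obtain ⟨t, -, ht⟩ := hC.theta hθ
  have hc : ∀ c ∈ CQ Q, ∀ b ∈ span F (HX F (Kp p Q)), ga c * b = b * ga c := fun c hc b hb =>
    gs_comm hC.ga0 (subset_span ⟨1, one_ne_zero, c, hc, (one_smul _ _).symm⟩) (rcc_KC hb)
  have e1 := Gl.freeC hC.pm.wt hC.gl hV (t := t) (up_inj (by rw [map_mul, ht, hθ.2.1]))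
    (up_inj (by rw [map_mul, map_mul, ht, hC.up, hc _ hd _ hθ.1.1])) h0 hj
  have e2 := chF_up_rs (F := F) V (g ^ j * t)
  rw [map_mul ((V.rs Q).act), map_pow ((V.rs Q).act), e1, map_mul, map_pow, hC.up, ht,
    ← hC.ga0.pow hd h0, hc _ (pow_mem hd j) _ hθ.1.1,
    yBal_theta h hθ hi (hc _ (pow_mem hd j))] at e2
  exact (mul_eq_zero.1 e2).resolve_left (Nat.cast_ne_zero.2 (dg_pos hθ).ne')

theorem yBal_eps (hC : Cx p a O R r GG Q ga d g) (hV : V.Hig) (h : Mult V s)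
    (hθ : θ ∈ Irr F (HX F (Kp p Q))) (hi : Prim F (HX F (Kp p Q)) θ i)
    (hε : ε ∈ Irr F (Gs Q ga)) : (rspR V (MonoidHom.id X) (i * ε)).trace =
      ((p : F) ^ a)⁻¹ * (rspR V (MonoidHom.id X) (i * ga 1)).trace := by
  obtain ⟨ζ, -, h1⟩ := gs_eig hC.gl.cy hC.ga0 hε hC.gl.cy.dC
  rw [gs_form hC.gl.cy hC.ga0 hε h1, mul_smul_comm, map_smul, Matrix.trace_smul, smul_eq_mul,
    Finset.mul_sum, map_sum, Matrix.trace_sum, Finset.sum_eq_single 0, pow_zero, pow_zero,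
    one_smul]
  · intro j hj h0
    rw [mul_smul_comm, map_smul, Matrix.trace_smul, rspR_trace,
      yBal_zero hC hV h hθ hi (Nat.pos_of_ne_zero h0) (Finset.mem_range.1 hj), smul_zero]
  · exact fun k => (k (Finset.mem_range.2 (pow_pos hC.gl.cy.prime.pos a))).elim

theorem Cx.ninv (hC : Cx p a O R r GG Q ga d g) (hθ : θ ∈ Irr F (HX F (Kp p Q)))
    (hn : ¬ Ivt Q θ) (ht : R5.up O Q t = θ) : g * t = 0 := by
  refine up_inj ?_
  have hd := hC.gl.cy.dC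
  rw [map_mul, hC.up, ht, map_zero, gs_comm hC.ga0
    (subset_span ⟨1, one_ne_zero, d, hd, (one_smul _ _).symm⟩) (rcc_KC hθ.1.1), ← one_mul (d : X),
    hC.ga0.mul _ (one_mem _) _ hd, ← mul_assoc, hC.ga0.ninv θ hθ hn, zero_mul]

/-- `Gl.freeC`, `gs_form`, `chv_theta`. -/
theorem Cx.hig_cm (hC : Cx p a O R r GG Q ga d g) (hV : V.Hig) (h : Mult V s)
    (hη : η ∈ EtC Q ga) : cmC Q ga p s η = 0 := by
  obtain ⟨θ, i, ε, tr⟩ := eta_tri0 hC.gl.cy hC.ga0 hη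
  refine Int.cast_injective (α := F) ?_
  rw [hC.cm h hη tr, ← rspR_trace, mul_sub, map_sub, Matrix.trace_sub,
    yBal_eps hC hV h tr.irrK tr.prim tr.irrQ,
    yBal_eps hC hV h tr.irrK tr.prim (eo_irr hC.gl.cy hC.ga0), sub_self, Int.cast_zero]

theorem Cx.rank (hC : Cx p a O R r GG Q ga d g) (hO : Om GG Q om T) {M : Lat O (Nz Q)}
    (hM : GoodB Q g M ψ) (hθ : θ ∈ Irr F (HX F (Kp p Q))) (ht : R5.up O Q t = θ) :
    (ψ * θ ≠ 0 → LinearMap.trace O M.V (M.act t) = (dg F (HX F (Kp p Q)) θ : ℕ)) ∧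
      (ψ * θ = 0 → LinearMap.trace O M.V (M.act t) = (0 : ℕ)) := by
  have hψ := hC.psC hM
  obtain ⟨i, hi⟩ := exists_Prim (nice_Hm0 gu_tg (Kp p Q)) hθ
  have e1 := hC.chv_up hM t
  have e2 := chv_theta rcc_KN hψ.1 hθ hi rlmm_one fun s _ => by rw [one_mul, mul_one]
  rw [mul_one, mul_one, ← ht, e1, ht] at e2
  obtain ⟨h1, h2⟩ := chv_psiC hC.gl.cy hC.ga0 hO hθ hi hψ
  refine ⟨fun k => Subtype.ext ?_, fun k => Subtype.ext ?_⟩
  · rw [e2, h1 k, mul_one, Subring.coe_natCast]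
  · rw [e2, h2 k, mul_zero, Subring.coe_natCast, Nat.cast_zero]

end Pool.Agent.Lib.MP_1ae3da_al.CT.R5
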