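import Pool.Agent.Lib.MP_1ae3da_al.Y.Ck

set_option autoImplicit false
set_option linter.unusedSectionVars false

/-! The Gram matrix (edited copy of C/RCe). -/

namespace Pool.Agent.Lib.MP_1ae3da_al.CT

open Submodule

variable {p a : ℕ} {F X : Type} [Field F] [CharZero F] [IsAlgClosed F] [Group X] [Finite X]
  [Fact p.Prime] {Q : Subgroup X} {d : X} {ga : X → MonoidAlgebra F X}
  {GG : Subgroup (RingAut F)} {e e' ε ε' θ θ' i i' ψ ψ' η η' x y b : MonoidAlgebra F X}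
  {γ : RingAut (MonoidAlgebra F X)} {om : X → F}
  {T : MonoidAlgebra F X →ₗ[F] MonoidAlgebra F X} {k : Type} [Field k] {O R : Subring F}
  {r : F → k}

theorem yce_zero (S : Set (MonoidAlgebra F X)) (e : MonoidAlgebra F X) : Chv F S e 0 = 0 := by
  have h := chv_smul (S := S) e e (0 : F)
  rwa [zero_smul, zero_mul] at h

theorem yce_comm (hg : Ga0 GG p Q ga) (hε : ε ∈ span F (Gs Q ga))
    (hb : b ∈ span F (HX F (Kp p Q))) : ε * b = b * ε := gs_comm hg hε (rcc_KC hb)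

theorem yce_nat (hg : Ga0 GG p Q ga) (he : e ∈ Irr F (HX F (⊤ : Subgroup X)))
    (hi : Prim F (HX F (Kp p Q)) θ i) (hε : ε ∈ Irr F (Gs Q ga)) :
    ∃ n : ℕ, Chv F (HX F ⊤) e (i * ε) = n := by
  obtain ⟨n, hn, -⟩ := chv_idem (rce_nice ⊤) he (rce_top (i * ε)) (by
    rw [mul_assoc, ← mul_assoc ε, yce_comm hg hε.1.1 hi.1, mul_assoc, hε.2.1, ← mul_assoc,
      hi.2.2.1])
  exact ⟨n, hn⟩

theorem yce_N (hg : Ga0 GG p Q ga) (hb : b ∈ span F (HX F (Kp p Q)))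
    (hε : ε ∈ span F (Gs Q ga)) : b ∈ span F (HX F (NQ Q)) ∧ b * ε ∈ span F (HX F (NQ Q)) :=
  have h := span_Hm_mono (rcc_KN (p := p) (Q := Q)) hb
  ⟨h, gu_span_mul _ _ h _ (span_Hm_mono rcc_CN (gs_le hg hε))⟩

theorem yce_ti (h : Cyc p a Q d) {t : MonoidAlgebra F X →ₗ[F] F} (ht : Tf F (gu F X) t)
    (hx : x ∈ SgC F Q p) (hy : y ∈ span F (HX F (NQ Q))) {g : X} (hg : g ∉ NQ Q) :
    t (gu F X g * x * gu F X g⁻¹ * y) = 0 := by
  unfold SgC at hx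
  induction hx using span_induction with
  | mem x hx =>
    induction hy using span_induction with
    | mem y hy =>
      obtain ⟨c, hc, hk, rfl⟩ := hx
      obtain ⟨s, -, n, hn, rfl⟩ := hy
      rw [mul_smul_comm, map_smul, gu_mul, gu_mul, gu_mul, ht.2 _ fun l => hg (h.ti hc hk ?_),
        smul_zero]
      rw [eq_inv_of_mul_eq_one_left l]
      exact inv_mem hn
    | zero => rw [mul_zero, map_zero]
    | add y z _ _ a b => rw [mul_add, map_add, a, b, add_zero]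
    | smul c y _ a => rw [mul_smul_comm, map_smul, a, smul_zero]
  | zero => rw [mul_zero, zero_mul, zero_mul, map_zero]
  | add y z _ _ a b => rw [mul_add, add_mul, add_mul, map_add, a, b, add_zero]
  | smul c y _ a => rw [mul_smul_comm, smul_mul_assoc, smul_mul_assoc, map_smul, a, smul_zero]

theorem yce_psi (h : Cyc p a Q d) (hg : Ga0 GG p Q ga) (hψ : ψ ∈ PsC Q ga)
    (t : TriC Q ga p η θ i ε) :
    Chv F (HX F (NQ Q)) ψ (i * (Eo Q ga - ε)) = Chv F (HX F (NQ Q)) ψ i := by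
  have h0 := yce_N hg t.prim.1 (sub_mem (eo_irr h hg).1.1 t.irrQ.1.1)
  have h1 : Eo Q ga * ψ = ψ := (Cen_comm (eo_cen hg) hψ.1.1.1).trans hψ.2
  have h3 : ε * ψ = 0 := by
    rw [← h1, ← mul_assoc, Irr_orth t.irrQ (eo_irr h hg) t.ne, zero_mul]
  rw [← chv_mul_e (rce_nice _) hψ.1 h0.2, mul_assoc, sub_mul, h1, h3, sub_zero,
    chv_mul_e (rce_nice _) hψ.1 h0.1]

theorem yce_eta (h : Cyc p a Q d) (hg : Ga0 GG p Q ga) (hy : y ∈ EtC Q ga)
    (t : TriC Q ga p η θ i ε) :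
    Chv F (HX F (NQ Q)) y (i * (Eo Q ga - ε)) = - Chv F (HX F (NQ Q)) y (i * ε) := by
  have h1 : Eo Q ga * y = 0 := (Cen_comm (eo_cen hg) hy.1.1.1).trans hy.2.2
  rw [mul_sub, rce_sub, ← chv_mul_e (rce_nice _) hy.1 (yce_N hg t.prim.1 (eo_irr h hg).1.1).2,
    mul_assoc, h1, mul_zero, yce_zero, zero_sub]

theorem yce_z0 (h : Cyc p a Q d) (hg : Ga0 GG p Q ga) (hy : y ∈ Irr F (HX F (NQ Q)))
    (h0 : y * ga 1 = 0) (t : TriC Q ga p η θ i ε) :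
    Chv F (HX F (NQ Q)) y (i * (Eo Q ga - ε)) = 0 := by
  have m := sub_mem (eo_irr h hg).1.1 t.irrQ.1.1
  rw [← chv_mul_e (rce_nice _) hy (yce_N hg t.prim.1 m).2, ← (gs_one hg m).2, mul_assoc,
    mul_assoc, Cen_comm hg.cenN hy.1.1, h0, mul_zero, mul_zero, yce_zero]

theorem yce_th0 (h : Cyc p a Q d) (hg : Ga0 GG p Q ga) (hy : y ∈ Irr F (HX F (NQ Q)))
    (h0 : y * θ = 0) (t : TriC Q ga p η θ i ε) :
    Chv F (HX F (NQ Q)) y (i * (Eo Q ga - ε)) = 0 := by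
  have m := sub_mem (eo_irr h hg).1.1 t.irrQ.1.1
  rw [← chv_mul_e (rce_nice _) hy (yce_N hg t.prim.1 m).2, ← t.prim.2.1, mul_assoc i,
    ← yce_comm hg m t.irrK.1.1, mul_assoc, mul_assoc,
    ← Cen_comm hy.1 (yce_N hg t.irrK.1.1 m).1, h0, mul_zero, mul_zero, yce_zero]

theorem mz_specC (h : Cyc p a Q d) (hg : Ga0 GG p Q ga) (he : e ∈ Irr F (HX F (⊤ : Subgroup X))) (hη : η ∈ Irr F (HX F (NQ Q)))
    (t : TriC Q ga p η θ i ε) :
    (mzC Q ga p e η : F) = Chv F (HX F ⊤) e (i * (Eo Q ga - ε)) := by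
  have hex : ∃ z : ℤ, ∃ θ i ε, TriC Q ga p η θ i ε ∧
      Chv F (HX F ⊤) e (i * (Eo Q ga - ε)) = z := by
    obtain ⟨n, hn⟩ := yce_nat hg he t.prim (eo_irr h hg)
    obtain ⟨m, hm⟩ := yce_nat hg he t.prim t.irrQ
    exact ⟨n - m, θ, i, ε, t, by rw [mul_sub, rce_sub, hn, hm]; push_cast; rfl⟩
  rw [mzC, dif_pos hex]
  obtain ⟨θ', i', ε', h', hz⟩ := hex.choose_spec
  rw [← hz]
  obtain ⟨n, hn, h3, h4⟩ := eta_conjC h hg hη t h'
  obtain ⟨c, -, hl, ha, -, hK, -, -⟩ := gm_ad (p := p) (F := F) (GG := ⊤) hn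
  have h0 : c (Eo Q ga) = Eo Q ga := by
    rw [ha, ← Cen_comm (eo_cen hg) (rce_gu hn), mul_assoc, (rcc_inv n).1, mul_one]
  have hp : Prim F (HX F (Kp p Q)) θ' (c i) := by
    rw [h3, ← ha]; exact (TR.of_lin hl hK).prim.2 t.prim
  rw [chv_prim le_top he h'.irrK h'.prim hp (rce_top _) fun s hs =>
      yce_comm hg (sub_mem (eo_irr h hg).1.1 h'.irrQ.1.1) hs,
    ← rce_conj he.1.1 (rce_top (i * (Eo Q ga - ε))) (Subgroup.mem_top n), ← ha, map_mul, map_sub,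
    h0, h4, ← ha]

theorem mz_gmC (h : Cyc p a Q d) (hg : Ga0 GG p Q ga) (hγ : γ ∈ Gm GG Q) (he : e ∈ Irr F (HX F (⊤ : Subgroup X)))
    (hη : η ∈ EtC Q ga) : mzC Q ga p (γ e) (γ η) = mzC Q ga p e η := by
  obtain ⟨θ, i, ε, t⟩ := eta_tri0 h hg hη
  obtain ⟨σ, -, α, hs, -, -, h3, h4, -, h0, -⟩ := gm_autC h hg hγ
  have t1 := TR.of_stb hs hγ.1.2
  have t2 := TR.of_stb hs hγ.2
  have t3 := TR.of_stb hs h3
  have t4 := TR.of_stb hs h4
  have h' : TriC Q ga p (γ η) (γ θ) (γ i) (γ ε) :=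
    ⟨(t4.irr.mem _).2 t.irrK, t4.prim.2 t.prim, (t3.irr.mem _).2 t.irrQ,
      fun k => t.ne (γ.injective (k.trans h0.symm)),
      fun k => t.ov (γ.injective (by rw [map_mul, map_mul, k, map_zero]))⟩
  refine Int.cast_injective (α := F) ?_
  rw [mz_specC h hg ((t1.irr.mem _).2 he) ((t2.irr.mem _).2 hη.1) h', ← h0, ← map_sub, ← map_mul,
    t1.chv (rce_nice ⊤).mcl he.1.1 (rce_top _), ← mz_specC h hg he hη.1 t, map_intCast]

theorem chv_psi_tri (h : Cyc p a Q d) (hg : Ga0 GG p Q ga) (hO : Om GG Q om T) (hψ : ψ ∈ PsC Q ga) (hη : η ∈ EtC Q ga)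
    (t : TriC Q ga p η θ i ε) :
    (Bk F p Q ψ η → Chv F (HX F (NQ Q)) ψ (i * (Eo Q ga - ε)) = 1) ∧
      (¬ Bk F p Q ψ η → Chv F (HX F (NQ Q)) ψ (i * (Eo Q ga - ε)) = 0) := by
  have h1 : η * θ ≠ 0 := fun k => t.ov (by rw [← mul_assoc, k, zero_mul])
  rw [yce_psi h hg hψ t]
  refine ⟨fun k => (chv_psiC h hg hO t.irrK t.prim hψ).1 ?_,
    fun k => (chv_psiC h hg hO t.irrK t.prim hψ).2 (by_contra fun l => k ⟨θ, t.irrK, l, h1⟩)⟩
  obtain ⟨θ', b, c, d⟩ := k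
  exact bk_over hη.1 hψ.1 ⟨θ', b, d, c⟩ t.irrK h1

open Classical in
theorem mz_gramC (h : Cyc p a Q d) (hg : Ga0 GG p Q ga) (hO : Om GG Q om T) (hη : η ∈ EtC Q ga) (hη' : η' ∈ EtC Q ga) :
    ∑ᶠ e ∈ Irr F (HX F (⊤ : Subgroup X)), mzC Q ga p e η * mzC Q ga p e η' =
      if Bk F p Q η η' then ({ψ | ψ ∈ PsC Q ga ∧ Bk F p Q ψ η}.ncard : ℤ) +
        (if η = η' then 1 else 0) else 0 := by
  have := Fintype.ofFinite X
  obtain ⟨t, ht⟩ := exists_Tf (gu_tg (F := F) (X := X))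
  have key : ∀ {θ i ε θ' i' ε' : MonoidAlgebra F X}, TriC Q ga p η θ i ε →
      TriC Q ga p η' θ' i' ε' → ∃ u : Finset (MonoidAlgebra F X),
        (u : Set _) = Irr F (HX F (NQ Q)) ∧
        ((∑ᶠ e ∈ Irr F (HX F (⊤ : Subgroup X)), mzC Q ga p e η * mzC Q ga p e η' : ℤ) : F) =
          ∑ y ∈ u, Chv F (HX F (NQ Q)) y (i * (Eo Q ga - ε)) *
            Chv F (HX F (NQ Q)) y (i' * (Eo Q ga - ε')) := by
    intro θ i ε θ' i' ε' hε hε'
    have m := (yce_N hg hε.prim.1 (sub_mem (eo_irr h hg).1.1 hε.irrQ.1.1)).2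
    have m' := (yce_N hg hε'.prim.1 (sub_mem (eo_irr h hg).1.1 hε'.irrQ.1.1)).2
    obtain ⟨s, hs, h4⟩ := rce_gram ht (rce_top (i * (Eo Q ga - ε))) (rce_top (i' * (Eo Q ga - ε')))
    obtain ⟨u, hu, h5⟩ := rce_gram ht m m'
    refine ⟨u, hu, ?_⟩
    rw [← hs, finsum_mem_coe_finset]
    push_cast
    rw [Finset.sum_congr rfl fun e he => congrArg₂ (· * ·)
        (mz_specC h hg (hs ▸ Finset.mem_coe.2 he) hη.1 hε)
        (mz_specC h hg (hs ▸ Finset.mem_coe.2 he) hη'.1 hε'), h4,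
      ← Finset.sum_subset (s₁ := Finset.univ.filter (· ∈ NQ Q)) (fun g _ => by simp) fun g _ k =>
        yce_ti h ht (singC_mem h hg hε.irrQ hε.prim.1) m' (by simpa using k), ← h5]
  refine Int.cast_injective (α := F) ?_
  by_cases hb : Bk F p Q η η'
  · rw [if_pos hb]
    obtain ⟨θ, hθ, h3, h3'⟩ := hb
    obtain ⟨i, hi⟩ := exists_Prim (rce_nice _) hθ
    obtain ⟨ε, hε⟩ := eta_triC h hg hη hθ h3 hi
    obtain ⟨ε', hε'⟩ := eta_triC h hg hη' hθ h3' hi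
    obtain ⟨u, hu, h5⟩ := key hε hε'
    have hP : {ψ | ψ ∈ PsC Q ga ∧ Bk F p Q ψ η} =
        ↑(u.filter fun ψ => ψ ∈ PsC Q ga ∧ ψ * θ ≠ 0) := by
      ext ψ
      rw [Finset.coe_filter, Set.mem_ofPred_eq, Set.mem_ofPred_eq, ← Finset.mem_coe, hu]
      exact ⟨fun ⟨a, θ', b, c, d⟩ => ⟨a.1, a, bk_over hη.1 a.1 ⟨θ', b, d, c⟩ hθ h3⟩,
        fun ⟨_, a, b⟩ => ⟨a, θ, hθ, b, h3⟩⟩
    have h6 : ∀ y ∈ u, Chv F (HX F (NQ Q)) y (i * (Eo Q ga - ε)) *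
        Chv F (HX F (NQ Q)) y (i * (Eo Q ga - ε')) =
          (if y ∈ PsC Q ga ∧ y * θ ≠ 0 then 1 else 0) +
            if y = η then (if η = η' then 1 else 0) else 0 := fun y hy => by
      have hy : y ∈ Irr F (HX F (NQ Q)) := hu ▸ Finset.mem_coe.2 hy
      have hd : y ∈ PsC Q ga → y ∉ EtC Q ga := fun a b => hy.2.2.1 (a.2.symm.trans b.2.2)
      rcases z_or hg hy with z | z
      · rcases psi_or_etaC h hg hy z with a | a
        · rw [yce_psi h hg a hε, yce_psi h hg a hε', if_neg (fun k : y = η => hd a (k ▸ hη)),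
            add_zero]
          by_cases k : y * θ = 0
          · rw [(chv_psiC h hg hO hθ hi a).2 k, if_neg fun l => l.2 k, mul_zero]
          · rw [(chv_psiC h hg hO hθ hi a).1 k, if_pos ⟨a, k⟩, mul_one]
        · rw [yce_eta h hg a hε, yce_eta h hg a hε', neg_mul_neg, if_neg fun l => hd l.1 a,
            zero_add]
          by_cases k : y = η
          · rw [if_pos k, (chv_etaC h hg hη.1 hε hy).1 k, one_mul]
            by_cases l : η = η'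
            · rw [if_pos l, (chv_etaC h hg hη'.1 hε' hy).1 (k.trans l)]
            · rw [if_neg l, (chv_etaC h hg hη'.1 hε' hy).2 fun m => l (k.symm.trans m)]
          · rw [if_neg k, (chv_etaC h hg hη.1 hε hy).2 k, zero_mul]
      · rw [yce_z0 h hg hy z hε, zero_mul,
          if_neg fun l => hy.2.2.1 ((psC_z hg l.1).symm.trans z),
          if_neg fun l : y = η => hy.2.2.1 ((l ▸ hη.2.1 : y * ga 1 = y).symm.trans z), add_zero]
    rw [h5, hP, Set.ncard_coe_finset]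
    push_cast
    rw [Finset.sum_congr rfl h6, Finset.sum_add_distrib, Finset.sum_boole, Finset.sum_ite_eq',
      if_pos (Finset.mem_coe.1 (hu ▸ hη.1))]
  · obtain ⟨θ, i, ε, hε⟩ := eta_tri0 h hg hη
    obtain ⟨θ', i', ε', hε'⟩ := eta_tri0 h hg hη'
    obtain ⟨u, hu, h5⟩ := key hε hε'
    rw [if_neg hb, h5, Int.cast_zero]
    refine Finset.sum_eq_zero fun y hy => ?_
    have hy : y ∈ Irr F (HX F (NQ Q)) := hu ▸ Finset.mem_coe.2 hy
    by_cases k : y * θ = 0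
    · rw [yce_th0 h hg hy k hε, zero_mul]
    · by_cases k' : y * θ' = 0
      · rw [yce_th0 h hg hy k' hε', mul_zero]
      · refine (hb ⟨θ', hε'.irrK, bk_over hy hη.1 ⟨θ, hε.irrK, k, fun l => hε.ov ?_⟩ hε'.irrK k',
          fun l => hε'.ov ?_⟩).elim <;> rw [← mul_assoc, l, zero_mul]

theorem mz_deg0 (h : Cyc p a Q d) (hg : Ga0 GG p Q ga) (hη : η ∈ EtC Q ga) :
    ∑ᶠ e ∈ Irr F (HX F (⊤ : Subgroup X)), (dg F (HX F ⊤) e : ℤ) * mzC Q ga p e η = 0 := by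
  obtain ⟨t, ht⟩ := exists_Tf (gu_tg (F := F) (X := X))
  obtain ⟨θ, i, ε, hε⟩ := eta_tri0 h hg hη
  obtain ⟨s, hs, -⟩ := (rce_nice (F := F) (⊤ : Subgroup X)).irr_sum
  have k := chv_reg ht (rce_top (i * (Eo Q ga - ε)))
  rw [singC_t ht (singC_mem h hg hε.irrQ hε.prim.1), mul_zero, ← hs, finsum_mem_coe_finset] at k
  refine Int.cast_injective (α := F) ?_
  rw [← hs, finsum_mem_coe_finset]
  push_cast
  rw [← k]
  exact Finset.sum_congr rfl fun e he => by rw [mz_specC h hg (hs ▸ Finset.mem_coe.2 he) hη.1 hε]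

end Pool.Agent.Lib.MP_1ae3da_al.CT
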