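import Pool.Agent.Lib.MP_1ae3da_al.Y.Up
import Pool.Agent.Lib.MP_1ae3da_al.Y.Ce

set_option autoImplicit false
set_option linter.unusedSectionVars false

/-! Traces of the twist and multiplicity differences. -/

namespace Pool.Agent.Lib.MP_1ae3da_al.CT.R5

open Function Submodule

variable {F k X : Type} [Field F] [CharZero F] [IsAlgClosed F] [Field k] [Group X] [Finite X]
  {p a : ℕ} [Fact p.Prime] {O R : Subring F} [IsDiscreteValuationRing O] {r : F → k}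
  {GG : Subgroup (RingAut F)} {Q : Subgroup X} {ga : X → MonoidAlgebra F X} {d : Nz Q}
  {g : MonoidAlgebra O (Nz Q)} {e e' ψ η θ i ε : MonoidAlgebra F X}
  {γ : RingAut (MonoidAlgebra F X)} {om : X → F}
  {T : MonoidAlgebra F X →ₗ[F] MonoidAlgebra F X} {s : MonoidAlgebra F X → ℕ}

variable {V : Lat O X} {t : MonoidAlgebra O (Nz Q)}

theorem Cx.cm (hC : Cx p a O R r GG Q ga d g) (h : Mult V s) (hη : η ∈ EtC Q ga)
    (h1 : TriC Q ga p η θ i ε) :
    (cmC Q ga p s η : F) = V.chF F (cf (MonoidHom.id X) (i * (Eo Q ga - ε))) := by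
  obtain ⟨S, hS, -⟩ := irr_fin (F := F) (⊤ : Subgroup X)
  rw [h, cmC, ← hS, finsum_mem_coe_finset, finsum_mem_coe_finset, Int.cast_sum]
  refine Finset.sum_congr rfl fun e he => ?_
  rw [Int.cast_mul, Int.cast_natCast,
    mz_specC hC.gl.cy hC.ga0 (hS ▸ Finset.mem_coe.2 he) hη.1 h1]

theorem ybala_theta (h : Mult V s) (hθ : θ ∈ Irr F (HX F (Kp p Q)))
    (hi : Prim F (HX F (Kp p Q)) θ i) {x : MonoidAlgebra F X}
    (hc : ∀ y ∈ span F (HX F (Kp p Q)), x * y = y * x) :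
    V.chF F (cf (MonoidHom.id X) (θ * x)) =
      dg F (HX F (Kp p Q)) θ * V.chF F (cf (MonoidHom.id X) (i * x)) := by
  obtain ⟨S, hS, -⟩ := irr_fin (F := F) (⊤ : Subgroup X)
  rw [h, h, ← hS, finsum_mem_coe_finset, finsum_mem_coe_finset, Finset.mul_sum]
  refine Finset.sum_congr rfl fun e he => ?_
  rw [chv_theta le_top (hS ▸ Finset.mem_coe.2 he) hθ hi (rcc_top x) hc, mul_left_comm]

/-- a functional that is constant off `Eo` -/
theorem ybala_fun {d0 : X} (h : Cyc p a Q d0) (hg : Ga0 GG p Q ga) {c : X} (hc : c ∈ CQ Q)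
    (hk : c ∉ Kp p Q) (l : MonoidAlgebra F X →ₗ[F] F) {m : F}
    (hl : ∀ ε ∈ Irr F (Gs Q ga), ε ≠ Eo Q ga → l (Eo Q ga - ε) = m) : l (ga c) = m := by
  classical
  obtain ⟨S, hS, -, e1⟩ := gs_sum h hg
  choose! z _ hz using fun ε (hε : ε ∈ Irr F (Gs Q ga)) => gs_eig h hg hε hc
  have mem : ∀ ε ∈ S, ε ∈ Irr F (Gs Q ga) := fun ε hε => hS ▸ Finset.mem_coe.2 hε
  have e2 : ga c = ∑ ε ∈ S, z ε • ε := by
    rw [← Finset.sum_congr rfl fun ε hε => hz ε (mem ε hε), ← Finset.mul_sum, e1,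
      ← hg.mul c hc 1 (one_mem _), mul_one]
  have o := eo_irr h hg
  have oS : Eo Q ga ∈ S := Finset.mem_coe.1 (hS.symm ▸ o)
  have z1 : z (Eo Q ga) = 1 := smul_left_injective F o.2.2.1
    ((hz _ o).symm.trans ((ga_eo hg hc).trans (one_smul F _).symm))
  have z0 : ∑ ε ∈ S, z ε = 0 := by
    obtain ⟨t, ht⟩ := exists_Tf (gu_tg (F := F) (X := X))
    obtain ⟨x, hx, n⟩ : ∃ x ∈ Kp p Q, t (ga 1 * gu F X x) ≠ 0 := by
      by_contra! k
      exact yca_ne hg (Tf.nondeg gu_tg ht hg.memK k)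
    have b : gu F X x ∈ span F (HX F (Kp p Q)) := subset_span (aga_mem.2 hx)
    rw [ycc_z hg b] at n
    obtain ⟨w, hw, e3⟩ := hg.hom c hc
    have h0 : t (gu F X x * ga c) = 0 := by
      rw [e3, ← mul_assoc]
      exact singC_t ht (yCi_sg hc hk (span_mul gu_tg b hw))
    have h1 : (p : F) ^ a * t (gu F X x * ga c) = (∑ ε ∈ S, z ε) * t (gu F X x * ga 1) := by
      rw [e2, Finset.mul_sum, map_sum, Finset.mul_sum, Finset.sum_mul]
      refine Finset.sum_congr rfl fun ε hε => ?_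
      rw [mul_smul_comm, map_smul, smul_eq_mul, mul_left_comm, gs_t h hg ht (mem ε hε) b]
    rw [h0, mul_zero] at h1
    exact (mul_eq_zero.1 h1.symm).resolve_right n
  have e4 : ∑ ε ∈ S, z ε * l (Eo Q ga - ε) = - l (ga c) := by
    simp only [map_sub, mul_sub, Finset.sum_sub_distrib, ← Finset.sum_mul, z0]
    rw [zero_mul, zero_sub, e2, map_sum]
    simp only [map_smul, smul_eq_mul]
  rw [← Finset.add_sum_erase _ _ oS, sub_self, map_zero, mul_zero, zero_add,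
    Finset.sum_congr rfl fun ε hε => by
      rw [hl ε (mem ε (Finset.mem_of_mem_erase hε)) (Finset.ne_of_mem_erase hε)],
    ← Finset.sum_mul] at e4
  rw [← Finset.add_sum_erase _ _ oS, z1] at z0
  rw [eq_neg_of_add_eq_zero_right z0, neg_one_mul, neg_inj] at e4
  exact e4.symm

/-- `ga (d ^ j) = ∑ ζ ^ j • ε`, `∑ ζ ^ j = 0`, `chv_theta`, `eta_exC`. -/
theorem Cx.bal_trace (hC : Cx p a O R r GG Q ga d g) (h : Mult V s) (hb : BalC Q ga p s)
    (hη : η ∈ EtC Q ga) (hθ : θ ∈ Irr F (HX F (Kp p Q))) (h0 : η * θ ≠ 0)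
    (ht : R5.up O Q t = θ) {j : ℕ} (h1 : 0 < j) (h2 : j < p ^ a) :
    LinearMap.trace O V.V (V.G Q g ^ j * (V.rs Q).act t) =
      ((dg F (HX F (Kp p Q)) θ * cmC Q ga p s η : ℤ) : O) := by
  have hy := hC.gl.cy
  have hg := hC.ga0
  have iv := over_ivt hg hη.1 hη.2.1 hθ h0
  obtain ⟨i, hi⟩ := exists_Prim (rce_nice _) hθ
  have m : (d : X) ^ j ∈ CQ Q := pow_mem hy.dC j
  have com : ∀ y ∈ span F (HX F (Kp p Q)), ga ((d : X) ^ j) * y = y * ga ((d : X) ^ j) :=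
    fun y hy => gs_comm hg (yca_mem m) (rcc_KC hy)
  let l : MonoidAlgebra F X →ₗ[F] F :=
    Matrix.traceLinearMap _ F F ∘ₗ rspR V (MonoidHom.id X) ∘ₗ LinearMap.mulLeft F i
  have hl : ∀ x, l x = V.chF F (cf (MonoidHom.id X) (i * x)) := fun x => rspR_trace V _ _
  have key : l (ga ((d : X) ^ j)) = cmC Q ga p s η := by
    refine ybala_fun hy hg m (fun k => (Nat.le_of_dvd h1 (hy.powK.1 k)).not_gt h2) l
      fun ε hε ne => ?_
    obtain ⟨η', hη', e, -⟩ := eta_exC hy hg hθ iv hε ne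
    have n : η' * (θ * ε) ≠ 0 := e.symm ▸ (irrCC hy hg hε hθ iv).2.2.1
    rw [hl, ← hC.cm h hη' ⟨hθ, hi, hε, ne, n⟩, hb η hη η' hη'
      ⟨θ, hθ, h0, fun o => n (by rw [← mul_assoc, o, zero_mul])⟩]
  refine Subtype.ext ?_
  rw [← map_pow, ← map_mul, ← chF_up_rs, map_mul, map_pow, hC.up, ht, ← hg.pow hy.dC h1,
    com θ hθ.1.1, ybala_theta h hθ hi com, ← hl, key]
  simp

end Pool.Agent.Lib.MP_1ae3da_al.CT.R5
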