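import Pool.Agent.Lib.MP_1ae3da_al.Y.Grp
import Pool.Agent.Lib.MP_1ae3da_al.C.RCi
import Pool.Agent.Lib.MP_1ae3da_al.C.RCc

set_option autoImplicit false
set_option linter.unusedSectionVars false

/-! The blocks of the twisted copy (edited copy of C/RCa). -/

namespace Pool.Agent.Lib.MP_1ae3da_al.CT

open Submodule

variable {p a : ℕ} {F X : Type} [Field F] [CharZero F] [IsAlgClosed F] [Group X] [Finite X]
  [Fact p.Prime] {Q : Subgroup X} {d : X} {ga : X → MonoidAlgebra F X}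
  {GG : Subgroup (RingAut F)} {e e' ε ε' θ θ' i i' ψ ψ' η η' x y b : MonoidAlgebra F X}
  {γ : RingAut (MonoidAlgebra F X)} {om : X → F}
  {T : MonoidAlgebra F X →ₗ[F] MonoidAlgebra F X} {k : Type} [Field k] {O R : Subring F}
  {r : F → k}

theorem Ga0.pow (hg : Ga0 GG p Q ga) {c : X} (hc : c ∈ CQ Q) {j : ℕ} (hj : 0 < j) : ga (c ^ j) = ga c ^ j := by
  induction j, hj using Nat.le_induction with
  | base => rw [pow_one, pow_one]
  | succ j _ ih => rw [pow_succ, hg.mul _ (pow_mem hc j) c hc, ih, pow_succ]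

theorem Ga0.idem (hg : Ga0 GG p Q ga) : ga 1 * ga 1 = ga 1 := by
  rw [← hg.mul 1 (one_mem _) 1 (one_mem _), mul_one]

theorem Ga0.memK (hg : Ga0 GG p Q ga) : ga 1 ∈ span F (HX F (Kp p Q)) := by
  obtain ⟨w, hw, e⟩ := hg.hom 1 (one_mem _)
  rwa [e, gu_one, mul_one]

theorem Ga0.mem (hg : Ga0 GG p Q ga) {c : X} (hc : c ∈ CQ Q) : ga c ∈ span F (HX F (CQ Q)) := by
  obtain ⟨w, hw, e⟩ := hg.hom c hc
  exact e ▸ span_mul gu_tg (rcc_KC hw) (subset_span (aga_mem.2 hc))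

theorem Ga0.conj (hg : Ga0 GG p Q ga) {n c : X} (hn : n ∈ NQ Q) (hc : c ∈ CQ Q) :
    gu F X n * ga c = ga (n * c * n⁻¹) * gu F X n := by
  obtain ⟨γ, hγ, -, e, -⟩ := gm_ad (F := F) (GG := GG) (p := p) hn
  have := hg.nat γ hγ (MulAut.conj n) (fun x => by
    rw [e, gu_mul, gu_mul, MulAut.conj_apply]) c hc
  rw [e, MulAut.conj_apply] at this
  rw [← this, mul_assoc, (rcc_inv n).2, mul_one]

theorem Ga0.cenN (hg : Ga0 GG p Q ga) : ga 1 ∈ Cen F (HX F (NQ Q)) := by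
  refine ⟨span_Hm_mono rcc_KN hg.memK, ?_⟩
  rintro _ ⟨c, -, n, hn, rfl⟩
  rw [mul_smul_comm, smul_mul_assoc, hg.conj hn (one_mem _), mul_one, mul_inv_cancel]

theorem Ga0.inv' (hg : Ga0 GG p Q ga) {c : X} (hc : c ∈ CQ Q) :
    ∃ w ∈ span F (HX F (Kp p Q)), gu F X c * ga 1 = w * ga c := by
  obtain ⟨w, hw, e⟩ := hg.hom c⁻¹ (inv_mem hc)
  refine ⟨w, hw, ?_⟩
  rw [← inv_mul_cancel c, hg.mul _ (inv_mem hc) c hc, ← mul_assoc, ← hg.cen _ (inv_mem hc) c hc, e,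
    mul_assoc w, (rcc_inv c).2, mul_one]

theorem gs_le (hg : Ga0 GG p Q ga) : span F (Gs Q ga) ≤ span F (HX F (CQ Q)) := by
  refine span_le.2 ?_
  rintro _ ⟨s, -, c, hc, rfl⟩
  exact smul_mem _ _ (hg.mem hc)

theorem gs_comm (hg : Ga0 GG p Q ga) (hε : ε ∈ span F (Gs Q ga)) (hx : x ∈ span F (HX F (CQ Q))) : ε * x = x * ε := by
  refine (span_comm' (F := F) ?_ hε).symm
  rintro _ ⟨s, -, c, hc, rfl⟩
  rw [mul_smul_comm, smul_mul_assoc, span_comm' (F := F) (w := ga c) ?_ hx]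
  rintro _ ⟨t, -, z, hz, rfl⟩
  rw [mul_smul_comm, smul_mul_assoc, hg.cen c hc z hz]

theorem gs_one (hg : Ga0 GG p Q ga) (hε : ε ∈ span F (Gs Q ga)) : ga 1 * ε = ε ∧ ε * ga 1 = ε := by
  have k : ga 1 * ε = ε := LinearMap.eqOn_span' (f := LinearMap.mulLeft F (ga 1))
    (g := LinearMap.id) (by
      rintro _ ⟨s, -, c, hc, rfl⟩
      change ga 1 * s • ga c = s • ga c
      rw [mul_smul_comm, ← hg.mul 1 (one_mem _) c hc, one_mul]) hε
  exact ⟨k, (gs_comm hg hε (hg.mem (one_mem _))).trans k⟩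

theorem yca_mem {c : X} (hc : c ∈ CQ Q) : ga c ∈ span F (Gs Q ga) :=
  subset_span ⟨1, one_ne_zero, c, hc, (one_smul F _).symm⟩

theorem yca_cen (hg : Ga0 GG p Q ga) (hε : ε ∈ span F (Gs Q ga)) : ε ∈ Cen F (Gs Q ga) :=
  ⟨hε, fun _ hs => gs_comm hg hε (gs_le hg (subset_span hs))⟩

theorem yca_K (hg : Ga0 GG p Q ga) {z c : X} (hz : z ∈ Kp p Q) (hc : c ∈ CQ Q) :
    ga (z * c) = ga c := by
  rw [hg.mul z (kp_le Q hz) c hc, hg.triv z hz, ← hg.mul 1 (one_mem _) c hc, one_mul]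

theorem yca_ne (hg : Ga0 GG p Q ga) : ga 1 ≠ 0 := fun h => by
  have := hg.inv _ (e0_irr (F := F) (Q := Kp p Q)) fun c hc =>
    (e0_cen.2 _ (aga_mem.2 (rcc_nK (rcc_CN hc)))).symm
  rw [h, mul_zero] at this
  exact (e0_irr (F := F) (Q := Kp p Q)).2.2.1 this.symm

theorem yca_pi (hg : Ga0 GG p Q ga) : ∃ π : MonoidAlgebra F X →ₗ[F] MonoidAlgebra F X,
    π (ga 1) = ga 1 ∧ ∀ c ∈ CQ Q, c ∉ Kp p Q → π (ga c) = 0 := by
  classical
  let π := (MonoidAlgebra.basis X F).constr F fun z => if z ∈ Kp p Q then gu F X z else 0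
  have hπ : ∀ z, π (gu F X z) = if z ∈ Kp p Q then gu F X z else 0 := fun z => by
    have := (MonoidAlgebra.basis X F).constr_basis F
      (fun z => if z ∈ Kp p Q then gu F X z else 0) z
    rwa [MonoidAlgebra.basis_apply] at this
  refine ⟨π, ta_ext (g := LinearMap.id) (fun z hz => by rw [hπ, if_pos hz]; rfl) hg.memK,
    fun c hc hk => ?_⟩
  obtain ⟨w, hw, e⟩ := hg.hom c hc
  rw [e]
  refine ta_ext (f := π ∘ₗ LinearMap.mulRight F (gu F X c)) (g := 0) (fun z hz => ?_) hw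
  change π (gu F X z * gu F X c) = 0
  rw [gu_mul, hπ, if_neg fun m => hk (((Kp p Q).mul_mem_cancel_left hz).1 m)]

theorem yca_split (h : Cyc p a Q d) (hg : Ga0 GG p Q ga) {c : X} (hc : c ∈ CQ Q) :
    ∃ j < p ^ a, ga c = ga (d ^ j) := by
  obtain ⟨z, hz, j, hj, rfl⟩ := h.split hc
  exact ⟨j, hj, yca_K hg hz (pow_mem h.dC j)⟩

/-- independence: multiply by the invariant block `e0 F (Kp p Q)`. -/
theorem nice_Gs (h : Cyc p a Q d) (hg : Ga0 GG p Q ga) : Nice F (Gs Q ga) := by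
  classical
  have hC : Subgroup.zpowers d ≤ CQ Q := Subgroup.zpowers_le.2 h.dC
  have := Fintype.ofFinite (Subgroup.zpowers d)
  refine ⟨Subgroup.zpowers d, inferInstance, inferInstance, fun x => ga x,
    ⟨fun x y => ⟨1, one_ne_zero, by rw [one_smul, ← hg.mul _ (hC x.2) _ (hC y.2)]; rfl⟩, ?_,
      hg.idem⟩, rcc_card _, Set.ext fun z => ⟨?_, ?_⟩⟩
  · obtain ⟨π, h1, h2⟩ := yca_pi hg
    refine Fintype.linearIndependent_iff.2 fun c hc y => ?_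
    have k := congrArg (fun z => π (z * ga (y : X)⁻¹)) hc
    simp only [Finset.sum_mul, smul_mul_assoc, map_sum, map_smul, zero_mul, map_zero] at k
    rw [Finset.sum_eq_single y, ← hg.mul _ (hC y.2) _ (inv_mem (hC y.2)), mul_inv_cancel, h1] at k
    · exact (smul_eq_zero.1 k).resolve_right (yca_ne hg)
    · intro x _ hx
      rw [← hg.mul _ (hC x.2) _ (inv_mem (hC y.2)),
        h2 _ (mul_mem (hC x.2) (inv_mem (hC y.2))) fun m => hx ?_, smul_zero]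
      obtain ⟨j, hj⟩ := (mem_powers_iff_mem_zpowers.2 (x * y⁻¹).2 :)
      have e : d ^ j = x * (y : X)⁻¹ := hj
      rw [← e, h.powK, ← h.ord, orderOf_dvd_iff_pow_eq_one, e, mul_inv_eq_one] at m
      exact Subtype.ext m
    · exact fun m => (m (Finset.mem_univ _)).elim
  · rintro ⟨s, hs, c, hc, rfl⟩
    obtain ⟨j, -, e⟩ := yca_split h hg hc
    exact ⟨s, hs, ⟨d ^ j, pow_mem (Subgroup.mem_zpowers d) j⟩, trivial, by rw [e]⟩
  · rintro ⟨s, hs, x, -, rfl⟩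
    exact ⟨s, hs, x, hC x.2, rfl⟩

theorem ga_eo (hg : Ga0 GG p Q ga) {c : X} (hc : c ∈ CQ Q) : ga c * Eo Q ga = Eo Q ga := by
  have := Fintype.ofFinite (CQ Q)
  rw [Eo, finsum_eq_sum_of_fintype, mul_smul_comm, Finset.mul_sum,
    ← Equiv.sum_comp (Equiv.mulLeft (⟨c, hc⟩ : CQ Q)) fun y : CQ Q => ga y]
  congr 1
  exact Finset.sum_congr rfl fun y _ => (hg.mul c hc y y.2).symm

theorem yca_eo : Eo Q ga ∈ span F (Gs Q ga) := by
  have := Fintype.ofFinite (CQ Q)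
  rw [Eo, finsum_eq_sum_of_fintype]
  exact smul_mem _ _ (sum_mem fun c _ => yca_mem c.2)

theorem yca_eofix (hx : ∀ c ∈ CQ Q, ga c * x = x) : Eo Q ga * x = x := by
  have := Fintype.ofFinite (CQ Q)
  rw [Eo, finsum_eq_sum_of_fintype, smul_mul_assoc, Finset.sum_mul,
    Finset.sum_congr rfl fun (c : CQ Q) _ => hx c c.2, Finset.sum_const, Finset.card_univ,
    ← Nat.card_eq_fintype_card, ← Nat.cast_smul_eq_nsmul F, inv_smul_smul₀ (rcc_card _)]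

/-- the idempotent of a root of unity. -/
noncomputable def ycaE (p a : ℕ) (ga : X → MonoidAlgebra F X) (d : X) (ζ : F) :
    MonoidAlgebra F X :=
  ((p : F) ^ a)⁻¹ • ∑ j ∈ Finset.range (p ^ a), ζ⁻¹ ^ j • ga (d ^ j)

theorem yca_z (h : Cyc p a Q d) {ζ : F} (hζ : ζ ^ p ^ a = 1) : ζ ≠ 0 := fun e => by
  rw [e, zero_pow (pow_pos h.prime.pos a).ne'] at hζ
  exact zero_ne_one hζ

theorem yca_q (h : Cyc p a Q d) : ((p : F) ^ a) ≠ 0 :=
  pow_ne_zero _ (Nat.cast_ne_zero.2 h.prime.ne_zero)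

theorem yca_pow (hg : Ga0 GG p Q ga) {c : X} (hc : c ∈ CQ Q) {ζ : F} (h0 : ga 1 * x = x)
    (h1 : ga c * x = ζ • x) (j : ℕ) : ga (c ^ j) * x = ζ ^ j • x := by
  induction j with
  | zero => rw [pow_zero, pow_zero, one_smul, h0]
  | succ j ih =>
    rw [pow_succ, hg.mul _ (pow_mem hc j) c hc, mul_assoc, h1, mul_smul_comm, ih, smul_smul,
      pow_succ']

theorem ycaE_mem (h : Cyc p a Q d) (ζ : F) : ycaE p a ga d ζ ∈ span F (Gs Q ga) :=
  smul_mem _ _ (sum_mem fun j _ => smul_mem _ _ (yca_mem (pow_mem h.dC j)))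

theorem ycaE_mul (h : Cyc p a Q d) (hg : Ga0 GG p Q ga) {ζ : F} (hζ : ζ ^ p ^ a = 1) :
    ga d * ycaE p a ga d ζ = ζ • ycaE p a ga d ζ := by
  have k := (Finset.sum_range_succ (fun j => ζ⁻¹ ^ j • ga (d ^ j)) (p ^ a)).symm.trans
    (Finset.sum_range_succ' (fun j => ζ⁻¹ ^ j • ga (d ^ j)) (p ^ a))
  have e : d ^ p ^ a = 1 := h.ord ▸ pow_orderOf_eq_one d
  simp only [e, pow_zero] at k
  rw [inv_pow, hζ, inv_one, add_left_inj] at k
  rw [ycaE, mul_smul_comm, smul_comm ζ, Finset.mul_sum]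
  congr 1
  rw [k, Finset.smul_sum]
  refine Finset.sum_congr rfl fun j _ => ?_
  rw [mul_smul_comm, ← hg.mul d h.dC _ (pow_mem h.dC j), smul_smul, pow_succ', pow_succ',
    mul_inv_cancel_left₀ (yca_z h hζ)]

theorem ycaE_fix (h : Cyc p a Q d) (hg : Ga0 GG p Q ga) {ζ : F} (hζ : ζ ^ p ^ a = 1)
    (h0 : ga 1 * x = x) (h1 : ga d * x = ζ • x) : ycaE p a ga d ζ * x = x := by
  rw [ycaE, smul_mul_assoc, Finset.sum_mul, Finset.sum_congr rfl fun j _ =>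
    show (ζ⁻¹ ^ j • ga (d ^ j)) * x = x by
      rw [smul_mul_assoc, yca_pow hg h.dC h0 h1, smul_smul, ← mul_pow,
        inv_mul_cancel₀ (yca_z h hζ), one_pow, one_smul],
    Finset.sum_const, Finset.card_range, ← Nat.cast_smul_eq_nsmul F, Nat.cast_pow,
    inv_smul_smul₀ (yca_q h)]

theorem ycaE_ne (h : Cyc p a Q d) (hg : Ga0 GG p Q ga) (ζ : F) : ycaE p a ga d ζ ≠ 0 := fun e => by
  obtain ⟨π, h1, h2⟩ := yca_pi hg
  have k := congrArg π ((smul_eq_zero.1 e).resolve_left (inv_ne_zero (yca_q h)))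
  rw [map_sum, map_zero, Finset.sum_eq_single 0, pow_zero, pow_zero, one_smul, h1] at k
  · exact yca_ne hg k
  · intro j hj j0
    rw [map_smul, h2 _ (pow_mem h.dC j) fun m => j0 (Nat.eq_zero_of_dvd_of_lt (h.powK.1 m)
      (Finset.mem_range.1 hj)), smul_zero]
  · exact fun m => (m (Finset.mem_range.2 (pow_pos h.prime.pos a))).elim

theorem ycaE_irr (h : Cyc p a Q d) (hg : Ga0 GG p Q ga) {ζ : F} (hζ : ζ ^ p ^ a = 1) :
    ycaE p a ga d ζ ∈ Irr F (Gs Q ga) := by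
  have h0 := (gs_one hg (ycaE_mem h ζ)).1
  refine ⟨yca_cen hg (ycaE_mem h ζ), ycaE_fix h hg hζ h0 (ycaE_mul h hg hζ), ycaE_ne h hg ζ,
    fun z hz => ?_⟩
  have k : span F (Gs Q ga) ≤
      (span F {ycaE p a ga d ζ}).comap (LinearMap.mulRight F (ycaE p a ga d ζ)) := by
    refine span_le.2 ?_
    rintro _ ⟨s, -, c, hc, rfl⟩
    obtain ⟨j, -, e⟩ := yca_split h hg hc
    exact smul_mem _ _ (mem_span_singleton.2
      ⟨_, (e ▸ yca_pow hg h.dC h0 (ycaE_mul h hg hζ) j).symm⟩)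
  obtain ⟨c, hc⟩ := mem_span_singleton.1 (k hz.1)
  exact ⟨c, hc.symm⟩

theorem yca_root (h : Cyc p a Q d) (hg : Ga0 GG p Q ga) (hε : ε ∈ Irr F (Gs Q ga)) {c : X}
    (hc : c ∈ CQ Q) {ζ : F} (e : ga c * ε = ζ • ε) : ζ ^ p ^ a = 1 := by
  have h0 := (gs_one hg hε.1.1).1
  have k := yca_pow hg hc h0 e (p ^ a)
  rw [hg.triv _ (h.powq hc), h0] at k
  exact smul_left_injective F hε.2.2.1 (k.symm.trans (one_smul F _).symm)

theorem eo_irr (h : Cyc p a Q d) (hg : Ga0 GG p Q ga) : Eo Q ga ∈ Irr F (Gs Q ga) := by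
  have h1 : (1 : F) ^ p ^ a = 1 := one_pow _
  have hE := ycaE_irr h hg h1
  have e : Eo Q ga = ycaE p a ga d 1 := by
    rw [← ycaE_fix h hg h1 (ga_eo hg (one_mem _)) ((ga_eo hg h.dC).trans (one_smul F _).symm),
      Cen_comm hE.1 yca_eo]
    refine yca_eofix fun c hc => ?_
    obtain ⟨j, -, e⟩ := yca_split h hg hc
    rw [e, yca_pow hg h.dC (gs_one hg hE.1.1).1 (ycaE_mul h hg h1), one_pow, one_smul]
  exact e ▸ hE

theorem eo_cen (hg : Ga0 GG p Q ga) : Eo Q ga ∈ Cen F (HX F (NQ Q)) := by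
  refine ⟨span_Hm_mono rcc_CN (gs_le hg yca_eo), ?_⟩
  rintro _ ⟨s, -, n, hn, rfl⟩
  have := Fintype.ofFinite (CQ Q)
  rw [mul_smul_comm, smul_mul_assoc, Eo, mul_smul_comm, smul_mul_assoc, finsum_eq_sum_of_fintype,
    Finset.mul_sum, Finset.sum_mul]
  congr 2
  rw [← Equiv.sum_comp (Equiv.subtypeEquiv (MulAut.conj n).toEquiv fun x =>
    Subgroup.mem_normalizer_iff.1 (rcc_nC hn) x) fun c : CQ Q => ga c * gu F X n]
  exact Finset.sum_congr rfl fun c _ => (hg.conj hn c.2).symm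

theorem gs_eig (h : Cyc p a Q d) (hg : Ga0 GG p Q ga) (hε : ε ∈ Irr F (Gs Q ga)) {c : X} (hc : c ∈ CQ Q) :
    ∃ ζ : F, ζ ^ p ^ a = 1 ∧ ga c * ε = ζ • ε := by
  obtain ⟨ζ, e⟩ := hε.2.2.2 _ (yca_cen hg (yca_mem hc))
  exact ⟨ζ, yca_root h hg hε hc e, e⟩

theorem gs_form (h : Cyc p a Q d) (hg : Ga0 GG p Q ga) (hε : ε ∈ Irr F (Gs Q ga)) {ζ : F} (h1 : ga d * ε = ζ • ε) :
    ε = ((p : F) ^ a)⁻¹ • ∑ j ∈ Finset.range (p ^ a), ζ⁻¹ ^ j • ga (d ^ j) := by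
  have hζ := yca_root h hg hε h.dC h1
  by_contra n
  exact hε.2.2.1 ((ycaE_fix h hg hζ (gs_one hg hε.1.1).1 h1).symm.trans
    (Irr_orth (ycaE_irr h hg hζ) hε (Ne.symm n)))

theorem gs_ext (h : Cyc p a Q d) (hg : Ga0 GG p Q ga) (hε : ε ∈ Irr F (Gs Q ga)) (hε' : ε' ∈ Irr F (Gs Q ga)) {ζ : F}
    (h1 : ga d * ε = ζ • ε) (h2 : ga d * ε' = ζ • ε') : ε = ε' := by
  rw [gs_form h hg hε h1, gs_form h hg hε' h2]

theorem gs_ex (h : Cyc p a Q d) (hg : Ga0 GG p Q ga) {ζ : F} (hζ : ζ ^ p ^ a = 1) :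
    ∃ ε ∈ Irr F (Gs Q ga), ga d * ε = ζ • ε := by
  exact ⟨_, ycaE_irr h hg hζ, ycaE_mul h hg hζ⟩

theorem yca_prim (h : Cyc p a Q d) : ∃ ζ : F, IsPrimitiveRoot ζ (p ^ a) := by
  have : NeZero ((p ^ a : ℕ) : F) := ⟨by rw [Nat.cast_pow]; exact yca_q h⟩
  exact HasEnoughRootsOfUnity.exists_primitiveRoot F (p ^ a)

theorem gs_ne (h : Cyc p a Q d) (hg : Ga0 GG p Q ga) : ∃ ε ∈ Irr F (Gs Q ga), ε ≠ Eo Q ga := by
  obtain ⟨ζ, hζ⟩ := yca_prim (F := F) h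
  obtain ⟨ε, hε, e⟩ := gs_ex h hg hζ.pow_eq_one
  refine ⟨ε, hε, fun k => hζ.ne_one (Nat.one_lt_pow (by have := h.two; omega) h.prime.one_lt)
    (smul_left_injective F hε.2.2.1 ?_)⟩
  change ζ • ε = 1 • ε
  rw [← e, k, ga_eo hg h.dC, one_smul]

theorem gs_sum (h : Cyc p a Q d) (hg : Ga0 GG p Q ga) : ∃ s : Finset (MonoidAlgebra F X), (s : Set _) = Irr F (Gs Q ga) ∧
    s.card = p ^ a ∧ ∑ ε ∈ s, ε = ga 1 := by
  classical
  obtain ⟨s, hs, e⟩ := (nice_Gs h hg).irr_sum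
  obtain ⟨ζ, hζ⟩ := yca_prim (F := F) h
  have q0 := pow_pos h.prime.pos a
  refine ⟨s, hs, ?_, Eq.trans (Finset.sum_congr rfl fun ε hε => (gs_one hg
    (hs.le (Finset.mem_coe.2 hε)).1.1).1.symm) (e _ (yca_mem (one_mem _)))⟩
  rw [← hζ.card_nthRootsFinset]
  refine (Finset.card_bij (fun z _ => ycaE p a ga d z) (fun z hz => Finset.mem_coe.1 (hs.ge
    (ycaE_irr h hg ((Polynomial.mem_nthRootsFinset q0 1).1 hz)))) (fun z hz z' hz' k => ?_)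
    fun ε hε => ?_).symm
  · have k1 := ycaE_mul h hg ((Polynomial.mem_nthRootsFinset q0 1).1 hz)
    rw [k, ycaE_mul h hg ((Polynomial.mem_nthRootsFinset q0 1).1 hz')] at k1
    exact (smul_left_injective F (ycaE_ne h hg z') k1).symm
  · have m := hs.le (Finset.mem_coe.2 hε)
    obtain ⟨z, hz, k⟩ := gs_eig h hg m h.dC
    exact ⟨z, (Polynomial.mem_nthRootsFinset q0 1).2 hz, (gs_form h hg m k).symm⟩

theorem gs_free (h : Cyc p a Q d) (hg : Ga0 GG p Q ga) (hε : ε ∈ Irr F (Gs Q ga)) (h0 : ε ≠ Eo Q ga) {n : X}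
    (hn : n ∈ NQ Q) (hc : n ∉ CQ Q) : ε * gu F X n * ε = 0 := by
  obtain ⟨ζ, hζ, e⟩ := gs_eig h hg hε h.dC
  obtain ⟨j, hj, m⟩ := h.cj hn
  have j0 : 0 < j := Nat.pos_of_ne_zero fun k => hj (k ▸ dvd_zero p)
  have k1 : ga (n * d * n⁻¹) = ga (d ^ j) := by
    rw [← yca_K hg m (pow_mem h.dC j), inv_mul_cancel_right]
  have k : ζ ^ j • (ε * gu F X n * ε) = ζ • (ε * gu F X n * ε) := by
    rw [← smul_mul_assoc, ← smul_mul_assoc, ← yca_pow hg h.dC (gs_one hg hε.1.1).1 e j,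
      ← gs_comm hg hε.1.1 (hg.mem (pow_mem h.dC j)), mul_assoc ε, ← k1, ← hg.conj hn h.dC,
      mul_assoc, mul_assoc, e]
    simp only [mul_smul_comm, mul_assoc]
  by_contra n0
  have k2 : ζ ^ j = ζ := smul_left_injective F n0 k
  obtain ⟨l, rfl⟩ : ∃ l, j = l + 1 := ⟨j - 1, by omega⟩
  rw [pow_succ, mul_eq_right₀ (yca_z h hζ)] at k2
  have k3 : (p ^ a).Coprime l := Nat.Coprime.pow_left _ ((h.prime.coprime_iff_not_dvd).2
    fun t => h.free hn hc m (by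
      simpa using Nat.ModEq.add_right 1 ((Nat.modEq_zero_iff_dvd).2 t)))
  obtain rfl := (pow_eq_one_iff_of_coprime k3).1 ⟨hζ, k2⟩
  exact h0 (gs_ext h hg hε (eo_irr h hg) e ((ga_eo hg h.dC).trans (one_smul F _).symm))

end Pool.Agent.Lib.MP_1ae3da_al.CT
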