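import Pool.Agent.Lib.MP_1ae3da_al.Y.TwG
import Pool.Agent.Lib.MP_1ae3da_al.Y.Ca
import Pool.Agent.Lib.MP_1ae3da_al.Y.Ga2
import Pool.Agent.Lib.MP_1ae3da_al.C.RLMM
import Pool.Agent.Lib.MP_1ae3da_al.C.RSp
import Pool.Agent.Lib.MP_1ae3da_al.C.RLWt

set_option autoImplicit false
set_option linter.unusedSectionVars false

/-! The twisted generator as an element of the group ring of the normaliser over `O`. -/

namespace Pool.Agent.Lib.MP_1ae3da_al.CT.R5

open Function Submodule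

variable {F X Y : Type} [Field F] [Group X] [Group Y] {O : Subring F} {Q : Subgroup X}

theorem up_of (y : Nz Q) : up O Q (MonoidAlgebra.of O (Nz Q) y) = gu F X y :=
  MonoidAlgebra.lift_of _ y

theorem up_smul (c : O) (w : MonoidAlgebra O (Nz Q)) : up O Q (c • w) = (c : F) • up O Q w :=
  map_smul _ c w

theorem brg_sum [Fintype Y] (w : MonoidAlgebra O Y) :
    w = ∑ y, w.coeff y • MonoidAlgebra.of O Y y := by
  conv_lhs => rw [← w.sum_coeff_single, Finsupp.sum_fintype _ _ fun y => by simp]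
  exact Finset.sum_congr rfl fun y _ => by simp

theorem up_eq [Fintype (Nz Q)] (w : MonoidAlgebra O (Nz Q)) :
    up O Q w = ∑ y, ((w.coeff y : O) : F) • gu F X (y : X) := by
  conv_lhs => rw [brg_sum w, map_sum]
  exact Finset.sum_congr rfl fun y _ => by rw [up_smul, up_of]

variable [Finite X] [CharZero F] [IsAlgClosed F] [IsDiscreteValuationRing O]

theorem up_coeff (w : MonoidAlgebra O (Nz Q)) (y : Nz Q) :
    (up O Q w).coeff (y : X) = ((w.coeff y : O) : F) := by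
  have := Fintype.ofFinite (Nz Q)
  rw [up_eq]
  exact rlmr_sum (Nz Q).subtype_injective (fun z => ((w.coeff z : O) : F)) y

theorem up_inj : Injective (up O Q) := fun w w' h =>
  MonoidAlgebra.ext (Finsupp.ext fun y => Subtype.ext (by rw [← up_coeff, ← up_coeff, h]))

theorem up_mem (w : MonoidAlgebra O (Nz Q)) : up O Q w ∈ span F (HX F (Nz Q)) := by
  have := Fintype.ofFinite (Nz Q)
  rw [up_eq]
  exact sum_mem fun y _ => smul_mem _ _ (rlmm_mem (Nz Q).range_subtype y)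

theorem up_ex {b : MonoidAlgebra F X} (hb : b ∈ span F (HX F (Nz Q))) (hi : ∀ x, b.coeff x ∈ O) :
    ∃ w, up O Q w = b := by
  refine ⟨MonoidAlgebra.ofCoeff (Finsupp.equivFunOnFinite.symm fun y => ⟨b.coeff (y : X), hi _⟩),
    rsp_ext (Nz Q).range_subtype (up_mem _) hb (funext fun y => ?_)⟩
  exact up_coeff _ y

/-- the same for elements over a subgroup of the normaliser -/
theorem up_ex_spn {H : Subgroup X} (hH : H ≤ Nz Q) {b : MonoidAlgebra F X}
    (hb : b ∈ span F (HX F H)) (hi : ∀ x, b.coeff x ∈ O) :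
    ∃ w ∈ spn O (H.subgroupOf (Nz Q)), up O Q w = b := by
  obtain ⟨w, hw⟩ := up_ex (span_mono (Hm_mono hH) hb) hi
  refine ⟨w, mem_spn fun y hy => by_contra fun k => hy (Subtype.ext ?_), hw⟩
  rw [← up_coeff, hw]
  exact gamc_zero hb k

theorem up_spn {H : Subgroup X} {w : MonoidAlgebra O (Nz Q)}
    (hw : w ∈ spn O (H.subgroupOf (Nz Q))) : up O Q w ∈ span F (HX F H) := by
  induction hw using span_induction with
  | mem x hx =>
    obtain ⟨y, hy, rfl⟩ := hx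
    rw [up_of]
    exact gam_gu hy
  | zero => rw [map_zero]; exact zero_mem _
  | add x y _ _ h1 h2 => rw [map_add]; exact add_mem h1 h2
  | smul c x _ h => rw [up_smul]; exact smul_mem _ _ h

/-- a linear map that sends group elements to matrices of a representation -/
theorem up_mF {U : Type} [AddCommGroup U] [Module O U] {n : ℕ}
    (b : Module.Basis (Fin n) O U) (σ : Nz Q →* Module.End O U)
    {ρ : MonoidAlgebra F X →ₗ[F] Matrix (Fin n) (Fin n) F}
    (h : ∀ y : Nz Q, ρ (gu F X y) = mF b (σ y)) (w : MonoidAlgebra O (Nz Q)) :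
    ρ (up O Q w) = mF b (act σ w) := by
  have := Fintype.ofFinite (Nz Q)
  rw [up_eq, act_eq, finsum_eq_sum_of_fintype, map_sum, mF_sum]
  exact Finset.sum_congr rfl fun y _ => by rw [map_smul, h, mF_smul]

theorem MR.up {M : Lat O (Nz Q)} {n : ℕ} {b : Module.Basis (Fin n) O M.V}
    {ρ : MonoidAlgebra F X →ₗ[F] Matrix (Fin n) (Fin n) F}
    (h : MR (Nz Q) (Nz Q).subtype M b ρ) (w : MonoidAlgebra O (Nz Q)) :
    ρ (up O Q w) = mF b (M.act w) :=
  up_mF b M.ρ h.val w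

theorem MR.up_rs {V : Lat O X} {n : ℕ} {b : Module.Basis (Fin n) O V.V}
    {ρ : MonoidAlgebra F X →ₗ[F] Matrix (Fin n) (Fin n) F} (h : MR ⊤ (MonoidHom.id X) V b ρ)
    (w : MonoidAlgebra O (Nz Q)) : ρ (R5.up O Q w) = mF b ((V.rs Q).act w) :=
  up_mF b (V.rs Q).ρ (fun y => h.val (y : X)) w

theorem rspR_up (M : Lat O (Nz Q)) (w : MonoidAlgebra O (Nz Q)) :
    rspR M (Nz Q).subtype (up O Q w) = rspM M (M.act w) := by
  have := Fintype.ofFinite (Nz Q)
  rw [up_eq, act_eq, finsum_eq_sum_of_fintype, map_sum, map_sum]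
  exact Finset.sum_congr rfl fun y _ => by
    rw [map_smul, rspM_smul]
    exact congrArg _ (rspR_gu M (Nz Q).subtype_injective y)

theorem rspR_up_rs (V : Lat O X) (w : MonoidAlgebra O (Nz Q)) :
    rspR V (MonoidHom.id X) (up O Q w) = rspM V ((V.rs Q).act w) := by
  have := Fintype.ofFinite (Nz Q)
  rw [up_eq, act_eq, finsum_eq_sum_of_fintype, map_sum, map_sum]
  exact Finset.sum_congr rfl fun y _ => by
    rw [map_smul, rspM_smul]
    exact congrArg _ (rspR_gu V (ι := MonoidHom.id X) injective_id (y : X))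

theorem chF_up (M : Lat O (Nz Q)) (w : MonoidAlgebra O (Nz Q)) :
    M.chF F (cf (Nz Q).subtype (up O Q w)) = ((LinearMap.trace O M.V (M.act w) : O) : F) := by
  rw [← rspR_trace, rspR_up, rspM_trace]

theorem chF_up_rs (V : Lat O X) (w : MonoidAlgebra O (Nz Q)) :
    V.chF F (cf (MonoidHom.id X) (up O Q w)) =
      ((LinearMap.trace O V.V ((V.rs Q).act w) : O) : F) := by
  rw [← rspR_trace, rspR_up_rs, rspM_trace]

variable {p a : ℕ} [Fact p.Prime] {ga : X → MonoidAlgebra F X} {GG : Subgroup (RingAut F)}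

theorem brg_KN : Kp p Q ≤ Nz Q := (kp_le Q).trans (Subgroup.centralizer_le_normalizer _)

/-- the twist depends only on the class modulo the complement -/
theorem brg_ga_K (hg : Ga0 GG p Q ga) {x c : X} (hx : x ∈ Kp p Q) (hc : c ∈ CQ Q) :
    ga (x * c) = ga c := by
  rw [hg.mul _ (kp_le Q hx) _ hc, hg.triv _ hx, ← hg.mul _ (one_mem _) _ hc, one_mul]

/-- the twist of an element of the centraliser, over `O` -/
theorem brg_w (hg : Ga0 GG p Q ga) (hi : ∀ c ∈ CQ Q, ∀ z, (ga c).coeff z ∈ O) {c : Nz Q}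
    (hc : (c : X) ∈ CQ Q) :
    ∃ w ∈ spn O (KN p Q), up O Q (w * MonoidAlgebra.of O (Nz Q) c) = ga c := by
  obtain ⟨b, hb, e⟩ := hg.hom c hc
  have e1 : b = ga c * gu F X (c : X)⁻¹ := by
    rw [e, mul_assoc, gu_mul, mul_inv_cancel, gu_one, mul_one]
  obtain ⟨w, hw, e2⟩ := up_ex_spn (O := O) brg_KN hb fun x => by
    rw [e1, rlmm_r]
    exact hi c hc _
  exact ⟨w, hw, by rw [map_mul, e2, up_of, e]⟩

theorem brg_lo {d : Nz Q} (h : Cyc p a Q (d : X)) (hg : Ga0 GG p Q ga)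
    (hi : ∀ c ∈ CQ Q, ∀ z, (ga c).coeff z ∈ O) :
    ∃ g : MonoidAlgebra O (Nz Q), Lo p a (KN p Q) d g ∧ up O Q g = ga d := by
  obtain ⟨w, hw, e⟩ := brg_w hg hi (c := d) h.dC
  refine ⟨_, ⟨Nat.lt_of_lt_of_le Nat.zero_lt_two h.two, ⟨fun k hk n => kp_conj n.2 hk⟩, ?_, ?_, ?_,
    fun n => h.cj n.2, up_inj ?_, ⟨w, hw, rfl⟩, fun y j j0 hk => up_inj ?_⟩, e⟩
  · rw [Nat.card_congr (Subgroup.subgroupOfEquivOfLe brg_KN).toEquiv]
    exact h.kcard
  · rw [← h.ord, Subgroup.orderOf_coe]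
  · rw [h.sup]
    exact h.indC
  · rw [map_pow, e, ← hg.pow h.dC (Nat.succ_pos _), pow_succ, ← h.ord, pow_orderOf_eq_one,
      one_mul]
  · have hk' : (y : X) * d * (y : X)⁻¹ * ((d : X) ^ j)⁻¹ ∈ Kp p Q := hk
    rw [map_mul, map_mul (up O Q) (_ ^ j), map_pow, e, up_of, ← hg.pow h.dC j0,
      hg.conj y.2 h.dC, ← inv_mul_cancel_right ((y : X) * d * (y : X)⁻¹) ((d : X) ^ j),
      brg_ga_K hg hk' (pow_mem h.dC j)]

/-- the whole setting exists -/
theorem brg_cx {k : Type} [Field k] {R : Subring F} {r : F → k} (hP : PM p O R r GG) {d : X}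
    (h : Cyc p a Q d) : ∃ (ga : X → MonoidAlgebra F X) (d' : Nz Q) (g : MonoidAlgebra O (Nz Q)),
      (d' : X) = d ∧ Cx p a O R r GG Q ga d' g ∧ ∀ c ∈ CQ Q, ∀ z, (ga c).coeff z ∈ O := by
  obtain ⟨ga, hg, hi⟩ := ga_ex hP h
  obtain ⟨g, h1, h2⟩ := brg_lo (d := ⟨d, Subgroup.centralizer_le_normalizer _ h.dC⟩) h hg hi
  exact ⟨ga, _, g, rfl, ⟨hP, ⟨h, h1⟩, hg, h2⟩, hi⟩

section model

variable {d : Nz Q} {M : Lat O (Nz Q)} {g : MonoidAlgebra O (Nz Q)} {n : ℕ}
  {b : Module.Basis (Fin n) O M.V} {ρ : MonoidAlgebra F X →ₗ[F] Matrix (Fin n) (Fin n) F}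
  {ψ : MonoidAlgebra F X}

theorem brg_memN (hg : Ga0 GG p Q ga) {c : X} (hc : c ∈ CQ Q) :
    ga c ∈ span F (HX F (Nz Q)) :=
  span_mono (Hm_mono (Subgroup.centralizer_le_normalizer _)) (hg.mem hc)

/-- every twist is a positive power of the twisted generator -/
theorem brg_pow (h : Cyc p a Q (d : X)) (hg : Ga0 GG p Q ga) (e : up O Q g = ga d) {c : X}
    (hc : c ∈ CQ Q) : ∃ j : ℕ, ga c = up O Q (g ^ (j + 1)) := by
  obtain ⟨k, hk, j, -, rfl⟩ := h.split hc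
  have hq : 0 < p ^ a := pow_pos h.prime.pos a
  refine ⟨p ^ a - 1 + j, ?_⟩
  rw [map_pow, e, ← hg.pow h.dC (Nat.succ_pos _), brg_ga_K hg hk (pow_mem h.dC j),
    show (p ^ a - 1 + j).succ = p ^ a + j by omega, pow_add, ← h.ord, pow_orderOf_eq_one, one_mul]

/-- all twists act trivially when the twisted generator does -/
theorem brg_ga (h : Cyc p a Q (d : X)) (hg : Ga0 GG p Q ga) (e : up O Q g = ga d)
    (m : MR (Nz Q) (Nz Q).subtype M b ρ) (hM : M.act g = 1) {c : X} (hc : c ∈ CQ Q) :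
    ρ (ga c) = 1 := by
  obtain ⟨j, ej⟩ := brg_pow h hg e hc
  rw [ej, m.up, map_pow, hM, one_pow, mF_one]

theorem brg_eo (h : Cyc p a Q (d : X)) (hg : Ga0 GG p Q ga) (e : up O Q g = ga d)
    (m : MR (Nz Q) (Nz Q).subtype M b ρ) (hM : M.act g = 1) : ρ (Eo Q ga) = 1 := by
  have := Fintype.ofFinite (CQ Q)
  rw [Eo, finsum_eq_sum_of_fintype, map_smul, map_sum,
    Finset.sum_congr rfl fun c _ => brg_ga h hg e m hM c.2, Finset.sum_const, Finset.card_univ,
    ← Nat.card_eq_fintype_card, ← Nat.cast_smul_eq_nsmul F, inv_smul_smul₀ (rlmm_card (CQ Q))]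

/-- the idempotent of a lattice with trivial twist -/
theorem idem_psC (h : Cyc p a Q (d : X)) (hg : Ga0 GG p Q ga) (e : up O Q g = ga d)
    (hS : M.Sca) (hn : Nontrivial M.V) (hM : M.act g = 1) (he : ψ ∈ span F (HX F (Nz Q)))
    (hi : M.Idem F (cf (Nz Q).subtype ψ)) : ψ ∈ PsC Q ga := by
  obtain ⟨b, ρ, m⟩ := exists_MR (F := F) (Nz Q).subtype_injective (Nz Q).range_subtype M
  obtain ⟨k, l⟩ := m.mm hS hn he hi
  have s := (eo_cen hg).1
  have z := l.inj _ (sub_mem s rlmm_one) (by rw [map_sub, brg_eo h hg e m hM, m.one, sub_self])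
  rw [sub_mul, one_mul, sub_eq_zero] at z
  exact ⟨k, (Cen_comm k.1 s).trans z⟩

/-- conversely -/
theorem psC_one (h : Cyc p a Q (d : X)) (hg : Ga0 GG p Q ga) (e : up O Q g = ga d)
    (hS : M.Sca) (hn : Nontrivial M.V) (hψ : ψ ∈ PsC Q ga)
    (hi : M.Idem F (cf (Nz Q).subtype ψ)) : M.act g = 1 := by
  obtain ⟨b, ρ, m⟩ := exists_MR (F := F) (Nz Q).subtype_injective (Nz Q).range_subtype M
  obtain ⟨k, l⟩ := m.mm hS hn hψ.1.1.1 hi
  have h1 : ga d * ψ = ψ := by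
    rw [← hψ.2, Cen_comm k.1 (eo_cen hg).1, ← mul_assoc, ga_eo hg h.dC]
  have h2 := l.mul _ (brg_memN hg h.dC) _ hψ.1.1.1
  rw [h1, l.one, mul_one, ← e, m.up, ← mF_one (b := b)] at h2
  exact (mF_inj b h2).symm

variable {k : Type} [Field k] {R : Subring F} {r : F → k} {M' : Lat O (Nz Q)}
  {ψ' : MonoidAlgebra F X}

theorem Cx.sca (h : Cx p a O R r GG Q ga d g) (hM : Good g M) : M.Sca :=
  (h.gl.lo.av h.pm.wt).sca h.pm.wt hM.one hM.ir

theorem Cx.rk (h : Cx p a O R r GG Q ga d g) (hM : Good g M) : ¬ p ∣ M.rk :=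
  (h.gl.lo.av h.pm.wt).rk h.pm.wt hM.one hM.ir

/-- a good lattice has a block -/
theorem Good.ex (hM : Good g M) : ∃ ψ : MonoidAlgebra F X, GoodB Q g M ψ := by
  obtain ⟨ψ, he, hi⟩ := idem_ex (F := F) (Nz Q).subtype_injective (Nz Q).range_subtype M
  exact ⟨ψ, hM, he, hi⟩

theorem GoodB.uniq (h1 : GoodB Q g M ψ) (h2 : GoodB Q g M ψ') : ψ = ψ' :=
  cf_ext (Nz Q).subtype_injective (Nz Q).range_subtype h1.mem h2.mem (funext fun y =>
    mul_left_cancel₀ (rlmm_card (F := F) (Nz Q)) ((h1.idm y).trans (h2.idm y).symm))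

theorem Cx.psC (h : Cx p a O R r GG Q ga d g) (hM : GoodB Q g M ψ) : ψ ∈ PsC Q ga :=
  idem_psC h.gl.cy h.ga0 h.up (h.sca hM.good) hM.good.ir.1 hM.good.one hM.mem hM.idm

theorem Cx.chv (h : Cx p a O R r GG Q ga d g) (hM : GoodB Q g M ψ) (y : Nz Q) :
    Chv F (HX F (Nz Q)) ψ (gu F X y) = ((M.ch y : O) : F) :=
  (idem_irr (Nz Q).subtype_injective (Nz Q).range_subtype (h.sca hM.good) hM.good.ir.1 hM.mem
    hM.idm).2 y

theorem Cx.mm (h : Cx p a O R r GG Q ga d g) (hM : GoodB Q g M ψ)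
    (m : MR (Nz Q) (Nz Q).subtype M b ρ) : MM F (HX F (Nz Q)) ψ ρ :=
  (m.mm (h.sca hM.good) hM.good.ir.1 hM.mem hM.idm).2

/-- good lattices with the same block are isomorphic -/
theorem Cx.iso (h : Cx p a O R r GG Q ga d g) (h1 : GoodB Q g M ψ) (h2 : GoodB Q g M' ψ) :
    ∃ f : M.V →ₗ[O] M'.V, M.Hom M' f ∧ Bijective f :=
  (h.gl.lo.av h.pm.wt).iso h.pm.wt h1.good.one h1.good.ir h2.good.one h2.good.ir fun y =>
    Subtype.ext ((h.chv h1 y).symm.trans (h.chv h2 y))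

/-- the character of the block on the group ring over `O` -/
theorem Cx.chv_up (h : Cx p a O R r GG Q ga d g) (hM : GoodB Q g M ψ)
    (w : MonoidAlgebra O (Nz Q)) :
    Chv F (HX F (Nz Q)) ψ (R5.up O Q w) = ((LinearMap.trace O M.V (M.act w) : O) : F) := by
  obtain ⟨b, ρ, m⟩ := exists_MR (F := F) (Nz Q).subtype_injective (Nz Q).range_subtype M
  rw [(h.mm hM m).chv (rsp_nice _).mcl hM.mem (up_mem w), m.up, mF_trace]

end model

end Pool.Agent.Lib.MP_1ae3da_al.CT.R5
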