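import Pool.Agent.Lib.MP_1ae3da_al.C.RCb
import Pool.Agent.Lib.MP_1ae3da_al.C.RCe

set_option autoImplicit false
set_option linter.unusedSectionVars false

/-! Characters on a block of a subgroup. -/

namespace Pool.Agent.Lib.MP_1ae3da_al.CT

open Submodule

variable {p a : ℕ} {F X : Type} [Field F] [CharZero F] [IsAlgClosed F] [Group X] [Finite X]
  [Fact p.Prime] {Q : Subgroup X} {d : X} {ga : X → MonoidAlgebra F X}
  {GG : Subgroup (RingAut F)} {e e' ε ε' θ θ' i i' ψ ψ' η η' x y b : MonoidAlgebra F X}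
  {γ : RingAut (MonoidAlgebra F X)} {om : X → F}
  {T : MonoidAlgebra F X →ₗ[F] MonoidAlgebra F X} {k : Type} [Field k] {O R : Subring F}
  {r : F → k}

theorem chv_theta {H K : Subgroup X} (hK : K ≤ H) (he : e ∈ Irr F (HX F H))
    (hθ : θ ∈ Irr F (HX F K)) (hi : Prim F (HX F K) θ i) (hx : x ∈ span F (HX F H))
    (hc : ∀ s ∈ span F (HX F K), x * s = s * x) :
    Chv F (HX F H) e (θ * x) = dg F (HX F K) θ * Chv F (HX F H) e (i * x) := by
  have hS := rce_nice (F := F) K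
  have c : Mcl F (HX F H) := gu_tg.mcl H
  have u : span F (HX F K) ≤ span F (HX F H) := span_mono (Hm_mono hK)
  obtain ⟨n, ρ, m⟩ := exists_MM hS hθ
  obtain ⟨l, hl⟩ := Chv_lin (F := F) (HX F H) e
  obtain ⟨s, hs⟩ := m.tracial hS hθ (l ∘ₗ LinearMap.mulRight F x) fun a ha b hb => by
    simp only [LinearMap.comp_apply, LinearMap.mulRight_apply, hl]
    rw [mul_assoc a, chv_comm c he.1.1 (u ha) (c _ (u hb) _ hx), mul_assoc, hc a ha, ← mul_assoc]
  have h1 := hs θ hθ.1.1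
  have h2 := hs i hi.1
  simp only [LinearMap.comp_apply, LinearMap.mulRight_apply, hl] at h1 h2
  rw [hθ.2.1, ← Chv_eq hS hθ m hθ.1.1, chv_self hS hθ] at h1
  rw [hi.2.1, ← Chv_eq hS hθ m hi.1, hi.chv hS hθ, mul_one] at h2
  rw [h1, h2, mul_comm]

theorem chv_t {H : Subgroup X} {t : MonoidAlgebra F X →ₗ[F] F} (ht : Tf F (gu F X) t)
    (he : e ∈ Irr F (HX F H)) (hb : b ∈ span F (HX F H)) :
    (Nat.card H : F) * t (b * e) = dg F (HX F H) e * Chv F (HX F H) e b := by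
  have hS := rce_nice (F := F) H
  obtain ⟨n, ρ, h⟩ := exists_MM hS he
  rw [MM.t_eq gu_tg ht (Nat.cast_ne_zero.2 Nat.card_pos.ne') he h hb, h.size hS he,
    Chv_eq hS he h hb]

theorem chv_reg {H : Subgroup X} {t : MonoidAlgebra F X →ₗ[F] F} (ht : Tf F (gu F X) t)
    (hb : b ∈ span F (HX F H)) :
    ∑ᶠ e ∈ Irr F (HX F H), (dg F (HX F H) e : F) * Chv F (HX F H) e b = Nat.card H * t b := by
  obtain ⟨s, hs, h⟩ := (rce_nice (F := F) H).irr_sum
  rw [← hs, finsum_mem_coe_finset, ← Finset.sum_congr rfl fun e he =>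
    chv_t ht (hs ▸ Finset.mem_coe.2 he) hb, ← Finset.mul_sum, ← map_sum, h b hb]

theorem irr_fin (H : Subgroup X) : ∃ s : Finset (MonoidAlgebra F X),
    (s : Set _) = Irr F (HX F H) ∧ ∑ e ∈ s, e = 1 := by
  obtain ⟨s, hs, h⟩ := (rce_nice (F := F) H).irr_sum
  have h1 := h 1 (gu_one (F := F) (X := X) ▸ rce_gu (one_mem H))
  simp only [one_mul] at h1
  exact ⟨s, hs, h1⟩

theorem dg_pos {H : Subgroup X} (he : e ∈ Irr F (HX F H)) : 0 < dg F (HX F H) e := by
  exact (Dg_sq (rce_nice H) he).2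

theorem irrK_ndvd {K : Subgroup X} (hK : ¬ p ∣ Nat.card K) (hθ : θ ∈ Irr F (HX F K)) :
    ¬ p ∣ dg F (HX F K) θ := by
  have hp : p.Prime := Fact.out
  intro hd
  have h9 := ((dvd_Dg_iff (rce_nice K) hθ hp).2 hd).trans (Dg_dvd (L := ⊥) bot_le
    (fun n _ => Subgroup.mem_normalizer_iff.2 fun k => by simp [mul_inv_eq_one]) hθ fun g hg => by
      rw [Subgroup.mem_bot.1 hg, gu_one, one_mul])
  rw [Subgroup.relIndex_bot_left] at h9
  exact hK (hp.dvd_of_dvd_pow h9)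

/-- independence of the irreducible characters -/
theorem chv_indep {H : Subgroup X} (s s' : MonoidAlgebra F X → F)
    (h : ∀ x ∈ span F (HX F H), ∑ᶠ e ∈ Irr F (HX F H), s e * Chv F (HX F H) e x =
      ∑ᶠ e ∈ Irr F (HX F H), s' e * Chv F (HX F H) e x) (he : e ∈ Irr F (HX F H)) : s e = s' e := by
  have hS := rce_nice (F := F) H
  obtain ⟨u, hu, -⟩ := hS.irr_sum
  have k : ∀ f : MonoidAlgebra F X → F,
      ∑ᶠ e' ∈ Irr F (HX F H), f e' * Chv F (HX F H) e' e = f e * dg F (HX F H) e := fun f => by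
    rw [← hu, finsum_mem_coe_finset, Finset.sum_eq_single e (fun e' he' hn => ?_) fun hn =>
      absurd (Finset.mem_coe.1 (hu ▸ he)) hn, chv_self hS he]
    have he' : e' ∈ Irr F (HX F H) := hu ▸ Finset.mem_coe.2 he'
    rw [← chv_mul_e hS he' he.1.1, Irr_orth he he' (Ne.symm hn), ← zero_smul F e', chv_smul,
      zero_mul, mul_zero]
  have h1 := h e he.1.1
  rw [k, k] at h1
  exact mul_right_cancel₀ (Nat.cast_ne_zero.2 (dg_pos he).ne') h1

end Pool.Agent.Lib.MP_1ae3da_al.CT
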