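import Pool.Agent.Lib.MP_1ae3da_al.Y.Ci

set_option autoImplicit false
set_option linter.unusedSectionVars false

/-! Blocks of the normaliser (edited copy of C/RCc). -/

namespace Pool.Agent.Lib.MP_1ae3da_al.CT

open Submodule

variable {p a : ℕ} {F X : Type} [Field F] [CharZero F] [IsAlgClosed F] [Group X] [Finite X]
  [Fact p.Prime] {Q : Subgroup X} {d : X} {ga : X → MonoidAlgebra F X}
  {GG : Subgroup (RingAut F)} {e e' ε ε' θ θ' i i' ψ ψ' η η' x y b : MonoidAlgebra F X}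
  {γ : RingAut (MonoidAlgebra F X)} {om : X → F}
  {T : MonoidAlgebra F X →ₗ[F] MonoidAlgebra F X} {k : Type} [Field k] {O R : Subring F}
  {r : F → k}

theorem z_or (hg : Ga0 GG p Q ga) (hx : x ∈ Irr F (HX F (NQ Q))) : x * ga 1 = x ∨ x * ga 1 = 0 := by
  rw [← Cen_comm hg.cenN hx.1.1]
  exact (Irr_idem hx hg.cenN hg.idem).symm

theorem psC_z (hg : Ga0 GG p Q ga) (hψ : ψ ∈ PsC Q ga) : ψ * ga 1 = ψ := by
  rw [← hψ.2, mul_assoc, ← Cen_comm hg.cenN (eo_cen hg).1, ga_eo hg (one_mem _)]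

theorem psC_ga (hg : Ga0 GG p Q ga) (hψ : ψ ∈ PsC Q ga) {c : X} (hc : c ∈ CQ Q) : ga c * ψ = ψ := by
  rw [← hψ.2, ← Cen_comm (eo_cen hg) hψ.1.1.1, ← mul_assoc, ga_eo hg hc]

theorem psi_or_etaC (h : Cyc p a Q d) (hg : Ga0 GG p Q ga) (hx : x ∈ Irr F (HX F (NQ Q))) (h1 : x * ga 1 = x) :
    x ∈ PsC Q ga ∨ x ∈ EtC Q ga := by
  have h2 := Cen_comm (eo_cen hg) hx.1.1
  rcases Irr_idem hx (eo_cen hg) (eo_irr h hg).2.1 with h3 | h3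
  · exact .inr ⟨hx, h1, h2 ▸ h3⟩
  · exact .inl ⟨hx, h2 ▸ h3⟩

theorem ycc_z (hg : Ga0 GG p Q ga) (hb : b ∈ span F (HX F (Kp p Q))) : ga 1 * b = b * ga 1 :=
  Cen_comm hg.cenN (span_Hm_mono rcc_KN hb)

theorem over_ivt (hg : Ga0 GG p Q ga) (hx : x ∈ Irr F (HX F (NQ Q))) (h1 : x * ga 1 = x)
    (hθ : θ ∈ Irr F (HX F (Kp p Q))) (h0 : x * θ ≠ 0) : Ivt Q θ := by
  by_contra hi
  apply h0
  rw [← h1, mul_assoc, ycc_z hg hθ.1.1, hg.ninv θ hθ hi, mul_zero]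

theorem eta_St (h : Cyc p a Q d) (hg : Ga0 GG p Q ga) (hθ : θ ∈ Irr F (HX F (Kp p Q))) (hi : Ivt Q θ)
    (hε : ε ∈ Irr F (Gs Q ga)) (h0 : ε ≠ Eo Q ga) : NQ Q ⊓ St (gu F X) (θ * ε) = CQ Q := by
  have hf := irrCC h hg hε hθ hi
  refine le_antisymm (fun n hn => ?_) (le_inf_St gu_tg rcc_CN hf)
  by_contra hc
  have h1 := (gu_tg.mem_St_span hf.1.1).1 hn.2
  have h3 := gs_comm hg hε.1.1 (rcc_KC hθ.1.1)
  have h4 : θ * ε * gu F X n * (θ * ε) = 0 := by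
    calc _ = θ * (ε * gu F X n * ε) * θ := by rw [← h3, ← mul_assoc, h3]; simp only [mul_assoc]
      _ = 0 := by rw [gs_free h hg hε h0 hn.1 hc, mul_zero, zero_mul]
  rw [mul_assoc, h1, ← mul_assoc, hf.2.1] at h4
  apply hf.2.2.1
  rw [← mul_one (θ * ε), ← (rcc_inv n).1, ← mul_assoc, h4, zero_mul]

theorem eta_exC (h : Cyc p a Q d) (hg : Ga0 GG p Q ga) (hθ : θ ∈ Irr F (HX F (Kp p Q))) (hi : Ivt Q θ)
    (hε : ε ∈ Irr F (Gs Q ga)) (h0 : ε ≠ Eo Q ga) : ∃ η ∈ EtC Q ga, η * (θ * ε) = θ * ε ∧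
      ∀ y ∈ Irr F (HX F (NQ Q)), y * (θ * ε) ≠ 0 → y = η := by
  have hf := irrCC h hg hε hθ hi
  have hb := c1_bij gu_tg rcc_CN rcc_nC hf
  rw [eta_St h hg hθ hi hε h0] at hb
  have key : ∀ y ∈ Irr F (HX F (NQ Q)), y * (θ * ε) ≠ 0 → y * (θ * ε) = θ * ε := by
    intro y hy h1
    obtain ⟨h3, h4⟩ := hb.mapsTo ⟨hy, h1⟩
    by_contra h5
    exact h1 (h4.symm.trans (Irr_orth h3 hf h5))
  obtain ⟨η, ⟨h3, h4⟩, -⟩ := hb.surjOn ⟨hf, hf.2.1⟩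
  have h6 : η * ga 1 = η := (z_or hg h3).resolve_right fun z => h4 (by
    rw [← hg.inv θ hθ hi, ← ycc_z hg hθ.1.1, ← mul_assoc, ← mul_assoc, z, zero_mul, zero_mul])
  refine ⟨η, (psi_or_etaC h hg h3 h6).resolve_left fun h5 => h4 ?_, key η h3 h4, fun y hy h1 =>
    hb.injOn ⟨hy, h1⟩ ⟨h3, h4⟩ ((key y hy h1).trans (key η h3 h4).symm)⟩
  rw [← h5.2, mul_assoc, ← mul_assoc (Eo Q ga), gs_comm hg (eo_irr h hg).1.1 (rcc_KC hθ.1.1),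
    mul_assoc, Irr_orth (eo_irr h hg) hε h0.symm, mul_zero, mul_zero]

theorem eta_triC (h : Cyc p a Q d) (hg : Ga0 GG p Q ga) (hη : η ∈ EtC Q ga) (hθ : θ ∈ Irr F (HX F (Kp p Q))) (h1 : η * θ ≠ 0)
    (hi : Prim F (HX F (Kp p Q)) θ i) : ∃ ε, TriC Q ga p η θ i ε := by
  obtain ⟨s, hs, -, k⟩ := gs_sum h hg
  rw [← hη.2.1, mul_assoc, ycc_z hg hθ.1.1, ← k, Finset.mul_sum, Finset.mul_sum] at h1
  obtain ⟨ε, h2, h3⟩ := Finset.exists_ne_zero_of_sum_ne_zero h1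
  refine ⟨ε, hθ, hi, hs ▸ h2, ?_, h3⟩
  rintro rfl
  apply h3
  rw [← gs_comm hg (eo_irr h hg).1.1 (rcc_KC hθ.1.1), ← mul_assoc, hη.2.2, zero_mul]

theorem eta_tri0 (h : Cyc p a Q d) (hg : Ga0 GG p Q ga) (hη : η ∈ EtC Q ga) : ∃ θ i ε, TriC Q ga p η θ i ε := by
  obtain ⟨θ, hθ, h1, -⟩ := bk_refl (p := p) (Q := Q) hη.1.2.2.1
  obtain ⟨i, hi⟩ := exists_Prim (nice_Hm0 gu_tg _) hθ
  exact ⟨θ, i, eta_triC h hg hη hθ h1 hi⟩

theorem eta_conjC (h : Cyc p a Q d) (hg : Ga0 GG p Q ga) (hη : η ∈ Irr F (HX F (NQ Q))) (h1 : TriC Q ga p η θ i ε)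
    (h2 : TriC Q ga p η θ' i' ε') : ∃ n ∈ NQ Q, θ' = gu F X n * θ * gu F X n⁻¹ ∧
      ε' = gu F X n * ε * gu F X n⁻¹ := by
  have hf' := irrCC h hg h2.irrQ h2.irrK (h2.ivt hg)
  obtain ⟨n, hn, h3⟩ := clifford gu_tg rcc_CN rcc_nC hη (irrCC h hg h1.irrQ h1.irrK (h1.ivt hg))
    hf' h1.ov h2.ov
  obtain ⟨c, hc, -, h4, -, h6, -⟩ := gm_ad (F := F) (p := p) (GG := GG) hn
  obtain ⟨-, -, -, -, -, -, h5, -⟩ := gm_autC h hg hc
  have h7 : θ' * ε' = c θ * c ε := by rw [← map_mul, h4]; exact rcc_move h3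
  have i1 := (irr_stb hc.1.1 h6).2 h1.irrK
  have i2 := (irr_stb hc.1.1 h5).2 h1.irrQ
  refine ⟨n, hn, ?_, ?_⟩
  · rw [← h4]
    by_contra h8
    apply hf'.2.2.1
    rw [← h2.irrK.2.1, mul_assoc, h7, ← mul_assoc, Irr_orth h2.irrK i1 h8, zero_mul]
  · rw [← h4]
    by_contra h8
    apply hf'.2.2.1
    rw [← h2.irrQ.2.1, ← mul_assoc, h7, mul_assoc, Irr_orth i2 h2.irrQ (Ne.symm h8), mul_zero]

theorem ycc_line (h : Cyc p a Q d) (hg : Ga0 GG p Q ga) (h1 : TriC Q ga p η θ i ε)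
    (hx : x ∈ span F (HX F (NQ Q))) : ∃ c : F, i * ε * x * (i * ε) = c • (i * ε) := by
  have h3 := gs_comm hg h1.irrQ.1.1 (rcc_KC h1.prim.1)
  induction hx using span_induction with
  | mem s hs =>
    obtain ⟨d, -, n, hn, rfl⟩ := hs
    by_cases hc : n ∈ CQ Q
    · have h4 : gu F X n ∈ span F (HX F (CQ Q)) := subset_span (mem_Hm hc)
      obtain ⟨b, hb, h5⟩ := gs_cut h hg h1.irrQ h4
      obtain ⟨c, h6⟩ := h1.prim.2.2.2.2 b hb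
      refine ⟨d * c, ?_⟩
      have h7 : i * ε * gu F X n * (i * ε) = c • (i * ε) := by
        calc _ = i * (ε * gu F X n) * (i * ε) := by simp only [mul_assoc]
          _ = i * b * (ε * i) * ε := by
            rw [gs_comm hg h1.irrQ.1.1 h4, h5]; simp only [mul_assoc]
          _ = i * b * i * (ε * ε) := by rw [h3]; simp only [mul_assoc]
          _ = _ := by rw [h6, h1.irrQ.2.1, smul_mul_assoc]
      rw [mul_smul_comm, smul_mul_assoc, h7, smul_smul]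
    · refine ⟨0, ?_⟩
      have h7 : i * ε * gu F X n * (i * ε) = 0 := by
        calc _ = i * (ε * gu F X n * ε) * i := by
              rw [← h3, ← mul_assoc, h3]; simp only [mul_assoc]
          _ = 0 := by rw [gs_free h hg h1.irrQ h1.ne hn hc, mul_zero, zero_mul]
      rw [mul_smul_comm, smul_mul_assoc, h7, smul_zero, zero_smul]
  | zero => exact ⟨0, by simp⟩
  | add a b _ _ ha hb =>
    obtain ⟨c, hc⟩ := ha
    obtain ⟨d, hd⟩ := hb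
    exact ⟨c + d, by rw [mul_add, add_mul, hc, hd, add_smul]⟩
  | smul d a _ ha =>
    obtain ⟨c, hc⟩ := ha
    exact ⟨d * c, by rw [mul_smul_comm, smul_mul_assoc, hc, smul_smul]⟩

theorem chv_etaC (h : Cyc p a Q d) (hg : Ga0 GG p Q ga) (hη : η ∈ Irr F (HX F (NQ Q))) (h1 : TriC Q ga p η θ i ε)
    (hy : y ∈ Irr F (HX F (NQ Q))) : (y = η → Chv F (HX F (NQ Q)) y (i * ε) = 1) ∧
      (y ≠ η → Chv F (HX F (NQ Q)) y (i * ε) = 0) := by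
  have h3 := gs_comm hg h1.irrQ.1.1 (rcc_KC h1.prim.1)
  have hv := h1.ivt hg
  have hj : i * ε ∈ span F (HX F (NQ Q)) := gu_span_mul _ _ (span_Hm_mono rcc_KN h1.prim.1) _
    (span_Hm_mono rcc_CN (gs_le hg h1.irrQ.1.1))
  have hjj : i * ε * (i * ε) = i * ε := by
    calc _ = i * (ε * i) * ε := by simp only [mul_assoc]
      _ = i * i * (ε * ε) := by rw [h3]; simp only [mul_assoc]
      _ = _ := by rw [h1.prim.2.2.1, h1.irrQ.2.1]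
  obtain ⟨η0, -, h4, h5⟩ := eta_exC h hg h1.irrK hv h1.irrQ h1.ne
  obtain rfl := h5 η hη h1.ov
  have h6 : i * ε * y = i * (y * (θ * ε)) := by
    have hf := span_Hm_mono rcc_CN (irrCC h hg h1.irrQ h1.irrK hv).1.1
    rw [Cen_comm hy.1 hf, ← mul_assoc, ← mul_assoc, h1.prim.2.1]
  obtain ⟨n, h7, h8, h9⟩ := chv_idem (nice_Hm0 gu_tg _) hy hj hjj
  constructor
  · rintro rfl
    have k1 : n ≠ 0 := fun k => by
      have k2 := h8.1 k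
      rw [h6, h4, ← mul_assoc, h1.prim.2.1] at k2
      have k3 := gs_inj h hg h1.irrQ h1.prim.1 k2
      rw [← h1.prim.2.1, mul_assoc, hg.inv θ h1.irrK hv, h1.prim.2.1] at k3
      exact h1.prim.2.2.2.1 k3
    have k2 : n ≤ 1 := h9 fun a ha b hb => by
      obtain ⟨c, hc⟩ := ycc_line h hg h1 ha
      obtain ⟨d, hd⟩ := ycc_line h hg h1 hb
      rw [hc, hd, smul_mul_assoc, smul_mul_assoc, smul_mul_assoc, smul_mul_assoc, hc, hd,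
        smul_comm]
    rw [h7, show n = 1 by omega, Nat.cast_one]
  · intro k
    have k1 : y * (θ * ε) = 0 := by
      by_contra k2
      exact k (h5 y hy k2)
    rw [h7, h8.2 (by rw [h6, k1, mul_zero]), Nat.cast_zero]

theorem ycc_under (hg : Ga0 GG p Q ga) (h1 : x * ga 1 ≠ 0) :
    ∃ θ ∈ Irr F (HX F (Kp p Q)), Ivt Q θ ∧ x * θ ≠ 0 := by
  obtain ⟨θ, hθ, h2⟩ := exists_under gu_tg (rcc_card (Kp p Q)) (rcc_top _) h1
  rw [mul_assoc, ycc_z hg hθ.1.1] at h2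
  have hi : Ivt Q θ := by
    by_contra hi
    exact h2 (by rw [hg.ninv θ hθ hi, mul_zero])
  exact ⟨θ, hθ, hi, hg.inv θ hθ hi ▸ h2⟩

theorem eta_of (h : Cyc p a Q d) (hg : Ga0 GG p Q ga) (h1 : x * ga 1 ≠ 0) : ∃ η ∈ EtC Q ga, Bk F p Q x η := by
  obtain ⟨θ, hθ, hi, h2⟩ := ycc_under hg h1
  obtain ⟨ε, hε, h0⟩ := gs_ne h hg
  obtain ⟨η, hη, h3, -⟩ := eta_exC h hg hθ hi hε h0
  refine ⟨η, hη, θ, hθ, h2, fun z => (irrCC h hg hε hθ hi).2.2.1 ?_⟩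
  rw [← h3, ← mul_assoc, z, zero_mul]

theorem psi_of (h : Cyc p a Q d) (hg : Ga0 GG p Q ga) (h1 : x * ga 1 ≠ 0) : ∃ ψ ∈ PsC Q ga, Bk F p Q ψ x := by
  obtain ⟨θ, hθ, hi, h2⟩ := ycc_under hg h1
  obtain ⟨ψ, hψ, h3⟩ := exists_under gu_tg (rcc_card (NQ Q)) (rcc_top _)
    (irrCC h hg (eo_irr h hg) hθ hi).2.2.1
  have h4 := (Irr_idem hψ (eo_cen hg) (eo_irr h hg).2.1).resolve_left fun z => h3 (by
    rw [mul_assoc, z, mul_zero])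
  rw [mul_assoc, h4, te_cen hψ (span_Hm_mono rcc_KN hθ.1.1)] at h3
  exact ⟨ψ, ⟨hψ, (Cen_comm (eo_cen hg) hψ.1.1).symm.trans h4⟩, θ, hθ, h3, h2⟩

end Pool.Agent.Lib.MP_1ae3da_al.CT
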