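import Pool.Agent.Lib.MP_1ae3da_al.C.RWlk

set_option autoImplicit false
set_option linter.unusedSectionVars false

/-! Two counting lemmas. -/

namespace Pool.Agent.Lib.MP_1ae3da_al.CT

open Set


/-- a connected graph has at most one vertex more than edges -/
theorem conn_card {P V : Type} (a b : P → V) {SP : Set P} (hf : SP.Finite) {r : V} {S : Set V}
    (conn : ∀ v ∈ S, Relation.ReflTransGen (RTree.Adj a b SP) r v) : S.ncard ≤ SP.ncard + 1 := by
  classical
  let d : V → ℕ := fun v => sInf {n | RTree.Wk a b SP r n v}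
  have par : ∀ v : (S \ {r} : Set V), ∃ q u, q ∈ SP ∧ d u < d v ∧
      ((a q = u ∧ b q = v) ∨ (a q = v ∧ b q = u)) := by
    rintro ⟨v, hv⟩
    have h1 : RTree.Wk a b SP r (d v) v := Nat.sInf_mem (s := {n | RTree.Wk a b SP r n v})
      (RTree.wk_of a b SP (conn v hv.1))
    cases hd : d v with
    | zero => rw [hd] at h1; exact absurd h1 hv.2
    | succ n =>
      rw [hd] at h1
      obtain ⟨u, h2, q, h3, h4⟩ := h1
      exact ⟨q, u, h3, Nat.lt_succ_of_le (Nat.sInf_le h2), h4⟩
  choose e u he using par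
  have hinj : Function.Injective fun v => (⟨e v, (he v).1⟩ : SP) := by
    intro v w h
    have h : e v = e w := congrArg Subtype.val h
    obtain ⟨-, h1, h2⟩ := he v
    obtain ⟨-, h3, h4⟩ := he w
    rw [← h] at h4
    apply Subtype.ext
    rcases h2 with ⟨h5, h6⟩ | ⟨h5, h6⟩ <;> rcases h4 with ⟨h7, h8⟩ | ⟨h7, h8⟩
    · exact h6.symm.trans h8
    · rw [← h5, h7] at h1; rw [← h8, h6] at h3; omega
    · rw [← h6, h8] at h1; rw [← h7, h5] at h3; omega
    · exact h5.symm.trans h7
  have := hf.to_subtype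
  have h1 : (S \ {r}).ncard ≤ SP.ncard := Nat.card_le_card_of_injective _ hinj
  have h2 : S.ncard ≤ (insert r (S \ {r})).ncard :=
    Set.ncard_le_ncard (fun x hx => by by_cases h : x = r <;> simp [h, hx])
      ((Set.finite_coe_iff.1 (Finite.of_injective _ hinj)).insert r)
  exact h2.trans ((Set.ncard_insert_le _ _).trans (by omega))

/-- the sum of two signed block indicators is not a signed block indicator -/
theorem par3 {I J : Type} (E : Set I) (B : J → I → Prop) (u v w : I → ℤ) (x y z : J)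
    (s t m : ℤ) (hs : s = 1 ∨ s = -1) (ht : t = 1 ∨ t = -1) (hm : m = 1 ∨ m = -1)
    (hB : ∀ j ∈ ({x, y, z} : Set J), ∀ j' ∈ ({x, y, z} : Set J), ∀ i ∈ E, ∀ i' ∈ E,
      B j i → B j' i → B j i' → B j' i')
    (hx : ∃ i ∈ E, B x i) (hy : ∃ i ∈ E, B y i) (hz : ∃ i ∈ E, B z i)
    (hu : ∀ i ∈ E, (B x i → u i = s) ∧ (¬ B x i → u i = 0))
    (hv : ∀ i ∈ E, (B y i → v i = t) ∧ (¬ B y i → v i = 0))
    (hw : ∀ i ∈ E, (B z i → w i = m) ∧ (¬ B z i → w i = 0))
    (h : ∀ i ∈ E, w i = u i + v i) : False := by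
  obtain ⟨i, hi, xi⟩ := hx
  have e1 := h i hi
  rw [(hu i hi).1 xi] at e1
  by_cases yi : B y i
  · rw [(hv i hi).1 yi] at e1
    have zi : ¬ B z i := fun c => by
      rw [(hw i hi).1 c] at e1
      omega
    obtain ⟨l, hl, zl⟩ := hz
    have e2 := h l hl
    rw [(hw l hl).1 zl, (hu l hl).2 fun c => zi (hB x (by simp) z (by simp) l hl i hi c zl xi),
      (hv l hl).2 fun c => zi (hB y (by simp) z (by simp) l hl i hi c zl yi)] at e2
    omega
  · rw [(hv i hi).2 yi] at e1
    have zi : B z i := by_contra fun c => by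
      rw [(hw i hi).2 c] at e1
      omega
    obtain ⟨l, hl, yl⟩ := hy
    have xl : ¬ B x l := fun c => yi (hB x (by simp) y (by simp) l hl i hi c yl xi)
    have e2 := h l hl
    rw [(hu l hl).2 xl, (hv l hl).1 yl,
      (hw l hl).2 fun c => xl (hB z (by simp) x (by simp) i hi l hl zi xi c)] at e2
    omega

end Pool.Agent.Lib.MP_1ae3da_al.CT
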