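import Pool.Agent.Lib.MP_1ae3da_al.Y.Vx
import Pool.Agent.Lib.MP_1ae3da_al.Y.Par
import Pool.Agent.Lib.MP_1ae3da_al.C.RCh

set_option autoImplicit false
set_option linter.unusedSectionVars false

/-! The tree of a block. -/

namespace Pool.Agent.Lib.MP_1ae3da_al.CT

open Submodule

variable {p a : ℕ} {F X : Type} [Field F] [CharZero F] [IsAlgClosed F] [Group X] [Finite X]
  [Fact p.Prime] {Q : Subgroup X} {d : X} {ga : X → MonoidAlgebra F X}
  {GG : Subgroup (RingAut F)} {e e' ε ε' θ θ' i i' ψ ψ' η η' x y b : MonoidAlgebra F X}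
  {γ : RingAut (MonoidAlgebra F X)} {om : X → F}
  {T : MonoidAlgebra F X →ₗ[F] MonoidAlgebra F X} {k : Type} [Field k] {O R : Subring F}
  {r : F → k}

variable {S W : Set (MonoidAlgebra F X) → MonoidAlgebra F X → Bool → Prop}

/-- the edges of the block of `η` are all of `PsC` in that block and form a tree on the vertices
with `cvC ≠ 0`; the non exceptional vertices are singletons. Closure under edges: the union of
the vertices reachable from the root; `walk`, `tw_transC`, `uniq`; then `conn_card`, `ex_sq`. -/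
theorem blk_graph (hP : PM p O R r GG) (h : Cyc p a Q d) (hg : Ga0 GG p Q ga) (hO : Om GG Q om T) (hT : TyC Q ga p O GG T S W)
    (va vb : MonoidAlgebra F X → Set (MonoidAlgebra F X))
    (ha : ∀ ψ v, S v ψ false → va ψ = v) (hb : ∀ ψ v, S v ψ true → vb ψ = v)
    (h1 : ExC Q ga p e η) {SP : Set (MonoidAlgebra F X)}
    (hS : SP = {ψ | ψ ∈ PsC Q ga ∧ Bk F p Q ψ η}) :
    (∀ ψ ∈ SP, S (va ψ) ψ false ∧ S (vb ψ) ψ true) ∧
      (va '' SP ∪ vb '' SP).ncard = SP.ncard + 1 ∧ VxC Q ga p O GG e ∈ va '' SP ∪ vb '' SP ∧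
      (∀ v ∈ va '' SP ∪ vb '' SP, Relation.ReflTransGen (RTree.Adj va vb SP) (VxC Q ga p O GG e) v) ∧
      ∀ v, v ∈ va '' SP ∪ vb '' SP ↔ v = VxC Q ga p O GG e ∨ ∃ e' ∈ Irr F (HX F (⊤ : Subgroup X)),
        (¬ ∃ η', ExC Q ga p e' η') ∧ mzC Q ga p e' η ≠ 0 ∧ v = {e'} := by
  have he := h1.1
  have hη := h1.2.1
  have fin (H : Subgroup X) : (Irr F (HX F H)).Finite := by
    obtain ⟨s, hs, -⟩ := (nice_Hm0 (gu_tg (F := F) (X := X)) H).irr_sum
    exact hs ▸ s.finite_toSet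
  have mS (ψ) : ψ ∈ SP ↔ ψ ∈ PsC Q ga ∧ Bk F p Q ψ η := by rw [hS]; rfl
  have fS : SP.Finite := (fin (NQ Q)).subset fun ψ q => ((mS ψ).1 q).1.1
  let N : Set (MonoidAlgebra F X) → Prop := fun v =>
    (∃ x ∈ Irr F (HX F (⊤ : Subgroup X)), v = VxC Q ga p O GG x) ∧ cvC Q ga p v η ≠ 0
  let GP := {ψ | ψ ∈ SP ∧ S (va ψ) ψ false ∧ S (vb ψ) ψ true}
  let Rc := Relation.ReflTransGen (RTree.Adj va vb GP) (VxC Q ga p O GG e)
  let A := ⋃₀ {v | Rc v}
  have vx {v x} (q : ∃ x ∈ Irr F (HX F (⊤ : Subgroup X)), v = VxC Q ga p O GG x) (hx : x ∈ v) :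
      VxC Q ga p O GG x = v := by
    obtain ⟨y, hy, rfl⟩ := q
    exact vx_eq hP h hg hO hy hx
  have pm {v ψ i} (q : S v ψ i) (b : ψ ∈ SP) : cvC Q ga p v η = 1 ∨ cvC Q ga p v η = -1 := by
    rw [(hT.val v ψ i q η hη).1 ((mS ψ).1 b).2]
    cases i <;> simp
  have sN {v ψ i} (q : S v ψ i) : N v ↔ ψ ∈ SP :=
    ⟨fun n => (mS ψ).2 ⟨(hT.dom _ _ _ q).2, not_not.1 fun z => n.2 ((hT.val v ψ i q η hη).2 z)⟩,
      fun b => ⟨(hT.dom _ _ _ q).1, by rcases pm q b with z | z <;> simp [z]⟩⟩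
  have gp {v v' ψ} (q : S v ψ false) (q' : S v' ψ true) (n : N v ∨ N v') :
      ψ ∈ GP ∧ va ψ = v ∧ vb ψ = v' :=
    ⟨⟨n.elim (sN q).1 (sN q').1, ha _ _ q ▸ q, hb _ _ q' ▸ q'⟩, ha _ _ q, hb _ _ q'⟩
  have n0 : N (VxC Q ga p O GG e) := ⟨⟨e, he, rfl⟩, by
    rw [(cv_ex hP h hg hO h1 hη).1 (bk_refl hη.1.2.2.1)]
    exact h1.2.2.1⟩
  have rN {v} (q : Rc v) : N v := by
    induction q with
    | refl => exact n0
    | tail _ k _ =>
      obtain ⟨ψ, g, ⟨-, rfl⟩ | ⟨rfl, -⟩⟩ := k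
      · exact (sN g.2.2).2 g.1
      · exact (sN g.2.1).2 g.1
  have rA {v ψ i} (q : S v ψ i) (k : (v ∩ A).Nonempty) : Rc v := by
    obtain ⟨x, x1, w, x2, x3⟩ := k
    rwa [← vx (hT.dom _ _ _ q).1 x1, vx (rN x2).1 x3]
  have both {v v' ψ} (q : S v ψ false) (q' : S v' ψ true) (k : Rc v ∨ Rc v') : Rc v ∧ Rc v' := by
    obtain ⟨g, g1, g2⟩ := gp q q' (k.imp rN rN)
    rcases k with k | k
    · exact ⟨k, k.tail ⟨ψ, g, .inl ⟨g1, g2⟩⟩⟩
    · exact ⟨k.tail ⟨ψ, g, .inr ⟨g1, g2⟩⟩, k⟩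
  have wk := hT.walk A (fun x ⟨w, x2, x3⟩ => ⟨η, hη, vx (rN x2).1 x3 ▸ (rN x2).2⟩)
    fun ψ v v' q q' k => by
      rw [Set.union_inter_distrib_right, Set.union_nonempty] at k
      have := both q q' (k.imp (rA q) (rA q'))
      exact Set.union_subset (Set.subset_sUnion_of_mem this.1) (Set.subset_sUnion_of_mem this.2)
  have wA : ∀ ψ ∈ SP, W A ψ false := by
    obtain ⟨ψ, v, v', q, q', k⟩ := hT.edge e he η hη n0.2
    have r := both q q' (by
      rcases k with rfl | rfl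
      exacts [.inl .refl, .inr .refl])
    have b := (mS ψ).1 ((sN q).1 (rN r.1))
    intro ψ' b'
    rw [mS] at b'
    obtain ⟨n, rfl⟩ := tw_transC h hg hO b.1 b'.1 (rch_trans hη.1 b'.1.1 b.2 (rch_symm b'.2))
    clear b'
    induction n with
    | zero => exact hT.mono _ _ _ _ (hT.sw _ _ _ q) (Set.subset_sUnion_of_mem r.1)
    | succ n ih => rw [pow_succ']; exact (wk _).1 ((wk _).2 ih)
  have nE {v} (n : N v) : Rc v ∧ v ∈ va '' GP ∪ vb '' GP ∧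
      (cvC Q ga p v η = 1 ∨ cvC Q ga p v η = -1) := by
    obtain ⟨⟨x, hx, rfl⟩, n2⟩ := id n
    obtain ⟨ψ, v, v', q, q', k⟩ := hT.edge x hx η hη n2
    obtain ⟨g, g1, g2⟩ := gp q q' (by
      rcases k with rfl | rfl
      exacts [.inl n, .inr n])
    have r := both q q' (.inl (rA q (hT.uniq _ _ _ _ q (wA ψ g.1))))
    rcases k with rfl | rfl
    · exact ⟨r.1, .inl ⟨ψ, g, g1⟩, pm q g.1⟩
    · exact ⟨r.2, .inr ⟨ψ, g, g2⟩, pm q' g.1⟩
  have eV : va '' GP ∪ vb '' GP = {v | N v} := Set.ext fun v => ⟨by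
    rintro (⟨ψ, g, rfl⟩ | ⟨ψ, g, rfl⟩)
    · exact (sN g.2.1).2 g.1
    · exact (sN g.2.2).2 g.1, fun n => (nE n).2.1⟩
  let NE := {x | x ∈ Irr F (HX F (⊤ : Subgroup X)) ∧ (¬ ∃ η', ExC Q ga p x η') ∧
    mzC Q ga p x η ≠ 0}
  have ne {x} (q : x ∈ NE) : N {x} ∧ VxC Q ga p O GG x = {x} ∧
      mzC Q ga p x η * mzC Q ga p x η = 1 := by
    obtain ⟨c1, c2⟩ := cv_nex hP h hg hO q.1 q.2.1 hη
    have n : N (VxC Q ga p O GG x) := ⟨⟨x, q.1, rfl⟩, by
      rw [c1]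
      exact mul_ne_zero (Nat.cast_ne_zero.2 c2.ne') q.2.2⟩
    have u : IsUnit (((Orb O GG x).ncard : ℤ) * mzC Q ga p x η) :=
      Int.isUnit_iff.2 (c1 ▸ (nE n).2.2)
    have o : (Orb O GG x).ncard = 1 := by
      simpa using Int.isUnit_iff_natAbs_eq.1 (isUnit_of_mul_isUnit_left u)
    obtain ⟨y, hy⟩ := Set.ncard_eq_one.1 o
    have s : VxC Q ga p O GG x = {x} := by
      rw [vx_nex q.2.1, hy, show x = y from hy.le rch_self]
    exact ⟨s ▸ n, s, Int.isUnit_mul_self (isUnit_of_mul_isUnit_right u)⟩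
  have eN : {v | N v} = insert (VxC Q ga p O GG e) (singleton '' NE) := Set.ext fun v => ⟨by
    rintro ⟨⟨x, hx, rfl⟩, n⟩
    by_cases q : ∃ η', ExC Q ga p x η'
    · obtain ⟨η', q⟩ := q
      exact .inl (vx_eq hP h hg hO he (.inr ⟨η, η', h1, q, rch_symm (not_not.1 fun z =>
        n ((cv_ex hP h hg hO q hη).2 z))⟩))
    · have m : x ∈ NE := ⟨hx, q, fun z => n (by rw [(cv_nex hP h hg hO hx q hη).1, z, mul_zero])⟩
      exact .inr ⟨x, m, (ne m).2.1.symm⟩, by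
    rintro (rfl | ⟨x, q, rfl⟩)
    · exact n0
    · exact (ne q).1⟩
  have fN : NE.Finite := (fin ⊤).subset fun _ q => q.1
  have c1 : NE.ncard = SP.ncard := by
    have q := ex_sq h hg hO hη
    rw [← hS, finsum_mem_eq_sum_of_inter_support_eq _ (t := fN.toFinset) (Set.ext fun x => by
        simp only [Set.mem_inter_iff, Function.mem_support, Set.Finite.coe_toFinset, NE,
          Set.mem_setOf_eq, ne_eq, mul_self_eq_zero]
        tauto), Finset.sum_congr rfl fun x q => (ne (fN.mem_toFinset.1 q)).2.2] at q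
    rw [Set.ncard_eq_toFinset_card _ fN]
    simpa using q
  have c2 : {v | N v}.ncard = SP.ncard + 1 := by
    rw [eN, Set.ncard_insert_of_notMem ?_ (fN.image _),
      Set.ncard_image_of_injective _ Set.singleton_injective, c1]
    rintro ⟨x, q, z⟩
    exact q.2.1 ⟨η, (show e = x from z.ge vx_self) ▸ h1⟩
  have sub : GP ⊆ SP := fun _ g => g.1
  have eG : GP = SP := Set.eq_of_subset_of_ncard_le sub (by
    have := conn_card va vb (fS.subset sub) (S := {v | N v}) fun v n => (nE n).1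
    omega) fS
  refine ⟨fun ψ q => (eG.ge q).2, ?_⟩
  rw [← eG, eV]
  refine ⟨c2.trans (by rw [eG]), n0, fun v n => (nE n).1, fun v => ?_⟩
  rw [eN]
  exact or_congr_right ⟨fun ⟨x, q, z⟩ => ⟨x, q.1, q.2.1, q.2.2, z.symm⟩,
    fun ⟨x, q1, q2, q3, z⟩ => ⟨x, ⟨q1, q2, q3⟩, z.symm⟩⟩

end Pool.Agent.Lib.MP_1ae3da_al.CT
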