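import Pool.Agent.Lib.MP_1ae3da_al.Y.ChA

set_option autoImplicit false
set_option linter.unusedSectionVars false

/-! The equivariant matching. -/

namespace Pool.Agent.Lib.MP_1ae3da_al.CT

open Submodule

variable {p a : ℕ} {F X : Type} [Field F] [CharZero F] [IsAlgClosed F] [Group X] [Finite X]
  [Fact p.Prime] {Q : Subgroup X} {d : X} {ga : X → MonoidAlgebra F X}
  {GG : Subgroup (RingAut F)} {e e' ε ε' θ θ' i i' ψ ψ' η η' x y b : MonoidAlgebra F X}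
  {γ : RingAut (MonoidAlgebra F X)} {om : X → F}
  {T : MonoidAlgebra F X →ₗ[F] MonoidAlgebra F X} {k : Type} [Field k] {O R : Subring F}
  {r : F → k}

variable {S W : Set (MonoidAlgebra F X) → MonoidAlgebra F X → Bool → Prop}

theorem ychb_fin : (PsC Q ga).Finite := by
  obtain ⟨s, hs, -⟩ := (nice_Hm0 (gu_tg (F := F) (X := X)) (NQ Q)).irr_sum
  exact s.finite_toSet.subset fun x hx => hs ▸ hx.1

theorem ychb_eq (hP : PM p O R r GG) (h : Cyc p a Q d) (hg : Ga0 GG p Q ga) (hO : Om GG Q om T)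
    (he : e ∈ Irr F (HX F (⊤ : Subgroup X))) (he' : e' ∈ Irr F (HX F (⊤ : Subgroup X)))
    (k : (VxC Q ga p O GG e ∩ VxC Q ga p O GG e').Nonempty) :
    VxC Q ga p O GG e = VxC Q ga p O GG e' := by
  obtain ⟨x, h1, h2⟩ := k
  rw [← vx_eq hP h hg hO he h1, vx_eq hP h hg hO he' h2]

theorem ychb_img (hP : PM p O R r GG) (h : Cyc p a Q d) (hg : Ga0 GG p Q ga) (hO : Om GG Q om T)
    (hT : TyC Q ga p O GG T S W) (hγ : γ ∈ Gm GG Q) {v v' : Set (MonoidAlgebra F X)} {s : Bool}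
    (h1 : S v ψ s) (h2 : S v' (γ ψ) s) : v' = γ '' v := by
  have k := hT.uniq _ _ _ _ h2 (hT.eqv γ hγ _ _ _ (hT.sw _ _ _ h1))
  obtain ⟨⟨e, he, rfl⟩, -⟩ := hT.dom _ _ _ h1
  obtain ⟨⟨e', he', rfl⟩, -⟩ := hT.dom _ _ _ h2
  rw [vx_gm hP h hg hγ] at k ⊢
  exact ychb_eq hP h hg hO he' ((irr_stb hγ.1.1 hγ.1.2).2 he) k

/-- `tree_match` in every block, root = the exceptional vertex; equivariance by uniqueness of the
matching and `sw`, `eqv`, `uniq`, `vx_gm`, `vx_eq`. -/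
theorem blk_match (hP : PM p O R r GG) (h : Cyc p a Q d) (hg : Ga0 GG p Q ga) (hO : Om GG Q om T) (hT : TyC Q ga p O GG T S W) :
    ∃ m : MonoidAlgebra F X → MonoidAlgebra F X,
      (∀ ψ ∈ PsC Q ga, m ψ ∈ Irr F (HX F (⊤ : Subgroup X)) ∧ (¬ ∃ η, ExC Q ga p (m ψ) η) ∧
        ∃ s, S {m ψ} ψ s) ∧ Set.InjOn m (PsC Q ga) ∧
      (∀ e ∈ Irr F (HX F (⊤ : Subgroup X)), (¬ ∃ η, ExC Q ga p e η) → ∀ η ∈ EtC Q ga,
        mzC Q ga p e η ≠ 0 → ∃ ψ ∈ PsC Q ga, m ψ = e) ∧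
      ∀ γ ∈ Gm GG Q, ∀ ψ ∈ PsC Q ga, m (γ ψ) = γ (m ψ) := by
  let vv : Bool → MonoidAlgebra F X → Set (MonoidAlgebra F X) := fun s ψ =>
    Classical.epsilon fun v => S v ψ s
  have hv : ∀ s ψ v, S v ψ s → vv s ψ = v := fun s ψ v k => by
    have := ychb_img hP h hg hO hT (one_mem _) k
      (Classical.epsilon_spec (p := fun v => S v ψ s) ⟨v, k⟩)
    exact this.trans (Set.image_id v)
  let SP : MonoidAlgebra F X → Set (MonoidAlgebra F X) := fun η =>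
    {ψ | ψ ∈ PsC Q ga ∧ Bk F p Q ψ η}
  have G := fun {e η : MonoidAlgebra F X} (h1 : ExC Q ga p e η) =>
    blk_graph hP h hg hO hT (vv false) (vv true) (hv false) (hv true) h1 (SP := SP η) rfl
  have M := fun {e η : MonoidAlgebra F X} (h1 : ExC Q ga p e η) =>
    RTree.tree_match (vv false) (vv true) (SP η)
      (ychb_fin.subset fun _ k => k.1) (G h1).2.1 (G h1).2.2.1
      (G h1).2.2.2.1
  let Mt : MonoidAlgebra F X → Set (MonoidAlgebra F X) → Prop := fun ψ v => ∃ η e m,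
    ExC Q ga p e η ∧ ψ ∈ SP η ∧ RTree.IsM (vv false) (vv true) (SP η) (VxC Q ga p O GG e) m ∧ m ψ = v
  have un : ∀ ψ v v', Mt ψ v → Mt ψ v' → v = v' := by
    rintro ψ _ _ ⟨η, e, m, h1, h2, h3, rfl⟩ ⟨η', e', m', k1, k2, k3, rfl⟩
    have b : Bk F p Q η η' := rch_trans h2.1.1 k1.2.1.1 (rch_symm h2.2) k2.2
    have e1 : SP η' = SP η := Set.ext fun x => and_congr_right fun _ =>
      ⟨fun c => rch_trans k1.2.1.1 h1.2.1.1 c (rch_symm b),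
        fun c => rch_trans h1.2.1.1 k1.2.1.1 c b⟩
    rw [e1, vx_eq hP h hg hO h1.1 (e' := e') (.inr ⟨η, η', h1, k1, b⟩)] at k3
    obtain ⟨m0, -, -, u⟩ := M h1
    rw [u m h3 h2, u m' k3 h2]
  have bl : ∀ ψ ∈ PsC Q ga, ∃ η e, ExC Q ga p e η ∧ ψ ∈ SP η := fun ψ hψ => by
    obtain ⟨η, h1, h2⟩ := eta_of h hg (x := ψ) (by rw [psC_z hg hψ]; exact hψ.1.2.2.1)
    obtain ⟨e, he, -⟩ := ex_ex h hg hO h1
    exact ⟨η, e, he, hψ, h2⟩
  have ty : ∀ ψ v, Mt ψ v → (∃ s, S v ψ s) ∧ ∃ e ∈ Irr F (HX F (⊤ : Subgroup X)),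
      (¬ ∃ η, ExC Q ga p e η) ∧ v = {e} := by
    rintro ψ _ ⟨η, e, m, h1, h2, h3, rfl⟩
    obtain ⟨c1, c2⟩ := h3.1 ψ h2
    have c3 := (G h1).1 ψ h2
    obtain ⟨e', he', n, -, k⟩ := (((G h1).2.2.2.2 (m ψ)).1
      (c1.imp (fun c => ⟨ψ, h2, c.symm⟩) fun c => ⟨ψ, h2, c.symm⟩)).resolve_left c2
    exact ⟨c1.elim (fun c => ⟨false, c ▸ c3.1⟩) fun c => ⟨true, c ▸ c3.2⟩, e', he', n, k⟩
  let m : MonoidAlgebra F X → MonoidAlgebra F X := fun ψ => Classical.epsilon fun e => Mt ψ {e}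
  have hm : ∀ ψ v, Mt ψ v → v = {m ψ} := fun ψ v k => by
    obtain ⟨-, e, -, -, rfl⟩ := ty ψ v k
    exact un ψ _ _ k (Classical.epsilon_spec (p := fun e => Mt ψ {e}) ⟨e, k⟩)
  refine ⟨m, fun ψ hψ => ?_, fun ψ hψ ψ' hψ' k => ?_, fun e he hn η hη h0 => ?_,
    fun γ hγ ψ hψ => ?_⟩
  · obtain ⟨η, e, h1, h2⟩ := bl ψ hψ
    obtain ⟨m0, c, -, -⟩ := M h1
    have k : Mt ψ (m0 ψ) := ⟨η, e, m0, h1, h2, c, rfl⟩
    obtain ⟨c1, e', he', n, c2⟩ := ty _ _ k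
    rw [hm _ _ k] at c1 c2
    obtain rfl := Set.singleton_injective c2
    exact ⟨he', n, c1⟩
  · obtain ⟨η, e, h1, h2⟩ := bl ψ hψ
    obtain ⟨η', e', k1, k2⟩ := bl ψ' hψ'
    obtain ⟨m0, c, -, -⟩ := M h1
    obtain ⟨m1, c', -, -⟩ := M k1
    have a1 : Mt ψ (m0 ψ) := ⟨η, e, m0, h1, h2, c, rfl⟩
    have a2 : Mt ψ' (m1 ψ') := ⟨η', e', m1, k1, k2, c', rfl⟩
    obtain ⟨s, hs⟩ := (ty _ _ a1).1
    obtain ⟨s', hs'⟩ := (ty _ _ a2).1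
    rw [hm _ _ a2, ← k, ← hm _ _ a1] at hs'
    have b : ψ' ∈ SP η := ⟨hψ', by
      by_contra n
      have z := (hT.val _ _ _ hs η h1.2.1).1 h2.2
      rw [(hT.val _ _ _ hs' η h1.2.1).2 n] at z
      cases s <;> simp at z⟩
    exact c.2 h2 b (by rw [hm _ _ a1, k, ← hm _ _ ⟨η, e, m0, h1, b, c, rfl⟩])
  · obtain ⟨e0, h1, -⟩ := ex_ex h hg hO hη
    obtain ⟨m0, c, su, -⟩ := M h1
    obtain ⟨q, hq, k⟩ := su {e} (((G h1).2.2.2.2 _).2 (.inr ⟨e, he, hn, h0, rfl⟩)) fun k => by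
      have : e0 ∈ ({e} : Set _) := k ▸ vx_self
      exact hn ⟨η, this ▸ h1⟩
    exact ⟨q, hq.1, (Set.singleton_injective (hm _ _ ⟨η, e0, m0, h1, hq, c, k⟩)).symm⟩
  · obtain ⟨η, e, h1, h2⟩ := bl ψ hψ
    obtain ⟨m0, c, -, -⟩ := M h1
    have h3 := ex_gm h hg hγ h1
    have fw : ∀ y ∈ SP η, γ y ∈ SP (γ η) := fun y hy =>
      ⟨psC_gm h hg hγ hy.1, (bk_gm h hγ).2 hy.2⟩
    have bw : ∀ q ∈ SP (γ η), ∃ y ∈ SP η, γ y = q := fun q hq =>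
      ⟨γ⁻¹ q, ⟨psC_gm h hg (inv_mem hγ) hq.1, (bk_gm h hγ).1 (by rw [tc_ai]; exact hq.2)⟩,
        tc_ai γ q⟩
    have ij : Function.Injective (Set.image γ) := Set.image_injective.2 γ.injective
    have k : Mt (γ ψ) (γ '' m0 ψ) := by
      refine ⟨γ η, γ e, fun q => γ '' m0 (γ⁻¹ q), h3, fw ψ h2, ⟨fun q hq => ?_,
        fun q hq q' hq' k => ?_⟩, by simp only [tc_ia]⟩
      · obtain ⟨y, hy, rfl⟩ := bw q hq
        obtain ⟨c1, c2⟩ := c.1 y hy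
        simp only [tc_ia]
        refine ⟨c1.imp (fun c => ?_) fun c => ?_, fun c => c2 (ij (c.trans (vx_gm hP h hg hγ).symm))⟩
        · rw [c, ychb_img hP h hg hO hT hγ ((G h1).1 y hy).1 ((G h3).1 _ hq).1]
        · rw [c, ychb_img hP h hg hO hT hγ ((G h1).1 y hy).2 ((G h3).1 _ hq).2]
      · obtain ⟨y, hy, rfl⟩ := bw q hq
        obtain ⟨y', hy', rfl⟩ := bw q' hq'
        simp only [tc_ia] at k
        rw [c.2 hy hy' (ij k)]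
    have k1 := hm _ _ k
    rw [hm _ _ ⟨η, e, m0, h1, h2, c, rfl⟩, Set.image_singleton] at k1
    exact (Set.singleton_injective k1).symm

end Pool.Agent.Lib.MP_1ae3da_al.CT
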