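import Pool.Agent.Lib.MP_1ae3da_al.Y.Cc
import Pool.Agent.Lib.MP_1ae3da_al.Y.Cb
import Pool.Agent.Lib.MP_1ae3da_al.C.RCk

set_option autoImplicit false
set_option linter.unusedSectionVars false

/-! Multiplicity one and degrees (edited copy of C/RCk). -/

namespace Pool.Agent.Lib.MP_1ae3da_al.CT

open Submodule

variable {p a : ℕ} {F X : Type} [Field F] [CharZero F] [IsAlgClosed F] [Group X] [Finite X]
  [Fact p.Prime] {Q : Subgroup X} {d : X} {ga : X → MonoidAlgebra F X}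
  {GG : Subgroup (RingAut F)} {e e' ε ε' θ θ' i i' ψ ψ' η η' x y b : MonoidAlgebra F X}
  {γ : RingAut (MonoidAlgebra F X)} {om : X → F}
  {T : MonoidAlgebra F X →ₗ[F] MonoidAlgebra F X} {k : Type} [Field k] {O R : Subring F}
  {r : F → k}

/-- a subgroup of the normaliser is cyclic modulo the centraliser. -/
theorem yCk_gen (hQ : Nat.card Q = p) (S : Subgroup X) :
    ∃ n ∈ NQ Q, n ∈ S ∧ ∀ x ∈ NQ Q, x ∈ S → ∃ m : ℕ, ∃ c ∈ CQ Q, x = n ^ m * c := by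
  obtain ⟨ν, -, hν⟩ := rg_nu hQ
  obtain ⟨n, hn, h⟩ := rck_cyc ν (S.subgroupOf (NQ Q))
  refine ⟨n, n.2, hn, fun x hx hs => ?_⟩
  obtain ⟨m, hm⟩ := h ⟨x, hx⟩ hs
  exact ⟨m, _, (hν ((n ^ m)⁻¹ * ⟨x, hx⟩)).1 (by rw [map_mul, map_inv, hm, inv_mul_cancel]),
    by simp⟩

/-- the corner of `i Eo` is spanned by the powers of one element. -/
theorem yCk_corner (h : Cyc p a Q d) (hg : Ga0 GG p Q ga)
    (hθ : θ ∈ Irr F (HX F (Kp p Q))) (hi : Prim F (HX F (Kp p Q)) θ i) :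
    ∃ z : MonoidAlgebra F X, z * (i * Eo Q ga) = i * Eo Q ga * z ∧ ∀ b ∈ span F (HX F (NQ Q)),
      i * Eo Q ga * b * (i * Eo Q ga) ∈ span F (Set.range fun m : ℕ => i * Eo Q ga * z ^ m) := by
  have hu := gu_tg (F := F) (X := X)
  obtain ⟨n, hn, hs, gen⟩ := yCk_gen h.card (St (gu F X) θ)
  obtain ⟨z, ⟨-, ⟨w', hw', hz⟩, zc⟩, w, hw, hwz⟩ := tf_exists hu
    (Nat.cast_ne_zero.2 Nat.card_pos.ne') hθ (rck_norm hn) hs
  have KN := span_Hm_mono (F := F) (u := gu F X) (rck_le (p := p) (Q := Q))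
  have uN : ∀ x ∈ NQ Q, gu F X x ∈ span F (HX F (NQ Q)) := fun x hx => subset_span (mem_Hm hx)
  have ec : ∀ b ∈ span F (HX F (NQ Q)), Commute (Eo Q ga) b := fun b hb => Cen_comm (eo_cen hg) hb
  have zK : ∀ b ∈ span F (HX F (Kp p Q)), Commute z b := fun b hb => span_comm' zc hb
  have zN : z ∈ span F (HX F (NQ Q)) :=
    hz ▸ hu.span_mul (hu.span_mul (KN hw') (KN hθ.1.1)) (uN n hn)
  have tn : gu F X n * θ = θ * gu F X n := (hu.mem_St_span hθ.1.1).1 hs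
  have pw : ∀ m : ℕ, ∃ v ∈ span F (HX F (Kp p Q)), θ * gu F X (n ^ m) = v * z ^ m := fun m => by
    induction m with
    | zero => exact ⟨θ, hθ.1.1, by rw [pow_zero, pow_zero, gu_one]⟩
    | succ m ih =>
      obtain ⟨v, hv, e⟩ := ih
      refine ⟨w * v, hu.span_mul hw hv, ?_⟩
      rw [pow_succ', ← gu_mul, ← hθ.2.1, mul_assoc θ, ← mul_assoc θ (gu F X n), ← tn,
        mul_assoc, ← mul_assoc θ, ← hwz, e, pow_succ', mul_assoc, ← mul_assoc z, (zK v hv).eq]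
      simp only [mul_assoc]
  have ti : θ * i = i := by rw [Cen_comm hθ.1 hi.1, hi.2.1]
  refine ⟨z, ((zK i hi.1).mul_right (ec z zN).symm).eq, fun b hb => ?_⟩
  induction hb using span_induction with
  | zero => simp
  | add x y _ _ h1 h2 => rw [mul_add, add_mul]; exact add_mem h1 h2
  | smul c x _ h1 => rw [mul_smul_comm, smul_mul_assoc]; exact smul_mem _ c h1
  | mem x hx =>
    obtain ⟨c, -, x, hx, rfl⟩ := hx
    rw [mul_smul_comm, smul_mul_assoc]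
    refine smul_mem _ c ?_
    have e1 : i * Eo Q ga * gu F X x * (i * Eo Q ga) = i * (θ * gu F X x * θ) * i * Eo Q ga := by
      rw [mul_assoc i, (ec _ (uN x hx)).eq, ← (ec i (KN hi.1)).eq, mul_assoc i, mul_assoc,
        ← mul_assoc (Eo Q ga), (eo_irr h hg).2.1, (ec i (KN hi.1)).eq]
      conv_lhs => rw [← hi.2.1]
      conv_lhs => rhs; rhs; rw [hi.2.1, ← ti]
      simp only [mul_assoc]
    by_cases hxs : x ∈ St (gu F X) θ
    · obtain ⟨m, g, hc, rfl⟩ := gen x hx hxs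
      obtain ⟨v, hv, e⟩ := pw m
      obtain ⟨u, uk, eu⟩ := hg.inv' hc
      have eu' : gu F X g * Eo Q ga = u * Eo Q ga := by
        conv_lhs => rw [← (gs_one hg (eo_irr h hg).1.1).1, ← mul_assoc, eu, mul_assoc, ga_eo hg hc]
      obtain ⟨s, hd⟩ := hi.2.2.2.2 (v * u) (hu.span_mul hv uk)
      have e2 : i * (θ * gu F X (n ^ m * g) * θ) * i * Eo Q ga = s • (i * Eo Q ga * z ^ m) := by
        rw [← gu_mul, ← mul_assoc θ, e, ← smul_mul_assoc, ← smul_mul_assoc, ← hd]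
        simp only [mul_assoc]
        rw [← mul_assoc θ, ti, ← (ec i (KN hi.1)).eq, ← mul_assoc (gu F X g), eu', mul_assoc,
          (ec i (KN hi.1)).eq,
          (((zK _ uk).mul_right ((zK i hi.1).mul_right (ec z zN).symm)).pow_left m).eq]
        simp only [mul_assoc]
      rw [e1, e2]
      exact smul_mem _ s (subset_span ⟨m, rfl⟩)
    · rw [e1, corner_zero hu hθ (rck_norm hx) hxs]
      simp

theorem yCk_rel (h : Cyc p a Q d) {S : Subgroup X} (hS : CQ Q ≤ S) : ¬ p ∣ S.relIndex (NQ Q) :=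
  fun k => Nat.not_dvd_of_pos_of_lt (Nat.sub_pos_of_lt h.prime.one_lt)
    (Nat.sub_lt h.prime.pos one_pos)
    (k.trans ((Subgroup.relIndex_dvd_of_le_left _ hS).trans h.rel))

theorem chv_psiC (h : Cyc p a Q d) (hg : Ga0 GG p Q ga) (hO : Om GG Q om T) (hθ : θ ∈ Irr F (HX F (Kp p Q)))
    (hi : Prim F (HX F (Kp p Q)) θ i) (hψ : ψ ∈ PsC Q ga) :
    (ψ * θ ≠ 0 → Chv F (HX F (NQ Q)) ψ i = 1) ∧ (ψ * θ = 0 → Chv F (HX F (NQ Q)) ψ i = 0) := by
  have hu := gu_tg (F := F) (X := X)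
  have KN := span_Hm_mono (F := F) (u := gu F X) (rck_le (p := p) (Q := Q))
  have nN := nice_Hm0 hu (NQ Q)
  have nK := nice_Hm0 hu (Kp p Q)
  obtain ⟨n, ρ, hρ⟩ := nN.exists_MM hψ.1
  have mψ := hψ.1.1.1
  have r0 : ψ * θ = 0 ↔ ρ θ = 0 := by
    rw [hρ.ker mψ (KN hθ.1.1), Cen_comm hψ.1.1 (KN hθ.1.1)]
  rw [hρ.chv nN.mcl mψ (KN hi.1)]
  refine ⟨fun k => ?_, fun k => by
    rw [← hi.2.1, hρ.mul _ (KN hi.1) _ (KN hθ.1.1), r0.1 k, mul_zero, Matrix.trace_zero]⟩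
  obtain ⟨s, s1, s2⟩ := trace_decomp nK (ρ := ρ) (fun x hx y hy => hρ.mul x (KN hx) y (KN hy)) hθ
  have s3 := s2 i hi.1
  rw [hi.2.1, hi.chv nK hθ, mul_one] at s3
  have me : Eo Q ga ∈ span F (HX F (NQ Q)) := (eo_cen hg).1
  have mj := hu.span_mul (KN hi.1) me
  have ie : Eo Q ga * i = i * Eo Q ga := Cen_comm (eo_cen hg) (KN hi.1)
  have jj : i * Eo Q ga * (i * Eo Q ga) = i * Eo Q ga := by
    rw [mul_assoc, ← mul_assoc (Eo Q ga), ie, mul_assoc, (eo_irr h hg).2.1, ← mul_assoc, hi.2.2.1]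
  obtain ⟨m, m1, -, m3⟩ := chv_idem nN hψ.1 mj jj
  have re : ρ (Eo Q ga) = 1 := by
    rw [← hρ.one, ← hψ.2, hρ.mul _ mψ _ me, hρ.one, one_mul]
  rw [hρ.chv nN.mcl mψ mj, hρ.mul _ (KN hi.1) _ me, re, mul_one, s3, Nat.cast_inj] at m1
  obtain ⟨z, zj, hz⟩ := yCk_corner h hg hθ hi
  generalize i * Eo Q ga = j at jj zj hz m3
  have cm : ∀ x ∈ span F (Set.range fun m : ℕ => j * z ^ m),
      ∀ y ∈ span F (Set.range fun m : ℕ => j * z ^ m), x * y = y * x := fun x hx y hy =>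
    (span_comm' (fun x hx => (span_comm' (by
      rintro _ ⟨l, rfl⟩
      obtain ⟨l', rfl⟩ := hx
      have c : Commute z j := zj
      exact (((Commute.refl j).mul_right (c.symm.pow_right l)).mul_left
        ((c.pow_left l').mul_right ((Commute.refl z).pow_pow l' l))).eq) hy).symm) hx).symm
  have le : m ≤ 1 := m3 fun x hx y hy => by
    have := cm _ (hz x hx) _ (hz y hy)
    simp only [mul_assoc] at this ⊢
    rwa [← mul_assoc j j, ← mul_assoc j j, jj] at this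
  have ne : s ≠ 0 := fun q => k (r0.2 (by
    rw [q, zero_mul] at s1
    exact Matrix.toLin'.map_eq_zero_iff.1 (LinearMap.range_eq_bot.1 (finrank_eq_zero.1 s1))))
  rw [s3, show s = 1 by omega, Nat.cast_one]

/-- for `ψ`: `c1_t` with `L = K` and `chv_t` give `dg ψ = relIndex * dg θ`; for `η`: `c1_dg`. -/
theorem irrN_ndvdC (h : Cyc p a Q d) (hg : Ga0 GG p Q ga) (hO : Om GG Q om T) (hx : x ∈ Irr F (HX F (NQ Q)))
    (h1 : x * ga 1 = x) : ¬ p ∣ Dg F (HX F (NQ Q)) x := by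
  have hp := h.prime
  have hu := gu_tg (F := F) (X := X)
  have nN := nice_Hm0 hu (NQ Q)
  have nK := nice_Hm0 hu (Kp p Q)
  intro hd
  rcases psi_or_etaC h hg hx h1 with h2 | h2
  · obtain ⟨θ, hθ, h3, -⟩ := bk_refl (p := p) (Q := Q) hx.2.2.1
    obtain ⟨i, hi⟩ := exists_Prim nK hθ
    obtain ⟨t, ht⟩ := exists_Tf hu
    have hv := over_ivt hg hx h1 hθ h3
    have o1 : (1 : MonoidAlgebra F X) ∈ span F (HX F (NQ Q)) :=
      gu_one (F := F) (X := X) ▸ subset_span (mem_Hm (one_mem _))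
    have θN := span_Hm_mono rcc_KN hθ.1.1
    have e1 := c1_t hu ht rcc_KN rcc_nK hθ hx h3
    have e2 := chv_t ht hx hx.1.1
    have e3 := chv_t ht hx θN
    have e4 := chv_theta rcc_KN hx hθ hi o1 fun s _ => by rw [one_mul, mul_one]
    rw [mul_one, mul_one, (chv_psiC h hg hO hθ hi h2).1 h3, mul_one] at e4
    rw [hx.2.1, chv_self nN hx, e1, Cen_comm hx.1 θN, mul_left_comm, e3, e4, mul_left_comm] at e2
    have e5 := mul_left_cancel₀ (Nat.cast_ne_zero.2 (Dg_sq nN hx).2.ne') e2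
    rw [← Nat.cast_mul, Nat.cast_inj] at e5
    rw [dvd_Dg_iff nN hx hp, ← e5] at hd
    rcases hp.dvd_mul.1 hd with h8 | h8
    · exact yCk_rel h (fun c hc => (hu.mem_St_span hθ.1.1).2 (hv c hc)) h8
    · exact irrK_ndvd h.kcard hθ h8
  · obtain ⟨θ, i, ε, tr⟩ := eta_tri0 h hg h2
    have hv := tr.ivt hg
    obtain ⟨η, -, h6, h7⟩ := eta_exC h hg tr.irrK hv tr.irrQ tr.ne
    obtain rfl := h7 x hx tr.ov
    rw [c1_dg hu rcc_CN rcc_nC (irrCC h hg tr.irrQ tr.irrK hv) hx tr.ov,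
      ← Subgroup.inf_relIndex_right, inf_comm, eta_St h hg tr.irrK hv tr.irrQ tr.ne, h6,
      dgCC h hg tr.irrQ tr.irrK hv] at hd
    rcases hp.dvd_mul.1 hd with h8 | h8
    · exact yCk_rel h le_rfl (hp.dvd_of_dvd_pow h8)
    · exact irrK_ndvd h.kcard tr.irrK ((dvd_Dg_iff nK tr.irrK hp).1 h8)

end Pool.Agent.Lib.MP_1ae3da_al.CT
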