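import Pool.Agent.Lib.MP_1ae3da_al.Y.Ce

set_option autoImplicit false
set_option linter.unusedSectionVars false

/-! Degrees modulo `p`. -/

namespace Pool.Agent.Lib.MP_1ae3da_al.CT

open Submodule

variable {p a : ℕ} {F X : Type} [Field F] [CharZero F] [IsAlgClosed F] [Group X] [Finite X]
  [Fact p.Prime] {Q : Subgroup X} {d : X} {ga : X → MonoidAlgebra F X}
  {GG : Subgroup (RingAut F)} {e e' ε ε' θ θ' i i' ψ ψ' η η' x y b : MonoidAlgebra F X}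
  {γ : RingAut (MonoidAlgebra F X)} {om : X → F}
  {T : MonoidAlgebra F X →ₗ[F] MonoidAlgebra F X} {k : Type} [Field k] {O R : Subring F}
  {r : F → k}

theorem ycl_dvd {A : Type} (s : Finset A) (σ : A → A) (f : A → ℕ) (h1 : ∀ x ∈ s, σ x ∈ s)
    (h2 : ∀ x, σ^[p ^ a] x = x) (h3 : ∀ x ∈ s, σ x ≠ x) (h4 : ∀ x ∈ s, f (σ x) = f x) :
    p ∣ ∑ x ∈ s, f x := by
  classical
  let S := s.sigma fun x => Finset.range (f x)
  let g : Function.End S := fun q => ⟨⟨σ q.1.1, q.1.2⟩, by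
    have := Finset.mem_sigma.1 q.2
    exact Finset.mem_sigma.2 ⟨h1 _ this.1, by simpa [h4 _ this.1] using this.2⟩⟩
  have it : ∀ (n : ℕ) (q : S), ((g ^ n) q).1 = ⟨σ^[n] q.1.1, q.1.2⟩ := fun n => by
    induction n with
    | zero => exact fun q => rfl
    | succ n ih => exact fun q => by rw [pow_succ]; exact ih (g q)
  have h5 := Equiv.Perm.card_fixedPoints_modEq (p := p) (n := a) (f := g)
    (funext fun q => Subtype.ext ((it _ q).trans (by rw [h2]; rfl)))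
  have h6 : Fintype.card (Function.fixedPoints g) = 0 := Fintype.card_eq_zero_iff.2 ⟨fun q =>
    h3 _ (Finset.mem_sigma.1 q.1.2).1 (congrArg (fun x : S => x.1.1) q.2)⟩
  rw [h6, Fintype.card_coe, Finset.card_sigma] at h5
  simpa using (Nat.modEq_zero_iff_dvd.1 h5)

omit [Fact p.Prime] in
theorem ycl_sum {ι : Type} (S : Set (MonoidAlgebra F X)) (e : MonoidAlgebra F X) (s : Finset ι)
    (f : ι → MonoidAlgebra F X) : Chv F S e (∑ j ∈ s, f j) = ∑ j ∈ s, Chv F S e (f j) := by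
  obtain ⟨l, hl⟩ := Chv_lin (F := F) S e
  simp only [← hl, map_sum]

theorem ycl_zero (S : Set (MonoidAlgebra F X)) (e : MonoidAlgebra F X) : Chv F S e 0 = 0 := by
  obtain ⟨l, hl⟩ := Chv_lin (F := F) S e
  rw [← hl, map_zero]

theorem ycl_self {H : Subgroup X} (he : e ∈ Irr F (HX F H)) (hb : b ∈ span F (HX F H))
    (h : e * b = e) : Chv F (HX F H) e b = dg F (HX F H) e := by
  rw [← chv_mul_e (rce_nice H) he hb, ← Cen_comm he.1 hb, h, chv_self (rce_nice H) he]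

theorem ycl_kill {H : Subgroup X} (he : e ∈ Irr F (HX F H)) (hb : b ∈ span F (HX F H))
    (h : b * e = 0) : Chv F (HX F H) e b = 0 := by
  rw [← chv_mul_e (rce_nice H) he hb, h, ycl_zero]

theorem ycl_ivt (h : Cyc p a Q d) (hθ : θ ∈ Irr F (HX F (Kp p Q))) :
    Ivt Q θ ↔ gu F X d * θ * gu F X d⁻¹ = θ := by
  refine ⟨fun i => (rcc_move (i d h.dC)).symm, fun i c hc => ?_⟩
  obtain ⟨k, hk, j, -, rfl⟩ := h.split hc
  have h1 : gu F X d * θ = θ * gu F X d := by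
    conv_rhs => rw [← i, mul_assoc, (rcc_inv d).2, mul_one]
  have h2 : ∀ j : ℕ, gu F X (d ^ j) * θ = θ * gu F X (d ^ j) := fun j => by
    induction j with
    | zero => rw [pow_zero, gu_one, one_mul, mul_one]
    | succ j ih => rw [pow_succ, ← gu_mul, mul_assoc, h1, ← mul_assoc, ih, mul_assoc]
  rw [← gu_mul, mul_assoc, h2, ← mul_assoc, ← Cen_comm hθ.1 (rce_gu hk), mul_assoc]

/-- `d` permutes the non invariant blocks of `K` in cycles of length divisible by `p`. -/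
theorem nz_dvd (h : Cyc p a Q d) (hg : Ga0 GG p Q ga) {H : Subgroup X} (hH : CQ Q ≤ H) (he : e ∈ Irr F (HX F H)) :
    ∃ n : ℕ, Chv F (HX F H) e (1 - ga 1) = p * n := by
  classical
  obtain ⟨s, hs, h1⟩ := irr_fin (F := F) (Kp p Q)
  have ms : ∀ θ, θ ∈ s ↔ θ ∈ Irr F (HX F (Kp p Q)) := fun θ => by rw [← hs]; rfl
  have mH : ∀ θ ∈ s, θ ∈ span F (HX F H) := fun θ hθ =>
    span_Hm_mono ((kp_le Q).trans hH) ((ms θ).1 hθ).1.1
  choose! f hf using fun θ (hθ : θ ∈ s) =>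
    chv_idem (rce_nice H) he (mH θ hθ) ((ms θ).1 hθ).2.1
  obtain ⟨γ, hγ, -, h2, -, h3, -⟩ := gm_ad (p := p) (F := F) (GG := GG) (rcc_CN h.dC)
  have h4 : ∀ θ ∈ s, γ θ ∈ s := fun θ hθ => (ms _).2 ((irr_stb hγ.1.1 h3).2 ((ms θ).1 hθ))
  have h5 : ∀ θ ∈ s, Ivt Q θ ↔ γ θ = θ := fun θ hθ => by rw [ycl_ivt h ((ms θ).1 hθ), h2]
  have it : ∀ (n : ℕ) x, γ^[n] x = gu F X (d ^ n) * x * gu F X (d ^ n)⁻¹ := fun n x => by
    induction n with
    | zero => simp [gu_one]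
    | succ n ih =>
      rw [Function.iterate_succ_apply', ih, h2, pow_succ', mul_inv_rev, ← gu_mul, ← gu_mul]
      simp only [mul_assoc]
  obtain ⟨n, hn⟩ := ycl_dvd (p := p) (a := a) (s.filter fun θ => γ θ ≠ θ) γ f
    (fun θ hθ => Finset.mem_filter.2 ⟨h4 θ (Finset.mem_filter.1 hθ).1,
      fun c => (Finset.mem_filter.1 hθ).2 (γ.injective c)⟩)
    (fun x => by rw [it, ← h.ord, pow_orderOf_eq_one, inv_one, gu_one, one_mul, mul_one])
    (fun θ hθ => (Finset.mem_filter.1 hθ).2) fun θ hθ => Nat.cast_injective (R := F) (by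
      have hθ := (Finset.mem_filter.1 hθ).1
      rw [← (hf _ (h4 θ hθ)).1, ← (hf θ hθ).1, h2, rce_conj he.1.1 (mH θ hθ) (hH h.dC)])
  have h6 : 1 - ga 1 = ∑ θ ∈ s with γ θ ≠ θ, θ := by
    rw [← one_mul (1 - ga 1), ← h1, Finset.sum_mul, h1, Finset.sum_filter]
    refine Finset.sum_congr rfl fun θ hθ => ?_
    split_ifs with c
    · rw [mul_sub, hg.ninv θ ((ms θ).1 hθ) (mt (h5 θ hθ).1 c), mul_one, sub_zero]
    · rw [mul_sub, hg.inv θ ((ms θ).1 hθ) ((h5 θ hθ).2 (not_not.1 c)), mul_one, sub_self]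
  refine ⟨n, ?_⟩
  rw [h6, ycl_sum, ← Nat.cast_mul, ← hn, Nat.cast_sum]
  exact Finset.sum_congr rfl fun θ hθ => (hf θ (Finset.mem_filter.1 hθ).1).1

theorem irrN_dvdC (h : Cyc p a Q d) (hg : Ga0 GG p Q ga) (hx : x ∈ Irr F (HX F (NQ Q))) (h0 : x * ga 1 = 0) : p ∣ Dg F (HX F (NQ Q)) x := by
  obtain ⟨n, hn⟩ := nz_dvd h hg rcc_CN hx
  rw [ycl_self hx (sub_mem (gu_one (F := F) (X := X) ▸ rce_gu (one_mem _)) hg.cenN.1)
    (by rw [mul_sub, h0, mul_one, sub_zero])] at hn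
  exact (dvd_Dg_iff (rce_nice _) hx h.prime).2 ⟨n, by exact_mod_cast hn⟩

theorem ycl_pair (h : Cyc p a Q d) (hg : Ga0 GG p Q ga) {H : Subgroup X} (hH : NQ Q ≤ H)
    (he : e ∈ Irr F (HX F H)) (m : MonoidAlgebra F X → F)
    (hm : ∀ η ∈ EtC Q ga, ∀ θ i ε, TriC Q ga p η θ i ε →
      m η = Chv F (HX F H) e (i * (Eo Q ga - ε))) {u : Finset (MonoidAlgebra F X)}
    (hu : (u : Set _) = EtC Q ga) (hθ : θ ∈ Irr F (HX F (Kp p Q))) (hε : ε ∈ Irr F (Gs Q ga)) :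
    ∑ η ∈ u, m η * Chv F (HX F (NQ Q)) η (θ * ε) = Chv F (HX F H) e (θ * (Eo Q ga - ε)) := by
  have mu : ∀ η, η ∈ u ↔ η ∈ EtC Q ga := fun η => by rw [← hu]; rfl
  have eo := (eo_irr h hg).1.1
  have mN : ∀ x ∈ span F (Gs Q ga), x ∈ span F (HX F (NQ Q)) := fun x hx =>
    span_Hm_mono rcc_CN (gs_le hg hx)
  by_cases h0 : ε = Eo Q ga
  · rw [h0, sub_self, mul_zero, ycl_zero]
    refine Finset.sum_eq_zero fun η hη => ?_
    have hη := (mu η).1 hη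
    rw [ycl_kill hη.1 (span_mul gu_tg (span_Hm_mono rcc_KN hθ.1.1) (mN _ eo))
      (by rw [mul_assoc, ← Cen_comm hη.1.1 (mN _ eo), hη.2.2, mul_zero]), mul_zero]
  by_cases hi : Ivt Q θ
  · obtain ⟨η, hη, h1, -⟩ := eta_exC h hg hθ hi hε h0
    obtain ⟨i, pi⟩ := exists_Prim (rce_nice _) hθ
    have t : TriC Q ga p η θ i ε := ⟨hθ, pi, hε, h0, by rw [h1]; exact (irrCC h hg hε hθ hi).2.2.1⟩
    have sb := sub_mem eo hε.1.1
    rw [chv_theta (rcc_KN.trans hH) he hθ pi (span_Hm_mono hH (mN _ sb))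
      (fun s hs => gs_comm hg sb (rcc_KC hs)), ← hm η hη θ i ε t,
      Finset.sum_eq_single η (fun y hy ne => ?_) fun c => (c ((mu η).2 hη)).elim]
    · rw [chv_theta rcc_KN hη.1 hθ pi (mN _ hε.1.1) (fun s hs => gs_comm hg hε.1.1 (rcc_KC hs)),
        (chv_etaC h hg hη.1 t hη.1).1 rfl, mul_one, mul_comm]
    · have hy := (mu y).1 hy
      rw [chv_theta rcc_KN hy.1 hθ pi (mN _ hε.1.1) (fun s hs => gs_comm hg hε.1.1 (rcc_KC hs)),
        (chv_etaC h hg hη.1 t hy.1).2 ne, mul_zero, mul_zero]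
  · have z : ∀ x ∈ span F (Gs Q ga), θ * x = 0 := fun x hx => by
      rw [← (gs_one hg hx).1, ← mul_assoc, hg.ninv θ hθ hi, zero_mul]
    simp only [z _ hε.1.1, z _ (sub_mem eo hε.1.1), ycl_zero, mul_zero, Finset.sum_const_zero]

theorem ycl_fin {P : MonoidAlgebra F X → Prop} :
    ∃ u : Finset (MonoidAlgebra F X), (u : Set _) = {η | η ∈ EtC Q ga ∧ P η} := by
  obtain ⟨s, hs, -⟩ := irr_fin (F := F) (NQ Q)
  have f : {η | η ∈ EtC Q ga ∧ P η}.Finite := s.finite_toSet.subset fun x hx => hs ▸ hx.1.1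
  exact ⟨f.toFinset, f.coe_toFinset⟩

theorem ycl_fin0 : ∃ u : Finset (MonoidAlgebra F X), (u : Set _) = EtC Q ga := by
  simpa using ycl_fin (Q := Q) (ga := ga) (P := fun _ => True)

/-- `η` is the sum of the `θ * ε` under it; both sides are sums over the pairs `(θ, ε)`. -/
theorem deg_sum (h : Cyc p a Q d) (hg : Ga0 GG p Q ga) {H : Subgroup X} (hH : NQ Q ≤ H) (he : e ∈ Irr F (HX F H))
    (m : MonoidAlgebra F X → F) (hm : ∀ η ∈ EtC Q ga, ∀ θ i ε, TriC Q ga p η θ i ε →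
      m η = Chv F (HX F H) e (i * (Eo Q ga - ε))) :
    ∑ᶠ η ∈ EtC Q ga, m η * dg F (HX F (NQ Q)) η =
      (p : F) ^ a * Chv F (HX F H) e (Eo Q ga) - Chv F (HX F H) e (ga 1) := by
  obtain ⟨u, hu⟩ := ycl_fin0 (Q := Q) (ga := ga)
  obtain ⟨s, hs, h1⟩ := irr_fin (F := F) (Kp p Q)
  obtain ⟨w, hw, h2, h3⟩ := gs_sum h hg
  have key := Finset.sum_congr rfl fun ε (hε : ε ∈ w) => Finset.sum_congr rfl fun θ (hθ : θ ∈ s) =>
    ycl_pair h hg hH he m hm hu (θ := θ) (ε := ε) (by rw [← hs]; exact hθ) (by rw [← hw]; exact hε)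
  have e1 : ∀ ε, ∑ θ ∈ s, ∑ η ∈ u, m η * Chv F (HX F (NQ Q)) η (θ * ε) =
      ∑ η ∈ u, m η * Chv F (HX F (NQ Q)) η ε := fun ε => by
    rw [Finset.sum_comm]
    simp only [← Finset.mul_sum, ← ycl_sum, ← Finset.sum_mul, h1, one_mul]
  simp only [e1, ← ycl_sum, ← Finset.sum_mul, h1, one_mul] at key
  rw [Finset.sum_comm] at key
  simp only [← Finset.mul_sum] at key
  rw [Finset.sum_sub_distrib, h3, Finset.sum_const, h2, rce_sub, ← Nat.cast_smul_eq_nsmul F,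
    chv_smul, Nat.cast_pow] at key
  rw [← key, ← hu, finsum_mem_coe_finset]
  refine Finset.sum_congr rfl fun η hη => ?_
  have hη : η ∈ EtC Q ga := by rw [← hu]; exact hη
  rw [← ycl_sum, h3, ycl_self hη.1 hg.cenN.1 hη.2.1]

theorem deg1 (h : Cyc p a Q d) (hg : Ga0 GG p Q ga) (he : e ∈ Irr F (HX F (⊤ : Subgroup X))) :
    (p : ℤ) ∣ dg F (HX F ⊤) e + ∑ᶠ η ∈ EtC Q ga, mzC Q ga p e η * dg F (HX F (NQ Q)) η := by
  obtain ⟨u, hu⟩ := ycl_fin0 (Q := Q) (ga := ga)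
  have h1 := deg_sum h hg le_top he (fun η => (mzC Q ga p e η : F))
    fun η hη θ i ε t => mz_specC h hg he hη.1 t
  obtain ⟨n, hn⟩ := nz_dvd h hg le_top he
  obtain ⟨n', hn', -⟩ := chv_idem (rce_nice ⊤) he (rce_top (Eo Q ga)) (eo_irr h hg).2.1
  obtain ⟨c, rfl⟩ : ∃ c, a = c + 1 := ⟨a - 1, by have := h.two; omega⟩
  rw [rce_sub, ycl_self he (rce_top 1) (mul_one e)] at hn
  rw [← hu, finsum_mem_coe_finset] at h1 ⊢
  refine ⟨n + p ^ c * n', Int.cast_injective (α := F) ?_⟩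
  push_cast
  rw [h1, hn']
  linear_combination hn

theorem deg2 (h : Cyc p a Q d) (hg : Ga0 GG p Q ga) (hO : Om GG Q om T) (hψ : ψ ∈ PsC Q ga) :
    p ∣ dg F (HX F (NQ Q)) ψ + ∑ᶠ η ∈ {η | η ∈ EtC Q ga ∧ Bk F p Q ψ η}, dg F (HX F (NQ Q)) η := by
  classical
  obtain ⟨u, hu⟩ := ycl_fin0 (Q := Q) (ga := ga)
  have h1 := deg_sum h hg le_rfl hψ.1 (fun η => if Bk F p Q ψ η then 1 else 0)
    fun η hη θ i ε t => by
      split_ifs with c
      · exact ((chv_psi_tri h hg hO hψ hη t).1 c).symm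
      · exact ((chv_psi_tri h hg hO hψ hη t).2 c).symm
  obtain ⟨c, rfl⟩ : ∃ c, a = c + 1 := ⟨a - 1, by have := h.two; omega⟩
  rw [ycl_self hψ.1 (eo_cen hg).1 hψ.2, ycl_self hψ.1 hg.cenN.1 (psC_z hg hψ), ← hu,
    finsum_mem_coe_finset] at h1
  have h2 : {η | η ∈ EtC Q ga ∧ Bk F p Q ψ η} = ↑(u.filter fun η => Bk F p Q ψ η) := by
    rw [← hu, Finset.coe_filter]; rfl
  rw [h2, finsum_mem_coe_finset, Finset.sum_filter]
  refine ⟨p ^ c * dg F (HX F (NQ Q)) ψ, Nat.cast_injective (R := F) ?_⟩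
  simp only [ite_mul, one_mul, zero_mul] at h1
  push_cast
  rw [h1]
  ring

end Pool.Agent.Lib.MP_1ae3da_al.CT
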