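import Pool.Agent.Lib.MP_1ae3da_al.Y.Pres
import Pool.Agent.Lib.MP_1ae3da_al.Y.HbT
import Pool.Agent.Lib.MP_1ae3da_al.Y.Loc
import Pool.Agent.Lib.MP_1ae3da_al.C.RSq

set_option autoImplicit false
set_option linter.unusedSectionVars false

/-! Cutting a lattice by a rational set of blocks; traces on acyclic modules. -/

namespace Pool.Agent.Lib.MP_1ae3da_al.CT.R5

open Function Submodule

section
variable {O : Type} [CommRing O] [IsDomain O] [IsDiscreteValuationRing O] [CharZero O] {p a : ℕ}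
  {U : Type} [AddCommGroup U] [Module O U] [Module.Free O U] [Module.Finite O U]
  {G : Module.End O U}

/-- on an acyclic module the traces vanish -/
theorem yedg_tr (hW : Wt p O) (hG : G ^ (p ^ a + 1) = G) (hz : ∀ i, yZ (p ^ a) G i) {n : ℕ}
    (h0 : 0 < n) (hn : n < p ^ a) : LinearMap.trace O U (G ^ n) = 0 := by
  have q0 := Nat.pos_of_ne_zero (pow_ne_zero a hW.prime.ne_zero)
  rw [← yGs_trace hG h0]
  exact free_trace_H hW (yGs_pow q0 hG)
    (loc_H0 hW (yGs_pow q0 hG) fun i => yGs_Z q0 hG (hz i)) n h0 hn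

theorem yedg_tr_cut (hW : Wt p O) (hG : G ^ (p ^ a + 1) = G) (hz : ∀ i, yZ (p ^ a) G i)
    {T : Module.End O U} (hT : T * T = T) (cm : T * G = G * T) {n : ℕ}
    (h0 : 0 < n) (hn : n < p ^ a) : LinearMap.trace O U (T * G ^ n) = 0 := by
  obtain ⟨g, h⟩ := yhbt_rt hT cm
  exact (h.trace n).symm.trans (yedg_tr hW (h.pow hG) (fun i => h.z (hz i)) h0 hn)

end

variable {p : ℕ} {F k X : Type} [Field F] [CharZero F] [IsAlgClosed F] [Field k] [Group X]
  [Finite X] {O R : Subring F} {r : F → k} {GG : Subgroup (RingAut F)}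
  [IsDiscreteValuationRing O]

theorem yedg_eps (h : PM p O R r GG) (A : Set (MonoidAlgebra F X))
    (hA : ∀ γ ∈ G0 O GG X, ∀ e ∈ A, γ e ∈ A) :
    ∃ (ε : MonoidAlgebra F X) (n : ℕ), (∀ x, (p : F) ^ n * ε.coeff x ∈ O) ∧ ε * ε = ε ∧
      (∀ x, gu F X x * ε = ε * gu F X x) ∧
      ∀ y ∈ Irr F (HX F (⊤ : Subgroup X)), (y ∈ A → y * ε = y) ∧ (y ∉ A → y * ε = 0) := by
  classical
  have := Fintype.ofFinite X
  obtain ⟨s, hs, -⟩ := Irr_sum (H := (⊤ : Subgroup X)) (gu_tg (F := F))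
    (Nat.cast_ne_zero.2 Nat.card_pos.ne')
  set t := s.filter (· ∈ A) with ht
  have hm : ∀ x, x ∈ t ↔ x ∈ Irr F (HX F (⊤ : Subgroup X)) ∧ x ∈ A := fun x => by
    rw [ht, Finset.mem_filter, ← Finset.mem_coe, hs]
  have st : ∀ γ ∈ G0 O GG X, ∀ x ∈ t, γ x ∈ t := fun γ hγ x hx =>
    (hm _).2 ⟨(irr_stb (rsq_g0 hγ).1 (rsq_g0 hγ).2).2 ((hm x).1 hx).1, hA γ hγ x ((hm x).1 hx).2⟩
  set ε := ∑ x ∈ t, x with hε
  have h1 : ∀ γ ∈ G0 O GG X, γ ε = ε := fun γ hγ => by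
    rw [hε, map_sum]
    exact Finset.sum_bij (fun x _ => γ x) (st γ hγ) (fun x _ y _ h => γ.injective h)
      (fun y hy => ⟨γ⁻¹ y, st _ (inv_mem hγ) y hy, γ.apply_symm_apply y⟩) fun _ _ => rfl
  have h2 : ∀ x, ∃ a : ℕ, (p : F) ^ a * ε.coeff x ∈ O := fun x => h.fix _ fun σ hσ h0 => by
    obtain ⟨γ, h3, h4⟩ := ga_aut (X := X) σ 1
    rw [← rsq_coeff h3 h4, h1 γ ⟨σ, hσ, h0, h3, h4⟩]
  choose a ha using h2
  have h5 : ∀ y ∈ Irr F (HX F (⊤ : Subgroup X)), y * ε = if y ∈ t then y else 0 := fun y hy => by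
    rw [hε, Finset.mul_sum, ← Finset.sum_ite_eq t y fun _ => y]
    refine Finset.sum_congr rfl fun x hx => ?_
    split_ifs with h6
    · rw [← h6, hy.2.1]
    · exact Irr_orth hy ((hm x).1 hx).1 h6
  refine ⟨ε, ∑ y, a y, fun x => ?_, ?_, fun x => ?_, fun y hy => ⟨fun m => ?_, fun m => ?_⟩⟩
  · obtain ⟨c, hc⟩ := Nat.exists_eq_add_of_le'
      (Finset.single_le_sum (f := a) (fun _ _ => Nat.zero_le _) (Finset.mem_univ x))
    rw [hc, pow_add, mul_assoc]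
    exact O.mul_mem (O.pow_mem (natCast_mem O p) c) (ha x)
  · conv_lhs => rw [hε, Finset.sum_mul]
    exact Finset.sum_congr rfl fun y hy => by rw [← hε, h5 y ((hm y).1 hy).1, if_pos hy]
  · rw [hε, Finset.mul_sum, Finset.sum_mul]
    exact Finset.sum_congr rfl fun y hy => (((hm y).1 hy).1.1.2 _ (aga_mem.2 trivial)).symm
  · rw [h5 y hy, if_pos ((hm y).2 ⟨hy, m⟩)]
  · rw [h5 y hy, if_neg fun c => m ((hm y).1 c).2]

/-- the operator of a rational set of blocks -/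
theorem blk_op (h : PM p O R r GG) (A : Set (MonoidAlgebra F X))
    (hA : ∀ γ ∈ G0 O GG X, ∀ e ∈ A, γ e ∈ A) :
    ∃ (a : X → O) (c : O), c ≠ 0 ∧ ∀ V : Lat O X, V.Hom V (V.op a) ∧
      V.op a * V.op a = c • V.op a ∧ (V.op a = 0 ↔ Disjoint (Sup V) A) ∧
      (V.op a = c • 1 ↔ Sup V ⊆ A) := by
  classical
  have := Fintype.ofFinite X
  obtain ⟨ε, n, h3, h6, h8, h5⟩ := yedg_eps h A hA
  obtain ⟨s, hs, h1⟩ := Irr_sum (H := (⊤ : Subgroup X)) (gu_tg (F := F))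
    (Nat.cast_ne_zero.2 Nat.card_pos.ne')
  have hs' : ∀ y ∈ s, y ∈ Irr F (HX F (⊤ : Subgroup X)) := fun y hy => by rw [← hs]; exact hy
  have hp : (p : F) ^ n ≠ 0 := pow_ne_zero _ (Nat.cast_ne_zero.2 h.prime.ne_zero)
  have hc : (((p : O) ^ n : O) : F) = (p : F) ^ n := by simp
  refine ⟨fun x => ⟨_, h3 x⟩, (p : O) ^ n, fun e => hp (by rw [← hc, e]; rfl), fun V => ?_⟩
  set f := V.op fun x => (⟨_, h3 x⟩ : O) with hf
  have h4 : rspM V f = (p : F) ^ n • rspR V (MonoidHom.id X) ε := by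
    rw [hf, Lat.op, finsum_eq_sum_of_fintype, rspR_apply, Finset.smul_sum, map_sum]
    exact Finset.sum_congr rfl fun x _ => by rw [rspM_smul, smul_smul]; rfl
  have ex : ∀ b, rspR V (MonoidHom.id X) b = ∑ y ∈ s, rspR V (MonoidHom.id X) (y * b) :=
    fun b => by rw [← map_sum, ← Finset.sum_mul, h1, gu_one, one_mul]
  have z : ∀ y ∈ s, y ∉ Sup V → rspR V (MonoidHom.id X) y = 0 := fun y hy m =>
    not_not.1 fun c => m ((rsq_mem V (hs' y hy)).2 c)
  refine ⟨fun x v => ?_, rspM_inj V ?_, ⟨fun e => Set.disjoint_left.2 fun y hy m => ?_,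
    fun e => rspM_inj V ?_⟩, ⟨fun e y hy => by_contra fun m => ?_, fun e => rspM_inj V ?_⟩⟩
  · have h9 : f * V.ρ x = V.ρ x * f := rspM_inj V (by
      rw [map_mul, map_mul, h4, ← rsq_gu, smul_mul_assoc, mul_smul_comm, ← rsq_mul, ← rsq_mul, h8])
    exact LinearMap.congr_fun h9 v
  · rw [map_mul, rspM_smul, h4, smul_mul_smul_comm, ← rsq_mul, h6, hc, smul_smul]
  · rw [e, map_zero] at h4
    refine (rsq_mem V hy.1).1 hy ?_
    rw [← (h5 y hy.1).1 m, rsq_mul, (smul_eq_zero.1 h4.symm).resolve_left hp, mul_zero]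
  · rw [h4, map_zero, ex, Finset.sum_eq_zero fun y hy => ?_, smul_zero]
    by_cases m : y ∈ A
    · rw [rsq_mul, z y hy fun c => Set.disjoint_left.1 e c m, zero_mul]
    · rw [(h5 y (hs' y hy)).2 m, map_zero]
  · rw [e, rspM_smul, map_one, hc] at h4
    refine (rsq_mem V hy.1).1 hy ?_
    rw [← mul_one (rspR V _ y), smul_right_injective _ hp h4, ← rsq_mul, (h5 y hy.1).2 m, map_zero]
  · rw [h4, rspM_smul, map_one, hc, ← rspR_one V (ι := MonoidHom.id X) injective_id, ex, ex 1]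
    refine congrArg _ (Finset.sum_congr rfl fun y hy => ?_)
    by_cases m : y ∈ A
    · rw [(h5 y (hs' y hy)).1 m, mul_one]
    · rw [rsq_mul, rsq_mul, z y hy fun c => m (e c), zero_mul, zero_mul]

/-- the quotient with support in `A` and the kernel with support off `A` -/
theorem blk_cut (h : PM p O R r GG) (A : Set (MonoidAlgebra F X))
    (hA : ∀ γ ∈ G0 O GG X, ∀ e ∈ A, γ e ∈ A) (V : Lat O X) :
    ∃ (W U : Lat O X) (j : W.V →ₗ[O] V.V) (π : V.V →ₗ[O] U.V), Ses W V U j π ∧ Sup U ⊆ A ∧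
      Disjoint (Sup W) A := by
  obtain ⟨a, c, -, k⟩ := blk_op h A hA
  obtain ⟨k1, k2, -⟩ := k V
  obtain ⟨U, π, h1, h2, h3⟩ := exists_quo V k1.ker_st.1 k1.ker_st.2
  obtain ⟨W, j, S⟩ := exists_ses h1 h2
  refine ⟨W, U, j, π, S, (k U).2.2.2.1 (LinearMap.ext fun u => ?_),
    (k W).2.2.1.1 (LinearMap.ext fun w => S.inj ?_)⟩
  · obtain ⟨v, rfl⟩ := h2 u
    have : V.op a v - c • v ∈ LinearMap.ker π := by
      rw [h3, LinearMap.mem_ker, map_sub, map_smul, ← Module.End.mul_apply, k2,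
        LinearMap.smul_apply, sub_self]
    rw [LinearMap.mem_ker, map_sub, map_smul, h1.op, sub_eq_zero] at this
    exact this
  · have : j w ∈ LinearMap.ker (V.op a) := by
      rw [← h3, ← S.ex]
      exact ⟨w, rfl⟩
    rw [S.hj.op, LinearMap.zero_apply, map_zero]
    exact this

/-- an indecomposable projective lattice whose support meets `A` -/
theorem blk_local (h : PM p O R r GG) (hW : Wt p O) (A : Set (MonoidAlgebra F X))
    (hA : ∀ γ ∈ G0 O GG X, ∀ e ∈ A, γ e ∈ A) {e : MonoidAlgebra F X}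
    (he : e ∈ Irr F (HX F (⊤ : Subgroup X))) (m : e ∈ A) :
    ∃ P : Lat O X, P.Hig ∧ Lcl p P ∧ ∃ e' ∈ Sup P, e' ∈ A := by
  obtain ⟨a, c, -, k⟩ := blk_op h A hA
  obtain ⟨V, -, hV⟩ := rsq_tot (O := O) he
  obtain ⟨P0, q, h1, h2, h3⟩ := rlproj_start V
  obtain ⟨P, j, r, -, a1, a2, a3⟩ := pres_local (a := a) P0 h1 fun z =>
    Set.disjoint_left.1 ((k V).2.2.1.1 (LinearMap.ext fun v => by
      obtain ⟨y, rfl⟩ := h3 v
      rw [← h2.op, z, LinearMap.zero_apply, map_zero, LinearMap.zero_apply])) hV m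
  exact ⟨P, a1, ⟨a2.1, hW.fit_ind a2.2⟩,
    Set.not_disjoint_iff.1 fun z => a3 ((k P).2.2.1.2 z)⟩

end Pool.Agent.Lib.MP_1ae3da_al.CT.R5
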