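import Pool.Agent.Lib.MP_1ae3da_al.Y.Mul
import Pool.Agent.Lib.MP_1ae3da_al.Y.EdgA

set_option autoImplicit false
set_option linter.unusedSectionVars false

/-! Cutting a lattice by a rational set of blocks. -/

namespace Pool.Agent.Lib.MP_1ae3da_al.CT.R5

open Function Submodule

variable {F k X : Type} [Field F] [CharZero F] [IsAlgClosed F] [Field k] [Group X] [Finite X]
  {p a : ℕ} [Fact p.Prime] {O R : Subring F} [IsDiscreteValuationRing O] {r : F → k}
  {GG : Subgroup (RingAut F)} {Q : Subgroup X} {ga : X → MonoidAlgebra F X} {d : Nz Q}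
  {g : MonoidAlgebra O (Nz Q)} {e e' ψ η θ i ε : MonoidAlgebra F X}
  {γ : RingAut (MonoidAlgebra F X)} {om : X → F}
  {T : MonoidAlgebra F X →ₗ[F] MonoidAlgebra F X} {s : MonoidAlgebra F X → ℕ}

variable {V W P U : Lat O X}

theorem ycq_add {j : W.V →ₗ[O] P.V} {π : P.V →ₗ[O] U.V} (S : Ses W P U j π) (h : Mult P s)
    {s1 s2 : MonoidAlgebra F X → ℕ} (h1 : Mult W s1) (h2 : Mult U s2)
    (he : e ∈ Irr F (HX F (⊤ : Subgroup X))) : s e = s1 e + s2 e := by
  have := Fintype.ofFinite X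
  obtain ⟨t, ht, -⟩ := irr_fin (F := F) (⊤ : Subgroup X)
  have k := chv_indep (fun e => (s e : F)) (fun e => ((s1 e + s2 e : ℕ) : F)) (fun x _ => by
    have e1 := h1 x
    have e2 := h2 x
    rw [← h x]
    rw [← ht, finsum_mem_coe_finset] at e1 e2 ⊢
    simp only [Nat.cast_add, add_mul, Finset.sum_add_distrib]
    rw [← e1, ← e2]
    simp only [Lat.chF, finsum_eq_sum_of_fintype, S.ch, map_add, mul_add,
      Finset.sum_add_distrib]) he
  exact_mod_cast k

/-- `p ^ b` times the sum of the blocks in `A` has coefficients in `O` (`PM.fix`, see `rsq_orb`);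
`U` is the quotient by the kernel of that operator. -/
theorem cut_ex (hP : PM p O R r GG) (h : Mult P s) {A : Set (MonoidAlgebra F X)}
    (hA : A ⊆ Irr F (HX F (⊤ : Subgroup X))) (h0 : ∀ γ ∈ G0 O GG X, ∀ e ∈ A, γ e ∈ A) :
    ∃ (W U : Lat O X) (j : W.V →ₗ[O] P.V) (π : P.V →ₗ[O] U.V), Ses W P U j π ∧
      Mult U (A.indicator s) ∧ Mult W (Aᶜ.indicator s) := by
  have _ := hA
  obtain ⟨W, U, j, π, S, h1, h2⟩ := blk_cut hP A h0 P
  obtain ⟨s1, m1⟩ := mult_ex W
  obtain ⟨s2, m2⟩ := mult_ex U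
  have z1 : ∀ e ∈ Irr F (HX F (⊤ : Subgroup X)), e ∈ A → s1 e = 0 := fun e he m =>
    by_contra fun c => Set.disjoint_left.1 h2 (m1.sup.2 ⟨he, c⟩) m
  have z2 : ∀ e ∈ Irr F (HX F (⊤ : Subgroup X)), e ∉ A → s2 e = 0 := fun e he m =>
    by_contra fun c => m (h1 (m2.sup.2 ⟨he, c⟩))
  refine ⟨W, U, j, π, S, m2.congr fun e he => ?_, m1.congr fun e he => ?_⟩
  · by_cases m : e ∈ A
    · rw [Set.indicator_of_mem m, ycq_add S h m1 m2 he, z1 e he m, zero_add]
    · rw [Set.indicator_of_notMem m, z2 e he m]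
  · by_cases m : e ∈ A
    · rw [Set.indicator_of_notMem (not_not.2 m), z1 e he m]
    · rw [Set.indicator_of_mem (show e ∈ Aᶜ from m), ycq_add S h m1 m2 he, z2 e he m, add_zero]

end Pool.Agent.Lib.MP_1ae3da_al.CT.R5
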