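import Pool.Agent.Lib.MP_1ae3da_al.C.RCD

/-! Cyclic Sylow subgroups of order at least `p ^ 2`, character side: definitions. -/

namespace Pool.Agent.Lib.MP_1ae3da_al.CT

open Submodule

/-- `X` is perfect, `d` generates a Sylow `p`-subgroup of order `p ^ a`, `Q` is its subgroup of
order `p`. -/
structure Cyc (p a : ℕ) {X : Type} [Group X] (Q : Subgroup X) (d : X) : Prop where
  prime : p.Prime
  odd : p ≠ 2
  per : commutator X = ⊤
  card : Nat.card Q = p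
  ord : orderOf d = p ^ a
  two : 2 ≤ a
  ind : ¬ p ∣ (Subgroup.zpowers d).index
  le : Q ≤ Subgroup.zpowers d

section
variable {F X : Type} [Field F] [Group X]

/-- invariance under the centraliser. -/
def Ivt (Q : Subgroup X) (θ : MonoidAlgebra F X) : Prop :=
  ∀ c ∈ CQ Q, gu F X c * θ = θ * gu F X c

/-- the twisted copy of `C / K` in the centre of the group algebra of `C`. -/
structure Ga0 (GG : Subgroup (RingAut F)) (p : ℕ) (Q : Subgroup X)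
    (ga : X → MonoidAlgebra F X) : Prop where
  mul : ∀ c ∈ CQ Q, ∀ c' ∈ CQ Q, ga (c * c') = ga c * ga c'
  triv : ∀ k ∈ Kp p Q, ga k = ga 1
  hom : ∀ c ∈ CQ Q, ∃ w ∈ span F (HX F (Kp p Q)), ga c = w * gu F X c
  cen : ∀ c ∈ CQ Q, ∀ x ∈ CQ Q, ga c * gu F X x = gu F X x * ga c
  inv : ∀ θ ∈ Irr F (HX F (Kp p Q)), Ivt Q θ → θ * ga 1 = θ
  ninv : ∀ θ ∈ Irr F (HX F (Kp p Q)), ¬ Ivt Q θ → θ * ga 1 = 0
  nat : ∀ γ ∈ Gm GG Q, ∀ α : MulAut X, (∀ x, γ (gu F X x) = gu F X (α x)) →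
    ∀ c ∈ CQ Q, γ (ga c) = ga (α c)

variable (Q : Subgroup X) (ga : X → MonoidAlgebra F X)

/-- the homogeneous elements of the twisted copy. -/
def Gs : Set (MonoidAlgebra F X) := {x | ∃ s : F, s ≠ 0 ∧ ∃ c ∈ CQ Q, x = s • ga c}

/-- the idempotent of the trivial character of the twisted copy. -/
noncomputable def Eo : MonoidAlgebra F X := (Nat.card (CQ Q) : F)⁻¹ • ∑ᶠ c : CQ Q, ga c

/-- the blocks of the normaliser on which the twisted copy is trivial. -/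
def PsC : Set (MonoidAlgebra F X) := {ψ | ψ ∈ Irr F (HX F (NQ Q)) ∧ ψ * Eo Q ga = ψ}

/-- the other blocks of the normaliser over invariant blocks of the complement. -/
def EtC : Set (MonoidAlgebra F X) :=
  {η | η ∈ Irr F (HX F (NQ Q)) ∧ η * ga 1 = η ∧ η * Eo Q ga = 0}

variable (p : ℕ)

/-- `η` lies over `θ * ε`, and `i` is a primitive idempotent in the block `θ`. -/
structure TriC (η θ i ε : MonoidAlgebra F X) : Prop where
  irrK : θ ∈ Irr F (HX F (Kp p Q))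
  prim : Prim F (HX F (Kp p Q)) θ i
  irrQ : ε ∈ Irr F (Gs Q ga)
  ne : ε ≠ Eo Q ga
  ov : η * (θ * ε) ≠ 0

variable (F) in
/-- the span of the `p`-singular elements of the centraliser. -/
noncomputable def SgC : Submodule F (MonoidAlgebra F X) :=
  span F {x | ∃ c ∈ CQ Q, c ∉ Kp p Q ∧ x = gu F X c}

open Classical in
/-- the difference of the multiplicities. -/
noncomputable def mzC (e η : MonoidAlgebra F X) : ℤ :=
  if h : ∃ z : ℤ, ∃ θ i ε, TriC Q ga p η θ i ε ∧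
    Chv F (HX F ⊤) e (i * (Eo Q ga - ε)) = z then h.choose else 0

/-- `e` is the exceptional block that belongs to `η`. -/
def ExC (e η : MonoidAlgebra F X) : Prop :=
  e ∈ Irr F (HX F (⊤ : Subgroup X)) ∧ η ∈ EtC Q ga ∧ mzC Q ga p e η ≠ 0 ∧
    ∃ η' ∈ EtC Q ga, Bk F p Q η η' ∧ mzC Q ga p e η' = 0

/-- the total multiplicity difference of a set of blocks. -/
noncomputable def cvC (v : Set (MonoidAlgebra F X)) (η : MonoidAlgebra F X) : ℤ :=
  ∑ᶠ e ∈ v, mzC Q ga p e η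

/-- the same with multiplicities. -/
noncomputable def cmC (s : MonoidAlgebra F X → ℕ) (η : MonoidAlgebra F X) : ℤ :=
  ∑ᶠ e ∈ Irr F (HX F (⊤ : Subgroup X)), (s e : ℤ) * mzC Q ga p e η

/-- balanced multiplicities. -/
def BalC (s : MonoidAlgebra F X → ℕ) : Prop :=
  ∀ η ∈ EtC Q ga, ∀ η' ∈ EtC Q ga, Bk F p Q η η' → cmC Q ga p s η = cmC Q ga p s η'

variable (O : Subring F) (GG : Subgroup (RingAut F))

/-- the vertex of a block. -/
def VxC (e : MonoidAlgebra F X) : Set (MonoidAlgebra F X) :=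
  {e' | e' ∈ Orb O GG e ∨ ∃ η η', ExC Q ga p e η ∧ ExC Q ga p e' η' ∧ Bk F p Q η η'}

/-- what the lattice side delivers: strong types `S` of vertices, weak types `W` of sets. -/
structure TyC (T : MonoidAlgebra F X →ₗ[F] MonoidAlgebra F X)
    (S W : Set (MonoidAlgebra F X) → MonoidAlgebra F X → Bool → Prop) : Prop where
  dom : ∀ v ψ i, S v ψ i →
    (∃ e ∈ Irr F (HX F (⊤ : Subgroup X)), v = VxC Q ga p O GG e) ∧ ψ ∈ PsC Q ga
  val : ∀ v ψ i, S v ψ i → ∀ η ∈ EtC Q ga,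
    (Bk F p Q ψ η → cvC Q ga p v η = if i then -1 else 1) ∧
      (¬ Bk F p Q ψ η → cvC Q ga p v η = 0)
  sw : ∀ v ψ i, S v ψ i → W v ψ i
  mono : ∀ A B ψ i, W A ψ i → A ⊆ B → W B ψ i
  uniq : ∀ v A ψ i, S v ψ i → W A ψ i → (v ∩ A).Nonempty
  eqv : ∀ γ ∈ Gm GG Q, ∀ A ψ i, W A ψ i → W (γ '' A) (γ ψ) i
  edge : ∀ e ∈ Irr F (HX F (⊤ : Subgroup X)), ∀ η ∈ EtC Q ga,
    cvC Q ga p (VxC Q ga p O GG e) η ≠ 0 → ∃ ψ v v', S v ψ false ∧ S v' ψ true ∧
      (v = VxC Q ga p O GG e ∨ v' = VxC Q ga p O GG e)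
  walk : ∀ A : Set (MonoidAlgebra F X),
    (∀ e ∈ A, ∃ η ∈ EtC Q ga, cvC Q ga p (VxC Q ga p O GG e) η ≠ 0) →
    (∀ ψ v v', S v ψ false → S v' ψ true → ((v ∪ v') ∩ A).Nonempty → v ∪ v' ⊆ A) →
    ∀ ψ, (W A ψ true → W A ψ false) ∧ (W A ψ false → W A (T ψ) true)
  ln : ∀ e ψ i, S {e} ψ i → e ∈ IrrP F p (HX F (⊤ : Subgroup X)) →
    ∃ U, Link F (Gm GG Q ⊓ Fx e ⊓ Fx ψ) (HX F ⊤) (HX F (NQ Q)) e ψ U

end

end Pool.Agent.Lib.MP_1ae3da_al.CT
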