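import Pool.Agent.Lib.MP_1ae3da_al.Y.SecB

set_option autoImplicit false
set_option linter.unusedSectionVars false

/-! Simple sections on which the twisted generator acts trivially. -/

namespace Pool.Agent.Lib.MP_1ae3da_al.CT.R5

open Function

variable {O X Y : Type} [CommRing O] [IsDomain O] [IsDiscreteValuationRing O] [CharZero O]
  [Group X] [Finite X] [Group Y] [Finite Y] {p a : ℕ} {U : Type} [AddCommGroup U] [Module O U]
  {K C : Subgroup Y} {d : Y} {w : MonoidAlgebra O Y}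

theorem secc_sub (g : Module.End O U) (j : ℕ) (v : U) :
    (g ^ j) v - v ∈ LinearMap.range (g - 1) :=
  ⟨(∑ i ∈ Finset.range j, g ^ i) v, LinearMap.congr_fun (mul_geom_sum g j) v⟩

/-- degree one: the kernel of the norm lies in the image of `g - 1` -/
theorem secc_one {q : ℕ} {g f : Module.End O U}
    (h : ∑ j ∈ Finset.range q, g ^ j * f * g ^ (q - j) = g ^ q) {v : U}
    (hv : (∑ j ∈ Finset.range q, g ^ (j + 1)) v = 0) : v ∈ LinearMap.range (g - 1) := by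
  have e : ∑ j ∈ Finset.range q, f ((g ^ (q - j)) v) = 0 := by
    rw [← map_sum, ← LinearMap.sum_apply, ← Finset.sum_range_reflect, Finset.sum_congr rfl
      (g := fun j => g ^ (j + 1)) fun j hj => by
        have := Finset.mem_range.1 hj
        congr 1
        omega, hv, map_zero]
  have k : (g ^ q) v ∈ LinearMap.range (g - 1) := by
    rw [← h, LinearMap.sum_apply, ← sub_zero (∑ _ ∈ _, _), ← e, ← Finset.sum_sub_distrib]
    exact Submodule.sum_mem _ fun j _ => secc_sub g j _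
  simpa using Submodule.sub_mem _ k (secc_sub g q v)

/-- degree zero: invariants are norms -/
theorem secc_zero {q : ℕ} {g f : Module.End O U}
    (h : ∑ j ∈ Finset.range q, g ^ j * f * g ^ (q - j) = g ^ q) {v : U} (hv : g v = v) :
    v = (∑ j ∈ Finset.range q, g ^ j) (f v) := by
  conv_lhs => rw [← rlbas_fix hv q, ← h]
  rw [LinearMap.sum_apply, LinearMap.sum_apply]
  exact Finset.sum_congr rfl fun j _ => by
    rw [Module.End.mul_apply, Module.End.mul_apply, rlbas_fix hv]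

theorem secc_pure [Module.Free O U] {q : ℕ} {g f : Module.End O U} (hg : g ^ (q + 1) = g)
    (h : ∑ j ∈ Finset.range q, g ^ j * f * g ^ (q - j) = g ^ q) :
    Pure (LinearMap.range (g - 1)) := by
  rintro c v hc ⟨u, e⟩
  refine secc_one h ((smul_eq_zero.1 ?_).resolve_left hc)
  have : (∑ j ∈ Finset.range q, g ^ (j + 1)) * (g - 1) = 0 := by
    simp only [pow_succ']
    rw [← Finset.mul_sum, mul_assoc, geom_sum_mul, mul_sub, ← pow_succ', hg, mul_one, sub_self]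
  rw [← map_smul, ← e, ← Module.End.mul_apply, this, LinearMap.zero_apply]

theorem Tw.st (h : Tw p a K C d w) (σ : Y →* Module.End O U) (y : Y) :
    ∀ v ∈ LinearMap.range (act σ (w * MonoidAlgebra.of O Y d) - 1),
      σ y v ∈ LinearMap.range (act σ (w * MonoidAlgebra.of O Y d) - 1) := by
  rintro _ ⟨u, rfl⟩
  obtain ⟨j, e⟩ := h.cj y
  have e' := LinearMap.congr_fun (congrArg (act σ) e) u
  rw [map_mul (act σ) (MonoidAlgebra.of O Y y), map_mul (act σ) (_ ^ j), act_of, map_pow,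
    Module.End.mul_apply, Module.End.mul_apply] at e'
  rw [LinearMap.sub_apply, map_sub, e']
  exact secc_sub _ j _

theorem Tw.start (h : Tw p a K C d w) (hW : Wt p O) {σ : Y →* Module.End O U}
    {A B : Submodule O U} (hs : Sim p σ A B)
    (hg : ∀ v ∈ A, act σ (w * MonoidAlgebra.of O Y d) v - v ∈ B) :
    ∃ M Φ, SecPre p (fun M : Lat O Y => M.Tg (w * MonoidAlgebra.of O Y d)) σ A B M Φ := by
  classical
  have := Fintype.ofFinite Y
  obtain ⟨v0, hA, hB⟩ := SetLike.not_le_iff_exists.mp hs.ne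
  let R : Lat O Y := rlprojF { V := O, ρ := 1 }
  have hR : R.Hig := rlproj_hig.2
    ⟨LinearMap.single O (fun _ : Y => O) 1 ∘ₗ LinearMap.proj 1, fun f => funext fun y => by
      rw [Finset.sum_apply, Finset.sum_eq_single y]
      · simp [R, LinearMap.funLeft_apply]
      · intro x _ hx
        have : x⁻¹ * y ≠ 1 := fun h => hx (inv_mul_eq_one.1 h)
        simp [R, LinearMap.funLeft_apply, this]
      · simp⟩
  obtain ⟨h0, hh⟩ := hR.cyc h.ord
  obtain ⟨f, -, hf⟩ := h.hig hW R.ρ hh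
  obtain ⟨M, π, hπ, sπ, kπ⟩ := exists_quo R (h.st R.ρ)
    (secc_pure (by rw [← map_pow, h.pow]) hf)
  let φ : (Y → O) →ₗ[O] U := Fintype.linearCombination O fun y => σ y v0
  have hφ : ∀ r, φ r = ∑ y, r y • σ y v0 := fun r => Fintype.linearCombination_apply O _ r
  have φA : ∀ r, φ r ∈ A := fun r => by
    rw [hφ]; exact A.sum_mem fun y _ => A.smul_mem _ (hs.stA y v0 hA)
  have φh : ∀ y r, φ (R.ρ y r) = σ y (φ r) := fun y r => by
    rw [hφ, hφ, map_sum, ← Equiv.sum_comp (Equiv.mulLeft y)]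
    refine Finset.sum_congr rfl fun x _ => ?_
    simp [R, LinearMap.funLeft_apply]
  have φk : ∀ r, π r = 0 → φ r ∈ B := fun r hr => by
    obtain ⟨u, rfl⟩ : r ∈ LinearMap.range (act R.ρ (w * MonoidAlgebra.of O Y d) - 1) := kπ ▸ hr
    rw [LinearMap.sub_apply, map_sub, act_hom φh]
    exact hg _ (φA u)
  let Φ : Submodule O (U × M.V) :=
    (B.comap (LinearMap.fst O _ _ - φ ∘ₗ LinearMap.snd O _ _)).map (LinearMap.prodMap LinearMap.id π)
  have hΦ : ∀ v m, (v, m) ∈ Φ ↔ ∃ r, π r = m ∧ v - φ r ∈ B := fun v m =>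
    ⟨fun ⟨x, k, e⟩ => ⟨x.2, congrArg Prod.snd e, by
      have e1 : x.1 = v := congrArg Prod.fst e
      exact e1 ▸ k⟩, fun ⟨r, e, k⟩ => ⟨(v, r), k, Prod.ext rfl e⟩⟩
  have st : ∀ y v m, (v, m) ∈ Φ → (σ y v, M.ρ y m) ∈ Φ := fun y v m k => by
    obtain ⟨r, e, k'⟩ := (hΦ _ _).1 k
    exact (hΦ _ _).2 ⟨R.ρ y r, e ▸ hπ y r, by rw [φh, ← map_sub]; exact hs.stB y _ k'⟩
  have hle : Φ.map (LinearMap.fst O _ _) ≤ A := by
    rintro _ ⟨⟨v, m⟩, k, rfl⟩
    obtain ⟨r, -, k⟩ := (hΦ _ _).1 k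
    simpa using A.add_mem (hs.le k) (φA r)
  have hI : Φ.map (LinearMap.fst O _ _) = A := by
    refine (hs.sim (Φ.map (LinearMap.fst O _ _)) ?_
      (fun v hv => ⟨(v, 0), (hΦ _ _).2 ⟨0, map_zero _, by simpa using hv⟩, rfl⟩) hle).resolve_left
      fun e => hB ?_
    · rintro y _ ⟨⟨v, m⟩, k, rfl⟩
      exact ⟨_, st y v m k, rfl⟩
    · rw [← e]
      exact ⟨(v0, π (Pi.single 1 1)), (hΦ _ _).2 ⟨_, rfl, by
        simp [φ, Fintype.linearCombination_apply_single]⟩, rfl⟩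
  refine ⟨M, Φ, LinearMap.ext fun m => ?_, st, fun v => ?_, fun m => ?_, fun v => ⟨fun k => ?_,
    fun k => (hΦ _ _).2 ⟨0, map_zero _, by simpa using k⟩⟩, fun m => ?_⟩
  · obtain ⟨r, rfl⟩ := sπ m
    rw [← act_hom hπ, Module.End.one_apply, ← sub_eq_zero, ← map_sub, ← LinearMap.mem_ker, kπ]
    exact ⟨r, rfl⟩
  · rw [← hI]
    refine ⟨?_, fun ⟨m, k⟩ => ⟨_, k, rfl⟩⟩
    rintro ⟨⟨u, m⟩, k, rfl⟩
    exact ⟨m, k⟩
  · obtain ⟨r, rfl⟩ := sπ m
    exact ⟨φ r, (hΦ _ _).2 ⟨r, rfl, by simp⟩⟩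
  · obtain ⟨r, e, k⟩ := (hΦ _ _).1 k
    simpa using B.add_mem k (φk r e)
  · obtain ⟨r, rfl⟩ := sπ m
    refine (hΦ _ _).2 ⟨(p : O) • r, map_smul _ _ _, ?_⟩
    rw [zero_sub, neg_mem_iff, map_smul]
    exact hs.kill _ (φA r)

/-- a simple section with trivial action of the twisted generator is `M / p M` -/
theorem Tw.sec (h : Tw p a K C d w) (hW : Wt p O) {σ : Y →* Module.End O U}
    {A B : Submodule O U} (hs : Sim p σ A B)
    (hg : ∀ v ∈ A, act σ (w * MonoidAlgebra.of O Y d) v - v ∈ B) :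
    ∃ (M : Lat O Y) (Φ : Submodule O (U × M.V)), M.Tg (w * MonoidAlgebra.of O Y d) ∧ M.Ir ∧
      M.Sca ∧ ¬ p ∣ M.rk ∧ Gr p A B Φ ∧ ∀ y v m, (v, m) ∈ Φ → (σ y v, M.ρ y m) ∈ Φ := by
  obtain ⟨M, Φ, h1, h2, h3, h4⟩ := (h.av hW).sec hW hs (h.start hW hs hg)
  exact ⟨M, Φ, h1, h2, (h.av hW).sca hW h1 h2, (h.av hW).rk hW h1 h2, h3, h4⟩

end Pool.Agent.Lib.MP_1ae3da_al.CT.R5
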