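import Pool.Agent.Lib.MP_1ae3da_al.Y.Df
import Pool.Agent.Lib.MP_1ae3da_al.Y.HbC
import Pool.Agent.Lib.MP_1ae3da_al.Y.SecC
import Pool.Agent.Lib.MP_1ae3da_al.C.RLDf2

set_option autoImplicit false

/-! Cyclic Sylow subgroups of order at least `p ^ 2`, lattice side: definitions. -/

namespace Pool.Agent.Lib.MP_1ae3da_al.CT.R5

section modules
variable {O U W : Type} [CommRing O] [AddCommGroup U] [Module O U] [AddCommGroup W] [Module O W]

/-- the two maps of the periodic complex of an endomorphism with `g ^ (q + 1) = g` -/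
noncomputable def yOp (q : ℕ) (g : Module.End O U) : Bool → Module.End O U
  | false => g - 1
  | true => ∑ j ∈ Finset.range q, g ^ (j + 1)

/-- cycles -/
noncomputable def yA (q : ℕ) (g : Module.End O U) (i : Bool) : Submodule O U :=
  LinearMap.ker (yOp q g i)

/-- boundaries -/
noncomputable def yB (q : ℕ) (g : Module.End O U) (i : Bool) : Submodule O U :=
  LinearMap.range (yOp q g (!i))

/-- boundaries plus `p` times cycles -/
noncomputable def yP (p q : ℕ) (g : Module.End O U) (i : Bool) : Submodule O U :=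
  zP (p : O) (yA q g i) (yB q g i)

/-- the Tate group vanishes -/
def yZ (q : ℕ) (g : Module.End O U) (i : Bool) : Prop := yA q g i ≤ yB q g i

/-- the Tate group is free over `O / p ^ a` -/
def yFull (p a : ℕ) (g : Module.End O U) (i : Bool) : Prop :=
  ∀ v ∈ yA (p ^ a) g i, (p : O) ^ (a - 1) • v ∈ yB (p ^ a) g i → v ∈ yP p (p ^ a) g i

/-- numerator of the section killed by `p`: top in degree 0, socle in degree 1 -/
noncomputable def yN (p q : ℕ) (g : Module.End O U) : Bool → Submodule O U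
  | false => yA q g false
  | true => yA q g true ⊓ (yB q g true).comap ((p : O) • LinearMap.id)

/-- denominator of that section -/
noncomputable def yD (p q : ℕ) (g : Module.End O U) : Bool → Submodule O U
  | false => yP p q g false
  | true => yB q g true

/-- cycles modulo `p` in degree 0 -/
noncomputable def yHA (p : ℕ) (g : Module.End O U) : Submodule O U :=
  (LinearMap.range ((p : O) • (LinearMap.id : U →ₗ[O] U))).comap (g - 1)

/-- boundaries modulo `p` in degree 0 -/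
noncomputable def yHB (p q : ℕ) (g : Module.End O U) : Submodule O U :=
  yB q g false ⊔ LinearMap.range ((p : O) • (LinearMap.id : U →ₗ[O] U))

/-- the relative trace -/
noncomputable def trg (q : ℕ) (g : Module.End O U) (g' : Module.End O W) (h : U →ₗ[O] W) :
    U →ₗ[O] W :=
  ∑ j ∈ Finset.range q, (g' ^ (j + 1)) ∘ₗ h ∘ₗ (g ^ (2 * q - 1 - j))

end modules

variable {O X Y : Type} [CommRing O] [Group X] [Group Y]

/-- the action of the group algebra -/
noncomputable abbrev Lat.act (V : Lat O Y) : MonoidAlgebra O Y →ₐ[O] Module.End O V.V :=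
  R5.act V.ρ

/-- local data: `K` normal of order prime to `p`, `d` of order `p ^ a`, `g` the twist of `d` -/
structure Lo (p a : ℕ) (K : Subgroup Y) (d : Y) (g : MonoidAlgebra O Y) : Prop where
  pos : 0 < a
  nor : K.Normal
  cop : ¬ p ∣ Nat.card K
  ord : orderOf d = p ^ a
  ind : ¬ p ∣ (K ⊔ Subgroup.zpowers d).index
  cj : ∀ n : Y, ∃ j : ℕ, ¬ p ∣ j ∧ n * d * n⁻¹ * (d ^ j)⁻¹ ∈ K
  pow : g ^ (p ^ a + 1) = g
  hom : ∃ w ∈ spn O K, g = w * MonoidAlgebra.of O Y d
  conj : ∀ (n : Y) (j : ℕ), 0 < j → n * d * n⁻¹ * (d ^ j)⁻¹ ∈ K →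
    MonoidAlgebra.of O Y n * g = g ^ j * MonoidAlgebra.of O Y n

/-- the complement inside the normaliser -/
abbrev KN (p : ℕ) (Q : Subgroup X) : Subgroup (Nz Q) := (Kp p Q).subgroupOf (Nz Q)

/-- global data -/
structure Gl (p a : ℕ) (Q : Subgroup X) (d : Nz Q) (g : MonoidAlgebra O (Nz Q)) : Prop where
  cy : Cyc p a Q (d : X)
  lo : Lo p a (KN p Q) d g

/-- restriction to the normaliser -/
abbrev Lat.rs (V : Lat O X) (Q : Subgroup X) : Lat O (Nz Q) := V.tw (Nz Q).subtype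

/-- the twist on a lattice for the big group -/
noncomputable abbrev Lat.G (V : Lat O X) (Q : Subgroup X) (g : MonoidAlgebra O (Nz Q)) :
    Module.End O V.V := (V.rs Q).act g

/-- no stable submodule strictly between `B` and `A` -/
def Smp (V : Lat O Y) (A B : Submodule O V.V) : Prop :=
  ∀ S, V.St S → B ≤ S → S ≤ A → S = B ∨ S = A

/-- a stable relation -/
def Gst (V M : Lat O Y) (Φ : Submodule O (V.V × M.V)) : Prop :=
  ∀ n v m, (v, m) ∈ Φ → (V.ρ n v, M.ρ n m) ∈ Φ

/-- the Tate group of degree `i` of `V` modulo `p` is `M / p M` -/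
structure TieC (p a : ℕ) (g : MonoidAlgebra O Y) (V M : Lat O Y) (i : Bool)
    (Φ : Submodule O (V.V × M.V)) : Prop where
  gr : Gr p (yA (p ^ a) (V.act g) i) (yP p (p ^ a) (V.act g) i) Φ
  st : Gst V M Φ

/-- irreducible with trivial action of the twist -/
structure Good (g : MonoidAlgebra O Y) (M : Lat O Y) : Prop where
  ir : M.Ir
  one : M.act g = 1

/-- a source: maps of the Tate groups modulo `p` come from maps of lattices -/
structure Src (p a : ℕ) (Q : Subgroup X) (g : MonoidAlgebra O (Nz Q)) (V : Lat O X)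
    (M : Lat O (Nz Q)) (i : Bool) (Φ : Submodule O (V.V × M.V)) : Prop where
  tie : TieC p a g (V.rs Q) M i Φ
  out : ∀ (V' : Lat O X) (M' : Lat O (Nz Q)) (Φ' : Submodule O (V'.V × M'.V))
    (w' : M.V →ₗ[O] M'.V), TieC p a g (V'.rs Q) M' i Φ' → M.Hom M' w' →
      ∃ w : V.V →ₗ[O] V'.V, V.Hom V' w ∧ ∀ v m, (v, m) ∈ Φ → (w v, w' m) ∈ Φ'

/-- local endomorphism ring -/
structure Lcl (p : ℕ) (P : Lat O X) : Prop where
  ne : Nontrivial P.V
  loc : ∀ f : Module.End O P.V, P.Hom P f →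
    Function.Bijective f ∨ ∃ (n : ℕ) (h : Module.End O P.V), f ^ n = (p : O) • h

/-- `ω` lifts the action on `d` modulo `p` -/
def OmC (p : ℕ) (K : Subgroup Y) (d : Y) (ω : Y →* Oˣ) : Prop :=
  ∀ (n : Y) (j : ℕ), n * d * n⁻¹ * (d ^ j)⁻¹ ∈ K → (p : O) ∣ (ω n : O) - j

/-- the pair `(σ, b)` maps `g` to a power prime to `p` -/
def Cg (p : ℕ) (σ : O ≃+* O) (b : Y ≃* Y) (g : MonoidAlgebra O Y) : Prop :=
  ∃ j : ℕ, ¬ p ∣ j ∧ ∀ y, (g ^ j).coeff (b y) = σ (g.coeff y)

section
variable {F k : Type} [Field F] [Field k]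

/-- the group algebra of the normaliser over `O` inside the group algebra over `F` -/
noncomputable def up (O : Subring F) (Q : Subgroup X) :
    MonoidAlgebra O (Nz Q) →ₐ[O] MonoidAlgebra F X :=
  MonoidAlgebra.lift O (MonoidAlgebra F X) (Nz Q) ((MonoidAlgebra.of F X).comp (Nz Q).subtype)

/-- the whole setting -/
structure Cx (p a : ℕ) (O R : Subring F) (r : F → k) (GG : Subgroup (RingAut F))
    (Q : Subgroup X) (ga : X → MonoidAlgebra F X) (d : Nz Q) (g : MonoidAlgebra O (Nz Q)) :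
    Prop where
  pm : PM p O R r GG
  gl : Gl p a Q d g
  ga0 : Ga0 GG p Q ga
  up : up O Q g = ga d

variable {O : Subring F}

/-- the multiplicities of the blocks in a lattice -/
def Mult (V : Lat O X) (s : MonoidAlgebra F X → ℕ) : Prop :=
  ∀ x, V.chF F (cf (MonoidHom.id X) x) =
    ∑ᶠ e ∈ Irr F (HX F (⊤ : Subgroup X)), (s e : F) * Chv F (HX F ⊤) e x

/-- `M` is good and `ψ` is its block -/
structure GoodB (Q : Subgroup X) (g : MonoidAlgebra O (Nz Q)) (M : Lat O (Nz Q))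
    (ψ : MonoidAlgebra F X) : Prop where
  good : Good g M
  mem : ψ ∈ Submodule.span F (HX F (Nz Q))
  idm : M.Idem F (cf (Nz Q).subtype ψ)

/-- weak types -/
def WkC (p a : ℕ) (Q : Subgroup X) (g : MonoidAlgebra O (Nz Q)) (A : Set (MonoidAlgebra F X))
    (ψ : MonoidAlgebra F X) (i : Bool) : Prop :=
  ∃ (V : Lat O X) (M : Lat O (Nz Q)) (Φ : Submodule O (V.V × M.V)),
    TieC p a g (V.rs Q) M i Φ ∧ GoodB Q g M ψ ∧ Sup V ⊆ A

/-- strong types -/
def StC (p a : ℕ) (GG : Subgroup (RingAut F)) (Q : Subgroup X) (ga : X → MonoidAlgebra F X)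
    (g : MonoidAlgebra O (Nz Q)) (v : Set (MonoidAlgebra F X)) (ψ : MonoidAlgebra F X)
    (i : Bool) : Prop :=
  (∃ e ∈ Irr F (HX F (⊤ : Subgroup X)), v = VxC Q ga p O GG e) ∧
    (∀ η ∈ EtC Q ga, (Bk F p Q ψ η → cvC Q ga p v η = if i then -1 else 1) ∧
      (¬ Bk F p Q ψ η → cvC Q ga p v η = 0)) ∧
    ∃ (V : Lat O X) (M : Lat O (Nz Q)) (Φ : Submodule O (V.V × M.V)),
      Src p a Q g V M i Φ ∧ GoodB Q g M ψ ∧ Mult V (v.indicator fun _ => 1)

/-- the data for a link -/
structure LCC (p a : ℕ) (Q : Subgroup X) (g : MonoidAlgebra O (Nz Q))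
    (e ψ : MonoidAlgebra F X) (V : Lat O X)
    (M : Lat O (Nz Q)) (i : Bool) (Φ : Submodule O (V.V × M.V)) {n n' : ℕ}
    (b : Module.Basis (Fin n) O V.V) (b' : Module.Basis (Fin n') O M.V)
    (ρ : MonoidAlgebra F X →ₗ[F] Matrix (Fin n) (Fin n) F)
    (ρ' : MonoidAlgebra F X →ₗ[F] Matrix (Fin n') (Fin n') F) : Prop where
  src : Src p a Q g V M i Φ
  gb : GoodB Q g M ψ
  sca : V.Sca
  nrk : ¬ p ∣ V.rk
  nrk' : ¬ p ∣ M.rk
  ie : e ∈ Irr F (HX F (⊤ : Subgroup X))
  ip : ψ ∈ Irr F (HX F (Nz Q))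
  mr : MR ⊤ (MonoidHom.id X) V b ρ
  mr' : MR (Nz Q) (Nz Q).subtype M b' ρ'
  mm : MM F (HX F (⊤ : Subgroup X)) e ρ
  mm' : MM F (HX F (Nz Q)) ψ ρ'

end

end Pool.Agent.Lib.MP_1ae3da_al.CT.R5
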