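import Pool.Agent.Lib.MP_1ae3da_al.Y.Sub
import Pool.Agent.Lib.MP_1ae3da_al.Y.Par

set_option autoImplicit false
set_option linter.unusedSectionVars false

/-! A local projective lattice is an edge. -/

namespace Pool.Agent.Lib.MP_1ae3da_al.CT.R5

open Function Submodule

variable {F k X : Type} [Field F] [CharZero F] [IsAlgClosed F] [Field k] [Group X] [Finite X]
  {p a : ℕ} [Fact p.Prime] {O R : Subring F} [IsDiscreteValuationRing O] {r : F → k}
  {GG : Subgroup (RingAut F)} {Q : Subgroup X} {ga : X → MonoidAlgebra F X} {d : Nz Q}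
  {g : MonoidAlgebra O (Nz Q)} {e e' ψ η θ i ε : MonoidAlgebra F X}
  {γ : RingAut (MonoidAlgebra F X)} {om : X → F}
  {T : MonoidAlgebra F X →ₗ[F] MonoidAlgebra F X} {s : MonoidAlgebra F X → ℕ}

theorem yed_sub (hC : Cx p a O R r GG Q ga d g) (hO : Om GG Q om T) {P : Lat O X}
    (hP : P.Hig) (hs : Mult P s) (he : e ∈ Sup P) : VxC Q ga p O GG e ⊆ Sup P := fun _ hx =>
  hs.sup.2 ⟨vx_irr (hs.sup.1 he).1 hx,
    (hC.const hO hP hs (hs.sup.1 he).1 hx).trans_ne (hs.sup.1 he).2⟩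

theorem yed_cm (hC : Cx p a O R r GG Q ga d g) (hO : Om GG Q om T) {P : Lat O X}
    (hP : P.Hig) (hs : Mult P s) (he : e ∈ Sup P) (η : MonoidAlgebra F X) :
    cmC Q ga p ((VxC Q ga p O GG e).indicator s) η = s e * cvC Q ga p (VxC Q ga p O GG e) η :=
  cm_vx (s := s) hC.pm hC.gl.cy hC.ga0 hO (hs.sup.1 he).1
    (fun _ hx => hC.const hO hP hs (hs.sup.1 he).1 hx) η

theorem yed_add {A B : Set (MonoidAlgebra F X)} (h : Disjoint A B) (η : MonoidAlgebra F X) :
    cmC Q ga p ((A ∪ B).indicator s) η =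
      cmC Q ga p (A.indicator s) η + cmC Q ga p (B.indicator s) η := by
  rw [← cm_add, Set.indicator_union_of_disjoint h]
  rfl

theorem yed_all (hC : Cx p a O R r GG Q ga d g) {P : Lat O X} (hP : P.Hig) (hs : Mult P s)
    (hη : η ∈ EtC Q ga) : cmC Q ga p ((Sup P).indicator s) η = 0 := by
  rw [← hC.hig_cm hP hs hη]
  refine cm_congr (fun x hx => ?_) η
  by_cases c : x ∈ Sup P
  · exact Set.indicator_of_mem c s
  · rw [Set.indicator_of_notMem c]
    exact (not_not.1 fun h => c (hs.sup.2 ⟨hx, h⟩)).symm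

theorem yed_one {n : ℕ} {c : ℤ} {b : Bool} (h : (n : ℤ) * c = if b then -1 else 1) : n = 1 := by
  have : (n : ℤ) = 1 := Int.eq_one_of_dvd_one (by positivity)
    (by cases b <;> [exact ⟨_, h.symm⟩; exact Int.dvd_neg.1 ⟨_, h.symm⟩])
  exact_mod_cast this

theorem yed_fin (hC : Cx p a O R r GG Q ga d g) (hO : Om GG Q om T) {P : Lat O X}
    (hP : P.Hig) (hs : Mult P s) (he : e ∈ Sup P) (he' : e' ∈ Sup P) (h1 : s e = 1) (h2 : s e' = 1)
    (hd : Disjoint (VxC Q ga p O GG e) (VxC Q ga p O GG e'))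
    (hu : Sup P = VxC Q ga p O GG e ∪ VxC Q ga p O GG e') {M : Lat O (Nz Q)} (hM : GoodB Q g M ψ)
    (hv : ∀ η ∈ EtC Q ga,
      (Bk F p Q ψ η → cmC Q ga p ((VxC Q ga p O GG e).indicator s) η = -1) ∧
        (¬ Bk F p Q ψ η → cmC Q ga p ((VxC Q ga p O GG e).indicator s) η = 0))
    {U W : Lat O X} {Φ : Submodule O (U.V × M.V)} {Φ' : Submodule O (W.V × M.V)}
    (sU : Src p a Q g U M true Φ) (sW : Src p a Q g W M false Φ')
    (mU : Mult U ((VxC Q ga p O GG e).indicator s))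
    (mW : Mult W ((VxC Q ga p O GG e)ᶜ.indicator s)) :
    ∃ ψ v v', StC p a GG Q ga g v ψ false ∧ StC p a GG Q ga g v' ψ true ∧ Sup P = v ∪ v' := by
  have c1 := fun η => yed_cm hC hO hP hs he η
  have c2 := fun η => yed_cm hC hO hP hs he' η
  simp only [h1, h2, Nat.cast_one, one_mul] at c1 c2
  refine ⟨ψ, _, _, ⟨⟨e', (hs.sup.1 he').1, rfl⟩, fun η hη => ?_, W, M, Φ', sW, hM,
    mW.congr fun x hx => ?_⟩, ⟨⟨e, (hs.sup.1 he).1, rfl⟩, fun η hη => ?_, U, M, Φ, sU, hM,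
    mU.congr fun x _ => ?_⟩, hu.trans (Set.union_comm _ _)⟩
  · have h3 := yed_all hC hP hs hη
    rw [hu, yed_add hd, c2] at h3
    refine ⟨fun b => ?_, fun b => ?_⟩
    · rw [(hv η hη).1 b] at h3
      simp only [Bool.false_eq_true, if_false]
      omega
    · rwa [(hv η hη).2 b, zero_add] at h3
  · by_cases c : x ∈ VxC Q ga p O GG e'
    · rw [Set.indicator_of_mem c, Set.indicator_of_mem (Set.disjoint_right.1 hd c),
        hC.const hO hP hs (hs.sup.1 he').1 c, h2]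
    · rw [Set.indicator_of_notMem c, Set.indicator_apply_eq_zero]
      exact fun c' => not_not.1 fun h => Or.elim (hu.le (hs.sup.2 ⟨hx, h⟩)) c' c
  · rw [← c1]
    exact hv η hη
  · by_cases c : x ∈ VxC Q ga p O GG e
    · rw [Set.indicator_of_mem c, Set.indicator_of_mem c, hC.const hO hP hs (hs.sup.1 he).1 c, h1]
    · rw [Set.indicator_of_notMem c, Set.indicator_of_notMem c]

/-- `s` = multiplicities of `P`, constant on vertices, `cmC s = 0`. `Cx.sub` for `v1 = VxC e`,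
for a second vertex `v2` and, if there is a third one, for `v1 ∪ v2` (`par3`). Then the signs are
opposite and the multiplicities are 1 (`cm_vx`, `cm_add`, `cm_congr`); take the data of the
vertex with `i = true`. -/
theorem Cx.edgeP (hC : Cx p a O R r GG Q ga d g) (hO : Om GG Q om T) {P : Lat O X}
    (hP : P.Hig) (hl : Lcl p P) (he : e ∈ Sup P) (hη : η ∈ EtC Q ga)
    (h0 : cvC Q ga p (VxC Q ga p O GG e) η ≠ 0) :
    ∃ ψ v v', StC p a GG Q ga g v ψ false ∧ StC p a GG Q ga g v' ψ true ∧ Sup P = v ∪ v' := by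
  obtain ⟨s, hs⟩ := mult_ex P
  have veq : ∀ x ∈ Sup P, ∀ y ∈ VxC Q ga p O GG x, VxC Q ga p O GG y = VxC Q ga p O GG x :=
    fun x hx y hy => vx_eq hC.pm hC.gl.cy hC.ga0 hO (hs.sup.1 hx).1 hy
  have s1 := yed_sub hC hO hP hs he
  have n1 : VxC Q ga p O GG e ≠ Sup P := fun c => by
    have := yed_all hC hP hs hη
    rw [← c, yed_cm hC hO hP hs he, mul_eq_zero] at this
    exact this.elim (fun h => (hs.sup.1 he).2 (by exact_mod_cast h)) h0
  obtain ⟨e', he', hn⟩ := Set.exists_of_ssubset (s1.ssubset_of_ne n1)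
  have s2 := yed_sub hC hO hP hs he'
  have hd : Disjoint (VxC Q ga p O GG e) (VxC Q ga p O GG e') := Set.disjoint_left.2 fun x h1 h2 =>
    hn (by rw [← veq e he x h1, veq e' he' x h2]; exact vx_self)
  obtain ⟨i1, M1, ψ1, g1, v1, w1⟩ := hC.sub hO hP hl hs he hη h0 s1
    (fun x hx => (veq e he x hx).le) ⟨e, vx_self⟩ n1
  obtain ⟨i2, M2, ψ2, g2, v2, w2⟩ := hC.sub hO hP hl hs he hη h0 s2
    (fun x hx => (veq e' he' x hx).le) ⟨e', vx_self⟩
    fun c => Set.disjoint_left.1 hd vx_self (c ▸ he)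
  have ex : ∀ {M : Lat O (Nz Q)} {ψ : MonoidAlgebra F X}, GoodB Q g M ψ →
      ∃ η ∈ EtC Q ga, Bk F p Q ψ η := fun h => eta_of hC.gl.cy hC.ga0
    (by rw [psC_z hC.ga0 (hC.gb_psi h).1]; exact (hC.gb_psi h).1.1.2.2.1)
  have sg : ∀ b : Bool, (if b then -1 else 1 : ℤ) = 1 ∨ (if b then -1 else 1 : ℤ) = -1 :=
    fun b => by cases b <;> simp
  have hu : Sup P = VxC Q ga p O GG e ∪ VxC Q ga p O GG e' := by
    by_contra c
    obtain ⟨i3, M3, ψ3, g3, v3, -⟩ := hC.sub hO hP hl hs he hη h0 (Set.union_subset s1 s2)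
      (fun x hx => hx.elim (fun h => (veq e he x h).le.trans Set.subset_union_left)
        fun h => (veq e' he' x h).le.trans Set.subset_union_right) ⟨e, Or.inl vx_self⟩ (Ne.symm c)
    refine par3 (EtC Q ga) (Bk F p Q) _ _ _ ψ1 ψ2 ψ3 _ _ _ (sg i1) (sg i2) (sg i3)
      (fun j hj _ _ x hx y hy b1 b2 b3 => ?_) (ex g1) (ex g2) (ex g3) v1 v2 v3
      fun η _ => yed_add hd η
    have ij : j ∈ Irr F (HX F (NQ Q)) := by
      rcases hj with rfl | rfl | rfl
      exacts [(hC.gb_psi g1).1.1, (hC.gb_psi g2).1.1, (hC.gb_psi g3).1.1]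
    exact yVx_trans ij hy.1 (yVx_trans hx.1 ij b2 (yVx_symm b1)) b3
  obtain ⟨η1, hη1, b1⟩ := ex g1
  have h3 := yed_all hC hP hs hη1
  have h4 := (v1 η1 hη1).1 b1
  rw [hu, yed_add hd, h4] at h3
  have b2 : Bk F p Q ψ2 η1 := by
    by_contra c
    rw [(v2 η1 hη1).2 c] at h3
    rcases sg i1 with h | h <;> omega
  have h5 := (v2 η1 hη1).1 b2
  have o1 := yed_one ((yed_cm hC hO hP hs he η1).symm.trans h4)
  have o2 := yed_one ((yed_cm hC hO hP hs he' η1).symm.trans h5)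
  rw [h5] at h3
  cases i1
  · cases i2
    · simp at h3
    · obtain ⟨U, W, Φ, Φ', a1, a2, a3, a4⟩ := w2 rfl
      exact yed_fin hC hO hP hs he' he o2 o1 hd.symm (hu.trans (Set.union_comm _ _)) g2 v2
        a1 a2 a3 a4
  · obtain ⟨U, W, Φ, Φ', a1, a2, a3, a4⟩ := w1 rfl
    exact yed_fin hC hO hP hs he he' o1 o2 hd hu g1 v1 a1 a2 a3 a4

end Pool.Agent.Lib.MP_1ae3da_al.CT.R5
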