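import Pool.Agent.Lib.MP_1ae3da_al.C.RGrp
import Pool.Agent.Lib.MP_1ae3da_al.C.GrT

set_option autoImplicit false

/-! Groups with a cyclic Sylow subgroup. -/

namespace Pool.Agent.Lib.MP_1ae3da_al.CT

open Subgroup

variable {p : ℕ} {X : Type} [Group X]

/-- `D` is a cyclic Sylow subgroup and `Q` its subgroup of order `p`. -/
structure Cy (p : ℕ) (D Q : Subgroup X) : Prop where
  cyc : IsCyclic D
  pg : IsPGroup p D
  ind : ¬ p ∣ D.index
  le : Q ≤ D
  card : Nat.card Q = p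

theorem g0_pow [hp : Fact p.Prime] [Finite X] {x : X} (h : p ∣ orderOf x) :
    ∃ j : ℕ, x ^ j ≠ 1 ∧ (x ^ j) ^ p = 1 := by
  obtain ⟨j, hj⟩ := h
  have h0 : 0 < orderOf x := orderOf_pos x
  have h1 : 0 < j := Nat.pos_of_mul_pos_left (hj ▸ h0)
  refine ⟨j, pow_ne_one_of_lt_orderOf h1.ne' ?_, ?_⟩
  · rw [hj]; exact lt_mul_of_one_lt_left h1 hp.out.one_lt
  · rw [← pow_mul, mul_comm, ← hj, pow_orderOf_eq_one]

theorem cy_om [hp : Fact p.Prime] [Finite X] (D : Sylow p X) (hD : IsCyclic (D : Subgroup X))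
    (h1 : p ∣ Nat.card X) : Cy p (D : Subgroup X) (McK.Om p (D : Subgroup X)) := by
  refine ⟨hD, D.2, D.not_dvd_index, McK.om_le _, ?_⟩
  have h2 : p ∣ Nat.card (D : Subgroup X) :=
    ((Nat.Prime.dvd_mul hp.out).1 ((D : Subgroup X).card_mul_index ▸ h1)).resolve_right
      D.not_dvd_index
  obtain ⟨x, hx⟩ := exists_prime_orderOf_dvd_card' p h2
  classical
  have := Fintype.ofFinite (D : Subgroup X)
  have h3 := IsCyclic.card_pow_eq_one_le (α := (D : Subgroup X)) hp.out.pos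
  have h4 : Nat.card (McK.Om p (D : Subgroup X)) ≤ p := by
    refine le_trans ?_ h3
    rw [← Fintype.card_subtype, ← Nat.card_eq_fintype_card]
    exact Nat.card_le_card_of_injective
      (fun y => ⟨⟨y, y.2.1⟩, Subtype.ext y.2.2.2⟩) fun a b e =>
        Subtype.ext (congrArg (fun z => z.1.1) e)
  have h5 : (x : X) ∈ McK.Om p (D : Subgroup X) := by
    refine ⟨x.2, fun y hy => ?_, ?_⟩
    · obtain ⟨g, hg⟩ := IsCyclic.exists_monoid_generator (α := (D : Subgroup X))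
      obtain ⟨i, rfl⟩ := hg x
      obtain ⟨j, hj⟩ := hg ⟨y, hy⟩
      rw [← show ((g ^ j : (D : Subgroup X)) : X) = y from congrArg Subtype.val hj]
      exact Commute.pow_pow_self (g : X) i j
    · have k := pow_orderOf_eq_one x
      rw [hx] at k
      exact congrArg Subtype.val k
  have h6 := orderOf_dvd_natCard _ h5
  rw [orderOf_coe, hx] at h6
  exact le_antisymm h4 (Nat.le_of_dvd Nat.card_pos h6)

variable [hp : Fact p.Prime] [Finite X] {D Q : Subgroup X} (h : Cy p D Q)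
include h

omit hp in
theorem Cy.gen : ∃ g ∈ D, ∀ d ∈ D, ∃ j : ℕ, d = g ^ j := by
  have := h.cyc
  obtain ⟨g, hg⟩ := IsCyclic.exists_monoid_generator (α := D)
  refine ⟨g, g.2, fun d hd => ?_⟩
  obtain ⟨j, hj⟩ := hg ⟨d, hd⟩
  exact ⟨j, (congrArg Subtype.val hj).symm⟩

omit hp in
theorem Cy.comm {a b : X} (ha : a ∈ D) (hb : b ∈ D) : a * b = b * a := by
  obtain ⟨g, -, hg⟩ := h.gen
  obtain ⟨i, rfl⟩ := hg a ha
  obtain ⟨j, rfl⟩ := hg b hb
  exact (Commute.pow_pow_self g i j).eq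

omit hp in
theorem Cy.DC : D ≤ centralizer (Q : Set X) := fun _ hd =>
  mem_centralizer_iff.2 fun _ hq => h.comm (h.le hq) hd

omit hp in
theorem Cy.DN : D ≤ normalizer (Q : Set X) := h.DC.trans (centralizer_le_normalizer _)

omit hp [Finite X] in
theorem Cy.index_le {H : Subgroup X} (k : D ≤ H) : ¬ p ∣ H.index :=
  fun h' => h.ind (h'.trans (index_dvd_of_le k))

theorem Cy.cardD : ∃ a : ℕ, 0 < a ∧ Nat.card D = p ^ a := by
  obtain ⟨a, ha⟩ := IsPGroup.iff_card.1 h.pg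
  refine ⟨a, Nat.pos_of_ne_zero ?_, ha⟩
  rintro rfl
  have := card_dvd_of_le h.le
  rw [h.card, ha, pow_zero] at this
  exact hp.out.one_lt.ne' (Nat.dvd_one.1 this)

omit [Finite X] in
theorem Cy.ord {d : X} (hd : d ∈ D) : ∃ k : ℕ, orderOf d = p ^ k := by
  obtain ⟨k, hk⟩ := IsPGroup.iff_orderOf.1 h.pg ⟨d, hd⟩
  exact ⟨k, (orderOf_mk d hd).symm.trans hk⟩

omit [Finite X] in
theorem Cy.dvd_ord {d : X} (hd : d ∈ D) (h1 : d ≠ 1) : p ∣ orderOf d := by
  obtain ⟨k, hk⟩ := h.ord hd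
  rw [hk]
  refine dvd_pow_self p ?_
  rintro rfl
  exact h1 (orderOf_eq_one_iff.1 hk)

omit [Finite X] in
theorem Cy.eq_one {d : X} {m : ℕ} (hd : d ∈ D) (hm : ¬ p ∣ m) (k : d ^ m = 1) : d = 1 := by
  by_contra h1
  exact hm ((h.dvd_ord hd h1).trans (orderOf_dvd_of_pow_eq_one k))

omit [Finite X] in
theorem Cy.sq_dvd (h2 : p ^ 2 ∣ Nat.card X) : p ^ 2 ∣ Nat.card D := by
  rw [← D.card_mul_index] at h2
  exact ((Nat.Prime.coprime_iff_not_dvd hp.out).2 h.ind).pow_left 2 |>.dvd_of_dvd_mul_right h2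

theorem Cy.om {d : X} (hd : d ∈ D) (k : d ^ p = 1) : d ∈ Q := by
  classical
  have := h.cyc
  have := Fintype.ofFinite D
  have h1 := IsCyclic.card_pow_eq_one_le (α := D) hp.out.pos
  have h2 : (Q : Set X) ⊆ Subtype.val '' {a : D | a ^ p = 1} := fun q hq =>
    ⟨⟨q, h.le hq⟩, Subtype.ext (rg_pow h.card hq), rfl⟩
  have h3 : (Subtype.val '' {a : D | a ^ p = 1}).ncard ≤ (Q : Set X).ncard := by
    rw [Set.ncard_image_of_injective _ Subtype.val_injective, ← Nat.card_coe_set_eq (Q : Set X)]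
    change _ ≤ Nat.card Q
    rw [h.card]
    refine le_trans (le_of_eq ?_) h1
    rw [← Set.ncard_coe_finset]
    simp
  exact (Set.eq_of_subset_of_ncard_le h2 h3).ge ⟨⟨d, hd⟩, Subtype.ext k, rfl⟩

theorem Cy.low {d : X} (hd : d ∈ D) (h1 : d ≠ 1) : ∃ j : ℕ, d ^ j ∈ Q ∧ d ^ j ≠ 1 := by
  obtain ⟨j, a, b⟩ := g0_pow (h.dvd_ord hd h1)
  exact ⟨j, h.om (D.pow_mem hd j) b, a⟩

/-- an element commuting with a non trivial element of `D` centralises `Q`. -/
theorem Cy.fix {d m : X} (hd : d ∈ D) (h1 : d ≠ 1) (k : m * d = d * m) :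
    m ∈ centralizer (Q : Set X) := by
  obtain ⟨j, a, b⟩ := h.low hd h1
  refine mem_centralizer_iff.2 fun q hq => ?_
  obtain ⟨i, -, rfl⟩ := rg_gen h.card a b hq
  exact (((show Commute m d from k).pow_right j).pow_right i).eq.symm

theorem Cy.ND : normalizer (D : Set X) ≤ normalizer (Q : Set X) := fun n hn =>
  mem_normalizer_fintype fun q hq => h.om ((mem_normalizer_iff.1 hn q).1 (h.le hq))
    (by rw [conj_pow, rg_pow h.card hq, mul_one, mul_inv_cancel])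

theorem Cy.aut {c : X} (hn : c ∈ normalizer (D : Set X)) (hc : c ∈ centralizer (Q : Set X)) :
    c ∈ centralizer (D : Set X) := by
  obtain ⟨g, hg, gen⟩ := h.gen
  obtain ⟨j, hj⟩ := gen _ ((mem_normalizer_iff.1 hn g).1 hg)
  have hall : ∀ d ∈ D, c * d * c⁻¹ = d ^ j := fun d hd => by
    obtain ⟨i, rfl⟩ := gen d hd
    rw [← conj_pow, hj, ← pow_mul, ← pow_mul, mul_comm]
  have hit : ∀ m : ℕ, c ^ m * g * (c ^ m)⁻¹ = g ^ j ^ m := fun m => by
    induction m with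
    | zero => simp
    | succ m ih =>
      rw [pow_succ j, pow_mul, ← hall _ (D.pow_mem hg _), ← ih, pow_succ']
      group
  obtain ⟨m, m1, m2⟩ : ∃ m : ℕ, ¬ p ∣ m ∧ c ^ m ∈ D :=
    ⟨_, fun k => h.ind (k.trans (relIndex_dvd_index_of_le le_normalizer)),
      pow_index_mem (D.subgroupOf (normalizer (D : Set X))) ⟨c, hn⟩⟩
  obtain ⟨q, hq, q1⟩ := rg_exists h.card
  have j1 : (p : ℤ) ∣ (j : ℤ) - 1 := by
    have k := hall q (h.le hq)
    rw [← mem_centralizer_iff.1 hc q hq, mul_inv_cancel_right] at k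
    have k' : q ^ 1 = q ^ j := (pow_one q).trans k
    rw [pow_eq_pow_iff_modEq, rg_order h.card hq q1] at k'
    exact_mod_cast (Nat.modEq_iff_dvd.1 k')
  obtain ⟨a, ha⟩ := h.ord hg
  have j2 : (p : ℤ) ^ a ∣ (j : ℤ) ^ m - 1 := by
    have k := hit m
    rw [h.comm m2 hg, mul_inv_cancel_right] at k
    have k' : g ^ 1 = g ^ j ^ m := (pow_one g).trans k
    rw [pow_eq_pow_iff_modEq, ha] at k'
    exact_mod_cast (Nat.modEq_iff_dvd.1 k')
  have j3 : ¬ (p : ℤ) ∣ ∑ i ∈ Finset.range m, (j : ℤ) ^ i := fun k => m1 (by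
    have k1 : (p : ℤ) ∣ ∑ i ∈ Finset.range m, ((j : ℤ) ^ i - 1) :=
      Finset.dvd_sum fun i _ => j1.trans (by simpa using sub_dvd_pow_sub_pow (j : ℤ) 1 i)
    rw [Finset.sum_sub_distrib] at k1
    have k2 := (dvd_sub_right k).1 k1
    simpa [Int.natCast_dvd_natCast] using k2)
  rw [← geom_sum_mul] at j2
  have j4 := (Nat.prime_iff_prime_int.1 hp.out).pow_dvd_of_dvd_mul_left a j3 j2
  have j5 : g ^ 1 = g ^ j := by
    rw [pow_eq_pow_iff_modEq, ha]
    exact Nat.modEq_iff_dvd.2 (by exact_mod_cast j4)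
  refine mem_centralizer_iff.2 fun d hd => ?_
  obtain ⟨i, rfl⟩ := gen d hd
  rw [← j5, pow_one, mul_inv_eq_iff_eq_mul] at hj
  exact ((show Commute c g from hj).pow_right i).eq.symm

theorem Cy.kp_aux : ∃ K : Subgroup X, K = Kp p Q ∧ ¬ p ∣ Nat.card K ∧
    ∀ c ∈ centralizer (Q : Set X), ∃ k ∈ K, ∃ d ∈ D, c = k * d := by
  set C := centralizer (Q : Set X) with hC
  let P : Sylow p C := (h.pg.toSylow h.ind).subtype h.DC
  have hN : normalizer (P : Set C) ≤ centralizer (P : Set C) := fun c hc => by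
    have k : (c : X) ∈ normalizer (D : Set X) := mem_normalizer_fintype fun d hd =>
      (mem_normalizer_iff.1 hc ⟨d, h.DC hd⟩).1 hd
    exact mem_centralizer_iff.2 fun d hd =>
      Subtype.ext (mem_centralizer_iff.1 (h.aut k c.2) d hd)
  have hK := MonoidHom.ker_transferSylow_isComplement' P hN
  have hk : ¬ p ∣ Nat.card ((MonoidHom.transferSylow P hN).ker.map C.subtype) := by
    rw [← Nat.card_congr (equivMapOfInjective _ _ C.subtype_injective).toEquiv]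
    exact MonoidHom.not_dvd_card_ker_transferSylow P hN
  refine ⟨_, le_antisymm (fun k hk' => ?_) ((closure_le _).2 fun x hx => ?_), hk, fun c hc => ?_⟩
  · unfold Kp
    exact Subgroup.subset_closure
      ⟨map_subtype_le _ hk', fun h' => hk (h'.trans (orderOf_dvd_natCard _ hk'))⟩
  · refine ⟨⟨x, hx.1⟩, MonoidHom.mem_ker.2 (Subtype.ext (Subtype.ext ?_)), rfl⟩
    refine h.eq_one (MonoidHom.transferSylow P hN ⟨x, hx.1⟩).2 hx.2 ?_
    have k : (⟨x, hx.1⟩ : C) ^ orderOf x = 1 := Subtype.ext (pow_orderOf_eq_one x)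
    have k2 := congrArg (MonoidHom.transferSylow P hN) k
    rw [map_pow, map_one] at k2
    exact congrArg (fun y : P => ((y : C) : X)) k2
  · obtain ⟨⟨k, d⟩, e⟩ := hK.2 ⟨c, hc⟩
    exact ⟨k.1.1, ⟨k.1, k.2, rfl⟩, d.1.1, d.2, (congrArg Subtype.val e).symm⟩

theorem Cy.kp_card : ¬ p ∣ Nat.card (Kp p Q) := by
  obtain ⟨K, rfl, k, -⟩ := h.kp_aux
  exact k

theorem Cy.split {c : X} (hc : c ∈ centralizer (Q : Set X)) :
    ∃ k ∈ Kp p Q, ∃ d ∈ D, c = k * d := by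
  obtain ⟨K, rfl, -, k⟩ := h.kp_aux
  exact k c hc

theorem Cy.mem_kp {x : X} : x ∈ Kp p Q ↔ x ∈ centralizer (Q : Set X) ∧ ¬ p ∣ orderOf x :=
  ⟨fun k => ⟨kp_le Q k, fun h' => h.kp_card (h'.trans (orderOf_dvd_natCard _ k))⟩,
    fun k => subset_closure k⟩

theorem Cy.one_of {x : X} (hd : x ∈ D) (hk : x ∈ Kp p Q) : x = 1 :=
  h.eq_one hd (h.mem_kp.1 hk).2 (pow_orderOf_eq_one _)

theorem Cy.kp_inf : Kp p Q ⊓ D = ⊥ :=
  (eq_bot_iff_forall _).2 fun _ k => h.one_of k.2 k.1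

theorem Cy.kp_sup : Kp p Q ⊔ D = centralizer (Q : Set X) :=
  le_antisymm (sup_le (kp_le Q) h.DC) fun c hc => by
    obtain ⟨k, hk, d, hd, rfl⟩ := h.split hc
    exact mul_mem_sup hk hd

theorem Cy.unique {k k' d d' : X} (hk : k ∈ Kp p Q) (hk' : k' ∈ Kp p Q) (hd : d ∈ D)
    (hd' : d' ∈ D) (e : k * d = k' * d') : k = k' ∧ d = d' := by
  have h3 : k'⁻¹ * k = d' * d⁻¹ := by
    rw [inv_mul_eq_iff_eq_mul, ← mul_assoc, ← e, mul_inv_cancel_right]
  have h4 := h.one_of (h3 ▸ D.mul_mem hd' (D.inv_mem hd))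
    ((Kp p Q).mul_mem ((Kp p Q).inv_mem hk') hk)
  rw [inv_mul_eq_one] at h4
  subst h4
  exact ⟨rfl, mul_left_cancel e⟩

theorem Cy.card_mul : Nat.card (Kp p Q) * Nat.card D = Nat.card (centralizer (Q : Set X)) := by
  refine (Nat.card_prod _ _).symm.trans ?_
  refine Nat.card_eq_of_bijective (fun x => ⟨x.1.1 * x.2.1,
    Subgroup.mul_mem _ (kp_le Q x.1.2) (h.DC x.2.2)⟩) ⟨fun a b e => ?_, fun c => ?_⟩
  · have := h.unique a.1.2 b.1.2 a.2.2 b.2.2 (congrArg Subtype.val e)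
    exact Prod.ext (Subtype.ext this.1) (Subtype.ext this.2)
  · obtain ⟨k, hk, d, hd, e⟩ := h.split c.2
    exact ⟨(⟨k, hk⟩, ⟨d, hd⟩), Subtype.ext e.symm⟩

/-- Frattini argument. -/
theorem Cy.frat {n : X} (hn : n ∈ normalizer (Q : Set X)) :
    ∃ k ∈ Kp p Q, ∃ m ∈ normalizer (D : Set X), n = k * m := by
  let P : Sylow p (normalizer (Q : Set X)) := (h.pg.toSylow h.ind).subtype h.DN
  have k := Sylow.normalizer_sup_eq_top'
    (N := (centralizer (Q : Set X)).subgroupOf (normalizer (Q : Set X))) P fun d hd => h.DC hd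
  obtain ⟨m, hm, c, hc, e⟩ := mem_sup_of_normal_right.1 (k.ge (mem_top ⟨n, hn⟩))
  have hm' : (m : X) ∈ normalizer (D : Set X) := mem_normalizer_fintype fun d hd =>
    (mem_normalizer_iff.1 hm ⟨d, h.DN hd⟩).1 hd
  obtain ⟨k, hk, d, hd, e'⟩ := h.split (show (c : X) ∈ centralizer (Q : Set X) from hc)
  refine ⟨m * k * (m : X)⁻¹, kp_conj m.2 hk, m * d, mul_mem hm' (le_normalizer hd), ?_⟩
  have e2 : (m : X) * c = n := congrArg Subtype.val e
  rw [← e2, e']; group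

omit [Finite X] in
theorem Cy.relIndex_dvd :
    (centralizer (Q : Set X)).relIndex (normalizer (Q : Set X)) ∣ p - 1 := by
  obtain ⟨ν, -, k⟩ := rg_nu h.card
  have e : (centralizer (Q : Set X)).subgroupOf (normalizer (Q : Set X)) = ν.ker :=
    Subgroup.ext fun n => (k n).symm
  rw [relIndex, e, index_ker, ← ZMod.card_units p, ← Nat.card_eq_fintype_card]
  exact card_subgroup_dvd_card _

/-- `Q` consists of the elements of `N` killed by `p`. -/
theorem Cy.omN {x : X} (hx : x ∈ normalizer (Q : Set X)) (k : x ^ p = 1) : x ∈ Q := by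
  obtain ⟨ν, -, hν⟩ := rg_nu h.card
  have hc : x ∈ centralizer (Q : Set X) := (hν ⟨x, hx⟩).1 (by
    have k1 : ν ⟨x, hx⟩ ^ p = 1 := by
      rw [← map_pow, show (⟨x, hx⟩ : normalizer (Q : Set X)) ^ p = 1 from Subtype.ext k, map_one]
    have k2 := ZMod.units_pow_card_sub_one_eq_one p (ν ⟨x, hx⟩)
    have k3 := pow_succ (ν ⟨x, hx⟩) (p - 1)
    rw [Nat.sub_add_cancel hp.out.one_le, k1, k2, one_mul] at k3
    exact k3.symm)
  let P : Sylow p (centralizer (Q : Set X)) := (h.pg.toSylow h.ind).subtype h.DC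
  have hz : IsPGroup p (zpowers (⟨x, hc⟩ : centralizer (Q : Set X))) := fun y => ⟨1, by
    obtain ⟨y, i, rfl⟩ := y
    refine Subtype.ext (Subtype.ext ?_)
    change (x ^ i) ^ p ^ 1 = 1
    rw [pow_one, ← zpow_natCast, ← zpow_mul, mul_comm, zpow_mul, zpow_natCast, k, one_zpow]⟩
  obtain ⟨R, hR⟩ := hz.exists_le_sylow
  obtain ⟨c, rfl⟩ := MulAction.exists_smul_eq (centralizer (Q : Set X)) P R
  obtain ⟨d, hd, e⟩ := hR (mem_zpowers _)
  have e2 : (c : X) * d * (c : X)⁻¹ = x := congrArg Subtype.val e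
  have hq : (d : X) ∈ Q := h.om hd (by
    rw [← e2, conj_pow, mul_inv_eq_one, mul_eq_left] at k; exact k)
  rw [← e2, ← mem_centralizer_iff.1 c.2 _ hq, mul_inv_cancel_right]
  exact hq

theorem Cy.autN (α : X ≃* X)
    (k : ∀ x, α x ∈ normalizer (Q : Set X) ↔ x ∈ normalizer (Q : Set X)) (x : X) :
    α x ∈ Q ↔ x ∈ Q :=
  ⟨fun a => h.omN ((k x).1 (le_normalizer a))
      (α.injective (by rw [map_pow, rg_pow h.card a, map_one])),
    fun a => h.omN ((k x).2 (le_normalizer a)) (by rw [← map_pow, rg_pow h.card a, map_one])⟩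

/-- trivial intersection. -/
theorem Cy.ti {c g : X} (hc : c ∈ normalizer (Q : Set X)) (hs : p ∣ orderOf c)
    (k : g * c * g⁻¹ ∈ normalizer (Q : Set X)) : g ∈ normalizer (Q : Set X) := by
  obtain ⟨j, a, b⟩ := g0_pow hs
  have a1 := h.omN (pow_mem hc j) b
  have a2 : g * c ^ j * g⁻¹ ∈ Q := h.omN (by rw [← conj_pow]; exact pow_mem k j)
    (by rw [conj_pow, b, mul_one, mul_inv_cancel])
  refine mem_normalizer_fintype fun y hy => ?_
  obtain ⟨i, -, rfl⟩ := rg_gen h.card a1 a hy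
  rw [← conj_pow]
  exact Q.pow_mem a2 i

theorem Cy.sing {c : X} (hc : c ∈ centralizer (Q : Set X)) : p ∣ orderOf c ↔ c ∉ Kp p Q := by
  rw [h.mem_kp]; tauto

theorem Cy.notK {k d : X} (hk : k ∈ Kp p Q) (hd : d ∈ D) (h1 : d ≠ 1) : k * d ∉ Kp p Q :=
  fun a => h1 (h.one_of hd (((Kp p Q).mul_mem_cancel_left hk).1 a))

theorem Cy.tiD {d g : X} (hd : d ∈ D) (hg : g ∉ normalizer (Q : Set X))
    (k : g * d * g⁻¹ ∈ normalizer (Q : Set X)) : d = 1 :=
  of_not_not fun h1 => hg (h.ti (h.DN hd) (h.dvd_ord hd h1) k)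

/-- the elements of `N` outside `C` are `p`-regular. -/
theorem Cy.reg {y : X} (hy : y ∈ normalizer (Q : Set X)) (hc : y ∉ centralizer (Q : Set X)) :
    ¬ p ∣ orderOf y := fun hs => by
  obtain ⟨j, a, b⟩ := g0_pow hs
  exact hc (h.fix (h.le (h.omN (pow_mem hy j) b)) a (Commute.self_pow y j).eq)

/-- `N / C` acts freely on `C / K` minus the identity. -/
theorem Cy.free {n c : X} (hn : n ∈ normalizer (Q : Set X)) (hc : c ∈ centralizer (Q : Set X))
    (hK : c ∉ Kp p Q) (k : n * c * n⁻¹ * c⁻¹ ∈ Kp p Q) : n ∈ centralizer (Q : Set X) := by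
  obtain ⟨a, ha, m, hm, rfl⟩ := h.frat hn
  obtain ⟨b, hb, d, hd, rfl⟩ := h.split hc
  have d1 : d ≠ 1 := by
    rintro rfl
    exact hK (by rwa [mul_one])
  have hd' := D.mul_mem ((mem_normalizer_iff.1 hm d).1 hd) (D.inv_mem hd)
  have e : m * d * m⁻¹ * d⁻¹ = (m * b * m⁻¹)⁻¹ * a⁻¹ *
      (a * m * (b * d) * (a * m)⁻¹ * (b * d)⁻¹) * b * (d * a * d⁻¹) := by group
  have k2 : m * d * m⁻¹ * d⁻¹ ∈ Kp p Q := by
    rw [e]
    exact mul_mem (mul_mem (mul_mem (mul_mem (inv_mem (kp_conj (h.ND hm) hb)) (inv_mem ha)) k) hb)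
      (kp_conj (h.DN hd) ha)
  have k3 := h.one_of hd' k2
  rw [mul_inv_eq_one, mul_inv_eq_iff_eq_mul] at k3
  exact mul_mem (kp_le Q ha) (h.fix hd d1 k3)

theorem Cy.comm_surj {m d : X} (hm : m ∈ normalizer (D : Set X))
    (hc : m ∉ centralizer (Q : Set X)) (hd : d ∈ D) : ∃ g ∈ D, d = m * g * m⁻¹ * g⁻¹ := by
  let f : D → D := fun g => ⟨m * g * m⁻¹ * (g : X)⁻¹,
    D.mul_mem ((mem_normalizer_iff.1 hm g).1 g.2) (D.inv_mem g.2)⟩
  have hf : Function.Injective f := fun a b e => by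
    have e1 : m * a * m⁻¹ * (a : X)⁻¹ = m * b * m⁻¹ * (b : X)⁻¹ := congrArg Subtype.val e
    by_contra k
    refine hc (h.fix (D.mul_mem (D.inv_mem b.2) a.2)
      (fun k2 => k (Subtype.ext (inv_mul_eq_one.1 k2).symm)) ?_)
    have e2 : m * ((b : X)⁻¹ * a) * m⁻¹ = (m * b * m⁻¹)⁻¹ * (m * a * m⁻¹ * (a : X)⁻¹) * a := by
      group
    rw [e1] at e2
    rw [← mul_inv_eq_iff_eq_mul, e2]; group
  obtain ⟨g, e⟩ := Finite.surjective_of_injective hf ⟨d, hd⟩
  exact ⟨g, g.2, (congrArg Subtype.val e).symm⟩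

/-- modulo `K` every element of `C` is a commutator with a given `n` outside `C`. -/
theorem Cy.comm_mod {n c : X} (hn : n ∈ normalizer (Q : Set X))
    (hc : n ∉ centralizer (Q : Set X)) (k : c ∈ centralizer (Q : Set X)) :
    ∃ b ∈ Kp p Q, ∃ g ∈ D, c = b * (n * g * n⁻¹ * g⁻¹) := by
  obtain ⟨a, ha, m, hm, rfl⟩ := h.frat hn
  obtain ⟨b, hb, d, hd, rfl⟩ := h.split k
  obtain ⟨g, hg, rfl⟩ := h.comm_surj hm (fun k => hc (mul_mem (kp_le Q ha) k)) hd
  refine ⟨b * ((m * g * m⁻¹) * a * (m * g * m⁻¹)⁻¹) * a⁻¹, mul_mem (mul_mem hb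
    (kp_conj (h.DN ((mem_normalizer_iff.1 hm g).1 hg)) ha)) (inv_mem ha), g, hg, ?_⟩
  group

/-- `N / C` acts freely on the non trivial characters of `C / K`. -/
theorem Cy.free_char {M : Type} [Monoid M] (l : X → M)
    (hl : ∀ x ∈ centralizer (Q : Set X), ∀ y ∈ centralizer (Q : Set X), l (x * y) = l x * l y)
    (hK : ∀ k ∈ Kp p Q, l k = 1) {n : X} (hn : n ∈ normalizer (Q : Set X))
    (hc : n ∉ centralizer (Q : Set X)) (k : ∀ g ∈ D, l (n * g * n⁻¹) = l g) {c : X}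
    (a : c ∈ centralizer (Q : Set X)) : l c = 1 := by
  obtain ⟨b, hb, g, hg, rfl⟩ := h.comm_mod hn hc a
  have a1 : n * g * n⁻¹ * g⁻¹ ∈ centralizer (Q : Set X) :=
    (Subgroup.mul_mem_cancel_left _ (kp_le Q hb)).1 a
  have a2 : n * g * n⁻¹ ∈ centralizer (Q : Set X) :=
    (Subgroup.mul_mem_cancel_right _ (inv_mem (h.DC hg))).1 a1
  rw [hl _ (kp_le Q hb) _ a1, hK b hb, one_mul, hl _ a2 _ (inv_mem (h.DC hg)), k g hg,
    ← hl _ (h.DC hg) _ (inv_mem (h.DC hg)), mul_inv_cancel, hK 1 (one_mem _)]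

theorem Cy.burnside (hX : commutator X = ⊤) :
    ∃ m ∈ normalizer (D : Set X), m ∉ centralizer (Q : Set X) := by
  by_contra k
  have hN : normalizer (D : Set X) ≤ centralizer (D : Set X) := fun n hn =>
    h.aut hn (of_not_not fun h' => k ⟨n, hn, h'⟩)
  let P : Sylow p X := h.pg.toSylow h.ind
  have h3 := (MonoidHom.ker_transferSylow_isComplement' P hN).symm.index_eq_card
  have h4 : (MonoidHom.transferSylow P hN).ker = ⊤ := by
    refine top_le_iff.1 (hX ▸ commutator_le.2 fun a _ b _ => MonoidHom.mem_ker.2 ?_)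
    rw [map_commutatorElement, commutatorElement_eq_one_iff_mul_comm]
    exact Subtype.ext (h.comm (MonoidHom.transferSylow P hN a).2
      (MonoidHom.transferSylow P hN b).2)
  rw [h4, index_top] at h3
  obtain ⟨a, a0, ha⟩ := h.cardD
  exact (Nat.one_lt_pow a0.ne' hp.out.one_lt).ne (h3.trans ha)

/-- `D` consists of commutators of the normaliser. -/
theorem Cy.le_comm (hX : commutator X = ⊤) {d : X} (hd : d ∈ D) :
    ∃ m ∈ normalizer (Q : Set X), ∃ g ∈ D, d = m * g * m⁻¹ * g⁻¹ := by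
  obtain ⟨m, hm, hc⟩ := h.burnside hX
  exact ⟨m, h.ND hm, h.comm_surj hm hc hd⟩

end Pool.Agent.Lib.MP_1ae3da_al.CT
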