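import Pool.Agent.Lib.MP_1ae3da_al.C.RCj
import Pool.Agent.Lib.MP_1ae3da_al.C.DD
import Pool.Agent.Lib.MP_1ae3da_al.C.TK

set_option autoImplicit false

/-! The central twist of a group with a normal complement: definition and formal properties. -/

namespace Pool.Agent.Lib.MP_1ae3da_al.CT

open Submodule

/-- `c` is a root of unity of order a power of `p`. -/
def Mpp (p : ℕ) {K : Type} [Monoid K] (c : K) : Prop := ∃ n : ℕ, c ^ p ^ n = 1

section
variable (F : Type) {X : Type} [Field F] [Group X]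

/-- the root of the `p`-part of the determinant. -/
noncomputable def lam (p : ℕ) (C : Subgroup X) (f : MonoidAlgebra F X) (c : X) : F :=
  @Classical.epsilon F ⟨1⟩ fun l =>
    Mpp p l ∧ Mup p (l ^ dg F (HX F C) f / Nd F (HX F C) f (gu F X c))

/-- the central twist. -/
noncomputable def gam (p : ℕ) (C : Subgroup X) (c : X) : MonoidAlgebra F X :=
  ∑ᶠ f ∈ IrrP F p (HX F C), lam F p C f c • f

end

variable {F X : Type} [Field F] [Group X] {p : ℕ} {C : Subgroup X}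
  {f a b : MonoidAlgebra F X} {c c' : X}

theorem Mpp.ne {l : F} (hp : p.Prime) (h : Mpp p l) : l ≠ 0 := by
  obtain ⟨n, hn⟩ := h
  rintro rfl
  rw [zero_pow (pow_ne_zero n hp.ne_zero)] at hn
  exact zero_ne_one hn

theorem Mpp.mul {l m : F} (h : Mpp p l) (k : Mpp p m) : Mpp p (l * m) := by
  obtain ⟨i, hi⟩ := h
  obtain ⟨j, hj⟩ := k
  refine ⟨i + j, ?_⟩
  rw [mul_pow, pow_add, pow_mul, hi, one_pow, mul_comm (p ^ i), pow_mul, hj, one_pow, one_mul]

theorem Mpp.inv {l : F} (h : Mpp p l) : Mpp p l⁻¹ :=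
  h.imp fun _ hn => by rw [inv_pow, hn, inv_one]

theorem Mpp.eq_one {l : F} (hp : p.Prime) (h : Mpp p l) (k : Mup p l) : l = 1 := by
  obtain ⟨i, hi⟩ := h
  obtain ⟨n, hn, k⟩ := k
  have := (pow_gcd_eq_one (a := l)).2 ⟨hi, k⟩
  rwa [Nat.Coprime.gcd_eq_one (((Nat.Prime.coprime_iff_not_dvd hp).2 hn).pow_left i), pow_one]
    at this

theorem gam_ex (hp : p.Prime) {d m : ℕ} (hd : ¬ p ∣ d) (hm : 0 < m) {δ : F} (h : δ ^ m = 1) :
    ∃ l : F, Mpp p l ∧ Mup p (l ^ d / δ) := by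
  obtain ⟨a, m', hm', rfl⟩ := Nat.exists_eq_pow_mul_and_not_dvd hm.ne' p hp.ne_one
  have h0 : δ ≠ 0 := fun e => by simp [e, hm.ne'] at h
  have cop : Nat.Coprime (m' * d) (p ^ a) :=
    ((Nat.Prime.coprime_iff_not_dvd hp).2 fun e => (hp.dvd_mul.1 e).elim hm' hd).symm.pow_right a
  have bz := Nat.gcd_eq_gcd_ab (m' * d) (p ^ a)
  rw [cop.gcd_eq_one] at bz
  set t := Nat.gcdA (m' * d) (p ^ a)
  set s := Nat.gcdB (m' * d) (p ^ a)
  have z : ∀ y : ℤ, δ ^ (((p ^ a * m' : ℕ) : ℤ) * y) = 1 := fun y => by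
    rw [zpow_mul, zpow_natCast, h, one_zpow]
  refine ⟨δ ^ ((m' : ℤ) * t), ⟨a, ?_⟩, m', hm', ?_⟩
  · rw [← zpow_natCast, ← zpow_mul, ← z t]
    congr 1
    push_cast
    ring
  · rw [← zpow_natCast _ d, ← zpow_mul, div_eq_mul_inv, ← zpow_sub_one₀ h0,
      ← zpow_natCast, ← zpow_mul, ← z (-s)]
    congr 1
    push_cast at bz ⊢
    linear_combination (-(m' : ℤ)) * bz

theorem gam_uniq (hp : p.Prime) {d : ℕ} (hd : ¬ p ∣ d) {δ l m : F} (h1 : Mpp p l)
    (h2 : Mup p (l ^ d / δ)) (k1 : Mpp p m) (k2 : Mup p (m ^ d / δ)) : l = m := by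
  have h0 : δ ≠ 0 := fun e => h2.ne (by rw [e, div_zero])
  have m0 := k1.ne hp
  have : l * m⁻¹ = 1 := (h1.mul k1.inv).eq_one hp (Mup.of_pow hp hd (by
    have := Mup.mul hp h2 k2.inv
    rwa [show l ^ d / δ * (m ^ d / δ)⁻¹ = (l * m⁻¹) ^ d by
      rw [mul_pow, inv_pow]; field_simp] at this))
  exact (mul_inv_eq_one₀ m0).1 this

variable [CharZero F] [IsAlgClosed F] [Finite X]

omit [IsAlgClosed F] in
theorem gam_nice (H : Subgroup X) : Nice F (HX F H) := nice_Hm0 gu_tg H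

omit [CharZero F] [IsAlgClosed F] [Finite X] in
theorem gam_gu (hc : c ∈ C) : gu F X c ∈ span F (HX F C) := subset_span (aga_mem.2 hc)

theorem gam_dg (hf : f ∈ IrrP F p (HX F C)) : ¬ p ∣ dg F (HX F C) f := fun k =>
  hf.2 ((Dg_sq (gam_nice C) hf.1).1 ▸ k.trans (dvd_pow_self _ two_ne_zero))

theorem gam_nd (hf : f ∈ Irr F (HX F C)) (hc : c ∈ C) {m : ℕ} (hm : 0 < m) (h : c ^ m = 1) :
    Nd F (HX F C) f (gu F X c) ^ m = 1 := by
  have e : ∀ n : ℕ, gu F X c ^ n = gu F X (c ^ n) := fun n => by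
    induction n with
    | zero => rw [pow_zero, pow_zero, gu_one]
    | succ n ih => rw [pow_succ, pow_succ, ih, gu_mul]
  rw [← (dd_pow (gam_nice C) hf (gam_gu hc) hm).2, e, h,
    ← Nd_mul_e (gam_nice C) hf (gam_gu C.one_mem), gu_one, one_mul, Nd_self (gam_nice C) hf]

theorem lam_spec (hp : p.Prime) (hf : f ∈ IrrP F p (HX F C)) (hc : c ∈ C) :
    Mpp p (lam F p C f c) ∧
      Mup p (lam F p C f c ^ dg F (HX F C) f / Nd F (HX F C) f (gu F X c)) :=
  Classical.epsilon_spec (p := fun l : F =>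
    Mpp p l ∧ Mup p (l ^ dg F (HX F C) f / Nd F (HX F C) f (gu F X c)))
    (gam_ex hp (gam_dg hf) (orderOf_pos c) (gam_nd hf.1 hc (orderOf_pos c) (pow_orderOf_eq_one c)))

theorem lam_eq (hp : p.Prime) (hf : f ∈ IrrP F p (HX F C)) (hc : c ∈ C) {l : F} (h1 : Mpp p l)
    (h2 : Mup p (l ^ dg F (HX F C) f / Nd F (HX F C) f (gu F X c))) : lam F p C f c = l :=
  gam_uniq hp (gam_dg hf) (lam_spec hp hf hc).1 (lam_spec hp hf hc).2 h1 h2

theorem lam_mul' (hp : p.Prime) (hf : f ∈ IrrP F p (HX F C)) (hc : c ∈ C) (hc' : c' ∈ C) :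
    lam F p C f (c * c') = lam F p C f c * lam F p C f c' := by
  refine lam_eq hp hf (C.mul_mem hc hc') ((lam_spec hp hf hc).1.mul (lam_spec hp hf hc').1) ?_
  rw [← gu_mul, Nd_mul (gam_nice C) hf.1 (gam_gu hc) (gam_gu hc'), mul_pow, mul_div_mul_comm]
  exact Mup.mul hp (lam_spec hp hf hc).2 (lam_spec hp hf hc').2

theorem lam_reg (hp : p.Prime) (hf : f ∈ IrrP F p (HX F C)) (hc : c ∈ C)
    (ho : ¬ p ∣ orderOf c) : lam F p C f c = 1 := by
  refine lam_eq hp hf hc ⟨0, one_pow _⟩ ?_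
  rw [one_pow, one_div]
  exact Mup.inv ⟨_, ho, gam_nd hf.1 hc (orderOf_pos c) (pow_orderOf_eq_one c)⟩

theorem gam_fin (H : Subgroup X) : (Irr F (HX F H)).Finite := by
  obtain ⟨s, hs, -⟩ := (gam_nice (F := F) H).irr_sum
  rw [← hs]; exact s.finite_toSet

theorem gam_sum (p : ℕ) (C : Subgroup X) : ∃ s : Finset (MonoidAlgebra F X),
    (∀ f, f ∈ s ↔ f ∈ IrrP F p (HX F C)) ∧ ∀ c, gam F p C c = ∑ f ∈ s, lam F p C f c • f := by
  have h : (IrrP F p (HX F C)).Finite := (gam_fin C).subset fun _ k => k.1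
  exact ⟨h.toFinset, fun _ => h.mem_toFinset, fun c => finsum_mem_eq_finite_toFinset_sum _ h⟩

theorem gam_cen (c : X) : gam F p C c ∈ Cen F (HX F C) := by
  obtain ⟨s, hs, e⟩ := gam_sum (F := F) p C
  rw [e]
  refine ⟨sum_mem fun f hf => smul_mem _ _ ((hs f).1 hf).1.1.1, fun y hy => ?_⟩
  rw [Finset.sum_mul, Finset.mul_sum]
  exact Finset.sum_congr rfl fun f hf => by
    rw [smul_mul_assoc, mul_smul_comm, ((hs f).1 hf).1.1.2 y hy]

theorem gam_in (hf : f ∈ IrrP F p (HX F C)) (c : X) : gam F p C c * f = lam F p C f c • f := by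
  obtain ⟨s, hs, e⟩ := gam_sum (F := F) p C
  rw [e, Finset.sum_mul, Finset.sum_eq_single f (fun g hg k => by
    rw [smul_mul_assoc, Irr_orth ((hs g).1 hg).1 hf.1 k, smul_zero])
    fun k => (k ((hs f).2 hf)).elim, smul_mul_assoc, hf.1.2.1]

theorem gam_out (hf : f ∈ Irr F (HX F C)) (h : f ∉ IrrP F p (HX F C)) (c : X) :
    gam F p C c * f = 0 := by
  obtain ⟨s, hs, e⟩ := gam_sum (F := F) p C
  rw [e, Finset.sum_mul]
  exact Finset.sum_eq_zero fun g hg => by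
    rw [smul_mul_assoc, Irr_orth ((hs g).1 hg).1 hf fun k => h (k ▸ (hs g).1 hg), smul_zero]

theorem gam_ext (h : ∀ f ∈ Irr F (HX F C), a * f = b * f) : a = b := by
  obtain ⟨s, hs, e⟩ := Irr_sum (gu_tg (F := F) (X := X)) (H := C)
    (Nat.cast_ne_zero.2 Nat.card_pos.ne')
  rw [← mul_one a, ← mul_one b, ← gu_one, ← e, Finset.mul_sum, Finset.mul_sum]
  exact Finset.sum_congr rfl fun f hf => h f (hs ▸ Finset.mem_coe.2 hf)

theorem gam_mul (hp : p.Prime) (hc : c ∈ C) (hc' : c' ∈ C) :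
    gam F p C (c * c') = gam F p C c * gam F p C c' :=
  gam_ext (C := C) fun f hf => by
    by_cases h : f ∈ IrrP F p (HX F C)
    · rw [mul_assoc, gam_in h, gam_in h, mul_smul_comm, gam_in h, smul_smul, lam_mul' hp h hc hc',
        mul_comm]
    · rw [mul_assoc, gam_out hf h, gam_out hf h, mul_zero]

theorem gam_reg (hp : p.Prime) (hc : c ∈ C) (ho : ¬ p ∣ orderOf c) :
    gam F p C c = gam F p C 1 :=
  gam_ext (C := C) fun f hf => by
    by_cases h : f ∈ IrrP F p (HX F C)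
    · rw [gam_in h, gam_in h, lam_reg hp h hc ho,
        lam_reg hp h C.one_mem (by rw [orderOf_one]; exact hp.not_dvd_one)]
    · rw [gam_out hf h, gam_out hf h]

theorem gam_one_in (hp : p.Prime) (hf : f ∈ IrrP F p (HX F C)) : gam F p C 1 * f = f := by
  rw [gam_in hf, lam_reg hp hf C.one_mem (by rw [orderOf_one]; exact hp.not_dvd_one), one_smul]

theorem gam_pow (hp : p.Prime) (hc : c ∈ C) (n : ℕ) :
    gam F p C c ^ (n + 1) = gam F p C (c ^ (n + 1)) := by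
  induction n with
  | zero => rw [zero_add, pow_one, pow_one]
  | succ n ih => rw [pow_succ, ih, ← gam_mul hp (C.pow_mem hc _) hc, ← pow_succ]

theorem lam_nat (hp : p.Prime) {σ : RingAut F} {γ : RingAut (MonoidAlgebra F X)} (hγ : SL F σ γ)
    (hs : γ ∈ Stb (HX F C)) (hf : f ∈ IrrP F p (HX F C)) (hc : c ∈ C)
    (h : γ (gu F X c) = gu F X c') : lam F p C (γ f) c' = σ (lam F p C f c) := by
  have t := TR.of_stb hγ hs
  have hc' : c' ∈ C := aga_mem.1 (h ▸ (hs _).2 (aga_mem.2 hc))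
  obtain ⟨⟨n, hn⟩, m, hm, k⟩ := lam_spec hp hf hc
  refine lam_eq hp (((t.irrP p).mem f).2 hf) hc' ⟨n, by rw [← map_pow, hn, map_one]⟩ ⟨m, hm, ?_⟩
  rw [t.dg, ← h, t.nd (gam_nice C).mcl hf.1.1.1 (gam_gu hc), ← map_pow, ← map_div₀, ← map_pow, k,
    map_one]

theorem gam_nat (hp : p.Prime) {σ : RingAut F} {γ : RingAut (MonoidAlgebra F X)} (hγ : SL F σ γ)
    (hs : γ ∈ Stb (HX F C)) (hc : c ∈ C) (h : γ (gu F X c) = gu F X c') :
    γ (gam F p C c) = gam F p C c' :=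
  gam_ext (C := C) fun f hf => by
    have t := TR.of_stb hγ hs
    obtain ⟨f, rfl⟩ := γ.surjective f
    rw [← map_mul]
    by_cases k : f ∈ IrrP F p (HX F C)
    · rw [gam_in k, gam_in (((t.irrP p).mem f).2 k), hγ, lam_nat hp hγ hs k hc h]
    · rw [gam_out ((t.irr.mem f).1 hf) k, gam_out hf fun o => k (((t.irrP p).mem f).1 o), map_zero]

theorem gam_conj (hp : p.Prime) {n : X} (hn : n ∈ NQ C) (hc : c ∈ C) :
    gu F X n * gam F p C c = gam F p C (n * c * n⁻¹) * gu F X n := by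
  obtain ⟨a, ha⟩ := exists_ad (gu_tg (F := F) (X := X)) n
  have top : ∀ b : MonoidAlgebra F X, b ∈ span F (Hm F (gu F X) ⊤) := fun b => by
    rw [gu_span]; trivial
  rw [← gam_nat (c' := n * c * n⁻¹) hp ha.1.sl (ha.stb gu_tg hn) hc ((ha.eq_iff gu_tg (top _)
    (by rw [gu_one, mul_one])).2 (by rw [gu_mul, gu_mul, inv_mul_cancel_right]))]
  exact ha.2.2 _ (top _)

end Pool.Agent.Lib.MP_1ae3da_al.CT
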