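import Pool.Agent.Lib.MP_1ae3da_al.Y.GamA
import Pool.Agent.Lib.MP_1ae3da_al.C.TH
import Pool.Agent.Lib.MP_1ae3da_al.C.TB

set_option autoImplicit false

/-! The central twist of a group with a normal complement: Clifford theory. -/

namespace Pool.Agent.Lib.MP_1ae3da_al.CT

open Submodule

/-- `K` is a normal subgroup of `C` of order prime to `p` with a cyclic `p`-group as quotient. -/
structure TwS (p : ℕ) {X : Type} [Group X] (K C : Subgroup X) : Prop where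
  le : K ≤ C
  nor : C ≤ NQ K
  cop : ¬ p ∣ Nat.card K
  cyc : ∃ g ∈ C, (∃ a : ℕ, g ^ p ^ a = 1) ∧ ∀ c ∈ C, ∃ k ∈ K, ∃ j : ℕ, c = k * g ^ j

variable {F X : Type} [Field F] [Group X] {p : ℕ} {K C : Subgroup X}
  {f f' θ a b : MonoidAlgebra F X} {c c' : X}

theorem TwS.quo (h : TwS p K C) [(K.subgroupOf C).Normal] :
    IsCyclic (C ⧸ K.subgroupOf C) ∧ ∃ a : ℕ, ∀ q : C ⧸ K.subgroupOf C, q ^ p ^ a = 1 := by
  obtain ⟨g, hg, ⟨a, ha⟩, gen⟩ := h.cyc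
  have key : ∀ q : C ⧸ K.subgroupOf C, ∃ j : ℕ, q = ((⟨g, hg⟩ : C) : C ⧸ K.subgroupOf C) ^ j := by
    intro q
    obtain ⟨⟨c, hc⟩, rfl⟩ := QuotientGroup.mk_surjective q
    obtain ⟨k, hk, j, rfl⟩ := gen c hc
    refine ⟨j, ?_⟩
    have e : (⟨k * g ^ j, hc⟩ : C) = ⟨k, h.le hk⟩ * ⟨g, hg⟩ ^ j := rfl
    rw [e, QuotientGroup.mk_mul, QuotientGroup.mk_pow,
      (QuotientGroup.eq_one_iff (⟨k, h.le hk⟩ : C)).2 hk, one_mul]
  refine ⟨⟨⟨QuotientGroup.mk ⟨g, hg⟩, fun q => ?_⟩⟩, a, fun q => ?_⟩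
  · obtain ⟨j, rfl⟩ := key q
    exact Subgroup.npow_mem_zpowers _ j
  · obtain ⟨j, rfl⟩ := key q
    rw [← pow_mul, mul_comm, pow_mul, ← QuotientGroup.mk_pow,
      show (⟨g, hg⟩ : C) ^ p ^ a = 1 from Subtype.ext ha, QuotientGroup.mk_one, one_pow]

variable [CharZero F] [IsAlgClosed F] [Finite X]

theorem TwS.ndvd (h : TwS p K C) (hp : p.Prime) (hθ : θ ∈ Irr F (HX F K)) :
    ¬ p ∣ Dg F (HX F K) θ := fun h8 => by
  have h9 := h8.trans (Dg_dvd (L := ⊥) bot_le (fun n _ => Subgroup.mem_normalizer_iff.2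
    fun k => by simp [mul_inv_eq_one]) hθ fun g hg => by
      rw [Subgroup.mem_bot.1 hg, gu_one, one_mul])
  rw [Subgroup.relIndex_bot_left] at h9
  exact h.cop (hp.dvd_of_dvd_pow h9)

/-- a block of degree prime to `p` lies over an invariant block -/
theorem TwS.inv_of (h : TwS p K C) (hp : p.Prime) (hθ : θ ∈ Irr F (HX F K))
    (hf : f ∈ IrrP F p (HX F C)) (k : f * θ ≠ 0) : C ≤ St (gu F X) θ := by
  have := (Subgroup.normal_subgroupOf_iff_le_normalizer h.le).2 h.nor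
  have := Fact.mk hp
  obtain ⟨-, a, ha⟩ := h.quo
  obtain ⟨b, hb⟩ := IsPGroup.iff_card.1 (show IsPGroup p (C ⧸ K.subgroupOf C) from
    fun q => ⟨a, ha q⟩)
  have d : (St (gu F X) θ).relIndex C ∣ p ^ b :=
    hb ▸ Subgroup.relIndex_dvd_of_le_left C (le_St gu_tg hθ.1)
  obtain ⟨i, -, hi⟩ := (Nat.dvd_prime_pow hp).1 d
  have n := (cl_under gu_tg h.le h.nor hθ hf k).2
  rcases i with _ | i
  · exact Subgroup.relIndex_eq_one.1 hi
  · exact (n (hi ▸ dvd_pow_self p i.succ_ne_zero)).elim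

theorem TwS.fam (h : TwS p K C) (hp : p.Prime) (hθ : θ ∈ Irr F (HX F K))
    (hi : C ≤ St (gu F X) θ) :
    (∀ f ∈ Irr F (HX F C), f * θ = f → Dg F (HX F C) f = Dg F (HX F K) θ) ∧
      ∀ c ∈ C, ∃ v ∈ Cen F (HX F C), v * θ = v ∧
        (∃ w ∈ span F (HX F K), w * v = θ * gu F X c) ∧
        (∃ w ∈ span F (HX F K), v = w * θ * gu F X c) ∧
        ∃ (n a : ℕ) (s : F), s ≠ 0 ∧ n + 1 = p ^ a ∧ v ^ (n + 1) = s • θ := by
  have := (Subgroup.normal_subgroupOf_iff_le_normalizer h.le).2 h.nor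
  obtain ⟨cy, a, ha⟩ := h.quo
  obtain ⟨v, hv, h1, h2, h3⟩ := cz_family gu_tg (Nat.cast_ne_zero.2 Nat.card_pos.ne') h.le hθ hi
  have h4 := h3 C h.le le_rfl
  rw [Subgroup.subgroupOf_self,
    Subgroup.map_top_of_surjective _ (QuotientGroup.mk'_surjective _)] at h4
  have cm := comm_of_cyclic hv
  refine ⟨fun f hf k => ?_, fun c hc => ?_⟩
  · have m := (cz_irr gu_tg h.le h.nor hθ hi).2 ⟨hf, k⟩
    rw [cz_dg gu_tg h.le h.nor hθ hi m, h4,
      (irr_comm hv (Nat.cast_ne_zero.2 Nat.card_pos.ne') cm).2 f (h4 ▸ m), mul_one]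
  · obtain ⟨w, hw, w', hw', e1, e2⟩ := h2 ⟨c, hc⟩
    set q : C ⧸ K.subgroupOf C := QuotientGroup.mk (⟨c, hc⟩ : C)
    have m := (tg2_cen_iff gu_tg h.le h.nor hθ hi (f := v q)).1 (by
      rw [h4]
      exact th_cen (th_u (Subgroup.mem_top q)) fun x _ => cm x q)
    have pw : ∀ n : ℕ, ∃ s : F, s ≠ 0 ∧ v q ^ (n + 1) = s • v (q ^ (n + 1)) := fun n => by
      induction n with
      | zero => exact ⟨1, one_ne_zero, by rw [zero_add, pow_one, pow_one, one_smul]⟩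
      | succ n ih =>
        obtain ⟨s, s0, e⟩ := ih
        obtain ⟨t, t0, e'⟩ := hv.mul (q ^ (n + 1)) q
        exact ⟨s * t, mul_ne_zero s0 t0, by
          rw [pow_succ, e, smul_mul_assoc, e', smul_smul, ← pow_succ]⟩
    obtain ⟨n, hn⟩ := Nat.exists_eq_succ_of_ne_zero (pow_ne_zero a hp.ne_zero)
    obtain ⟨s, s0, e⟩ := pw n
    refine ⟨v q, m.1, m.2, ⟨w, hw, e1⟩, ⟨w', hw', e2⟩, n, a, s, s0, hn.symm, ?_⟩
    rw [e, show n + 1 = p ^ a from hn.symm, ha, h1]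

/-- a model of a block over `θ` is a model of `θ` -/
theorem gam_mm (hle : K ≤ C) (hθ : θ ∈ Irr F (HX F K)) (hf : f ∈ Irr F (HX F C)) (k : f * θ = f)
    (hs : ∀ c ∈ C, ∃ w ∈ span F (HX F K), gu F X c * f = w * f) {n : ℕ}
    {ρ : MonoidAlgebra F X →ₗ[F] Matrix (Fin n) (Fin n) F} (h : MM F (HX F C) f ρ) :
    MM F (HX F K) θ ρ := by
  have up : ∀ {a : MonoidAlgebra F X}, a ∈ span F (HX F K) → a ∈ span F (HX F C) :=
    fun ha => th_mono hle ha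
  have k' : θ * f = f := by rw [← Cen_comm hf.1 (up hθ.1.1), k]
  refine ⟨fun a ha b hb => h.mul a (up ha) b (up hb), ?_, fun a ha a0 => ?_, fun m => ?_, h.pos⟩
  · rw [← td_cut hf.1.1 h (up hθ.1.1), k', h.one]
  · obtain ⟨n', ρ', h'⟩ := exists_MM (gam_nice K) hθ
    have : Nonempty (Fin n') := ⟨⟨0, h'.pos⟩⟩
    have sm := fun {a b : MonoidAlgebra F X} => (gam_nice (F := F) K).span_mul (a := a) (b := b)
    let I : TwoSidedIdeal (Matrix (Fin n') (Fin n') F) := TwoSidedIdeal.mk'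
      {m | ∃ a ∈ span F (HX F K), ρ' a = m ∧ a * f = 0} ⟨0, zero_mem _, map_zero _, zero_mul _⟩
      (by
        rintro _ _ ⟨a, ha, rfl, e⟩ ⟨b, hb, rfl, e'⟩
        exact ⟨a + b, add_mem ha hb, map_add _ _ _, by rw [add_mul, e, e', add_zero]⟩)
      (by
        rintro _ ⟨a, ha, rfl, e⟩
        exact ⟨-a, neg_mem ha, map_neg _ _, by rw [neg_mul, e, neg_zero]⟩)
      (by
        rintro x _ ⟨a, ha, rfl, e⟩
        obtain ⟨b, hb, rfl⟩ := h'.surj x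
        exact ⟨b * a, sm hb ha, h'.mul b hb a ha, by rw [mul_assoc, e, mul_zero]⟩)
      (by
        rintro _ x ⟨a, ha, rfl, e⟩
        obtain ⟨b, hb, rfl⟩ := h'.surj x
        exact ⟨a * b, sm ha hb, h'.mul a ha b hb, by
          rw [mul_assoc, ← Cen_comm hf.1 (up hb), ← mul_assoc, e, zero_mul]⟩)
    have mem : ∀ m, m ∈ I ↔ ∃ a ∈ span F (HX F K), ρ' a = m ∧ a * f = 0 := fun m =>
      TwoSidedIdeal.mem_mk' _ _ _ _ _ _ _
    rcases eq_bot_or_eq_top I with e | e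
    · have := (mem _).2 ⟨a, ha, rfl, h.inj a (up ha) a0⟩
      rw [e, TwoSidedIdeal.mem_bot] at this
      exact h'.inj a ha this
    · obtain ⟨b, hb, e1, e2⟩ := (mem 1).1 (e ▸ TwoSidedIdeal.mem_top _)
      have e3 := (td_eq hθ.1.1 h' hb hθ.1.1).1 (e1.trans h'.one.symm)
      rw [hθ.2.1] at e3
      refine (hf.2.2.1 ?_).elim
      rw [← k', ← e3, mul_assoc, k', e2]
  · obtain ⟨a, ha, rfl⟩ := h.surj m
    have : span F (HX F C) ≤ ((span F (HX F K)).map ρ).comap ρ := tcl_le fun x hx => by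
      obtain ⟨w, hw, e⟩ := hs x hx
      exact ⟨w, hw, (td_eq hf.1.1 h (up hw) (gam_gu hx)).2 e.symm⟩
    exact this ha

omit [CharZero F] [IsAlgClosed F] [Finite X] in
theorem TwS.cen (h : TwS p K C) (hθ : θ ∈ Irr F (HX F K)) (hi : C ≤ St (gu F X) θ) :
    θ ∈ Cen F (HX F C) := tg2_cen gu_tg h.le hθ hi

/-- the blocks over an invariant block -/
theorem TwS.over (h : TwS p K C) (hp : p.Prime) (hθ : θ ∈ Irr F (HX F K))
    (hi : C ≤ St (gu F X) θ) (hf : f ∈ Irr F (HX F C)) (k : f * θ ≠ 0) :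
    f * θ = f ∧ θ * f = f ∧ Dg F (HX F C) f = Dg F (HX F K) θ ∧ f ∈ IrrP F p (HX F C) ∧
      (∀ c ∈ C, ∃ w ∈ span F (HX F K), gu F X c * f = w * f) ∧
      ∀ w ∈ span F (HX F K), Nd F (HX F C) f w = Nd F (HX F K) θ w ∧
        Chv F (HX F C) f w = Chv F (HX F K) θ w := by
  have c1 := Cen_comm (h.cen hθ hi) hf.1.1
  have k1 : θ * f = f := (Irr_idem hf (h.cen hθ hi) hθ.2.1).resolve_left (c1 ▸ k)
  obtain ⟨h1, h2⟩ := h.fam hp hθ hi
  have d := h1 f hf (c1 ▸ k1)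
  have hs : ∀ c ∈ C, ∃ w ∈ span F (HX F K), gu F X c * f = w * f := fun c hc => by
    obtain ⟨v, hv, -, ⟨w, hw, e⟩, -⟩ := h2 c hc
    obtain ⟨μ, hμ⟩ := hf.2.2.2 v hv
    refine ⟨μ • w, smul_mem _ _ hw, ?_⟩
    rw [smul_mul_assoc, ← mul_smul_comm, ← hμ, ← mul_assoc, e,
      Cen_comm (h.cen hθ hi) (gam_gu hc), mul_assoc, k1]
  refine ⟨c1 ▸ k1, k1, d, ⟨hf, d ▸ h.ndvd hp hθ⟩, hs, fun w hw => ?_⟩
  obtain ⟨n, ρ, hρ⟩ := exists_MM (gam_nice C) hf
  have m := gam_mm h.le hθ hf (c1 ▸ k1) hs hρ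
  exact ⟨by rw [Nd_eq (gam_nice C) hf hρ (th_mono h.le hw), Nd_eq (gam_nice K) hθ m hw],
    by rw [Chv_eq (gam_nice C) hf hρ (th_mono h.le hw), Chv_eq (gam_nice K) hθ m hw]⟩

theorem TwS.gam_non (h : TwS p K C) (hp : p.Prime) (hθ : θ ∈ Irr F (HX F K))
    (hi : ¬ C ≤ St (gu F X) θ) (c : X) : gam F p C c * θ = 0 := by
  obtain ⟨s, hs, e⟩ := gam_sum (F := F) p C
  rw [e, Finset.sum_mul]
  exact Finset.sum_eq_zero fun f hf => by
    rw [smul_mul_assoc, not_not.1 fun k => hi (h.inv_of hp hθ ((hs f).1 hf) k), smul_zero]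

theorem TwS.one_inv (h : TwS p K C) (hp : p.Prime) (hθ : θ ∈ Irr F (HX F K))
    (hi : C ≤ St (gu F X) θ) : gam F p C 1 * θ = θ :=
  gam_ext (C := C) fun f hf => by
    by_cases k : f * θ = 0
    · rw [mul_assoc, Cen_comm (h.cen hθ hi) hf.1.1, k, mul_zero]
    · obtain ⟨-, k1, -, k2, -⟩ := h.over hp hθ hi hf k
      rw [mul_assoc, k1, gam_one_in hp k2]

theorem TwS.gam_inv (h : TwS p K C) (hp : p.Prime) (hθ : θ ∈ Irr F (HX F K))
    (hi : C ≤ St (gu F X) θ) (hc : c ∈ C) :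
    ∃ w ∈ span F (HX F K), gam F p C c * θ = w * θ * gu F X c := by
  obtain ⟨v, hv, v1, ⟨w, hw, e1⟩, ⟨w', hw', e2⟩, n, a, s, s0, hn, e3⟩ := (h.fam hp hθ hi).2 c hc
  have key : ∀ f ∈ Irr F (HX F C), f * θ ≠ 0 → ∃ μ : F, v * f = μ • f ∧ μ ^ p ^ a = s ∧
      Mup p ((lam F p C f c / μ) ^ dg F (HX F K) θ / Nd F (HX F K) θ w) := fun f hf k => by
    obtain ⟨-, k1, d, k2, -, k3⟩ := h.over hp hθ hi hf k
    obtain ⟨μ, hμ⟩ := hf.2.2.2 v hv
    have pw : ∀ m : ℕ, v ^ m * f = μ ^ m • f := fun m => by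
      induction m with
      | zero => simp
      | succ m ih => rw [pow_succ, mul_assoc, hμ, mul_smul_comm, ih, smul_smul, pow_succ']
    have d' : dg F (HX F C) f = dg F (HX F K) θ := congrArg Nat.sqrt d
    refine ⟨μ, hμ, ?_, ?_⟩
    · have := pw (n + 1)
      rw [e3, smul_mul_assoc, k1, hn] at this
      exact (smul_left_injective F hf.2.2.1 this).symm
    · have := (lam_spec hp k2 hc).2
      rwa [← Nd_mul_e (gam_nice C) hf (gam_gu hc), ← k1, ← mul_assoc,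
        ← Cen_comm (h.cen hθ hi) (gam_gu hc), ← e1, mul_assoc, k1, hμ, mul_smul_comm,
        Nd_smul (gam_nice C) hf, Nd_mul_e (gam_nice C) hf (th_mono h.le hw), (k3 w hw).1, d',
        ← div_div, ← div_pow] at this
  obtain ⟨f0, h0, k0⟩ := exists_over gu_tg (H := C) (Nat.cast_ne_zero.2 Nat.card_pos.ne')
    hθ.1.1 hθ.2.2.1
  obtain ⟨μ0, -, a0, b0⟩ := key f0 h0 k0
  have p0 := (h.over hp hθ hi h0 k0).2.2.2.1
  refine ⟨(lam F p C f0 c / μ0) • w', smul_mem _ _ hw', ?_⟩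
  rw [smul_mul_assoc, smul_mul_assoc, ← e2]
  refine gam_ext (C := C) fun f hf => ?_
  by_cases k : f * θ = 0
  · rw [mul_assoc, smul_mul_assoc, ← v1, mul_assoc, Cen_comm (h.cen hθ hi) hf.1.1, k, mul_zero,
      mul_zero, smul_zero]
  · obtain ⟨μ, e, a1, b1⟩ := key f hf k
    obtain ⟨-, k1, -, k2, -⟩ := h.over hp hθ hi hf k
    have n0 : ∀ {x : F}, x ^ p ^ a = s → x ≠ 0 := fun hx o => s0 (by
      rw [← hx, o, zero_pow (pow_ne_zero a hp.ne_zero)])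
    have l0 := (lam_spec hp p0 hc).1.ne hp
    have : lam F p C f c / (μ / μ0) = lam F p C f0 c := by
      refine gam_uniq hp (d := dg F (HX F K) θ) (δ := μ0 ^ dg F (HX F K) θ * Nd F (HX F K) θ w)
        (fun o => h.ndvd hp hθ ((Dg_sq (gam_nice K) hθ).1 ▸ o.trans (dvd_pow_self _ two_ne_zero)))
        ?_ ?_ (lam_spec hp p0 hc).1 (by rwa [← div_div, ← div_pow])
      · rw [div_eq_mul_inv]
        exact (lam_spec hp k2 hc).1.mul (Mpp.inv ⟨a, by rw [div_pow, a1, a0, div_self s0]⟩)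
      · rwa [← div_div, ← div_pow, div_div, div_mul_cancel₀ _ (n0 a0)]
    rw [mul_assoc, k1, gam_in k2, smul_mul_assoc, e, smul_smul, ← this]
    congr 1
    have := n0 a0
    have := n0 a1
    field_simp

/-- the twist differs from the group element by an element of the span of `K` -/
theorem TwS.mem (h : TwS p K C) (hp : p.Prime) (hc : c ∈ C) :
    gam F p C c * gu F X c⁻¹ ∈ span F (HX F K) := by
  obtain ⟨s, hs, e⟩ := Irr_sum (gu_tg (F := F) (X := X)) (H := K)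
    (Nat.cast_ne_zero.2 Nat.card_pos.ne')
  rw [← mul_one (gam F p C c), ← gu_one, ← e, Finset.mul_sum, Finset.sum_mul]
  refine sum_mem fun θ hθ => ?_
  have hθ : θ ∈ Irr F (HX F K) := hs ▸ Finset.mem_coe.2 hθ
  by_cases hi : C ≤ St (gu F X) θ
  · obtain ⟨w, hw, e⟩ := h.gam_inv hp hθ hi hc
    rw [e, mul_assoc, gu_mul, mul_inv_cancel, gu_one, mul_one]
    exact (gam_nice K).span_mul hw hθ.1.1
  · rw [h.gam_non hp hθ hi, zero_mul]
    exact zero_mem _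

theorem TwS.gam_K (h : TwS p K C) (hp : p.Prime) {k : X} (hk : k ∈ K) :
    gam F p C k = gam F p C 1 :=
  gam_reg hp (h.le hk) fun o => h.cop (o.trans (K.orderOf_dvd_natCard hk))

theorem TwS.one_mem (h : TwS p K C) (hp : p.Prime) : gam F p C 1 ∈ Cen F (HX F K) := by
  have := h.mem (F := F) hp C.one_mem
  rw [inv_one, gu_one, mul_one] at this
  exact ⟨this, fun s hs => (gam_cen 1).2 s (Hm_mono h.le hs)⟩

end Pool.Agent.Lib.MP_1ae3da_al.CT
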