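import Pool.Agent.Lib.MP_1ae3da_al.Y.Df
import Pool.Agent.Lib.MP_1ae3da_al.C.GrT
import Pool.Agent.Lib.MP_1ae3da_al.Y.G0

set_option autoImplicit false
set_option linter.unusedSectionVars false

/-! Groups with a cyclic Sylow subgroup (wrapper of Y/G0). -/

namespace Pool.Agent.Lib.MP_1ae3da_al.CT

open Submodule

variable {p a : ℕ} {X : Type} [Group X] [Finite X] {Q : Subgroup X} {d : X}

theorem cyc_ex (hp : p.Prime) (hp2 : p ≠ 2) (hX : commutator X = ⊤) [Fact p.Prime] (D : Sylow p X)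
    (hD : IsCyclic (D : Subgroup X)) (h2 : p ^ 2 ∣ Nat.card X) :
    ∃ a d, Cyc p a (Pool.Agent.Lib.McK.Om p (D : Subgroup X)) d := by
  have h := cy_om D hD ((dvd_pow_self p two_ne_zero).trans h2)
  obtain ⟨g, hg, h1⟩ := h.gen
  obtain ⟨a, -, ha⟩ := h.cardD
  have e : Subgroup.zpowers g = D := le_antisymm (Subgroup.zpowers_le.2 hg) fun x hx => by
    obtain ⟨j, rfl⟩ := h1 x hx
    exact pow_mem (Subgroup.mem_zpowers g) j
  refine ⟨a, g, hp, hp2, hX, h.card, by rw [← Nat.card_zpowers, e, ha],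
    (Nat.pow_dvd_pow_iff_le_right hp.one_lt).1 (ha ▸ h.sq_dvd h2), e ▸ h.ind, e ▸ h.le⟩

theorem Cyc.cy (h : Cyc p a Q d) : Cy p (Subgroup.zpowers d) Q :=
  ⟨inferInstance, .of_card ((Nat.card_zpowers d).trans h.ord), h.ind, h.le, h.card⟩

theorem Cyc.ygrp_pow (h : Cyc p a Q d) {x : X} (hx : x ∈ Subgroup.zpowers d) :
    ∃ j < p ^ a, x = d ^ j := by
  obtain ⟨j, rfl⟩ := (mem_powers_iff_mem_zpowers).2 hx
  exact ⟨j % orderOf d, h.ord ▸ Nat.mod_lt _ (orderOf_pos d), (pow_mod_orderOf d j).symm⟩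

theorem ygrp_mod {x y : X} (hy : y ∈ NQ Q) (h : x * y⁻¹ ∈ Kp p Q) (j : ℕ) :
    x ^ j * (y ^ j)⁻¹ ∈ Kp p Q := by
  induction j with
  | zero => simp
  | succ j ih =>
    have := mul_mem ih (kp_conj (pow_mem hy j) h)
    rwa [show x ^ j * (y ^ j)⁻¹ * (y ^ j * (x * y⁻¹) * (y ^ j)⁻¹) =
      x ^ (j + 1) * (y ^ (j + 1))⁻¹ by rw [pow_succ x, pow_succ y]; group] at this

theorem ygrp_CN : CQ Q ≤ NQ Q := Subgroup.centralizer_le_normalizer _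

theorem Cyc.dC (h : Cyc p a Q d) : d ∈ CQ Q := by
  exact h.cy.DC (Subgroup.mem_zpowers d)

/-- Burnside in `C`: a `p'`-automorphism of `zpowers d` trivial on `Q` is trivial. -/
theorem Cyc.kcard (h : Cyc p a Q d) : ¬ p ∣ Nat.card (Kp p Q) := by
  have : Fact p.Prime := ⟨h.prime⟩
  exact h.cy.kp_card

theorem Cyc.split (h : Cyc p a Q d) {c : X} (hc : c ∈ CQ Q) : ∃ k ∈ Kp p Q, ∃ j < p ^ a, c = k * d ^ j := by
  have : Fact p.Prime := ⟨h.prime⟩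
  obtain ⟨k, hk, x, hx, rfl⟩ := h.cy.split hc
  obtain ⟨j, hj, rfl⟩ := h.ygrp_pow hx
  exact ⟨k, hk, j, hj, rfl⟩

theorem Cyc.memK (h : Cyc p a Q d) {x : X} : x ∈ Kp p Q ↔ x ∈ CQ Q ∧ ¬ p ∣ orderOf x := by
  have : Fact p.Prime := ⟨h.prime⟩
  exact h.cy.mem_kp

theorem Cyc.powK (h : Cyc p a Q d) {j : ℕ} : d ^ j ∈ Kp p Q ↔ p ^ a ∣ j := by
  have : Fact p.Prime := ⟨h.prime⟩
  rw [← h.ord, orderOf_dvd_iff_pow_eq_one]
  exact ⟨h.cy.one_of (pow_mem (Subgroup.mem_zpowers d) j), fun e => e ▸ one_mem _⟩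

theorem Cyc.cardC (h : Cyc p a Q d) : p ^ a * Nat.card (Kp p Q) = Nat.card (CQ Q) := by
  have : Fact p.Prime := ⟨h.prime⟩
  rw [← h.cy.card_mul, Nat.card_zpowers, h.ord, mul_comm]

theorem Cyc.comm (h : Cyc p a Q d) {c c' : X} (hc : c ∈ CQ Q) (hc' : c' ∈ CQ Q) :
    c * c' * c⁻¹ * c'⁻¹ ∈ Kp p Q := by
  have : Fact p.Prime := ⟨h.prime⟩
  obtain ⟨k, hk, x, hx, rfl⟩ := h.cy.split hc
  obtain ⟨l, hl, y, hy, rfl⟩ := h.cy.split hc'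
  have := mul_mem (mul_mem (mul_mem hk (kp_conj (h.cy.DN hx) hl))
    (kp_conj (h.cy.DN hy) (inv_mem hk))) (inv_mem hl)
  rwa [show k * (x * l * x⁻¹) * (y * k⁻¹ * y⁻¹) * l⁻¹ =
    k * x * (l * y) * (k * x)⁻¹ * (l * y)⁻¹ by
      calc _ = k * x * l * (x⁻¹ * y) * k⁻¹ * y⁻¹ * l⁻¹ := by group
        _ = _ := by rw [h.cy.comm (inv_mem hx) hy]; group] at this

theorem Cyc.powq (h : Cyc p a Q d) {c : X} (hc : c ∈ CQ Q) : c ^ p ^ a ∈ Kp p Q := by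
  obtain ⟨k, hk, j, -, rfl⟩ := h.split hc
  have := ygrp_mod (x := k * d ^ j) (ygrp_CN (pow_mem h.dC j)) (by rwa [mul_inv_cancel_right])
    (p ^ a)
  rwa [← pow_mul, mul_comm j, pow_mul, ← h.ord, pow_orderOf_eq_one, one_pow, inv_one, mul_one,
    h.ord] at this

theorem Cyc.aut (h : Cyc p a Q d) (α : MulAut X) (hα : ∀ x, α x ∈ Q ↔ x ∈ Q) :
    ∃ j : ℕ, ¬ p ∣ j ∧ α d * (d ^ j)⁻¹ ∈ Kp p Q := by
  have h1 : α d ∈ CQ Q := Subgroup.mem_centralizer_iff.2 fun q hq => by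
    obtain ⟨q, rfl⟩ := α.surjective q
    rw [← map_mul, ← map_mul, Subgroup.mem_centralizer_iff.1 h.dC q ((hα q).1 hq)]
  obtain ⟨k, hk, j, -, e⟩ := h.split h1
  have h2 : α d * (d ^ j)⁻¹ ∈ Kp p Q := by rwa [e, mul_inv_cancel_right]
  refine ⟨j, fun ⟨i, hi⟩ => ?_, h2⟩
  obtain ⟨b, rfl⟩ := Nat.exists_eq_add_of_le' (one_le_two.trans h.two)
  have h3 := ygrp_mod (ygrp_CN (pow_mem h.dC j)) h2 (p ^ b)
  rw [← pow_mul, hi, mul_comm p, mul_assoc, ← pow_succ', mul_comm i, pow_mul, ← h.ord,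
    pow_orderOf_eq_one, one_pow, inv_one, mul_one, ← map_pow] at h3
  have h4 := kp_aut α.symm (fun y => by rw [← hα, α.apply_symm_apply]) h3
  rw [α.symm_apply_apply, h.powK, Nat.pow_dvd_pow_iff_le_right h.prime.one_lt] at h4
  omega

theorem Cyc.cj (h : Cyc p a Q d) {n : X} (hn : n ∈ NQ Q) :
    ∃ j : ℕ, ¬ p ∣ j ∧ n * d * n⁻¹ * (d ^ j)⁻¹ ∈ Kp p Q := by
  exact h.aut (MulAut.conj n) fun x => (Subgroup.mem_normalizer_iff.1 hn x).symm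

theorem Cyc.act (h : Cyc p a Q d) {n x : X} (hn : n ∈ NQ Q) {j : ℕ}
    (hj : n * d * n⁻¹ * (d ^ j)⁻¹ ∈ Kp p Q) (hx : x ∈ Q) : n * x * n⁻¹ = x ^ j := by
  have : Fact p.Prime := ⟨h.prime⟩
  have h1 := (Subgroup.mem_normalizer_iff.1 hn x).1 hx
  obtain ⟨i, -, rfl⟩ := h.ygrp_pow (h.le hx)
  have h2 := ygrp_mod (ygrp_CN (pow_mem h.dC j)) hj i
  rw [conj_pow, ← pow_mul, mul_comm j, pow_mul] at h2
  exact mul_inv_eq_one.1 (h.cy.one_of (h.le (mul_mem h1 (inv_mem (pow_mem hx j)))) h2)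

theorem Cyc.free (h : Cyc p a Q d) {n : X} (hn : n ∈ NQ Q) (hc : n ∉ CQ Q) {j : ℕ}
    (hj : n * d * n⁻¹ * (d ^ j)⁻¹ ∈ Kp p Q) : ¬ j ≡ 1 [MOD p] := by
  have : Fact p.Prime := ⟨h.prime⟩
  refine fun e => hc (Subgroup.mem_centralizer_iff.2 fun x hx => ?_)
  have h1 := h.act hn hj hx
  rw [pow_eq_pow_of_modEq e (rg_pow h.card hx), pow_one, mul_inv_eq_iff_eq_mul] at h1
  exact h1.symm

theorem Cyc.burn (h : Cyc p a Q d) : ∃ n ∈ NQ Q, n ∉ CQ Q := by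
  have : Fact p.Prime := ⟨h.prime⟩
  obtain ⟨m, h1, h2⟩ := h.cy.burnside h.per
  exact ⟨m, h.cy.ND h1, h2⟩

theorem Cyc.uniq (h : Cyc p a Q d) {x : X} (hx : x ∈ NQ Q) (h1 : x ^ p = 1) : x ∈ Q := by
  have : Fact p.Prime := ⟨h.prime⟩
  exact h.cy.omN hx h1

theorem Cyc.autQ (h : Cyc p a Q d) (α : MulAut X) (hα : ∀ x, α x ∈ NQ Q ↔ x ∈ NQ Q) (x : X) :
    α x ∈ Q ↔ x ∈ Q := by
  have : Fact p.Prime := ⟨h.prime⟩
  exact h.cy.autN α hα x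

theorem Cyc.ti (h : Cyc p a Q d) {c x : X} (hc : c ∈ CQ Q) (hk : c ∉ Kp p Q)
    (hx : x * c * x⁻¹ ∈ NQ Q) : x ∈ NQ Q := by
  have : Fact p.Prime := ⟨h.prime⟩
  exact h.cy.ti (ygrp_CN hc) ((h.cy.sing hc).2 hk) hx

theorem Cyc.dfree (h : Cyc p a Q d) {x : X} (hx : x ∉ NQ Q) {j : ℕ} (hj : x⁻¹ * d ^ j * x ∈ NQ Q) :
    p ^ a ∣ j := by
  have : Fact p.Prime := ⟨h.prime⟩
  rw [← h.ord, orderOf_dvd_iff_pow_eq_one]
  exact h.cy.tiD (g := x⁻¹) (pow_mem (Subgroup.mem_zpowers d) j) (fun k => hx (inv_mem_iff.1 k))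
    (by rwa [inv_inv])

theorem Cyc.rel (h : Cyc p a Q d) : (CQ Q).relIndex (NQ Q) ∣ p - 1 := by
  have : Fact p.Prime := ⟨h.prime⟩
  exact h.cy.relIndex_dvd

theorem Cyc.powC (h : Cyc p a Q d) {n : X} (hn : n ∈ NQ Q) : n ^ (p - 1) ∈ CQ Q := by
  obtain ⟨c, hc⟩ := h.rel
  have := Subgroup.normal_subgroupOf_centralizer_normalizer (Q : Set X)
  rw [hc, pow_mul]
  exact pow_mem (Subgroup.mem_subgroupOf.1
    (((CQ Q).subgroupOf (NQ Q)).pow_index_mem (⟨n, hn⟩ : NQ Q))) c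

theorem Cyc.sup {d : NQ Q} (h : Cyc p a Q (d : X)) :
    (Kp p Q).subgroupOf (NQ Q) ⊔ Subgroup.zpowers d = (CQ Q).subgroupOf (NQ Q) := by
  refine le_antisymm (sup_le (Subgroup.comap_mono (kp_le Q)) (Subgroup.zpowers_le.2 h.dC))
    fun c hc => ?_
  obtain ⟨k, hk, j, -, e⟩ := h.split (Subgroup.mem_subgroupOf.1 hc)
  obtain rfl : c = ⟨k, ygrp_CN (kp_le Q hk)⟩ * d ^ j := Subtype.ext e
  exact Subgroup.mul_mem_sup hk (pow_mem (Subgroup.mem_zpowers d) j)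

theorem Cyc.indC (h : Cyc p a Q d) : ¬ p ∣ ((CQ Q).subgroupOf (NQ Q)).index := by
  have := h.prime.two_le
  exact fun k => absurd (Nat.le_of_dvd (by omega) (k.trans h.rel)) (by omega)

theorem Mup.ygrp (hp : p.Prime) {M : Type} [Monoid M] {c : M} {n : ℕ} (hn : ¬ p ∣ n)
    (hc : Mup p (c ^ n)) : Mup p c := by
  obtain ⟨m, hm, e⟩ := hc
  exact ⟨n * m, hp.not_dvd_mul hn hm, by rw [pow_mul, e]⟩

/-- linear characters of the normaliser have order prime to `p`. -/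
theorem Cyc.mup (h : Cyc p a Q d) {M : Type} [CommMonoid M] (ν : NQ Q →* M) (n : NQ Q) : Mup p (ν n) := by
  have : Fact p.Prime := ⟨h.prime⟩
  obtain ⟨m, hm, g, hg, e⟩ := h.cy.le_comm h.per (Subgroup.mem_zpowers d)
  have h1 : ν ⟨d, ygrp_CN h.dC⟩ = 1 := by
    have e' : (⟨d, ygrp_CN h.dC⟩ : NQ Q) =
        ⟨m, hm⟩ * ⟨g, h.cy.DN hg⟩ * ⟨m, hm⟩⁻¹ * ⟨g, h.cy.DN hg⟩⁻¹ := Subtype.ext e
    rw [e', map_mul, map_mul, map_mul, mul_right_comm (ν _), ← map_mul, mul_inv_cancel, map_one,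
      one_mul, ← map_mul, mul_inv_cancel, map_one]
  obtain ⟨k, hk, j, -, e⟩ := h.split (h.powC n.2)
  have e' : n ^ (p - 1) = ⟨k, ygrp_CN (kp_le Q hk)⟩ * ⟨d, ygrp_CN h.dC⟩ ^ j := Subtype.ext e
  have := h.prime.two_le
  refine Mup.ygrp h.prime (n := p - 1)
    (fun k => absurd (Nat.le_of_dvd (by omega) k) (by omega)) ⟨orderOf k, (h.memK.1 hk).2, ?_⟩
  rw [← map_pow, e', map_mul, map_pow, h1, one_pow, mul_one, ← map_pow,
    show (⟨k, ygrp_CN (kp_le Q hk)⟩ : NQ Q) ^ orderOf k = 1 from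
      Subtype.ext (pow_orderOf_eq_one k), map_one]

end Pool.Agent.Lib.MP_1ae3da_al.CT
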