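import Pool.Agent.Lib.MP_1ae3da_al.C.RLBas

set_option autoImplicit false
set_option linter.unusedSectionVars false

/-! Determinant of `1 - g` from the traces of the powers of `g`; length of a cokernel. -/

namespace Pool.Agent.Lib.MP_1ae3da_al.CT.R5

open Polynomial

theorem hb_tr0 {R U : Type} [CommRing R] [IsDomain R] [IsPrincipalIdealRing R] [AddCommGroup U]
    [Module R U] [Module.Free R U] [Module.Finite R U] {q : ℕ} (h : Module.End R U)
    (hq : h ^ q = 1) :
    LinearMap.trace R U (∑ j ∈ Finset.range q, h ^ j) =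
      (q : R) * Module.finrank R (LinearMap.ker (h - 1)) := by
  have m : ∀ v, (∑ j ∈ Finset.range q, h ^ j) v ∈ LinearMap.ker (h - 1) := fun v => by
    change ((h - 1) * ∑ j ∈ Finset.range q, h ^ j) v = 0
    rw [mul_geom_sum, hq, sub_self, LinearMap.zero_apply]
  have e := LinearMap.trace_comp_comm' (LinearMap.ker (h - 1)).subtype
    (LinearMap.codRestrict _ _ m)
  have e1 : LinearMap.codRestrict _ _ m ∘ₗ (LinearMap.ker (h - 1)).subtype =
      (q : R) • LinearMap.id := by
    ext v
    have f : ∀ j : ℕ, (h ^ j) v.1 = v.1 := fun j => by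
      have hv : h v.1 = v.1 := sub_eq_zero.1 v.2
      induction j with
      | zero => rfl
      | succ j ih => rw [pow_succ, Module.End.mul_apply, hv, ih]
    simp [f, Nat.cast_smul_eq_nsmul]
  rw [e1, LinearMap.subtype_comp_codRestrict, map_smul, LinearMap.trace_id, smul_eq_mul] at e
  exact e.symm

theorem hb_field {F U : Type} [Field F] [CharZero F] [AddCommGroup U] [Module F U]
    [Module.Finite F U] {q n : ℕ} (h0 : 0 < q) {ζ : F} (hζ : IsPrimitiveRoot ζ q)
    (g : Module.End F U) (hq : g ^ q = 1)
    (ht : ∀ j, 0 < j → j < q → LinearMap.trace F U (g ^ j) = -(n : F))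
    (hr : Module.finrank F U = (q - 1) * n) : LinearMap.det (1 - g) = (q : F) ^ n := by
  classical
  obtain ⟨q, rfl⟩ : ∃ k, q = k + 1 := ⟨q - 1, by omega⟩
  have z0 : ζ ≠ 0 := hζ.ne_zero (by omega)
  have mult : ∀ k, k < q → n ≤ g.charpoly.rootMultiplicity (ζ ^ (k + 1)) := fun k hk => by
    set μ : F := ζ ^ (k + 1) with hμ
    have μ0 : μ ≠ 0 := pow_ne_zero _ z0
    have μq : μ ^ (q + 1) = 1 := by rw [hμ, ← pow_mul, mul_comm, pow_mul, hζ.pow_eq_one, one_pow]
    have μ1 : μ⁻¹ ≠ 1 := fun e => hζ.pow_ne_one_of_pos_of_lt (by omega) (by omega : k + 1 < q + 1)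
      (inv_eq_one.1 e)
    have e := hb_tr0 (q := q + 1) (μ⁻¹ • g) (by rw [_root_.smul_pow, hq, inv_pow, μq, inv_one, one_smul])
    have s0 : ∑ j ∈ Finset.range (q + 1), μ⁻¹ ^ j = 0 := by
      have := mul_geom_sum μ⁻¹ (q + 1)
      rw [inv_pow, μq, inv_one, sub_self] at this
      exact (mul_eq_zero.1 this).resolve_left (sub_ne_zero.2 μ1)
    rw [Finset.sum_range_succ'] at s0
    rw [map_sum, Finset.sum_range_succ', pow_zero, LinearMap.trace_one, hr,
      Finset.sum_congr rfl (g := fun j => μ⁻¹ ^ (j + 1) * -(n : F)) (fun j hj => by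
        rw [_root_.smul_pow, map_smul, ht _ (by omega) (by simpa using hj), smul_eq_mul]),
      ← Finset.sum_mul] at e
    have e2 : ((q + 1 : ℕ) : F) * (n : F) =
        ((q + 1 : ℕ) : F) * Module.finrank F (LinearMap.ker (μ⁻¹ • g - 1)) := by
      rw [← e, eq_neg_of_add_eq_zero_left s0]
      push_cast
      simp
      ring
    have e3 : n = Module.finrank F (LinearMap.ker (μ⁻¹ • g - 1)) :=
      Nat.cast_injective (R := F) (mul_left_cancel₀ (Nat.cast_ne_zero.2 (by omega)) e2)
    refine e3.le.trans ((Submodule.finrank_mono fun v hv => ?_).trans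
      (LinearMap.finrank_eigenspace_le g μ))
    rw [Module.End.mem_eigenspace_iff]
    have : μ⁻¹ • g v = v := sub_eq_zero.1 hv
    exact (inv_smul_eq_iff₀ μ0).1 this
  have dv : (∏ k ∈ Finset.range q, (X - C (ζ ^ (k + 1))) ^ n) ∣ g.charpoly := by
    refine Finset.prod_dvd_of_coprime (fun i hi j hj hij => IsCoprime.pow ?_) fun k hk =>
      (pow_dvd_pow _ (mult k (by simpa using hk))).trans (pow_rootMultiplicity_dvd _ _)
    refine isCoprime_X_sub_C_of_isUnit_sub (IsUnit.mk0 _ (sub_ne_zero.2 fun e => hij ?_))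
    have := hζ.pow_inj (by simpa using hi : i + 1 < q + 1) (by simpa using hj : j + 1 < q + 1) e
    omega
  have mo : (∏ k ∈ Finset.range q, (X - C (ζ ^ (k + 1))) ^ n).Monic :=
    monic_prod_of_monic _ _ fun k _ => (monic_X_sub_C _).pow _
  have eq : g.charpoly = ∏ k ∈ Finset.range q, (X - C (ζ ^ (k + 1))) ^ n := by
    refine eq_of_monic_of_dvd_of_natDegree_le mo g.charpoly_monic dv ?_
    rw [LinearMap.charpoly_natDegree, hr,
      natDegree_prod_of_monic _ _ fun k _ => (monic_X_sub_C _).pow _]
    simp only [natDegree_pow, natDegree_X_sub_C]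
    simp
  have e := g.eval_charpoly 1
  rw [map_one, eq, Finset.prod_pow, eval_pow, eval_prod] at e
  rw [← e]
  have := hζ.prod_one_sub_pow_eq_order
  simp only [eval_sub, eval_X, eval_C]
  rw [this]
  push_cast
  rfl

theorem hb_det {R U : Type} [CommRing R] [IsDomain R] [CharZero R] [AddCommGroup U] [Module R U]
    [Module.Free R U] [Module.Finite R U] {q n : ℕ} (h0 : 0 < q)
    (g : Module.End R U) (hq : g ^ q = 1)
    (ht : ∀ j, 0 < j → j < q → LinearMap.trace R U (g ^ j) = -(n : R))
    (hr : Module.finrank R U = (q - 1) * n) : LinearMap.det (1 - g) = (q : R) ^ n := by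
  let F := AlgebraicClosure (FractionRing R)
  have inj : Function.Injective (algebraMap R F) := by
    rw [IsScalarTower.algebraMap_eq R (FractionRing R) F]
    exact (algebraMap (FractionRing R) F).injective.comp (IsFractionRing.injective R _)
  have : CharZero F := charZero_of_injective_algebraMap inj
  have : NeZero (q : F) := ⟨Nat.cast_ne_zero.2 h0.ne'⟩
  obtain ⟨ζ, hζ⟩ := HasEnoughRootsOfUnity.exists_primitiveRoot F q
  have e := hb_field (n := n) h0 hζ (g.baseChange F)
    (by rw [← LinearMap.baseChange_pow, hq, LinearMap.baseChange_one])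
    (fun j a b => by
      rw [← LinearMap.baseChange_pow, LinearMap.trace_baseChange, ht j a b, map_neg, map_natCast])
    (by rw [Module.finrank_baseChange, hr])
  apply inj
  rw [← LinearMap.det_baseChange, LinearMap.baseChange_sub, LinearMap.baseChange_one, e, map_pow,
    map_natCast]

theorem hb_len {R U : Type} [CommRing R] [IsDomain R] [IsPrincipalIdealRing R] [AddCommGroup U]
    [Module R U] [Module.Free R U] [Module.Finite R U] (f : Module.End R U)
    (hf : Function.Injective f) :
    Module.length R (U ⧸ LinearMap.range f) = Ring.ord R (LinearMap.det f) := by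
  classical
  let b := Module.Free.chooseBasis R U
  have h : Module.finrank R (LinearMap.range f) = Module.finrank R U :=
    (LinearEquiv.ofInjective f hf).finrank_eq.symm
  rw [(Submodule.quotientEquivPiSpan _ b h).length_eq, Module.length_pi_of_fintype]
  let b1 := Submodule.smithNormalFormTopBasis b h
  let b2 := Submodule.smithNormalFormBotBasis b h
  have a := LinearMap.associated_det_comp_equiv (LinearMap.range f).subtype
    (LinearEquiv.ofInjective f hf) (b1.equiv b2 (Equiv.refl _))
  have e1 : (LinearMap.range f).subtype ∘ₗ (LinearEquiv.ofInjective f hf : U →ₗ[R] _) = f := by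
    ext v
    rfl
  have e2 : LinearMap.det ((LinearMap.range f).subtype ∘ₗ
      (b1.equiv b2 (Equiv.refl _) : U →ₗ[R] _)) = ∏ i, Submodule.smithNormalFormCoeffs b h i := by
    rw [← LinearMap.det_toMatrix b1, ← Matrix.det_diagonal]
    congr 1
    ext i j
    by_cases k : i = j <;>
    simp [LinearMap.toMatrix_apply, b2, b1, Submodule.smithNormalFormBotBasis_def, k]
  rw [e1, e2] at a
  rw [Ring.ord_eq_of_associated a]
  have key : ∀ s : Finset (Module.Free.ChooseBasisIndex R U),
      Ring.ord R (∏ i ∈ s, Submodule.smithNormalFormCoeffs b h i) =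
        ∑ i ∈ s, Ring.ord R (Submodule.smithNormalFormCoeffs b h i) := fun s => by
    induction s using Finset.induction_on with
    | empty => simp
    | insert i s hi ih =>
      rw [Finset.prod_insert hi, Finset.sum_insert hi, Ring.ord_mul' R
        (mem_nonZeroDivisors_of_ne_zero (Submodule.smithNormalFormCoeffs_ne_zero b h i)), ih]
  rw [key]
  rfl

end Pool.Agent.Lib.MP_1ae3da_al.CT.R5
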