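import Pool.Agent.Lib.MP_1ae3da_al.Y.HbA

set_option autoImplicit false
set_option linter.unusedSectionVars false

/-! Herbrand count for an endomorphism of order `p ^ a` of a lattice. -/

namespace Pool.Agent.Lib.MP_1ae3da_al.CT.R5

variable {O : Type} [CommRing O] [IsDomain O] [IsDiscreteValuationRing O] [CharZero O] {p : ℕ}

/-- the length of `A / B` -/
noncomputable def ln {U : Type} [AddCommGroup U] [Module O U] (A B : Submodule O U) : ℕ∞ :=
  Module.length O (A.map B.mkQ)

theorem hb_ker {U W : Type} [AddCommGroup U] [Module O U] [AddCommGroup W] [Module O W]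
    (f : U →ₗ[O] W) :
    Module.length O U = Module.length O (LinearMap.ker f) + Module.length O (LinearMap.range f) :=
  Module.length_eq_add_of_exact (LinearMap.ker f).subtype f.rangeRestrict
    (Submodule.injective_subtype _) f.surjective_rangeRestrict
    (LinearMap.exact_iff.2 (by rw [LinearMap.ker_rangeRestrict, Submodule.range_subtype]))

variable {U : Type} [AddCommGroup U] [Module O U] [Module.Free O U] [Module.Finite O U]

theorem hb_split (a b : Module.End O U) (hab : ∀ v, b v ∈ LinearMap.ker a)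
    (h0 : ∀ v, a v = 0 → b v = 0 → v = 0) :
    Ring.ord O (LinearMap.det (b.restrict fun v (_ : v ∈ LinearMap.ker a) => hab v)) =
      Module.length O (U ⧸ (LinearMap.ker a ⊔ LinearMap.ker b)) +
        ln (LinearMap.ker a) (LinearMap.range b) := by
  set b' := b.restrict fun v (_ : v ∈ LinearMap.ker a) => hab v with hb'
  have inj : Function.Injective b' := (injective_iff_map_eq_zero _).2 fun v hv =>
    Subtype.ext (h0 _ v.2 (congrArg Subtype.val hv))
  rw [← hb_len b' inj]
  let φ : (LinearMap.ker a ⧸ LinearMap.range b') →ₗ[O] U ⧸ LinearMap.range b :=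
    (LinearMap.range b').liftQ ((LinearMap.range b).mkQ ∘ₗ (LinearMap.ker a).subtype) (by
      rintro _ ⟨v, rfl⟩
      exact (Submodule.Quotient.mk_eq_zero _).2 ⟨v.1, rfl⟩)
  let ψ : U →ₗ[O] LinearMap.ker a ⧸ LinearMap.range b' :=
    (LinearMap.range b').mkQ ∘ₗ LinearMap.codRestrict _ b hab
  have e1 : LinearMap.range φ = (LinearMap.ker a).map (LinearMap.range b).mkQ := by
    rw [Submodule.range_liftQ, LinearMap.range_comp, Submodule.range_subtype]
  have e2 : LinearMap.range ψ = LinearMap.ker φ := by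
    refine le_antisymm ?_ fun x hx => ?_
    · rintro _ ⟨v, rfl⟩
      exact (Submodule.Quotient.mk_eq_zero _).2 ⟨v, rfl⟩
    · obtain ⟨v, rfl⟩ := Submodule.Quotient.mk_surjective _ x
      obtain ⟨u, hu⟩ := (Submodule.Quotient.mk_eq_zero _).1 (show Submodule.Quotient.mk v.1 = 0 from hx)
      exact ⟨u, congrArg Submodule.Quotient.mk (Subtype.ext hu)⟩
  have e3 : LinearMap.ker ψ = LinearMap.ker a ⊔ LinearMap.ker b := by
    refine le_antisymm (fun v hv => ?_) (sup_le (fun v hv => ?_) fun v hv => ?_)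
    · obtain ⟨u, hu⟩ := (Submodule.Quotient.mk_eq_zero _).1 hv
      have hu' : b u.1 = b v := congrArg Subtype.val hu
      rw [← add_sub_cancel u.1 v]
      exact Submodule.add_mem_sup u.2 (by rw [LinearMap.mem_ker, map_sub, hu', sub_self])
    · exact (Submodule.Quotient.mk_eq_zero _).2 ⟨⟨v, hv⟩, rfl⟩
    · exact (Submodule.Quotient.mk_eq_zero _).2 ⟨0, Subtype.ext (by
        simpa using (LinearMap.mem_ker.1 hv).symm)⟩
  rw [hb_ker φ, e1, ← e2, ← e3, ψ.quotKerEquivRange.length_eq]
  rfl

theorem hb_ord (hW : Wt p O) (a n : ℕ) : Ring.ord O (((p ^ a : ℕ) : O) ^ n) = (a * n : ℕ) := by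
  rw [Nat.cast_pow, ← pow_mul, Ring.ord_pow (mem_nonZeroDivisors_of_ne_zero hW.irr.ne_zero),
    Ring.ord_of_irreducible hW.irr]
  simp

/-- ranks from the traces -/
theorem hb_rank {q : ℕ} (h1 : 1 < q) (g : Module.End O U) (hg : g ^ q = 1) {c : ℤ}
    (ht : ∀ j, 0 < j → j < q → LinearMap.trace O U (g ^ j) = (c : O)) :
    (q : ℤ) * Module.finrank O (zA q g false) = Module.finrank O U + (q - 1) * c := by
  apply Int.cast_injective (α := O)
  have e : _ = (q : O) * Module.finrank O (zA q g false) := hb_tr0 g hg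
  generalize Module.finrank O (zA q g false) = r at e ⊢
  obtain ⟨q, rfl⟩ : ∃ k, q = k + 1 := ⟨q - 1, by omega⟩
  rw [map_sum, Finset.sum_range_succ', pow_zero, LinearMap.trace_one,
    Finset.sum_congr rfl (g := fun _ => (c : O)) (fun j hj =>
      ht _ (by omega) (by simpa using hj))] at e
  push_cast at e ⊢
  simp only [Finset.sum_const, Finset.card_range, nsmul_eq_mul] at e
  linear_combination -e

/-- the Herbrand count -/
theorem herb (hW : Wt p O) {a : ℕ} (ha : 0 < a) (g : Module.End O U) (hg : g ^ (p ^ a) = 1) {c : ℤ}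
    (ht : ∀ j, 0 < j → j < p ^ a → LinearMap.trace O U (g ^ j) = (c : O)) :
    ∃ t0 t1 : ℕ, ln (zA (p ^ a) g false) (zB (p ^ a) g false) = t0 ∧
      ln (zA (p ^ a) g true) (zB (p ^ a) g true) = t1 ∧ (t0 : ℤ) - t1 = a * c := by
  have h1 : 1 < p ^ a := Nat.one_lt_pow ha.ne' hW.prime.one_lt
  have hr := hb_rank h1 g hg ht
  have hn := hb_tr0 g hg
  have ho := hb_ord hW a
  generalize p ^ a = q at *
  set N := ∑ j ∈ Finset.range q, g ^ j with hN
  have q0 : (q : O) ≠ 0 := Nat.cast_ne_zero.2 (by omega)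
  have m0 : ∀ v, N v ∈ LinearMap.ker (g - 1) := fun v => zB_le hg false ⟨v, rfl⟩
  have m1 : ∀ v, (g - 1) v ∈ LinearMap.ker N := fun v => zB_le hg true ⟨v, rfl⟩
  have nq : ∀ v, (g - 1) v = 0 → N v = (q : O) • v := fun v hv => by
    rw [hN, LinearMap.sum_apply, Finset.sum_congr rfl fun j _ => rlbas_fix (sub_eq_zero.1 hv) j,
      Finset.sum_const, Finset.card_range, Nat.cast_smul_eq_nsmul]
  have z : ∀ v, (g - 1) v = 0 → N v = 0 → v = 0 := fun v h h' =>
    (smul_eq_zero.1 ((nq v h).symm.trans h')).resolve_left q0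
  have s0 := hb_split (g - 1) N m0 z
  have s1 := hb_split N (g - 1) m1 fun v h h' => z v h' h
  set r := Module.finrank O (LinearMap.ker (g - 1)) with hr0
  have d0 : (N.restrict fun v (_ : v ∈ LinearMap.ker (g - 1)) => m0 v) = (q : O) • LinearMap.id :=
    LinearMap.ext fun v => Subtype.ext (nq _ v.2)
  rw [d0, LinearMap.det_smul, LinearMap.det_id, mul_one, ho] at s0
  have gN : g * N = N := by
    have := mul_geom_sum g q
    rw [hg, sub_self, sub_mul, one_mul] at this
    exact sub_eq_zero.1 this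
  have Ng : N * g = N := by
    have := geom_sum_mul g q
    rw [hg, sub_self, mul_sub, mul_one] at this
    exact sub_eq_zero.1 this
  have mg : ∀ v ∈ LinearMap.ker N, g v ∈ LinearMap.ker N := fun v hv => by
    rw [LinearMap.mem_ker, ← Module.End.mul_apply, Ng]
    exact hv
  set g1 := g.restrict mg with hg1
  have pw : ∀ (j : ℕ) (v : LinearMap.ker N), ((g1 ^ j) v).1 = (g ^ j) v.1 := fun j v => by
    rw [hg1, Module.End.pow_restrict j mg]
    rfl
  have gjN : ∀ j : ℕ, g ^ j * N = N := fun j => by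
    induction j with
    | zero => rw [pow_zero, one_mul]
    | succ j ih => rw [pow_succ, mul_assoc, gN, ih]
  have Ngj : ∀ j : ℕ, N * g ^ j = N := fun j => by
    induction j with
    | zero => rw [pow_zero, mul_one]
    | succ j ih => rw [pow_succ, ← mul_assoc, ih, Ng]
  have tr : ∀ j : ℕ, LinearMap.trace O _ (g1 ^ j) = LinearMap.trace O U (g ^ j) - r := fun j => by
    have m : ∀ v, ((q : O) • g ^ j - N) v ∈ LinearMap.ker N := fun v => by
      rw [LinearMap.mem_ker, LinearMap.sub_apply, LinearMap.smul_apply, map_sub, map_smul,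
        ← Module.End.mul_apply, Ngj, nq _ (m0 v), sub_self]
    have e := LinearMap.trace_comp_comm' (LinearMap.ker N).subtype (LinearMap.codRestrict _ _ m)
    have e1 : LinearMap.codRestrict _ _ m ∘ₗ (LinearMap.ker N).subtype = (q : O) • g1 ^ j := by
      ext v
      have : N v.1 = 0 := v.2
      simp [pw, this]
    rw [e1, LinearMap.subtype_comp_codRestrict, map_smul, map_sub, map_smul, hn, smul_eq_mul,
      smul_eq_mul, ← mul_sub] at e
    exact mul_left_cancel₀ q0 e
  have r1 : (Module.finrank O (LinearMap.ker N) : ℤ) = Module.finrank O U - r := by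
    apply Int.cast_injective (α := O)
    have := tr 0
    rw [pow_zero, pow_zero, LinearMap.trace_one, LinearMap.trace_one] at this
    push_cast
    exact this
  change (q : ℤ) * r = _ at hr
  have r2 : (Module.finrank O (LinearMap.ker N) : ℤ) = (q - 1) * (r - c) := by
    rw [r1]
    linarith
  have pos : 0 ≤ (r : ℤ) - c := by
    have : (0 : ℤ) < q - 1 := by omega
    exact nonneg_of_mul_nonneg_right (r2 ▸ Int.natCast_nonneg _) this |> fun h => h
  obtain ⟨n, hn'⟩ := Int.eq_ofNat_of_zero_le pos
  have dt := hb_det (n := n) (by omega : 0 < q) g1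
    (LinearMap.ext fun v => Subtype.ext (by rw [pw, hg]; rfl))
    (fun j x y => by
      rw [tr, ht j x y, ← Int.cast_natCast (R := O) n, ← hn']
      push_cast
      ring)
    (by
      apply Nat.cast_injective (R := ℤ)
      rw [r2, hn']
      push_cast [Nat.cast_sub h1.le]
      rfl)
  have d1 : ((g - 1).restrict fun v (_ : v ∈ LinearMap.ker N) => m1 v) = (-1 : O) • (1 - g1) :=
    LinearMap.ext fun v => Subtype.ext (by simp [hg1])
  rw [d1, LinearMap.det_smul, dt, Ring.ord_mul_of_isUnit_left (isUnit_one.neg.pow _), ho,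
    sup_comm] at s1
  generalize Module.length O (U ⧸ (LinearMap.ker (g - 1) ⊔ LinearMap.ker N)) = G at s0 s1
  change _ = G + ln (zA q g false) (zB q g false) at s0
  change _ = G + ln (zA q g true) (zB q g true) at s1
  generalize ln (zA q g false) (zB q g false) = T0 at s0 ⊢
  generalize ln (zA q g true) (zB q g true) = T1 at s1 ⊢
  rw [← hr0] at s0
  lift G to ℕ using fun e => ENat.natCast_ne_top _ (s0.trans (by rw [e, top_add]))
  lift T0 to ℕ using fun e => ENat.natCast_ne_top _ (s0.trans (by rw [e, add_top]))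
  lift T1 to ℕ using fun e => ENat.natCast_ne_top _ (s1.trans (by rw [e, add_top]))
  refine ⟨T0, T1, rfl, rfl, ?_⟩
  have a0 : a * r = G + T0 := by exact_mod_cast s0
  have a1 : a * n = G + T1 := by exact_mod_cast s1
  zify at a0 a1
  rw [← hn'] at a1
  linarith

end Pool.Agent.Lib.MP_1ae3da_al.CT.R5
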