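import Pool.Agent.Lib.MP_1ae3da_al.Y.HigA
import Pool.Agent.Lib.MP_1ae3da_al.Y.Loc

set_option autoImplicit false
set_option linter.unusedSectionVars false

/-! The central element that acts as a unit on the Tate groups; Higman's criterion. -/

namespace Pool.Agent.Lib.MP_1ae3da_al.CT.R5

open Function

variable {O X : Type} [CommRing O] [IsDomain O] [IsDiscreteValuationRing O] [CharZero O]
  [Group X] [Finite X] {p a : ℕ} {Q : Subgroup X} {d : Nz Q} {g : MonoidAlgebra O (Nz Q)}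

/-- the trace of the idempotent from the powers of `d` to the whole group -/
noncomputable def zh (q : ℕ) (Q : Subgroup X) (d : Nz Q) (g : MonoidAlgebra O (Nz Q))
    (V : Lat O X) : Module.End O V.V :=
  ∑ᶠ y : X ⧸ Subgroup.zpowers (d : X), V.ρ y.out * V.G Q g ^ q * V.ρ y.out⁻¹

theorem zh_apply (q : ℕ) (V : Lat O X) (v : V.V) : zh q Q d g V v =
    ∑ᶠ y : X ⧸ Subgroup.zpowers (d : X), V.ρ y.out ((V.G Q g ^ q) (V.ρ y.out⁻¹ v)) :=
  Cy.ytr_fs _ v

theorem yhig_G {V W : Lat O X} {f : V.V →ₗ[O] W.V} (hf : V.Hom W f) (v : V.V) :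
    f (V.G Q g v) = W.G Q g (f v) :=
  act_hom (ρ := (V.rs Q).ρ) (σ := (W.rs Q).ρ) (fun y => hf (y : X)) g v

theorem zh_nat (q : ℕ) {V W : Lat O X} {f : V.V →ₗ[O] W.V} (hf : V.Hom W f) (v : V.V) :
    f (zh q Q d g V v) = zh q Q d g W (f v) := by
  have := Fintype.ofFinite (X ⧸ Subgroup.zpowers (d : X))
  rw [zh_apply, zh_apply, finsum_eq_sum_of_fintype, finsum_eq_sum_of_fintype, map_sum]
  exact Finset.sum_congr rfl fun y _ => by rw [hf, twt_pow (yhig_G hf), hf]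

theorem yhig_zp {x : X} (hx : x ∈ Subgroup.zpowers (d : X)) : ∃ j : ℕ, x = (d : X) ^ j := by
  obtain ⟨j, e⟩ := (Submonoid.mem_powers_iff _ _).1 (mem_powers_iff_mem_zpowers.2 hx)
  exact ⟨j, e.symm⟩

theorem Gl.zh (h : Gl p a Q d g) (hW : Wt p O) (V : Lat O X) :
    V.Hom V (zh (p ^ a) Q d g V) ∧ ∃ u : O, IsUnit u ∧ ∀ i, ∀ v ∈ yA (p ^ a) (V.G Q g) i,
      zh (p ^ a) Q d g V v - u • v ∈ yB (p ^ a) (V.G Q g) i := by
  have zc := h.lo.zact hW.prime (V.rs Q).ρ
  obtain ⟨w, rfl, t⟩ := h.twx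
  have q0 : 0 < p ^ a := Nat.pos_of_ne_zero (pow_ne_zero a hW.prime.ne_zero)
  have uK : IsUnit (Nat.card ((KN p Q).map (Nz Q).subtype) : O) := by
    rw [Subgroup.card_map_of_injective (Nz Q).subtype_injective]
    exact hW.unit t.uK
  have nj : ∀ (j : ℕ), ∀ k ∈ KN p Q, d ^ j * k * (d ^ j)⁻¹ ∈ KN p Q := fun j k hk =>
    h.lo.nor.conj_mem k hk _
  have DN : Subgroup.zpowers (d : X) ≤ Nz Q := Subgroup.zpowers_le_of_mem d.2
  obtain ⟨f, k, f1, k1, f2, f3⟩ := Cy.ytr_formula V.ρ V.ρ (K := (KN p Q).map (Nz Q).subtype)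
    (D := Subgroup.zpowers (d : X)) (C := Subgroup.zpowers (d : X)) (N := Nz Q)
    ((Nz Q).map_subtype_le _) DN DN
    (by
      rintro x hx _ ⟨k, hk, rfl⟩
      obtain ⟨j, rfl⟩ := yhig_zp hx
      exact ⟨_, nj j k hk, by simp⟩) uK
    (fun x hx y hy e => by
      obtain ⟨j, rfl⟩ := yhig_zp hy
      rw [← orderOf_dvd_iff_pow_eq_one, h.cy.ord]
      exact h.cy.dfree hx (DN e))
    (V.G Q (w * MonoidAlgebra.of O (Nz Q) d) ^ p ^ a) fun c hc v => zc ⟨c, DN hc⟩ v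
  have ef : ∀ v, R5.zh (p ^ a) Q d (w * MonoidAlgebra.of O (Nz Q) d) V v = f v := fun v =>
    (zh_apply _ V v).trans (f2 v).symm
  refine ⟨fun x v => by rw [ef, ef, f1], ((Subgroup.zpowers (d : X)).relIndex (Nz Q) : ℕ),
    hW.unit fun e => h.cy.ind (e.trans ⟨_, (Subgroup.relIndex_mul_index DN).symm⟩), fun i v hv => ?_⟩
  set G := V.G Q (w * MonoidAlgebra.of O (Nz Q) d) with hG
  have kK : ∀ y ∈ KN p Q, ∀ v, k ((V.rs Q).ρ y v) = (V.rs Q).ρ y (k v) :=
    fun y hy => k1 y ⟨y, hy, rfl⟩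
  have kz : ∀ v, k ((G ^ p ^ a) v) = (G ^ p ^ a) (k v) := fun v => by
    rw [hG, Lat.G, Lat.act, t.gq, twt_pow (act_spn kK t.sup)]
  have id : ∀ v, (G ^ p ^ a) ((G ^ p ^ a) v) = (G ^ p ^ a) v :=
    LinearMap.congr_fun (ytwg_idem q0 (t.gq1 _))
  have key : ∀ v ∈ yA (p ^ a) G i, (G ^ p ^ a) v = v →
      f v - (((Subgroup.zpowers (d : X)).relIndex (Nz Q) : ℕ) : O) • v ∈ yB (p ^ a) G i :=
    fun v hv hz => by
      have := Fintype.ofFinite (Nz Q ⧸ (Subgroup.zpowers (d : X)).subgroupOf (Nz Q))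
      have e1 : ∀ n : Nz Q, V.ρ n ((G ^ p ^ a) (V.ρ (n : X)⁻¹ v)) = v := fun n => by
        rw [show (G ^ p ^ a) (V.ρ (n : X)⁻¹ v) = _ from zc n⁻¹ v, hz]
        exact secb_inv V.ρ n v
      rw [f3, finsum_eq_sum_of_fintype, Finset.sum_congr rfl fun n _ => e1 n.out, Finset.sum_const,
        Finset.card_univ, ← Nat.card_eq_fintype_card, ← Nat.cast_smul_eq_nsmul O,
        twt_sum (d : X) fun y => V.ρ y (k (V.ρ y⁻¹ v)), h.cy.ord]
      change _ + _ - ((Nat.card _ : ℕ) : O) • v ∈ _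
      rw [add_sub_cancel_left]
      convert ytwg_tr q0 kz i hv using 1
      exact Finset.sum_congr rfl fun j hj =>
        (t.trace kK hz (Finset.mem_range.1 hj).le).symm
  have fG : ∀ v, f (G v) = G (f v) := yhig_G f1
  have b := yPr_sub i hv
  have g1 : G ^ (p ^ a + 1) = G := t.gq1 _
  have k2 := key _ (by simpa using Submodule.add_mem _ (yhiga_le g1 i b) hv) (id v)
  obtain ⟨u, hu⟩ := _root_.id b
  have b2 : f ((G ^ p ^ a) v - v) ∈ yB (p ^ a) G i := ⟨f u, by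
    rw [← hu]
    cases i
    · simp only [yOp, Bool.not_false, LinearMap.sum_apply, map_sum, twt_pow fG]
    · simp [yOp, fG]⟩
  rw [ef]
  convert Submodule.add_mem _ (Submodule.sub_mem _ k2 b2) (Submodule.smul_mem _
    (((Subgroup.zpowers (d : X)).relIndex (Nz Q) : ℕ) : O) b) using 1
  rw [map_sub, smul_sub]
  abel

/-- the idempotent is a trace from the trivial group when the Tate groups vanish -/
theorem Gl.z_tr (h : Gl p a Q d g) (hW : Wt p O) {V : Lat O X}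
    (hz : ∀ i, yZ (p ^ a) (V.G Q g) i) : ∃ k : Module.End O V.V,
      ∑ᶠ y : Subgroup.zpowers (d : X), V.ρ y * k * V.ρ (y : X)⁻¹ = V.G Q g ^ p ^ a := by
  have zc := h.lo.zact hW.prime (V.rs Q).ρ
  have q0 : 0 < p ^ a := Nat.pos_of_ne_zero (pow_ne_zero a hW.prime.ne_zero)
  have hG : V.G Q g ^ (p ^ a + 1) = V.G Q g := by rw [← map_pow, h.lo.pow]
  have cK : ∀ k ∈ KN p Q, Commute (V.G Q g) ((V.rs Q).ρ k) := fun k hk => by
    have := congrArg (act (V.rs Q).ρ) (h.lo.cK hk)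
    rw [map_mul, map_mul, act_of] at this
    exact this.symm
  obtain ⟨w, rfl, t⟩ := h.lo.tw
  set G := V.G Q (w * MonoidAlgebra.of O (Nz Q) d) with hG'
  obtain ⟨h', hh⟩ := free_hig hW (yGs_pow q0 hG)
    (loc_H0 hW (yGs_pow q0 hG) fun i => yGs_Z q0 hG (hz i))
  let h1 : Module.End O V.V := Submodule.subtype _ ∘ₗ h' ∘ₗ yPr (p ^ a) G
  have e1 : ∑ j ∈ Finset.range (p ^ a), G ^ j * h1 * G ^ (p ^ a - j) = G ^ p ^ a :=
    LinearMap.ext fun v => by
      have := congrArg Subtype.val (LinearMap.congr_fun hh (yPr (p ^ a) G v))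
      rw [LinearMap.sum_apply, Submodule.coe_sum, Module.End.one_apply, yPr_coe] at this
      rw [← this, LinearMap.sum_apply]
      refine Finset.sum_congr rfl fun j _ => ?_
      rw [Module.End.mul_apply, Module.End.mul_apply, Module.End.mul_apply, Module.End.mul_apply,
        yGs_pow_coe, ← twt_pow (f := yPr (p ^ a) G) yPr_g]
      rfl
  have z1 : h1 * G ^ p ^ a = h1 := LinearMap.ext fun v => by
    change (h' (yPr (p ^ a) G ((G ^ p ^ a) v))).1 = (h' (yPr (p ^ a) G v)).1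
    rw [show yPr (p ^ a) G ((G ^ p ^ a) v) = yPr (p ^ a) G v from
      Subtype.ext (LinearMap.congr_fun (ytwg_idem q0 hG) v)]
  have := Fintype.ofFinite (KN p Q)
  obtain ⟨c, hc⟩ := (hW.unit t.uK).exists_left_inv
  set σ := (V.rs Q).ρ with hσ
  set f : Module.End O V.V := c • ∑ k : KN p Q, σ k * h1 * σ (k : Nz Q)⁻¹ with hf
  have fK : ∀ k ∈ KN p Q, ∀ v, f (σ k v) = σ k (f v) := fun k hk => LinearMap.congr_fun (by
    change f * σ k = σ k * f
    rw [hf, smul_mul_assoc, mul_smul_comm, Finset.sum_mul, Finset.mul_sum,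
      ← Equiv.sum_comp (Equiv.mulLeft (⟨k, hk⟩ : KN p Q))]
    congr 1
    refine Finset.sum_congr rfl fun x _ => ?_
    change σ (k * x) * h1 * σ (k * x)⁻¹ * σ k = _
    rw [mul_assoc _ _ (σ k), ← map_mul, mul_inv_rev, inv_mul_cancel_right, map_mul]
    simp only [mul_assoc])
  have zf : f * G ^ p ^ a = f := by
    rw [hf, smul_mul_assoc, Finset.sum_mul]
    congr 1
    refine Finset.sum_congr rfl fun k _ => ?_
    rw [mul_assoc, ← ((cK _ ((KN p Q).inv_mem k.2)).pow_left _).eq, ← mul_assoc, mul_assoc _ h1, z1]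
  have e2 : ∑ j ∈ Finset.range (p ^ a), G ^ j * f * G ^ (p ^ a - j) = G ^ p ^ a := by
    have : ∀ j ∈ Finset.range (p ^ a), G ^ j * f * G ^ (p ^ a - j) =
        c • ∑ k : KN p Q, σ k * (G ^ j * h1 * G ^ (p ^ a - j)) * σ (k : Nz Q)⁻¹ := fun j _ => by
      rw [hf, mul_smul_comm, smul_mul_assoc, Finset.mul_sum, Finset.sum_mul]
      congr 1
      refine Finset.sum_congr rfl fun k _ => ?_
      rw [← mul_assoc, ← mul_assoc, ((cK _ k.2).pow_left j).eq, mul_assoc _ (σ _⁻¹),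
        ← ((cK _ ((KN p Q).inv_mem k.2)).pow_left _).eq]
      simp only [mul_assoc]
    rw [Finset.sum_congr rfl this, ← Finset.smul_sum, Finset.sum_comm]
    simp only [← Finset.sum_mul, ← Finset.mul_sum, e1]
    rw [Finset.sum_congr rfl (g := fun _ => G ^ p ^ a) fun k _ => by
      rw [← ((cK _ k.2).pow_left _).eq, mul_assoc, ← map_mul, mul_inv_cancel, map_one, mul_one],
      Finset.sum_const, Finset.card_univ, ← Nat.card_eq_fintype_card,
      ← Nat.cast_smul_eq_nsmul O, smul_smul, hc, one_smul]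
  refine ⟨f, ?_⟩
  rw [twt_sum (d : X) fun y => V.ρ y * f * V.ρ y⁻¹, h.cy.ord, ← ytwg_idem q0 hG]
  nth_rewrite 1 [← e2]
  rw [Finset.sum_mul]
  refine Finset.sum_congr rfl fun j hj => LinearMap.ext fun v => ?_
  have := t.trace fK (LinearMap.congr_fun (ytwg_idem q0 hG) v) (Finset.mem_range.1 hj).le
  refine Eq.trans ?_ this.symm
  change _ = σ (d ^ j) (f (σ (d ^ j)⁻¹ ((G ^ p ^ a) v)))
  rw [← zc, ← Module.End.mul_apply f, zf]
  rfl

/-- Higman's criterion -/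
theorem Gl.zh_hig (h : Gl p a Q d g) (hW : Wt p O) {V : Lat O X}
    (hz : ∀ i, yZ (p ^ a) (V.G Q g) i) (hb : Bijective (R5.zh (p ^ a) Q d g V)) : V.Hig := by
  classical
  obtain ⟨k, hk⟩ := h.z_tr hW hz
  obtain ⟨u, hu, -, e⟩ := (h.zh hW V).1.inv hb
  have := Fintype.ofFinite X
  have := Fintype.ofFinite (X ⧸ Subgroup.zpowers (d : X))
  have bij : Bijective fun x : (X ⧸ Subgroup.zpowers (d : X)) × Subgroup.zpowers (d : X) =>
      x.1.out * (x.2 : X) := by
    refine ⟨fun x y e => ?_, fun x => ?_⟩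
    · have e1 : x.1 = y.1 := by
        have := congrArg (QuotientGroup.mk (s := Subgroup.zpowers (d : X))) e
        simpa [QuotientGroup.mk_mul_of_mem _ x.2.2, QuotientGroup.mk_mul_of_mem _ y.2.2] using this
      refine Prod.ext e1 (Subtype.ext ?_)
      simp only [e1] at e
      exact mul_left_cancel e
    · obtain ⟨c, hc⟩ := QuotientGroup.mk_out_eq_mul (Subgroup.zpowers (d : X)) x
      exact ⟨(x, c⁻¹), by simp [hc]⟩
  refine rlproj_hig.2 ⟨k ∘ₗ u, fun v => ?_⟩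
  conv_rhs => rw [← e v, zh_apply, finsum_eq_sum_of_fintype, ← hk, finsum_eq_sum_of_fintype]
  rw [← Equiv.sum_comp (Equiv.ofBijective _ bij), Fintype.sum_prod_type]
  refine Finset.sum_congr rfl fun y _ => ?_
  rw [LinearMap.sum_apply, map_sum]
  refine Finset.sum_congr rfl fun x _ => ?_
  change V.ρ (y.out * x) (k (u (V.ρ (y.out * x)⁻¹ v))) = _
  rw [hu, mul_inv_rev, map_mul, map_mul]
  rfl

/-- the central element is a unit on a local lattice with a quotient that is not acyclic -/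
theorem Gl.zh_unit (h : Gl p a Q d g) (hW : Wt p O) {P V : Lat O X} (hL : Lcl p P)
    {π : P.V →ₗ[O] V.V} (hπ : P.Hom V π) (hs : Surjective π) {i : Bool}
    (hi : ¬ yZ (p ^ a) (V.G Q g) i) : Bijective (R5.zh (p ^ a) Q d g P) := by
  refine (hL.loc _ (h.zh hW P).1).resolve_right fun ⟨n, k, e⟩ => hi (yhiga_nak hW fun v hv => ?_)
  obtain ⟨hom, u, hu, b⟩ := h.zh hW V
  have hG : V.G Q g ^ (p ^ a + 1) = V.G Q g := by rw [← map_pow, h.lo.pow]
  have it : ∀ j : ℕ, (R5.zh (p ^ a) Q d g V ^ j) v ∈ yA (p ^ a) (V.G Q g) i ∧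
      (R5.zh (p ^ a) Q d g V ^ j) v - u ^ j • v ∈ yB (p ^ a) (V.G Q g) i := fun j => by
    induction j with
    | zero => exact ⟨hv, by simp⟩
    | succ j ih =>
      have b1 := b i _ ih.1
      rw [pow_succ', Module.End.mul_apply]
      refine ⟨by simpa using Submodule.add_mem _ (yhiga_le hG i b1) (Submodule.smul_mem _ u ih.1), ?_⟩
      convert Submodule.add_mem _ b1 (Submodule.smul_mem _ u ih.2) using 1
      rw [smul_sub, smul_smul, ← pow_succ']
      abel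
  obtain ⟨x, rfl⟩ := hs v
  obtain ⟨i1, i2⟩ := it n
  rw [← twt_pow (zh_nat (p ^ a) hπ), e, LinearMap.smul_apply, map_smul] at i1 i2
  rw [← (Submodule.smul_mem_iff_of_isUnit _ (hu.pow n))]
  refine mem_zP.2 ⟨_, Submodule.neg_mem _ i2, π (k x),
    rlbas_ker _ _ _ hW.irr.ne_zero i1, by abel⟩

/-- an acyclic quotient of a local projective lattice is everything, if some quotient is not
acyclic -/
theorem Gl.acyc (h : Gl p a Q d g) (hW : Wt p O) {P V U : Lat O X} (hL : Lcl p P)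
    {π : P.V →ₗ[O] V.V} (hπ : P.Hom V π) (hs : Surjective π) {i : Bool}
    (hi : ¬ yZ (p ^ a) (V.G Q g) i) {π' : P.V →ₗ[O] U.V} (hπ' : P.Hom U π') (hs' : Surjective π')
    (hU : Nontrivial U.V) (hz : ∀ i, yZ (p ^ a) (U.G Q g) i) : Bijective π' := by
  have b := h.zh_unit hW hL hπ hs hi
  have s : Surjective (R5.zh (p ^ a) Q d g U) := fun u => by
    obtain ⟨x, rfl⟩ := hs' u
    obtain ⟨y, rfl⟩ := b.2 x
    exact ⟨π' y, (zh_nat _ hπ' y).symm⟩
  obtain ⟨t, ht, e⟩ := (h.zh_hig hW hz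
    ⟨OrzechProperty.injective_of_surjective_endomorphism _ s, s⟩).lift π' hπ' hs' LinearMap.id
    fun _ _ => rfl
  rcases hL.loc (t ∘ₗ π') (fun x v => by
    rw [LinearMap.comp_apply, hπ', ht]; rfl) with k | ⟨n, k, e2⟩
  · exact ⟨Injective.of_comp (f := t) k.1, hs'⟩
  · obtain ⟨m, hm⟩ := hW.loc_ne hU
    refine absurd ⟨π' (k (t m)), ?_⟩ hm
    have it : ∀ j : ℕ, π' (((t ∘ₗ π' : Module.End O P.V) ^ j) (t m)) = m := fun j => by
      induction j with
      | zero => exact e m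
      | succ j ih => rw [pow_succ', Module.End.mul_apply, LinearMap.comp_apply, e, ih]; rfl
    rw [← map_smul, ← LinearMap.smul_apply, ← e2, it]

end Pool.Agent.Lib.MP_1ae3da_al.CT.R5
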