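import Pool.Agent.Lib.MP_1ae3da_al.Y.L1c

set_option autoImplicit false
set_option linter.unusedSectionVars false

/-! The Herbrand count for an endomorphism with `G ^ (q + 1) = G`. -/

namespace Pool.Agent.Lib.MP_1ae3da_al.CT.R5

open Function

variable {O : Type} [CommRing O] [IsDomain O] [IsDiscreteValuationRing O] [CharZero O] {p a : ℕ}
  {U M : Type} [AddCommGroup U] [Module O U] [AddCommGroup M] [Module O M]

variable {G : Module.End O U}

section
variable [Module.Free O U] [Module.Finite O U]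

/-- the Herbrand count in the uncut form -/
theorem yherb (hW : Wt p O) [Module.Free O M] [Module.Finite O M] (ha : 0 < a)
    (hG : G ^ (p ^ a + 1) = G) {c : ℤ}
    (ht : ∀ i, 0 < i → i < p ^ a → LinearMap.trace O U (G ^ i) = (c : O)) (i : Bool)
    (hz : yZ (p ^ a) G (!i)) {Φ : Submodule O (U × M)}
    (k : Gr p (yA (p ^ a) G i) (yP p (p ^ a) G i) Φ) :
    0 ≤ sg ℤ i * c ∧ sg ℤ i * c ≤ Module.finrank O M ∧ (c = 0 ↔ Module.finrank O M = 0) ∧
      (c = 0 ↔ yZ (p ^ a) G i) ∧ (sg ℤ i * c = Module.finrank O M → yFull p a G i) := by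
  have q0 := Nat.pos_of_ne_zero (pow_ne_zero a hW.prime.ne_zero)
  obtain ⟨h1, h2, h3, h4, h5⟩ := herb_one hW ha _ (yGs_pow q0 hG)
    (fun n x y => (yGs_trace hG x).trans (ht n x y)) i (yGs_Z q0 hG hz) (yRes_gr q0 hG k)
  refine ⟨h1, h2, h3, h4.trans ⟨yZ_of q0 hG, yGs_Z q0 hG⟩, fun e v hv hb => ?_⟩
  have := sub_mem ((yGs_P q0 hG p i _).1 (h5 e _ (yPr_A q0 hG i hv)
    (map_smul (yPr (p ^ a) G) _ v ▸ yPr_B q0 hG i hb))) (le_zP (yPr_sub i hv))
  rwa [yPr_coe, sub_sub_cancel] at this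

theorem yherb_zero (hW : Wt p O) (ha : 0 < a) (hG : G ^ (p ^ a + 1) = G) {c : ℤ}
    (ht : ∀ i, 0 < i → i < p ^ a → LinearMap.trace O U (G ^ i) = (c : O))
    (hz : ∀ i, yZ (p ^ a) G i) : c = 0 := by
  have q0 := Nat.pos_of_ne_zero (pow_ne_zero a hW.prime.ne_zero)
  exact herb_zero hW ha _ (yGs_pow q0 hG) (fun n x y => (yGs_trace hG x).trans (ht n x y))
    fun i => yGs_Z q0 hG (hz i)

end

end Pool.Agent.Lib.MP_1ae3da_al.CT.R5
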