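import Pool.Agent.Lib.MP_1ae3da_al.Y.TwG
import Pool.Agent.Lib.MP_1ae3da_al.Y.YH
import Pool.Agent.Lib.MP_1ae3da_al.Y.Free

set_option autoImplicit false
set_option linter.unusedSectionVars false

/-! Stability of cycles and boundaries, simple tops, projective lattices. -/

namespace Pool.Agent.Lib.MP_1ae3da_al.CT.R5

open Function

variable {O X Y : Type} [CommRing O] [IsDomain O] [IsDiscreteValuationRing O] [CharZero O]
  [Group X] [Finite X] [Group Y] [Finite Y] {p a : ℕ} {U W : Type} [AddCommGroup U] [Module O U]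
  [AddCommGroup W] [Module O W]

theorem yhiga_sum {E : Type} [Ring E] {q : ℕ} {g : E} (hg : g ^ (q + 1) = g) :
    g * ∑ j ∈ Finset.range q, g ^ (j + 1) = ∑ j ∈ Finset.range q, g ^ (j + 1) := by
  have : (g - 1) * ∑ j ∈ Finset.range q, g ^ (j + 1) = 0 := by
    simp only [pow_succ]
    rw [← Finset.sum_mul, ← mul_assoc, mul_geom_sum, sub_mul, ← pow_succ, hg, one_mul, sub_self]
  rwa [sub_mul, one_mul, sub_eq_zero] at this

theorem yhiga_fix {E : Type} [Ring E] {g s : E} (h : g * s = s) (j : ℕ) : g ^ j * s = s := by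
  induction j with
  | zero => simp
  | succ j ih => rw [pow_succ, mul_assoc, h, ih]

theorem yhiga_mod {E : Type} [Monoid E] {q : ℕ} {g : E} (hg : g ^ (q + 1) = g) (t : ℕ) :
    g ^ (q * t + 1) = g := by
  induction t with
  | zero => simp
  | succ t ih => rw [mul_add, mul_one, add_right_comm, pow_add, ih, ← pow_succ', hg]

theorem yhiga_nm {q i : ℕ} (h1 : 1 < q) (hi : i.Coprime q) {g : MonoidAlgebra O Y}
    (hg : g ^ (q + 1) = g) :
    ∑ j ∈ Finset.range q, (g ^ i) ^ (j + 1) = ∑ j ∈ Finset.range q, g ^ (j + 1) := by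
  obtain ⟨m, -, hm⟩ := Nat.exists_mul_mod_eq_one_of_coprime hi h1
  have i0 : i ≠ 0 := by
    rintro rfl
    simp at hm
  have e : (g ^ i) ^ m = g := by
    rw [← pow_mul, ← Nat.div_add_mod (i * m) q, hm, yhiga_mod hg]
  have gi : (g ^ i) ^ (q + 1) = g ^ i := by rw [← pow_mul, mul_comm, pow_mul, hg]
  have a1 := yhiga_fix (yhiga_sum gi) m
  rw [e] at a1
  have a2 := yhiga_fix (yhiga_sum hg) i
  have c : Commute (∑ j ∈ Finset.range q, (g ^ i) ^ (j + 1)) (∑ j ∈ Finset.range q, g ^ (j + 1)) :=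
    Commute.sum_left _ _ _ fun _ _ => Commute.sum_right _ _ _ fun _ _ =>
      ((Commute.refl g).pow_left _).pow_pow _ _
  have b1 : (∑ j ∈ Finset.range q, g ^ (j + 1)) * ∑ j ∈ Finset.range q, (g ^ i) ^ (j + 1) =
      (q : O) • ∑ j ∈ Finset.range q, (g ^ i) ^ (j + 1) := by
    rw [Finset.sum_mul, Finset.sum_congr rfl fun j _ => yhiga_fix a1 (j + 1), Finset.sum_const,
      Finset.card_range, Nat.cast_smul_eq_nsmul]
  have b2 : (∑ j ∈ Finset.range q, (g ^ i) ^ (j + 1)) * ∑ j ∈ Finset.range q, g ^ (j + 1) =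
      (q : O) • ∑ j ∈ Finset.range q, g ^ (j + 1) := by
    rw [Finset.sum_mul, Finset.sum_congr rfl fun j _ => yhiga_fix a2 (j + 1), Finset.sum_const,
      Finset.card_range, Nat.cast_smul_eq_nsmul]
  exact smul_right_injective _ (Nat.cast_ne_zero.2 (by omega) : (q : O) ≠ 0)
    (b1.symm.trans (c.eq.symm.trans b2))

section
variable {K : Subgroup Y} {d : Y} {g : MonoidAlgebra O Y}

/-- the norm is central -/
theorem Lo.nm (h : Lo p a K d g) (hp : p.Prime) (σ : Y →* Module.End O U) (y : Y) (v : U) :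
    yOp (p ^ a) (act σ g) true (σ y v) = σ y (yOp (p ^ a) (act σ g) true v) := by
  obtain ⟨j, hj, e⟩ := h.cj y
  have e1 := h.conj y j (Nat.pos_of_ne_zero fun z => hj (z ▸ dvd_zero p)) e
  have e2 : MonoidAlgebra.of O Y y * ∑ i ∈ Finset.range (p ^ a), g ^ (i + 1) =
      (∑ i ∈ Finset.range (p ^ a), g ^ (i + 1)) * MonoidAlgebra.of O Y y := by
    conv_rhs => rw [← yhiga_nm (Nat.one_lt_pow h.pos.ne' hp.one_lt)
      (Nat.Coprime.pow_right a ((hp.coprime_iff_not_dvd).2 hj).symm) h.pow]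
    rw [Finset.mul_sum, Finset.sum_mul]
    exact Finset.sum_congr rfl fun i _ => (SemiconjBy.pow_right e1 (i + 1)).eq
  have := LinearMap.congr_fun (congrArg (act σ) e2) v
  simp only [map_mul, act_of, map_sum, map_pow] at this
  exact this.symm

theorem Lo.stB (h : Lo p a K d g) (hp : p.Prime) (σ : Y →* Module.End O U) (i : Bool) (y : Y)
    {v : U} (hv : v ∈ yB (p ^ a) (act σ g) i) : σ y v ∈ yB (p ^ a) (act σ g) i := by
  cases i
  · obtain ⟨u, rfl⟩ := hv
    exact ⟨σ y u, h.nm hp σ y u⟩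
  · obtain ⟨w, rfl, t⟩ := h.tw
    exact t.st σ y v hv

theorem Lo.stA (h : Lo p a K d g) (hp : p.Prime) (σ : Y →* Module.End O U) (i : Bool) (y : Y)
    {v : U} (hv : v ∈ yA (p ^ a) (act σ g) i) : σ y v ∈ yA (p ^ a) (act σ g) i := by
  cases i
  · obtain ⟨j, hj, e⟩ := h.cj y⁻¹
    have e1 := congrArg (act σ) (h.conj _ j (Nat.pos_of_ne_zero fun z => hj (z ▸ dvd_zero p)) e)
    rw [map_mul, map_mul, act_of, map_pow] at e1
    have e' := congrArg (σ y) (LinearMap.congr_fun e1 (σ y v))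
    rw [Module.End.mul_apply, Module.End.mul_apply, secb_inv, secb_inv',
      rlbas_fix (sub_eq_zero.1 hv)] at e'
    exact sub_eq_zero.2 e'
  · change yOp (p ^ a) (act σ g) true (σ y v) = 0
    rw [h.nm hp, (hv : yOp (p ^ a) (act σ g) true v = 0), map_zero]

theorem Lo.stP (h : Lo p a K d g) (hp : p.Prime) (σ : Y →* Module.End O U) (i : Bool) (y : Y)
    {v : U} (hv : v ∈ yP p (p ^ a) (act σ g) i) : σ y v ∈ yP p (p ^ a) (act σ g) i := by
  obtain ⟨b, hb, w, hw, rfl⟩ := mem_zP.1 hv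
  exact mem_zP.2 ⟨_, h.stB hp σ i y hb, _, h.stA hp σ i y hw, by rw [map_add, map_smul]⟩

theorem yhiga_le {q : ℕ} {G : Module.End O U} (hG : G ^ (q + 1) = G) (i : Bool) :
    yB q G i ≤ yA q G i := by
  have e := yhiga_sum hG
  cases i
  · rintro _ ⟨u, rfl⟩
    exact sub_eq_zero.2 (LinearMap.congr_fun e u)
  · rintro _ ⟨u, rfl⟩
    have c : Commute G (∑ j ∈ Finset.range q, G ^ (j + 1)) :=
      Commute.sum_right _ _ _ fun _ _ => (Commute.refl G).pow_right _
    change (∑ j ∈ Finset.range q, G ^ (j + 1)) (G u - u) = 0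
    rw [map_sub, ← Module.End.mul_apply, ← c.eq, e, sub_self]

theorem yhiga_sub {q : ℕ} {G : Module.End O U} (i : Bool) {v : U} (hv : v ∈ yA q G i) :
    G v - v ∈ yB q G i := by
  cases i
  · have e : G v - v = 0 := hv
    rw [e]
    exact Submodule.zero_mem _
  · exact ⟨v, rfl⟩

theorem yhiga_nak (hW : Wt p O) [Module.Finite O U] {q : ℕ} {G : Module.End O U} {i : Bool}
    (h : yA q G i ≤ yP p q G i) : yZ q G i :=
  hW.nak _ _ fun _ hv => mem_zP.1 (h hv)

/-- a simple top is the reduction of a good lattice -/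
theorem Lo.sec (h : Lo p a K d g) (hW : Wt p O) {V : Lat O Y} {i : Bool}
    (hs : Smp V (yA (p ^ a) (V.act g) i) (yP p (p ^ a) (V.act g) i))
    (hz : ¬ yZ (p ^ a) (V.act g) i) :
    ∃ (M : Lat O Y) (Φ : Submodule O (V.V × M.V)), Good g M ∧ TieC p a g V M i Φ := by
  have hG : V.act g ^ (p ^ a + 1) = V.act g := by rw [← map_pow, h.pow]
  have s : Sim p V.ρ (yA (p ^ a) (V.act g) i) (yP p (p ^ a) (V.act g) i) :=
    ⟨zP_le (yhiga_le hG i), fun k => hz (yhiga_nak hW k), fun y _ => h.stA hW.prime V.ρ i y,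
      fun y _ => h.stP hW.prime V.ρ i y,
      fun v hv => mem_zP.2 ⟨0, Submodule.zero_mem _, v, hv, (zero_add _).symm⟩, hs⟩
  obtain ⟨w, rfl, t⟩ := h.tw
  obtain ⟨M, Φ, h1, h2, -, -, h3, h4⟩ := t.sec hW s fun v hv => le_zP (yhiga_sub i hv)
  exact ⟨M, Φ, ⟨h2, h1⟩, h3, h4⟩

end

variable {Q : Subgroup X} {d : Nz Q} {g : MonoidAlgebra O (Nz Q)}

theorem Gl.hig (h : Gl p a Q d g) (hW : Wt p O) {P : Lat O X} (hP : P.Hig) :
    ∃ f : Module.End O P.V, (∀ v, f (((P.G Q g) ^ p ^ a) v) = ((P.G Q g) ^ p ^ a) (f v)) ∧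
      ∑ j ∈ Finset.range (p ^ a), P.G Q g ^ j * f * P.G Q g ^ (p ^ a - j) = P.G Q g ^ p ^ a := by
  obtain ⟨w, rfl, t⟩ := h.lo.tw
  obtain ⟨h0, hh⟩ := hP.cyc h.cy.ord
  obtain ⟨f, fK, e⟩ := t.hig hW (P.rs Q).ρ hh
  refine ⟨f, fun v => ?_, e⟩
  rw [Lat.G, Lat.act, t.gq]
  exact twt_pow (act_spn (fun k hk v => LinearMap.congr_fun (fK k hk) v) t.sup) _ v

/-- the Tate groups of a projective lattice vanish -/
theorem Gl.higZ (h : Gl p a Q d g) (hW : Wt p O) {P : Lat O X} (hP : P.Hig) (i : Bool) :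
    yZ (p ^ a) (P.G Q g) i := fun v hv => by
  obtain ⟨f, c, e⟩ := h.hig hW hP
  have k := ytwg_tr (Nat.pos_of_ne_zero (pow_ne_zero a hW.prime.ne_zero)) c i hv
  have e' := LinearMap.congr_fun e v
  rw [LinearMap.sum_apply] at e'
  have k' : (P.G Q g ^ p ^ a) v ∈ yB (p ^ a) (P.G Q g) i := e' ▸ k
  simpa using Submodule.sub_mem _ k' (yPr_sub i hv)

/-- the traces of the powers of the twist vanish on a projective lattice -/
theorem Gl.higTr (h : Gl p a Q d g) (hW : Wt p O) {P : Lat O X} (hP : P.Hig) (j : ℕ) (h0 : 0 < j)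
    (hj : j < p ^ a) : LinearMap.trace O P.V (P.G Q g ^ j) = 0 := by
  obtain ⟨f, -, e⟩ := h.hig hW hP
  have q0 := Nat.pos_of_ne_zero (pow_ne_zero a hW.prime.ne_zero)
  have hG : P.G Q g ^ (p ^ a + 1) = P.G Q g := by rw [← map_pow, h.lo.pow]
  rw [← yGs_trace hG h0]
  refine free_trace hW (h := yPr _ _ ∘ₗ f ∘ₗ Submodule.subtype _) (yGs_pow q0 hG)
    (LinearMap.ext fun v => Subtype.ext ?_) j h0 hj
  have e' := congrArg (P.G Q g ^ p ^ a) (LinearMap.congr_fun e v.1)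
  rw [yZs_fix q0 hG, yZs_fix q0 hG, LinearMap.sum_apply, map_sum] at e'
  rw [LinearMap.sum_apply, Submodule.coe_sum, Module.End.one_apply, ← e']
  refine Finset.sum_congr rfl fun i _ => ?_
  rw [Module.End.mul_apply, Module.End.mul_apply, yGs_pow_coe, LinearMap.comp_apply, yPr_coe,
    LinearMap.comp_apply, Submodule.subtype_apply, yGs_pow_coe, ← Module.End.mul_apply,
    (Commute.pow_pow_self _ i (p ^ a)).eq]
  rfl

end Pool.Agent.Lib.MP_1ae3da_al.CT.R5
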