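import Pool.Agent.Lib.MP_1ae3da_al.C.RLLift

set_option autoImplicit false
set_option linter.unusedSectionVars false

/-! Lifting graphs between Tate groups of a cyclic group of prime power order. -/

namespace Pool.Agent.Lib.MP_1ae3da_al.CT.R5

open Function

variable {O : Type} [CommRing O] [IsDomain O] [IsDiscreteValuationRing O] [CharZero O] {p a : ℕ}
variable {U W M : Type} [AddCommGroup U] [Module O U] [Module.Free O U] [Module.Finite O U]
  [AddCommGroup W] [Module O W]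
  [AddCommGroup M] [Module O M] [Module.Free O M] [Module.Finite O M]

theorem yl1_tf (hW : Wt p O) (v : U) (h : (p : O) • v = 0) : v = 0 :=
  (smul_eq_zero.1 h).resolve_left hW.irr.ne_zero

theorem yl1_zero (Φ : Submodule O (U × W)) {A B : Submodule O U} {K : Submodule O W}
    (h1 : ∀ v ∈ A, ∃ w ∈ K, (v, w) ∈ Φ) (h2 : ∀ w ∈ K, ((0 : U), (p : O) • w) ∈ Φ)
    (h3 : ∀ v ∈ B, (v, (0 : W)) ∈ Φ) {b u : U} (hb : b ∈ B) (hu : u ∈ A) :
    (b + (p : O) • u, (0 : W)) ∈ Φ := by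
  obtain ⟨w, hw, k⟩ := h1 u hu
  simpa using Φ.add_mem (h3 b hb) (Φ.sub_mem (Φ.smul_mem (p : O) k) (h2 w hw))

/-- the quotient by the kernel of an endomorphism is free -/
theorem yl1_free (hW : Wt p O) (t : Module.End O U) : Module.Free O (U ⧸ LinearMap.ker t) :=
  MP_1ae3da_al.R5.l1_free hW.irr.maximalIdeal_eq fun x e => by
    obtain ⟨v, rfl⟩ := (LinearMap.ker t).mkQ_surjective x
    refine (Submodule.Quotient.mk_eq_zero _).2 (yl1_tf hW (t v) ?_)
    rw [← map_smul]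
    exact (Submodule.Quotient.mk_eq_zero _).1 e

/-- degree 0: the source is full -/
theorem Wt.lift0 (hW : Wt p O) (ha : 0 < a) (g : Module.End O U) (g' : Module.End O W)
    (hg : g ^ p ^ a = 1) (Φ : Submodule O (U × W))
    (hf : ∀ v ∈ zA (p ^ a) g false, (p : O) ^ (a - 1) • v ∈ zB (p ^ a) g false →
      ∃ b ∈ zB (p ^ a) g false, ∃ u ∈ zA (p ^ a) g false, v = b + (p : O) • u)
    (h1 : ∀ v ∈ zA (p ^ a) g false, ∃ w ∈ zA (p ^ a) g' false, (v, w) ∈ Φ)
    (h2 : ∀ w ∈ zA (p ^ a) g' false, ((0 : U), (p : O) • w) ∈ Φ)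
    (h3 : ∀ v ∈ zB (p ^ a) g false, (v, (0 : W)) ∈ Φ) :
    ∃ f : U →ₗ[O] W, (∀ v, f (g v) = g' (f v)) ∧ (∀ v ∈ zA (p ^ a) g false, (v, f v) ∈ Φ) ∧
      ∀ v ∈ zA (p ^ a) g true, f v = 0 := by
  obtain ⟨N, c, -, k⟩ := rllift_rel Φ _ _ h1
  let A1 : Submodule O U := LinearMap.ker (MP_1ae3da_al.R5.Nm (p ^ a) g)
  obtain ⟨b, b1, b2⟩ := MP_1ae3da_al.R5.l1_ext
    (hW.irr.maximalIdeal_eq ▸ IsLocalRing.maximalIdeal.isMaximal O) (zA (p ^ a) g false)
    (A1 ⊔ LinearMap.range ((p : O) • LinearMap.id)) (fun v => Submodule.mem_sup_right ⟨v, rfl⟩) c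
    fun v m => by
      obtain ⟨n, hn, _, ⟨w, rfl⟩, e⟩ := Submodule.mem_sup.1 m
      have e1 : MP_1ae3da_al.R5.Nm (p ^ a) g v.1 = (p : O) • MP_1ae3da_al.R5.Nm (p ^ a) g w := by
        rw [← e, map_add, hn, zero_add, ← map_smul]
        rfl
      have e2 : (p : O) ^ (a - 1) • v.1 = MP_1ae3da_al.R5.Nm (p ^ a) g w := by
        refine sub_eq_zero.1 (yl1_tf hW _ ?_)
        rw [smul_sub, ← e1, MP_1ae3da_al.R5.nm_fix (sub_eq_zero.1 v.2), smul_smul, ← pow_succ',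
          Nat.sub_add_cancel ha, Nat.cast_pow, sub_self]
      obtain ⟨b, hb, u, hu, e3⟩ := hf v.1 v.2 ⟨w, e2.symm⟩
      exact ((k v 0).2 (e3 ▸ yl1_zero Φ h1 h2 h3 hb hu)).symm
  have := yl1_free hW (MP_1ae3da_al.R5.Nm (p ^ a) g)
  obtain ⟨f, e⟩ := Module.projective_lifting_property N.mkQ
    (A1.liftQ b fun v m => b2 v (Submodule.mem_sup_left m)) N.mkQ_surjective
  have f1 : ∀ v ∈ A1, f (A1.mkQ v) = 0 := fun v m => by
    rw [A1.mkQ_apply, (Submodule.Quotient.mk_eq_zero _).2 m, map_zero]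
  refine ⟨Submodule.subtype _ ∘ₗ f ∘ₗ A1.mkQ, fun v => ?_, fun v hv =>
    (k ⟨v, hv⟩ (f (A1.mkQ v))).1
      ((LinearMap.congr_fun e (Submodule.Quotient.mk v)).trans (b1 ⟨v, hv⟩)),
    fun v hv => congrArg Subtype.val (f1 v hv)⟩
  have e' := f1 _ (MP_1ae3da_al.R5.nm_sub hg v)
  rw [map_sub, map_sub, sub_eq_zero] at e'
  change (f (A1.mkQ (g v))).1 = g' (f (A1.mkQ v)).1
  rw [e']
  exact (sub_eq_zero.1 (f (A1.mkQ v)).2).symm

theorem yl1_last {E : Type} [AddCommGroup E] [Module O E] {n : ℕ} {g : Module.End O E}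
    {w : E} (h : (∑ j ∈ Finset.range (n + 1), g ^ j) w = 0) :
    (g ^ n) w = -∑ j : Fin n, (g ^ (j : ℕ)) w := by
  rw [Finset.sum_range_succ, Finset.sum_range, LinearMap.add_apply, LinearMap.sum_apply] at h
  exact eq_neg_of_add_eq_zero_right h

/-- maps out of a module with a cyclic basis -/
theorem yl1_rl {E ι : Type} [AddCommGroup E] [Module O E] {n : ℕ} (g : Module.End O E)
    (hg : ∑ j ∈ Finset.range (n + 1), g ^ j = 0) (b : Module.Basis (ι × Fin n) O E) (v : ι → E)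
    (hb : ∀ s j, b (s, j) = (g ^ (j : ℕ)) (v s)) (g' : Module.End O W) (w : ι → W)
    (hw : ∀ s, (∑ j ∈ Finset.range (n + 1), g' ^ j) (w s) = 0) :
    ∃ f : E →ₗ[O] W, (∀ s j, f (b (s, j)) = (g' ^ (j : ℕ)) (w s)) ∧ ∀ u, f (g u) = g' (f u) := by
  let f : E →ₗ[O] W := b.constr O fun x => (g' ^ (x.2 : ℕ)) (w x.1)
  have k (s) (j : Fin n) : f ((g ^ (j : ℕ)) (v s)) = (g' ^ (j : ℕ)) (w s) := by
    rw [← hb]; exact b.constr_basis O _ _
  have k' (s) (m : ℕ) (hn : m ≤ n) : f ((g ^ m) (v s)) = (g' ^ m) (w s) := by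
    rcases hn.lt_or_eq with h | rfl
    · exact k s ⟨m, h⟩
    · rw [yl1_last (g := g) (by rw [hg]; rfl), yl1_last (hw s), map_neg, map_sum]
      simp only [k]
  refine ⟨f, fun s j => by rw [hb, k], fun u => LinearMap.congr_fun
    (b.ext (f₁ := f ∘ₗ g) (f₂ := g' ∘ₗ f) fun ⟨s, j⟩ => ?_) u⟩
  have := k' s (j + 1) j.2
  rw [pow_succ', pow_succ', Module.End.mul_apply, Module.End.mul_apply] at this
  rw [LinearMap.comp_apply, LinearMap.comp_apply, hb, this, k]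

theorem yl1_nil {E : Type} [AddCommGroup E] [Module O E] (hp : p.Prime) {g : Module.End O E}
    (e : g ^ p ^ a = 1) (v : E) : ∃ u, ((g - 1) ^ p ^ a) v = (p : O) • u := by
  obtain ⟨r, h⟩ := (Commute.one_right (g - 1)).exists_add_pow_prime_pow_eq hp a
  rw [sub_add_cancel, e, one_pow, add_assoc, add_left_comm, left_eq_add, mul_assoc, mul_assoc,
    add_eq_zero_iff_eq_neg] at h
  exact ⟨-((g - 1) * (1 * r)) v, by
    rw [h, LinearMap.neg_apply, Module.End.mul_apply, Module.End.natCast_apply, smul_neg,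
      Nat.cast_smul_eq_nsmul]⟩

/-- generators modulo `g - 1` and `p` give a spanning family -/
theorem yl1_span (hW : Wt p O) {E ι : Type} [AddCommGroup E] [Module O E] [Module.Finite O E]
    [Fintype ι] {n : ℕ} (hn : p ^ a = n + 1) (h0 : 0 < n) (g : Module.End O E)
    (hg : ∑ j ∈ Finset.range (n + 1), g ^ j = 0) (v : ι → E)
    (hv : ∀ e, ∃ (c : ι → O) (u w : E), e = ∑ s, c s • v s + (g u - u) + (p : O) • w) :
    ⊤ ≤ Submodule.span O (Set.range fun x : ι × Fin n => (g ^ (x.2 : ℕ)) (v x.1)) := by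
  set I := Submodule.span O (Set.range fun x : ι × Fin n => (g ^ (x.2 : ℕ)) (v x.1))
  have m (s) (j : Fin n) : (g ^ (j : ℕ)) (v s) ∈ I := Submodule.subset_span ⟨(s, j), rfl⟩
  have m' (s) (j : ℕ) (hj : j ≤ n) : (g ^ j) (v s) ∈ I := by
    rcases hj.lt_or_eq with h | rfl
    · exact m s ⟨j, h⟩
    · rw [yl1_last (g := g) (by rw [hg]; rfl)]
      exact neg_mem (Submodule.sum_mem _ fun i _ => m s i)
  have st : ∀ x ∈ I, g x ∈ I := fun x hx =>
    (Submodule.span_le (p := I.comap g)).2 (by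
      rintro _ ⟨⟨s, j⟩, rfl⟩
      have := m' s (j + 1) j.2
      rwa [pow_succ', Module.End.mul_apply] at this) hx
  have st' (k : ℕ) : ∀ x ∈ I, ((g - 1) ^ k) x ∈ I := fun x hx => by
    induction k with
    | zero => exact hx
    | succ k ih =>
      rw [pow_succ', Module.End.mul_apply]
      exact sub_mem (st _ ih) ih
  have e1 : g ^ p ^ a = 1 := by rw [hn, ← sub_eq_zero, ← mul_geom_sum, hg, mul_zero]
  have k (l : ℕ) (e : E) : ∃ x ∈ I, ∃ y z, e = x + ((g - 1) ^ l) y + (p : O) • z := by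
    induction l with
    | zero => exact ⟨0, zero_mem _, e, 0, by simp⟩
    | succ l ih =>
      obtain ⟨x, hx, y, z, ih⟩ := ih
      obtain ⟨c, u, w, h⟩ := hv y
      refine ⟨x + ((g - 1) ^ l) (∑ s, c s • v s), add_mem hx (st' l _
        (Submodule.sum_mem _ fun s _ => I.smul_mem _ (m s ⟨0, h0⟩))), u,
        z + ((g - 1) ^ l) w, ?_⟩
      have e2 : ((g - 1) ^ (l + 1)) u = ((g - 1) ^ l) (g u - u) := by
        rw [pow_succ, Module.End.mul_apply]; rfl
      rw [e2, ih, h, map_add, map_add, map_smul, smul_add]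
      abel
  refine hW.nak _ _ fun e _ => ?_
  obtain ⟨x, hx, y, z, h⟩ := k (p ^ a) e
  obtain ⟨u, hu⟩ := yl1_nil hW.prime e1 y
  exact ⟨x, hx, u + z, trivial, by rw [h, hu, smul_add, add_assoc]⟩

/-- degree 1: the Tate group of degree 0 of the source vanishes and the ranks fit -/
theorem Wt.lift1 (hW : Wt p O) (ha : 0 < a) (g : Module.End O U) (g' : Module.End O W)
    (hg : g ^ p ^ a = 1) (Φ : Submodule O (U × W))
    (hz : zA (p ^ a) g false ≤ zB (p ^ a) g false) {m : ℕ} (s : Fin m → U)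
    (hs : ∀ v ∈ zA (p ^ a) g true, ∃ (c : Fin m → O) (u w : U),
      v = ∑ j, c j • s j + (g u - u) + (p : O) • w)
    (hr : Module.finrank O U + m = p ^ a * (Module.finrank O (zA (p ^ a) g false) + m))
    (h1 : ∀ v ∈ zA (p ^ a) g true, ∃ w ∈ zA (p ^ a) g' true, (v, w) ∈ Φ)
    (h2 : ∀ w ∈ zA (p ^ a) g' true, ((0 : U), (p : O) • w) ∈ Φ)
    (h2' : ∀ w ∈ zB (p ^ a) g' true, ((0 : U), w) ∈ Φ)
    (h3 : ∀ v ∈ zB (p ^ a) g true, (v, (0 : W)) ∈ Φ) :
    ∃ f : U →ₗ[O] W, (∀ v, f (g v) = g' (f v)) ∧ (∀ v ∈ zA (p ^ a) g true, (v, f v) ∈ Φ) ∧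
      ∀ v ∈ zA (p ^ a) g false, f v = 0 := by
  obtain ⟨N, c, hN, k⟩ := rllift_rel Φ _ _ h1
  have q2 : 1 < p ^ a := Nat.one_lt_pow ha.ne' hW.prime.one_lt
  obtain ⟨n, hn⟩ : ∃ n, p ^ a = n + 1 := ⟨p ^ a - 1, by omega⟩
  have h0 : 0 < n := by omega
  let A0 : Submodule O U := LinearMap.ker (g - 1)
  let B : Submodule O U := LinearMap.range (g - 1) ⊔ LinearMap.range ((p : O) • LinearMap.id)
  obtain ⟨b, b1, b2⟩ := MP_1ae3da_al.R5.l1_ext
    (hW.irr.maximalIdeal_eq ▸ IsLocalRing.maximalIdeal.isMaximal O) (zA (p ^ a) g true) B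
    (fun v => Submodule.mem_sup_right ⟨v, rfl⟩) c fun v m => by
      obtain ⟨x, hx, _, ⟨w, rfl⟩, e⟩ := Submodule.mem_sup.1 m
      have hw : w ∈ zA (p ^ a) g true := yl1_tf hW _ (by
        have e1 : MP_1ae3da_al.R5.Nm (p ^ a) g (x + (p : O) • w) = 0 := by
          have e0 : x + (p : O) • w = v.1 := e
          rw [e0]; exact v.2
        have e2 : MP_1ae3da_al.R5.Nm (p ^ a) g x = 0 := zB_le hg true hx
        rwa [map_add, e2, zero_add, map_smul] at e1)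
      have e0 : x + (p : O) • w = v.1 := e
      exact ((k v 0).2 (e0 ▸ yl1_zero Φ h1 h2 h3 hx hw)).symm
  have bg (j : ℕ) (u : U) : b ((g ^ j) u) = b u :=
    sub_eq_zero.1 ((map_sub b _ _).symm.trans (b2 _ (Submodule.mem_sup_left (rlz_pow g j u))))
  have b0 : ∀ v ∈ A0, b v = 0 := fun v hv => by
    obtain ⟨u, rfl⟩ := hz hv
    rw [LinearMap.sum_apply, map_sum]
    simp only [bg]
    have pa : (p : O) ^ a = p * p ^ (a - 1) := by rw [← pow_succ', Nat.sub_add_cancel ha]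
    rw [Finset.sum_const, Finset.card_range, ← map_nsmul, ← Nat.cast_smul_eq_nsmul O, Nat.cast_pow,
      pa, mul_smul]
    exact b2 _ (Submodule.mem_sup_right ⟨_, rfl⟩)
  have fr := yl1_free hW (g - 1)
  let G : Module.End O (U ⧸ A0) := A0.mapQ A0 g fun v m =>
    sub_eq_zero.2 (congrArg g (sub_eq_zero.1 m))
  have sG (v) : A0.mkQ (g v) = G (A0.mkQ v) := rfl
  have hG : ∑ j ∈ Finset.range (n + 1), G ^ j = 0 := LinearMap.ext fun x => by
    obtain ⟨v, rfl⟩ := A0.mkQ_surjective x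
    rw [← hn]
    exact (MP_1ae3da_al.R5.nm_semi sG (p ^ a) v).symm.trans
      ((Submodule.Quotient.mk_eq_zero _).2 (zB_le hg false ⟨v, rfl⟩))
  let β := Module.finBasis O (zA (p ^ a) g false)
  choose y hy using fun i => hz (β i).2
  let v : Fin (Module.finrank O (zA (p ^ a) g false)) ⊕ Fin m → U := Sum.elim y s
  have sp := yl1_span hW hn h0 G hG (fun i => A0.mkQ (v i)) fun e => by
    obtain ⟨u, rfl⟩ := A0.mkQ_surjective e
    let z : zA (p ^ a) g false := ⟨_, zB_le hg false ⟨u, rfl⟩⟩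
    have hu : u - ∑ i, β.repr z i • y i ∈ zA (p ^ a) g true := by
      change (∑ j ∈ Finset.range (p ^ a), g ^ j) _ = 0
      rw [map_sub, map_sum, sub_eq_zero]
      simp only [map_smul, hy]
      have := congrArg (zA (p ^ a) g false).subtype (β.sum_repr z)
      rw [map_sum] at this
      simp only [map_smul] at this
      exact this.symm
    obtain ⟨d, x, w, e⟩ := hs _ hu
    refine ⟨Sum.elim (β.repr z) d, A0.mkQ x, A0.mkQ w, ?_⟩
    rw [← sG, Fintype.sum_sum_type]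
    simp only [v, Sum.elim_inl, Sum.elim_inr, ← map_smul, ← map_sum, ← map_sub, ← map_add]
    rw [sub_eq_iff_eq_add.1 e]
    congr 1
    abel
  have rk : Module.finrank O (U ⧸ A0) + Module.finrank O (zA (p ^ a) g false) =
      Module.finrank O U := Submodule.finrank_quotient_add_finrank A0
  let bs := basisOfTopLeSpanOfCardEqFinrank _ sp (by
    rw [Fintype.card_prod, Fintype.card_sum, Fintype.card_fin, Fintype.card_fin, Fintype.card_fin]
    have : Module.finrank O U + m = (n + 1) * (Module.finrank O (zA (p ^ a) g false) + m) :=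
      hn ▸ hr
    nlinarith)
  have hb (i) (j : Fin n) : bs (i, j) = (G ^ (j : ℕ)) (A0.mkQ (v i)) :=
    congrFun (coe_basisOfTopLeSpanOfCardEqFinrank _ sp _) (i, j)
  choose w hw using fun i => N.mkQ_surjective (b (v i))
  obtain ⟨f, f1, f2⟩ := yl1_rl G hG bs _ hb g' (fun i => (w i).1) fun i => hn ▸ (w i).2
  have fK (e) : f e ∈ zA (p ^ a) g' true := by
    refine (MP_1ae3da_al.R5.nm_semi f2 (p ^ a) e).symm.trans ?_
    rw [MP_1ae3da_al.R5.Nm, hn, hG, LinearMap.zero_apply, map_zero]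
  have e : N.mkQ ∘ₗ f.codRestrict _ fK = A0.liftQ b b0 := bs.ext fun ⟨i, j⟩ => by
    have e1 : A0.liftQ b b0 (bs (i, j)) = N.mkQ (w i) := by
      rw [hb, ← rlz_comm sG, hw]
      exact bg j (v i)
    rw [e1]
    refine (Submodule.Quotient.eq N).2 ((hN _).2 (h2' _ ?_))
    change f (bs (i, j)) - (w i).1 ∈ _
    rw [f1]
    exact rlz_pow g' j _
  exact ⟨f ∘ₗ A0.mkQ, fun u => f2 (A0.mkQ u), fun u hu =>
    (k ⟨u, hu⟩ ⟨_, fK (A0.mkQ u)⟩).1 ((LinearMap.congr_fun e (A0.mkQ u)).trans (b1 ⟨u, hu⟩)),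
    fun u hu => by
      rw [LinearMap.comp_apply, A0.mkQ_apply, (Submodule.Quotient.mk_eq_zero A0).2 hu, map_zero]⟩

/-- degree 1, the generators read off a graph onto `M / p M` -/
theorem Wt.lift1' (hW : Wt p O) (ha : 0 < a) (g : Module.End O U) (g' : Module.End O W)
    (hg : g ^ p ^ a = 1) (Φ : Submodule O (U × W))
    (hz : zA (p ^ a) g false ≤ zB (p ^ a) g false) {B : Submodule O U} {Ψ : Submodule O (U × M)}
    (hΨ : Gr p (zA (p ^ a) g true) B Ψ) (hB : ∀ v ∈ B, ∃ u w : U, v = (g u - u) + (p : O) • w)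
    (hr : Module.finrank O U + Module.finrank O M =
      p ^ a * (Module.finrank O (zA (p ^ a) g false) + Module.finrank O M))
    (h1 : ∀ v ∈ zA (p ^ a) g true, ∃ w ∈ zA (p ^ a) g' true, (v, w) ∈ Φ)
    (h2 : ∀ w ∈ zA (p ^ a) g' true, ((0 : U), (p : O) • w) ∈ Φ)
    (h2' : ∀ w ∈ zB (p ^ a) g' true, ((0 : U), w) ∈ Φ)
    (h3 : ∀ v ∈ zB (p ^ a) g true, (v, (0 : W)) ∈ Φ) :
    ∃ f : U →ₗ[O] W, (∀ v, f (g v) = g' (f v)) ∧ (∀ v ∈ zA (p ^ a) g true, (v, f v) ∈ Φ) ∧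
      ∀ v ∈ zA (p ^ a) g false, f v = 0 := by
  let β := Module.finBasis O M
  choose s hs using fun j => hΨ.ran (β j)
  refine hW.lift1 ha g g' hg Φ hz s (fun v hv => ?_) hr h1 h2 h2' h3
  obtain ⟨x, hx⟩ := (hΨ.dom v).1 hv
  have e : (∑ j, β.repr x j • s j, x) ∈ Ψ := by
    have := Ψ.sum_mem (t := Finset.univ) fun j _ => Ψ.smul_mem (β.repr x j) (hs j)
    convert this using 1
    refine Prod.ext ?_ ?_
    · simp [Prod.fst_sum]
    · simp [Prod.snd_sum]
  obtain ⟨u, w, h⟩ := hB _ ((hΨ.kl _).1 (by simpa using Ψ.sub_mem hx e))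
  exact ⟨β.repr x, u, w, by rw [add_assoc, ← h, add_sub_cancel]⟩

end Pool.Agent.Lib.MP_1ae3da_al.CT.R5
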