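import Pool.Agent.Lib.MP_1ae3da_al.Y.L1
import Pool.Agent.Lib.MP_1ae3da_al.Y.HbC

set_option autoImplicit false
set_option linter.unusedSectionVars false

/-! Lifting graphs from a typed source, both degrees at once. -/

namespace Pool.Agent.Lib.MP_1ae3da_al.CT.R5

open Function

variable {O : Type} [CommRing O] [IsDomain O] [IsDiscreteValuationRing O] [CharZero O] {p a : ℕ}
variable {U W M : Type} [AddCommGroup U] [Module O U] [Module.Free O U] [Module.Finite O U]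
  [AddCommGroup W] [Module O W]
  [AddCommGroup M] [Module O M] [Module.Free O M] [Module.Finite O M]

/-- lift of a graph out of a source whose defect `c` equals the rank of `M` up to the sign -/
theorem Wt.lift_typ (hW : Wt p O) (ha : 0 < a) (g : Module.End O U) (g' : Module.End O W)
    (hg : g ^ p ^ a = 1) {c : ℤ}
    (ht : ∀ j, 0 < j → j < p ^ a → LinearMap.trace O U (g ^ j) = (c : O)) (i : Bool)
    (hz : zA (p ^ a) g (!i) ≤ zB (p ^ a) g (!i)) {Ψ : Submodule O (U × M)}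
    (hΨ : Gr p (zA (p ^ a) g i) (zP (p : O) (zA (p ^ a) g i) (zB (p ^ a) g i)) Ψ)
    (hc : sg ℤ i * c = Module.finrank O M) (Φ : Submodule O (U × W))
    (h1 : ∀ v ∈ zA (p ^ a) g i, ∃ w ∈ zA (p ^ a) g' i, (v, w) ∈ Φ)
    (h2 : ∀ w ∈ zP (p : O) (zA (p ^ a) g' i) (zB (p ^ a) g' i), ((0 : U), w) ∈ Φ)
    (h3 : ∀ v ∈ zB (p ^ a) g i, (v, (0 : W)) ∈ Φ) :
    ∃ f : U →ₗ[O] W, (∀ v, f (g v) = g' (f v)) ∧ (∀ v ∈ zA (p ^ a) g i, (v, f v) ∈ Φ) ∧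
      ∀ v ∈ zA (p ^ a) g (!i), f v = 0 := by
  have k2 : ∀ w ∈ zA (p ^ a) g' i, ((0 : U), (p : O) • w) ∈ Φ := fun w hw =>
    h2 _ (mem_zP.2 ⟨0, zero_mem _, w, hw, (zero_add _).symm⟩)
  cases i
  · exact hW.lift0 ha g g' hg Φ
      (fun v hv k => mem_zP.1 ((herb_one hW ha g hg ht false hz hΨ).2.2.2.2 hc v hv k)) h1 k2 h3
  · refine hW.lift1' ha g g' hg Φ hz hΨ (fun v hv => ?_) ?_ h1 k2 (fun w hw => h2 w (le_zP hw)) h3
    · obtain ⟨_, ⟨u, rfl⟩, w, -, e⟩ := mem_zP.1 hv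
      exact ⟨u, w, e⟩
    · have r := hb_rank (Nat.one_lt_pow ha.ne' hW.prime.one_lt) g hg ht
      have e : c = -(Module.finrank O M : ℤ) := by
        rw [← hc, sg]; ring
      rw [e] at r
      generalize p ^ a = q at r ⊢
      zify
      linear_combination -r

/-- the composite of two graphs with the same target -/
def l1bCmp (Ψ : Submodule O (U × M)) (Ψ' : Submodule O (W × M)) : Submodule O (U × W) where
  carrier := {x | ∃ m, (x.1, m) ∈ Ψ ∧ (x.2, m) ∈ Ψ'}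
  add_mem' := fun ⟨m, h, k⟩ ⟨m', h', k'⟩ => ⟨m + m', Ψ.add_mem h h', Ψ'.add_mem k k'⟩
  zero_mem' := ⟨0, Ψ.zero_mem, Ψ'.zero_mem⟩
  smul_mem' := fun c _ ⟨m, h, k⟩ => ⟨c • m, Ψ.smul_mem c h, Ψ'.smul_mem c k⟩

theorem mem_l1bCmp {Ψ : Submodule O (U × M)} {Ψ' : Submodule O (W × M)} {v : U} {w : W} :
    (v, w) ∈ l1bCmp Ψ Ψ' ↔ ∃ m, (v, m) ∈ Ψ ∧ (w, m) ∈ Ψ' := Iff.rfl

/-- a pair in the composite graph transports every value -/
theorem l1b_val {A B : Submodule O U} {A' B' : Submodule O W} {Ψ : Submodule O (U × M)}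
    {Ψ' : Submodule O (W × M)} (h : Gr p A B Ψ) (h' : Gr p A' B' Ψ') {v : U} {w : W}
    (k : (v, w) ∈ l1bCmp Ψ Ψ') {m : M} (hm : (v, m) ∈ Ψ) : (w, m) ∈ Ψ' := by
  obtain ⟨m', k1, k2⟩ := k
  have e : ((0 : W), m - m') ∈ Ψ' := (h'.kr _).2 ((h.kr _).1 (by simpa using Ψ.sub_mem hm k1))
  simpa using Ψ'.add_mem k2 e

/-- same type: an equivariant map that is the identity of `M / p M` -/
theorem Wt.lift_same (hW : Wt p O) (ha : 0 < a) (g : Module.End O U) (g' : Module.End O W)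
    (hg : g ^ p ^ a = 1) {c : ℤ}
    (ht : ∀ j, 0 < j → j < p ^ a → LinearMap.trace O U (g ^ j) = (c : O)) (i : Bool)
    (hz : zA (p ^ a) g (!i) ≤ zB (p ^ a) g (!i)) {Ψ : Submodule O (U × M)}
    (hΨ : Gr p (zA (p ^ a) g i) (zP (p : O) (zA (p ^ a) g i) (zB (p ^ a) g i)) Ψ)
    (hc : sg ℤ i * c = Module.finrank O M) {Ψ' : Submodule O (W × M)}
    (hΨ' : Gr p (zA (p ^ a) g' i) (zP (p : O) (zA (p ^ a) g' i) (zB (p ^ a) g' i)) Ψ') :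
    ∃ f : U →ₗ[O] W, (∀ v, f (g v) = g' (f v)) ∧
      (∀ v ∈ zA (p ^ a) g i, (v, f v) ∈ l1bCmp Ψ Ψ') ∧ ∀ v ∈ zA (p ^ a) g (!i), f v = 0 := by
  refine hW.lift_typ ha g g' hg ht i hz hΨ hc _ (fun v hv => ?_)
    (fun w hw => ⟨0, Ψ.zero_mem, (hΨ'.kl w).2 hw⟩)
    fun v hv => ⟨0, (hΨ.kl v).2 (le_zP hv), Ψ'.zero_mem⟩
  obtain ⟨m, hm⟩ := (hΨ.dom v).1 hv
  obtain ⟨w, hw⟩ := hΨ'.ran m
  exact ⟨w, (hΨ'.dom w).2 ⟨m, hw⟩, m, hm, hw⟩

end Pool.Agent.Lib.MP_1ae3da_al.CT.R5
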