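import Pool.Agent.Lib.MP_1ae3da_al.Y.L1b
import Pool.Agent.Lib.MP_1ae3da_al.Y.Dl

set_option autoImplicit false
set_option linter.unusedSectionVars false

/-! Passing from an endomorphism with `g ^ (q + 1) = g` to the summand where it has order `q`. -/

namespace Pool.Agent.Lib.MP_1ae3da_al.CT.R5

open Function

section
variable {O U : Type} [CommRing O] [IsDomain O] [IsDiscreteValuationRing O] [CharZero O]
  [AddCommGroup U] [Module O U] {q : ℕ} {g : Module.End O U}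

theorem yl1c_pow (hg : g ^ (q + 1) = g) (j : ℕ) : g ^ (j + 1) * g ^ q = g ^ (j + 1) := by
  rw [pow_succ, mul_assoc, ← pow_succ', hg]

theorem yl1c_idem (hq : 0 < q) (hg : g ^ (q + 1) = g) : g ^ q * g ^ q = g ^ q := by
  obtain ⟨k, rfl⟩ : ∃ k, q = k + 1 := ⟨q - 1, by omega⟩
  exact yl1c_pow hg k

theorem yl1c_nm (hq : 0 < q) (hg : g ^ (q + 1) = g) :
    (∑ j ∈ Finset.range q, g ^ j) * g ^ q = ∑ j ∈ Finset.range q, g ^ (j + 1) := by
  have e : ∑ j ∈ Finset.range q, g ^ (j + 1) + g ^ 0 = ∑ j ∈ Finset.range q, g ^ j + g ^ q := by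
    rw [← Finset.sum_range_succ', Finset.sum_range_succ]
  have e' := congrArg (· * g ^ q) e
  simp only [add_mul, Finset.sum_mul, yl1c_pow hg, pow_zero, one_mul, yl1c_idem hq hg,
    add_left_inj] at e'
  rw [Finset.sum_mul, e']

/-- the summand on which `g` is invertible -/
abbrev yZs (q : ℕ) (g : Module.End O U) : Submodule O U := LinearMap.range (g ^ q)

/-- the restriction of `g` to that summand -/
def yGs (q : ℕ) (g : Module.End O U) : Module.End O (yZs q g) :=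
  g.restrict fun _ ⟨u, e⟩ => ⟨g u, by
    rw [← e, ← Module.End.mul_apply, ← Module.End.mul_apply, ← pow_succ, ← pow_succ']⟩

theorem yGs_coe (v : yZs q g) : (yGs q g v : U) = g v := rfl

theorem yGs_pow_coe (j : ℕ) (v : yZs q g) : ((yGs q g ^ j) v : U) = (g ^ j) v :=
  rlz_comm (f := (yZs q g).subtype) yGs_coe j v

theorem yZs_fix (hq : 0 < q) (hg : g ^ (q + 1) = g) (v : yZs q g) : (g ^ q) (v : U) = v := by
  obtain ⟨_, u, rfl⟩ := v
  exact LinearMap.congr_fun (yl1c_idem hq hg) u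

theorem yGs_pow (hq : 0 < q) (hg : g ^ (q + 1) = g) : yGs q g ^ q = 1 :=
  LinearMap.ext fun v => Subtype.ext ((yGs_pow_coe q v).trans (yZs_fix hq hg v))

theorem yGs_nm (hq : 0 < q) (hg : g ^ (q + 1) = g) (v : yZs q g) :
    ((∑ j ∈ Finset.range q, yGs q g ^ j) v : U) = yOp q g true v := by
  rw [yOp, ← yl1c_nm hq hg, Module.End.mul_apply, yZs_fix hq hg, LinearMap.sum_apply,
    LinearMap.sum_apply, Submodule.coe_sum]
  exact Finset.sum_congr rfl fun j _ => yGs_pow_coe j v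

/-- the projection onto the summand -/
def yPr (q : ℕ) (g : Module.End O U) : U →ₗ[O] yZs q g := (g ^ q).rangeRestrict

theorem yPr_coe (v : U) : (yPr q g v : U) = (g ^ q) v := rfl

theorem yPr_g (v : U) : yPr q g (g v) = yGs q g (yPr q g v) := Subtype.ext (by
  rw [yGs_coe, yPr_coe, yPr_coe, ← Module.End.mul_apply, ← Module.End.mul_apply, ← pow_succ,
    ← pow_succ'])

theorem yPr_val (hq : 0 < q) (hg : g ^ (q + 1) = g) (v : yZs q g) : yPr q g v = v :=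
  Subtype.ext (yZs_fix hq hg v)

theorem yOp_z (hg : g ^ (q + 1) = g) (v : U) : yOp q g true ((g ^ q) v) = yOp q g true v := by
  rw [yOp, ← Module.End.mul_apply, Finset.sum_mul]
  simp only [yl1c_pow hg]

theorem yOp_comm (i : Bool) (j : ℕ) (v : U) : (g ^ j) (yOp q g i v) = yOp q g i ((g ^ j) v) := by
  cases i
  · exact LinearMap.congr_fun ((Commute.self_pow g j).sub_left (Commute.one_left _)).eq.symm v
  · exact LinearMap.congr_fun
      (Commute.sum_left _ _ _ fun i _ => Commute.pow_pow_self g (i + 1) j).eq.symm v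

theorem yGs_A (hq : 0 < q) (hg : g ^ (q + 1) = g) (i : Bool) (v : yZs q g) :
    v ∈ zA q (yGs q g) i ↔ (v : U) ∈ yA q g i := by
  cases i
  · exact Subtype.ext_iff
  · exact Subtype.ext_iff.trans (by rw [yGs_nm hq hg]; rfl)

theorem yGs_B (hq : 0 < q) (hg : g ^ (q + 1) = g) (i : Bool) (v : yZs q g) :
    v ∈ zB q (yGs q g) i ↔ (v : U) ∈ yB q g i := by
  cases i
  · refine ⟨fun ⟨u, e⟩ => ⟨u, by rw [← e, yGs_nm hq hg]; rfl⟩, fun ⟨u, e⟩ =>
      ⟨yPr q g u, Subtype.ext ?_⟩⟩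
    rw [yGs_nm hq hg, yPr_coe, yOp_z hg]
    exact e
  · refine ⟨fun ⟨u, e⟩ => ⟨u, congrArg Subtype.val e⟩, fun ⟨u, e⟩ => ⟨yPr q g u, Subtype.ext ?_⟩⟩
    rw [← yZs_fix hq hg v, ← e]
    exact (yOp_comm (q := q) false q u).symm

theorem yPr_A (hq : 0 < q) (hg : g ^ (q + 1) = g) (i : Bool) {v : U} (hv : v ∈ yA q g i) :
    yPr q g v ∈ zA q (yGs q g) i :=
  (yGs_A hq hg i _).2 ((yOp_comm i q v).symm.trans (by rw [LinearMap.mem_ker.1 hv, map_zero]))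

theorem yPr_B (hq : 0 < q) (hg : g ^ (q + 1) = g) (i : Bool) {v : U} (hv : v ∈ yB q g i) :
    yPr q g v ∈ zB q (yGs q g) i := by
  obtain ⟨u, rfl⟩ := hv
  exact (yGs_B hq hg i _).2 ⟨_, (yOp_comm _ q u).symm⟩

/-- a cycle differs from its projection by a boundary -/
theorem yPr_sub (i : Bool) {v : U} (hv : v ∈ yA q g i) : (g ^ q) v - v ∈ yB q g i := by
  cases i
  · rw [rlbas_fix (sub_eq_zero.1 hv) q, sub_self]
    exact zero_mem _
  · exact rlz_pow g q v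

theorem yGs_P (hq : 0 < q) (hg : g ^ (q + 1) = g) (p : ℕ) (i : Bool) (v : yZs q g) :
    v ∈ zP (p : O) (zA q (yGs q g) i) (zB q (yGs q g) i) ↔ (v : U) ∈ yP p q g i := by
  refine ⟨fun h => ?_, fun h => ?_⟩
  · obtain ⟨b, hb, w, hw, rfl⟩ := mem_zP.1 h
    exact mem_zP.2 ⟨b, (yGs_B hq hg i b).1 hb, w, (yGs_A hq hg i w).1 hw, rfl⟩
  · obtain ⟨b, hb, w, hw, e⟩ := mem_zP.1 h
    exact mem_zP.2 ⟨_, yPr_B hq hg i hb, _, yPr_A hq hg i hw, by
      rw [← map_smul, ← map_add, ← e, yPr_val hq hg]⟩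

theorem yGs_Z (hq : 0 < q) (hg : g ^ (q + 1) = g) {i : Bool} (h : yZ q g i) :
    zA q (yGs q g) i ≤ zB q (yGs q g) i := fun v hv =>
  (yGs_B hq hg i v).2 (h ((yGs_A hq hg i v).1 hv))

theorem yZ_of (hq : 0 < q) (hg : g ^ (q + 1) = g) {i : Bool}
    (h : zA q (yGs q g) i ≤ zB q (yGs q g) i) : yZ q g i := fun v hv => by
  have := sub_mem ((yGs_B hq hg i _).1 (h (yPr_A hq hg i hv))) (yPr_sub i hv)
  rwa [yPr_coe, sub_sub_cancel] at this

variable {M : Type} [AddCommGroup M] [Module O M]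

/-- a graph restricted to the summand -/
def yRes (q : ℕ) (g : Module.End O U) (Φ : Submodule O (U × M)) : Submodule O (yZs q g × M) :=
  Φ.comap ((yZs q g).subtype.prodMap LinearMap.id)

theorem mem_yRes {Φ : Submodule O (U × M)} {v : yZs q g} {m : M} :
    (v, m) ∈ yRes q g Φ ↔ ((v : U), m) ∈ Φ := Iff.rfl

theorem yRes_pr {Φ : Submodule O (U × M)} {i : Bool} (h3 : ∀ v ∈ yB q g i, (v, (0 : M)) ∈ Φ)
    {v : U} (hv : v ∈ yA q g i) {m : M} : (yPr q g v, m) ∈ yRes q g Φ ↔ (v, m) ∈ Φ :=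
  ⟨fun h => by simpa [yPr_coe] using Φ.sub_mem (mem_yRes.1 h) (h3 _ (yPr_sub i hv)),
    fun h => mem_yRes.2 (by simpa [yPr_coe] using Φ.add_mem h (h3 _ (yPr_sub i hv)))⟩

theorem yRes_gr (hq : 0 < q) (hg : g ^ (q + 1) = g) {p : ℕ} {i : Bool} {Φ : Submodule O (U × M)}
    (h : Gr p (yA q g i) (yP p q g i) Φ) : Gr p (zA q (yGs q g) i)
      (zP (p : O) (zA q (yGs q g) i) (zB q (yGs q g) i)) (yRes q g Φ) where
  dom v := (yGs_A hq hg i v).trans (h.dom v)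
  ran m := (h.ran m).elim fun v hv => ⟨yPr q g v,
    (yRes_pr (fun v hv => (h.kl v).2 (le_zP hv)) ((h.dom v).2 ⟨m, hv⟩)).2 hv⟩
  kl v := (h.kl v).trans (yGs_P hq hg p i v).symm
  kr m := h.kr m

end

variable {O : Type} [CommRing O] [IsDomain O] [IsDiscreteValuationRing O] [CharZero O] {p a : ℕ}
variable {U W M : Type} [AddCommGroup U] [Module O U] [Module.Free O U] [Module.Finite O U]
  [AddCommGroup W] [Module O W]
  [AddCommGroup M] [Module O M] [Module.Free O M] [Module.Finite O M]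

theorem yGs_trace {q : ℕ} {g : Module.End O U} (hg : g ^ (q + 1) = g) {j : ℕ} (hj : 0 < j) :
    LinearMap.trace O _ (yGs q g ^ j) = LinearMap.trace O U (g ^ j) := by
  obtain ⟨k, rfl⟩ : ∃ k, j = k + 1 := ⟨j - 1, by omega⟩
  rw [← LinearMap.trace_restrict_eq_of_forall_mem (yZs q g) (g ^ (k + 1)) fun x =>
    ⟨(g ^ (k + 1)) x, by
      rw [← Module.End.mul_apply, (Commute.pow_pow_self g q (k + 1)).eq, yl1c_pow hg]⟩]
  exact congrArg _ (LinearMap.ext fun v => Subtype.ext (yGs_pow_coe _ v))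

/-- from a lift on the summands to a lift on everything -/
theorem yl1c_up {q : ℕ} (hq : 0 < q) {g : Module.End O U} {g' : Module.End O W}
    (hg : g ^ (q + 1) = g) (hg' : g' ^ (q + 1) = g') {i : Bool} (Φ : Submodule O (U × W))
    (h1 : ∀ v ∈ yA q g i, ∃ w ∈ yA q g' i, (v, w) ∈ Φ)
    (h2 : ∀ w ∈ yP p q g' i, ((0 : U), w) ∈ Φ) (h3 : ∀ v ∈ yB q g i, (v, (0 : W)) ∈ Φ)
    (H : ∀ Ψ : Submodule O (yZs q g × yZs q g'),
      (∀ v ∈ zA q (yGs q g) i, ∃ w ∈ zA q (yGs q g') i, (v, w) ∈ Ψ) →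
      (∀ w ∈ zP (p : O) (zA q (yGs q g') i) (zB q (yGs q g') i), (0, w) ∈ Ψ) →
      (∀ v ∈ zB q (yGs q g) i, (v, 0) ∈ Ψ) →
      ∃ f : yZs q g →ₗ[O] yZs q g', (∀ v, f (yGs q g v) = yGs q g' (f v)) ∧
        (∀ v ∈ zA q (yGs q g) i, (v, f v) ∈ Ψ) ∧ ∀ v ∈ zA q (yGs q g) (!i), f v = 0) :
    ∃ f : U →ₗ[O] W, (∀ v, f (g v) = g' (f v)) ∧ (∀ v ∈ yA q g i, (v, f v) ∈ Φ) ∧
      (∀ v ∈ yA q g (!i), f v = 0) ∧ ∀ v, (g' ^ q) (f v) = f v := by
  obtain ⟨f, f1, f2, f3⟩ := H (Φ.comap ((yZs q g).subtype.prodMap (yZs q g').subtype))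
    (fun v hv => by
      obtain ⟨w, hw, k⟩ := h1 _ ((yGs_A hq hg i v).1 hv)
      refine ⟨_, yPr_A hq hg' i hw, ?_⟩
      change ((v : U), (g' ^ q) w) ∈ Φ
      simpa using Φ.add_mem k (h2 _ (le_zP (yPr_sub i hw))))
    (fun w hw => h2 _ ((yGs_P hq hg' p i w).1 hw)) fun v hv => h3 _ ((yGs_B hq hg i v).1 hv)
  refine ⟨(yZs q g').subtype ∘ₗ f ∘ₗ yPr q g, fun v => ?_, fun v hv => ?_, fun v hv =>
    congrArg Subtype.val (f3 _ (yPr_A hq hg _ hv)), fun v => yZs_fix hq hg' _⟩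
  · change (f (yPr q g (g v)) : W) = g' (f (yPr q g v))
    rw [yPr_g, f1, yGs_coe]
  · have k : ((g ^ q) v, (f (yPr q g v) : W)) ∈ Φ := f2 _ (yPr_A hq hg i hv)
    simpa using Φ.sub_mem k (h3 _ (yPr_sub i hv))

/-- degree 0, full source -/
theorem Wt.ylift0 (hW : Wt p O) (ha : 0 < a) {g : Module.End O U} {g' : Module.End O W}
    (hg : g ^ (p ^ a + 1) = g) (hg' : g' ^ (p ^ a + 1) = g') (hf : yFull p a g false)
    (Φ : Submodule O (U × W))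
    (h1 : ∀ v ∈ yA (p ^ a) g false, ∃ w ∈ yA (p ^ a) g' false, (v, w) ∈ Φ)
    (h2 : ∀ w ∈ yP p (p ^ a) g' false, ((0 : U), w) ∈ Φ)
    (h3 : ∀ v ∈ yB (p ^ a) g false, (v, (0 : W)) ∈ Φ) :
    ∃ f : U →ₗ[O] W, (∀ v, f (g v) = g' (f v)) ∧ (∀ v ∈ yA (p ^ a) g false, (v, f v) ∈ Φ) ∧
      (∀ v ∈ yA (p ^ a) g true, f v = 0) ∧ ∀ v, (g' ^ p ^ a) (f v) = f v := by
  have hq : 0 < p ^ a := pow_pos hW.prime.pos a
  exact yl1c_up hq hg hg' Φ h1 h2 h3 fun Ψ k1 k2 k3 => hW.lift0 ha _ _ (yGs_pow hq hg) Ψ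
    (fun v hv k => mem_zP.1 ((yGs_P hq hg p false v).2
      (hf _ ((yGs_A hq hg false v).1 hv) ((yGs_B hq hg false _).1 k)))) k1
    (fun w hw => k2 _ (mem_zP.2 ⟨0, zero_mem _, w, hw, (zero_add _).symm⟩)) k3

/-- both degrees, from the traces -/
theorem Wt.ylift (hW : Wt p O) (ha : 0 < a) {g : Module.End O U} {g' : Module.End O W}
    (hg : g ^ (p ^ a + 1) = g) (hg' : g' ^ (p ^ a + 1) = g') {c : ℤ}
    (ht : ∀ j, 0 < j → j < p ^ a → LinearMap.trace O U (g ^ j) = (c : O)) (i : Bool)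
    (hz : yZ (p ^ a) g (!i)) {Ψ : Submodule O (U × M)}
    (hΨ : Gr p (yA (p ^ a) g i) (yP p (p ^ a) g i) Ψ) (hc : sg ℤ i * c = Module.finrank O M)
    (Φ : Submodule O (U × W))
    (h1 : ∀ v ∈ yA (p ^ a) g i, ∃ w ∈ yA (p ^ a) g' i, (v, w) ∈ Φ)
    (h2 : ∀ w ∈ yP p (p ^ a) g' i, ((0 : U), w) ∈ Φ)
    (h3 : ∀ v ∈ yB (p ^ a) g i, (v, (0 : W)) ∈ Φ) :
    ∃ f : U →ₗ[O] W, (∀ v, f (g v) = g' (f v)) ∧ (∀ v ∈ yA (p ^ a) g i, (v, f v) ∈ Φ) ∧
      (∀ v ∈ yA (p ^ a) g (!i), f v = 0) ∧ ∀ v, (g' ^ p ^ a) (f v) = f v := by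
  have hq : 0 < p ^ a := pow_pos hW.prime.pos a
  exact yl1c_up hq hg hg' Φ h1 h2 h3 fun Θ k1 k2 k3 => hW.lift_typ ha _ _ (yGs_pow hq hg)
    (fun j j0 j1 => (yGs_trace hg j0).trans (ht j j0 j1)) i (yGs_Z hq hg hz)
    (yRes_gr hq hg hΨ) hc Θ k1 k2 k3

end Pool.Agent.Lib.MP_1ae3da_al.CT.R5
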