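import Pool.Agent.Lib.MP_1ae3da_al.Y.TwT
import Pool.Agent.Lib.MP_1ae3da_al.Y.Dl
import Pool.Agent.Lib.MP_1ae3da_al.Y.Grp

set_option autoImplicit false
set_option linter.unusedSectionVars false

/-! The local and global data give a twisted generator; transfer in both degrees. -/

namespace Pool.Agent.Lib.MP_1ae3da_al.CT.R5

open Function

variable {O X Y : Type} [CommRing O] [IsDomain O] [IsDiscreteValuationRing O] [CharZero O]
  [Group X] [Finite X] [Group Y] [Finite Y] {p a : ℕ} {U W : Type} [AddCommGroup U] [Module O U]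
  [AddCommGroup W] [Module O W]

theorem Lo.cK {K : Subgroup Y} {d : Y} {g : MonoidAlgebra O Y} (h : Lo p a K d g) {k : Y}
    (hk : k ∈ K) : MonoidAlgebra.of O Y k * g = g * MonoidAlgebra.of O Y k := by
  have := h.conj k 1 one_pos (by
    rw [pow_one, mul_assoc, mul_assoc, ← mul_assoc d]
    exact K.mul_mem hk (h.nor.conj_mem _ (K.inv_mem hk) d))
  rwa [pow_one] at this

theorem Lo.tw {K : Subgroup Y} {d : Y} {g : MonoidAlgebra O Y} (h : Lo p a K d g) :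
    ∃ w, g = w * MonoidAlgebra.of O Y d ∧ Tw p a K (K ⊔ Subgroup.zpowers d) d w := by
  obtain ⟨w, hw, rfl⟩ := h.hom
  have := h.nor
  refine ⟨w, rfl, h.cop, h.ind, fun c hc => ?_, fun k hk => h.nor.conj_mem k hk d, h.ord, hw, ?_,
    h.pow, fun y => ?_⟩
  · obtain ⟨k, hk, x, hx, rfl⟩ := Subgroup.mem_sup_of_normal_left.1 hc
    obtain ⟨j, rfl⟩ := (Submonoid.mem_powers_iff _ _).1 (mem_powers_iff_mem_zpowers.2 hx)
    exact ⟨k, hk, j, rfl⟩
  · have e := h.conj d 1 one_pos (by simp)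
    rw [pow_one, ← mul_assoc] at e
    exact (((Group.isUnit d).map (MonoidAlgebra.of O Y)).mul_right_cancel e).symm
  · obtain ⟨j, hj, e⟩ := h.cj y
    exact ⟨j, h.conj y j (Nat.pos_of_ne_zero fun z => hj (z ▸ dvd_zero p)) e⟩

theorem Lo.av {K : Subgroup Y} {d : Y} {g : MonoidAlgebra O Y} (h : Lo p a K d g) (hW : Wt p O) :
    Av fun M : Lat O Y => M.act g = 1 := by
  obtain ⟨w, rfl, t⟩ := h.tw
  exact t.av hW

theorem ytwg_idem {E : Type} [Monoid E] {q : ℕ} (q0 : 0 < q) {G : E} (hG : G ^ (q + 1) = G) :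
    IsIdempotentElem (G ^ q) := by
  obtain ⟨n, rfl⟩ : ∃ n, q = n + 1 := ⟨q - 1, by omega⟩
  change G ^ (n + 1) * G ^ (n + 1) = _
  nth_rewrite 2 [pow_succ' G n]
  rw [← mul_assoc, ← pow_succ, hG, ← pow_succ']

/-- the idempotent is central -/
theorem Lo.zc {K : Subgroup Y} {d : Y} {g : MonoidAlgebra O Y} (h : Lo p a K d g) (hp : p.Prime)
    (y : Y) : MonoidAlgebra.of O Y y * g ^ p ^ a = g ^ p ^ a * MonoidAlgebra.of O Y y := by
  obtain ⟨j, hj, e⟩ := h.cj y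
  have j0 : j ≠ 0 := fun z => hj (z ▸ dvd_zero p)
  have := (SemiconjBy.pow_right (h.conj y j (Nat.pos_of_ne_zero j0) e) (p ^ a)).eq
  rwa [← pow_mul, mul_comm j, pow_mul,
    (ytwg_idem (Nat.pos_of_ne_zero (pow_ne_zero a hp.ne_zero)) h.pow).pow_eq j0] at this

theorem Lo.zact {K : Subgroup Y} {d : Y} {g : MonoidAlgebra O Y} (h : Lo p a K d g) (hp : p.Prime)
    (σ : Y →* Module.End O U) (y : Y) (v : U) :
    (act σ g ^ p ^ a) (σ y v) = σ y ((act σ g ^ p ^ a) v) := by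
  have := LinearMap.congr_fun (congrArg (act σ) (h.zc hp y)) v
  rw [map_mul, map_mul, act_of, map_pow] at this
  exact this.symm

variable {Q : Subgroup X} {d : Nz Q} {g : MonoidAlgebra O (Nz Q)}

theorem Gl.twx (h : Gl p a Q d g) : ∃ w, g = w * MonoidAlgebra.of O (Nz Q) d ∧
    TwX p a (Nz Q) (KN p Q) (KN p Q ⊔ Subgroup.zpowers d) d w := by
  obtain ⟨w, e, t⟩ := h.lo.tw
  refine ⟨w, e, t, fun k hk => e ▸ h.lo.cK hk, fun x hx j c _ k => ?_⟩
  rw [← orderOf_dvd_iff_pow_eq_one, h.cy.ord]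
  exact h.cy.dfree hx (k ▸ c.2)

theorem ytwg_st {σ : Y →* Module.End O U} {A : Submodule O U} (hA : ∀ y, ∀ v ∈ A, σ y v ∈ A)
    (x : MonoidAlgebra O Y) {v : U} (hv : v ∈ A) : act σ x v ∈ A := by
  have := Fintype.ofFinite Y
  rw [act_eq, finsum_eq_sum_of_fintype, LinearMap.sum_apply]
  exact A.sum_mem fun y _ => A.smul_mem _ (hA y v hv)

/-- the trace of a cut map on a cycle is a boundary -/
theorem ytwg_tr {q : ℕ} (q0 : 0 < q) {G : Module.End O U} {G' : Module.End O W} {k : U →ₗ[O] W}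
    (hk : ∀ v, k ((G ^ q) v) = (G' ^ q) (k v)) (i : Bool) {v : U} (hv : v ∈ yA q G i) :
    ∑ j ∈ Finset.range q, (G' ^ j) (k ((G ^ (q - j)) v)) ∈ yB q G' i := by
  cases i
  · have hv' : G v = v := sub_eq_zero.1 hv
    refine ⟨(G' ^ (q - 1)) (k v), ?_⟩
    change (∑ j ∈ Finset.range q, G' ^ (j + 1)) _ = _
    rw [LinearMap.sum_apply]
    refine Finset.sum_congr rfl fun j _ => ?_
    rw [pow_succ, Module.End.mul_apply, ← Module.End.mul_apply G', ← pow_succ',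
      Nat.sub_add_cancel q0, ← hk, rlbas_fix hv', rlbas_fix hv']
  · have e : ∑ j ∈ Finset.range q, k ((G ^ (q - j)) v) = 0 := by
      have hv' : (∑ j ∈ Finset.range q, G ^ (j + 1)) v = 0 := hv
      rw [← map_sum, ← LinearMap.sum_apply, ← Finset.sum_range_reflect, Finset.sum_congr rfl
        (g := fun j => G ^ (j + 1)) fun j hj => by
          have := Finset.mem_range.1 hj
          congr 1
          omega, hv', map_zero]
    rw [← sub_zero (∑ _ ∈ _, _), ← e, ← Finset.sum_sub_distrib]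
    exact Submodule.sum_mem _ fun j _ => secc_sub G' j _

/-- transfer for arbitrary modules, both degrees -/
theorem Gl.tr (h : Gl p a Q d g) (hW : Wt p O) (ρ : X →* Module.End O U)
    (σ : X →* Module.End O W) (f0 : U →ₗ[O] W)
    (hg : ∀ v, f0 (act (ρ.comp (Nz Q).subtype) g v) = act (σ.comp (Nz Q).subtype) g (f0 v)) :
    ∃ f : U →ₗ[O] W, (∀ x v, f (ρ x v) = σ x (f v)) ∧
      ∀ (i : Bool) (A : Submodule O U) (Φ : Submodule O (U × W)),
        A ≤ yA (p ^ a) (act (ρ.comp (Nz Q).subtype) g) i → (∀ n : Nz Q, ∀ v ∈ A, ρ n v ∈ A) →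
        (∀ (n : Nz Q) v u, (v, u) ∈ Φ → (ρ n v, σ n u) ∈ Φ) →
        (∀ u ∈ yB (p ^ a) (act (σ.comp (Nz Q).subtype) g) i, ((0 : U), u) ∈ Φ) →
        (i = true → ∀ v ∈ A, v ∈ yB (p ^ a) (act (ρ.comp (Nz Q).subtype) g) i → (v, (0 : W)) ∈ Φ) →
        (∀ v ∈ A, (v, f0 v) ∈ Φ) → ∀ v ∈ A, (v, f v) ∈ Φ := by
  obtain ⟨w, rfl, t⟩ := h.twx
  have q0 : 0 < p ^ a := Nat.pos_of_ne_zero (pow_ne_zero a hW.prime.ne_zero)
  obtain ⟨f, hf, k⟩ := t.tr hW ρ σ f0 hg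
  refine ⟨f, hf, fun i A Φ hA sA sΦ h1 h2 h0 v hv => ?_⟩
  set G := act (ρ.comp (Nz Q).subtype) (w * MonoidAlgebra.of O (Nz Q) d) with hG
  set G' := act (σ.comp (Nz Q).subtype) (w * MonoidAlgebra.of O (Nz Q) d) with hG'
  have fG : ∀ v, f (G v) = G' (f v) :=
    act_hom (ρ := ρ.comp (Nz Q).subtype) (σ := σ.comp (Nz Q).subtype) (fun y => hf (y : X)) _
  have zA : (G ^ p ^ a) v ∈ A := by
    rw [hG, ← map_pow]
    exact ytwg_st (σ := ρ.comp (Nz Q).subtype) sA _ hv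
  have mZ : ∀ {u}, u ∈ LinearMap.ker (G ^ p ^ a - 1) ↔ (G ^ p ^ a) u = u := sub_eq_zero
  have key := k (A ⊓ LinearMap.ker (G ^ p ^ a - 1)) Φ
    (fun n u hu => ⟨sA n u hu.1, mZ.2 ((h.lo.zact hW.prime (ρ.comp (Nz Q).subtype) n u).trans
      (congrArg (ρ n) (mZ.1 hu.2)))⟩)
    (fun u hu => mZ.1 hu.2) sΦ (fun u hu => h0 u hu.1)
    (fun k hk u hu => h1 _ (ytwg_tr q0 hk i (hA hu.1))) _
    ⟨zA, mZ.2 (LinearMap.congr_fun (ytwg_idem q0 (t.gq1 _)) v)⟩
  cases i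
  · rwa [rlbas_fix (sub_eq_zero.1 (hA hv))] at key
  · have b1 := h2 rfl _ (A.sub_mem zA hv) (secc_sub G _ v)
    have b2 := h1 _ (secc_sub G' (p ^ a) (f v))
    rw [← twt_pow fG] at b2
    simpa using Φ.sub_mem (Φ.sub_mem key b1) b2

end Pool.Agent.Lib.MP_1ae3da_al.CT.R5
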