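import Pool.Agent.Lib.MP_1ae3da_al.Y.L1c
import Pool.Agent.Lib.MP_1ae3da_al.Y.TwG

set_option autoImplicit false
set_option linter.unusedSectionVars false

/-! Sources from the lifting lemma and the transfer. -/

namespace Pool.Agent.Lib.MP_1ae3da_al.CT.R5

open Function

variable {O X : Type} [CommRing O] [IsDomain O] [IsDiscreteValuationRing O] [CharZero O]
  [Group X] [Finite X] {p a : ℕ} {Q : Subgroup X} {d : Nz Q} {g : MonoidAlgebra O (Nz Q)}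

theorem Gl.gq (h : Gl p a Q d g) (V : Lat O X) : V.G Q g ^ (p ^ a + 1) = V.G Q g := by
  rw [← map_pow, h.lo.pow]

/-- the graph between two lattices over a map of the quotients -/
def l1dTh {U W M M' : Type} [AddCommGroup U] [Module O U] [AddCommGroup W] [Module O W]
    [AddCommGroup M] [Module O M] [AddCommGroup M'] [Module O M'] (Φ : Submodule O (U × M))
    (Φ' : Submodule O (W × M')) (w : M →ₗ[O] M') : Submodule O (U × W) where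
  carrier := {x | ∃ m, (x.1, m) ∈ Φ ∧ (x.2, w m) ∈ Φ'}
  add_mem' := fun ⟨m, h, k⟩ ⟨m', h', k'⟩ =>
    ⟨m + m', Φ.add_mem h h', by rw [map_add]; exact Φ'.add_mem k k'⟩
  zero_mem' := ⟨0, Φ.zero_mem, by rw [map_zero]; exact Φ'.zero_mem⟩
  smul_mem' := fun c _ ⟨m, h, k⟩ => ⟨c • m, Φ.smul_mem c h, by rw [map_smul]; exact Φ'.smul_mem c k⟩

theorem Gl.src_of (h : Gl p a Q d g) (hW : Wt p O) {V : Lat O X} {M : Lat O (Nz Q)} {i : Bool}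
    {Φ : Submodule O (V.V × M.V)} (t : TieC p a g (V.rs Q) M i Φ)
    (H : ∀ (V' : Lat O X) (Θ : Submodule O (V.V × V'.V)),
      (∀ v ∈ yA (p ^ a) (V.G Q g) i, ∃ w ∈ yA (p ^ a) (V'.G Q g) i, (v, w) ∈ Θ) →
      (∀ w ∈ yP p (p ^ a) (V'.G Q g) i, ((0 : V.V), w) ∈ Θ) →
      (∀ v ∈ yB (p ^ a) (V.G Q g) i, (v, (0 : V'.V)) ∈ Θ) →
      ∃ f : V.V →ₗ[O] V'.V, (∀ v, f (V.G Q g v) = V'.G Q g (f v)) ∧
        ∀ v ∈ yA (p ^ a) (V.G Q g) i, (v, f v) ∈ Θ) : Src p a Q g V M i Φ := by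
  refine ⟨t, fun V' M' Φ' w' t' hw => ?_⟩
  have k2 : ∀ w ∈ yP p (p ^ a) (V'.G Q g) i, ((0 : V.V), w) ∈ l1dTh Φ Φ' w' := fun w hw =>
    ⟨0, Φ.zero_mem, by rw [map_zero]; exact (t'.gr.kl w).2 hw⟩
  have k3 : ∀ v ∈ yB (p ^ a) (V.G Q g) i, (v, (0 : V'.V)) ∈ l1dTh Φ Φ' w' := fun v hv =>
    ⟨0, (t.gr.kl v).2 (le_zP hv), by rw [map_zero]; exact Φ'.zero_mem⟩
  obtain ⟨f0, f1, f2⟩ := H V' (l1dTh Φ Φ' w') (fun v hv => by
    obtain ⟨m, hm⟩ := (t.gr.dom v).1 hv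
    obtain ⟨u, hu⟩ := t'.gr.ran (w' m)
    exact ⟨u, (t'.gr.dom u).2 ⟨_, hu⟩, m, hm, hu⟩) k2 k3
  obtain ⟨f, hf, k⟩ := h.tr hW V.ρ V'.ρ f0 f1
  have key := k i _ (l1dTh Φ Φ' w') le_rfl
    (fun n v hv => ((t.gr.dom v).1 hv).elim fun m hm => (t.gr.dom _).2 ⟨_, t.st n v m hm⟩)
    (fun n v u ⟨m, h1, h2⟩ => ⟨M.ρ n m, t.st n v m h1, by rw [hw]; exact t'.st n u _ h2⟩)
    (fun u hu => k2 u (le_zP hu)) (fun _ v _ hv => k3 v hv) f2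
  refine ⟨f, hf, fun v m hm => ?_⟩
  obtain ⟨m', h1, h2⟩ := key v ((t.gr.dom v).2 ⟨m, hm⟩)
  obtain ⟨n, e⟩ := (t.gr.kr (m - m')).1 (by simpa using Φ.sub_mem hm h1)
  have := Φ'.add_mem h2 ((t'.gr.kr (w' (m - m'))).2 ⟨w' n, by rw [e, map_smul]⟩)
  simpa using this

/-- a full lattice of degree 0 is a source -/
theorem Gl.src0 (h : Gl p a Q d g) (hW : Wt p O) {V : Lat O X} {M : Lat O (Nz Q)}
    {Φ : Submodule O (V.V × M.V)} (t : TieC p a g (V.rs Q) M false Φ)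
    (hf : yFull p a (V.G Q g) false) : Src p a Q g V M false Φ :=
  h.src_of hW t fun V' Θ k1 k2 k3 =>
    (hW.ylift0 h.lo.pos (h.gq V) (h.gq V') hf Θ k1 k2 k3).imp fun _ k => ⟨k.1, k.2.1⟩

/-- a lattice whose defect is the rank of `M` up to the sign is a source -/
theorem Gl.src (h : Gl p a Q d g) (hW : Wt p O) {V : Lat O X} {M : Lat O (Nz Q)} {i : Bool}
    {Φ : Submodule O (V.V × M.V)} (t : TieC p a g (V.rs Q) M i Φ) {c : ℤ}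
    (ht : ∀ j, 0 < j → j < p ^ a → LinearMap.trace O V.V (V.G Q g ^ j) = (c : O))
    (hz : yZ (p ^ a) (V.G Q g) (!i)) (hc : sg ℤ i * c = M.rk) : Src p a Q g V M i Φ :=
  h.src_of hW t fun V' Θ k1 k2 k3 =>
    (hW.ylift h.lo.pos (h.gq V) (h.gq V') ht i hz t.gr hc Θ k1 k2 k3).imp fun _ k => ⟨k.1, k.2.1⟩

end Pool.Agent.Lib.MP_1ae3da_al.CT.R5
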