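import Pool.Agent.Lib.MP_1ae3da_al.Y.U0
import Pool.Agent.Lib.MP_1ae3da_al.Y.Up
import Pool.Agent.Lib.MP_1ae3da_al.C.RLLa

set_option autoImplicit false
set_option linter.unusedSectionVars false

/-! Edited copy of C/RLLa. -/

namespace Pool.Agent.Lib.MP_1ae3da_al.CT.R5

open Function Submodule

variable {F k X : Type} [Field F] [CharZero F] [IsAlgClosed F] [Field k] [Group X] [Finite X]
  {p a : ℕ} [Fact p.Prime] {O R : Subring F} [IsDiscreteValuationRing O] {r : F → k}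
  {GG : Subgroup (RingAut F)} {Q : Subgroup X} {ga : X → MonoidAlgebra F X} {d : Nz Q}
  {g : MonoidAlgebra O (Nz Q)} {e e' ψ η θ ε : MonoidAlgebra F X}
  {γ : RingAut (MonoidAlgebra F X)} {om : X → F}
  {T : MonoidAlgebra F X →ₗ[F] MonoidAlgebra F X} {s : MonoidAlgebra F X → ℕ}

variable {n n' : ℕ} {ρ : MonoidAlgebra F X →ₗ[F] Matrix (Fin n) (Fin n) F}
  {ρ' : MonoidAlgebra F X →ₗ[F] Matrix (Fin n') (Fin n') F} {V : Lat O X} {M : Lat O (Nz Q)}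
  {i : Bool} {Φ : Submodule O (V.V × M.V)} {b : Module.Basis (Fin n) O V.V}
  {b' : Module.Basis (Fin n') O M.V} {c c' : RingAut (MonoidAlgebra F X)}
  {w w' x x' : MonoidAlgebra F X}

theorem ul_intC (h : LCC p a Q g e ψ V M i Φ b b' ρ ρ')
    (hU : UL p GG Q e ψ V M Φ b b' ρ ρ' c w w') :
    c ∈ Gm GG Q ⊓ Fx e ⊓ Fx ψ ∧ Lin F c ∧ w ∈ Ln F (HX F ⊤) e c ∧ w' ∈ Ln F (HX F (NQ Q)) ψ c := by
  obtain ⟨h1, h2, h3, h4, h5, α, β, hr, hα, t, w0, w0', hc, hu, e1, e2⟩ := hU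
  exact ⟨h1, h2, rlla_ln h.mr h.mm h.ie h2 (d := α) hα (rlla_top w) h3 hu.l hc e1,
    rlla_ln h.mr' h.mm' h.ip h2 (d := β)
      (fun y => (hα y).trans (congrArg (gu F X) (hr.coe y).symm)) h4 h5 hu.r hc e2⟩

theorem ul_totC (hC : Cx p a O R r GG Q ga d g)
    (h : LCC p a Q g e ψ V M i Φ b b' ρ ρ') (hg : c ∈ Gm GG Q ⊓ Fx e ⊓ Fx ψ)
    (hl : Lin F c) : ∃ w w', UL p GG Q e ψ V M Φ b b' ρ ρ' c w w' := by
  obtain ⟨σ, -, σ0, α, β, hσ, h0, hr, hα, -, k, hc⟩ := hC.gm hg.1.1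
  have hs : SL F 1 c := lin_iff.1 hl
  have s1 : ∀ t : F, σ t = t := fun t => by
    have k1 := hσ t 1
    rw [hl t 1, map_one] at k1
    exact (smul_left_injective F one_ne_zero k1).symm
  obtain rfl : σ0 = RingEquiv.refl O := RingEquiv.ext fun x => Subtype.ext ((h0 x).trans (s1 x))
  have hψ : c ψ = ψ := hg.2
  have hch : ∀ y, M.ch (β y) = M.ch y := fun y =>
    Lat.Idem.fix h0 h.gb.idm (fun z => by have k1 := k ψ z; rwa [hψ] at k1) y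
  obtain ⟨w0, w0', hu⟩ := (wt_of_pm hC.pm).u_totC hC.gl h.src h.gb.good h.sca h.nrk hr hc hch
  obtain ⟨w, -, k1, k2⟩ := te_lift (nice_Hm0 gu_tg ⊤) h.mm h.ie (mF b w0)
  obtain ⟨w', k3, k4, k5⟩ := te_lift (nice_Hm0 gu_tg (Nz Q)) h.mm' h.ip (mF b' w0')
  exact ⟨w, w', hg, hl, k1, k3, k4, α, β, hr, hα, 1, w0, w0', one_ne_zero, hu,
    by rw [one_smul, k2], by rw [one_smul, k5]⟩

theorem ul_mulC (h : LCC p a Q g e ψ V M i Φ b b' ρ ρ')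
    (hU : UL p GG Q e ψ V M Φ b b' ρ ρ' c w w')
    (hU' : UL p GG Q e ψ V M Φ b b' ρ ρ' c' x x') :
    UL p GG Q e ψ V M Φ b b' ρ ρ' (c * c') (w * x) (w' * x') := by
  obtain ⟨h1, h2, h3, h4, h5, α, β, hr, hα, t, w0, w0', hc, hu, e1, e2⟩ := hU
  obtain ⟨k1, k2, k3, k4, k5, α', β', kr, kα, u, x0, x0', hd, ku, f1, f2⟩ := hU'
  refine ⟨mul_mem h1 k1, fun t z => ?_, by rw [mul_assoc, k3], gu_span_mul _ _ h4 _ k4,
    by rw [mul_assoc, k5], α'.trans α, β'.trans β,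
    ⟨fun y => (hr.mem _).trans (kr.mem y), fun y => ?_⟩, fun y => ?_, t * u, w0 * x0, w0' * x0',
    mul_ne_zero hc hd, U0.mul Fact.out hu ku (fun _ => rfl) fun _ => rfl, ?_, ?_⟩
  · change c (c' (t • z)) = t • c (c' z)
    rw [k2, h2]
  · change (β (β' y) : X) = α (α' y)
    rw [hr.coe, kr.coe]
  · change c (c' (gu F X y)) = gu F X (α (α' y))
    rw [kα, hα]
  · rw [h.mm.mul _ (rlla_top w) _ (rlla_top x), e1, f1, smul_mul_smul_comm, mF_mul]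
  · rw [h.mm'.mul _ h4 _ k4, e2, f2, smul_mul_smul_comm, mF_mul]

end Pool.Agent.Lib.MP_1ae3da_al.CT.R5
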