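import Pool.Agent.Lib.MP_1ae3da_al.Y.Cut
import Pool.Agent.Lib.MP_1ae3da_al.Y.Loc
import Pool.Agent.Lib.MP_1ae3da_al.Y.Grp

set_option autoImplicit false
set_option linter.unusedSectionVars false

/-! Quotients of projective lattices with local endomorphism ring, without the cut. -/

namespace Pool.Agent.Lib.MP_1ae3da_al.CT.R5

open Function

variable {O X : Type} [CommRing O] [IsDomain O] [IsDiscreteValuationRing O] [CharZero O]
  [Group X] [Finite X] {p a : ℕ} {Q : Subgroup X} {d : Nz Q} {g : MonoidAlgebra O (Nz Q)}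

theorem Gl.gd (h : Gl p a Q d g) :
    Gd p a (Kp p Q) (Subgroup.zpowers (d : X)) (CQ Q) (Nz Q) d := by
  have gen : ∀ y ∈ Subgroup.zpowers (d : X), ∃ i : ℕ, y = (d : X) ^ i := fun y hy => by
    obtain ⟨i, e⟩ := (Submonoid.mem_powers_iff _ _).1 (mem_powers_iff_mem_zpowers.2 hy)
    exact ⟨i, e.symm⟩
  have hC : CQ Q ≤ Nz Q := Subgroup.centralizer_le_normalizer _
  refine ⟨(kp_le Q).trans hC, hC, fun k hk => kp_conj d.2 hk, h.cy.kcard, h.cy.indC,
    fun x hx y hy k => ?_, fun c hc => ?_, Subgroup.mem_zpowers _, gen,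
    (Nat.card_zpowers _).trans h.cy.ord⟩
  · obtain ⟨i, rfl⟩ := gen y hy
    exact orderOf_dvd_iff_pow_eq_one.1 (h.cy.ord ▸ h.cy.dfree hx (hC k))
  · obtain ⟨k, hk, i, -, e⟩ := h.cy.split hc
    exact ⟨k, hk, _, Subgroup.npow_mem_zpowers _ i, e⟩

theorem locy_spn {Y U : Type} [Group Y] [Finite Y] [AddCommGroup U] [Module O U]
    (σ : Y →* Module.End O U) {K : Subgroup Y} {w : MonoidAlgebra O Y} (hw : w ∈ spn O K) :
    act σ w ∈ Submodule.span O (σ '' (K : Set Y)) := by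
  have := Submodule.apply_mem_span_image_of_mem_span (act σ).toLinearMap hw
  rw [← Set.image_comp] at this
  exact (Set.image_congr fun y _ => act_of σ y) ▸ this

theorem Lo.zd (h : Lo p a (KN p Q) d g) {V : Lat O X} {Z : Lat O (Nz Q)} {j : Z.V →ₗ[O] V.V}
    {r : V.V →ₗ[O] Z.V} (hj : Z.Hom (V.rs Q) j) (hr : (V.rs Q).Hom Z r)
    (c : Yc (p ^ a) (V.G Q g) (Z.act g) j r) :
    Zd (p ^ a) (Kp p Q) (Nz Q) d V.ρ Z.ρ j r (Z.act g) := by
  refine ⟨c.rj, hj, hr, ?_, c.gq, fun n => ?_, fun k hk => ?_, ?_⟩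
  · have := locy_spn (V.rs Q).ρ (K := ⊤) (w := g ^ p ^ a) (mem_spn fun _ _ => trivial)
    rw [Subgroup.coe_top, Set.image_univ, map_pow] at this
    exact (LinearMap.ext c.jr : j ∘ₗ r = V.G Q g ^ p ^ a) ▸ this
  · obtain ⟨i, -, -, e⟩ := h.cj' n
    exact ⟨i, by simpa only [map_mul, map_pow, act_of] using congrArg Z.act e⟩
  · simpa only [map_mul, act_of] using congrArg Z.act (h.comK (k := k) hk)
  · obtain ⟨w, hw, e⟩ := h.hom
    refine ⟨act Z.ρ w, locy_spn Z.ρ (K := KN p Q) hw, ?_⟩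
    have := congrArg (act Z.ρ) e
    rwa [map_mul, act_of] at this

/-- the cut of a lattice for the big group -/
theorem Gl.cut (h : Gl p a Q d g) (V : Lat O X) :
    ∃ (Z : Lat O (Nz Q)) (j : Z.V →ₗ[O] V.V) (r : V.V →ₗ[O] Z.V), Z.Hom (V.rs Q) j ∧
      (V.rs Q).Hom Z r ∧ Yc (p ^ a) (V.G Q g) (Z.act g) j r ∧
      Zd (p ^ a) (Kp p Q) (Nz Q) d V.ρ Z.ρ j r (Z.act g) := by
  obtain ⟨Z, j, r, hj, hr, c⟩ := h.lo.cut (V.rs Q)
  exact ⟨Z, j, r, hj, hr, c, h.lo.zd hj hr c⟩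

theorem locy_smp {Y : Type} [Group Y] [Finite Y] {V Z : Lat O Y} {j : Z.V →ₗ[O] V.V}
    {r : V.V →ₗ[O] Z.V} (hj : Z.Hom V j) {A B : Submodule O V.V}
    (hA : ∀ u ∈ A, j (r u) - u ∈ B)
    (h : ∀ S : Submodule O Z.V, Z.St S → B.comap j ≤ S → S ≤ A.comap j →
      S ≤ B.comap j ∨ A.comap j ≤ S) : Smp V A B := by
  intro S st h1 h2
  have k : ∀ {T : Submodule O V.V}, B ≤ T → ∀ u ∈ A, j (r u) ∈ T ↔ u ∈ T := fun hT u hu =>
    ⟨fun e => by simpa using Submodule.sub_mem _ e (hT (hA u hu)),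
      fun e => by simpa using Submodule.add_mem _ (hT (hA u hu)) e⟩
  refine (h (S.comap j) (fun n v hv => ?_) (Submodule.comap_mono h1)
    (Submodule.comap_mono h2)).imp (fun e => le_antisymm (fun u hu => ?_) h1)
    fun e => le_antisymm h2 fun u hu => ?_
  · rw [Submodule.mem_comap, hj]
    exact st n _ hv
  · exact (k le_rfl u (h2 hu)).1 (e (x := r u) ((k h1 u (h2 hu)).2 hu))
  · exact (k h1 u hu).1 (e (x := r u) ((k (h1.trans h2) u hu).2 hu))

variable {V : Lat O X}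

/-- the Tate group of the reduction is zero or simple -/
theorem locy_H (hW : Wt p O) (h : Gl p a Q d g) (hV : V.LocP p) :
    Smp (V.rs Q) (yHA p (V.G Q g)) (yHB p (p ^ a) (V.G Q g)) := by
  obtain ⟨Z, j, r, hj, -, c, H⟩ := h.cut V
  refine locy_smp (r := r) hj (fun u hu => ?_) fun S st h1 h2 => ?_
  · obtain ⟨w, e⟩ := c.subH hu
    exact Submodule.mem_sup_right ⟨w, e.symm⟩
  · exact (loc_H hW h.gd H hV S st (fun w u => h1 (c.jHB.2 ⟨w, u, rfl⟩))
      fun v hv => c.jH.1 (h2 hv)).imp (fun k v hv => c.jHB.2 (k v hv))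
      fun k v hv => k v (c.jH.1 hv)

/-- one of the Tate groups vanishes -/
theorem locy_one (hW : Wt p O) (h : Gl p a Q d g) (hV : V.LocP p) :
    ∃ i, yZ (p ^ a) (V.G Q g) (!i) := by
  obtain ⟨Z, j, r, -, -, c, H⟩ := h.cut V
  exact (loc_one hW h.gd H hV).imp fun i k => c.yZ_iff.2 k

/-- the tops of the Tate groups are zero or simple -/
theorem locy_top (hW : Wt p O) (h : Gl p a Q d g) (hV : V.LocP p) (i : Bool) :
    Smp (V.rs Q) (yA (p ^ a) (V.G Q g) i) (yP p (p ^ a) (V.G Q g) i) := by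
  obtain ⟨Z, j, r, hj, -, c, H⟩ := h.cut V
  refine locy_smp (r := r) hj (fun u hu => le_zP (c.sub hu)) fun S st h1 h2 => ?_
  exact (loc_top hW h.gd H hV i S st (fun v hv => h1 (c.jP.2 hv))
    fun v hv => c.jA.1 (h2 hv)).imp (fun k v hv => c.jP.2 (k hv)) fun k v hv => k (c.jA.1 hv)

/-- both Tate groups vanish exactly if the Tate group of the reduction does -/
theorem locy_H0 (hW : Wt p O) (h : Gl p a Q d g) (V : Lat O X) :
    yHA p (V.G Q g) ≤ yHB p (p ^ a) (V.G Q g) ↔ ∀ i, yZ (p ^ a) (V.G Q g) i := by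
  obtain ⟨Z, j, r, -, -, c, -⟩ := h.cut V
  rw [c.yH_iff]
  refine ⟨fun k i => c.yZ_iff.2 ?_, fun k => loc_H0 hW c.gq fun i => c.yZ_iff.1 (k i)⟩
  cases i
  · exact seq0 hW c.gq fun v hv => k v ⟨0, by rw [smul_zero]; exact hv⟩
  · refine seq1 hW fun v hv => ?_
    obtain ⟨w, x, e⟩ := k v hv
    exact ⟨_, zB_le c.gq false ⟨w, rfl⟩, x, e⟩

theorem Lcl.locP (hW : Wt p O) {P : Lat O X} (hL : Lcl p P) (hP : P.Hig) {π : P.V →ₗ[O] V.V}
    (hπ : P.Hom V π) (hs : Surjective π) : V.LocP p :=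
  loc_quot hW hP hL.loc hπ hs

end Pool.Agent.Lib.MP_1ae3da_al.CT.R5
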