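import Pool.Agent.Lib.MP_1ae3da_al.C.RLProj

set_option autoImplicit false
set_option linter.unusedSectionVars false

/-! Central operators on lattices that satisfy the criterion of Higman. -/

namespace Pool.Agent.Lib.MP_1ae3da_al.CT.R5

open Function

variable {O X : Type} [CommRing O] [IsDomain O] [IsDiscreteValuationRing O] [CharZero O]
  [Group X] [Finite X]

/-- the operator of a coefficient function -/
noncomputable def Lat.op (V : Lat O X) (a : X → O) : Module.End O V.V := ∑ᶠ x : X, a x • V.ρ x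

/-- non zero, and the only equivariant idempotents are `0` and `1` -/
def Lat.Ind (P : Lat O X) : Prop :=
  Nontrivial P.V ∧ ∀ f : Module.End O P.V, P.Hom P f → f * f = f → f = 0 ∨ f = 1

/-- `W` is a direct summand of `P` -/
structure Smd (W P : Lat O X) (j : W.V →ₗ[O] P.V) (r : P.V →ₗ[O] W.V) : Prop where
  hj : W.Hom P j
  hr : P.Hom W r
  rj : ∀ w, r (j w) = w

theorem Lat.Hom.op {V W : Lat O X} {f : V.V →ₗ[O] W.V} (h : V.Hom W f) (a : X → O) (v : V.V) :
    f (V.op a v) = W.op a (f v) := by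
  have := Fintype.ofFinite X
  simp only [Lat.op, finsum_eq_sum_of_fintype, LinearMap.sum_apply, LinearMap.smul_apply, map_sum,
    map_smul, h _ v]

theorem pres_op_hom (V : Lat O X) {a : X → O} (ha : ∀ x y, a (y * x * y⁻¹) = a x) :
    V.Hom V (V.op a) := by
  have := Fintype.ofFinite X
  intro y v
  simp only [Lat.op, finsum_eq_sum_of_fintype, LinearMap.sum_apply, LinearMap.smul_apply, map_sum,
    map_smul]
  rw [← Equiv.sum_comp (MulAut.conj y).toEquiv]
  refine Finset.sum_congr rfl fun x _ => ?_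
  change a (y * x * y⁻¹) • V.ρ (y * x * y⁻¹) (V.ρ y v) = _
  rw [ha, ← Module.End.mul_apply, ← map_mul, inv_mul_cancel_right, map_mul, Module.End.mul_apply]

theorem hom_zero {U V : Lat O X} {a : X → O} {c : O} (hc : c ≠ 0) (hU : U.op a = 0)
    (hV : V.op a = c • 1) {f : U.V →ₗ[O] V.V} (hf : U.Hom V f) : f = 0 := by
  refine LinearMap.ext fun v => rlsub_tf V hc ?_
  have := hf.op a v
  rw [hU, hV] at this
  simpa using this.symm

theorem hom_zero' {U V : Lat O X} {a : X → O} {c : O} (hc : c ≠ 0) (hU : U.op a = c • 1)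
    (hV : V.op a = 0) {f : U.V →ₗ[O] V.V} (hf : U.Hom V f) : f = 0 := by
  refine LinearMap.ext fun v => rlsub_tf V hc ?_
  have := hf.op a v
  rw [hU, hV] at this
  simpa using this

theorem Smd.hig {W P : Lat O X} {j : W.V →ₗ[O] P.V} {r : P.V →ₗ[O] W.V} (S : Smd W P j r)
    (hP : P.Hig) : W.Hig := by
  have := Fintype.ofFinite X
  obtain ⟨h, hh⟩ := rlproj_hig.1 hP
  refine rlproj_hig.2 ⟨r ∘ₗ h ∘ₗ j, fun w => ?_⟩
  have := congrArg r (hh (j w))
  rw [S.rj, map_sum] at this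
  refine Eq.trans (Finset.sum_congr rfl fun x _ => ?_) this
  simp only [LinearMap.comp_apply]
  rw [S.hr, S.hj]

/-- the image of an equivariant idempotent is a summand -/
theorem pres_smd {P : Lat O X} {e : Module.End O P.V} (he : P.Hom P e) (h2 : e * e = e) :
    ∃ (W : Lat O X) (j : W.V →ₗ[O] P.V) (r : P.V →ₗ[O] W.V), Smd W P j r ∧ ∀ v, j (r v) = e v := by
  obtain ⟨W, j, h1, hi, h3⟩ := exists_sub P he.range_st
  have hm : ∀ v, e v ∈ LinearMap.range j := fun v => h3 ▸ LinearMap.mem_range_self e v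
  let E := LinearEquiv.ofInjective j hi
  let r : P.V →ₗ[O] W.V := E.symm.toLinearMap ∘ₗ e.codRestrict _ hm
  have k : ∀ v, j (r v) = e v := fun v =>
    congrArg Subtype.val (E.apply_symm_apply (e.codRestrict _ hm v))
  refine ⟨W, j, r, ⟨h1, fun x v => hi ?_, fun w => hi ?_⟩, k⟩
  · rw [k, h1, k, he]
  · obtain ⟨v, hv⟩ : j w ∈ LinearMap.range e := h3 ▸ LinearMap.mem_range_self j w
    rw [k, ← hv, ← Module.End.mul_apply, h2]

theorem pres_one_sub {P : Lat O X} {e : Module.End O P.V} (he : P.Hom P e) : P.Hom P (1 - e) :=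
  fun x v => by simp [he x v]

/-- a decomposition into two summands -/
structure Dec (P W1 W2 : Lat O X) (j1 : W1.V →ₗ[O] P.V) (r1 : P.V →ₗ[O] W1.V)
    (j2 : W2.V →ₗ[O] P.V) (r2 : P.V →ₗ[O] W2.V) : Prop where
  s1 : Smd W1 P j1 r1
  s2 : Smd W2 P j2 r2
  add : ∀ v, j1 (r1 v) + j2 (r2 v) = v
  z1 : ∀ w, r1 (j2 w) = 0
  z2 : ∀ w, r2 (j1 w) = 0

theorem Smd.inj {W P : Lat O X} {j : W.V →ₗ[O] P.V} {r : P.V →ₗ[O] W.V} (S : Smd W P j r) :
    Injective j := LeftInverse.injective S.rj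

theorem Smd.sur {W P : Lat O X} {j : W.V →ₗ[O] P.V} {r : P.V →ₗ[O] W.V} (S : Smd W P j r) :
    Surjective r := LeftInverse.surjective S.rj

theorem Dec.ses {P W1 W2 : Lat O X} {j1 : W1.V →ₗ[O] P.V} {r1 : P.V →ₗ[O] W1.V}
    {j2 : W2.V →ₗ[O] P.V} {r2 : P.V →ₗ[O] W2.V} (D : Dec P W1 W2 j1 r1 j2 r2) :
    Ses W1 P W2 j1 r2 := by
  refine ⟨D.s1.hj, D.s2.hr, D.s1.inj, D.s2.sur, le_antisymm ?_ fun v hv => ⟨r1 v, ?_⟩⟩
  · rintro _ ⟨w, rfl⟩
    exact D.z2 w
  · have := D.add v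
    rwa [LinearMap.mem_ker.1 hv, map_zero, add_zero] at this

theorem pres_dec {P : Lat O X} {e : Module.End O P.V} (he : P.Hom P e) (h2 : e * e = e) :
    ∃ (W1 W2 : Lat O X) (j1 : W1.V →ₗ[O] P.V) (r1 : P.V →ₗ[O] W1.V) (j2 : W2.V →ₗ[O] P.V)
      (r2 : P.V →ₗ[O] W2.V), Dec P W1 W2 j1 r1 j2 r2 ∧ (∀ v, j1 (r1 v) = e v) ∧
        ∀ v, j2 (r2 v) = v - e v := by
  obtain ⟨W1, j1, r1, S1, k1⟩ := pres_smd he h2
  obtain ⟨W2, j2, r2, S2, k2⟩ := pres_smd (pres_one_sub he)
    (by rw [mul_sub, mul_one, sub_mul, one_mul, h2, sub_self, sub_zero])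
  have ee : ∀ v, e (e v) = e v := fun v => by rw [← Module.End.mul_apply, h2]
  have k2' : ∀ v, j2 (r2 v) = v - e v := fun v => by rw [k2]; rfl
  refine ⟨W1, W2, j1, r1, j2, r2, ⟨S1, S2, fun v => by rw [k1, k2', add_sub_cancel],
    fun w => S1.inj ?_, fun w => S2.inj ?_⟩, k1, k2'⟩
  · rw [k1, map_zero, ← S2.rj w, k2', map_sub, ee, sub_self]
  · rw [k2', map_zero, ← S1.rj w, k1, ee, sub_self]

theorem pres_pos {W : Lat O X} (h : Nontrivial W.V) : 0 < W.rk := Module.finrank_pos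

/-- induction over lattices by indecomposable summands -/
theorem hig_ind (T : Lat O X → Prop) (h0 : ∀ P : Lat O X, Subsingleton P.V → T P)
    (h1 : ∀ P : Lat O X, P.Hig → P.Ind → T P)
    (h2 : ∀ (P W1 W2 : Lat O X) (j1 : W1.V →ₗ[O] P.V) (r1 : P.V →ₗ[O] W1.V)
      (j2 : W2.V →ₗ[O] P.V) (r2 : P.V →ₗ[O] W2.V), Dec P W1 W2 j1 r1 j2 r2 → T W1 → T W2 → T P)
    (P : Lat O X) (hP : P.Hig) : T P := by
  generalize hn : P.rk = n
  induction n using Nat.strong_induction_on generalizing P with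
  | _ n ih =>
    rcases subsingleton_or_nontrivial P.V with hs | hs
    · exact h0 P hs
    by_cases hi : P.Ind
    · exact h1 P hP hi
    have : ∃ e : Module.End O P.V, P.Hom P e ∧ e * e = e ∧ e ≠ 0 ∧ e ≠ 1 := by
      by_contra c
      refine hi ⟨hs, fun f a b => ?_⟩
      by_contra d
      rw [not_or] at d
      exact c ⟨f, a, b, d.1, d.2⟩
    obtain ⟨e, he, ee, e0, e1⟩ := this
    obtain ⟨W1, W2, j1, r1, j2, r2, D, k1, k2⟩ := pres_dec he ee
    have hr := D.ses.rk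
    have n1 : Nontrivial W1.V := by
      by_contra c
      rw [not_nontrivial_iff_subsingleton] at c
      exact e0 (LinearMap.ext fun v => by
        rw [← k1, Subsingleton.elim (r1 v) 0, map_zero, LinearMap.zero_apply])
    have n2 : Nontrivial W2.V := by
      by_contra c
      rw [not_nontrivial_iff_subsingleton] at c
      refine e1 (LinearMap.ext fun v => ?_)
      have := k2 v
      rw [Subsingleton.elim (r2 v) 0, map_zero] at this
      exact (sub_eq_zero.1 this.symm).symm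
    have p1 := pres_pos n1
    have p2 := pres_pos n2
    exact h2 P W1 W2 j1 r1 j2 r2 D (ih W1.rk (by omega) W1 (D.s1.hig hP) rfl)
      (ih W2.rk (by omega) W2 (D.s2.hig hP) rfl)

/-- an operator that is `0` or `c` on the indecomposable lattices is `c` times an idempotent -/
theorem pres {a : X → O} {c : O}
    (h : ∀ P : Lat O X, P.Hig → P.Ind → P.op a = 0 ∨ P.op a = c • 1) (P : Lat O X) (hP : P.Hig) :
    ∃ e : Module.End O P.V, P.Hom P e ∧ e * e = e ∧ P.op a = c • e := by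
  refine hig_ind (fun P => ∃ e : Module.End O P.V, P.Hom P e ∧ e * e = e ∧ P.op a = c • e)
    (fun P hs => ⟨0, fun x v => by simp, by simp, LinearMap.ext fun v => Subsingleton.elim _ _⟩)
    (fun P hP hi => ?_) (fun P W1 W2 j1 r1 j2 r2 D a1 a2 => ?_) P hP
  · rcases h P hP hi with k | k
    · exact ⟨0, fun x v => by simp, by simp, by rw [k, smul_zero]⟩
    · exact ⟨1, fun x v => rfl, by simp, k⟩
  · obtain ⟨e1, b1, c1, d1⟩ := a1
    obtain ⟨e2, b2, c2, d2⟩ := a2
    have c1' : ∀ v, e1 (e1 v) = e1 v := fun v => by rw [← Module.End.mul_apply, c1]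
    have c2' : ∀ v, e2 (e2 v) = e2 v := fun v => by rw [← Module.End.mul_apply, c2]
    refine ⟨j1 ∘ₗ e1 ∘ₗ r1 + j2 ∘ₗ e2 ∘ₗ r2, fun x v => ?_, LinearMap.ext fun v => ?_,
      LinearMap.ext fun v => ?_⟩
    · simp only [LinearMap.add_apply, LinearMap.comp_apply, map_add]
      rw [D.s1.hr, D.s2.hr, b1, b2, D.s1.hj, D.s2.hj]
    · simp only [Module.End.mul_apply, LinearMap.add_apply, LinearMap.comp_apply, map_add, D.s1.rj,
        D.s2.rj, D.z1, D.z2, map_zero, add_zero, zero_add, c1', c2']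
    · conv_lhs => rw [← D.add v, map_add, ← D.s1.hj.op, ← D.s2.hj.op, d1, d2]
      simp only [LinearMap.smul_apply, LinearMap.add_apply, LinearMap.comp_apply, map_smul, smul_add]

theorem Lat.Hom.op_sub {W P : Lat O X} {j : W.V →ₗ[O] P.V} (hj : W.Hom P j) (hi : Injective j)
    {a : X → O} {c : O} (h : P.op a = c • 1) : W.op a = c • 1 :=
  LinearMap.ext fun w => hi (by rw [hj.op, h]; simp)

theorem Lat.Hom.op_quo {P V : Lat O X} {q : P.V →ₗ[O] V.V} (hq : P.Hom V q) (hs : Surjective q)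
    {a : X → O} {c : O} (h : P.op a = c • 1) : V.op a = c • 1 :=
  LinearMap.ext fun v => by
    obtain ⟨y, rfl⟩ := hs v
    rw [← hq.op, h]; simp

/-- a cover inside the part where the operator is `c` -/
theorem cover_cut {a : X → O} {c : O} (hc : c ≠ 0)
    (h : ∀ P : Lat O X, P.Hig → P.Ind → P.op a = 0 ∨ P.op a = c • 1) {V : Lat O X}
    (hV : V.op a = c • 1) :
    ∃ (W P : Lat O X) (j : W.V →ₗ[O] P.V) (q : P.V →ₗ[O] V.V), P.Hig ∧ Ses W P V j q ∧
      P.op a = c • 1 ∧ W.op a = c • 1 := by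
  obtain ⟨P0, q0, hP, hq, hs⟩ := rlproj_start V
  obtain ⟨e, he, ee, k⟩ := pres h P0 hP
  obtain ⟨P, j, r, S, jr⟩ := pres_smd he ee
  have qe : ∀ y, q0 (e y) = q0 y := fun y => by
    refine sub_eq_zero.1 (rlsub_tf V hc ?_)
    have := hq.op a y
    rw [k, hV] at this
    rw [smul_sub, sub_eq_zero]
    simpa using this
  have h1 : P.Hom V (q0 ∘ₗ j) := fun x v => by
    rw [LinearMap.comp_apply, S.hj, hq, LinearMap.comp_apply]
  have h2 : Surjective (q0 ∘ₗ j) := fun v => by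
    obtain ⟨y, rfl⟩ := hs v
    exact ⟨r y, by rw [LinearMap.comp_apply, jr, qe]⟩
  have h3 : P.op a = c • 1 := LinearMap.ext fun w => S.inj (by
    rw [S.hj.op, k, LinearMap.smul_apply, ← jr, S.rj]; simp)
  obtain ⟨W, j', T⟩ := exists_ses h1 h2
  exact ⟨W, P, j', _, S.hig hP, T, h3, T.hj.op_sub T.inj h3⟩

/-- a lattice on which a class operator does not vanish has an indecomposable summand with the
same property -/
theorem pres_local {a : X → O} (P : Lat O X) (hP : P.Hig) (h : P.op a ≠ 0) :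
    ∃ (W : Lat O X) (j : W.V →ₗ[O] P.V) (r : P.V →ₗ[O] W.V), Smd W P j r ∧ W.Hig ∧ W.Ind ∧
      W.op a ≠ 0 := by
  refine hig_ind (fun P => P.op a ≠ 0 → ∃ (W : Lat O X) (j : W.V →ₗ[O] P.V) (r : P.V →ₗ[O] W.V),
      Smd W P j r ∧ W.Hig ∧ W.Ind ∧ W.op a ≠ 0)
    (fun P hs h => absurd (LinearMap.ext fun v => Subsingleton.elim _ _) h)
    (fun P hP hi h => ⟨P, LinearMap.id, LinearMap.id, ⟨fun _ _ => rfl, fun _ _ => rfl, fun _ => rfl⟩,
      hP, hi, h⟩) (fun P W1 W2 j1 r1 j2 r2 D a1 a2 h => ?_) P hP h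
  have tr : ∀ {W W' : Lat O X} {j : W.V →ₗ[O] P.V} {r : P.V →ₗ[O] W.V} {j' : W'.V →ₗ[O] W.V}
      {r' : W.V →ₗ[O] W'.V}, Smd W P j r → Smd W' W j' r' → Smd W' P (j ∘ₗ j') (r' ∘ₗ r) :=
    fun S S' => ⟨fun x v => by rw [LinearMap.comp_apply, S'.hj, S.hj, LinearMap.comp_apply],
      fun x v => by rw [LinearMap.comp_apply, S.hr, S'.hr, LinearMap.comp_apply],
      fun w => by rw [LinearMap.comp_apply, LinearMap.comp_apply, S.rj, S'.rj]⟩
  by_cases c1 : W1.op a = 0
  · by_cases c2 : W2.op a = 0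
    · refine absurd (LinearMap.ext fun v => ?_) h
      rw [← D.add v, map_add, ← D.s1.hj.op, ← D.s2.hj.op, c1, c2]
      simp
    · obtain ⟨W, j, r, S, k⟩ := a2 c2
      exact ⟨W, _, _, tr D.s2 S, k⟩
  · obtain ⟨W, j, r, S, k⟩ := a1 c1
    exact ⟨W, _, _, tr D.s1 S, k⟩

/-- parity: if every proper non empty part has odd weight there are exactly two vertices -/
theorem edge_two {α : Type} [DecidableEq α] (S : Finset α) (l : α → ℤ) (h2 : 2 ≤ S.card)
    (h : ∀ A : Finset α, A ⊆ S → A.Nonempty → A ≠ S → Odd (∑ v ∈ A, l v)) : S.card = 2 := by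
  by_contra c
  obtain ⟨A, hA, k⟩ := Finset.exists_subset_card_eq h2
  obtain ⟨x, y, xy, rfl⟩ := Finset.card_eq_two.1 k
  have ne : ∀ B : Finset α, B.card ≤ 2 → B ≠ S := fun B hB e => by rw [e] at hB; omega
  have h1 := h {x} (fun z hz => hA (by rw [Finset.mem_singleton.1 hz]; simp)) (by simp)
    (ne _ (by simp))
  have h3 := h {y} (fun z hz => hA (by rw [Finset.mem_singleton.1 hz]; simp)) (by simp)
    (ne _ (by simp))
  have h4 := h {x, y} hA (by simp) (ne _ k.le)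
  rw [Finset.sum_pair xy] at h4
  rw [Finset.sum_singleton] at h1 h3
  exact (Int.not_odd_iff_even.2 (h1.add_odd h3)) h4

end Pool.Agent.Lib.MP_1ae3da_al.CT.R5
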