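import Pool.Agent.Lib.MP_1ae3da_al.Y.Dl
import Pool.Agent.Lib.MP_1ae3da_al.Y.Pres
import Pool.Agent.Lib.MP_1ae3da_al.Y.Cb
import Pool.Agent.Lib.MP_1ae3da_al.C.RLSch
import Pool.Agent.Lib.MP_1ae3da_al.C.RSq

set_option autoImplicit false
set_option linter.unusedSectionVars false

/-! Multiplicities and supports. -/

namespace Pool.Agent.Lib.MP_1ae3da_al.CT.R5

open Function Submodule

variable {F k X : Type} [Field F] [CharZero F] [IsAlgClosed F] [Field k] [Group X] [Finite X]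
  {p a : ℕ} [Fact p.Prime] {O R : Subring F} [IsDiscreteValuationRing O] {r : F → k}
  {GG : Subgroup (RingAut F)} {Q : Subgroup X} {ga : X → MonoidAlgebra F X} {d : Nz Q}
  {g : MonoidAlgebra O (Nz Q)} {e e' ψ η θ i ε : MonoidAlgebra F X}
  {γ : RingAut (MonoidAlgebra F X)} {om : X → F}
  {T : MonoidAlgebra F X →ₗ[F] MonoidAlgebra F X} {s : MonoidAlgebra F X → ℕ}

variable {V W P U : Lat O X}

/-- the character of a lattice as a linear form -/
noncomputable def mltL (V : Lat O X) : MonoidAlgebra F X →ₗ[F] F :=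
  Matrix.traceLinearMap (Fin V.rk) F F ∘ₗ rspR V (MonoidHom.id X)

theorem mltL_eq (V : Lat O X) (x : MonoidAlgebra F X) :
    V.chF F (cf (MonoidHom.id X) x) = mltL V x := (rspR_trace V _ x).symm

theorem mlt_fin {M : Type} [AddCommMonoid M] {u : Finset (MonoidAlgebra F X)}
    {S : Set (MonoidAlgebra F X)} (hu : (u : Set _) = S) (f : MonoidAlgebra F X → M) :
    ∑ᶠ y ∈ S, f y = ∑ y ∈ u, f y := by
  rw [← hu, finsum_mem_coe_finset]

theorem mult_ex (V : Lat O X) : ∃ s : MonoidAlgebra F X → ℕ, Mult V s := by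
  classical
  have h1 : ∀ e : MonoidAlgebra F X, ∃ n : ℕ, e ∈ Irr F (HX F (⊤ : Subgroup X)) →
      ∀ b, mltL V (b * e) = n * Chv F (HX F ⊤) e b := fun e => by
    by_cases he : e ∈ Irr F (HX F (⊤ : Subgroup X))
    · obtain ⟨n, -, -, h⟩ := rsq_mult V he
      exact ⟨n, fun _ => h⟩
    · exact ⟨0, fun h => absurd h he⟩
  choose s hs using h1
  obtain ⟨u, hu, h1⟩ := irr_fin (F := F) (⊤ : Subgroup X)
  refine ⟨s, fun x => ?_⟩
  rw [mltL_eq, mlt_fin hu]
  conv_lhs => rw [← mul_one x, ← h1, Finset.mul_sum, map_sum]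
  exact Finset.sum_congr rfl fun e he => hs e (hu ▸ Finset.mem_coe.2 he) x

theorem Mult.blk (h : Mult V s) (he : e ∈ Irr F (HX F (⊤ : Subgroup X)))
    (x : MonoidAlgebra F X) :
    V.chF F (cf (MonoidHom.id X) (x * e)) = s e * Chv F (HX F ⊤) e x := by
  obtain ⟨u, hu, -⟩ := irr_fin (F := F) (⊤ : Subgroup X)
  rw [h, mlt_fin hu, Finset.sum_eq_single e, chv_mul_e (rsp_nice ⊤) he (rsq_top x)]
  · intro e' h1 h2
    have h3 : e' ∈ Irr F (HX F (⊤ : Subgroup X)) := hu ▸ Finset.mem_coe.2 h1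
    have h4 := chv_smul (F := F) (S := HX F (⊤ : Subgroup X)) e' 0 0
    rw [zero_smul, zero_mul] at h4
    rw [← chv_mul_e (rsp_nice ⊤) h3 (rsq_top _), mul_assoc, Irr_orth he h3 h2.symm, mul_zero, h4,
      mul_zero]
  · exact fun k => absurd (Finset.mem_coe.1 (hu ▸ he)) k

theorem Mult.self (h : Mult V s) (he : e ∈ Irr F (HX F (⊤ : Subgroup X))) :
    V.chF F (cf (MonoidHom.id X) e) = s e * dg F (HX F ⊤) e := by
  have := h.blk he e
  rwa [he.2.1, chv_self (rsp_nice ⊤) he] at this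

theorem Mult.uniq {s' : MonoidAlgebra F X → ℕ} (h : Mult V s) (h' : Mult V s')
    (he : e ∈ Irr F (HX F (⊤ : Subgroup X))) : s e = s' e :=
  Nat.cast_injective (R := F) (mul_right_cancel₀ (Nat.cast_ne_zero.2 (dg_pos he).ne')
    ((h.self he).symm.trans (h'.self he)))

theorem Mult.congr (h : Mult V s) {s' : MonoidAlgebra F X → ℕ}
    (hs : ∀ e ∈ Irr F (HX F (⊤ : Subgroup X)), s e = s' e) : Mult V s' := by
  exact fun x => (h x).trans (finsum_mem_congr rfl fun e he => by rw [hs e he])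

theorem Mult.sup (h : Mult V s) :
    e ∈ Sup V ↔ e ∈ Irr F (HX F (⊤ : Subgroup X)) ∧ s e ≠ 0 := by
  exact and_congr_right fun he => by
    rw [h.self he, mul_ne_zero_iff, and_iff_left (Nat.cast_ne_zero.2 (dg_pos he).ne'),
      Nat.cast_ne_zero]

theorem Mult.g0 (h : Mult V s) (hγ : γ ∈ G0 O GG X) (he : e ∈ Irr F (HX F (⊤ : Subgroup X))) :
    s (γ e) = s e := by
  obtain ⟨σ, h1⟩ := rsq_chF V hγ
  have h2 := h1 e
  rw [h.self he, h.self ((irr_stb (rsq_g0 hγ).1 (rsq_g0 hγ).2).2 he), map_mul, map_natCast,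
    map_natCast, dg, dg_stb (rsq_g0 hγ).1 (rsq_g0 hγ).2] at h2
  exact Nat.cast_injective (R := F)
    (mul_right_cancel₀ (Nat.cast_ne_zero.2 (dg_pos he).ne') h2)

theorem Ses.chF {j : W.V →ₗ[O] P.V} {q : P.V →ₗ[O] V.V} (h : Ses W P V j q) (f : X → F) :
    P.chF F f = W.chF F f + V.chF F f := by
  have := Fintype.ofFinite X
  simp only [Lat.chF, finsum_eq_sum_of_fintype, h.ch, map_add, mul_add, Finset.sum_add_distrib]

theorem Ses.mult {s' : MonoidAlgebra F X → ℕ} {j : W.V →ₗ[O] P.V} {q : P.V →ₗ[O] V.V}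
    (h : Ses W P V j q) (h1 : Mult W s) (h2 : Mult V s') : Mult P (s + s') := fun x => by
  obtain ⟨u, hu, -⟩ := irr_fin (F := F) (⊤ : Subgroup X)
  rw [h.chF, h1, h2, mlt_fin hu, mlt_fin hu, mlt_fin hu, ← Finset.sum_add_distrib]
  exact Finset.sum_congr rfl fun e _ => by rw [Pi.add_apply, Nat.cast_add, add_mul]

/-- a lattice with the character of one block -/
theorem Mult.single (h : Mult V (({e} : Set (MonoidAlgebra F X)).indicator fun _ => 1))
    (he : e ∈ Irr F (HX F (⊤ : Subgroup X))) (x : X) :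
    ((V.ch x : O) : F) = Chv F (HX F ⊤) e (gu F X x) := by
  obtain ⟨u, hu, -⟩ := irr_fin (F := F) (⊤ : Subgroup X)
  rw [← rsq_chF_gu, h, mlt_fin hu, Finset.sum_eq_single e]
  · simp
  · intro e' _ h2
    simp [h2]
  · exact fun k => absurd (Finset.mem_coe.1 (hu ▸ he)) k

theorem sup_nt (he : e ∈ Sup V) : Nontrivial V.V := by
  by_contra h
  rw [not_nontrivial_iff_subsingleton] at h
  have := Fintype.ofFinite X
  refine he.2 ?_
  rw [Lat.chF, finsum_eq_sum_of_fintype]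
  refine Finset.sum_eq_zero fun x _ => ?_
  rw [Lat.ch, Subsingleton.elim (V.ρ x) 0, map_zero, map_zero, mul_zero]

theorem Ses.sup {j : W.V →ₗ[O] P.V} {π : P.V →ₗ[O] V.V} (h : Ses W P V j π) :
    Sup P = Sup W ∪ Sup V := by
  obtain ⟨s, h1⟩ := mult_ex (F := F) W
  obtain ⟨s', h2⟩ := mult_ex (F := F) V
  ext e
  rw [Set.mem_union, (h.mult h1 h2).sup, h1.sup, h2.sup, ← and_or_left, Pi.add_apply]
  exact and_congr_right fun _ => by omega

theorem sup_hom {f : V.V →ₗ[O] W.V} (hf : V.Hom W f) (h0 : f ≠ 0) :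
    (Sup V ∩ Sup W).Nonempty := by
  obtain ⟨I, j, hj, hi, hr⟩ := exists_sub W hf.range_st
  have hm : ∀ v, f v ∈ LinearMap.range j := fun v => hr ▸ LinearMap.mem_range_self f v
  let E := LinearEquiv.ofInjective j hi
  let q : V.V →ₗ[O] I.V := E.symm.toLinearMap ∘ₗ f.codRestrict _ hm
  have k : ∀ v, j (q v) = f v := fun v =>
    congrArg Subtype.val (E.apply_symm_apply (f.codRestrict _ hm v))
  have hq : V.Hom I q := fun x v => hi (by rw [k, hj, k, hf])
  have hs : Surjective q := fun m => by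
    obtain ⟨v, hv⟩ : j m ∈ LinearMap.range f := hr ▸ LinearMap.mem_range_self j m
    exact ⟨v, hi (by rw [k, hv])⟩
  have hn : Nontrivial I.V := by
    obtain ⟨v, hv⟩ : ∃ v, f v ≠ 0 := not_forall.1 fun z => h0 (LinearMap.ext z)
    exact ⟨q v, 0, fun z => hv (by rw [← k, z, map_zero])⟩
  obtain ⟨e, he⟩ := rsq_ne (F := F) hn
  obtain ⟨K, i, h1⟩ := exists_ses hq hs
  obtain ⟨S, s1, s2, s3, s4⟩ := exists_sat W hf.range_st
  obtain ⟨S', j', hj', hi', hr'⟩ := exists_sub W s1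
  obtain ⟨Z, π, hπ, hπs, hk⟩ := exists_quo W s1 s2
  have h2 : Ses S' W Z j' π := ⟨hj', hπ, hi', hπs, hr'.trans hk.symm⟩
  have hm' : ∀ m, j m ∈ LinearMap.range j' := fun m =>
    hr' ▸ s3 (hr ▸ LinearMap.mem_range_self j m)
  let E' := LinearEquiv.ofInjective j' hi'
  let u : I.V →ₗ[O] S'.V := E'.symm.toLinearMap ∘ₗ j.codRestrict _ hm'
  have k' : ∀ m, j' (u m) = j m := fun m =>
    congrArg Subtype.val (E'.apply_symm_apply (j.codRestrict _ hm' m))
  have h3 : ∀ x, I.ch x = S'.ch x := isog_ch (j := u)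
    (fun x m => hi' (by rw [k', hj', k', hj])) (fun m m' z => hi (by rw [← k', z, k'])) fun w => by
      obtain ⟨c, c0, hc⟩ := s4 (j' w) (hr' ▸ LinearMap.mem_range_self j' w)
      rw [← hr] at hc
      obtain ⟨m, hm⟩ := hc
      exact ⟨c, c0, m, hi' (by rw [k', hm, map_smul])⟩
  refine ⟨e, ?_, ?_⟩
  · rw [h1.sup]
    exact Or.inr he
  · rw [h2.sup]
    refine Or.inl ⟨he.1, ?_⟩
    have := he.2
    simp only [Lat.chF, h3] at this
    exact this

end Pool.Agent.Lib.MP_1ae3da_al.CT.R5
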