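import Pool.Agent.Lib.MP_1ae3da_al.Y.SemC
import Pool.Agent.Lib.MP_1ae3da_al.Y.TwG
import Pool.Agent.Lib.MP_1ae3da_al.Y.Grp
import Pool.Agent.Lib.MP_1ae3da_al.C.RLU0

set_option autoImplicit false
set_option linter.unusedSectionVars false

/-! Linked pairs of normalised intertwiners for sources. -/

namespace Pool.Agent.Lib.MP_1ae3da_al.CT.R5

open Function

variable {O X Y : Type} [CommRing O] [IsDomain O] [IsDiscreteValuationRing O] [CharZero O]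
  [Group X] [Finite X] [Group Y] [Finite Y] {p a : ℕ} {Q : Subgroup X} {d : Nz Q}
  {g : MonoidAlgebra O (Nz Q)} {V V' : Lat O X} {M M' : Lat O (Nz Q)} {i : Bool}
  {Φ : Submodule O (V.V × M.V)} {Φ' : Submodule O (V'.V × M'.V)}

theorem Semi.sca {σ : O ≃+* O} {b : Y ≃* Y} {V V' : Lat O Y} {T : V.V ≃+ V'.V}
    (h : Semi σ b V V' T) (k : V.Sca) : V'.Sca := fun f hf => by
  obtain ⟨w, h1, h2⟩ := h.symm.homC h.symm hf
  obtain ⟨c, rfl⟩ := k w h1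
  refine ⟨σ c, LinearMap.ext fun u => T.symm.injective ?_⟩
  rw [← h2, LinearMap.smul_apply, LinearMap.smul_apply, h.symm.smul, σ.symm_apply_apply]
  rfl

theorem yu0c_hom {Y : Type} [Group Y] [Finite Y] {V W : Lat O Y} {f : V.V →ₗ[O] W.V}
    (hf : V.Hom W f) (x : MonoidAlgebra O Y) (q : ℕ) (i : Bool) {v : V.V}
    (hv : v ∈ yA q (V.act x) i) : f v ∈ yA q (W.act x) i := by
  have e : f (yOp q (V.act x) i v) = yOp q (W.act x) i (f v) := by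
    cases i
    · change f (V.act x v - v) = W.act x (f v) - f v
      rw [map_sub, act_hom hf]
    · simp only [yOp, LinearMap.sum_apply, map_sum, ← map_pow, act_hom hf]
  exact e.symm.trans (by rw [show yOp q (V.act x) i v = 0 from hv, map_zero])

/-- an endomorphism that is the identity on the Tate group modulo `p` is invertible -/
theorem yu0c_bij (hW : Wt p O) {A B : Submodule O V.V} (h : Gr p A B Φ) (hS : V.Sca)
    (hM : Nontrivial M.V) {f : Module.End O V.V} (hf : V.Hom V f)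
    (k : ∀ v m, (v, m) ∈ Φ → (f v, m) ∈ Φ) : Bijective f := by
  obtain ⟨c, rfl⟩ := hS f hf
  refine hW.bij_of_cong _ fun v => ?_
  have hd : (p : O) ∣ c - 1 := by
    by_contra hn
    obtain ⟨m, hm⟩ := hW.loc_ne hM
    obtain ⟨v, hv⟩ := h.ran m
    obtain ⟨m', hm'⟩ := (h.kr ((c - 1) • m)).1 (by
      simpa [sub_smul] using Φ.sub_mem (Φ.smul_mem c hv) (k v m hv))
    obtain ⟨t, ht⟩ := ((hW.unit_iff _).2 hn).exists_left_inv
    exact hm ⟨t • m', by rw [smul_comm, ← hm', smul_smul, ht, one_smul]⟩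
  obtain ⟨t, ht⟩ := hd
  exact ⟨t • v, by rw [smul_smul, ← ht, sub_smul, one_smul]; rfl⟩

/-- two sources of the same type with scalar endomorphisms are isomorphic -/
theorem Wt.src_iso (hW : Wt p O) (h : Src p a Q g V M i Φ) (h' : Src p a Q g V' M' i Φ')
    (hS : V.Sca) (hS' : V'.Sca) (hM : Nontrivial M.V) (w' : M.V →ₗ[O] M'.V) (hw : M.Hom M' w')
    (hb : Bijective w') : ∃ w : V.V →ₗ[O] V'.V, V.Hom V' w ∧ Bijective w ∧
      ∀ v m, (v, m) ∈ Φ ↔ (w v, w' m) ∈ Φ' := by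
  obtain ⟨g', hg', e1, e2⟩ := hw.inv hb
  obtain ⟨f, hf, k1⟩ := h.out V' M' Φ' w' h'.tie hw
  obtain ⟨k, hk, k2⟩ := h'.out V M Φ g' h.tie hg'
  have b1 : Bijective (k ∘ₗ f) := yu0c_bij hW h.tie.gr hS hM
    (fun x v => by rw [LinearMap.comp_apply, hf, hk]; rfl) fun v m hm => by
      have := k2 _ _ (k1 v m hm)
      rwa [e1] at this
  have b2 : Bijective (f ∘ₗ k) := yu0c_bij hW h'.tie.gr hS' hb.1.nontrivial
    (fun x v => by rw [LinearMap.comp_apply, hk, hf]; rfl) fun v m hm => by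
      have := k1 _ _ (k2 v m hm)
      rwa [e2] at this
  have b3 : Bijective f := ⟨Injective.of_comp (f := k) b1.1, Surjective.of_comp (g := k) b2.2⟩
  refine ⟨f, hf, b3, fun v m => ⟨k1 v m, fun s => ?_⟩⟩
  obtain ⟨f', hf', e3, -⟩ := hf.inv b3
  have hv : v ∈ yA (p ^ a) ((V.rs Q).act g) i := e3 v ▸ yu0c_hom (V := V'.rs Q) (W := V.rs Q)
    (fun x => hf' x) g _ i ((h'.tie.gr.dom _).2 ⟨_, s⟩)
  obtain ⟨m1, k3⟩ := (h.tie.gr.dom v).1 hv
  obtain ⟨m2, e⟩ := (h'.tie.gr.kr (w' (m - m1))).1 (by simpa using Φ'.sub_mem s (k1 v m1 k3))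
  have k4 := (h.tie.gr.kr (m - m1)).2 ⟨g' m2, by rw [← map_smul, ← e, e1]⟩
  simpa using Φ.add_mem k3 k4

theorem Gl.nat_ex (h : Gl p a Q d g) (hW : Wt p O) (ht : Src p a Q g V M i Φ) (hM : Good g M)
    (hS : V.Sca) (σ : O ≃+* O) {α : X ≃* X} {β : Nz Q ≃* Nz Q} (hr : Res Q α β) (c : Cg p σ β g)
    (hψ : ∀ n, M.ch (β n) = σ (M.ch n)) :
    ∃ (G : V.V ≃+ V.V) (G' : M.V ≃+ M.V), Semi σ α V V G ∧ Semi σ β M M G' ∧
      ∀ v m, (v, m) ∈ Φ ↔ (G v, G' m) ∈ Φ := by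
  obtain ⟨V', G0, hG0⟩ := exists_semi σ α V
  obtain ⟨M', G0', hG0'⟩ := exists_semi σ β M
  obtain ⟨Φ', ht', hΦ⟩ := hG0.src hW.prime h.lo.pow hr c hG0' ht
  have hM' := hG0'.good hW.prime h.lo.pow c hM
  have hch : ∀ n, M'.ch n = M.ch n := fun n => by
    obtain ⟨n, rfl⟩ := β.surjective n
    rw [hG0'.ch, hψ]
  obtain ⟨f', hf', hb'⟩ := (h.lo.av hW).iso hW hM'.one hM'.ir hM.one hM.ir hch
  obtain ⟨f, hf, hb, hΦ2⟩ := hW.src_iso ht' ht (hG0.sca hS) hS hM'.ir.1 f' hf' hb'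
  refine ⟨G0.trans (LinearEquiv.ofBijective f hb).toAddEquiv,
    G0'.trans (LinearEquiv.ofBijective f' hb').toAddEquiv, rlu0_comp hG0 hf hb,
    rlu0_comp hG0' hf' hb', fun v m => ?_⟩
  exact (hΦ v m).trans (hΦ2 _ _)

theorem Gl.u_tot (h : Gl p a Q d g) (hW : Wt p O) (ht : Src p a Q g V M i Φ) (hM : Good g M)
    (hS : V.Sca) (hk : ¬ p ∣ V.rk) {α : X ≃* X} {β : Nz Q ≃* Nz Q} (hr : Res Q α β)
    (c : Cg p (RingEquiv.refl O) β g) (hψ : ∀ n, M.ch (β n) = M.ch n) :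
    ∃ w w', U0 p Q V M Φ α β w w' := by
  obtain ⟨G, G', hG, hG', hΦ⟩ := h.nat_ex hW ht hM hS (RingEquiv.refl O) hr c hψ
  obtain ⟨w, c, hc, hw, hwG⟩ := rlu0_norm hW hk hG
  obtain ⟨w', c', hc', hw', hwG'⟩ := rlu0_norm hW ((h.lo.av hW).rk hW hM.one hM.ir) hG'
  refine ⟨w, w', hw, hw', fun v m hvm => ?_⟩
  have h0 := (hΦ v m).1 hvm
  obtain ⟨k, hk1⟩ := hc
  obtain ⟨k', hk1'⟩ := hc'
  have e1 : c = 1 + k * (p : O) := by rw [mul_comm, ← hk1]; ring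
  have e2 : c' = 1 + (p : O) * k' := by rw [← hk1']; ring
  have h1 : (((p : O) • G v, 0) : V.V × M.V) ∈ Φ :=
    (ht.tie.gr.kl _).2 (mem_zP.2 ⟨0, Submodule.zero_mem _, G v, (ht.tie.gr.dom _).2 ⟨_, h0⟩,
      (zero_add _).symm⟩)
  have h2 : ((0, (p : O) • k' • G' m) : V.V × M.V) ∈ Φ := (ht.tie.gr.kr _).2 ⟨_, rfl⟩
  have h3 := Φ.add_mem (Φ.add_mem h0 (Φ.smul_mem k h1)) h2
  have e : ((w v, w' m) : V.V × M.V) =
      (G v, G' m) + k • ((p : O) • G v, 0) + (0, (p : O) • k' • G' m) := by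
    rw [hwG, hwG', e1, e2]
    refine Prod.ext ?_ ?_
    · simp [add_smul, mul_smul]
    · simp [add_smul, mul_smul]
  rw [e]
  exact h3

theorem Gl.u_fn (h : Gl p a Q d g) (hW : Wt p O) (ht : TieC p a g (V.rs Q) M i Φ) (hM : Good g M)
    (hS : V.Sca) (hk : ¬ p ∣ V.rk) {α : X ≃* X} {β : Nz Q ≃* Nz Q} {w x : Module.End O V.V}
    {w' x' : Module.End O M.V} (h1 : U0 p Q V M Φ α β w w') (h2 : U0 p Q V M Φ α β x x') :
    ∃ u : O, x = u • w ∧ x' = u • w' := by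
  obtain ⟨u, hu, hx⟩ := rlu0_sca hW.prime hS hk h1.l h2.l
  obtain ⟨u', hu', hx'⟩ := rlu0_sca hW.prime ((h.lo.av hW).sca hW hM.one hM.ir)
    ((h.lo.av hW).rk hW hM.one hM.ir) h1.r h2.r
  have hd : (p : O) ∣ u - u' := by
    by_contra hn
    obtain ⟨m0, hm0⟩ := hW.loc_ne hM.ir.1
    obtain ⟨m, rfl⟩ := (rlu0_bij h1.r).2 m0
    obtain ⟨v, hv⟩ := ht.gr.ran m
    have h3 := Φ.sub_mem (Φ.smul_mem u (h1.st v m hv)) (h2.st v m hv)
    have e : u • ((w v, w' m) : V.V × M.V) - (x v, x' m) = (0, (u - u') • w' m) := by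
      rw [hx, hx']
      refine Prod.ext ?_ ?_
      · simp
      · simp [sub_smul]
    rw [e] at h3
    obtain ⟨m', hm'⟩ := (ht.gr.kr _).1 h3
    obtain ⟨t, ht1⟩ := ((hW.unit_iff _).2 hn).exists_left_inv
    refine hm0 ⟨t • m', ?_⟩
    rw [smul_comm, ← hm', smul_smul, ht1, one_smul]
  have e := hW.mu_inj hu hu' hd
  exact ⟨u, hx, by rw [e]; exact hx'⟩

theorem Gl.u_loc (h : Gl p a Q d g) (ht : TieC p a g (V.rs Q) M i Φ) (n : Nz Q) {α : X ≃* X}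
    {β : Nz Q ≃* Nz Q} (ha : ∀ y, α y = n * y * (n : X)⁻¹) (hb : ∀ y, β y = n * y * n⁻¹) :
    U0 p Q V M Φ α β (V.ρ n) (M.ρ n) :=
  ⟨⟨rlu0_inn V n ha, h.cy.mup ((LinearMap.det : Module.End O V.V →* O).comp (V.rs Q).ρ) n⟩,
    ⟨rlu0_inn M n hb, h.cy.mup ((LinearMap.det : Module.End O M.V →* O).comp M.ρ) n⟩, ht.st n⟩

end Pool.Agent.Lib.MP_1ae3da_al.CT.R5
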