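import Pool.Agent.Lib.MP_1ae3da_al.C.RLU0
import Pool.Agent.Lib.MP_1ae3da_al.Y.U0C

set_option autoImplicit false
set_option linter.unusedSectionVars false

/-! Sources: non zero maps and semilinear symmetries. -/

namespace Pool.Agent.Lib.MP_1ae3da_al.CT.R5

open Function

variable {O X Y : Type} [CommRing O] [IsDomain O] [IsDiscreteValuationRing O] [CharZero O]
  [Group X] [Finite X] [Group Y] [Finite Y] {p a : ℕ} {Q : Subgroup X}
  {d : Nz Q} {g : MonoidAlgebra O (Nz Q)}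

variable {V : Lat O X} {M : Lat O (Nz Q)} {i : Bool} {Φ : Submodule O (V.V × M.V)}
  {α : X ≃* X} {β : Nz Q ≃* Nz Q}

theorem Src.ne (hW : Wt p O) (h : Src p a Q g V M i Φ) {V' : Lat O X} {M' : Lat O (Nz Q)}
    {Φ' : Submodule O (V'.V × M'.V)} (ht : TieC p a g (V'.rs Q) M' i Φ')
    {w' : M.V →ₗ[O] M'.V} (hw : M.Hom M' w') (hb : Bijective w') (hn : Nontrivial M.V) :
    ∃ w : V.V →ₗ[O] V'.V, V.Hom V' w ∧ w ≠ 0 := by
  obtain ⟨w, h1, h2⟩ := h.out V' M' Φ' w' ht hw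
  refine ⟨w, h1, fun e => ?_⟩
  obtain ⟨m, hm⟩ := hW.loc_ne hn
  obtain ⟨v, hv⟩ := h.tie.gr.ran m
  have k := h2 v m hv
  rw [e, LinearMap.zero_apply] at k
  obtain ⟨m', hm'⟩ := (ht.gr.kr _).1 k
  obtain ⟨m2, rfl⟩ := hb.2 m'
  exact hm ⟨m2, hb.1 (by rw [map_smul, hm'])⟩

/-- transport `V`, `M` by `(σ, α, β)` and by the inverse data (`exists_semi`, `Semi.tieC`,
`Good.iso`); `Src.out` gives semilinear maps `V → V` in both directions; the composites are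
scalars (`Sca`) congruent modulo `p` to unit scalars on `M`, so the maps are bijective. -/
theorem Wt.nat_exC (hW : Wt p O) (hG : Gl p a Q d g) (hs : Src p a Q g V M i Φ)
    (hM : Good g M) (hS : V.Sca) (σ : O ≃+* O) (hr : Res Q α β) (hc : Cg p σ β g)
    (hψ : ∀ n, M.ch (β n) = σ (M.ch n)) :
    ∃ (G : V.V ≃+ V.V) (G' : M.V ≃+ M.V), Semi σ α V V G ∧ Semi σ β M M G' ∧
      ∀ v m, (v, m) ∈ Φ ↔ (G v, G' m) ∈ Φ :=
  hG.nat_ex hW hs hM hS σ hr hc hψ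

end Pool.Agent.Lib.MP_1ae3da_al.CT.R5
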