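import Pool.Agent.Lib.MP_1ae3da_al.Y.Hig
import Pool.Agent.Lib.MP_1ae3da_al.Y.LocY

set_option autoImplicit false
set_option linter.unusedSectionVars false

/-! Proper quotients of a local projective lattice have a type. -/

namespace Pool.Agent.Lib.MP_1ae3da_al.CT.R5

open Function

variable {O X Y : Type} [CommRing O] [IsDomain O] [IsDiscreteValuationRing O] [CharZero O]
  [Group X] [Finite X] [Group Y] [Finite Y] {p a : ℕ} {Q : Subgroup X}
  {d : Nz Q} {g : MonoidAlgebra O (Nz Q)}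

/-- `Lcl.locP`, `locy_one`, `locy_top`, `Gl.acyc`, `Lo.sec`. -/
theorem Wt.quo (hW : Wt p O) (hG : Gl p a Q d g) {W P U U0 : Lat O X} (hP : P.Hig)
    (hl : Lcl p P) {π0 : P.V →ₗ[O] U0.V} (h0 : P.Hom U0 π0) (s0 : Surjective π0) {i0 : Bool}
    (hn : ¬ yZ (p ^ a) (U0.G Q g) i0) {j : W.V →ₗ[O] P.V} {π : P.V →ₗ[O] U.V}
    (h : Ses W P U j π) (nW : Nontrivial W.V) (nU : Nontrivial U.V) :
    ∃ (i : Bool) (M : Lat O (Nz Q)) (Φ : Submodule O (U.V × M.V)), Good g M ∧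
      yZ (p ^ a) (U.G Q g) (!i) ∧ TieC p a g (U.rs Q) M i Φ := by
  have hU := hl.locP hW hP h.hq h.sur
  obtain ⟨i, hi⟩ := locy_one hW hG hU
  have hz : ¬ yZ (p ^ a) (U.G Q g) i := fun k => by
    have hb := hG.acyc hW hl h0 s0 hn h.hq h.sur nU fun b => by
      cases i <;> cases b <;> assumption
    obtain ⟨w, hw⟩ := exists_ne (0 : W.V)
    have : j w ∈ LinearMap.ker π := h.ex ▸ LinearMap.mem_range_self j w
    exact hw (h.inj (hb.1 (by rw [LinearMap.mem_ker.1 this, map_zero, map_zero])))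
  obtain ⟨M, Φ, h1, h2⟩ := hG.lo.sec hW (locy_top hW hG hU i) hz
  exact ⟨i, M, Φ, h1, hi, h2⟩

end Pool.Agent.Lib.MP_1ae3da_al.CT.R5
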