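import Pool.Agent.Lib.MP_1ae3da_al.C.RLShift
import Pool.Agent.Lib.MP_1ae3da_al.Y.HbC

set_option autoImplicit false
set_option linter.unusedSectionVars false

/-! Dimension shifting for Tate groups modulo `p`. -/

namespace Pool.Agent.Lib.MP_1ae3da_al.CT.R5

open Function

variable {O : Type} [CommRing O] [IsDomain O] [IsDiscreteValuationRing O] [CharZero O] {p : ℕ}
  {W P V M : Type} [AddCommGroup W] [Module O W] [AddCommGroup P]
  [Module O P] [AddCommGroup V] [Module O V] [AddCommGroup M] [Module O M]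
  {j : W →ₗ[O] P} {q : P →ₗ[O] V} {aW bW : Module.End O W} {aP bP : Module.End O P}
  {aV bV : Module.End O V}

/-- the connecting relation respects boundaries modulo `c` -/
theorem RlsD.bdP (h : RlsD j q aW bW aP bP aV bV) (c : O) {y : P} {w : W} (e : aP y = j w) :
    q y ∈ zP c (LinearMap.ker aV) (LinearMap.range bV) ↔
      w ∈ zP c (LinearMap.ker bW) (LinearMap.range aW) := by
  have k : ∀ {y' : P} {w' : W}, aP y' = j w' →
      (q y - c • q y' ∈ LinearMap.range bV ↔ w - c • w' ∈ LinearMap.range aW) := fun e' => by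
    rw [← map_smul, ← map_sub]
    exact h.bd (by rw [map_sub, map_sub, map_smul, map_smul, e, e'])
  rw [mem_zP, mem_zP]
  constructor
  · rintro ⟨b, hb, v, hv, e1⟩
    obtain ⟨y', w', rfl, e'⟩ := h.dom hv
    exact ⟨_, (k e').1 (by rwa [e1, add_sub_cancel_right]), w', h.ran' e',
      (sub_add_cancel _ _).symm⟩
  · rintro ⟨b, hb, w', hw, e1⟩
    obtain ⟨y', e'⟩ := h.ran hw
    exact ⟨_, (k e').2 (by rwa [e1, add_sub_cancel_right]), q y', h.dom' e',
      (sub_add_cancel _ _).symm⟩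

/-- fullness passes through the connecting relation -/
theorem RlsD.full (h : RlsD j q aW bW aP bP aV bV) (c d : O) :
    (∀ v ∈ LinearMap.ker aV, d • v ∈ LinearMap.range bV →
      v ∈ zP c (LinearMap.ker aV) (LinearMap.range bV)) ↔
    ∀ w ∈ LinearMap.ker bW, d • w ∈ LinearMap.range aW →
      w ∈ zP c (LinearMap.ker bW) (LinearMap.range aW) := by
  have k : ∀ {y : P} {w : W}, aP y = j w →
      (d • q y ∈ LinearMap.range bV ↔ d • w ∈ LinearMap.range aW) := fun e => by
    rw [← map_smul]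
    exact h.bd (by rw [map_smul, map_smul, e])
  constructor
  · intro H w hw hd
    obtain ⟨y, e⟩ := h.ran hw
    exact (h.bdP c e).1 (H _ (h.dom' e) ((k e).2 hd))
  · intro H v hv hd
    obtain ⟨y, w, rfl, e⟩ := h.dom hv
    exact (h.bdP c e).2 (H _ (h.ran' e) ((k e).1 hd))

/-- the graph modulo `p`, from the quotient to the kernel -/
theorem RlsD.grP (h : RlsD j q aW bW aP bP aV bV) {Φ : Submodule O (V × M)}
    (g : Gr p (LinearMap.ker aV) (zP (p : O) (LinearMap.ker aV) (LinearMap.range bV)) Φ) :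
    Gr p (LinearMap.ker bW) (zP (p : O) (LinearMap.ker bW) (LinearMap.range aW))
      (rlsG j q aP Φ) where
  dom w := by
    constructor
    · intro hw
      obtain ⟨y, e⟩ := h.ran hw
      obtain ⟨m, hm⟩ := (g.dom _).1 (h.dom' e)
      exact ⟨m, y, e, hm⟩
    · rintro ⟨m, y, e, -⟩
      exact h.ran' e
  ran m := by
    obtain ⟨v, hv⟩ := g.ran m
    obtain ⟨y, w, rfl, e⟩ := h.dom ((g.dom v).2 ⟨m, hv⟩)
    exact ⟨w, y, e, hv⟩
  kl w := by
    constructor
    · rintro ⟨y, e, k⟩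
      exact (h.bdP _ e).1 ((g.kl _).1 k)
    · intro hw
      have hle : LinearMap.range aW ≤ LinearMap.ker bW := by
        rintro _ ⟨u, rfl⟩
        exact h.ran' (h.ja u).symm
      obtain ⟨y, e⟩ := h.ran (zP_le hle hw)
      exact ⟨y, e, (g.kl _).2 ((h.bdP _ e).2 hw)⟩
  kr m := by
    rw [← g.kr]
    constructor
    · rintro ⟨y, e, k⟩
      have k0 := (g.kl _).2 ((h.bdP _ e).2 (Submodule.zero_mem _))
      simpa using Φ.sub_mem k k0
    · intro k
      exact ⟨0, by simp, by simpa using k⟩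

/-- the graph composed with the connecting relation in the other direction -/
def rlsH (j : W →ₗ[O] P) (q : P →ₗ[O] V) (aP : Module.End O P) (Φ : Submodule O (W × M)) :
    Submodule O (V × M) where
  carrier := {x | ∃ y w, aP y = j w ∧ q y = x.1 ∧ (w, x.2) ∈ Φ}
  zero_mem' := ⟨0, 0, by simp, by simp, Φ.zero_mem⟩
  add_mem' := by
    rintro a b ⟨y, w, h1, h2, h3⟩ ⟨z, u, h4, h5, h6⟩
    exact ⟨y + z, w + u, by simp [h1, h4], by simp [h2, h5], Φ.add_mem h3 h6⟩
  smul_mem' := by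
    rintro c a ⟨y, w, h1, h2, h3⟩
    exact ⟨c • y, c • w, by simp [h1], by simp [h2], Φ.smul_mem c h3⟩

/-- the graph modulo `p`, from the kernel to the quotient -/
theorem RlsD.grH (h : RlsD j q aW bW aP bP aV bV) {Φ : Submodule O (W × M)}
    (g : Gr p (LinearMap.ker bW) (zP (p : O) (LinearMap.ker bW) (LinearMap.range aW)) Φ) :
    Gr p (LinearMap.ker aV) (zP (p : O) (LinearMap.ker aV) (LinearMap.range bV))
      (rlsH j q aP Φ) where
  dom v := by
    constructor
    · intro hv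
      obtain ⟨y, w, rfl, e⟩ := h.dom hv
      obtain ⟨m, hm⟩ := (g.dom _).1 (h.ran' e)
      exact ⟨m, y, w, e, rfl, hm⟩
    · rintro ⟨m, y, w, e, rfl, -⟩
      exact h.dom' e
  ran m := by
    obtain ⟨w, hw⟩ := g.ran m
    obtain ⟨y, e⟩ := h.ran ((g.dom w).2 ⟨m, hw⟩)
    exact ⟨q y, y, w, e, rfl, hw⟩
  kl v := by
    constructor
    · rintro ⟨y, w, e, rfl, k⟩
      exact (h.bdP _ e).2 ((g.kl _).1 k)
    · intro hv
      have hle : LinearMap.range bV ≤ LinearMap.ker aV := by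
        rintro _ ⟨u, rfl⟩
        obtain ⟨z, rfl⟩ := h.sur u
        rw [LinearMap.mem_ker, ← h.qb, ← h.qa, h.ab, map_zero]
      obtain ⟨y, w, rfl, e⟩ := h.dom (zP_le hle hv)
      exact ⟨y, w, e, rfl, (g.kl _).2 ((h.bdP _ e).1 hv)⟩
  kr m := by
    rw [← g.kr]
    constructor
    · rintro ⟨y, w, e, k0, k⟩
      have k1 := (g.kl _).2 ((h.bdP _ e).1 (by rw [k0]; exact Submodule.zero_mem _))
      simpa using Φ.sub_mem k k1
    · intro k
      exact ⟨0, 0, by simp, by simp, k⟩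

/-- naturality when the operator commutes with the maps -/
theorem rlsG_st {Φ : Submodule O (V × M)} {nW : W → W} {nP : P → P} {nV : V → V} {nM : M → M}
    (hj : ∀ w, j (nW w) = nP (j w)) (hq : ∀ y, q (nP y) = nV (q y))
    (ha : ∀ y, aP (nP y) = nP (aP y)) (st : ∀ v m, (v, m) ∈ Φ → (nV v, nM m) ∈ Φ) (w : W) (m : M)
    (h : (w, m) ∈ rlsG j q aP Φ) : (nW w, nM m) ∈ rlsG j q aP Φ := by
  obtain ⟨y, e, k⟩ := h
  exact ⟨nP y, by rw [ha, e, hj], by rw [hq]; exact st _ _ k⟩

theorem rlsH_st {Φ : Submodule O (W × M)} {nW : W → W} {nP : P → P} {nV : V → V} {nM : M → M}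
    (hj : ∀ w, j (nW w) = nP (j w)) (hq : ∀ y, q (nP y) = nV (q y))
    (ha : ∀ y, aP (nP y) = nP (aP y)) (st : ∀ w m, (w, m) ∈ Φ → (nW w, nM m) ∈ Φ) (v : V) (m : M)
    (h : (v, m) ∈ rlsH j q aP Φ) : (nV v, nM m) ∈ rlsH j q aP Φ := by
  obtain ⟨y, w, e, k0, k⟩ := h
  exact ⟨nP y, nW w, by rw [ha, e, hj], by rw [hq]; exact congrArg nV k0, st _ _ k⟩

theorem shift_pow {gP : Module.End O P} {gV : Module.End O V} (hg : ∀ y, q (gP y) = gV (q y))
    (t : ℕ) (y : P) : q ((gP ^ t) y) = (gV ^ t) (q y) := by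
  induction t generalizing y with
  | zero => rfl
  | succ t ih => rw [pow_succ, pow_succ, Module.End.mul_apply, Module.End.mul_apply, ih, hg]

theorem shift_sum {gP : Module.End O P} {gV : Module.End O V} (hg : ∀ y, q (gP y) = gV (q y))
    (t : ℕ) (y : P) :
    q ((∑ s ∈ Finset.range t, gP ^ s) y) = (∑ s ∈ Finset.range t, gV ^ s) (q y) := by
  rw [LinearMap.sum_apply, LinearMap.sum_apply, map_sum]
  exact Finset.sum_congr rfl fun s _ => shift_pow hg s y

/-- naturality in degree zero: the map on `M` is twisted by the exponent -/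
theorem rlsG_tw {gP : Module.End O P} {gV : Module.End O V} (hg : ∀ y, q (gP y) = gV (q y))
    {B : Submodule O V} {Φ : Submodule O (V × M)} (g : Gr p (LinearMap.ker (gV - 1)) B Φ)
    {nW : W → W} {nP : P →+ P} {nV : V → V} {nM : M → M} {t : ℕ} {ω : O}
    (hω : (p : O) ∣ ω - t) (hj : ∀ w, j (nW w) = nP (j w)) (hq : ∀ y, q (nP y) = nV (q y))
    (ht : ∀ y, nP (gP y) = (gP ^ t) (nP y)) (st : ∀ v m, (v, m) ∈ Φ → (nV v, nM m) ∈ Φ)
    (w : W) (m : M) (h : (w, m) ∈ rlsG j q (gP - 1) Φ) :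
    (nW w, ω • nM m) ∈ rlsG j q (gP - 1) Φ := by
  obtain ⟨y, e, k⟩ := h
  obtain ⟨c, hc⟩ := hω
  refine ⟨(∑ s ∈ Finset.range t, gP ^ s) (nP y), ?_, ?_⟩
  · change (gP - 1) _ = j (nW w)
    change (gP - 1) y = j w at e
    rw [← Module.End.mul_apply, mul_geom_sum, hj, ← e, LinearMap.sub_apply, LinearMap.sub_apply,
      map_sub, ht]
    rfl
  · have k1 := st _ _ k
    have k2 : gV (nV (q y)) = nV (q y) := sub_eq_zero.1 ((g.dom _).2 ⟨_, k1⟩)
    have k3 := (g.kr ((p : O) • c • nM m)).2 ⟨_, rfl⟩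
    have k4 := Φ.add_mem (Φ.smul_mem (t : O) k1) k3
    have e3 : ω • nM m = (t : O) • nM m + (p : O) • c • nM m := by
      rw [smul_smul, ← hc, ← add_smul, add_sub_cancel]
    change (q _, ω • nM m) ∈ Φ
    rw [shift_sum hg, hq, rls_fix k2, e3]
    simpa using k4

theorem shift_op {gP : Module.End O P} {gV : Module.End O V} (hg : ∀ y, q (gP y) = gV (q y))
    (n : ℕ) (i : Bool) (y : P) : q (rlsOp n gP i y) = rlsOp n gV i (q y) := by
  cases i
  · change q ((gP - 1) y) = (gV - 1) (q y)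
    rw [LinearMap.sub_apply, LinearMap.sub_apply, map_sub, hg]
    rfl
  · exact shift_sum hg n y

/-- the complex of three compatible endomorphisms -/
theorem shift_D {n : ℕ} {gW : Module.End O W} {gP : Module.End O P} {gV : Module.End O V}
    (inj : Injective j) (sur : Surjective q) (ex : LinearMap.range j = LinearMap.ker q)
    (hj : ∀ w, j (gW w) = gP (j w)) (hq : ∀ y, q (gP y) = gV (q y)) (hg : gP ^ n = 1)
    (hP : ∀ i, zA n gP i ≤ zB n gP i) (i : Bool) :
    RlsD j q (rlsOp n gW i) (rlsOp n gW (!i)) (rlsOp n gP i) (rlsOp n gP (!i))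
      (rlsOp n gV i) (rlsOp n gV (!i)) where
  inj := inj
  sur := sur
  ex := ex
  ja := shift_op hj n i
  jb := shift_op hj n (!i)
  qa := shift_op hq n i
  qb := shift_op hq n (!i)
  ab := rls_zero hg i
  ba y := by simpa using rls_zero hg (!i) y
  za := by
    rw [← rls_A, ← rls_B]
    exact hP i
  zb := by
    have k := hP (!i)
    rwa [rls_A, rls_B, Bool.not_not] at k

section
variable {n : ℕ} {gW : Module.End O W} {gP : Module.End O P} {gV : Module.End O V} {i : Bool}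
  (h : RlsD j q (rlsOp n gW i) (rlsOp n gW (!i)) (rlsOp n gP i) (rlsOp n gP (!i))
    (rlsOp n gV i) (rlsOp n gV (!i)))
include h

theorem shift_z : zA n gV i ≤ zB n gV i ↔ zA n gW (!i) ≤ zB n gW (!i) := by
  rw [rls_A, rls_B, rls_A, rls_B, Bool.not_not]
  exact h.z

theorem shift_full (c d : O) :
    (∀ v ∈ zA n gV i, d • v ∈ zB n gV i → v ∈ zP c (zA n gV i) (zB n gV i)) ↔
      ∀ w ∈ zA n gW (!i), d • w ∈ zB n gW (!i) → w ∈ zP c (zA n gW (!i)) (zB n gW (!i)) := by
  rw [rls_A, rls_B, rls_A, rls_B, Bool.not_not]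
  exact h.full c d

theorem shift_gr {Φ : Submodule O (V × M)}
    (g : Gr p (zA n gV i) (zP (p : O) (zA n gV i) (zB n gV i)) Φ) :
    Gr p (zA n gW (!i)) (zP (p : O) (zA n gW (!i)) (zB n gW (!i)))
      (rlsG j q (rlsOp n gP i) Φ) := by
  rw [rls_A, rls_B] at g
  rw [rls_A, rls_B, Bool.not_not]
  exact h.grP g

theorem shift_gr' {Φ : Submodule O (W × M)}
    (g : Gr p (zA n gW (!i)) (zP (p : O) (zA n gW (!i)) (zB n gW (!i))) Φ) :
    Gr p (zA n gV i) (zP (p : O) (zA n gV i) (zB n gV i)) (rlsH j q (rlsOp n gP i) Φ) := by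
  rw [rls_A, rls_B, Bool.not_not] at g
  rw [rls_A, rls_B]
  exact h.grH g

end

/-- the norm commutes with a map that raises `g` to a power prime to its order -/
theorem shift_nm {n t : ℕ} {g : Module.End O P} (hg : g ^ n = 1) (hc : Nat.Coprime t n)
    {nP : P →+ P} (ht : ∀ y, nP (g y) = (g ^ t) (nP y)) (y : P) :
    rlsOp n g true (nP y) = nP (rlsOp n g true y) := by
  have h1 : ∀ (s : ℕ) y, nP ((g ^ s) y) = (g ^ (t * s)) (nP y) := fun s => by
    induction s with
    | zero => intro y; rfl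
    | succ s ih =>
      intro y
      rw [pow_succ, Module.End.mul_apply, ih, ht, ← Module.End.mul_apply, ← pow_add, mul_add,
        mul_one]
  change (∑ s ∈ Finset.range n, g ^ s) (nP y) = nP ((∑ s ∈ Finset.range n, g ^ s) y)
  rw [LinearMap.sum_apply, LinearMap.sum_apply, map_sum]
  simp only [h1]
  rcases Nat.eq_zero_or_pos n with rfl | hn
  · simp
  have inj : ∀ a ∈ Finset.range n, ∀ b ∈ Finset.range n, t * a % n = t * b % n → a = b :=
    fun a ha b hb e => Nat.ModEq.eq_of_lt_of_lt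
      (Nat.ModEq.cancel_left_of_coprime hc.symm e) (Finset.mem_range.1 ha) (Finset.mem_range.1 hb)
  refine (Finset.sum_bij (fun s _ => t * s % n) (fun s _ => Finset.mem_range.2 (Nat.mod_lt _ hn))
    (fun a ha b hb => inj a ha b hb) (fun b hb => ?_) fun s _ => ?_).symm
  · obtain ⟨a, ha, e⟩ := Finset.surj_on_of_inj_on_of_card_le (fun s _ => t * s % n)
      (fun s _ => Finset.mem_range.2 (Nat.mod_lt _ hn)) (fun a b ha hb => inj a ha b hb) le_rfl b hb
    exact ⟨a, ha, e.symm⟩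
  · rw [← pow_eq_pow_mod _ hg]

end Pool.Agent.Lib.MP_1ae3da_al.CT.R5
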