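import Pool.Agent.Lib.MP_1ae3da_al.Y.L1c
import Pool.Agent.Lib.MP_1ae3da_al.Y.Shift
import Pool.Agent.Lib.MP_1ae3da_al.Y.HbT
import Pool.Agent.Lib.MP_1ae3da_al.Y.Cut
import Pool.Agent.Lib.MP_1ae3da_al.Y.HigA

set_option autoImplicit false
set_option linter.unusedSectionVars false

/-! Dimension shift for the twisted generator. -/

namespace Pool.Agent.Lib.MP_1ae3da_al.CT.R5

open Function

variable {O X Y : Type} [CommRing O] [IsDomain O] [IsDiscreteValuationRing O] [CharZero O]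
  [Group X] [Finite X] [Group Y] [Finite Y] {p a : ℕ}

section
variable {U : Type} [AddCommGroup U] [Module O U] {q : ℕ} {G : Module.End O U}

theorem ysh_zero (hG : G ^ (q + 1) = G) (i : Bool) (v : U) : yOp q G i (yOp q G (!i) v) = 0 := by
  have e : ∑ j ∈ Finset.range q, G ^ (j + 1) = G * ∑ j ∈ Finset.range q, G ^ j := by
    simp only [Finset.mul_sum, pow_succ']
  have e1 : (∑ j ∈ Finset.range q, G ^ (j + 1)) * (G - 1) = 0 := by
    rw [e, mul_assoc, geom_sum_mul, mul_sub, ← pow_succ', hG, mul_one, sub_self]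
  have e2 : (G - 1) * ∑ j ∈ Finset.range q, G ^ (j + 1) = 0 := by
    rw [← e1]
    exact (Commute.sum_right _ _ _ fun j _ =>
      (Commute.self_pow G (j + 1)).sub_left (Commute.one_left _)).eq
  cases i
  · exact LinearMap.congr_fun e2 v
  · exact LinearMap.congr_fun e1 v

end

variable {K : Subgroup Y} {d : Y} {g : MonoidAlgebra O Y}

theorem Lo.gq (h : Lo p a K d g) (V : Lat O Y) : V.act g ^ (p ^ a + 1) = V.act g := by
  rw [← map_pow, h.pow]

theorem ysh_cj (V : Lat O Y) {n : Y} {t : ℕ}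
    (e : MonoidAlgebra.of O Y n * g = g ^ t * MonoidAlgebra.of O Y n) (v : V.V) :
    V.ρ n (V.act g v) = (V.act g ^ t) (V.ρ n v) := by
  have := LinearMap.congr_fun (congrArg V.act e) v
  rwa [map_mul, map_mul, act_of, map_pow] at this

variable {W P V M : Lat O Y} {j : W.V →ₗ[O] P.V} {s : P.V →ₗ[O] V.V}

theorem ysh_D (h : Lo p a K d g) (S : Ses W P V j s) (hP : ∀ i, yZ (p ^ a) (P.act g) i)
    (i : Bool) : RlsD j s (yOp (p ^ a) (W.act g) i) (yOp (p ^ a) (W.act g) (!i))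
      (yOp (p ^ a) (P.act g) i) (yOp (p ^ a) (P.act g) (!i))
      (yOp (p ^ a) (V.act g) i) (yOp (p ^ a) (V.act g) (!i)) where
  inj := S.inj
  sur := S.sur
  ex := S.ex
  ja := yhbt_op (act_hom S.hj g) i
  jb := yhbt_op (act_hom S.hj g) (!i)
  qa := yhbt_op (act_hom S.hq g) i
  qb := yhbt_op (act_hom S.hq g) (!i)
  ab := ysh_zero (h.gq P) i
  ba y := by simpa using ysh_zero (h.gq P) (!i) y
  za := hP i
  zb := by
    have k := hP (!i)
    rwa [yZ, yA, yB, Bool.not_not] at k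

theorem ysh_z (h : Lo p a K d g) (S : Ses W P V j s) (hP : ∀ i, yZ (p ^ a) (P.act g) i)
    (i : Bool) : yZ (p ^ a) (V.act g) i ↔ yZ (p ^ a) (W.act g) (!i) := by
  cases i
  · exact (ysh_D h S hP false).z
  · exact (ysh_D h S hP true).z

theorem ysh_full (h : Lo p a K d g) (S : Ses W P V j s) (hP : ∀ i, yZ (p ^ a) (P.act g) i)
    (i : Bool) : yFull p a (V.act g) i ↔ yFull p a (W.act g) (!i) := by
  cases i
  · exact (ysh_D h S hP false).full _ _
  · exact (ysh_D h S hP true).full _ _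

theorem Lo.sh1 (h : Lo p a K d g) (hp : p.Prime) (S : Ses W P V j s)
    (hP : ∀ i, yZ (p ^ a) (P.act g) i) {Φ : Submodule O (V.V × M.V)}
    (t : TieC p a g V M true Φ) :
    TieC p a g W M false (rlsG j s (yOp (p ^ a) (P.act g) true) Φ) :=
  ⟨(ysh_D h S hP true).grP t.gr, fun n =>
    rlsG_st (S.hj n) (S.hq n) (h.nm hp P.ρ n) (t.st n)⟩

theorem Lo.sh1' (h : Lo p a K d g) (hp : p.Prime) (S : Ses W P V j s)
    (hP : ∀ i, yZ (p ^ a) (P.act g) i) {Φ : Submodule O (W.V × M.V)}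
    (t : TieC p a g W M false Φ) :
    TieC p a g V M true (rlsH j s (yOp (p ^ a) (P.act g) true) Φ) :=
  ⟨(ysh_D h S hP true).grH t.gr, fun n =>
    rlsH_st (S.hj n) (S.hq n) (h.nm hp P.ρ n) (t.st n)⟩

theorem Lo.sh0 (h : Lo p a K d g) {ω : Y →* Oˣ} (hω : OmC p K d ω) (S : Ses W P V j s)
    (hP : ∀ i, yZ (p ^ a) (P.act g) i) {Φ : Submodule O (V.V × M.V)}
    (t : TieC p a g V M false Φ) :
    TieC p a g W (M.sc ω) true (rlsG j s (yOp (p ^ a) (P.act g) false) Φ) := by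
  refine ⟨(ysh_D h S hP false).grP t.gr, fun n w m k => ?_⟩
  obtain ⟨i, hi, e⟩ := h.cj n
  exact rlsG_tw (act_hom S.hq g) t.gr (nP := (P.ρ n).toAddMonoidHom) (hω n i e) (S.hj n) (S.hq n)
    (ysh_cj P (h.conj n i (Nat.pos_of_ne_zero fun z => hi (z ▸ dvd_zero p)) e)) (t.st n) w m k

theorem Ses.rs {W P V : Lat O X} {j : W.V →ₗ[O] P.V} {s : P.V →ₗ[O] V.V} (S : Ses W P V j s)
    (Q : Subgroup X) : Ses (W.rs Q) (P.rs Q) (V.rs Q) j s :=
  ⟨fun n => S.hj n, fun n => S.hq n, S.inj, S.sur, S.ex⟩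

end Pool.Agent.Lib.MP_1ae3da_al.CT.R5
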