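import Pool.Agent.Lib.MP_1ae3da_al.Y.Act
import Pool.Agent.Lib.MP_1ae3da_al.Y.Shift
import Pool.Agent.Lib.MP_1ae3da_al.Y.ShY

set_option autoImplicit false
set_option linter.unusedSectionVars false

/-! Dimension shifting (wrappers of Y/Shift: `RlsD.grP`, `rlsG_st`, `rlsG_tw`, `RlsD.z`). -/

namespace Pool.Agent.Lib.MP_1ae3da_al.CT.R5

open Function

variable {O X Y : Type} [CommRing O] [IsDomain O] [IsDiscreteValuationRing O] [CharZero O]
  [Group X] [Finite X] [Group Y] [Finite Y] {p a : ℕ} {Q : Subgroup X}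
  {K : Subgroup Y} {d : Y} {g : MonoidAlgebra O Y}

variable {W P V M : Lat O Y} {j : W.V →ₗ[O] P.V} {π : P.V →ₗ[O] V.V}
  {Φ : Submodule O (V.V × M.V)}

theorem Lo.rls (h : Lo p a K d g) (hs : Ses W P V j π) (hP : ∀ i, yZ (p ^ a) (P.act g) i)
    (i : Bool) :
    RlsD j π (yOp (p ^ a) (W.act g) i) (yOp (p ^ a) (W.act g) (!i)) (yOp (p ^ a) (P.act g) i)
      (yOp (p ^ a) (P.act g) (!i)) (yOp (p ^ a) (V.act g) i) (yOp (p ^ a) (V.act g) (!i)) := by
  exact ysh_D h hs hP i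

theorem Lo.shift1 (hW : Wt p O) (h : Lo p a K d g) (hs : Ses W P V j π)
    (hP : ∀ i, yZ (p ^ a) (P.act g) i) (ht : TieC p a g V M true Φ) :
    ∃ Φ', TieC p a g W M false Φ' := by
  exact ⟨_, h.sh1 hW.prime hs hP ht⟩

theorem Lo.shift0 (hW : Wt p O) (h : Lo p a K d g) (hs : Ses W P V j π)
    (hP : ∀ i, yZ (p ^ a) (P.act g) i) {ω : Y →* Oˣ} (hω : OmC p K d ω)
    (ht : TieC p a g V M false Φ) : ∃ Φ', TieC p a g W (M.sc ω) true Φ' := by
  exact ⟨_, h.sh0 hω hs hP ht⟩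

theorem Lo.shiftZ (h : Lo p a K d g) (hs : Ses W P V j π) (hP : ∀ i, yZ (p ^ a) (P.act g) i)
    {i : Bool} (hz : yZ (p ^ a) (V.act g) i) : yZ (p ^ a) (W.act g) (!i) := by
  exact (ysh_z h hs hP i).1 hz

theorem Good.scC (h : Lo p a K d g) (hM : Good g M) {ω : Y →* Oˣ}
    (h1 : ∀ k ∈ K, ω k = 1) (h2 : ω d = 1) : Good g (M.sc ω) := by
  refine ⟨hM.ir.sc ω, Eq.trans ?_ hM.one⟩
  have k : ∀ n : Y, ω n = 1 → (M.sc ω).ρ n = M.ρ n := fun n hn => by
    change (ω n : O) • M.ρ n = _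
    rw [hn, Units.val_one, one_smul]
  obtain ⟨w, hw, rfl⟩ := h.hom
  rw [map_mul, map_mul, act_of, act_of, k d h2]
  congr 1
  ext v
  exact act_spn (f := LinearMap.id) (fun y hy v => LinearMap.congr_fun (k y (h1 y hy)) v) hw v

theorem Ses.trace (hs : Ses W P V j π) (x : MonoidAlgebra O Y) :
    LinearMap.trace O P.V (P.act x) =
      LinearMap.trace O W.V (W.act x) + LinearMap.trace O V.V (V.act x) := by
  induction x using MonoidAlgebra.induction_on with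
  | of y =>
    rw [act_of, act_of, act_of]
    exact hs.ch y
  | add x y h1 h2 =>
    simp only [map_add, h1, h2]
    ring
  | smul c x h1 => simp only [map_smul, h1, smul_add]

theorem Ses.rsC {W P V : Lat O X} {j : W.V →ₗ[O] P.V} {π : P.V →ₗ[O] V.V}
    (hs : Ses W P V j π) : Ses (W.rs Q) (P.rs Q) (V.rs Q) j π := by
  exact hs.rs Q

end Pool.Agent.Lib.MP_1ae3da_al.CT.R5
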