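import Pool.Agent.Lib.MP_1ae3da_al.Y.Qt
import Pool.Agent.Lib.MP_1ae3da_al.Y.Quo
import Pool.Agent.Lib.MP_1ae3da_al.Y.Sh
import Pool.Agent.Lib.MP_1ae3da_al.Y.L1d

set_option autoImplicit false
set_option linter.unusedSectionVars false

/-! The type of a balanced quotient. -/

namespace Pool.Agent.Lib.MP_1ae3da_al.CT.R5

open Function Submodule

variable {F k X : Type} [Field F] [CharZero F] [IsAlgClosed F] [Field k] [Group X] [Finite X]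
  {p a : ℕ} [Fact p.Prime] {O R : Subring F} [IsDiscreteValuationRing O] {r : F → k}
  {GG : Subgroup (RingAut F)} {Q : Subgroup X} {ga : X → MonoidAlgebra F X} {d : Nz Q}
  {g : MonoidAlgebra O (Nz Q)} {e e' ψ η θ ε : MonoidAlgebra F X}
  {γ : RingAut (MonoidAlgebra F X)} {om : X → F}
  {T : MonoidAlgebra F X →ₗ[F] MonoidAlgebra F X} {s : MonoidAlgebra F X → ℕ}

variable {W P U U0 : Lat O X}

/-- `Wt.quo`, `Good.ex`, `Cx.qth`, `Gl.src` for `U`; for `W`: `Lo.shift1`, `Lo.shiftZ`,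
`Ses.trace`, `Gl.higTr`, `Gl.higZ`. -/
theorem Cx.quof (hC : Cx p a O R r GG Q ga d g) (hO : Om GG Q om T) (hP : P.Hig)
    (hl : Lcl p P) {π0 : P.V →ₗ[O] U0.V} (h0 : P.Hom U0 π0) (s0 : Surjective π0) {i0 : Bool}
    (hn : ¬ yZ (p ^ a) (U0.G Q g) i0) {j : W.V →ₗ[O] P.V} {π : P.V →ₗ[O] U.V}
    (h : Ses W P U j π) (nW : Nontrivial W.V) (nU : Nontrivial U.V) (hs : Mult U s)
    (hb : BalC Q ga p s) :
    ∃ (i : Bool) (M : Lat O (Nz Q)) (ψ : MonoidAlgebra F X), GoodB Q g M ψ ∧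
      (∀ η ∈ EtC Q ga, (Bk F p Q ψ η → cmC Q ga p s η = if i then -1 else 1) ∧
        (¬ Bk F p Q ψ η → cmC Q ga p s η = 0)) ∧
      (i = true → ∃ Φ Φ', Src p a Q g U M true Φ ∧ Src p a Q g W M false Φ') := by
  have hW := hC.pm.wt
  obtain ⟨i, M, Φ, hM, hz, ht⟩ := hW.quo hC.gl hP hl h0 s0 hn h nW nU
  obtain ⟨ψ, hψ⟩ := hM.ex (F := F)
  obtain ⟨c1, c2⟩ := hC.qth hO hs hb hψ hz ht
  refine ⟨i, M, ψ, hψ, c1, ?_⟩
  rintro rfl
  have z := hC.gl.higZ hW hP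
  obtain ⟨Φ', t'⟩ := Lo.shift1 hW hC.gl.lo h.rsC z ht
  refine ⟨Φ, Φ', hC.gl.src hW ht c2 hz (by simp [sg]), hC.gl.src hW t' (c := M.rk)
    (fun n n0 n1 => ?_) (hC.gl.lo.shiftZ h.rsC z hz) (by simp [sg])⟩
  have e := (h.rsC (Q := Q)).trace (g ^ n)
  rw [map_pow (P.rs Q).act, map_pow (W.rs Q).act, map_pow (U.rs Q).act] at e
  have e1 := hC.gl.higTr hW hP n n0 n1
  have e2 := c2 n n0 n1
  simp only [sg, Int.cast_neg, neg_mul, one_mul] at e2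
  exact eq_of_sub_eq_zero (by rw [sub_eq_add_neg, ← e2, ← e1]; exact e.symm)

end Pool.Agent.Lib.MP_1ae3da_al.CT.R5
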