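import Pool.Agent.Lib.MP_1ae3da_al.Y.Bal

set_option autoImplicit false
set_option linter.unusedSectionVars false

/-! The count block by block. -/

namespace Pool.Agent.Lib.MP_1ae3da_al.CT.R5

open Function Submodule

variable {F k X : Type} [Field F] [CharZero F] [IsAlgClosed F] [Field k] [Group X] [Finite X]
  {p a : ℕ} [Fact p.Prime] {O R : Subring F} [IsDiscreteValuationRing O] {r : F → k}
  {GG : Subgroup (RingAut F)} {Q : Subgroup X} {ga : X → MonoidAlgebra F X} {d : Nz Q}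
  {g : MonoidAlgebra O (Nz Q)} {e e' ψ η θ ε : MonoidAlgebra F X}
  {γ : RingAut (MonoidAlgebra F X)} {om : X → F}
  {T : MonoidAlgebra F X →ₗ[F] MonoidAlgebra F X} {s : MonoidAlgebra F X → ℕ}

variable {U : Lat O X}

theorem yQt_idem {t : MonoidAlgebra O (Nz Q)} (hθ : θ ∈ Irr F (HX F (Kp p Q)))
    (ht : R5.up O Q t = θ) (V : Lat O (Nz Q)) : V.act t * V.act t = V.act t := by
  rw [← map_mul, up_inj (show R5.up O Q (t * t) = R5.up O Q t by rw [map_mul, ht, hθ.2.1])]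

theorem yQt_cm (hC : Cx p a O R r GG Q ga d g) {t : MonoidAlgebra O (Nz Q)}
    (h : t ∈ spn O (KN p Q)) (V : Lat O (Nz Q)) : V.act t * V.act g = V.act g * V.act t := by
  rw [← map_mul, hC.gl.lo.comS h, map_mul]

theorem yQt_key (hC : Cx p a O R r GG Q ga d g) (hO : Om GG Q om T) (hs : Mult U s)
    (hb : BalC Q ga p s) {M : Lat O (Nz Q)} {i : Bool} {Φ : Submodule O (U.V × M.V)}
    (hM : GoodB Q g M ψ) (hz : yZ (p ^ a) (U.G Q g) (!i)) (ht : TieC p a g (U.rs Q) M i Φ)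
    (hη : η ∈ EtC Q ga) (hθ : θ ∈ Irr F (HX F (Kp p Q))) (h0 : η * θ ≠ 0) :
    (ψ * θ ≠ 0 → cmC Q ga p s η = sg ℤ i) ∧ (ψ * θ = 0 → cmC Q ga p s η = 0) := by
  obtain ⟨t, t1, t2⟩ := hC.theta hθ
  obtain ⟨n, n1, n2, n3, n4, -⟩ := yherb_cut hC.pm.wt hC.gl.lo.pos (hC.gl.lo.gpow (U.rs Q))
    (yQt_idem hθ t2 (U.rs Q)) (yQt_idem hθ t2 M) (yQt_cm hC t1 _)
    (fun j x y => (LinearMap.trace_mul_comm _ _ _).trans (hC.bal_trace hs hb hη hθ h0 t2 x y)) i hz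
    ht.gr fun v m => ht.st.act t
  obtain ⟨r1, r2⟩ := hC.rank hO hM hθ t2
  have dp : (0 : ℤ) < dg F (HX F (Kp p Q)) θ := Int.natCast_pos.2 (dg_pos hθ)
  refine ⟨fun z => ?_, fun z => ?_⟩
  · obtain rfl : n = dg F (HX F (Kp p Q)) θ := Nat.cast_injective (n1.symm.trans (r1 z))
    have n5 : cmC Q ga p s η ≠ 0 := fun y => (dg_pos hθ).ne' (n4.1 (by rw [y, mul_zero]))
    rw [mul_left_comm] at n2 n3
    have n6 := (mul_nonneg_iff_of_pos_left dp).1 n2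
    have n7 := (mul_le_iff_le_one_right dp).1 n3
    cases i <;> simp only [sg] at n6 n7 ⊢ <;> omega
  · exact (mul_eq_zero.1 (n4.2 (Nat.cast_injective (n1.symm.trans (r2 z))))).resolve_left dp.ne'

theorem Cx.nz (hC : Cx p a O R r GG Q ga d g) (h : Mult U s) (hb : BalC Q ga p s)
    (hη : η ∈ EtC Q ga) (h0 : cmC Q ga p s η ≠ 0) : ∃ i, ¬ yZ (p ^ a) (U.G Q g) i := by
  obtain ⟨θ, hθ, h1, -⟩ := bk_refl (p := p) (Q := Q) hη.1.2.2.1
  obtain ⟨t, t1, t2⟩ := hC.theta hθ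
  refine not_forall.1 fun hz => mul_ne_zero (Nat.cast_ne_zero.2 (dg_pos hθ).ne') h0 ?_
  exact yherb_cut_zero hC.pm.wt hC.gl.lo.pos (hC.gl.lo.gpow (U.rs Q)) (yQt_idem hθ t2 (U.rs Q))
    (yQt_cm hC t1 _)
    (fun j x y => (LinearMap.trace_mul_comm _ _ _).trans (hC.bal_trace h hb hη hθ h1 t2 x y)) hz

/-- `yherb_cut` for every block `θ` of `K` (`Cx.theta`, `Cx.bal_trace`, `Cx.rank`; `Cx.ninv` for the
non invariant ones); the `θ` sum to 1. -/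
theorem Cx.qth (hC : Cx p a O R r GG Q ga d g) (hO : Om GG Q om T) (hs : Mult U s)
    (hb : BalC Q ga p s) {M : Lat O (Nz Q)} {i : Bool} {Φ : Submodule O (U.V × M.V)}
    (hM : GoodB Q g M ψ) (hz : yZ (p ^ a) (U.G Q g) (!i)) (ht : TieC p a g (U.rs Q) M i Φ) :
    (∀ η ∈ EtC Q ga, (Bk F p Q ψ η → cmC Q ga p s η = if i then -1 else 1) ∧
        (¬ Bk F p Q ψ η → cmC Q ga p s η = 0)) ∧
      ∀ j, 0 < j → j < p ^ a →
        LinearMap.trace O U.V (U.G Q g ^ j) = ((sg ℤ i * M.rk : ℤ) : O) := by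
  refine ⟨fun η hη => ⟨fun ⟨θ, hθ, h1, h2⟩ => ?_, fun h => ?_⟩, fun j j0 j1 => ?_⟩
  · rw [(yQt_key hC hO hs hb hM hz ht hη hθ h2).1 h1]
    cases i <;> rfl
  · obtain ⟨θ, hθ, h1, -⟩ := bk_refl (p := p) (Q := Q) hη.1.2.2.1
    exact (yQt_key hC hO hs hb hM hz ht hη hθ h1).2 (not_not.1 fun z => h ⟨θ, hθ, z, h1⟩)
  obtain ⟨u, hu, h1⟩ := irr_fin (F := F) (Kp p Q)
  choose! t t1 t2 using fun θ (hθ : θ ∈ Irr F (HX F (Kp p Q))) => hC.theta hθ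
  have h2 : ∑ θ ∈ u, t θ = 1 := up_inj (by
    rw [map_sum, map_one, ← h1]
    exact Finset.sum_congr rfl fun θ q => t2 θ (hu.le q))
  have h3 (V : Lat O (Nz Q)) (f : Module.End O V.V) : LinearMap.trace O V.V f =
      ∑ θ ∈ u, LinearMap.trace O V.V (f * V.act (t θ)) := by
    rw [← map_sum, ← Finset.mul_sum, ← map_sum, h2, map_one, mul_one]
  rw [Int.cast_mul, Int.cast_natCast, ← LinearMap.trace_one, h3 M, h3 (U.rs Q), Finset.mul_sum]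
  refine Finset.sum_congr rfl fun θ q => ?_
  have hθ := hu.le q
  rw [one_mul]
  by_cases hi : Ivt Q θ
  · obtain ⟨ε, hε, h0⟩ := gs_ne hC.gl.cy hC.ga0
    obtain ⟨η, hη, h4, -⟩ := eta_exC hC.gl.cy hC.ga0 hθ hi hε h0
    have h5 : η * θ ≠ 0 := fun z => (irrCC hC.gl.cy hC.ga0 hε hθ hi).2.2.1 (by
      rw [← h4, ← mul_assoc, z, zero_mul])
    obtain ⟨k1, k2⟩ := yQt_key hC hO hs hb hM hz ht hη hθ h5
    obtain ⟨r1, r2⟩ := hC.rank hO hM hθ (t2 θ hθ)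
    refine (hC.bal_trace hs hb hη hθ h5 (t2 θ hθ) j0 j1).trans ?_
    by_cases z : ψ * θ = 0
    · simp [k2 z, r2 z]
    · rw [k1 z, r1 z, Int.cast_mul, Int.cast_natCast, mul_comm]
  · have h4 (V : Lat O (Nz Q)) : V.act g * V.act (t θ) = 0 := by
      rw [← map_mul, hC.ninv hθ hi (t2 θ hθ), map_zero]
    have h5 := h4 M
    rw [hM.good.one, one_mul] at h5
    obtain ⟨j, rfl⟩ := Nat.exists_eq_succ_of_ne_zero j0.ne'
    rw [h5, pow_succ, mul_assoc, h4 (U.rs Q), mul_zero, map_zero, map_zero, mul_zero]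

end Pool.Agent.Lib.MP_1ae3da_al.CT.R5
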