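import Pool.Agent.Lib.MP_1ae3da_al.C.RLLoc

set_option autoImplicit false
set_option linter.unusedSectionVars false

/-! Classes of lattices with an averaging operator; simple sections are reductions of
irreducible lattices of the class. -/

namespace Pool.Agent.Lib.MP_1ae3da_al.CT.R5

open Function

variable {O Y : Type} [CommRing O] [IsDomain O] [IsDiscreteValuationRing O] [CharZero O]
  [Group Y] [Finite Y] {p : ℕ} {T : Lat O Y → Prop}

/-- a class of lattices, closed under sublattices, in which linear maps can be averaged -/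
structure Av (T : Lat O Y → Prop) : Prop where
  sub : ∀ {W M : Lat O Y} {j : W.V →ₗ[O] M.V}, W.Hom M j → Injective j → T M → T W
  avg : ∀ {M M' : Lat O Y}, T M → T M' → ∀ f0 : M.V →ₗ[O] M'.V,
    ∃ f : M.V →ₗ[O] M'.V, M.Hom M' f ∧
      ∀ (D : Submodule O M.V) (Φ : Submodule O (M.V × M'.V)), M.St D →
        (∀ x v w, (v, w) ∈ Φ → (M.ρ x v, M'.ρ x w) ∈ Φ) → (∀ v ∈ D, (v, f0 v) ∈ Φ) →
        ∀ v ∈ D, (v, f v) ∈ Φ
  tr : ∀ {M : Lat O Y}, T M → ∀ f0 : Module.End O M.V, ∃ f : Module.End O M.V, M.Hom M f ∧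
    LinearMap.trace O M.V f = LinearMap.trace O M.V f0

theorem Av.proj (hT : Av T) {M : Lat O Y} (hM : T M) {U S : Submodule O M.V} (hU : M.St U)
    (hS : M.St S) (h : ∀ (a : O) (m : M.V), a • m ∈ U → m ∉ U → a • m ∈ S) :
    ∃ f : M.V →ₗ[O] M.V, M.Hom M f ∧ (∀ v, f v ∈ U) ∧ ∀ u ∈ U, f u - u ∈ S := by
  obtain ⟨f0, h1, h2⟩ := rlloc_proj U S h
  obtain ⟨f, hf, k⟩ := hT.avg hM hM f0
  refine ⟨f, hf, fun v => k ⊤ (U.comap (LinearMap.snd O _ _)) (fun _ _ _ => trivial)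
    (fun x v w hw => hU x w hw) (fun v _ => h1 v) v trivial, fun u hu =>
    k U (S.comap (LinearMap.snd O M.V M.V - LinearMap.fst O M.V M.V)) hU (fun x v w hw => ?_) h2 u hu⟩
  have := hS x (w - v) hw
  rwa [map_sub] at this

theorem Av.split (hT : Av T) {M : Lat O Y} (hM : T M) {U : Submodule O M.V} (hU : M.St U)
    (hp : Pure U) : ∃ U', M.St U' ∧ IsCompl U U' := by
  obtain ⟨f, hf, h1, h2⟩ := hT.proj hM hU (S := ⊥) (fun x v hv => by
    rw [(Submodule.mem_bot O).1 hv, map_zero]; exact Submodule.zero_mem _) fun a m ha hm => by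
      by_cases c : a = 0
      · simp [c]
      · exact absurd (hp a m c ha) hm
  refine ⟨LinearMap.ker f, hf.ker_st.1, ?_⟩
  have := LinearMap.isCompl_of_proj (f := f.codRestrict U h1) fun x =>
    Subtype.ext (sub_eq_zero.1 (h2 x x.2))
  rwa [LinearMap.ker_codRestrict] at this

theorem Av.simple (hT : Av T) (hW : Wt p O) {M : Lat O Y} (hM : T M) (hi : M.Ir)
    {U : Submodule O M.V} (hU : M.St U) : U = ⊤ ∨ ∀ u ∈ U, ∃ m, u = (p : O) • m := by
  by_cases hb : ∀ u ∈ U, ∃ m, u = (p : O) • m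
  · exact Or.inr hb
  let U' := U ⊔ rllocP p M
  have hU' : M.St U' := fun x v hv => by
    obtain ⟨a, ha, b, hb, rfl⟩ := Submodule.mem_sup.1 hv
    rw [map_add]
    exact Submodule.add_mem_sup (hU x a ha) (rlloc_st M x b hb)
  obtain ⟨f, hf, h1, h2⟩ := hT.proj hM hU' (rlloc_st (p := p) M) fun a m ha hm => by
    by_cases c : IsUnit a
    · exact absurd ((U'.smul_mem_iff_of_isUnit c).1 ha) hm
    · obtain ⟨b, rfl⟩ := not_not.1 (mt (hW.unit_iff a).2 c)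
      exact rlloc_mem.2 ⟨_, mul_smul _ _ _⟩
  rcases hW.fit_ir hi hf with hb | ⟨n, h, e⟩
  · refine Or.inl (eq_top_iff.2 (hW.nak ⊤ U fun v _ => ?_))
    obtain ⟨w, rfl⟩ := hb.2 v
    obtain ⟨a, ha, b, hb, e⟩ := Submodule.mem_sup.1 (h1 w)
    obtain ⟨m, rfl⟩ := rlloc_mem.1 hb
    exact ⟨a, ha, m, trivial, e.symm⟩
  · refine Or.inr fun u hu => rlloc_mem.1 ?_
    have key : ∀ j : ℕ, ((f : Module.End O M.V) ^ j) u ∈ U' ∧
        ((f : Module.End O M.V) ^ j) u - u ∈ rllocP p M := fun j => by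
      induction j with
      | zero => exact ⟨Submodule.mem_sup_left hu, by simp⟩
      | succ j ih =>
        rw [pow_succ', Module.End.mul_apply]
        exact ⟨h1 _, by simpa using Submodule.add_mem _ (h2 _ ih.1) ih.2⟩
    have k := (key n).2
    rw [e] at k
    simpa using Submodule.sub_mem _ (rlloc_mem.2 ⟨h u, rfl⟩) k

theorem Av.or (hT : Av T) (hW : Wt p O) {M M' : Lat O Y} (hM' : T M') (hi' : M'.Ir)
    {f : M.V →ₗ[O] M'.V} (hf : M.Hom M' f) :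
    Surjective f ∨ ∃ g : M.V →ₗ[O] M'.V, M.Hom M' g ∧ f = (p : O) • g :=
  (hT.simple hW hM' hi' hf.range_st).imp LinearMap.range_eq_top.1
    fun h => rlloc_div hW hf fun v => h _ ⟨v, rfl⟩

theorem Av.sca (hT : Av T) (hW : Wt p O) {M : Lat O Y} (hM : T M) (hi : M.Ir) : M.Sca := by
  have := hi.1
  intro f hf
  have key := hW.nak (rllocH M M) (Submodule.span O {1}) (fun f hf => ?_) hf
  · obtain ⟨c, hc⟩ := Submodule.mem_span_singleton.1 key
    exact ⟨c, hc.symm⟩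
  obtain ⟨c, hc⟩ := hW.alg f.charpoly f.charpoly_monic (by
    rw [f.charpoly_natDegree]; exact Module.finrank_pos)
  rw [LinearMap.eval_charpoly] at hc
  have hg : M.Hom M (algebraMap O (Module.End O M.V) c - f) := fun x v => by
    simp [Module.algebraMap_end_apply, hf x v]
  rcases hT.or hW hM hi hg with h | ⟨g, hg, e⟩
  · refine absurd hc ((hW.unit_iff _).1 ((LinearMap.isUnit_iff_isUnit_det _).1 ?_))
    exact (Module.End.isUnit_iff _).2 ⟨OrzechProperty.injective_of_surjective_endomorphism _ h, h⟩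
  · refine ⟨c • 1, Submodule.smul_mem _ _ (Submodule.mem_span_singleton_self _), -g,
      Submodule.neg_mem _ hg, ?_⟩
    rw [smul_neg, ← e, Algebra.algebraMap_eq_smul_one]
    abel

theorem Av.rk (hT : Av T) (hW : Wt p O) {M : Lat O Y} (hM : T M) (hi : M.Ir) : ¬ p ∣ M.rk := by
  classical
  rintro ⟨k, hk⟩
  have := hi.1
  let b := Module.Free.chooseBasis O M.V
  obtain ⟨i⟩ := b.index_nonempty
  obtain ⟨f, hf, e⟩ := hT.tr hM ((b.coord i).smulRight (b i))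
  obtain ⟨c, rfl⟩ := hT.sca hW hM hi f hf
  rw [map_smul, LinearMap.trace_one, LinearMap.trace_smulRight] at e
  have e1 : c * (M.rk : O) = 1 := by simpa using e
  rw [hk, Nat.cast_mul] at e1
  exact hW.irr.not_isUnit (isUnit_of_dvd_one ⟨c * k, by rw [← e1]; ring⟩)

theorem Av.iso (hT : Av T) (hW : Wt p O) {M M' : Lat O Y} (hM : T M) (hi : M.Ir) (hM' : T M')
    (hi' : M'.Ir) (h : ∀ x, M.ch x = M'.ch x) :
    ∃ f : M.V →ₗ[O] M'.V, M.Hom M' f ∧ Bijective f := by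
  obtain ⟨f, hf, h0⟩ := hom_of_pair (V := M) (W := M') (by
    simp only [← h, mul_comm (M.ch _⁻¹)]
    rw [(hT.sca hW hM hi).norm hi.1]
    exact Nat.cast_ne_zero.2 Nat.card_pos.ne')
  by_contra c
  refine h0 (hW.nak (rllocH M M') ⊥ (fun g hg => ?_) hf)
  rcases hT.or hW hM' hi' hg with k | ⟨g', hg', e⟩
  · refine absurd ⟨g, hg, hi.inj hg fun e => ?_, k⟩ c
    have := hi'.1
    obtain ⟨m, hm⟩ := exists_ne (0 : M'.V)
    obtain ⟨v, rfl⟩ := k m
    exact hm (by rw [e]; rfl)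
  · exact ⟨0, Submodule.zero_mem _, g', hg', by rw [zero_add, e]⟩

variable {U : Type} [AddCommGroup U] [Module O U]

/-- `A / B` is a simple section killed by `p` -/
structure Sim (p : ℕ) (σ : Y →* Module.End O U) (A B : Submodule O U) : Prop where
  le : B ≤ A
  ne : ¬ A ≤ B
  stA : ∀ y, ∀ v ∈ A, σ y v ∈ A
  stB : ∀ y, ∀ v ∈ B, σ y v ∈ B
  kill : ∀ v ∈ A, (p : O) • v ∈ B
  sim : ∀ S : Submodule O U, (∀ y, ∀ v ∈ S, σ y v ∈ S) → B ≤ S → S ≤ A → S = B ∨ S = A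

/-- `Φ` is the graph of a surjection of `M` onto the section -/
structure SecPre (p : ℕ) (T : Lat O Y → Prop) (σ : Y →* Module.End O U) (A B : Submodule O U)
    (M : Lat O Y) (Φ : Submodule O (U × M.V)) : Prop where
  cls : T M
  st : ∀ y v m, (v, m) ∈ Φ → (σ y v, M.ρ y m) ∈ Φ
  dom : ∀ v, v ∈ A ↔ ∃ m, (v, m) ∈ Φ
  ran : ∀ m, ∃ v, (v, m) ∈ Φ
  kl : ∀ v, (v, (0 : M.V)) ∈ Φ ↔ v ∈ B
  kp : ∀ m, ((0 : U), (p : O) • m) ∈ Φ

theorem SecPre.cut (hT : Av T) {σ : Y →* Module.End O U} {A B : Submodule O U} {M : Lat O Y}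
    {Φ : Submodule O (U × M.V)} (h : SecPre p T σ A B M Φ)
    (hmin : ∀ M' Φ', SecPre p T σ A B M' Φ' → M.rk ≤ M'.rk) {S S' : Submodule O M.V}
    (hS : M.St S) (hc : IsCompl S S') (hs : ∀ v ∈ A, ∃ m ∈ S, (v, m) ∈ Φ) : S' = ⊥ := by
  obtain ⟨W, j, hj, hinj, hr⟩ := exists_sub M hS
  have h1 : SecPre p T σ A B W (Φ.comap (LinearMap.prodMap LinearMap.id j)) := by
    refine ⟨hT.sub hj hinj h.cls, fun n v m k => ?_, fun v => ⟨fun k => ?_,
      fun ⟨m, k⟩ => (h.dom v).2 ⟨j m, k⟩⟩, fun m => h.ran (j m), fun v => ?_, fun m => ?_⟩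
    · change (_, j (W.ρ n m)) ∈ Φ
      rw [hj]
      exact h.st n v (j m) k
    · obtain ⟨m, hm, k⟩ := hs v k
      rw [← hr] at hm
      obtain ⟨w, rfl⟩ := hm
      exact ⟨w, k⟩
    · rw [← h.kl]
      change (v, j 0) ∈ Φ ↔ _
      rw [map_zero]
    · change ((0 : U), j ((p : O) • m)) ∈ Φ
      rw [map_smul]
      exact h.kp _
  have h2 := hmin _ _ h1
  have h3 : Module.finrank O S = W.rk := by
    rw [← hr]; exact LinearMap.finrank_range_of_inj hinj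
  have h4 := Submodule.finrank_quotient_add_finrank S
  have h5 : Module.finrank O (M.V ⧸ S) = 0 := by
    change Module.finrank O M.V ≤ _ at h2
    omega
  rw [eq_bot_iff]
  intro x hx
  obtain ⟨a, ha, e⟩ := Module.finrank_eq_zero_iff.mp h5 (Submodule.Quotient.mk x)
  rw [← Submodule.Quotient.mk_smul, Submodule.Quotient.mk_eq_zero] at e
  have h6 : a • x = 0 := (Submodule.disjoint_def.mp hc.disjoint) _ e (S'.smul_mem a hx)
  exact (smul_eq_zero.mp h6).resolve_left ha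

/-- a simple section covered by a lattice of the class is the reduction of an irreducible one -/
theorem Av.sec (hT : Av T) (hW : Wt p O) {σ : Y →* Module.End O U} {A B : Submodule O U}
    (hs : Sim p σ A B) (h0 : ∃ M Φ, SecPre p T σ A B M Φ) :
    ∃ (M : Lat O Y) (Φ : Submodule O (U × M.V)), T M ∧ M.Ir ∧ Gr p A B Φ ∧
      ∀ y v m, (v, m) ∈ Φ → (σ y v, M.ρ y m) ∈ Φ := by
  classical
  have hex : ∃ n, ∃ M Φ, SecPre p T σ A B M Φ ∧ M.rk = n := by
    obtain ⟨M, Φ, h⟩ := h0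
    exact ⟨_, M, Φ, h, rfl⟩
  obtain ⟨M, Φ, h, hn⟩ := Nat.find_spec hex
  have hmin : ∀ M' Φ', SecPre p T σ A B M' Φ' → M.rk ≤ M'.rk := fun M' Φ' h' =>
    hn ▸ Nat.find_min' hex ⟨M', Φ', h', rfl⟩
  have hir : M.Ir := by
    refine ⟨?_, fun S hS hp => ?_⟩
    · obtain ⟨v, hA, hB⟩ := SetLike.not_le_iff_exists.mp hs.ne
      obtain ⟨m, hm⟩ := (h.dom v).1 hA
      exact ⟨m, 0, fun e => hB ((h.kl v).1 (e ▸ hm))⟩
    obtain ⟨S', hS', hc⟩ := hT.split h.cls hS hp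
    have hI := hs.sim ((Φ ⊓ S.comap (LinearMap.snd O _ _)).map (LinearMap.fst O _ _))
      (by
        rintro n _ ⟨⟨v, m⟩, ⟨k1, k2⟩, rfl⟩
        exact ⟨_, ⟨h.st n v m k1, hS _ _ k2⟩, rfl⟩)
      (fun v hv => ⟨(v, 0), ⟨(h.kl v).2 hv, S.zero_mem⟩, rfl⟩)
      (by
        rintro _ ⟨⟨v, m⟩, ⟨k1, -⟩, rfl⟩
        exact (h.dom v).2 ⟨m, k1⟩)
    rcases hI with hI | hI
    · refine Or.inl (h.cut hT hmin hS' hc.symm fun v hv => ?_)
      obtain ⟨m, hm⟩ := (h.dom v).1 hv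
      obtain ⟨u, hu, u', hu', rfl⟩ := Submodule.mem_sup.mp
        (show m ∈ S ⊔ S' by rw [hc.sup_eq_top]; trivial)
      obtain ⟨v1, k⟩ := h.ran u
      have k1 : v1 ∈ B := hI ▸ ⟨(v1, u), ⟨k, hu⟩, rfl⟩
      exact ⟨u', hu', by simpa using Φ.add_mem (Φ.sub_mem hm k) ((h.kl v1).2 k1)⟩
    · have h0 := h.cut hT hmin hS hc fun v hv => by
        rw [← hI] at hv
        obtain ⟨⟨_, m⟩, ⟨k1, k2⟩, rfl⟩ := hv
        exact ⟨m, k2, k1⟩
      right
      rw [← hc.sup_eq_top, h0, sup_bot_eq]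
  refine ⟨M, Φ, h.cls, hir, ⟨h.dom, h.ran, h.kl, fun m => ⟨fun k => ?_, ?_⟩⟩, h.st⟩
  · rcases hT.simple hW h.cls hir (U := Φ.comap (LinearMap.inr O _ _))
      (fun n m k => by simpa using h.st n 0 m k) with h1 | h1
    · refine absurd (fun v hv => ?_) hs.ne
      obtain ⟨m, hm⟩ := (h.dom v).1 hv
      have k1 : ((0 : U), m) ∈ Φ := show m ∈ Φ.comap (LinearMap.inr O _ _) from h1 ▸ trivial
      exact (h.kl v).1 (by simpa using Φ.sub_mem hm k1)
    · exact h1 m k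
  · rintro ⟨m', rfl⟩
    exact h.kp m'

/-- converse: a section tied to an irreducible lattice of the class is simple -/
theorem Av.sim (hT : Av T) (hW : Wt p O) {σ : Y →* Module.End O U} {A B : Submodule O U}
    {M : Lat O Y} {Φ : Submodule O (U × M.V)} (hM : T M) (hi : M.Ir) (h : Gr p A B Φ)
    (st : ∀ y v m, (v, m) ∈ Φ → (σ y v, M.ρ y m) ∈ Φ) : Sim p σ A B := by
  have le : B ≤ A := fun v hv => (h.dom v).2 ⟨0, (h.kl v).2 hv⟩
  refine ⟨le, fun hz => ?_, fun y v hv => ?_, fun y v hv => ?_, fun v hv => ?_,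
    fun S hS h1 h2 => ?_⟩
  · obtain ⟨m, hm⟩ := hW.loc_ne hi.1
    obtain ⟨v, hv⟩ := h.ran m
    have h0 := (h.kl v).2 (hz ((h.dom v).2 ⟨m, hv⟩))
    exact hm ((h.kr m).1 (by simpa using Φ.sub_mem hv h0))
  · obtain ⟨m, hm⟩ := (h.dom v).1 hv
    exact (h.dom _).2 ⟨_, st y v m hm⟩
  · exact (h.kl _).1 (by simpa using st y v 0 ((h.kl v).2 hv))
  · obtain ⟨m, hm⟩ := (h.dom v).1 hv
    exact (h.kl _).1 (by simpa using Φ.sub_mem (Φ.smul_mem (p : O) hm) ((h.kr _).2 ⟨m, rfl⟩))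
  · rcases hT.simple hW hM hi (U := (Φ ⊓ S.comap (LinearMap.fst O _ _)).map (LinearMap.snd O _ _))
      (by
        rintro n _ ⟨⟨v, m⟩, ⟨k1, k2⟩, rfl⟩
        exact ⟨_, ⟨st n v m k1, hS _ _ k2⟩, rfl⟩) with k | k
    · refine Or.inr (le_antisymm h2 fun v hv => ?_)
      obtain ⟨m, hm⟩ := (h.dom v).1 hv
      obtain ⟨⟨v1, m1⟩, ⟨k1, k2⟩, e⟩ : m ∈ (Φ ⊓ S.comap (LinearMap.fst O _ _)).map
        (LinearMap.snd O _ _) := k ▸ trivial
      obtain rfl : m1 = m := e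
      have := h1 ((h.kl _).1 (by simpa using Φ.sub_mem hm k1))
      simpa using S.add_mem this k2
    · refine Or.inl (le_antisymm (fun v hv => ?_) h1)
      obtain ⟨m, hm⟩ := (h.dom v).1 (h2 hv)
      exact (h.kl v).1 (by
        simpa using Φ.sub_mem hm ((h.kr m).2 (k m ⟨(v, m), ⟨hm, hv⟩, rfl⟩)))

end Pool.Agent.Lib.MP_1ae3da_al.CT.R5
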