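import Pool.Agent.Lib.MP_1ae3da_al.Y.SecA
import Pool.Agent.Lib.MP_1ae3da_al.C.RLProj

set_option autoImplicit false
set_option linter.unusedSectionVars false

/-! The class of lattices on which the twisted generator acts trivially. -/

namespace Pool.Agent.Lib.MP_1ae3da_al.CT.R5

open Function

variable {O X Y : Type} [CommRing O] [IsDomain O] [IsDiscreteValuationRing O] [CharZero O]
  [Group X] [Finite X] [Group Y] [Finite Y] {p a : ℕ} {U W : Type} [AddCommGroup U] [Module O U]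
  [AddCommGroup W] [Module O W]

/-- the action of the group ring -/
noncomputable def act (σ : Y →* Module.End O U) : MonoidAlgebra O Y →ₐ[O] Module.End O U :=
  Representation.asAlgebraHom σ

theorem act_of (σ : Y →* Module.End O U) (y : Y) : act σ (MonoidAlgebra.of O Y y) = σ y :=
  Representation.asAlgebraHom_of σ y

theorem act_eq (σ : Y →* Module.End O U) (w : MonoidAlgebra O Y) :
    act σ w = ∑ᶠ y : Y, w.coeff y • σ y := by
  have := Fintype.ofFinite Y
  rw [finsum_eq_sum_of_fintype, act, Representation.asAlgebraHom_def, MonoidAlgebra.lift_apply,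
    Finsupp.sum_fintype _ _ fun y => zero_smul O (σ y)]

/-- the span of a subgroup in the group ring -/
noncomputable def spn (O : Type) [CommRing O] (K : Subgroup Y) : Submodule O (MonoidAlgebra O Y) :=
  Submodule.span O (MonoidAlgebra.of O Y '' (K : Set Y))

theorem mem_spn {K : Subgroup Y} {w : MonoidAlgebra O Y} (h : ∀ y, w.coeff y ≠ 0 → y ∈ K) :
    w ∈ spn O K := by
  rw [← w.sum_coeff_single, Finsupp.sum]
  refine Submodule.sum_mem _ fun y hy => ?_
  have : MonoidAlgebra.single y (w.coeff y) = w.coeff y • MonoidAlgebra.of O Y y := by simp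
  rw [this]
  exact Submodule.smul_mem _ _ (Submodule.subset_span ⟨y, h y (Finsupp.mem_support_iff.1 hy), rfl⟩)

theorem act_spn {ρ : Y →* Module.End O U} {σ : Y →* Module.End O W} {K : Subgroup Y}
    {f : U →ₗ[O] W} (hf : ∀ k ∈ K, ∀ v, f (ρ k v) = σ k (f v)) {w : MonoidAlgebra O Y}
    (hw : w ∈ spn O K) (v : U) : f (act ρ w v) = act σ w (f v) := by
  induction hw using Submodule.span_induction with
  | mem x hx =>
    obtain ⟨k, hk, rfl⟩ := hx
    rw [act_of, act_of, hf k hk]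
  | zero => simp
  | add x y _ _ h1 h2 => simp [h1, h2]
  | smul c x _ h => simp [h]

theorem act_hom {ρ : Y →* Module.End O U} {σ : Y →* Module.End O W} {f : U →ₗ[O] W}
    (hf : ∀ y v, f (ρ y v) = σ y (f v)) (w : MonoidAlgebra O Y) (v : U) :
    f (act ρ w v) = act σ w (f v) :=
  act_spn (K := ⊤) (fun k _ => hf k) (mem_spn fun _ _ => trivial) v

/-- the twisted generator `w * d` -/
structure Tw (p a : ℕ) (K C : Subgroup Y) (d : Y) (w : MonoidAlgebra O Y) : Prop where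
  uK : ¬ p ∣ Nat.card K
  uC : ¬ p ∣ C.index
  gen : ∀ c ∈ C, ∃ k ∈ K, ∃ j : ℕ, c = k * d ^ j
  nK : ∀ k ∈ K, d * k * d⁻¹ ∈ K
  ord : orderOf d = p ^ a
  sup : w ∈ spn O K
  com : w * MonoidAlgebra.of O Y d = MonoidAlgebra.of O Y d * w
  pow : (w * MonoidAlgebra.of O Y d) ^ (p ^ a + 1) = w * MonoidAlgebra.of O Y d
  cj : ∀ y, ∃ j : ℕ, MonoidAlgebra.of O Y y * (w * MonoidAlgebra.of O Y d) =
    (w * MonoidAlgebra.of O Y d) ^ j * MonoidAlgebra.of O Y y

theorem secb_inv (ρ : Y →* Module.End O U) (x : Y) (v : U) : ρ x (ρ x⁻¹ v) = v := by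
  rw [← Module.End.mul_apply, ← map_mul, mul_inv_cancel, map_one, Module.End.one_apply]

theorem secb_inv' (ρ : Y →* Module.End O U) (x : Y) (v : U) : ρ x⁻¹ (ρ x v) = v := by
  rw [← Module.End.mul_apply, ← map_mul, inv_mul_cancel, map_one, Module.End.one_apply]

/-- `f` is an average of conjugates of `f0` -/
def Avg (ρ : Y →* Module.End O U) (σ : Y →* Module.End O W) (f0 f : U →ₗ[O] W) : Prop :=
  ∃ (ι : Type) (_ : Fintype ι) (s : ι → Y) (c : O), c * Fintype.card ι = 1 ∧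
    f = c • ∑ i, σ (s i) ∘ₗ f0 ∘ₗ ρ (s i)⁻¹

theorem Avg.graph {ρ : Y →* Module.End O U} {σ : Y →* Module.End O W} {f0 f : U →ₗ[O] W}
    (h : Avg ρ σ f0 f) (D : Submodule O U) (Φ : Submodule O (U × W))
    (hD : ∀ x, ∀ v ∈ D, ρ x v ∈ D) (hΦ : ∀ x v w, (v, w) ∈ Φ → (ρ x v, σ x w) ∈ Φ)
    (h0 : ∀ v ∈ D, (v, f0 v) ∈ Φ) : ∀ v ∈ D, (v, f v) ∈ Φ := by
  obtain ⟨ι, _, s, c, hc, rfl⟩ := h
  intro v hv
  have := Φ.smul_mem c (Φ.sum_mem (t := Finset.univ) fun i _ =>
    hΦ (s i) _ _ (h0 _ (hD (s i)⁻¹ v hv)))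
  simp only [secb_inv] at this
  convert this using 1
  ext
  · simp [Prod.fst_sum, ← Nat.cast_smul_eq_nsmul O, smul_smul, hc]
  · simp [Prod.snd_sum]

theorem Avg.trace [Module.Free O U] [Module.Finite O U] {ρ : Y →* Module.End O U}
    {f0 f : Module.End O U} (h : Avg ρ ρ f0 f) :
    LinearMap.trace O U f = LinearMap.trace O U f0 := by
  obtain ⟨ι, _, s, c, hc, rfl⟩ := h
  rw [map_smul, map_sum, Finset.sum_congr rfl (g := fun _ => LinearMap.trace O U f0) fun i _ => by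
    change LinearMap.trace O U (ρ (s i) * (f0 * ρ (s i)⁻¹)) = _
    rw [LinearMap.trace_mul_comm, mul_assoc, ← map_mul, inv_mul_cancel, map_one, mul_one]]
  rw [Finset.sum_const, Finset.card_univ, nsmul_eq_mul, smul_eq_mul, ← mul_assoc, hc, one_mul]

theorem avg_K (ρ : Y →* Module.End O U) (σ : Y →* Module.End O W) {K : Subgroup Y}
    (uK : IsUnit (Nat.card K : O)) (f0 : U →ₗ[O] W) :
    ∃ f, Avg ρ σ f0 f ∧ ∀ k ∈ K, ∀ v, f (ρ k v) = σ k (f v) := by
  have := Fintype.ofFinite K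
  obtain ⟨c, hc⟩ := uK.exists_left_inv
  refine ⟨_, ⟨K, inferInstance, Subtype.val, c, by rwa [← Nat.card_eq_fintype_card], rfl⟩,
    fun k hk v => ?_⟩
  simp only [LinearMap.smul_apply, LinearMap.sum_apply, LinearMap.comp_apply, map_smul, map_sum]
  rw [← Equiv.sum_comp (Equiv.mulLeft (⟨k, hk⟩ : K))]
  congr 1
  refine Finset.sum_congr rfl fun x _ => ?_
  change σ (k * x) (f0 (ρ (k * x)⁻¹ (ρ k v))) = _
  rw [mul_inv_rev, map_mul, map_mul, Module.End.mul_apply, Module.End.mul_apply, secb_inv']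

theorem avg_C (ρ : Y →* Module.End O U) (σ : Y →* Module.End O W) {C : Subgroup Y}
    (uC : IsUnit (C.index : O)) (f0 : U →ₗ[O] W) (h0 : ∀ c ∈ C, ∀ v, f0 (ρ c v) = σ c (f0 v)) :
    ∃ f, Avg ρ σ f0 f ∧ ∀ y v, f (ρ y v) = σ y (f v) := by
  have := Fintype.ofFinite (Y ⧸ C)
  obtain ⟨c, hc⟩ := uC.exists_left_inv
  refine ⟨_, ⟨Y ⧸ C, inferInstance, Quotient.out, c, by rwa [← Nat.card_eq_fintype_card], rfl⟩,
    fun y v => ?_⟩
  simp only [LinearMap.smul_apply, LinearMap.sum_apply, LinearMap.comp_apply, map_smul, map_sum]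
  rw [← Equiv.sum_comp (MulAction.toPerm y)]
  congr 1
  refine Finset.sum_congr rfl fun x _ => ?_
  obtain ⟨q, k⟩ := QuotientGroup.mk_out_eq_mul C (y * x.out)
  have e : MulAction.toPerm y x = ((y * x.out : Y) : Y ⧸ C) := by
    conv_lhs => rw [← QuotientGroup.out_eq' x]
    rfl
  rw [e, k, mul_inv_rev, mul_inv_rev]
  simp only [map_mul, Module.End.mul_apply]
  rw [secb_inv', h0 _ (C.inv_mem q.2), secb_inv]

variable {K C : Subgroup Y} {d : Y} {w : MonoidAlgebra O Y}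

/-- a `K`-map that commutes with the twisted generator on the part where it has order `p ^ a` -/
theorem Tw.cmap (h : Tw p a K C d w) {ρ : Y →* Module.End O U} {σ : Y →* Module.End O W}
    (h1 : act ρ (w * MonoidAlgebra.of O Y d) = 1) (h2 : act σ (w * MonoidAlgebra.of O Y d) = 1)
    {f : U →ₗ[O] W} (hf : ∀ k ∈ K, ∀ v, f (ρ k v) = σ k (f v)) :
    ∀ c ∈ C, ∀ v, f (ρ c v) = σ c (f v) := by
  have hd : ∀ v, f (ρ d v) = σ d (f v) := fun v => by
    rw [map_mul, act_of] at h1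
    rw [h.com, map_mul, act_of] at h2
    have e := act_spn hf h.sup (ρ d v)
    rw [← Module.End.mul_apply, h1, Module.End.one_apply] at e
    rw [e, ← Module.End.mul_apply, h2, Module.End.one_apply]
  intro c hc v
  obtain ⟨k, hk, j, rfl⟩ := h.gen c hc
  rw [map_mul, map_mul, Module.End.mul_apply, Module.End.mul_apply, hf k hk]
  congr 1
  clear hc
  induction j with
  | zero => simp
  | succ j ih => rw [pow_succ', map_mul, map_mul, Module.End.mul_apply, hd, ih, Module.End.mul_apply]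

/-- the lattices on which the twisted generator acts trivially -/
def Lat.Tg (M : Lat O Y) (γ : MonoidAlgebra O Y) : Prop := act M.ρ γ = 1

theorem Tw.av (h : Tw p a K C d w) (hW : Wt p O) :
    Av fun M : Lat O Y => M.Tg (w * MonoidAlgebra.of O Y d) := by
  refine ⟨fun {W M j} hj hi hM => LinearMap.ext fun v => hi ?_, fun {M M'} hM hM' f0 => ?_,
    fun {M} hM f0 => ?_⟩
  · rw [act_hom hj, hM]
    rfl
  · obtain ⟨f1, a1, k1⟩ := avg_K M.ρ M'.ρ (hW.unit h.uK) f0
    obtain ⟨f, a2, k2⟩ := avg_C M.ρ M'.ρ (hW.unit h.uC) f1 (h.cmap hM hM' k1)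
    exact ⟨f, k2, fun D Φ hD hΦ h0 => a2.graph D Φ hD hΦ (a1.graph D Φ hD hΦ h0)⟩
  · obtain ⟨f1, a1, k1⟩ := avg_K M.ρ M.ρ (hW.unit h.uK) f0
    obtain ⟨f, a2, k2⟩ := avg_C M.ρ M.ρ (hW.unit h.uC) f1 (h.cmap hM hM k1)
    exact ⟨f, k2, a2.trace.trans a1.trace⟩

/-- Higman's criterion passes to a cyclic subgroup -/
theorem Lat.Hig.cyc {P : Lat O X} (hP : P.Hig) {x : X} {q : ℕ} (hx : orderOf x = q) :
    ∃ h : Module.End O P.V, ∑ j ∈ Finset.range q, P.ρ x ^ j * h * P.ρ x ^ (q - j) = 1 := by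
  classical
  have := Fintype.ofFinite X
  obtain ⟨h, hh⟩ := hP
  obtain ⟨T, hT, -⟩ := Subgroup.exists_isComplement_right (Subgroup.zpowers x) 1
  have := Fintype.ofFinite T
  refine ⟨∑ t : T, P.ρ (t : X) * h * P.ρ (t : X)⁻¹, ?_⟩
  rw [← hh, finsum_eq_sum_of_fintype, ← Equiv.sum_comp (Equiv.ofBijective _ hT),
    Fintype.sum_prod_type, ← hx, Finset.sum_range]
  refine Fintype.sum_equiv (finEquivZPowers (isOfFinOrder_of_finite x)) _ _ fun j => ?_
  rw [Finset.mul_sum, Finset.sum_mul]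
  refine Finset.sum_congr rfl fun t _ => ?_
  change _ = P.ρ (x ^ (j : ℕ) * t) * h * P.ρ (x ^ (j : ℕ) * t)⁻¹
  have e : (x ^ (j : ℕ))⁻¹ = x ^ (orderOf x - j) := by
    rw [inv_eq_iff_mul_eq_one, ← pow_add, Nat.add_sub_cancel' j.2.le, pow_orderOf_eq_one]
  rw [mul_inv_rev, e, map_mul, map_mul, map_pow, map_pow]
  simp only [mul_assoc]

/-- Higman's criterion for the twisted generator -/
theorem Tw.hig (h : Tw p a K C d w) (hW : Wt p O) (σ : Y →* Module.End O U)
    {h0 : Module.End O U}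
    (hh : ∑ j ∈ Finset.range (p ^ a), σ d ^ j * h0 * σ d ^ (p ^ a - j) = 1) :
    ∃ f : Module.End O U, (∀ k ∈ K, f * σ k = σ k * f) ∧
      ∑ j ∈ Finset.range (p ^ a), act σ (w * MonoidAlgebra.of O Y d) ^ j * f *
        act σ (w * MonoidAlgebra.of O Y d) ^ (p ^ a - j) =
          act σ (w * MonoidAlgebra.of O Y d) ^ (p ^ a) := by
  have := Fintype.ofFinite K
  obtain ⟨c, hc⟩ := (hW.unit h.uK).exists_left_inv
  have dq : d ^ p ^ a = 1 := h.ord ▸ pow_orderOf_eq_one d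
  have nj : ∀ (j : ℕ), ∀ k ∈ K, d ^ j * k * (d ^ j)⁻¹ ∈ K := fun j k hk => by
    induction j with
    | zero => simpa using hk
    | succ j ih =>
      have := h.nK _ ih
      rwa [← mul_assoc, ← mul_assoc, ← pow_succ', mul_assoc, ← mul_inv_rev, ← pow_succ'] at this
  have inv : ∀ j, j < p ^ a → (d ^ j)⁻¹ = d ^ (p ^ a - j) := fun j hj => by
    rw [inv_eq_iff_mul_eq_one, ← pow_add, Nat.add_sub_cancel' hj.le, dq]
  have nj' : ∀ j, j < p ^ a → ∀ k ∈ K, (d ^ j)⁻¹ * k * d ^ j ∈ K := fun j hj k hk => by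
    have := nj (p ^ a - j) k hk
    rwa [← inv j hj, inv_inv] at this
  set f : Module.End O U := c • ∑ k : K, σ k * h0 * σ (k : Y)⁻¹ with hf
  have fK : ∀ k ∈ K, f * σ k = σ k * f := fun k hk => by
    rw [hf, smul_mul_assoc, mul_smul_comm, Finset.sum_mul, Finset.mul_sum,
      ← Equiv.sum_comp (Equiv.mulLeft (⟨k, hk⟩ : K))]
    congr 1
    refine Finset.sum_congr rfl fun x _ => ?_
    change σ (k * x) * h0 * σ (k * x)⁻¹ * σ k = _
    rw [mul_assoc _ _ (σ k), ← map_mul, mul_inv_rev, inv_mul_cancel_right, map_mul]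
    simp only [mul_assoc]
  have e1 : ∑ j ∈ Finset.range (p ^ a), σ d ^ j * f * σ d ^ (p ^ a - j) = 1 := by
    have : ∀ j ∈ Finset.range (p ^ a), σ d ^ j * f * σ d ^ (p ^ a - j) =
        c • ∑ k : K, σ k * (σ d ^ j * h0 * σ d ^ (p ^ a - j)) * σ (k : Y)⁻¹ := fun j hj => by
      have hj := Finset.mem_range.1 hj
      let E : K ≃ K := ⟨fun k => ⟨_, nj j k k.2⟩, fun k => ⟨_, nj' j hj k k.2⟩,
        fun k => Subtype.ext (by simp [mul_assoc]), fun k => Subtype.ext (by simp [mul_assoc])⟩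
      rw [hf, mul_smul_comm, smul_mul_assoc, Finset.mul_sum, Finset.sum_mul]
      congr 1
      refine Fintype.sum_equiv E _ _ fun k => ?_
      change _ = σ (d ^ j * k * (d ^ j)⁻¹) * _ * σ (d ^ j * k * (d ^ j)⁻¹)⁻¹
      rw [← map_pow, ← map_pow, ← inv j hj]
      simp only [← mul_assoc, ← map_mul]
      simp only [mul_assoc, ← map_mul]
      congr 3 <;> group
    rw [Finset.sum_congr rfl this, ← Finset.smul_sum, Finset.sum_comm]
    simp only [← Finset.sum_mul, ← Finset.mul_sum, hh, mul_one, ← map_mul, mul_inv_cancel, map_one]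
    rw [Finset.sum_const, Finset.card_univ, ← Nat.card_eq_fintype_card,
      ← Nat.cast_smul_eq_nsmul O, smul_smul, hc, one_smul]
  have cw : Commute (act σ w) (σ d) := by
    have := congrArg (act σ) h.com
    rwa [map_mul, map_mul, act_of] at this
  refine ⟨f, fK, ?_⟩
  rw [map_mul, act_of, cw.mul_pow (p ^ a), ← map_pow σ, dq, map_one, mul_one,
    ← mul_one (act σ w ^ p ^ a), ← e1, Finset.mul_sum]
  refine Finset.sum_congr rfl fun j hj => ?_
  have hj := Finset.mem_range.1 hj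
  have cf : Commute (act σ w) f := LinearMap.ext fun v =>
    (act_spn (fun k hk v => LinearMap.congr_fun (fK k hk) v) h.sup v).symm
  have e2 : act σ w ^ p ^ a = act σ w ^ j * act σ w ^ (p ^ a - j) := by
    rw [← pow_add, Nat.add_sub_cancel' hj.le]
  have e3 := (((cw.pow_right j).mul_right cf).pow_left (p ^ a - j)).eq
  rw [cw.mul_pow, cw.mul_pow, e2, mul_assoc (act σ w ^ j) (act σ w ^ (p ^ a - j)),
    ← mul_assoc (act σ w ^ (p ^ a - j)), e3]
  simp only [mul_assoc]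

end Pool.Agent.Lib.MP_1ae3da_al.CT.R5
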