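import Pool.Agent.Lib.MP_1ae3da_al.Y.Ex
import Pool.Agent.Lib.MP_1ae3da_al.C.RSq

set_option autoImplicit false
set_option linter.unusedSectionVars false

/-! Vertices. -/

namespace Pool.Agent.Lib.MP_1ae3da_al.CT

open Submodule

variable {p a : ℕ} {F X : Type} [Field F] [CharZero F] [IsAlgClosed F] [Group X] [Finite X]
  [Fact p.Prime] {Q : Subgroup X} {d : X} {ga : X → MonoidAlgebra F X}
  {GG : Subgroup (RingAut F)} {e e' ε ε' θ θ' i i' ψ ψ' η η' x y b : MonoidAlgebra F X}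
  {γ : RingAut (MonoidAlgebra F X)} {om : X → F}
  {T : MonoidAlgebra F X →ₗ[F] MonoidAlgebra F X} {k : Type} [Field k] {O R : Subring F}
  {r : F → k}

theorem yVx_symm (h : Bk F p Q x y) : Bk F p Q y x := h.imp fun _ h => ⟨h.1, h.2.2, h.2.1⟩

theorem yVx_trans (hy : y ∈ Irr F (HX F (NQ Q))) (hb : b ∈ Irr F (HX F (NQ Q)))
    (h : Bk F p Q x y) (h' : Bk F p Q y b) : Bk F p Q x b := by
  obtain ⟨θ, h1, h2, h3⟩ := h
  exact ⟨θ, h1, h2, bk_over hy hb h' h1 h3⟩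

theorem yVx_fin : ∃ t : Finset (MonoidAlgebra F X),
    Irr F (HX F (⊤ : Subgroup X)) = (t : Set _) := by
  obtain ⟨s, hs, -⟩ := Irr_sum (H := (⊤ : Subgroup X)) (gu_tg (F := F))
    (Nat.cast_ne_zero.2 Nat.card_pos.ne')
  exact ⟨s, hs.symm⟩

theorem yVx_orb (h : e' ∈ Orb O GG e) : Orb O GG e' = Orb O GG e := by
  obtain ⟨δ, hδ, rfl⟩ := h
  ext z
  exact ⟨fun ⟨g, hg, h⟩ => ⟨g * δ, mul_mem hg hδ, h⟩, fun ⟨g, hg, h⟩ =>
    ⟨g * δ⁻¹, mul_mem hg (inv_mem hδ), h.trans (congrArg g (tc_ia δ e).symm)⟩⟩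

theorem yVx_irr (he : e ∈ Irr F (HX F (⊤ : Subgroup X))) :
    Orb O GG e ⊆ Irr F (HX F (⊤ : Subgroup X)) := by
  rintro _ ⟨δ, hδ, rfl⟩
  have h3 := g0_le (Q := ⊤) hδ
  exact (irr_stb h3.1.1 h3.1.2).2 he

theorem yVx_eta (h : Cyc p a Q d) (hg : Ga0 GG p Q ga) (hO : Om GG Q om T)
    (h1 : ExC Q ga p e η) (h2 : ExC Q ga p e η') : η' = η := by
  by_contra hn
  exact h2.2.2.1 ((ex_val h hg hO h1).2 η' h2.2.1 hn)

theorem yVx_zero (h : Cyc p a Q d) (hg : Ga0 GG p Q ga) (hO : Om GG Q om T)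
    (h1 : ExC Q ga p e η) (h2 : ExC Q ga p e' η') (hn : e' ≠ e) : mzC Q ga p e' η = 0 := by
  refine (ex_val h hg hO h2).2 η h1.2.1 fun h3 => hn ?_
  subst h3
  exact (ex_ex h hg hO h1.2.1).unique h2 h1

theorem yVx_conj (hP : PM p O R r GG) (h : Cyc p a Q d) (hg : Ga0 GG p Q ga) (hγ : γ ∈ Gm GG Q)
    {δ : RingAut (MonoidAlgebra F X)} (hδ : δ ∈ G0 O GG X) : γ * δ * γ⁻¹ ∈ G0 O GG X := by
  obtain ⟨τ, hτ, α, h1, h2, -⟩ := gm_autC h hg hγ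
  obtain ⟨σ, hσ, h3, h4, h5⟩ := hδ
  refine ⟨τ * σ * τ⁻¹, mul_mem (mul_mem hτ hσ) (inv_mem hτ), fun y hy => ?_, fun c z => ?_,
    fun z => ?_⟩
  · have h6 : τ⁻¹ y ∈ O := ((hP.gal τ hτ).1 _).1 (by rwa [tc_ai])
    change τ (σ (τ⁻¹ y)) = y
    rw [h3 _ h6, tc_ai]
  · change γ (δ (γ⁻¹ (c • z))) = τ (σ (τ⁻¹ c)) • γ (δ (γ⁻¹ z))
    rw [← h1, ← h4]
    congr 2
    apply γ.injective
    rw [h1, tc_ai, tc_ai, tc_ai]
  · have h6 : gu F X z = γ (gu F X (α.symm z)) := by rw [h2, α.apply_symm_apply]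
    rw [h6, tc_conj, h5]

theorem yVx_sub (hP : PM p O R r GG) (h : Cyc p a Q d) (hg : Ga0 GG p Q ga) (hγ : γ ∈ Gm GG Q)
    (h1 : e' ∈ VxC Q ga p O GG e) : γ e' ∈ VxC Q ga p O GG (γ e) := by
  rcases h1 with ⟨δ, hδ, rfl⟩ | ⟨η, η', h1, h2, h3⟩
  · exact .inl ⟨_, yVx_conj hP h hg hγ hδ, (tc_conj γ δ e).symm⟩
  · exact .inr ⟨_, _, ex_gm h hg hγ h1, ex_gm h hg hγ h2, (bk_gm h hγ).2 h3⟩

theorem yVx_diff (h : Cyc p a Q d) (hg : Ga0 GG p Q ga) (hO : Om GG Q om T)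
    (s : MonoidAlgebra F X → ℕ) (h1 : ExC Q ga p e η) (h2 : ExC Q ga p e' η')
    (hb : Bk F p Q η η') :
    cmC Q ga p s η - cmC Q ga p s η' = (s e - s e') * mzC Q ga p e η := by
  classical
  obtain ⟨t, ht⟩ := yVx_fin (F := F) (X := X)
  have m1 : e ∈ t := by rw [← Finset.mem_coe, ← ht]; exact h1.1
  have m2 : e' ∈ t := by rw [← Finset.mem_coe, ← ht]; exact h2.1
  have key : ∀ z ∈ t, (s z : ℤ) * mzC Q ga p z η - s z * mzC Q ga p z η' =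
      (if z = e then (s z : ℤ) * mzC Q ga p e η else 0) -
        if z = e' then (s z : ℤ) * mzC Q ga p e η else 0 := fun z hz => by
    by_cases hx : ∃ η, ExC Q ga p z η
    · obtain ⟨η0, h0⟩ := hx
      congr 1
      · split_ifs with h3
        · rw [h3]
        · rw [yVx_zero h hg hO h1 h0 h3, mul_zero]
      · split_ifs with h3
        · rw [h3, ex_sign h hg hO h1 h2 hb]
        · rw [yVx_zero h hg hO h2 h0 h3, mul_zero]
    · rw [if_neg fun h3 : z = e => hx ⟨η, h3 ▸ h1⟩, if_neg fun h3 : z = e' => hx ⟨η', h3 ▸ h2⟩,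
        ex_const h hg hO (by rw [ht]; exact hz) hx h1.2.1 h2.2.1 hb, sub_self, sub_self]
  rw [cmC, cmC, ht, finsum_mem_coe_finset, finsum_mem_coe_finset, ← Finset.sum_sub_distrib,
    Finset.sum_congr rfl key, Finset.sum_sub_distrib, Finset.sum_ite_eq', Finset.sum_ite_eq',
    if_pos m1, if_pos m2, sub_mul]

theorem vx_self : e ∈ VxC Q ga p O GG e := by
  exact .inl ⟨1, one_mem _, rfl⟩

theorem vx_irr (he : e ∈ Irr F (HX F (⊤ : Subgroup X))) : VxC Q ga p O GG e ⊆ Irr F (HX F (⊤ : Subgroup X)) := by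
  rintro z (h1 | ⟨_, _, -, h1, -⟩)
  exacts [yVx_irr he h1, h1.1]

theorem vx_ex (hP : PM p O R r GG) (h : Cyc p a Q d) (hg : Ga0 GG p Q ga) (hO : Om GG Q om T) (h1 : ExC Q ga p e η) :
    VxC Q ga p O GG e = {e' | ∃ η', ExC Q ga p e' η' ∧ Bk F p Q η η'} := by
  ext z
  refine ⟨?_, fun ⟨η', h2, h3⟩ => .inr ⟨η, η', h1, h2, h3⟩⟩
  rintro (⟨δ, hδ, rfl⟩ | ⟨η0, η', h0, h2, h3⟩)
  · exact ⟨_, ex_gm h hg (g0_le hδ) h1, bk_g0 hP h hδ h1.2.1.1.2.2.1⟩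
  · exact ⟨η', h2, yVx_eta h hg hO h1 h0 ▸ h3⟩

theorem vx_nex (hn : ¬ ∃ η, ExC Q ga p e η) : VxC Q ga p O GG e = Orb O GG e := by
  ext z
  exact ⟨fun h => h.resolve_right fun ⟨η, _, h1, _⟩ => hn ⟨η, h1⟩, .inl⟩

theorem vx_eq (hP : PM p O R r GG) (h : Cyc p a Q d) (hg : Ga0 GG p Q ga) (hO : Om GG Q om T) (he : e ∈ Irr F (HX F (⊤ : Subgroup X)))
    (h1 : e' ∈ VxC Q ga p O GG e) : VxC Q ga p O GG e' = VxC Q ga p O GG e := by
  by_cases hx : ∃ η, ExC Q ga p e η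
  · obtain ⟨η, h0⟩ := hx
    rw [vx_ex hP h hg hO h0] at h1 ⊢
    obtain ⟨η', h2, h3⟩ := h1
    rw [vx_ex hP h hg hO h2]
    ext z
    exact ⟨fun ⟨η0, h4, h5⟩ => ⟨η0, h4, yVx_trans h2.2.1.1 h4.2.1.1 h3 h5⟩,
      fun ⟨η0, h4, h5⟩ => ⟨η0, h4, yVx_trans h0.2.1.1 h4.2.1.1 (yVx_symm h3) h5⟩⟩
  · rw [vx_nex hx] at h1 ⊢
    rw [vx_nex, yVx_orb h1]
    rintro ⟨η, h2⟩
    obtain ⟨δ, hδ, rfl⟩ := h1
    have := ex_gm h hg (g0_le (inv_mem hδ)) h2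
    rw [tc_ia] at this
    exact hx ⟨_, this⟩

theorem vx_g0 (hP : PM p O R r GG) (h : Cyc p a Q d) (hg : Ga0 GG p Q ga) (hγ : γ ∈ G0 O GG X) (h1 : e' ∈ VxC Q ga p O GG e) :
    γ e' ∈ VxC Q ga p O GG e := by
  rcases h1 with ⟨δ, hδ, rfl⟩ | ⟨η, η', h1, h2, h3⟩
  · exact .inl ⟨γ * δ, mul_mem hγ hδ, rfl⟩
  · have h4 := ex_gm h hg (g0_le hγ) h2
    exact .inr ⟨_, _, h1, h4, yVx_trans h2.2.1.1 h4.2.1.1 h3 (bk_g0 hP h hγ h2.2.1.1.2.2.1)⟩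

theorem vx_gm (hP : PM p O R r GG) (h : Cyc p a Q d) (hg : Ga0 GG p Q ga) (hγ : γ ∈ Gm GG Q) :
    γ '' VxC Q ga p O GG e = VxC Q ga p O GG (γ e) := by
  refine Set.Subset.antisymm ?_ fun z hz => ⟨γ⁻¹ z, ?_, tc_ai γ z⟩
  · rintro _ ⟨z, hz, rfl⟩
    exact yVx_sub hP h hg hγ hz
  · have := yVx_sub hP h hg (inv_mem hγ) hz
    rwa [tc_ia] at this

theorem cv_ex (hP : PM p O R r GG) (h : Cyc p a Q d) (hg : Ga0 GG p Q ga) (hO : Om GG Q om T) (h1 : ExC Q ga p e η)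
    (hη' : η' ∈ EtC Q ga) :
    (Bk F p Q η η' → cvC Q ga p (VxC Q ga p O GG e) η' = mzC Q ga p e η) ∧
      (¬ Bk F p Q η η' → cvC Q ga p (VxC Q ga p O GG e) η' = 0) := by
  rw [cvC, vx_ex hP h hg hO h1]
  refine ⟨fun hb => ?_, fun hb => finsum_mem_eq_zero_of_forall_eq_zero ?_⟩
  · obtain ⟨z, hz, -⟩ := ex_ex h hg hO hη'
    rw [ex_sign h hg hO h1 hz hb]
    have hm : z ∈ {e' | ∃ η', ExC Q ga p e' η' ∧ Bk F p Q η η'} := ⟨η', hz, hb⟩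
    rw [← finsum_mem_singleton (f := fun w => mzC Q ga p w η') (a := z)]
    refine finsum_mem_inter_support_eq' _ _ _ fun w hw => ⟨fun ⟨_, h2, _⟩ => ?_, fun h2 => h2 ▸ hm⟩
    by_contra h3
    exact hw (yVx_zero h hg hO hz h2 h3)
  · rintro z ⟨η0, h2, h3⟩
    exact (ex_val h hg hO h2).2 η' hη' fun h4 => hb (h4 ▸ h3)

theorem cv_nex (hP : PM p O R r GG) (h : Cyc p a Q d) (hg : Ga0 GG p Q ga) (hO : Om GG Q om T) (he : e ∈ Irr F (HX F (⊤ : Subgroup X)))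
    (hn : ¬ ∃ η, ExC Q ga p e η) (hη : η ∈ EtC Q ga) :
    cvC Q ga p (VxC Q ga p O GG e) η = (Orb O GG e).ncard * mzC Q ga p e η ∧ 0 < (Orb O GG e).ncard := by
  obtain ⟨t, ht⟩ := yVx_fin (F := F) (X := X)
  have hf : (Orb O GG e).Finite := t.finite_toSet.subset (ht ▸ yVx_irr he)
  refine ⟨?_, (Set.ncard_pos hf).2 ⟨e, 1, one_mem _, rfl⟩⟩
  have key : ∀ z ∈ Orb O GG e, mzC Q ga p z η = mzC Q ga p e η := by
    rintro _ ⟨δ, hδ, rfl⟩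
    have h1 := etC_gm h hg (g0_le (inv_mem hδ)) hη
    have h2 := mz_gmC h hg (g0_le hδ) he h1
    rw [tc_ai] at h2
    rw [h2]
    exact (ex_const h hg hO he hn hη h1 (bk_g0 hP h (inv_mem hδ) hη.1.2.2.1)).symm
  rw [cvC, vx_nex hn, finsum_mem_congr rfl key, finsum_mem_eq_finite_toFinset_sum _ hf,
    Finset.sum_const, nsmul_eq_mul, Set.ncard_eq_toFinset_card _ hf]

/-- multiplicities that are orthogonal to all `mzC` and Galois invariant are constant on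
vertices. -/
theorem vx_const (hP : PM p O R r GG) (h : Cyc p a Q d) (hg : Ga0 GG p Q ga) (hO : Om GG Q om T) {s : MonoidAlgebra F X → ℕ}
    (h0 : ∀ η ∈ EtC Q ga, cmC Q ga p s η = 0)
    (h1 : ∀ γ ∈ G0 O GG X, ∀ e ∈ Irr F (HX F (⊤ : Subgroup X)), s (γ e) = s e)
    (he : e ∈ Irr F (HX F (⊤ : Subgroup X))) (h2 : e' ∈ VxC Q ga p O GG e) : s e' = s e := by
  rcases h2 with ⟨δ, hδ, rfl⟩ | ⟨η, η', h2, h3, h4⟩
  · exact h1 δ hδ e he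
  · have := yVx_diff h hg hO s h2 h3 h4
    rw [h0 η h2.2.1, h0 η' h3.2.1, sub_self] at this
    have h5 := sub_eq_zero.1 ((mul_eq_zero.1 this.symm).resolve_right h2.2.2.1)
    exact_mod_cast h5.symm

theorem bal_of (hP : PM p O R r GG) (h : Cyc p a Q d) (hg : Ga0 GG p Q ga) (hO : Om GG Q om T) {s : MonoidAlgebra F X → ℕ}
    (hs : ∀ e ∈ Irr F (HX F (⊤ : Subgroup X)), ∀ e' ∈ VxC Q ga p O GG e, s e' = s e) : BalC Q ga p s := by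
  intro η hη η' hη' hb
  obtain ⟨e, h1, -⟩ := ex_ex h hg hO hη
  obtain ⟨e', h2, -⟩ := ex_ex h hg hO hη'
  have := yVx_diff h hg hO s h1 h2 hb
  rw [hs e h1.1 e' (.inr ⟨η, η', h1, h2, hb⟩), sub_self, zero_mul] at this
  exact sub_eq_zero.1 this

theorem cm_vx (hP : PM p O R r GG) (h : Cyc p a Q d) (hg : Ga0 GG p Q ga) (hO : Om GG Q om T) {s : MonoidAlgebra F X → ℕ}
    (he : e ∈ Irr F (HX F (⊤ : Subgroup X))) (hs : ∀ e' ∈ VxC Q ga p O GG e, s e' = s e) (η : MonoidAlgebra F X) :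
    cmC Q ga p ((VxC Q ga p O GG e).indicator s) η = s e * cvC Q ga p (VxC Q ga p O GG e) η := by
  classical
  obtain ⟨t, ht⟩ := yVx_fin (F := F) (X := X)
  have h1 : VxC Q ga p O GG e = (t.filter (· ∈ VxC Q ga p O GG e) : Finset _) := by
    ext z
    rw [Finset.coe_filter]
    exact ⟨fun hz => ⟨by rw [← Finset.mem_coe, ← ht]; exact vx_irr he hz, hz⟩, fun hz => hz.2⟩
  rw [cmC, cvC, ht, finsum_mem_coe_finset]
  conv_rhs => rw [h1, finsum_mem_coe_finset, Finset.sum_filter, Finset.mul_sum]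
  refine Finset.sum_congr rfl fun z _ => ?_
  split_ifs with hz
  · rw [Set.indicator_of_mem hz, hs z hz]
  · rw [Set.indicator_of_notMem hz, Nat.cast_zero, zero_mul, mul_zero]

theorem cm_add {s s' : MonoidAlgebra F X → ℕ} (η : MonoidAlgebra F X) :
    cmC Q ga p (s + s') η = cmC Q ga p s η + cmC Q ga p s' η := by
  obtain ⟨t, ht⟩ := yVx_fin (F := F) (X := X)
  simp only [cmC, ht, finsum_mem_coe_finset, Pi.add_apply, Nat.cast_add, add_mul,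
    Finset.sum_add_distrib]

theorem cm_congr {s s' : MonoidAlgebra F X → ℕ}
    (hs : ∀ e ∈ Irr F (HX F (⊤ : Subgroup X)), s e = s' e) (η : MonoidAlgebra F X) :
    cmC Q ga p s η = cmC Q ga p s' η := by
  exact finsum_mem_congr rfl fun e he => by rw [hs e he]

end Pool.Agent.Lib.MP_1ae3da_al.CT
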