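import Pool.Agent.Lib.MP_1ae3da_al.Y.Qf
import Pool.Agent.Lib.MP_1ae3da_al.Y.Cq
import Pool.Agent.Lib.MP_1ae3da_al.Y.Vx

set_option autoImplicit false
set_option linter.unusedSectionVars false

/-! The quotient of a local projective lattice by a union of vertices. -/

namespace Pool.Agent.Lib.MP_1ae3da_al.CT.R5

open Function Submodule

variable {F k X : Type} [Field F] [CharZero F] [IsAlgClosed F] [Field k] [Group X] [Finite X]
  {p a : ℕ} [Fact p.Prime] {O R : Subring F} [IsDiscreteValuationRing O] {r : F → k}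
  {GG : Subgroup (RingAut F)} {Q : Subgroup X} {ga : X → MonoidAlgebra F X} {d : Nz Q}
  {g : MonoidAlgebra O (Nz Q)} {e e' ψ η θ ε : MonoidAlgebra F X}
  {γ : RingAut (MonoidAlgebra F X)} {om : X → F}
  {T : MonoidAlgebra F X →ₗ[F] MonoidAlgebra F X} {s : MonoidAlgebra F X → ℕ}

variable {P : Lat O X}

/-- `Cx.hig_cm`, `Mult.g0`, `vx_const`. -/
theorem Cx.const (hC : Cx p a O R r GG Q ga d g) (hO : Om GG Q om T) (hP : P.Hig)
    (hs : Mult P s) (he : e ∈ Irr F (HX F (⊤ : Subgroup X))) (h : e' ∈ VxC Q ga p O GG e) :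
    s e' = s e :=
  vx_const hC.pm hC.gl.cy hC.ga0 hO (fun _ => hC.hig_cm hP hs) (fun _ hγ _ => hs.g0 hγ) he h

/-- a union of vertices is rational and balanced -/
theorem ySub_cut (hC : Cx p a O R r GG Q ga d g) (hO : Om GG Q om T) (hP : P.Hig)
    (hs : Mult P s) {A : Set (MonoidAlgebra F X)} (hA : A ⊆ Irr F (HX F (⊤ : Subgroup X)))
    (hv : ∀ x ∈ A, VxC Q ga p O GG x ⊆ A) : BalC Q ga p (A.indicator s) ∧
      ∃ (W U : Lat O X) (j : W.V →ₗ[O] P.V) (π : P.V →ₗ[O] U.V), Ses W P U j π ∧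
        Mult U (A.indicator s) ∧ Mult W (Aᶜ.indicator s) := by
  refine ⟨bal_of hC.pm hC.gl.cy hC.ga0 hO fun x hx y hy => ?_, cut_ex hC.pm hs hA
    fun γ hγ x hx => hv x hx (vx_g0 hC.pm hC.gl.cy hC.ga0 hγ vx_self)⟩
  by_cases m : x ∈ A
  · rw [Set.indicator_of_mem m, Set.indicator_of_mem (hv x m hy), hC.const hO hP hs hx hy]
  · rw [Set.indicator_of_notMem m, Set.indicator_of_notMem fun q => m (hv y q
      (vx_eq hC.pm hC.gl.cy hC.ga0 hO hx hy ▸ vx_self))]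

/-- `cut_ex` for `VxC e` gives `U0` (`cm_vx`, `Cx.nz`); `cut_ex` for `A`, `bal_of`, `Cx.quof`. -/
theorem Cx.sub (hC : Cx p a O R r GG Q ga d g) (hO : Om GG Q om T) (hP : P.Hig)
    (hl : Lcl p P) (hs : Mult P s) (he : e ∈ Sup P) (hη : η ∈ EtC Q ga)
    (h0 : cvC Q ga p (VxC Q ga p O GG e) η ≠ 0) {A : Set (MonoidAlgebra F X)} (hA : A ⊆ Sup P)
    (hv : ∀ x ∈ A, VxC Q ga p O GG x ⊆ A) (h1 : A.Nonempty) (h2 : A ≠ Sup P) :
    ∃ (i : Bool) (M : Lat O (Nz Q)) (ψ : MonoidAlgebra F X), GoodB Q g M ψ ∧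
      (∀ η ∈ EtC Q ga, (Bk F p Q ψ η → cmC Q ga p (A.indicator s) η = if i then -1 else 1) ∧
        (¬ Bk F p Q ψ η → cmC Q ga p (A.indicator s) η = 0)) ∧
      (i = true → ∃ (U W : Lat O X) (Φ : Submodule O (U.V × M.V)) (Φ' : Submodule O (W.V × M.V)),
        Src p a Q g U M true Φ ∧ Src p a Q g W M false Φ' ∧ Mult U (A.indicator s) ∧
          Mult W (Aᶜ.indicator s)) := by
  obtain ⟨ie, se⟩ := hs.sup.1 he
  obtain ⟨b0, W0, U0, j0, π0, S0, m0, -⟩ := ySub_cut hC hO hP hs (vx_irr ie)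
    fun x hx => (vx_eq hC.pm hC.gl.cy hC.ga0 hO ie hx).le
  obtain ⟨i0, hn⟩ := hC.nz m0 b0 hη (by
    rw [cm_vx hC.pm hC.gl.cy hC.ga0 hO ie fun _ => hC.const hO hP hs ie]
    exact mul_ne_zero (Nat.cast_ne_zero.2 se) h0)
  obtain ⟨b, W, U, j, π, S, mU, mW⟩ := ySub_cut hC hO hP hs (fun x hx => (hs.sup.1 (hA hx)).1) hv
  obtain ⟨x, hx⟩ := h1
  obtain ⟨y, hy, hy'⟩ := Set.exists_of_ssubset (hA.ssubset_of_ne h2)
  obtain ⟨i, M, ψ, q1, q2, q3⟩ := hC.quof hO hP hl S0.hq S0.sur hn S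
    (sup_nt (mW.sup.2 ⟨(hs.sup.1 hy).1, by
      rw [Set.indicator_of_mem (show y ∈ Aᶜ from hy')]; exact (hs.sup.1 hy).2⟩))
    (sup_nt (mU.sup.2 ⟨(hs.sup.1 (hA hx)).1, by
      rw [Set.indicator_of_mem hx]; exact (hs.sup.1 (hA hx)).2⟩)) mU b
  refine ⟨i, M, ψ, q1, q2, fun hi => ?_⟩
  obtain ⟨Φ, Φ', r1, r2⟩ := q3 hi
  exact ⟨U, W, Φ, Φ', r1, r2, mU, mW⟩

end Pool.Agent.Lib.MP_1ae3da_al.CT.R5
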