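import Mathlib

set_option autoImplicit false

/-! Transfer of equivariant maps across a trivial intersection subgroup. -/

namespace Pool.Agent.Lib.MP_1ae3da_al.CT.Cy

variable {O X : Type} [CommRing O] [Group X] [Finite X]

open Finset in
/-- a sum over free orbits is a trace -/
theorem ytr_orb {T M : Type} [MulAction X T] [AddCommGroup M] [Module O M]
    (π : X →* Module.End O M) (D : Subgroup X) (φ : T → M)
    (e : ∀ x y, φ (x • y) = π x (φ y)) (s : Finset T) (st : ∀ d ∈ D, ∀ y ∈ s, d • y ∈ s)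
    (fr : ∀ d ∈ D, ∀ y ∈ s, d • y = y → d = 1) :
    ∃ h, ∑ y ∈ s, φ y = ∑ᶠ d : D, π (d : X) h := by
  classical
  have := Fintype.ofFinite D
  simp only [finsum_eq_sum_of_fintype]
  induction s using Finset.strongInduction with | H s ih => ?_
  obtain rfl | ⟨y, hy⟩ := s.eq_empty_or_nonempty
  · exact ⟨0, by simp⟩
  have sub : (univ : Finset D).image (fun d : D => (d : X) • y) ⊆ s :=
    image_subset_iff.2 fun d _ => st _ d.2 _ hy
  obtain ⟨h, eh⟩ := ih _ (sdiff_ssubset sub ⟨_, mem_image_of_mem _ (mem_univ 1)⟩)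
    (fun d hd z m => mem_sdiff.2 ⟨st _ hd _ (mem_sdiff.1 m).1, fun c => (mem_sdiff.1 m).2 (by
      obtain ⟨d', -, e'⟩ := mem_image.1 c
      exact mem_image.2 ⟨(⟨d, hd⟩ : D)⁻¹ * d', mem_univ _, by
        rw [Subgroup.coe_mul, mul_smul, e', Subgroup.coe_inv, inv_smul_smul]⟩)⟩)
    (fun d hd z m => fr d hd z (mem_sdiff.1 m).1)
  refine ⟨h + φ y, ?_⟩
  rw [← sum_sdiff sub, eh, sum_image fun a _ b _ ab => ?_]
  · simp only [map_add, sum_add_distrib, e]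
  · have : ((b⁻¹ * a : D) : X) = 1 := fr _ (b⁻¹ * a).2 y hy (by
      rw [Subgroup.coe_mul, mul_smul, Subgroup.coe_inv, inv_smul_eq_iff]; exact ab)
    exact (inv_mul_eq_one.1 (Subtype.ext this)).symm

/-- the average over a subgroup of invertible order -/
theorem ytr_av {M : Type} [AddCommGroup M] [Module O M] (π : X →* Module.End O M)
    (K : Subgroup X) (h : M) (k : X) (hk : k ∈ K) :
    π k (∑ᶠ j : K, π (j : X) h) = ∑ᶠ j : K, π (j : X) h := by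
  have := Fintype.ofFinite K
  simp only [finsum_eq_sum_of_fintype, map_sum]
  conv_rhs => rw [← Equiv.sum_comp (Equiv.mulLeft (⟨k, hk⟩ : K))]
  simp

/-- the trace from `C` to `X` is the trace from `C` to `N` up to a trace from `K` to `K D` -/
theorem ytr_core {M : Type} [AddCommGroup M] [Module O M] (π : X →* Module.End O M)
    {K D C N : Subgroup X} (hK : K ≤ N) (hD : D ≤ N) (hC : C ≤ N)
    (hDK : ∀ d ∈ D, ∀ k ∈ K, d * k * d⁻¹ ∈ K) (uK : IsUnit (Nat.card K : O))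
    (ti : ∀ x, x ∉ N → ∀ d ∈ D, x⁻¹ * d * x ∈ C → d = 1) (f : M) (hf : ∀ c ∈ C, π c f = f) :
    (∀ x, π x (∑ᶠ y : X ⧸ C, π y.out f) = ∑ᶠ y : X ⧸ C, π y.out f) ∧
    ∃ h : M, (∀ k ∈ K, π k h = h) ∧ ∑ᶠ y : X ⧸ C, π y.out f =
      ∑ᶠ q : N ⧸ C.subgroupOf N, π (q.out : N) f + ∑ᶠ d : D, π (d : X) h := by
  classical
  have := Fintype.ofFinite (X ⧸ C)
  have := Fintype.ofFinite (N ⧸ C.subgroupOf N)
  have := Fintype.ofFinite D
  have := Fintype.ofFinite K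
  let φ (y : X ⧸ C) : M := π y.out f
  have e0 (x : X) : φ (x : X ⧸ C) = π x f := by
    obtain ⟨q, k⟩ := QuotientGroup.mk_out_eq_mul C x
    simp only [φ, k, map_mul, Module.End.mul_apply, hf _ q.2]
  have e (x : X) (y : X ⧸ C) : φ (x • y) = π x (φ y) := by
    conv_lhs => rw [← y.out_eq', MulAction.Quotient.smul_mk, e0]
    simp [φ]
  have m0 (x : X) : (x : X ⧸ C).out ∈ N ↔ x ∈ N := by
    obtain ⟨q, k⟩ := QuotientGroup.mk_out_eq_mul C x
    rw [k, N.mul_mem_cancel_right (hC q.2)]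
  have m (x : X) (hx : x ∈ N) (y : X ⧸ C) : (x • y).out ∈ N ↔ y.out ∈ N := by
    conv_lhs => rw [← y.out_eq', MulAction.Quotient.smul_mk, m0, smul_eq_mul,
      N.mul_mem_cancel_left hx]
  refine ⟨fun x => ?_, ?_⟩
  · simp only [finsum_eq_sum_of_fintype, map_sum]
    conv_rhs => rw [← Equiv.sum_comp (MulAction.toPerm x)]
    exact Finset.sum_congr rfl fun y _ => (e x y).symm
  let B := Finset.univ.filter fun y : X ⧸ C => ¬ y.out ∈ N
  obtain ⟨h, eh⟩ := ytr_orb π D φ e B (fun d hd y hy => by simpa [B, m d (hD hd)] using hy)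
    fun d hd y hy ey => by
      have : y.out⁻¹ * d⁻¹ * y.out ∈ C := by
        rw [← y.out_eq', MulAction.Quotient.smul_mk, QuotientGroup.eq] at ey
        simpa using ey
      exact inv_eq_one.1 (ti _ (Finset.mem_filter.1 hy).2 _ (D.inv_mem hd) this)
  have kB (k : K) : π (k : X) (∑ y ∈ B, φ y) = ∑ y ∈ B, φ y := by
    rw [map_sum]
    exact Finset.sum_equiv (MulAction.toPerm (k : X)) (fun y => by simp [B, m k (hK k.2)])
      fun y _ => (e k y).symm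
  obtain ⟨c, hc⟩ := uK.exists_left_inv
  refine ⟨c • ∑ᶠ j : K, π (j : X) h, fun k hk => by rw [map_smul, ytr_av π K h k hk], ?_⟩
  have sA : ∑ q : N ⧸ C.subgroupOf N, π (q.out : N) f =
      ∑ y ∈ Finset.univ.filter fun y : X ⧸ C => y.out ∈ N, φ y := by
    refine Finset.sum_bij (fun q _ => (((q.out : N) : X) : X ⧸ C)) (fun q _ => ?_)
      (fun a _ b _ ab => ?_) (fun y hy => ?_) fun q _ => (e0 _).symm
    · simp [m0]
    · rw [← a.out_eq', ← b.out_eq', QuotientGroup.eq, Subgroup.mem_subgroupOf]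
      exact QuotientGroup.eq.1 ab
    · refine ⟨((⟨y.out, (Finset.mem_filter.1 hy).2⟩ : N) : N ⧸ C.subgroupOf N),
        Finset.mem_univ _, ?_⟩
      obtain ⟨q, k⟩ := QuotientGroup.mk_out_eq_mul (C.subgroupOf N)
        ⟨y.out, (Finset.mem_filter.1 hy).2⟩
      rw [k, Subgroup.coe_mul, QuotientGroup.mk_mul_of_mem _ (Subgroup.mem_subgroupOf.1 q.2)]
      exact y.out_eq'
  have sB : ∑ d : D, π (d : X) (c • ∑ j : K, π (j : X) h) = ∑ y ∈ B, φ y := by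
    have s1 (d : D) : π (d : X) (∑ j : K, π (j : X) h) = ∑ j : K, π (j : X) (π (d : X) h) := by
      rw [map_sum]
      refine Fintype.sum_bijective (fun j : K => (⟨d * j * (d : X)⁻¹, hDK _ d.2 _ j.2⟩ : K))
        (Finite.injective_iff_bijective.1 fun a b ab => ?_) _ _ fun j => ?_
      · exact Subtype.ext (by simpa using ab)
      · rw [← Module.End.mul_apply, ← Module.End.mul_apply, ← map_mul, ← map_mul]
        simp
    have s2 : ∑ d : D, π (d : X) h = ∑ y ∈ B, φ y := by rw [eh, finsum_eq_sum_of_fintype]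
    simp only [map_smul, s1]
    rw [← Finset.smul_sum, Finset.sum_comm]
    simp only [← map_sum, s2, kB]
    rw [Finset.sum_const, Finset.card_univ, ← Nat.cast_smul_eq_nsmul O, smul_smul,
      ← Nat.card_eq_fintype_card, hc, one_smul]
  simp only [finsum_eq_sum_of_fintype]
  rw [sA, sB, Finset.sum_filter_add_sum_filter_not]

section

variable {U W : Type} [AddCommGroup U] [Module O U] [AddCommGroup W] [Module O W]
  (ρ : X →* Module.End O U) (σ : X →* Module.End O W)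

omit [Finite X] in
theorem ytr_inv (x : X) (v : U) : ρ x (ρ x⁻¹ v) = v := by
  rw [← Module.End.mul_apply, ← map_mul, mul_inv_cancel, map_one, Module.End.one_apply]

omit [Finite X] in
theorem ytr_ap (x : X) (f : U →ₗ[O] W) (v : U) :
    Representation.linHom ρ σ x f v = σ x (f (ρ x⁻¹ v)) := rfl

omit [Finite X] in
theorem ytr_fix {x : X} {f : U →ₗ[O] W} :
    Representation.linHom ρ σ x f = f ↔ ∀ v, f (ρ x v) = σ x (f v) :=
  ⟨fun h v => by
    have := ytr_inv ρ x⁻¹ v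
    rw [inv_inv] at this
    rw [← h, ytr_ap, this, h],
    fun h => LinearMap.ext fun v => by rw [ytr_ap, ← h, ytr_inv]⟩

omit [Finite X] in
theorem ytr_fs {ι : Type} [Finite ι] (F : ι → U →ₗ[O] W) (v : U) :
    (∑ᶠ i, F i) v = ∑ᶠ i, F i v := by
  have := Fintype.ofFinite ι
  simp only [finsum_eq_sum_of_fintype, LinearMap.sum_apply]

/-- averaging over `K` keeps graphs and commutation rules -/
theorem ytr_avg {K : Subgroup X} (uK : IsUnit (Nat.card K : O)) (f0 : U →ₗ[O] W) :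
    ∃ f : U →ₗ[O] W, (∀ k ∈ K, ∀ v, f (ρ k v) = σ k (f v)) ∧
      (∀ (a : Module.End O U) (b : Module.End O W), (∀ k ∈ K, ∀ v, a (ρ k v) = ρ k (a v)) →
        (∀ k ∈ K, ∀ w, b (σ k w) = σ k (b w)) → (∀ v, f0 (a v) = b (f0 v)) →
        ∀ v, f (a v) = b (f v)) ∧
      ∀ (A : Submodule O U) (Φ : Submodule O (U × W)), (∀ k ∈ K, ∀ v ∈ A, ρ k v ∈ A) →
        (∀ k ∈ K, ∀ v w, (v, w) ∈ Φ → (ρ k v, σ k w) ∈ Φ) → (∀ v ∈ A, (v, f0 v) ∈ Φ) →
        ∀ v ∈ A, (v, f v) ∈ Φ := by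
  have := Fintype.ofFinite K
  obtain ⟨c, hc⟩ := uK.exists_left_inv
  have ev (v : U) : (c • ∑ᶠ j : K, Representation.linHom ρ σ (j : X) f0) v =
      c • ∑ j : K, σ j (f0 (ρ (j : X)⁻¹ v)) := by
    rw [LinearMap.smul_apply, ytr_fs, finsum_eq_sum_of_fintype]
    rfl
  refine ⟨c • ∑ᶠ j : K, Representation.linHom ρ σ (j : X) f0, fun k hk => (ytr_fix ρ σ).1 ?_,
    fun a b ha hb h0 v => ?_, fun A Φ hA hΦ h0 v hv => ?_⟩
  · rw [map_smul, ytr_av (Representation.linHom ρ σ) K f0 k hk]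
  · rw [ev, ev, map_smul, map_sum]
    exact congrArg _ (Finset.sum_congr rfl fun j _ => by
      rw [← ha _ (K.inv_mem j.2), h0, hb _ j.2])
  · have s : ∑ j : K, (v, σ j (f0 (ρ (j : X)⁻¹ v))) ∈ Φ := Φ.sum_mem fun j _ => by
      have := hΦ _ j.2 _ _ (h0 _ (hA _ (K.inv_mem j.2) v hv))
      rwa [ytr_inv] at this
    have := Φ.smul_mem c s
    rwa [← prod_mk_sum, Finset.sum_const, Finset.card_univ, ← Nat.cast_smul_eq_nsmul O,
      Prod.smul_mk, smul_smul, ← Nat.card_eq_fintype_card, hc, one_smul, ← ev] at this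

/-- transfer, formula -/
theorem ytr_formula {K D C N : Subgroup X} (hK : K ≤ N) (hD : D ≤ N) (hC : C ≤ N)
    (hDK : ∀ d ∈ D, ∀ k ∈ K, d * k * d⁻¹ ∈ K) (uK : IsUnit (Nat.card K : O))
    (ti : ∀ x, x ∉ N → ∀ d ∈ D, x⁻¹ * d * x ∈ C → d = 1) (f0 : U →ₗ[O] W)
    (h0 : ∀ c ∈ C, ∀ v, f0 (ρ c v) = σ c (f0 v)) :
    ∃ f h : U →ₗ[O] W, (∀ x v, f (ρ x v) = σ x (f v)) ∧ (∀ k ∈ K, ∀ v, h (ρ k v) = σ k (h v)) ∧
      (∀ v, f v = ∑ᶠ y : X ⧸ C, σ y.out (f0 (ρ y.out⁻¹ v))) ∧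
      ∀ v, f v = ∑ᶠ q : N ⧸ C.subgroupOf N, σ (q.out : N) (f0 (ρ ((q.out : N) : X)⁻¹ v)) +
        ∑ᶠ d : D, σ d (h (ρ (d : X)⁻¹ v)) := by
  obtain ⟨a, h, b, e⟩ := ytr_core (Representation.linHom ρ σ) hK hD hC hDK uK ti f0
    fun c hc => (ytr_fix ρ σ).2 (h0 c hc)
  refine ⟨_, h, fun x => (ytr_fix ρ σ).1 (a x), fun k hk => (ytr_fix ρ σ).1 (b k hk),
    fun v => ytr_fs _ v, fun v => ?_⟩
  rw [e, LinearMap.add_apply, ytr_fs, ytr_fs]
  rfl

/-- transfer, graph form -/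
theorem ytr_graph {K D C N : Subgroup X} (hK : K ≤ N) (hD : D ≤ N) (hC : C ≤ N)
    (hDK : ∀ d ∈ D, ∀ k ∈ K, d * k * d⁻¹ ∈ K) (uK : IsUnit (Nat.card K : O))
    (uN : IsUnit (C.relIndex N : O))
    (ti : ∀ x, x ∉ N → ∀ d ∈ D, x⁻¹ * d * x ∈ C → d = 1) (f0 : U →ₗ[O] W)
    (h0 : ∀ c ∈ C, ∀ v, f0 (ρ c v) = σ c (f0 v)) :
    ∃ f : U →ₗ[O] W, (∀ x v, f (ρ x v) = σ x (f v)) ∧
      ∀ (A : Submodule O U) (Φ : Submodule O (U × W)), (∀ n ∈ N, ∀ v ∈ A, ρ n v ∈ A) →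
        (∀ n ∈ N, ∀ v w, (v, w) ∈ Φ → (ρ n v, σ n w) ∈ Φ) → (∀ v ∈ A, (v, f0 v) ∈ Φ) →
        (∀ h : U →ₗ[O] W, (∀ k ∈ K, ∀ v, h (ρ k v) = σ k (h v)) → ∀ v ∈ A,
          ((0 : U), ∑ᶠ d : D, σ d (h (ρ (d : X)⁻¹ v))) ∈ Φ) →
        ∀ v ∈ A, (v, f v) ∈ Φ := by
  have := Fintype.ofFinite (N ⧸ C.subgroupOf N)
  obtain ⟨f, h, a, b, -, e⟩ := ytr_formula ρ σ hK hD hC hDK uK ti f0 h0
  obtain ⟨c, hc⟩ := uN.exists_left_inv
  refine ⟨c • f, fun x v => by simp [a], fun A Φ hA hΦ hf hB v hv => ?_⟩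
  have s : ∑ q : N ⧸ C.subgroupOf N, (v, σ (q.out : N) (f0 (ρ ((q.out : N) : X)⁻¹ v))) ∈ Φ :=
    Φ.sum_mem fun q _ => by
      have := hΦ _ q.out.2 _ _ (hf _ (hA _ (N.inv_mem q.out.2) v hv))
      rwa [ytr_inv] at this
  have := Φ.smul_mem c (Φ.add_mem s (hB h b v hv))
  rwa [← prod_mk_sum, Prod.mk_add_mk, add_zero, Finset.sum_const, ← finsum_eq_sum_of_fintype,
    ← e, Finset.card_univ, ← Nat.cast_smul_eq_nsmul O, Prod.smul_mk, smul_smul,
    ← Nat.card_eq_fintype_card, ← Subgroup.index_eq_card, ← Subgroup.relIndex, hc,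
    one_smul] at this

end

end Pool.Agent.Lib.MP_1ae3da_al.CT.Cy
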