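import Pool.Agent.Lib.MP_1ae3da_al.Y.SecC
import Pool.Agent.Lib.MP_1ae3da_al.Y.Tr

set_option autoImplicit false
set_option linter.unusedSectionVars false

/-! Transfer of maps that commute with the twisted generator. -/

namespace Pool.Agent.Lib.MP_1ae3da_al.CT.R5

open Function

variable {O X : Type} [CommRing O] [IsDomain O] [IsDiscreteValuationRing O] [CharZero O]
  [Group X] [Finite X] {p a : ℕ} {U W : Type} [AddCommGroup U] [Module O U]
  [AddCommGroup W] [Module O W] {N : Subgroup X} {K C : Subgroup N} {d : N}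
  {w : MonoidAlgebra O N}

/-- the twisted generator of a trivial intersection subgroup -/
structure TwX (p a : ℕ) (N : Subgroup X) (K C : Subgroup N) (d : N) (w : MonoidAlgebra O N) :
    Prop extends Tw p a K C d w where
  cK : ∀ k ∈ K, MonoidAlgebra.of O N k * (w * MonoidAlgebra.of O N d) =
    (w * MonoidAlgebra.of O N d) * MonoidAlgebra.of O N k
  ti : ∀ x : X, x ∉ N → ∀ (j : ℕ) (c : N), c ∈ C → x⁻¹ * (d : X) ^ j * x = c → (d : X) ^ j = 1

/-- the operator of the twisted generator -/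
noncomputable def tg (ρ : X →* Module.End O U) (N : Subgroup X) (d : N) (w : MonoidAlgebra O N) :
    Module.End O U := act (ρ.comp N.subtype) (w * MonoidAlgebra.of O N d)

section
variable {Y : Type} [Group Y] [Finite Y] {K C : Subgroup Y} {d : Y} {w : MonoidAlgebra O Y}

theorem Tw.dq (h : Tw p a K C d w) : d ^ p ^ a = 1 := h.ord ▸ pow_orderOf_eq_one d

theorem Tw.cw (h : Tw p a K C d w) (σ : Y →* Module.End O U) : Commute (act σ w) (σ d) := by
  have := congrArg (act σ) h.com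
  rwa [map_mul, map_mul, act_of] at this

theorem Tw.gq (h : Tw p a K C d w) (σ : Y →* Module.End O U) :
    act σ (w * MonoidAlgebra.of O Y d) ^ p ^ a = act σ w ^ p ^ a := by
  rw [map_mul, act_of, (h.cw σ).mul_pow, ← map_pow σ, h.dq, map_one, mul_one]

theorem Tw.gq1 (h : Tw p a K C d w) (σ : Y →* Module.End O U) :
    act σ (w * MonoidAlgebra.of O Y d) ^ (p ^ a + 1) = act σ (w * MonoidAlgebra.of O Y d) := by
  rw [← map_pow, h.pow]

theorem twt_pow {f : U →ₗ[O] W} {g : Module.End O U} {g' : Module.End O W}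
    (h : ∀ v, f (g v) = g' (f v)) (j : ℕ) (v : U) : f ((g ^ j) v) = (g' ^ j) (f v) := by
  induction j with
  | zero => rfl
  | succ j ih => rw [pow_succ', pow_succ', Module.End.mul_apply, h, ih, Module.End.mul_apply]

/-- a cut `K`-map that commutes with the twisted generator is a `C`-map -/
theorem Tw.cmap' (h : Tw p a K C d w) (hp : p.Prime) {ρ : Y →* Module.End O U}
    {σ : Y →* Module.End O W} {f : U →ₗ[O] W} (hf : ∀ k ∈ K, ∀ v, f (ρ k v) = σ k (f v))
    (hg : ∀ v, f (act ρ (w * MonoidAlgebra.of O Y d) v) = act σ (w * MonoidAlgebra.of O Y d) (f v))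
    (hz : ∀ v, f ((act ρ (w * MonoidAlgebra.of O Y d) ^ p ^ a) v) = f v) :
    ∀ c ∈ C, ∀ v, f (ρ c v) = σ c (f v) := by
  obtain ⟨n, hn⟩ : ∃ n, p ^ a = n + 1 := ⟨p ^ a - 1, by have := Nat.pos_of_ne_zero (pow_ne_zero a hp.ne_zero); omega⟩
  have hd : ∀ v, f (ρ d v) = σ d (f v) := fun v => by
    have e1 : (act ρ (w * MonoidAlgebra.of O Y d) ^ p ^ a) (ρ d v) =
        (act ρ w ^ n) (act ρ (w * MonoidAlgebra.of O Y d) v) := by
      rw [h.gq, hn, pow_succ, map_mul, act_of]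
      rfl
    have e2 : (act σ w ^ n) (act σ (w * MonoidAlgebra.of O Y d) (f v)) =
        σ d ((act σ (w * MonoidAlgebra.of O Y d) ^ p ^ a) (f v)) := by
      rw [h.gq, ← Module.End.mul_apply (σ d), ← ((h.cw σ).pow_left _).eq, hn, pow_succ, map_mul,
        act_of]
      rfl
    rw [← hz, e1, twt_pow (act_spn hf h.sup), hg, e2, ← twt_pow hg, hz]
  intro c hc v
  obtain ⟨k, hk, j, rfl⟩ := h.gen c hc
  rw [map_mul, map_mul, Module.End.mul_apply, Module.End.mul_apply, hf k hk, map_pow, map_pow,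
    twt_pow hd]

/-- the trace over the powers of `d` of a `K`-map, on the cut part -/
theorem Tw.trace (h : Tw p a K C d w) {ρ : Y →* Module.End O U} {σ : Y →* Module.End O W}
    {f : U →ₗ[O] W} (hf : ∀ k ∈ K, ∀ v, f (ρ k v) = σ k (f v)) {v : U}
    (hv : (act ρ (w * MonoidAlgebra.of O Y d) ^ p ^ a) v = v) {j : ℕ} (hj : j ≤ p ^ a) :
    (act σ (w * MonoidAlgebra.of O Y d) ^ j)
      (f ((act ρ (w * MonoidAlgebra.of O Y d) ^ (p ^ a - j)) v)) =
        σ (d ^ j) (f (ρ (d ^ j)⁻¹ v)) := by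
  have inv : (d ^ j)⁻¹ = d ^ (p ^ a - j) := by
    rw [inv_eq_iff_mul_eq_one, ← pow_add, Nat.add_sub_cancel' hj, h.dq]
  rw [h.gq] at hv
  rw [inv, map_mul, map_mul, act_of, act_of, (h.cw σ).eq, (h.cw σ).symm.mul_pow,
    (h.cw ρ).mul_pow, Module.End.mul_apply, Module.End.mul_apply, ← twt_pow (act_spn hf h.sup),
    ← Module.End.mul_apply (act ρ w ^ j), ← pow_add, Nat.add_sub_cancel' hj,
    ← Module.End.mul_apply (act ρ w ^ _), (((h.cw ρ).pow_left _).pow_right _).eq,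
    Module.End.mul_apply, hv, map_pow, map_pow]

end

theorem twt_sum {M Y : Type} [AddCommMonoid M] [Group Y] [Finite Y] (x : Y) (φ : Y → M) :
    ∑ᶠ y : Subgroup.zpowers x, φ y = ∑ j ∈ Finset.range (orderOf x), φ (x ^ j) := by
  have := Fintype.ofFinite (Subgroup.zpowers x)
  rw [finsum_eq_sum_of_fintype, Finset.sum_range]
  exact (Fintype.sum_equiv (finEquivZPowers (isOfFinOrder_of_finite x)) _ _ fun j => rfl).symm

/-- transfer: a cut map commuting with the twisted generator gives an equivariant map -/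
theorem TwX.tr (h : TwX p a N K C d w) (hW : Wt p O) (ρ : X →* Module.End O U)
    (σ : X →* Module.End O W) (f0 : U →ₗ[O] W)
    (hg : ∀ v, f0 (tg ρ N d w v) = tg σ N d w (f0 v)) :
    ∃ f : U →ₗ[O] W, (∀ x v, f (ρ x v) = σ x (f v)) ∧
      ∀ (A : Submodule O U) (Φ : Submodule O (U × W)), (∀ n : N, ∀ v ∈ A, ρ n v ∈ A) →
        (∀ v ∈ A, (tg ρ N d w ^ p ^ a) v = v) →
        (∀ (n : N) v u, (v, u) ∈ Φ → (ρ n v, σ n u) ∈ Φ) → (∀ v ∈ A, (v, f0 v) ∈ Φ) →
        (∀ k : U →ₗ[O] W, (∀ v, k ((tg ρ N d w ^ p ^ a) v) = (tg σ N d w ^ p ^ a) (k v)) → ∀ v ∈ A,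
          ((0 : U), ∑ j ∈ Finset.range (p ^ a),
            (tg σ N d w ^ j) (k ((tg ρ N d w ^ (p ^ a - j)) v))) ∈ Φ) →
        ∀ v ∈ A, (v, f v) ∈ Φ := by
  have uK : IsUnit (Nat.card (K.map N.subtype) : O) := by
    rw [Subgroup.card_map_of_injective N.subtype_injective]
    exact hW.unit h.uK
  have ck : ∀ {V : Type} [AddCommGroup V] [Module O V] (τ : X →* Module.End O V),
      ∀ k ∈ K.map N.subtype, ∀ v, tg τ N d w (τ k v) = τ k (tg τ N d w v) := by
    rintro V _ _ τ _ ⟨k, hk, rfl⟩ v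
    have := LinearMap.congr_fun (congrArg (act (τ.comp N.subtype)) (h.cK k hk)) v
    rw [map_mul _ (MonoidAlgebra.of O N k), map_mul _ _ (MonoidAlgebra.of O N k), act_of] at this
    exact this.symm
  let f1 := f0 ∘ₗ (tg ρ N d w ^ p ^ a)
  obtain ⟨f2, a1, a2, a3⟩ := Cy.ytr_avg ρ σ uK f1
  have g2 : ∀ v, f2 (tg ρ N d w v) = tg σ N d w (f2 v) := a2 _ _ (ck ρ) (ck σ) fun v => by
    change f0 ((tg ρ N d w ^ p ^ a) _) = _
    rw [← Module.End.mul_apply, ← pow_succ, pow_succ', Module.End.mul_apply, hg]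
    rfl
  have z2 : ∀ v, f2 ((tg ρ N d w ^ p ^ a) v) = f2 v :=
    a2 _ 1 (fun k hk v => (twt_pow (fun v => (ck ρ k hk v).symm) _ v).symm) (fun _ _ _ => rfl)
      fun v => by
        obtain ⟨n, hn⟩ : ∃ n, p ^ a = n + 1 := ⟨p ^ a - 1, by
          have := Nat.pos_of_ne_zero (pow_ne_zero a hW.prime.ne_zero); omega⟩
        have e : ∀ m : ℕ, tg ρ N d w ^ (p ^ a) * tg ρ N d w ^ (m + 1) = tg ρ N d w ^ (m + 1) :=
          fun m => by rw [pow_succ' _ m, ← mul_assoc, ← pow_succ, tg, h.gq1]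
        change f0 ((tg ρ N d w ^ p ^ a) _) = f0 _
        rw [← Module.End.mul_apply]
        nth_rewrite 2 [hn]
        rw [e, ← hn]
  have c2 := h.cmap' hW.prime (ρ := ρ.comp N.subtype) (σ := σ.comp N.subtype)
    (fun k hk => a1 k ⟨k, hk, rfl⟩) g2 z2
  have nj : ∀ (j : ℕ), ∀ k ∈ K, d ^ j * k * (d ^ j)⁻¹ ∈ K := fun j k hk => by
    induction j with
    | zero => simpa using hk
    | succ j ih =>
      have := h.nK _ ih
      rwa [← mul_assoc, ← mul_assoc, ← pow_succ', mul_assoc, ← mul_inv_rev, ← pow_succ'] at this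
  have zp : ∀ x ∈ Subgroup.zpowers (d : X), ∃ j : ℕ, x = (d : X) ^ j := fun x hx => by
    obtain ⟨j, e⟩ := (Submonoid.mem_powers_iff _ _).1 (mem_powers_iff_mem_zpowers.2 hx)
    exact ⟨j, e.symm⟩
  obtain ⟨f, b1, b2⟩ := Cy.ytr_graph ρ σ (K := K.map N.subtype) (D := Subgroup.zpowers (d : X))
    (C := C.map N.subtype) (N := N) (N.map_subtype_le K) (Subgroup.zpowers_le_of_mem d.2)
    (N.map_subtype_le C)
    (by
      rintro x hx _ ⟨k, hk, rfl⟩
      obtain ⟨j, rfl⟩ := zp x hx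
      exact ⟨_, nj j k hk, by simp⟩) uK
    (by
      rw [Subgroup.relIndex, Subgroup.subgroupOf, Subgroup.comap_map_eq_self_of_injective
        N.subtype_injective]
      exact hW.unit h.uC)
    (by
      rintro x hx y hy ⟨c, hc, e⟩
      obtain ⟨j, rfl⟩ := zp y hy
      exact h.ti x hx j c hc e.symm) f2
    (by
      rintro _ ⟨c, hc, rfl⟩
      exact c2 c hc)
  refine ⟨f, b1, fun A Φ hA hz hΦ h0 hB => b2 A Φ (fun n hn => hA ⟨n, hn⟩)
    (fun n hn => hΦ ⟨n, hn⟩) (a3 A Φ ?_ ?_ fun v hv => ?_) fun k hk v hv => ?_⟩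
  · rintro _ ⟨k, -, rfl⟩
    exact hA k
  · rintro _ ⟨k, -, rfl⟩
    exact hΦ k
  · change (v, f0 ((tg ρ N d w ^ p ^ a) v)) ∈ Φ
    rw [hz v hv]
    exact h0 v hv
  · have kK : ∀ y ∈ K, ∀ v, k ((ρ.comp N.subtype) y v) = (σ.comp N.subtype) y (k v) :=
      fun y hy => hk y ⟨y, hy, rfl⟩
    have := hB k (fun v => by
      rw [tg, tg, h.gq, h.gq, twt_pow (act_spn kK h.sup)]) v hv
    rw [twt_sum (d : X) fun y => σ y (k (ρ y⁻¹ v)), Subgroup.orderOf_coe, h.ord]
    convert this using 2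
    exact Finset.sum_congr rfl fun j hj =>
      (h.trace kK (hz v hv) (Finset.mem_range.1 hj).le).symm

end Pool.Agent.Lib.MP_1ae3da_al.CT.R5
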