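import Pool.Agent.Lib.MP_1ae3da_al.Y.Ed
import Pool.Agent.Lib.MP_1ae3da_al.Y.Lcx
import Pool.Agent.Lib.MP_1ae3da_al.Y.Nx

set_option autoImplicit false
set_option linter.unusedSectionVars false

/-! Fields of `TyC`. -/

namespace Pool.Agent.Lib.MP_1ae3da_al.CT.R5

open Function Submodule

variable {F k X : Type} [Field F] [CharZero F] [IsAlgClosed F] [Field k] [Group X] [Finite X]
  {p a : ℕ} [Fact p.Prime] {O R : Subring F} [IsDiscreteValuationRing O] {r : F → k}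
  {GG : Subgroup (RingAut F)} {Q : Subgroup X} {ga : X → MonoidAlgebra F X} {d : Nz Q}
  {g : MonoidAlgebra O (Nz Q)} {e e' ψ η θ i ε : MonoidAlgebra F X}
  {γ : RingAut (MonoidAlgebra F X)} {om : X → F}
  {T : MonoidAlgebra F X →ₗ[F] MonoidAlgebra F X} {s : MonoidAlgebra F X → ℕ}

variable {v A : Set (MonoidAlgebra F X)} {b : Bool}

theorem yTy_sup {V : Lat O X} (he : e ∈ Irr F (HX F (⊤ : Subgroup X)))
    (h : Mult V ((VxC Q ga p O GG e).indicator fun _ => 1)) : Sup V = VxC Q ga p O GG e := by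
  ext z
  rw [h.sup]
  refine ⟨fun k => Set.mem_of_indicator_ne_zero k.2, fun k => ⟨vx_irr he k, ?_⟩⟩
  rw [Set.indicator_of_mem k]
  exact one_ne_zero

theorem Cx.st_wk (hC : Cx p a O R r GG Q ga d g) (h : StC p a GG Q ga g v ψ b) :
    WkC p a Q g v ψ b := by
  obtain ⟨⟨e, he, rfl⟩, -, V, M, Φ, h1, h2, h3⟩ := h
  exact ⟨V, M, Φ, h1.tie, h2, (yTy_sup he h3).le⟩

/-- `Cx.iso`, `Src.ne`, `sup_hom`. -/
theorem Cx.uniq (hC : Cx p a O R r GG Q ga d g) (h : StC p a GG Q ga g v ψ b)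
    (h' : WkC p a Q g A ψ b) : (v ∩ A).Nonempty := by
  obtain ⟨⟨e, he, rfl⟩, -, V, M, Φ, h1, h2, h3⟩ := h
  obtain ⟨V', M', Φ', k1, k2, k3⟩ := h'
  obtain ⟨f, hf, hb⟩ := hC.iso h2 k2
  obtain ⟨w, hw, h0⟩ := h1.ne hC.pm.wt k1 hf hb h2.good.ir.1
  obtain ⟨z, z1, z2⟩ := sup_hom hw h0
  exact ⟨z, yTy_sup he h3 ▸ z1, k3 z2⟩

/-- `lcl_tot`, `Cx.edgeP`, `vx_eq`. -/
theorem Cx.edge (hC : Cx p a O R r GG Q ga d g) (hO : Om GG Q om T)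
    (he : e ∈ Irr F (HX F (⊤ : Subgroup X))) (hη : η ∈ EtC Q ga)
    (h0 : cvC Q ga p (VxC Q ga p O GG e) η ≠ 0) : ∃ ψ v v', StC p a GG Q ga g v ψ false ∧
      StC p a GG Q ga g v' ψ true ∧ (v = VxC Q ga p O GG e ∨ v' = VxC Q ga p O GG e) := by
  obtain ⟨P, hP, hl, hs⟩ := lcl_tot (O := O) hC.pm.wt he
  obtain ⟨ψ, v, v', h1, h2, h3⟩ := hC.edgeP hO hP hl hs hη h0
  refine ⟨ψ, v, v', h1, h2, ?_⟩
  rw [h3] at hs
  obtain ⟨⟨x, hx, rfl⟩, -⟩ := h1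
  obtain ⟨⟨y, hy, rfl⟩, -⟩ := h2
  exact hs.imp (fun c => (vx_eq hC.pm hC.gl.cy hC.ga0 hO hx c).symm)
    fun c => (vx_eq hC.pm hC.gl.cy hC.ga0 hO hy c).symm

end Pool.Agent.Lib.MP_1ae3da_al.CT.R5
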