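import Pool.Agent.Lib.MP_1ae3da_al.Y.Nx

set_option autoImplicit false
set_option linter.unusedSectionVars false

/-! Linked intertwiners (edited copy of C/RLU0). -/

namespace Pool.Agent.Lib.MP_1ae3da_al.CT.R5

open Function

variable {O X Y : Type} [CommRing O] [IsDomain O] [IsDiscreteValuationRing O] [CharZero O]
  [Group X] [Finite X] [Group Y] [Finite Y] {p a : ℕ} {Q : Subgroup X}
  {d : Nz Q} {g : MonoidAlgebra O (Nz Q)}

variable {V : Lat O X} {M : Lat O (Nz Q)} {i : Bool} {Φ : Submodule O (V.V × M.V)}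
  {α : X ≃* X} {β : Nz Q ≃* Nz Q}

theorem Wt.u_totC (hW : Wt p O) (hG : Gl p a Q d g) (hs : Src p a Q g V M i Φ)
    (hM : Good g M) (hS : V.Sca) (hk : ¬ p ∣ V.rk) (hr : Res Q α β)
    (hc : Cg p (RingEquiv.refl O) β g) (hψ : ∀ n, M.ch (β n) = M.ch n) :
    ∃ w w', U0 p Q V M Φ α β w w' :=
  hG.u_tot hW hs hM hS hk hr hc hψ

theorem Wt.u_fnC (hW : Wt p O) (hG : Gl p a Q d g) (ht : TieC p a g (V.rs Q) M i Φ)
    (hM : Good g M) (hS : V.Sca) (hk : ¬ p ∣ V.rk) {w x : Module.End O V.V}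
    {w' x' : Module.End O M.V} (h1 : U0 p Q V M Φ α β w w') (h2 : U0 p Q V M Φ α β x x') :
    ∃ u : O, x = u • w ∧ x' = u • w' :=
  hG.u_fn hW ht hM hS hk h1 h2

/-- `Cyc.mup` for the determinant on `M`. -/
theorem u_locC (hG : Gl p a Q d g) (ht : TieC p a g (V.rs Q) M i Φ) (n : Nz Q)
    (ha : ∀ y, α y = n * y * (n : X)⁻¹) (hb : ∀ y, β y = n * y * n⁻¹) :
    U0 p Q V M Φ α β (V.ρ n) (M.ρ n) :=
  hG.u_loc ht n ha hb

end Pool.Agent.Lib.MP_1ae3da_al.CT.R5
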